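import Pool.Agent.Lib.MP_276d40_pr.Incr

open MeasureTheory ProbabilityTheory Filter Topology Finset
open scoped ENNReal NNReal

set_option linter.unusedSectionVars false
set_option linter.unusedVariables false

namespace Pool.Agent.BW

section Walk

variable {I : Type} [DecidableEq I] [Countable I] {ch : List I → Finset I} {lam : ℝ}
  {Ω : Type} [MeasurableSpace Ω] {P : Measure Ω} {X : ℕ → Ω → List I}

variable {ρ : ℝ} {W : List I → ℝ}

private theorem stay_adapt (X : ℕ → Ω → List I) (ℓ t : ℕ) : Adapt X t (stay X ℓ t) := by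
  intro ω ω' h
  unfold stay
  have : (∀ s ≤ t, (X s ω).length < ℓ) ↔ (∀ s ≤ t, (X s ω').length < ℓ) := by
    constructor
    · intro H s hs; rw [← h s hs]; exact H s hs
    · intro H s hs; rw [h s hs]; exact H s hs
  simp only [this]

private theorem stay_zero_or_one (X : ℕ → Ω → List I) (ℓ t : ℕ) (ω : Ω) :
    stay X ℓ t ω = 0 ∨ stay X ℓ t ω = 1 := by
  unfold stay; split_ifs
  · exact Or.inr rfl
  · exact Or.inl rfl

private theorem stay_eq_one_iff (X : ℕ → Ω → List I) (ℓ t : ℕ) (ω : Ω) :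
    stay X ℓ t ω = 1 ↔ ∀ s ≤ t, (X s ω).length < ℓ := by
  unfold stay; split_ifs with h
  · simp only [true_iff]; exact h
  · simp only [zero_ne_one, false_iff]; exact h

private theorem stay_anti (X : ℕ → Ω → List I) (ℓ t : ℕ) (ω : Ω) :
    stay X ℓ (t + 1) ω ≤ stay X ℓ t ω := by
  unfold stay
  by_cases h : ∀ s ≤ t, (X s ω).length < ℓ
  · rw [if_pos h]; split_ifs <;> norm_num
  · have h' : ¬ ∀ s ≤ t + 1, (X s ω).length < ℓ := fun H => h fun s hs => H s (by omega)
    rw [if_neg h, if_neg h']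

private theorem stay_wgt (X : ℕ → Ω → List I) (ℓ : ℕ) : Wgt X ℓ 0 (stay X ℓ) where
  adapt := stay_adapt X ℓ
  nonneg t ω := by rcases stay_zero_or_one X ℓ t ω with h | h <;> rw [h]; norm_num
  le_one t ω := by rcases stay_zero_or_one X ℓ t ω with h | h <;> rw [h]; norm_num
  zero t ht := by omega
  anti t _ ω := stay_anti X ℓ t ω
  supp t ω h := by
    rcases stay_zero_or_one X ℓ t ω with h' | h'
    · exact absurd h' h
    · exact (stay_eq_one_iff X ℓ t ω).1 h'

private theorem root_nonempty (hB : Base ch ρ W X P) : (ch []).Nonempty := by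
  rw [Finset.nonempty_iff_ne_empty]
  intro h
  have h1 := hB.W_flow []
  rw [Up, h, Finset.sum_empty] at h1
  have h2 : 0 < ρ * W [] := mul_pos (lt_trans one_pos hB.one_lt) hB.W_root
  rw [h1] at h2
  exact lt_irrefl _ h2

private theorem Nb_length {v w : List I} (h : Nb ch v w) : w.length ≤ v.length + 1 := by
  rcases h with ⟨i, -, rfl⟩ | ⟨i, rfl⟩
  · simp
  · simp; omega

/-- telescoping up to the first time at level `ℓ` -/
private theorem tele (S : List I → ℝ) (ℓ N τ : ℕ) (ω : Ω) (hτN : τ ≤ N)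
    (hlt : ∀ s < τ, (X s ω).length < ℓ) (hτ : ℓ ≤ (X τ ω).length) :
    ∑ t ∈ range N, stay X ℓ t ω * (S (X (t + 1) ω) - S (X t ω)) = S (X τ ω) - S (X 0 ω) := by
  have h1 : ∀ t ∈ range N, stay X ℓ t ω * (S (X (t + 1) ω) - S (X t ω)) =
      if t < τ then (S (X (t + 1) ω) - S (X t ω)) else 0 := by
    intro t _
    by_cases h : t < τ
    · rw [if_pos h, (stay_eq_one_iff X ℓ t ω).2 fun s hs => hlt s (by omega), one_mul]
    · rw [if_neg h]
      rcases stay_zero_or_one X ℓ t ω with h' | h'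
      · rw [h', zero_mul]
      · have := (stay_eq_one_iff X ℓ t ω).1 h' τ (by omega)
        omega
  rw [Finset.sum_congr rfl h1, ← Finset.sum_filter]
  have h2 : (range N).filter (fun t => t < τ) = range τ := by
    ext t; simp only [Finset.mem_filter, Finset.mem_range]; omega
  rw [h2, Finset.sum_range_sub (fun t => S (X t ω))]

theorem tightW (hB : Base ch ρ W X P) {C θ κ' : ℝ} (hO : Occ ch ρ X P C)
    (hE : EtaW ch ρ W X P θ) (hκ : 0 < κ')
    (hlow : Tendsto (fun ℓ : ℕ => (ℓ : ℝ) * ∑ k ∈ range (ℓ + 1),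
      mu ch ρ k (fun v => if ∃ m : ℕ, m ≤ v.length ∧ (1 : ℝ) * (ℓ : ℝ) ≤ (m : ℝ) ∧
        ps W v - ps W (v.drop m) < κ' * m then 1 else 0)) atTop (𝓝 0)) : TightW X P := by
  have hne := root_nonempty hB
  have hρ0 : 0 < ρ := lt_trans one_pos hB.one_lt
  have := hB.walk.prob
  intro T hT η hη
  -- constants
  set ε : ℝ := η * κ' ^ 2 / 4 with hε
  have hεpos : 0 < ε := by positivity
  obtain ⟨ℓ0, hℓ0⟩ := hE ε hεpos
  set K : ℝ := √(4 * (|θ| + 1) * T / (η * κ' ^ 2)) with hKdef
  have hKarg : 0 < 4 * (|θ| + 1) * T / (η * κ' ^ 2) := by positivity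
  have hK : 0 < K := Real.sqrt_pos.2 hKarg
  have hK2 : K ^ 2 = 4 * (|θ| + 1) * T / (η * κ' ^ 2) := Real.sq_sqrt hKarg.le
  refine ⟨K, hK, ?_⟩
  -- eventually ℓ large
  have hlim : Tendsto (fun n : ℕ => ⌈K * √(n : ℝ)⌉₊) atTop atTop := by
    refine tendsto_nat_ceil_atTop.comp ?_
    exact ((Real.tendsto_sqrt_atTop).comp tendsto_natCast_atTop_atTop).const_mul_atTop hK
  have hlow' : ∀ᶠ ℓ : ℕ in atTop, C * ((ℓ : ℝ) * ∑ k ∈ range (ℓ + 1), mu ch ρ k
      (fun v => if ∃ m : ℕ, m ≤ v.length ∧ (1 : ℝ) * ℓ ≤ m ∧ ps W v - ps W (v.drop m) < κ' * m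
        then 1 else 0)) ≤ η / 2 := by
    have h1 := (hlow.const_mul C)
    rw [mul_zero] at h1
    exact h1.eventually_le_const (by positivity)
  filter_upwards [hlim.eventually hlow', hlim.eventually (eventually_ge_atTop ℓ0),
    hlim.eventually (eventually_ge_atTop 1)] with n hn1 hn2 hn3
  set ℓ : ℕ := ⌈K * √(n : ℝ)⌉₊ with hℓ
  set N : ℕ := ⌊T * (n : ℝ)⌋₊ with hN
  set b : List I → ℝ := (fun v => if ∃ m : ℕ, m ≤ v.length ∧ (1 : ℝ) * ℓ ≤ m ∧
    ps W v - ps W (v.drop m) < κ' * m then 1 else 0) with hb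
  have hb0 : ∀ v, 0 ≤ b v := by
    intro v; rw [hb]; dsimp only; split_ifs <;> norm_num
  have hℓpos : (0 : ℝ) < ℓ := by exact_mod_cast hn3
  obtain ⟨U, hUad, hU0, hUae, hUint⟩ := hO.cross ℓ N b hb0
  -- the increment functional
  set D : Ω → ℝ := fun ω => ∑ t ∈ range N, stay X ℓ t ω * (ps W (X (t + 1) ω) - ps W (X t ω))
    with hD
  have hDad : Adapt X N (fun ω => D ω ^ 2) := by
    intro ω ω' h
    have : D ω = D ω' := by
      rw [hD]; dsimp only
      refine Finset.sum_congr rfl fun t ht => ?_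
      have ht' := Finset.mem_range.1 ht
      rw [stay_adapt X ℓ t ω ω' (fun k hk => h k (by omega)), h t (by omega), h (t + 1) (by omega)]
    dsimp only
    rw [this]
  have hDint := hDad.integrable hB.walk hρ0 hne
  have hUint' := hUad.integrable hB.walk hρ0 hne
  have hD2 : ∫ ω, D ω ^ 2 ∂P ≤ |θ| * N + ε * (ℓ : ℝ) ^ 2 := by
    have h1 := incr_sq hB (w := stay X ℓ) (stay_adapt X ℓ) (stay_zero_or_one X ℓ)
      (by
        intro ω r s t _ hst _ ht
        rw [stay_eq_one_iff] at ht ⊢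
        exact fun u hu => ht u (by omega)) N
    refine h1.trans ?_
    have h2 := hℓ0 ℓ hn2 0 N (stay X ℓ) (stay_wgt X ℓ)
    have hi1 : ∀ t, Integrable (fun ω => stay X ℓ t ω * eta ch ρ W (X t ω)) P := by
      intro t
      refine Adapt.integrable hB.walk hρ0 hne (n := t) ?_
      intro ω ω' h
      dsimp only
      rw [stay_adapt X ℓ t ω ω' h, h t le_rfl]
    have hi2 : ∀ t, Integrable (fun ω => stay X ℓ t ω * θ) P := by
      intro t
      refine Adapt.integrable hB.walk hρ0 hne (n := t) ?_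
      intro ω ω' h
      dsimp only
      rw [stay_adapt X ℓ t ω ω' h]
    have h3 : ∫ ω, ∑ t ∈ range N, stay X ℓ t ω * eta ch ρ W (X t ω) ∂P =
        ∫ ω, ∑ t ∈ range N, stay X ℓ t ω * (eta ch ρ W (X t ω) - θ) ∂P +
        ∫ ω, ∑ t ∈ range N, stay X ℓ t ω * θ ∂P := by
      rw [← integral_add]
      · refine integral_congr_ae (Eventually.of_forall fun ω => ?_)
        dsimp only
        rw [← Finset.sum_add_distrib]
        refine Finset.sum_congr rfl fun t _ => ?_
        ring
      · refine integrable_finsetSum _ fun t _ => ?_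
        have := (hi1 t).sub (hi2 t)
        refine this.congr (Eventually.of_forall fun ω => ?_)
        simp only [Pi.sub_apply]
        ring
      · exact integrable_finsetSum _ fun t _ => hi2 t
    have h4 : ∫ ω, ∑ t ∈ range N, stay X ℓ t ω * θ ∂P ≤ |θ| * N := by
      have : ∀ ω, ∑ t ∈ range N, stay X ℓ t ω * θ ≤ |θ| * N := by
        intro ω
        calc ∑ t ∈ range N, stay X ℓ t ω * θ ≤ ∑ t ∈ range N, |θ| := by
              refine Finset.sum_le_sum fun t _ => ?_
              rcases stay_zero_or_one X ℓ t ω with h | h <;> rw [h]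
              · rw [zero_mul]; exact abs_nonneg _
              · rw [one_mul]; exact le_abs_self _
          _ = |θ| * N := by rw [Finset.sum_const, Finset.card_range, nsmul_eq_mul, mul_comm]
      calc ∫ ω, ∑ t ∈ range N, stay X ℓ t ω * θ ∂P ≤ ∫ ω, |θ| * N ∂P :=
            integral_mono (integrable_finsetSum _ fun t _ => hi2 t) (integrable_const _) this
        _ = |θ| * N := by simp
    have h5 := (le_abs_self _).trans h2
    linarith
  -- pointwise bound
  have hpt : ∀ᵐ ω ∂P, (Exit X ℓ N).indicator (fun _ => (1 : ℝ)) ω ≤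
      D ω ^ 2 / (κ' * ℓ) ^ 2 + U ω := by
    filter_upwards [hUae, hB.walk.ae_path hρ0 hne] with ω h1 h2
    by_cases hω : ω ∈ Exit X ℓ N
    · rw [Set.indicator_of_mem hω]
      obtain ⟨s, hsN, hs⟩ := hω
      classical
      have hex : ∃ s, ℓ ≤ (X s ω).length := ⟨s, hs⟩
      set τ := Nat.find hex with hτdef
      have hτ : ℓ ≤ (X τ ω).length := Nat.find_spec hex
      have hτlt : ∀ r < τ, (X r ω).length < ℓ := fun r hr => not_le.1 (Nat.find_min hex hr)
      have hτN : τ ≤ N := (Nat.find_min' hex hs).trans hsN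
      have hτpos : τ ≠ 0 := by
        intro h0
        rw [h0, h2.1] at hτ
        simp only [List.length_nil] at hτ
        omega
      obtain ⟨r, hr⟩ := Nat.exists_eq_succ_of_ne_zero hτpos
      have hlen : (X τ ω).length = ℓ := by
        refine le_antisymm ?_ hτ
        have h3 := Nb_length (h2.2 r)
        have h4 := hτlt r (by omega)
        rw [hr]
        have : (X (r + 1) ω).length ≤ (X r ω).length + 1 := h3
        show (X (r + 1) ω).length ≤ ℓ
        omega
      by_cases hcase : κ' * ℓ ≤ ps W (X τ ω)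
      · have hDτ : D ω = ps W (X τ ω) := by
          rw [hD]; dsimp only
          rw [tele (X := X) (ps W) ℓ N τ ω hτN hτlt hτ, h2.1, ps_nil, sub_zero]
        have h5 : 1 ≤ D ω ^ 2 / (κ' * ℓ) ^ 2 := by
          rw [le_div_iff₀ (by positivity), one_mul, hDτ]
          exact pow_le_pow_left₀ (by positivity) hcase 2
        linarith [hU0 ω]
      · have hb1 : b (X τ ω) = 1 := by
          rw [hb]; dsimp only
          rw [if_pos]
          refine ⟨ℓ, hlen.ge, by rw [one_mul], ?_⟩
          rw [← hlen, List.drop_length, ps_nil, sub_zero, hlen]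
          exact not_le.1 hcase
        have h6 : b (X τ ω) ≤ ps b (X τ ω) := by
          cases hX : X τ ω with
          | nil => rw [hX] at hlen; simp only [List.length_nil] at hlen; omega
          | cons i v => rw [ps_cons]; linarith [ps_nonneg hb0 v]
        have h7 := h1 τ hτN hτlt
        have h8 : 0 ≤ D ω ^ 2 / (κ' * ℓ) ^ 2 := by positivity
        linarith
    · rw [Set.indicator_of_notMem hω]
      have h8 : 0 ≤ D ω ^ 2 / (κ' * ℓ) ^ 2 := by positivity
      linarith [hU0 ω]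
  -- measurability
  have hmeas : MeasurableSet (Exit X ℓ N) := by
    refine measurableSet_adapt hB.walk (n := N) ?_
    intro ω ω' h
    constructor
    · rintro ⟨s, hs, h1⟩; exact ⟨s, hs, by rw [← h s hs]; exact h1⟩
    · rintro ⟨s, hs, h1⟩; exact ⟨s, hs, by rw [h s hs]; exact h1⟩
  have hPr : P.real (Exit X ℓ N) ≤ (|θ| * N + ε * (ℓ : ℝ) ^ 2) / (κ' * ℓ) ^ 2 + η / 2 := by
    calc P.real (Exit X ℓ N) = ∫ ω, (Exit X ℓ N).indicator (fun _ => (1 : ℝ)) ω ∂P := by
          rw [integral_indicator hmeas]; simp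
      _ ≤ ∫ ω, (D ω ^ 2 / (κ' * ℓ) ^ 2 + U ω) ∂P := by
          refine integral_mono_ae ((integrable_const (1 : ℝ)).indicator hmeas) ?_ hpt
          exact (hDint.div_const _).add hUint'
      _ = (∫ ω, D ω ^ 2 ∂P) / (κ' * ℓ) ^ 2 + ∫ ω, U ω ∂P := by
          rw [integral_add (hDint.div_const _) hUint', integral_div]
      _ ≤ (|θ| * N + ε * (ℓ : ℝ) ^ 2) / (κ' * ℓ) ^ 2 + η / 2 := by
          refine add_le_add ?_ ?_
          · exact div_le_div_of_nonneg_right hD2 (by positivity)
          · refine hUint.trans ?_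
            rw [mul_assoc]
            exact hn1
  refine hPr.trans ?_
  -- N ≤ T n ≤ T ℓ² / K²
  have hNle : (N : ℝ) ≤ T * n := Nat.floor_le (by positivity)
  have hnle : K ^ 2 * n ≤ (ℓ : ℝ) ^ 2 := by
    have h1 : K * √(n : ℝ) ≤ ℓ := Nat.le_ceil _
    have h2 : (K * √(n : ℝ)) ^ 2 ≤ (ℓ : ℝ) ^ 2 := pow_le_pow_left₀ (by positivity) h1 2
    rwa [mul_pow, Real.sq_sqrt (Nat.cast_nonneg n)] at h2
  have hmain : (|θ| * N + ε * (ℓ : ℝ) ^ 2) / (κ' * ℓ) ^ 2 ≤ η / 2 := by
    rw [div_le_iff₀ (by positivity)]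
    have h1 : |θ| * N ≤ η * κ' ^ 2 / 4 * (ℓ : ℝ) ^ 2 := by
      have h2 : |θ| * N ≤ (|θ| + 1) * (T * n) := by
        have h3 : (0 : ℝ) ≤ T * n := by positivity
        nlinarith [abs_nonneg θ]
      refine h2.trans ?_
      have h4 : (|θ| + 1) * (T * n) = η * κ' ^ 2 / 4 * (K ^ 2 * n) := by
        rw [hK2]; field_simp
      rw [h4]
      exact mul_le_mul_of_nonneg_left hnle (by positivity)
    rw [hε]
    nlinarith
  linarith

end Walk

end Pool.Agent.BW
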