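import Pool.Agent.Lib.MP_276d40_pr.Incr

/-!
# Window estimates: a Kolmogorov and an Ottaviani type inequality for `S = ps W` along the walk
-/

open MeasureTheory ProbabilityTheory Filter Topology Finset
open scoped ENNReal NNReal

set_option linter.unusedSectionVars false
set_option linter.unusedVariables false

namespace Pool.Agent.BW

section Walk

variable {I : Type} [DecidableEq I] [Countable I] {ch : List I → Finset I} {lam : ℝ}
  {Ω : Type} [MeasurableSpace Ω] {P : Measure Ω} {X : ℕ → Ω → List I}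

variable {ρ : ℝ} {W : List I → ℝ}

/-- indicator of `M ≤ r` and: below level `ℓ` up to time `r` -/
noncomputable def winA (X : ℕ → Ω → List I) (ℓ M r : ℕ) (ω : Ω) : ℝ :=
  open Classical in if M ≤ r ∧ ∀ s ≤ r, (X s ω).length < ℓ then 1 else 0

/-- indicator of `M ≤ r` and: below level `ℓ` up to time `r`, and `S` has moved by at most `D`
since time `M` -/
noncomputable def winB (X : ℕ → Ω → List I) (W : List I → ℝ) (ℓ M : ℕ) (D : ℝ) (r : ℕ)
    (ω : Ω) : ℝ :=
  open Classical in if M ≤ r ∧ (∀ s ≤ r, (X s ω).length < ℓ) ∧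
    ∀ s, M ≤ s → s ≤ r → |ps W (X s ω) - ps W (X M ω)| ≤ D then 1 else 0

/-- indicator of `M ≤ r` and: below level `ℓ` up to time `r`, and `S` has moved by more than `D`
since time `M` -/
noncomputable def winC (X : ℕ → Ω → List I) (W : List I → ℝ) (ℓ M : ℕ) (D : ℝ) (r : ℕ)
    (ω : Ω) : ℝ :=
  open Classical in if M ≤ r ∧ (∀ s ≤ r, (X s ω).length < ℓ) ∧
    ∃ s, M ≤ s ∧ s ≤ r ∧ D < |ps W (X s ω) - ps W (X M ω)| then 1 else 0

theorem winC_eq (ℓ M : ℕ) (D : ℝ) (r : ℕ) (ω : Ω) :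
    winC X W ℓ M D r ω = winA X ℓ M r ω - winB X W ℓ M D r ω := by
  unfold winA winB winC
  by_cases h1 : M ≤ r ∧ ∀ s ≤ r, (X s ω).length < ℓ
  · rw [if_pos h1]
    by_cases h2 : ∃ s, M ≤ s ∧ s ≤ r ∧ D < |ps W (X s ω) - ps W (X M ω)|
    · rw [if_pos ⟨h1.1, h1.2, h2⟩, if_neg, sub_zero]
      rintro ⟨-, -, h3⟩
      obtain ⟨s, hs1, hs2, hs3⟩ := h2
      exact absurd (h3 s hs1 hs2) (not_le.2 hs3)
    · rw [if_neg (fun h => h2 h.2.2), if_pos, sub_self]
      refine ⟨h1.1, h1.2, fun s hs1 hs2 => ?_⟩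
      by_contra h3
      exact h2 ⟨s, hs1, hs2, not_le.1 h3⟩
  · rw [if_neg h1, if_neg (fun h => h1 ⟨h.1, h.2.1⟩), if_neg (fun h => h1 ⟨h.1, h.2.1⟩), sub_self]

theorem winA_adapt (ℓ M r : ℕ) : Adapt X r (winA X ℓ M r) := by
  intro ω ω' hω
  unfold winA
  have h : (M ≤ r ∧ ∀ s ≤ r, (X s ω).length < ℓ) ↔ (M ≤ r ∧ ∀ s ≤ r, (X s ω').length < ℓ) := by
    refine and_congr Iff.rfl (forall_congr' fun s => forall_congr' fun hs => ?_)
    rw [hω s hs]
  simp only [h]

theorem winB_adapt (ℓ M : ℕ) (D : ℝ) (r : ℕ) : Adapt X r (winB X W ℓ M D r) := by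
  intro ω ω' hω
  unfold winB
  by_cases hM : M ≤ r
  · have h : (M ≤ r ∧ (∀ s ≤ r, (X s ω).length < ℓ) ∧
        ∀ s, M ≤ s → s ≤ r → |ps W (X s ω) - ps W (X M ω)| ≤ D) ↔
        (M ≤ r ∧ (∀ s ≤ r, (X s ω').length < ℓ) ∧
        ∀ s, M ≤ s → s ≤ r → |ps W (X s ω') - ps W (X M ω')| ≤ D) := by
      refine and_congr Iff.rfl (and_congr (forall_congr' fun s => forall_congr' fun hs => ?_)
        (forall_congr' fun s => forall_congr' fun _ => forall_congr' fun hs => ?_))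
      · rw [hω s hs]
      · rw [hω s hs, hω M hM]
    simp only [h]
  · rw [if_neg (fun h => hM h.1), if_neg (fun h => hM h.1)]

theorem winC_adapt (ℓ M : ℕ) (D : ℝ) (r : ℕ) : Adapt X r (winC X W ℓ M D r) := by
  intro ω ω' hω
  rw [winC_eq, winC_eq, winA_adapt ℓ M r ω ω' hω, winB_adapt ℓ M D r ω ω' hω]

theorem winA_wgt (ℓ M : ℕ) : Wgt X ℓ M (winA X ℓ M) where
  adapt := winA_adapt ℓ M
  nonneg t ω := by unfold winA; split_ifs <;> norm_num
  le_one t ω := by unfold winA; split_ifs <;> norm_num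
  zero t ht ω := by
    unfold winA
    rw [if_neg (fun h => absurd h.1 (not_le.2 ht))]
  anti t ht ω := by
    unfold winA
    by_cases h : M ≤ t + 1 ∧ ∀ s ≤ t + 1, (X s ω).length < ℓ
    · rw [if_pos h, if_pos ⟨ht, fun s hs => h.2 s (hs.trans (Nat.le_succ t))⟩]
    · rw [if_neg h]
      split_ifs <;> norm_num
  supp t ω h s hs := by
    unfold winA at h
    split_ifs at h with h1
    · exact h1.2 s hs
    · exact absurd rfl h

theorem winB_wgt (ℓ M : ℕ) (D : ℝ) : Wgt X ℓ M (winB X W ℓ M D) where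
  adapt := winB_adapt ℓ M D
  nonneg t ω := by unfold winB; split_ifs <;> norm_num
  le_one t ω := by unfold winB; split_ifs <;> norm_num
  zero t ht ω := by
    unfold winB
    rw [if_neg (fun h => absurd h.1 (not_le.2 ht))]
  anti t ht ω := by
    unfold winB
    by_cases h : M ≤ t + 1 ∧ (∀ s ≤ t + 1, (X s ω).length < ℓ) ∧
        ∀ s, M ≤ s → s ≤ t + 1 → |ps W (X s ω) - ps W (X M ω)| ≤ D
    · rw [if_pos h, if_pos ⟨ht, fun s hs => h.2.1 s (hs.trans (Nat.le_succ t)),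
        fun s hs1 hs2 => h.2.2 s hs1 (hs2.trans (Nat.le_succ t))⟩]
    · rw [if_neg h]
      split_ifs <;> norm_num
  supp t ω h s hs := by
    unfold winB at h
    split_ifs at h with h1
    · exact h1.2.1 s hs
    · exact absurd rfl h

theorem winB_one_iff (ℓ M : ℕ) (D : ℝ) (r : ℕ) (ω : Ω) : winB X W ℓ M D r ω = 1 ↔
    M ≤ r ∧ (∀ s ≤ r, (X s ω).length < ℓ) ∧
    ∀ s, M ≤ s → s ≤ r → |ps W (X s ω) - ps W (X M ω)| ≤ D := by
  unfold winB
  split_ifs with h
  · exact ⟨fun _ => h, fun _ => rfl⟩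
  · exact ⟨fun h' => absurd h' zero_ne_one, fun h' => absurd h' h⟩

theorem winC_one_iff (ℓ M : ℕ) (D : ℝ) (r : ℕ) (ω : Ω) : winC X W ℓ M D r ω = 1 ↔
    M ≤ r ∧ (∀ s ≤ r, (X s ω).length < ℓ) ∧
    ∃ s, M ≤ s ∧ s ≤ r ∧ D < |ps W (X s ω) - ps W (X M ω)| := by
  unfold winC
  split_ifs with h
  · exact ⟨fun _ => h, fun _ => rfl⟩
  · exact ⟨fun h' => absurd h' zero_ne_one, fun h' => absurd h' h⟩

theorem winB_zero_or (ℓ M : ℕ) (D : ℝ) (r : ℕ) (ω : Ω) :
    winB X W ℓ M D r ω = 0 ∨ winB X W ℓ M D r ω = 1 := by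
  unfold winB
  split_ifs
  · exact Or.inr rfl
  · exact Or.inl rfl

theorem winC_zero_or (ℓ M : ℕ) (D : ℝ) (r : ℕ) (ω : Ω) :
    winC X W ℓ M D r ω = 0 ∨ winC X W ℓ M D r ω = 1 := by
  unfold winC
  split_ifs
  · exact Or.inr rfl
  · exact Or.inl rfl

private theorem win_telescope (g : ℕ → ℝ) (c : ℕ → ℝ) (a b N : ℕ) (hab : a ≤ b) (hbN : b ≤ N)
    (h1 : ∀ t < N, a ≤ t → t < b → c t = 1) (h0 : ∀ t < N, (t < a ∨ b ≤ t) → c t = 0) :
    ∑ t ∈ range N, c t * (g (t + 1) - g t) = g b - g a := by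
  have h2 : ∑ t ∈ range N, c t * (g (t + 1) - g t) =
      ∑ t ∈ range N, (g (max a (min (t + 1) b)) - g (max a (min t b))) := by
    refine Finset.sum_congr rfl fun t ht => ?_
    have ht' := Finset.mem_range.1 ht
    rcases lt_or_ge t a with h | h
    · rw [h0 t ht' (Or.inl h)]
      have e1 : max a (min (t + 1) b) = a := by omega
      have e2 : max a (min t b) = a := by omega
      rw [e1, e2]
      ring
    · rcases lt_or_ge t b with h' | h'
      · rw [h1 t ht' h h']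
        have e1 : max a (min (t + 1) b) = t + 1 := by omega
        have e2 : max a (min t b) = t := by omega
        rw [e1, e2]
        ring
      · rw [h0 t ht' (Or.inr h')]
        have e1 : max a (min (t + 1) b) = b := by omega
        have e2 : max a (min t b) = b := by omega
        rw [e1, e2]
        ring
  rw [h2, Finset.sum_range_sub (fun t => g (max a (min t b)))]
  have e1 : max a (min N b) = b := by omega
  have e2 : max a (min 0 b) = a := by omega
  rw [e1, e2]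

private theorem win_first {ℓ M N : ℕ} {D : ℝ} (hD : 0 < D) {ω : Ω}
    (hω : ω ∈ WinOut X W ℓ M N D) : ∃ r, M < r ∧ r ≤ N ∧ (∀ s < r, (X s ω).length < ℓ) ∧
      D < |ps W (X r ω) - ps W (X M ω)| ∧
      ∀ s, M ≤ s → s < r → |ps W (X s ω) - ps W (X M ω)| ≤ D := by
  classical
  obtain ⟨r, h1, h2, h3, h4⟩ := hω
  have hex : ∃ r, M < r ∧ D < |ps W (X r ω) - ps W (X M ω)| := ⟨r, h1, h4⟩
  have hle : Nat.find hex ≤ r := Nat.find_min' hex ⟨h1, h4⟩
  refine ⟨Nat.find hex, (Nat.find_spec hex).1, hle.trans h2,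
    fun s hs => h3 s (hs.trans_le hle), (Nat.find_spec hex).2, fun s hs1 hs2 => ?_⟩
  by_contra h5
  rcases eq_or_lt_of_le hs1 with h6 | h6
  · rw [← h6, sub_self, abs_zero] at h5
    exact h5 hD.le
  · exact Nat.find_min hex hs2 ⟨h6, not_le.1 h5⟩

private theorem winOut_meas (hX : IsWalk ch ρ X P) (ℓ M N : ℕ) (D : ℝ) :
    MeasurableSet (WinOut X W ℓ M N D) := by
  refine measurableSet_adapt hX (n := N) ?_
  have key : ∀ ω ω', (∀ k ≤ N, X k ω = X k ω') → ω ∈ WinOut X W ℓ M N D →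
      ω' ∈ WinOut X W ℓ M N D := by
    rintro ω ω' hω ⟨r, h1, h2, h3, h4⟩
    refine ⟨r, h1, h2, fun s hs => ?_, ?_⟩
    · rw [← hω s (hs.le.trans h2)]
      exact h3 s hs
    · rw [← hω r h2, ← hω M (h1.le.trans h2)]
      exact h4
  exact fun ω ω' hω => ⟨key ω ω' hω, key ω' ω fun k hk => (hω k hk).symm⟩

/-- Chebyshev inequality -/
private theorem win_cheb (hB : Base ch ρ W X P) {n : ℕ} {F : Ω → ℝ} (hF : Adapt X n F)
    {D : ℝ} {E : Set Ω} (hE : ∀ ω ∈ E, D ^ 2 ≤ F ω ^ 2) :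
    D ^ 2 * P.real E ≤ ∫ ω, F ω ^ 2 ∂P := by
  have hX := hB.walk
  have := hX.prob
  have hi : Integrable (fun ω => F ω ^ 2) P :=
    (hF.ipow 2).integrable hX (incr_pos hB) (incr_nonempty hB)
  have h1 := mul_meas_ge_le_integral_of_nonneg (ae_of_all _ fun ω => sq_nonneg (F ω)) hi (D ^ 2)
  have h2 : P.real E ≤ P.real {ω | D ^ 2 ≤ F ω ^ 2} := measureReal_mono fun ω hω => hE ω hω
  exact (mul_le_mul_of_nonneg_left h2 (sq_nonneg D)).trans h1

private theorem win_eta_split (hB : Base ch ρ W X P) (θ : ℝ) {w : ℕ → Ω → ℝ}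
    (hw : ∀ t, Adapt X t (w t)) (N : ℕ) :
    ∫ ω, ∑ t ∈ range N, w t ω * eta ch ρ W (X t ω) ∂P =
      ∫ ω, ∑ t ∈ range N, w t ω * (eta ch ρ W (X t ω) - θ) ∂P +
        θ * ∫ ω, ∑ t ∈ range N, w t ω ∂P := by
  have hX := hB.walk
  have hint : ∀ {n : ℕ} {Z : Ω → ℝ}, Adapt X n Z → Integrable Z P :=
    fun hZ => hZ.integrable hX (incr_pos hB) (incr_nonempty hB)
  have i1 : Integrable (fun ω => ∑ t ∈ range N, w t ω * (eta ch ρ W (X t ω) - θ)) P := by
    refine hint (n := N) (Adapt.isum fun t ht => ?_)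
    have ht' := (Finset.mem_range.1 ht).le
    exact ((hw t).imono ht').imul (Adapt.ieval ht' (fun v => eta ch ρ W v - θ))
  have i2 : Integrable (fun ω => ∑ t ∈ range N, w t ω) P :=
    hint (n := N) (Adapt.isum fun t ht => (hw t).imono (Finset.mem_range.1 ht).le)
  rw [← integral_const_mul, ← integral_add i1 (i2.const_mul θ)]
  congr 1
  funext ω
  rw [Finset.mul_sum, ← Finset.sum_add_distrib]
  exact Finset.sum_congr rfl fun t _ => by ring

theorem window_exit (hB : Base ch ρ W X P) {θ : ℝ} (hθ : 0 < θ) (hE : EtaW ch ρ W X P θ) :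
    ∀ ε > 0, ∃ ℓ0 : ℕ, ∀ ℓ ≥ ℓ0, ∀ (M L : ℕ) (D : ℝ), 0 < D →
      D ^ 2 * P.real (WinOut X W ℓ M (M + L) D) ≤ θ * L + ε * (ℓ : ℝ) ^ 2 := by
  intro ε hε
  obtain ⟨ℓ0, hℓ0⟩ := hE ε hε
  refine ⟨ℓ0, fun ℓ hℓ M L D hD => ?_⟩
  have hX := hB.walk
  have := hX.prob
  have hint : ∀ {n : ℕ} {Z : Ω → ℝ}, Adapt X n Z → Integrable Z P :=
    fun hZ => hZ.integrable hX (incr_pos hB) (incr_nonempty hB)
  set b := winB X W ℓ M D with hb
  have hbW : Wgt X ℓ M b := winB_wgt ℓ M D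
  have hFad : Adapt X (M + L) (fun ω => ∑ t ∈ range (M + L), b t ω *
      (ps W (X (t + 1) ω) - ps W (X t ω))) := by
    refine Adapt.isum fun t ht => ?_
    have ht' := Finset.mem_range.1 ht
    exact ((hbW.adapt t).imono ht'.le).imul ((Adapt.ieval ht' _).isub (Adapt.ieval ht'.le _))
  have h1 : D ^ 2 * P.real (WinOut X W ℓ M (M + L) D) ≤
      ∫ ω, (∑ t ∈ range (M + L), b t ω * (ps W (X (t + 1) ω) - ps W (X t ω))) ^ 2 ∂P := by
    refine win_cheb hB hFad fun ω hω => ?_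
    obtain ⟨r, hr1, hr2, hr3, hr4, hr5⟩ := win_first hD hω
    have h2 : ∑ t ∈ range (M + L), b t ω * (ps W (X (t + 1) ω) - ps W (X t ω)) =
        ps W (X r ω) - ps W (X M ω) := by
      refine win_telescope (fun t => ps W (X t ω)) (fun t => b t ω) M r (M + L) hr1.le hr2
        (fun t _ ht1 ht2 => ?_) (fun t _ ht => ?_)
      · exact (winB_one_iff ℓ M D t ω).2 ⟨ht1, fun s hs => hr3 s (hs.trans_lt ht2),
          fun s hs1 hs2 => hr5 s hs1 (hs2.trans_lt ht2)⟩
      · rcases winB_zero_or (X := X) (W := W) ℓ M D t ω with h3 | h3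
        · exact h3
        · obtain ⟨h4, h5, h6⟩ := (winB_one_iff ℓ M D t ω).1 h3
          rcases ht with ht | ht
          · exact absurd h4 (not_le.2 ht)
          · exact absurd (h6 r hr1.le ht) (not_le.2 hr4)
    rw [h2, ← sq_abs (ps W (X r ω) - ps W (X M ω))]
    exact pow_le_pow_left₀ hD.le hr4.le 2
  have h2 := incr_sq hB (w := b) hbW.adapt (winB_zero_or ℓ M D)
    (fun ω r s t hrs hst hr ht => by
      have h3 := (winB_one_iff ℓ M D r ω).1 hr
      have h4 := (winB_one_iff ℓ M D t ω).1 ht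
      exact (winB_one_iff ℓ M D s ω).2 ⟨h3.1.trans hrs, fun s' hs' => h4.2.1 s' (hs'.trans hst),
        fun s' hs1 hs2 => h4.2.2 s' hs1 (hs2.trans hst)⟩) (M + L)
  have h3 := win_eta_split hB θ hbW.adapt (M + L)
  have h4 := (abs_le.1 (hℓ0 ℓ hℓ M (M + L) b hbW)).2
  have h5 : ∫ ω, ∑ t ∈ range (M + L), b t ω ∂P ≤ L := by
    have i2 : Integrable (fun ω => ∑ t ∈ range (M + L), b t ω) P :=
      hint (n := M + L) (Adapt.isum fun t ht => (hbW.adapt t).imono (Finset.mem_range.1 ht).le)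
    have h6 : ∫ ω, ∑ t ∈ range (M + L), b t ω ∂P ≤ ∫ ω, (L : ℝ) ∂P := by
      refine integral_mono i2 (integrable_const _) fun ω => ?_
      show ∑ t ∈ range (M + L), b t ω ≤ L
      rw [Finset.sum_range_add, Finset.sum_eq_zero (fun t ht =>
        hbW.zero t (Finset.mem_range.1 ht) ω), zero_add]
      calc ∑ x ∈ range L, b (M + x) ω ≤ ∑ x ∈ range L, (1 : ℝ) :=
            Finset.sum_le_sum fun x _ => hbW.le_one _ ω
        _ = L := by simp
    rwa [integral_const, probReal_univ, one_smul] at h6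
  have h6 := mul_le_mul_of_nonneg_left h5 hθ.le
  linarith

theorem window_ottaviani (hB : Base ch ρ W X P) {θ : ℝ} (hθ : 0 < θ) (hE : EtaW ch ρ W X P θ) :
    ∀ ε > 0, ∃ ℓ0 : ℕ, ∀ ℓ ≥ ℓ0, ∀ (M L : ℕ) (D : ℝ), 0 < D → 8 * θ * L ≤ D ^ 2 →
      P.real (WinOut X W ℓ M (M + L) D) ≤
        2 * P.real {ω | D / 2 < |ps W (X (M + L) ω) - ps W (X M ω)|} +
        2 * P.real (Exit X ℓ (M + L)) + ε * (ℓ : ℝ) ^ 2 / D ^ 2 := by
  intro ε hε
  obtain ⟨ℓ0, hℓ0⟩ := hE (ε / 16) (by positivity)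
  refine ⟨ℓ0, fun ℓ hℓ M L D hD hDL => ?_⟩
  have hX := hB.walk
  have := hX.prob
  have hint : ∀ {n : ℕ} {Z : Ω → ℝ}, Adapt X n Z → Integrable Z P :=
    fun hZ => hZ.integrable hX (incr_pos hB) (incr_nonempty hB)
  set a := winA X ℓ M with ha
  set b := winB X W ℓ M D with hb
  set c := winC X W ℓ M D with hc
  have haW : Wgt X ℓ M a := winA_wgt ℓ M
  have hbW : Wgt X ℓ M b := winB_wgt ℓ M D
  have hcad : ∀ t, Adapt X t (c t) := winC_adapt ℓ M D
  have hcab : ∀ t ω, c t ω = a t ω - b t ω := winC_eq ℓ M D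
  set E := WinOut X W ℓ M (M + L) D with hEdef
  have hEm : MeasurableSet E := winOut_meas hX ℓ M (M + L) D
  have hFad : Adapt X (M + L) (fun ω => ∑ t ∈ range (M + L), c t ω *
      (ps W (X (t + 1) ω) - ps W (X t ω))) := by
    refine Adapt.isum fun t ht => ?_
    have ht' := Finset.mem_range.1 ht
    exact ((hcad t).imono ht'.le).imul ((Adapt.ieval ht' _).isub (Adapt.ieval ht'.le _))
  set F : Ω → ℝ := fun ω => ∑ t ∈ range (M + L), c t ω * (ps W (X (t + 1) ω) - ps W (X t ω))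
    with hF
  have hcover : E ⊆ ({ω | D / 2 < |ps W (X (M + L) ω) - ps W (X M ω)|} ∪ Exit X ℓ (M + L)) ∪
      {ω | D / 2 ≤ |F ω|} := by
    intro ω hω
    by_cases hex : ω ∈ Exit X ℓ (M + L)
    · exact Or.inl (Or.inr hex)
    have hlev : ∀ s ≤ M + L, (X s ω).length < ℓ := by
      intro s hs
      by_contra h
      exact hex ⟨s, hs, not_lt.1 h⟩
    obtain ⟨r, hr1, hr2, hr3, hr4, hr5⟩ := win_first hD hω
    have h2 : F ω = ps W (X (M + L) ω) - ps W (X r ω) := by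
      refine win_telescope (fun t => ps W (X t ω)) (fun t => c t ω) r (M + L) (M + L) hr2 le_rfl
        (fun t ht0 ht1 _ => ?_) (fun t ht0 ht => ?_)
      · exact (winC_one_iff ℓ M D t ω).2 ⟨hr1.le.trans ht1, fun s hs => hlev s (hs.trans ht0.le),
          r, hr1.le, ht1, hr4⟩
      · rcases ht with ht | ht
        · rcases winC_zero_or (X := X) (W := W) ℓ M D t ω with h3 | h3
          · exact h3
          · obtain ⟨-, -, s, h4, h5, h6⟩ := (winC_one_iff ℓ M D t ω).1 h3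
            exact absurd (hr5 s h4 (h5.trans_lt ht)) (not_le.2 h6)
        · exact absurd ht0 (not_lt.2 ht)
    by_cases h3 : D / 2 < |ps W (X (M + L) ω) - ps W (X M ω)|
    · exact Or.inl (Or.inl h3)
    · right
      show D / 2 ≤ |F ω|
      rw [h2]
      rw [not_lt] at h3
      have h4 : |ps W (X r ω) - ps W (X M ω)| ≤ |ps W (X (M + L) ω) - ps W (X M ω)| +
          |ps W (X (M + L) ω) - ps W (X r ω)| := by
        have h5 : ps W (X r ω) - ps W (X M ω) = (ps W (X (M + L) ω) - ps W (X M ω)) -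
          (ps W (X (M + L) ω) - ps W (X r ω)) := by ring
        rw [h5]
        exact abs_sub _ _
      linarith
  have h1 : P.real E ≤ P.real {ω | D / 2 < |ps W (X (M + L) ω) - ps W (X M ω)|} +
      P.real (Exit X ℓ (M + L)) + P.real {ω | D / 2 ≤ |F ω|} := by
    refine (measureReal_mono hcover).trans ((measureReal_union_le _ _).trans ?_)
    exact add_le_add_left (measureReal_union_le _ _) _
  have h2 : (D / 2) ^ 2 * P.real {ω | D / 2 ≤ |F ω|} ≤ ∫ ω, F ω ^ 2 ∂P := by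
    refine win_cheb hB hFad fun ω hω => ?_
    rw [← sq_abs (F ω)]
    exact pow_le_pow_left₀ (by positivity) hω 2
  have h3 : ∫ ω, F ω ^ 2 ∂P ≤ ∫ ω, ∑ t ∈ range (M + L), c t ω * eta ch ρ W (X t ω) ∂P :=
    incr_sq hB (w := c) hcad (winC_zero_or ℓ M D)
      (fun ω r s t hrs hst hr ht => by
        obtain ⟨h3, -, s', h5, h6, h7⟩ := (winC_one_iff ℓ M D r ω).1 hr
        have h4 := (winC_one_iff ℓ M D t ω).1 ht
        exact (winC_one_iff ℓ M D s ω).2 ⟨h3.trans hrs, fun s' hs' => h4.2.1 s' (hs'.trans hst),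
          s', h5, h6.trans hrs, h7⟩) (M + L)
  have h4 := win_eta_split hB θ hcad (M + L)
  have h5 := (abs_le.1 (hℓ0 ℓ hℓ M (M + L) a haW)).2
  have h6 := (abs_le.1 (hℓ0 ℓ hℓ M (M + L) b hbW)).1
  have hsum : ∀ {w : ℕ → Ω → ℝ}, (∀ t, Adapt X t (w t)) → Integrable
      (fun ω => ∑ t ∈ range (M + L), w t ω * (eta ch ρ W (X t ω) - θ)) P := by
    intro w hw
    refine hint (n := M + L) (Adapt.isum fun t ht => ?_)
    have ht' := (Finset.mem_range.1 ht).le
    exact ((hw t).imono ht').imul (Adapt.ieval ht' (fun v => eta ch ρ W v - θ))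
  have h7 : ∫ ω, ∑ t ∈ range (M + L), c t ω * (eta ch ρ W (X t ω) - θ) ∂P =
      ∫ ω, ∑ t ∈ range (M + L), a t ω * (eta ch ρ W (X t ω) - θ) ∂P -
      ∫ ω, ∑ t ∈ range (M + L), b t ω * (eta ch ρ W (X t ω) - θ) ∂P := by
    rw [← integral_sub (hsum haW.adapt) (hsum hbW.adapt)]
    congr 1
    funext ω
    rw [← Finset.sum_sub_distrib]
    exact Finset.sum_congr rfl fun t _ => by rw [hcab]; ring
  have h8 : ∫ ω, ∑ t ∈ range (M + L), c t ω ∂P ≤ L * P.real E := by
    have i2 : Integrable (fun ω => ∑ t ∈ range (M + L), c t ω) P :=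
      hint (n := M + L) (Adapt.isum fun t ht => (hcad t).imono (Finset.mem_range.1 ht).le)
    have h9 : ∫ ω, ∑ t ∈ range (M + L), c t ω ∂P ≤ ∫ ω, E.indicator (fun _ => (L : ℝ)) ω ∂P := by
      refine integral_mono i2 ((integrable_const _).indicator hEm) fun ω => ?_
      show ∑ t ∈ range (M + L), c t ω ≤ E.indicator (fun _ => (L : ℝ)) ω
      by_cases hω : ω ∈ E
      · rw [Set.indicator_of_mem hω, Finset.sum_range_add, Finset.sum_eq_zero, zero_add]
        · calc ∑ x ∈ range L, c (M + x) ω ≤ ∑ x ∈ range L, (1 : ℝ) := by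
                refine Finset.sum_le_sum fun x _ => ?_
                rcases winC_zero_or (X := X) (W := W) ℓ M D (M + x) ω with h | h
                · rw [hc, h]; exact zero_le_one
                · rw [hc, h]
            _ = L := by simp
        · intro t ht
          rcases winC_zero_or (X := X) (W := W) ℓ M D t ω with h | h
          · exact h
          · exact absurd ((winC_one_iff ℓ M D t ω).1 h).1 (not_le.2 (Finset.mem_range.1 ht))
      · rw [Set.indicator_of_notMem hω]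
        refine (Finset.sum_eq_zero fun t ht => ?_).le
        rcases winC_zero_or (X := X) (W := W) ℓ M D t ω with h | h
        · exact h
        · exfalso
          obtain ⟨h10, h11, s, h12, h13, h14⟩ := (winC_one_iff ℓ M D t ω).1 h
          apply hω
          refine ⟨s, ?_, h13.trans (Finset.mem_range.1 ht).le,
            fun s' hs' => h11 s' (hs'.le.trans h13), h14⟩
          rcases eq_or_lt_of_le h12 with h15 | h15
          · rw [← h15, sub_self, abs_zero] at h14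
            exact absurd h14 (not_lt.2 hD.le)
          · exact h15
    rwa [integral_indicator hEm, setIntegral_const, smul_eq_mul, mul_comm] at h9
  have h9 := mul_le_mul_of_nonneg_left h8 hθ.le
  have hD2 : 0 < D ^ 2 := by positivity
  have hp0 : 0 ≤ P.real E := measureReal_nonneg
  -- the third term
  have h10 : (D / 2) ^ 2 * P.real {ω | D / 2 ≤ |F ω|} ≤
      θ * (L * P.real E) + ε / 8 * (ℓ : ℝ) ^ 2 := by
    linarith
  have h11 : D ^ 2 * P.real {ω | D / 2 ≤ |F ω|} ≤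
      D ^ 2 * P.real E / 2 + ε / 2 * (ℓ : ℝ) ^ 2 := by
    have h12 : 8 * θ * L * P.real E ≤ D ^ 2 * P.real E := mul_le_mul_of_nonneg_right hDL hp0
    nlinarith
  have h12 : P.real {ω | D / 2 ≤ |F ω|} ≤ P.real E / 2 + ε / 2 * (ℓ : ℝ) ^ 2 / D ^ 2 := by
    have h13 : P.real {ω | D / 2 ≤ |F ω|} ≤
        (D ^ 2 * P.real E / 2 + ε / 2 * (ℓ : ℝ) ^ 2) / D ^ 2 := by
      rw [le_div_iff₀ hD2, mul_comm]
      exact h11
    have h14 : (D ^ 2 * P.real E / 2 + ε / 2 * (ℓ : ℝ) ^ 2) / D ^ 2 =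
        P.real E / 2 + ε / 2 * (ℓ : ℝ) ^ 2 / D ^ 2 := by
      field_simp
    rw [h14] at h13
    exact h13
  have h15 : ε / 2 * (ℓ : ℝ) ^ 2 / D ^ 2 = ε * (ℓ : ℝ) ^ 2 / D ^ 2 / 2 := by ring
  rw [h15] at h12
  linarith

end Walk

end Pool.Agent.BW
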