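import Pool.Agent.Lib.MP_276d40_pr.CosStep
import Pool.Agent.Lib.MP_276d40_pr.Window

open MeasureTheory ProbabilityTheory Filter Topology Finset
open scoped ENNReal NNReal

set_option linter.unusedSectionVars false
set_option linter.unusedVariables false

namespace Pool.Agent.BW

section Walk

variable {I : Type} [DecidableEq I] [Countable I] {ch : List I → Finset I} {lam : ℝ}
  {Ω : Type} [MeasurableSpace Ω] {P : Measure Ω} {X : ℕ → Ω → List I}

variable {ρ : ℝ} {W : List I → ℝ}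

/-! ### adaptedness -/

private theorem cr_mono {m n : ℕ} (h : m ≤ n) {Z : Ω → ℝ} (hZ : Adapt X m Z) : Adapt X n Z :=
  fun ω ω' hh => hZ ω ω' fun k hk => hh k (hk.trans h)

private theorem cr_fun {k n : ℕ} (h : k ≤ n) (f : List I → ℝ) :
    Adapt X n (fun ω => f (X k ω)) :=
  fun ω ω' hh => by simp only [hh k h]

private theorem cr_const (n : ℕ) (c : ℝ) : Adapt X n (fun _ => c) := fun _ _ _ => rfl

private theorem cr_mul {n : ℕ} {Z Y : Ω → ℝ} (hZ : Adapt X n Z) (hY : Adapt X n Y) :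
    Adapt X n (fun ω => Z ω * Y ω) :=
  fun ω ω' hh => by simp only [hZ ω ω' hh, hY ω ω' hh]

private theorem cr_add {n : ℕ} {Z Y : Ω → ℝ} (hZ : Adapt X n Z) (hY : Adapt X n Y) :
    Adapt X n (fun ω => Z ω + Y ω) :=
  fun ω ω' hh => by simp only [hZ ω ω' hh, hY ω ω' hh]

private theorem cr_sub {n : ℕ} {Z Y : Ω → ℝ} (hZ : Adapt X n Z) (hY : Adapt X n Y) :
    Adapt X n (fun ω => Z ω - Y ω) :=
  fun ω ω' hh => by simp only [hZ ω ω' hh, hY ω ω' hh]

private theorem cr_comp {n : ℕ} {Z : Ω → ℝ} (hZ : Adapt X n Z) (f : ℝ → ℝ) :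
    Adapt X n (fun ω => f (Z ω)) :=
  fun ω ω' hh => by simp only [hZ ω ω' hh]

private theorem cr_sum {ι : Type*} {n : ℕ} (s : Finset ι) {Z : ι → Ω → ℝ}
    (hZ : ∀ i ∈ s, Adapt X n (Z i)) : Adapt X n (fun ω => ∑ i ∈ s, Z i ω) :=
  fun ω ω' hh => Finset.sum_congr rfl fun i hi => hZ i hi ω ω' hh

private theorem cr_stay (ℓ : ℕ) {m n : ℕ} (h : m ≤ n) : Adapt X n (stay X ℓ m) := by
  intro ω ω' hh
  have : (∀ s ≤ m, (X s ω).length < ℓ) ↔ ∀ s ≤ m, (X s ω').length < ℓ :=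
    forall_congr' fun s => forall_congr' fun hs => by rw [hh s (hs.trans h)]
  simp only [stay, this]

/-- the weight `1` as long as the walk is below level `ℓ` and `S` in the window -/
private noncomputable def crb (X : ℕ → Ω → List I) (W : List I → ℝ) (ℓ m : ℕ) (D : ℝ) (t : ℕ)
    (ω : Ω) : ℝ :=
  if m ≤ t ∧ (∀ s ≤ t, (X s ω).length < ℓ) ∧
    (∀ s, m ≤ s → s ≤ t → |ps W (X s ω) - ps W (X m ω)| ≤ D) then 1 else 0

/-- `stay` from time `m` on -/
private noncomputable def cra (X : ℕ → Ω → List I) (ℓ m : ℕ) (t : ℕ) (ω : Ω) : ℝ :=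
  if m ≤ t ∧ (∀ s ≤ t, (X s ω).length < ℓ) then 1 else 0

private theorem crb_wgt (ℓ m : ℕ) (D : ℝ) {Y : Ω → ℝ} (hY : Adapt X m Y) (h0 : ∀ ω, 0 ≤ Y ω)
    (h1 : ∀ ω, Y ω ≤ 1) : Wgt X ℓ m (fun t ω => Y ω * crb X W ℓ m D t ω) where
  adapt t := by
    intro ω ω' hh
    by_cases hm : m ≤ t
    · have e1 : Y ω = Y ω' := hY ω ω' fun k hk => hh k (hk.trans hm)
      have e2 : (∀ s ≤ t, (X s ω).length < ℓ) ↔ ∀ s ≤ t, (X s ω').length < ℓ :=
        forall_congr' fun s => forall_congr' fun hs => by rw [hh s hs]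
      have e3 : (∀ s, m ≤ s → s ≤ t → |ps W (X s ω) - ps W (X m ω)| ≤ D) ↔
          (∀ s, m ≤ s → s ≤ t → |ps W (X s ω') - ps W (X m ω')| ≤ D) :=
        forall_congr' fun s => forall_congr' fun _ => forall_congr' fun hs => by
          rw [hh s hs, hh m hm]
      simp only [crb, e1, e2, e3]
    · simp [crb, hm]
  nonneg t ω := by
    refine mul_nonneg (h0 ω) ?_
    unfold crb; split_ifs <;> norm_num
  le_one t ω := by
    have h3 : crb X W ℓ m D t ω ≤ 1 := by unfold crb; split_ifs <;> norm_num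
    have h4 : 0 ≤ crb X W ℓ m D t ω := by unfold crb; split_ifs <;> norm_num
    calc Y ω * crb X W ℓ m D t ω ≤ 1 * 1 := mul_le_mul (h1 ω) h3 h4 zero_le_one
      _ = 1 := one_mul 1
  zero t ht ω := by
    simp [crb, not_le.2 ht]
  anti t ht ω := by
    refine mul_le_mul_of_nonneg_left ?_ (h0 ω)
    unfold crb
    by_cases h : m ≤ t + 1 ∧ (∀ s ≤ t + 1, (X s ω).length < ℓ) ∧
        (∀ s, m ≤ s → s ≤ t + 1 → |ps W (X s ω) - ps W (X m ω)| ≤ D)
    · rw [if_pos h, if_pos]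
      exact ⟨ht, fun s hs => h.2.1 s (by omega), fun s h1 h2 => h.2.2 s h1 (by omega)⟩
    · rw [if_neg h]
      split_ifs <;> norm_num
  supp t ω h := by
    by_contra hc
    apply h
    simp [crb, hc]

private theorem cra_wgt (ℓ m : ℕ) : Wgt X ℓ m (fun t ω => cra X ℓ m t ω) where
  adapt t := by
    intro ω ω' hh
    have e2 : (∀ s ≤ t, (X s ω).length < ℓ) ↔ ∀ s ≤ t, (X s ω').length < ℓ :=
      forall_congr' fun s => forall_congr' fun hs => by rw [hh s hs]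
    simp only [cra, e2]
  nonneg t ω := by
    unfold cra; split_ifs <;> norm_num
  le_one t ω := by
    unfold cra; split_ifs <;> norm_num
  zero t ht ω := by
    simp [cra, not_le.2 ht]
  anti t ht ω := by
    unfold cra
    by_cases h : m ≤ t + 1 ∧ (∀ s ≤ t + 1, (X s ω).length < ℓ)
    · rw [if_pos h, if_pos]
      exact ⟨ht, fun s hs => h.2 s (by omega)⟩
    · rw [if_neg h]
      split_ifs <;> norm_num
  supp t ω h := by
    by_contra hc
    apply h
    simp [cra, hc]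

/-- nonnegativity of `eta` -/
private theorem cr_eta_nonneg (hρ : 0 < ρ) (hW : ∀ v, ρ * W v = Up ch W v) (v : List I) :
    0 ≤ eta ch ρ W v := by
  cases v with
  | nil =>
    unfold eta
    rw [ps_nil]
    by_cases h : ch [] = ∅
    · simp [Pr, h]
    · simp only [Pr, if_neg h]
      have : 0 ≤ (∑ i ∈ ch [], ps W [i] ^ 2) / deg ch [] :=
        div_nonneg (Finset.sum_nonneg fun i _ => sq_nonneg _) (Nat.cast_nonneg _)
      simpa using this
  | cons i w =>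
    have hd : 0 ≤ deg ch (i :: w) := Nat.cast_nonneg _
    have hpos : 0 < ρ + deg ch (i :: w) := by linarith
    have hf := hW (i :: w)
    unfold eta
    simp only [Pr]
    have e1 : ∑ j ∈ ch (i :: w), ps W (j :: i :: w) ^ 2 =
        deg ch (i :: w) * ps W (i :: w) ^ 2 + 2 * ps W (i :: w) * Up ch W (i :: w) +
          ∑ j ∈ ch (i :: w), W (j :: i :: w) ^ 2 := by
      rw [deg, ← nsmul_eq_mul, ← Finset.sum_const, Up, Finset.mul_sum, ← Finset.sum_add_distrib,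
        ← Finset.sum_add_distrib]
      refine Finset.sum_congr rfl fun j _ => ?_
      rw [ps_cons W j (i :: w)]; ring
    have e2 : ps W w = ps W (i :: w) - W (i :: w) := by rw [ps_cons]; ring
    rw [e1, e2, ← hf]
    have e3 : (ρ * (ps W (i :: w) - W (i :: w)) ^ 2 + (deg ch (i :: w) * ps W (i :: w) ^ 2 +
        2 * ps W (i :: w) * (ρ * W (i :: w)) + ∑ j ∈ ch (i :: w), W (j :: i :: w) ^ 2)) /
          (ρ + deg ch (i :: w)) - ps W (i :: w) ^ 2 =
        (ρ * W (i :: w) ^ 2 + ∑ j ∈ ch (i :: w), W (j :: i :: w) ^ 2) /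
          (ρ + deg ch (i :: w)) := by
      field_simp
      ring
    rw [e3]
    exact div_nonneg (add_nonneg (mul_nonneg hρ.le (sq_nonneg _))
      (Finset.sum_nonneg fun j _ => sq_nonneg _)) hpos.le

private theorem cr_Pr_mono (hρ : 0 < ρ) {f g : List I → ℝ} (h : ∀ v, f v ≤ g v) (v : List I) :
    Pr ch ρ f v ≤ Pr ch ρ g v := by
  cases v with
  | nil =>
    by_cases h' : ch [] = ∅
    · simpa [Pr, h'] using h []
    · simp only [Pr, if_neg h']
      exact div_le_div_of_nonneg_right (Finset.sum_le_sum fun i _ => h _) (Nat.cast_nonneg _)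
  | cons i w =>
    have hd : 0 ≤ deg ch (i :: w) := Nat.cast_nonneg _
    simp only [Pr]
    refine div_le_div_of_nonneg_right (add_le_add (mul_le_mul_of_nonneg_left (h _) hρ.le)
      (Finset.sum_le_sum fun i _ => h _)) (by linarith)

private theorem cr_Pr_nonneg (hρ : 0 < ρ) {f : List I → ℝ} (h : ∀ v, 0 ≤ f v) (v : List I) :
    0 ≤ Pr ch ρ f v := by
  have h1 := cr_Pr_mono (ch := ch) hρ h v
  refine le_trans ?_ h1
  cases v with
  | nil =>
    by_cases h' : ch [] = ∅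
    · simp [Pr, h']
    · simp [Pr, h']
  | cons i w => simp [Pr]

private theorem cr_lin_anti (hρ : 0 < ρ) {R R' : ℝ} (hR : 0 < R) (hRR : R ≤ R') (v : List I) :
    lin ch ρ W R' v ≤ lin ch ρ W R v := by
  unfold lin
  refine cr_Pr_mono hρ (fun u => ?_) v
  refine mul_le_mul_of_nonneg_left (min_le_min_left _ ?_) (sq_nonneg _)
  exact div_le_div_of_nonneg_left (abs_nonneg _) hR hRR

private theorem cr_lin_nonneg (hρ : 0 < ρ) {R : ℝ} (hR : 0 < R) (v : List I) :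
    0 ≤ lin ch ρ W R v := by
  unfold lin
  refine cr_Pr_nonneg hρ (fun u => ?_) v
  exact mul_nonneg (sq_nonneg _) (le_min zero_le_one (div_nonneg (abs_nonneg _) hR.le))

private theorem cr_winOut_meas (hX : IsWalk ch ρ X P) (ℓ M N : ℕ) (D : ℝ) :
    MeasurableSet (WinOut X W ℓ M N D) := by
  by_cases hMN : M ≤ N
  · refine measurableSet_adapt hX (n := N) fun ω ω' hh => ?_
    simp only [WinOut, Set.mem_ofPred_eq]
    refine exists_congr fun r => and_congr_right fun h1 => and_congr_right fun h2 => ?_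
    rw [hh r h2, hh M hMN]
    refine and_congr_left fun _ => ?_
    exact forall_congr' fun s => forall_congr' fun hs => by rw [hh s (by omega)]
  · have : WinOut X W ℓ M N D = ∅ := by
      ext ω
      simp only [WinOut, Set.mem_ofPred_eq, Set.mem_empty_iff_false, iff_false]
      rintro ⟨r, h1, h2, -⟩
      omega
    rw [this]; exact MeasurableSet.empty

private theorem cr_exit_meas (hX : IsWalk ch ρ X P) (ℓ N : ℕ) :
    MeasurableSet (Exit X ℓ N) := by
  refine measurableSet_adapt hX (n := N) fun ω ω' hh => ?_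
  simp only [Exit, Set.mem_ofPred_eq]
  exact exists_congr fun s => and_congr_right fun hs => by rw [hh s hs]

private theorem cr_block (hX : IsWalk ch ρ X P) (hρ : 0 < ρ) (h0 : (ch []).Nonempty)
    (hW : ∀ v, ρ * W v = Up ch W v) {θ : ℝ} (hθ : 0 < θ) {ε : ℝ} {ℓ : ℕ}
    (hE : ∀ (M n : ℕ) (ξ : ℕ → Ω → ℝ), Wgt X ℓ M ξ →
      |∫ ω, ∑ t ∈ range n, ξ t ω * (eta ch ρ W (X t ω) - θ) ∂P| ≤ ε * (ℓ : ℝ) ^ 2)
    {m m' L : ℕ} (h1 : m ≤ m') (h2 : m' ≤ m + L) {D o C : ℝ} (hD : 0 ≤ D) (hC : 0 < C)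
    (ho : 0 ≤ o) {Z : Ω → ℝ} (hZ : Adapt X m Z) (hZ1 : ∀ ω, |Z ω| ≤ 1) {g : ℕ → Ω → ℝ}
    (hg : ∀ i, Adapt X i (g i)) (hgC : ∀ i, m ≤ i → i < m' → ∀ ω, |g i ω| ≤ C)
    (hgo : ∀ i, m ≤ i → i < m' → ∀ ω, |ps W (X i ω) - ps W (X m ω)| ≤ D →
      |g i ω - g m ω| ≤ C * o) :
    |∫ ω, Z ω * ∑ i ∈ Finset.Ico m m', stay X ℓ i ω * g i ω * (eta ch ρ W (X i ω) - θ) ∂P| ≤
      C * (o * (2 * θ * L + ε * (ℓ : ℝ) ^ 2) + 4 * (ε * (ℓ : ℝ) ^ 2) +
        2 * θ * L * P.real (WinOut X W ℓ m (m + L) D)) := by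
  have := hX.prob
  have hεℓ : 0 ≤ ε * (ℓ : ℝ) ^ 2 := le_trans (abs_nonneg _) (hE m 0 _ (cra_wgt ℓ m))
  have hL0 : (0 : ℝ) ≤ L := Nat.cast_nonneg _
  have hP0 : 0 ≤ P.real (WinOut X W ℓ m (m + L) D) := measureReal_nonneg
  have hRHS : 0 ≤ C * (o * (2 * θ * L + ε * (ℓ : ℝ) ^ 2) + 4 * (ε * (ℓ : ℝ) ^ 2) +
        2 * θ * L * P.real (WinOut X W ℓ m (m + L) D)) := by positivity
  rcases h1.eq_or_lt with rfl | hlt
  · simpa using hRHS
  -- abbreviations
  set e : ℕ → Ω → ℝ := fun i ω => eta ch ρ W (X i ω) - θ with he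
  have hee : ∀ i ω, |e i ω| ≤ e i ω + 2 * θ := by
    intro i ω
    have := cr_eta_nonneg hρ hW (X i ω)
    simp only [he]
    rw [abs_le]; constructor <;> linarith
  set A : ℕ → Ω → ℝ := fun i ω => cra X ℓ m i ω with hA
  set B : ℕ → Ω → ℝ := fun i ω => crb X W ℓ m D i ω with hB
  have wA : Wgt X ℓ m A := cra_wgt ℓ m
  have wB : Wgt X ℓ m B := by
    have := crb_wgt (X := X) (W := W) ℓ m D (Y := fun _ => (1 : ℝ)) (cr_const m 1)
      (fun _ => zero_le_one) (fun _ => le_rfl)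
    simpa using this
  -- integrability
  have ie : ∀ i, i < m' → Adapt X m' (e i) := fun i hi =>
    cr_fun hi.le (fun v => eta ch ρ W v - θ)
  have iA : ∀ i, i < m' → Adapt X m' (A i) := fun i hi => cr_mono hi.le (wA.adapt i)
  have iB : ∀ i, i < m' → Adapt X m' (B i) := fun i hi => cr_mono hi.le (wB.adapt i)
  have ig : ∀ i, i < m' → Adapt X m' (g i) := fun i hi => cr_mono hi.le (hg i)
  have iZ : Adapt X m' Z := cr_mono h1 hZ
  -- the four basic sums
  set FA : Ω → ℝ := fun ω => ∑ i ∈ range m', A i ω * e i ω with hFA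
  set FB : Ω → ℝ := fun ω => ∑ i ∈ range m', B i ω * e i ω with hFB
  set NA : Ω → ℝ := fun ω => ∑ i ∈ range m', A i ω with hNA
  set NB : Ω → ℝ := fun ω => ∑ i ∈ range m', (A i ω - B i ω) with hNB
  set G : Ω → ℝ := fun ω => ∑ i ∈ range m', A i ω * g i ω * e i ω with hG
  have aFA : Adapt X m' FA := cr_sum _ fun i hi => cr_mul (iA i (mem_range.1 hi)) (ie i (mem_range.1 hi))
  have aFB : Adapt X m' FB := cr_sum _ fun i hi => cr_mul (iB i (mem_range.1 hi)) (ie i (mem_range.1 hi))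
  have aNA : Adapt X m' NA := cr_sum _ fun i hi => iA i (mem_range.1 hi)
  have aNB : Adapt X m' NB := cr_sum _ fun i hi => cr_sub (iA i (mem_range.1 hi)) (iB i (mem_range.1 hi))
  have aG : Adapt X m' G := cr_sum _ fun i hi =>
    cr_mul (cr_mul (iA i (mem_range.1 hi)) (ig i (mem_range.1 hi))) (ie i (mem_range.1 hi))
  have IFA := Adapt.integrable hX hρ h0 aFA
  have IFB := Adapt.integrable hX hρ h0 aFB
  have INA := Adapt.integrable hX hρ h0 aNA
  have INB := Adapt.integrable hX hρ h0 aNB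
  -- rewriting the sum
  have eG : ∀ ω, ∑ i ∈ Finset.Ico m m', stay X ℓ i ω * g i ω * (eta ch ρ W (X i ω) - θ) = G ω := by
    intro ω
    simp only [hG]
    rw [Finset.range_eq_Ico]
    rw [← Finset.sum_subset (Finset.Ico_subset_Ico_left (Nat.zero_le m))]
    · refine Finset.sum_congr rfl fun i hi => ?_
      have : A i ω = stay X ℓ i ω := by
        simp only [hA, cra, stay, (Finset.mem_Ico.1 hi).1, true_and]
      rw [this]
    · intro i hi hi'
      have : i < m := by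
        by_contra hc
        exact hi' (Finset.mem_Ico.2 ⟨not_lt.1 hc, (Finset.mem_Ico.1 hi).2⟩)
      have : A i ω = 0 := by simp [hA, cra, not_le.2 this]
      rw [this]; ring
  simp only [eG]
  -- pointwise bound for the difference
  have key : ∀ ω, |Z ω * G ω - (Z ω * g m ω) * FB ω| ≤
      C * o * (FA ω + 2 * θ * NA ω) + C * (FA ω - FB ω + 2 * θ * NB ω) := by
    intro ω
    have e1 : Z ω * G ω - (Z ω * g m ω) * FB ω =
        ∑ i ∈ range m', Z ω * (A i ω * g i ω - B i ω * g m ω) * e i ω := by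
      simp only [hG, hFB]
      rw [Finset.mul_sum, Finset.mul_sum, ← Finset.sum_sub_distrib]
      refine Finset.sum_congr rfl fun i _ => ?_
      ring
    have e2 : C * o * (FA ω + 2 * θ * NA ω) + C * (FA ω - FB ω + 2 * θ * NB ω) =
        ∑ i ∈ range m', (C * o * A i ω + C * (A i ω - B i ω)) * (e i ω + 2 * θ) := by
      simp only [hFA, hFB, hNA, hNB]
      rw [Finset.mul_sum, Finset.mul_sum, ← Finset.sum_add_distrib, ← Finset.sum_sub_distrib,
        ← Finset.sum_add_distrib, Finset.mul_sum, Finset.mul_sum, ← Finset.sum_add_distrib]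
      refine Finset.sum_congr rfl fun i _ => ?_
      ring
    rw [e1, e2]
    refine (Finset.abs_sum_le_sum_abs _ _).trans (Finset.sum_le_sum fun i hi => ?_)
    have hi' := mem_range.1 hi
    rw [abs_mul, abs_mul]
    have h3 : |A i ω * g i ω - B i ω * g m ω| ≤ C * o * A i ω + C * (A i ω - B i ω) := by
      by_cases hmi : m ≤ i
      · by_cases hst : ∀ s ≤ i, (X s ω).length < ℓ
        · have vA : A i ω = 1 := by simp only [hA, cra]; rw [if_pos ⟨hmi, hst⟩]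
          by_cases hw : ∀ s, m ≤ s → s ≤ i → |ps W (X s ω) - ps W (X m ω)| ≤ D
          · have vB : B i ω = 1 := by simp only [hB, crb]; rw [if_pos ⟨hmi, hst, hw⟩]
            rw [vA, vB]
            simpa using hgo i hmi hi' ω (hw i hmi le_rfl)
          · have vB : B i ω = 0 := by
              simp only [hB, crb]; rw [if_neg]; rintro ⟨-, -, h⟩; exact hw h
            rw [vA, vB]
            have := hgC i hmi hi' ω
            simp only [one_mul, zero_mul, sub_zero, mul_one]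
            have : 0 ≤ C * o := mul_nonneg hC.le ho
            linarith
        · have vA : A i ω = 0 := by
            simp only [hA, cra]; rw [if_neg]; rintro ⟨-, h⟩; exact hst h
          have vB : B i ω = 0 := by
            simp only [hB, crb]; rw [if_neg]; rintro ⟨-, h, -⟩; exact hst h
          rw [vA, vB]; simp
      · have vA : A i ω = 0 := by simp [hA, cra, hmi]
        have vB : B i ω = 0 := by simp [hB, crb, hmi]
        rw [vA, vB]; simp
    have h4 : |Z ω| * |A i ω * g i ω - B i ω * g m ω| ≤ C * o * A i ω + C * (A i ω - B i ω) :=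
      calc |Z ω| * |A i ω * g i ω - B i ω * g m ω| ≤ 1 * |A i ω * g i ω - B i ω * g m ω| :=
            mul_le_mul_of_nonneg_right (hZ1 ω) (abs_nonneg _)
        _ ≤ _ := by rw [one_mul]; exact h3
    exact mul_le_mul h4 (hee i ω) (abs_nonneg _) (le_trans (by positivity) h4)
  -- bounds for the expectations
  have bFA : |∫ ω, FA ω ∂P| ≤ ε * (ℓ : ℝ) ^ 2 := hE m m' A wA
  have bFB : |∫ ω, FB ω ∂P| ≤ ε * (ℓ : ℝ) ^ 2 := hE m m' B wB
  have hcard : ((m' - m : ℕ) : ℝ) ≤ L := by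
    have : m' - m ≤ L := by omega
    exact_mod_cast this
  have sumA : ∀ (f : ℕ → ℝ) (q : ℝ), 0 ≤ q → (∀ i < m, f i = 0) → (∀ i, f i ≤ q) →
      ∑ i ∈ range m', f i ≤ L * q := by
    intro f q hq hf0 hf1
    rw [Finset.range_eq_Ico, ← Finset.sum_subset (Finset.Ico_subset_Ico_left (Nat.zero_le m))]
    · calc ∑ i ∈ Finset.Ico m m', f i ≤ ∑ i ∈ Finset.Ico m m', q := Finset.sum_le_sum fun i _ => hf1 i
        _ = ((m' - m : ℕ) : ℝ) * q := by rw [Finset.sum_const, Nat.card_Ico, nsmul_eq_mul]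
        _ ≤ L * q := mul_le_mul_of_nonneg_right hcard hq
    · intro i hi hi'
      refine hf0 i ?_
      by_contra hc
      exact hi' (Finset.mem_Ico.2 ⟨not_lt.1 hc, (Finset.mem_Ico.1 hi).2⟩)
  have bNA : ∫ ω, NA ω ∂P ≤ L := by
    have h5 : ∀ ω, NA ω ≤ L := by
      intro ω
      have := sumA (fun i => A i ω) 1 zero_le_one (fun i hi => wA.zero i hi ω)
        (fun i => wA.le_one i ω)
      simpa using this
    calc ∫ ω, NA ω ∂P ≤ ∫ _, (L : ℝ) ∂P := integral_mono INA (integrable_const _) h5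
      _ = L := by simp
  have bNB : ∫ ω, NB ω ∂P ≤ L * P.real (WinOut X W ℓ m (m + L) D) := by
    have hms := cr_winOut_meas (W := W) hX ℓ m (m + L) D
    have h5 : ∀ ω, NB ω ≤ (WinOut X W ℓ m (m + L) D).indicator (fun _ => (L : ℝ)) ω := by
      intro ω
      have h6 : NB ω ≤ L * (WinOut X W ℓ m (m + L) D).indicator (fun _ => (1 : ℝ)) ω := by
        have hAB : ∀ i < m', A i ω - B i ω ≤
            (WinOut X W ℓ m (m + L) D).indicator (fun _ => (1 : ℝ)) ω := by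
          intro i hi
          have hnn : 0 ≤ (WinOut X W ℓ m (m + L) D).indicator (fun _ => (1 : ℝ)) ω :=
            Set.indicator_nonneg (fun _ _ => zero_le_one) _
          by_cases hmi : m ≤ i ∧ ∀ s ≤ i, (X s ω).length < ℓ
          · by_cases hw : ∀ s, m ≤ s → s ≤ i → |ps W (X s ω) - ps W (X m ω)| ≤ D
            · have vA : A i ω = 1 := by simp only [hA, cra]; rw [if_pos hmi]
              have vB : B i ω = 1 := by simp only [hB, crb]; rw [if_pos ⟨hmi.1, hmi.2, hw⟩]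
              rw [vA, vB]; simpa using hnn
            · have vA : A i ω = 1 := by simp only [hA, cra]; rw [if_pos hmi]
              have vB : B i ω = 0 := by
                simp only [hB, crb]; rw [if_neg]; rintro ⟨-, -, h⟩; exact hw h
              rw [vA, vB]
              push Not at hw
              obtain ⟨s, hs1, hs2, hs3⟩ := hw
              have hin : ω ∈ WinOut X W ℓ m (m + L) D := by
                refine ⟨s, ?_, by omega, fun r hr => hmi.2 r (by omega), hs3⟩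
                rcases hs1.eq_or_lt with rfl | h
                · exfalso
                  simp only [sub_self, abs_zero] at hs3
                  exact absurd hs3 (not_lt.2 hD)
                · exact h
              rw [Set.indicator_of_mem hin]; norm_num
          · have vA : A i ω = 0 := by simp only [hA, cra]; rw [if_neg hmi]
            rw [vA]
            have := wB.nonneg i ω
            linarith
        refine le_trans (Finset.sum_le_sum (g := fun i => if m ≤ i then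
          (WinOut X W ℓ m (m + L) D).indicator (fun _ => (1 : ℝ)) ω else 0) fun i hi => ?_) ?_
        · by_cases hmi : m ≤ i
          · simp only [if_pos hmi]; exact hAB i (mem_range.1 hi)
          · simp only [if_neg hmi]
            have := wA.zero i (not_le.1 hmi) ω
            have := wB.zero i (not_le.1 hmi) ω
            linarith
        · refine sumA _ _ (Set.indicator_nonneg (fun _ _ => zero_le_one) _) ?_ ?_
          · intro i hi; simp [not_le.2 hi]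
          · intro i
            split_ifs
            · exact le_rfl
            · exact Set.indicator_nonneg (fun _ _ => zero_le_one) _
      refine h6.trans (le_of_eq ?_)
      by_cases h : ω ∈ WinOut X W ℓ m (m + L) D
      · simp [h]
      · simp [h]
    calc ∫ ω, NB ω ∂P ≤ ∫ ω, (WinOut X W ℓ m (m + L) D).indicator (fun _ => (L : ℝ)) ω ∂P :=
          integral_mono INB ((integrable_const _).indicator hms) h5
      _ = L * P.real (WinOut X W ℓ m (m + L) D) := by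
          rw [integral_indicator_const _ hms, smul_eq_mul, mul_comm]
  -- the main term
  have aY : Adapt X m (fun ω => Z ω * g m ω) := cr_mul hZ (hg m)
  have Yb : ∀ ω, |Z ω * g m ω| ≤ C := by
    intro ω
    rw [abs_mul]
    calc |Z ω| * |g m ω| ≤ 1 * C :=
          mul_le_mul (hZ1 ω) (hgC m le_rfl hlt ω) (abs_nonneg _) zero_le_one
      _ = C := one_mul C
  have bmain : |∫ ω, (Z ω * g m ω) * FB ω ∂P| ≤ C * (2 * (ε * (ℓ : ℝ) ^ 2)) := by
    have hp := crb_wgt (X := X) (W := W) ℓ m D (Y := fun ω => max (Z ω * g m ω) 0 / C)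
      (cr_comp aY fun x => max x 0 / C) (fun ω => div_nonneg (le_max_right _ _) hC.le)
      (fun ω => (div_le_one hC).2 (max_le ((le_abs_self _).trans (Yb ω)) hC.le))
    have hn := crb_wgt (X := X) (W := W) ℓ m D (Y := fun ω => max (-(Z ω * g m ω)) 0 / C)
      (cr_comp aY fun x => max (-x) 0 / C) (fun ω => div_nonneg (le_max_right _ _) hC.le)
      (fun ω => (div_le_one hC).2 (max_le ((neg_le_abs _).trans (Yb ω)) hC.le))
    have bp := hE m m' _ hp
    have bn := hE m m' _ hn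
    have ap : Adapt X m' (fun ω => ∑ t ∈ range m',
        (max (Z ω * g m ω) 0 / C * crb X W ℓ m D t ω) * (eta ch ρ W (X t ω) - θ)) :=
      cr_sum _ fun i hi => cr_mul (cr_mono (mem_range.1 hi).le (hp.adapt i)) (ie i (mem_range.1 hi))
    have an : Adapt X m' (fun ω => ∑ t ∈ range m',
        (max (-(Z ω * g m ω)) 0 / C * crb X W ℓ m D t ω) * (eta ch ρ W (X t ω) - θ)) :=
      cr_sum _ fun i hi => cr_mul (cr_mono (mem_range.1 hi).le (hn.adapt i)) (ie i (mem_range.1 hi))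
    have Ip := Adapt.integrable hX hρ h0 ap
    have In := Adapt.integrable hX hρ h0 an
    have e5 : ∫ ω, (Z ω * g m ω) * FB ω ∂P = C * (∫ ω, ∑ t ∈ range m',
        (max (Z ω * g m ω) 0 / C * crb X W ℓ m D t ω) * (eta ch ρ W (X t ω) - θ) ∂P -
        ∫ ω, ∑ t ∈ range m',
        (max (-(Z ω * g m ω)) 0 / C * crb X W ℓ m D t ω) * (eta ch ρ W (X t ω) - θ) ∂P) := by
      rw [← integral_sub Ip In, ← integral_const_mul]
      refine integral_congr_ae (Filter.Eventually.of_forall fun ω => ?_)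
      simp only [hFB, hB]
      rw [← Finset.sum_sub_distrib, Finset.mul_sum, Finset.mul_sum]
      refine Finset.sum_congr rfl fun i _ => ?_
      have e6 : Z ω * g m ω = max (Z ω * g m ω) 0 - max (-(Z ω * g m ω)) 0 := by
        rcases le_total 0 (Z ω * g m ω) with h | h
        · rw [max_eq_left h, max_eq_right (by linarith)]; ring
        · rw [max_eq_right h, max_eq_left (by linarith)]; ring
      have e7 : C * (max (Z ω * g m ω) 0 / C * crb X W ℓ m D i ω * (eta ch ρ W (X i ω) - θ) -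
          max (-(Z ω * g m ω)) 0 / C * crb X W ℓ m D i ω * (eta ch ρ W (X i ω) - θ)) =
          (max (Z ω * g m ω) 0 - max (-(Z ω * g m ω)) 0) *
            (crb X W ℓ m D i ω * (eta ch ρ W (X i ω) - θ)) := by
        field_simp
      rw [e7, ← e6]
    rw [e5, abs_mul, abs_of_pos hC]
    refine mul_le_mul_of_nonneg_left ?_ hC.le
    refine (abs_sub _ _).trans ?_
    linarith
  have IZG : Integrable (fun ω => Z ω * G ω) P := Adapt.integrable hX hρ h0 (cr_mul iZ aG)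
  have IYF : Integrable (fun ω => (Z ω * g m ω) * FB ω) P :=
    Adapt.integrable hX hρ h0 (cr_mul (cr_mono h1 aY) aFB)
  have bdiff : |∫ ω, (Z ω * G ω - (Z ω * g m ω) * FB ω) ∂P| ≤
      C * o * (∫ ω, FA ω ∂P + 2 * θ * ∫ ω, NA ω ∂P) +
        C * (∫ ω, FA ω ∂P - ∫ ω, FB ω ∂P + 2 * θ * ∫ ω, NB ω ∂P) := by
    have e8 : C * o * (∫ ω, FA ω ∂P + 2 * θ * ∫ ω, NA ω ∂P) +
        C * (∫ ω, FA ω ∂P - ∫ ω, FB ω ∂P + 2 * θ * ∫ ω, NB ω ∂P) =
        ∫ ω, (C * o * (FA ω + 2 * θ * NA ω) + C * (FA ω - FB ω + 2 * θ * NB ω)) ∂P := by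
      have i1 : Integrable (fun ω => FA ω + 2 * θ * NA ω) P := IFA.add (INA.const_mul _)
      have i2 : Integrable (fun ω => FA ω - FB ω + 2 * θ * NB ω) P :=
        (IFA.sub IFB).add (INB.const_mul _)
      have a1 : ∫ ω, (FA ω + 2 * θ * NA ω) ∂P = ∫ ω, FA ω ∂P + 2 * θ * ∫ ω, NA ω ∂P := by
        rw [integral_add IFA (INA.const_mul _), integral_const_mul]
      have a2 : ∫ ω, (FA ω - FB ω + 2 * θ * NB ω) ∂P =
          ∫ ω, FA ω ∂P - ∫ ω, FB ω ∂P + 2 * θ * ∫ ω, NB ω ∂P := by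
        rw [integral_add (f := fun ω => FA ω - FB ω) (IFA.sub IFB) (INB.const_mul _),
          integral_const_mul, integral_sub IFA IFB]
      rw [integral_add (f := fun ω => C * o * (FA ω + 2 * θ * NA ω)) (i1.const_mul _)
        (i2.const_mul _), integral_const_mul, integral_const_mul, a1, a2]
    rw [e8]
    refine (abs_integral_le_integral_abs).trans (integral_mono_of_nonneg ?_ ?_ ?_)
    · exact Filter.Eventually.of_forall fun ω => abs_nonneg _
    · exact ((IFA.add (INA.const_mul _)).const_mul _).add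
        (((IFA.sub IFB).add (INB.const_mul _)).const_mul _)
    · exact Filter.Eventually.of_forall key
  have e9 : ∫ ω, Z ω * G ω ∂P = ∫ ω, (Z ω * G ω - (Z ω * g m ω) * FB ω) ∂P +
      ∫ ω, (Z ω * g m ω) * FB ω ∂P := by
    rw [integral_sub IZG IYF]; ring
  rw [e9]
  refine (abs_add_le _ _).trans ?_
  have f1 := (abs_le.1 bFA).2
  have f2 := (abs_le.1 bFB).1
  have hCo : 0 ≤ C * o := mul_nonneg hC.le ho
  have g1 : C * o * (∫ ω, FA ω ∂P + 2 * θ * ∫ ω, NA ω ∂P) ≤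
      C * o * (ε * (ℓ : ℝ) ^ 2 + 2 * θ * L) :=
    mul_le_mul_of_nonneg_left (add_le_add f1 (mul_le_mul_of_nonneg_left bNA (by positivity))) hCo
  have g2 : C * (∫ ω, FA ω ∂P - ∫ ω, FB ω ∂P + 2 * θ * ∫ ω, NB ω ∂P) ≤
      C * (2 * (ε * (ℓ : ℝ) ^ 2) + 2 * θ * (L * P.real (WinOut X W ℓ m (m + L) D))) := by
    refine mul_le_mul_of_nonneg_left ?_ hC.le
    have := mul_le_mul_of_nonneg_left bNB (by positivity : 0 ≤ 2 * θ)
    linarith
  calc |∫ ω, (Z ω * G ω - (Z ω * g m ω) * FB ω) ∂P| + |∫ ω, (Z ω * g m ω) * FB ω ∂P|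
      ≤ (C * o * (ε * (ℓ : ℝ) ^ 2 + 2 * θ * L) +
        C * (2 * (ε * (ℓ : ℝ) ^ 2) + 2 * θ * (L * P.real (WinOut X W ℓ m (m + L) D)))) +
        C * (2 * (ε * (ℓ : ℝ) ^ 2)) := by linarith
    _ = _ := by ring

/-- the sum over all blocks -/
private theorem cr_blocks (hX : IsWalk ch ρ X P) (hρ : 0 < ρ) (h0 : (ch []).Nonempty)
    {e g : ℕ → Ω → ℝ} {Z : Ω → ℝ} {M L N : ℕ} (hMN : M ≤ N) {E : ℝ}
    (hZ : Adapt X M Z) (hg : ∀ i, Adapt X i (g i)) (he : ∀ i, Adapt X i (e i)) (ℓ : ℕ)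
    (hb : ∀ m m', M ≤ m → m ≤ m' → m' ≤ m + L → m' ≤ N →
      |∫ ω, Z ω * ∑ i ∈ Finset.Ico m m', stay X ℓ i ω * g i ω * e i ω ∂P| ≤ E) (J : ℕ) :
    |∫ ω, Z ω * ∑ i ∈ Finset.Ico M (min (M + J * L) N), stay X ℓ i ω * g i ω * e i ω ∂P| ≤
      J * E := by
  induction J with
  | zero =>
    have : min (M + 0 * L) N = M := by simp [hMN]
    rw [this]
    simp
  | succ J ih =>
    have hm : min (M + J * L) N ≤ min (M + (J + 1) * L) N := by
      apply min_le_min_right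
      rw [add_mul, one_mul]; omega
    have hm0 : M ≤ min (M + J * L) N := le_min (by omega) hMN
    have hm2 : min (M + (J + 1) * L) N ≤ min (M + J * L) N + L := by
      rw [add_mul, one_mul]; omega
    have h1 := hb _ _ hm0 hm hm2 (min_le_right _ _)
    have ad : ∀ a b : ℕ, Adapt X b (fun ω => ∑ i ∈ Finset.Ico a b,
        stay X ℓ i ω * g i ω * e i ω) := fun a b => cr_sum _ fun i hi => by
      have hi' := (Finset.mem_Ico.1 hi).2.le
      exact cr_mul (cr_mul (cr_stay ℓ hi') (cr_mono hi' (hg i))) (cr_mono hi' (he i))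
    have I1 := Adapt.integrable hX hρ h0 (cr_mul (cr_mono hm0 hZ) (ad M (min (M + J * L) N)))
    have I2 := Adapt.integrable hX hρ h0
      (cr_mul (cr_mono (hm0.trans hm) hZ) (ad (min (M + J * L) N) (min (M + (J + 1) * L) N)))
    have e1 : ∀ ω, Z ω * ∑ i ∈ Finset.Ico M (min (M + (J + 1) * L) N),
        stay X ℓ i ω * g i ω * e i ω =
        Z ω * ∑ i ∈ Finset.Ico M (min (M + J * L) N), stay X ℓ i ω * g i ω * e i ω +
        Z ω * ∑ i ∈ Finset.Ico (min (M + J * L) N) (min (M + (J + 1) * L) N),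
          stay X ℓ i ω * g i ω * e i ω := by
      intro ω
      rw [← mul_add, Finset.sum_Ico_consecutive _ hm0 hm]
    simp only [e1]
    rw [integral_add I1 I2]
    refine (abs_add_le _ _).trans ?_
    push_cast
    linarith

private theorem cr_stay_nonneg (ℓ i : ℕ) (ω : Ω) : 0 ≤ stay X ℓ i ω := by
  unfold stay; split_ifs <;> norm_num

private theorem cr_exp_bound {κ : ℝ} (hκ : 0 ≤ κ) : |1 - Real.exp (-κ) - κ| ≤ κ ^ 2 := by
  have h1 : 1 - κ ≤ Real.exp (-κ) := by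
    have := Real.add_one_le_exp (-κ); linarith
  have h2 : Real.exp (-κ) ≤ 1 - κ + κ ^ 2 := by
    have h3 : 1 + κ ≤ Real.exp κ := by have := Real.add_one_le_exp κ; linarith
    have h4 : Real.exp (-κ) * (1 + κ) ≤ 1 := by
      calc Real.exp (-κ) * (1 + κ) ≤ Real.exp (-κ) * Real.exp κ :=
            mul_le_mul_of_nonneg_left h3 (Real.exp_pos _).le
        _ = 1 := by rw [← Real.exp_add]; simp
    have h5 : (1 - κ + κ ^ 2) * (1 + κ) = 1 + κ ^ 3 := by ring
    have h6 : 0 ≤ κ ^ 3 := by positivity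
    have h7 : 0 < 1 + κ := by linarith
    by_contra hc
    push Not at hc
    nlinarith [mul_lt_mul_of_pos_right hc h7]
  rw [abs_le]; constructor
  · have : 0 ≤ κ ^ 2 := sq_nonneg κ
    linarith
  · have : 0 ≤ κ ^ 2 := sq_nonneg κ
    linarith

/-- one step -/
private theorem cr_onestep (hX : IsWalk ch ρ X P) (hρ : 0 < ρ) (h0 : (ch []).Nonempty)
    (hW : ∀ v, ρ * W v = Up ch W v) {θ : ℝ} (hθ : 0 < θ) {μ : ℝ} (hμ : 0 < μ) {i ℓ : ℕ}
    {Z : Ω → ℝ} (hZ : Adapt X i Z) (hZ1 : ∀ ω, |Z ω| ≤ 1) {c c' C : ℝ} (hc' : 0 ≤ c')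
    (hcC : c' ≤ C) (hcc : c = c' * Real.exp (-(θ * μ ^ 2 / 2))) :
    |∫ ω, Z ω * (stay X ℓ i ω * (c' * Real.cos (μ * ps W (X (i + 1) ω)) -
        c * Real.cos (μ * ps W (X i ω)))) ∂P + μ ^ 2 / 2 *
        ∫ ω, Z ω * (stay X ℓ i ω * (c' * Real.cos (μ * ps W (X i ω))) *
          (eta ch ρ W (X i ω) - θ)) ∂P| ≤
      C * (μ ^ 2 * ∫ ω, stay X ℓ i ω * lin ch ρ W (1 / μ) (X i ω) ∂P +
        (θ * μ ^ 2 / 2) ^ 2) := by
  have := hX.prob
  set κ := θ * μ ^ 2 / 2 with hκ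
  have hκ0 : 0 ≤ κ := by positivity
  have aS : Adapt X i (stay X ℓ i) := cr_stay ℓ le_rfl
  have aW : Adapt X i (fun ω => Z ω * stay X ℓ i ω * c') :=
    cr_mul (cr_mul hZ aS) (cr_const i c')
  have aC : Adapt X i (fun ω => Real.cos (μ * ps W (X i ω))) :=
    cr_fun le_rfl fun v => Real.cos (μ * ps W v)
  have aC' : Adapt X (i + 1) (fun ω => Real.cos (μ * ps W (X (i + 1) ω))) :=
    cr_fun le_rfl fun v => Real.cos (μ * ps W v)
  have aE : Adapt X i (fun ω => eta ch ρ W (X i ω) - θ) :=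
    cr_fun le_rfl fun v => eta ch ρ W v - θ
  have aP : Adapt X i (fun ω => Pr ch ρ (fun u => Real.cos (μ * ps W u)) (X i ω)) :=
    cr_fun le_rfl (Pr ch ρ (fun u => Real.cos (μ * ps W u)))
  have aL : Adapt X i (fun ω => lin ch ρ W (1 / μ) (X i ω)) :=
    cr_fun le_rfl (lin ch ρ W (1 / μ))
  have hmk := Adapt.markov hX hρ h0 aW (fun v => Real.cos (μ * ps W v))
  have I1 := Adapt.integrable hX hρ h0 (cr_mul (cr_mono (Nat.le_succ i) aW) aC')
  have I2 := Adapt.integrable hX hρ h0 (cr_mul aW aP)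
  have I3 : Integrable (fun ω => Z ω * stay X ℓ i ω * c * Real.cos (μ * ps W (X i ω))) P :=
    Adapt.integrable hX hρ h0 (cr_mul (cr_mul (cr_mul hZ aS) (cr_const i c)) aC)
  have I4 : Integrable (fun ω => Z ω * (stay X ℓ i ω * (c' * Real.cos (μ * ps W (X i ω))) *
          (eta ch ρ W (X i ω) - θ))) P :=
    Adapt.integrable hX hρ h0 (cr_mul hZ (cr_mul (cr_mul aS (cr_mul (cr_const i c') aC)) aE))
  have I5 : Integrable (fun ω => stay X ℓ i ω * lin ch ρ W (1 / μ) (X i ω)) P :=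
    Adapt.integrable hX hρ h0 (cr_mul aS aL)
  have e1 : ∫ ω, Z ω * (stay X ℓ i ω * (c' * Real.cos (μ * ps W (X (i + 1) ω)) -
        c * Real.cos (μ * ps W (X i ω)))) ∂P =
      ∫ ω, (Z ω * stay X ℓ i ω * c' * Pr ch ρ (fun u => Real.cos (μ * ps W u)) (X i ω) -
        Z ω * stay X ℓ i ω * c * Real.cos (μ * ps W (X i ω))) ∂P := by
    rw [integral_sub I2 I3, ← hmk, ← integral_sub I1 I3]
    refine integral_congr_ae (Filter.Eventually.of_forall fun ω => ?_)
    ring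
  have I23 : Integrable (fun ω => Z ω * stay X ℓ i ω * c' *
      Pr ch ρ (fun u => Real.cos (μ * ps W u)) (X i ω) -
        Z ω * stay X ℓ i ω * c * Real.cos (μ * ps W (X i ω))) P := I2.sub I3
  rw [e1, ← integral_const_mul, ← integral_add I23 (I4.const_mul _)]
  have e2 : C * (μ ^ 2 * ∫ ω, stay X ℓ i ω * lin ch ρ W (1 / μ) (X i ω) ∂P + κ ^ 2) =
      ∫ ω, C * (μ ^ 2 * (stay X ℓ i ω * lin ch ρ W (1 / μ) (X i ω)) + κ ^ 2) ∂P := by
    rw [integral_const_mul, integral_add (I5.const_mul _) (integrable_const _),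
      integral_const_mul]
    simp
  rw [e2]
  refine (abs_integral_le_integral_abs).trans (integral_mono_of_nonneg
    (Filter.Eventually.of_forall fun ω => abs_nonneg _) ?_
    (Filter.Eventually.of_forall fun ω => ?_))
  · exact ((I5.const_mul _).add (integrable_const _)).const_mul _
  · have hcs := cos_step hρ h0 hW hμ (X i ω)
    have e3 : Z ω * stay X ℓ i ω * c' * Pr ch ρ (fun u => Real.cos (μ * ps W u)) (X i ω) -
        Z ω * stay X ℓ i ω * c * Real.cos (μ * ps W (X i ω)) +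
        μ ^ 2 / 2 * (Z ω * (stay X ℓ i ω * (c' * Real.cos (μ * ps W (X i ω))) *
          (eta ch ρ W (X i ω) - θ))) =
        Z ω * (c' * (stay X ℓ i ω * ((Pr ch ρ (fun u => Real.cos (μ * ps W u)) (X i ω) -
          Real.cos (μ * ps W (X i ω)) +
          μ ^ 2 / 2 * Real.cos (μ * ps W (X i ω)) * eta ch ρ W (X i ω)) +
          Real.cos (μ * ps W (X i ω)) * (1 - Real.exp (-κ) - κ)))) := by
      rw [hcc, hκ]; ring
    simp only []
    show |_ - _ + _| ≤ _
    rw [e3, abs_mul, abs_mul, abs_mul, abs_of_nonneg hc', abs_of_nonneg (cr_stay_nonneg ℓ i ω)]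
    have hl : 0 ≤ lin ch ρ W (1 / μ) (X i ω) := cr_lin_nonneg hρ (by positivity) _
    have hs0 := cr_stay_nonneg (X := X) ℓ i ω
    have hs1 : stay X ℓ i ω ≤ 1 := by unfold stay; split_ifs <;> norm_num
    have h5 : |(Pr ch ρ (fun u => Real.cos (μ * ps W u)) (X i ω) -
          Real.cos (μ * ps W (X i ω)) +
          μ ^ 2 / 2 * Real.cos (μ * ps W (X i ω)) * eta ch ρ W (X i ω)) +
          Real.cos (μ * ps W (X i ω)) * (1 - Real.exp (-κ) - κ)| ≤
        μ ^ 2 * lin ch ρ W (1 / μ) (X i ω) + κ ^ 2 := by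
      refine (abs_add_le _ _).trans (add_le_add hcs ?_)
      rw [abs_mul]
      calc |Real.cos (μ * ps W (X i ω))| * |1 - Real.exp (-κ) - κ| ≤ 1 * κ ^ 2 :=
            mul_le_mul (Real.abs_cos_le_one _) (cr_exp_bound hκ0) (abs_nonneg _) zero_le_one
        _ = κ ^ 2 := one_mul _
    have h6 : stay X ℓ i ω * |(Pr ch ρ (fun u => Real.cos (μ * ps W u)) (X i ω) -
          Real.cos (μ * ps W (X i ω)) +
          μ ^ 2 / 2 * Real.cos (μ * ps W (X i ω)) * eta ch ρ W (X i ω)) +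
          Real.cos (μ * ps W (X i ω)) * (1 - Real.exp (-κ) - κ)| ≤
        μ ^ 2 * (stay X ℓ i ω * lin ch ρ W (1 / μ) (X i ω)) + κ ^ 2 := by
      refine (mul_le_mul_of_nonneg_left h5 hs0).trans ?_
      have : stay X ℓ i ω * κ ^ 2 ≤ 1 * κ ^ 2 := mul_le_mul_of_nonneg_right hs1 (sq_nonneg _)
      linarith
    have h7 : 0 ≤ μ ^ 2 * (stay X ℓ i ω * lin ch ρ W (1 / μ) (X i ω)) + κ ^ 2 := by positivity
    calc _ ≤ 1 * (c' * (μ ^ 2 * (stay X ℓ i ω * lin ch ρ W (1 / μ) (X i ω)) + κ ^ 2)) :=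
          mul_le_mul (hZ1 ω) (mul_le_mul_of_nonneg_left h6 hc') (by positivity) zero_le_one
      _ ≤ _ := by rw [one_mul]; exact mul_le_mul_of_nonneg_right hcC h7

private theorem cr_tele (ℓ : ℕ) {M N : ℕ} (hMN : M ≤ N) (f : ℕ → ℝ) (ω : Ω) :
    ∃ k, M ≤ k ∧ k ≤ N ∧
      ∑ i ∈ Finset.Ico M N, stay X ℓ i ω * (f (i + 1) - f i) = f k - f M ∧
      (k = N ∨ ω ∈ Exit X ℓ N) := by
  induction N, hMN using Nat.le_induction with
  | base => exact ⟨M, le_rfl, le_rfl, by simp, Or.inl rfl⟩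
  | succ N hN ih =>
    obtain ⟨k, h1, h2, h3, h4⟩ := ih
    rw [Finset.sum_Ico_succ_top hN, h3]
    by_cases hs : ∀ s ≤ N, (X s ω).length < ℓ
    · have hst : stay X ℓ N ω = 1 := by simp only [stay]; rw [if_pos hs]
      have hk : k = N := by
        rcases h4 with h4 | ⟨s, hs1, hs2⟩
        · exact h4
        · exact absurd (hs s hs1) (not_lt.2 hs2)
      subst hk
      exact ⟨k + 1, by omega, le_rfl, by rw [hst]; ring, Or.inl rfl⟩
    · have hst : stay X ℓ N ω = 0 := by simp only [stay]; rw [if_neg hs]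
      refine ⟨k, h1, by omega, by rw [hst]; ring, Or.inr ?_⟩
      push Not at hs
      obtain ⟨s, hs1, hs2⟩ := hs
      exact ⟨s, by omega, hs2⟩

/-- the quantitative estimate -/
private theorem cr_finite (hX : IsWalk ch ρ X P) (hρ : 0 < ρ) (h0 : (ch []).Nonempty)
    (hW : ∀ v, ρ * W v = Up ch W v) {θ : ℝ} (hθ : 0 < θ) {ε : ℝ} {ℓ : ℕ}
    (hE : ∀ (M n : ℕ) (ξ : ℕ → Ω → ℝ), Wgt X ℓ M ξ →
      |∫ ω, ∑ t ∈ range n, ξ t ω * (eta ch ρ W (X t ω) - θ) ∂P| ≤ ε * (ℓ : ℝ) ^ 2)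
    (hWin : ∀ (M L : ℕ) (D : ℝ), 0 < D →
      D ^ 2 * P.real (WinOut X W ℓ M (M + L) D) ≤ θ * L + ε * (ℓ : ℝ) ^ 2)
    {R : ℝ} (hR : 0 < R)
    (hLin : ∀ n : ℕ, ∫ ω, ∑ t ∈ range n, stay X ℓ t ω * lin ch ρ W R (X t ω) ∂P ≤
      ε * (ℓ : ℝ) ^ 2)
    {μ : ℝ} (hμ : 0 < μ) (hμR : R ≤ 1 / μ) {M N L J : ℕ} (hMN : M ≤ N) (hJ : N ≤ M + J * L)
    {D : ℝ} (hD : 0 < D) {Z : Ω → ℝ} (hZ : Adapt X M Z) (hZ1 : ∀ ω, |Z ω| ≤ 1) :
    |∫ ω, Z ω * (Real.cos (μ * ps W (X N ω)) -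
      Real.exp (-(θ * μ ^ 2 / 2 * ((N : ℝ) - M))) * Real.cos (μ * ps W (X M ω))) ∂P| ≤
      2 * P.real (Exit X ℓ N) + μ ^ 2 * (ε * (ℓ : ℝ) ^ 2) +
        ((N : ℝ) - M) * (θ * μ ^ 2 / 2) ^ 2 +
        μ ^ 2 / 2 * (J * ((θ * μ ^ 2 / 2 * L + μ * D) * (2 * θ * L + ε * (ℓ : ℝ) ^ 2) +
          4 * (ε * (ℓ : ℝ) ^ 2) + 2 * θ * L * ((θ * L + ε * (ℓ : ℝ) ^ 2) / D ^ 2))) := by
  have := hX.prob
  have hεℓ : 0 ≤ ε * (ℓ : ℝ) ^ 2 := le_trans (abs_nonneg _) (hE 0 0 _ (cra_wgt ℓ 0))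
  set κ := θ * μ ^ 2 / 2 with hκ
  have hκ0 : 0 ≤ κ := by positivity
  set c : ℕ → ℝ := fun i => Real.exp (κ * ((i : ℝ) - M)) with hc
  have hc0 : ∀ i, 0 < c i := fun i => Real.exp_pos _
  have hcm : ∀ i j : ℕ, i ≤ j → c i ≤ c j := by
    intro i j hij
    refine Real.exp_le_exp.2 (mul_le_mul_of_nonneg_left ?_ hκ0)
    have : (i : ℝ) ≤ j := by exact_mod_cast hij
    linarith
  set C := c N with hC
  have hC0 : 0 < C := hc0 N
  set f : ℕ → Ω → ℝ := fun i ω => c i * Real.cos (μ * ps W (X i ω)) with hf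
  have aC : ∀ i, Adapt X i (fun ω => Real.cos (μ * ps W (X i ω))) := fun i =>
    cr_fun le_rfl fun v => Real.cos (μ * ps W v)
  have af : ∀ i, Adapt X i (f i) := fun i => cr_mul (cr_const i (c i)) (aC i)
  have aE : ∀ i, Adapt X i (fun ω => eta ch ρ W (X i ω) - θ) := fun i =>
    cr_fun le_rfl fun v => eta ch ρ W v - θ
  have bf : ∀ i, i ≤ N → ∀ ω, |f i ω| ≤ C := by
    intro i hi ω
    simp only [hf]
    rw [abs_mul, abs_of_pos (hc0 i)]
    calc c i * |Real.cos (μ * ps W (X i ω))| ≤ C * 1 :=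
          mul_le_mul (hcm i N hi) (Real.abs_cos_le_one _) (abs_nonneg _) hC0.le
      _ = C := mul_one C
  -- Step 1: stopping at the exit time
  have aS1 : Adapt X N (fun ω => ∑ i ∈ Finset.Ico M N, stay X ℓ i ω * (f (i + 1) ω - f i ω)) :=
    cr_sum _ fun i hi => by
      have hi' := (Finset.mem_Ico.1 hi).2
      exact cr_mul (cr_stay ℓ hi'.le) (cr_sub (cr_mono hi' (af (i + 1))) (cr_mono hi'.le (af i)))
  have aZN : Adapt X N Z := cr_mono hMN hZ
  have ID : Integrable (fun ω => Z ω * (f N ω - f M ω)) P :=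
    Adapt.integrable hX hρ h0 (cr_mul aZN (cr_sub (af N) (cr_mono hMN (af M))))
  have IS : Integrable (fun ω => Z ω * ∑ i ∈ Finset.Ico M N,
      stay X ℓ i ω * (f (i + 1) ω - f i ω)) P :=
    Adapt.integrable hX hρ h0 (cr_mul aZN aS1)
  have hms := cr_exit_meas (X := X) hX ℓ N
  have s1 : |∫ ω, Z ω * (f N ω - f M ω) ∂P - ∫ ω, Z ω * ∑ i ∈ Finset.Ico M N,
      stay X ℓ i ω * (f (i + 1) ω - f i ω) ∂P| ≤ 2 * C * P.real (Exit X ℓ N) := by
    rw [← integral_sub ID IS]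
    have e1 : 2 * C * P.real (Exit X ℓ N) =
        ∫ ω, (Exit X ℓ N).indicator (fun _ => 2 * C) ω ∂P := by
      rw [integral_indicator_const _ hms, smul_eq_mul, mul_comm]
    rw [e1]
    refine (abs_integral_le_integral_abs).trans (integral_mono_of_nonneg
      (Filter.Eventually.of_forall fun ω => abs_nonneg _)
      ((integrable_const _).indicator hms) (Filter.Eventually.of_forall fun ω => ?_))
    obtain ⟨k, h1, h2, h3, h4⟩ := cr_tele (X := X) ℓ hMN (fun i => f i ω) ω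
    show |_ - _| ≤ _
    rw [h3]
    rcases h4 with rfl | h4
    · simp only [sub_self, abs_zero]
      exact Set.indicator_nonneg (fun _ _ => by positivity) _
    · rw [Set.indicator_of_mem h4]
      have e2 : Z ω * (f N ω - f M ω) - Z ω * (f k ω - f M ω) = Z ω * (f N ω - f k ω) := by ring
      rw [e2, abs_mul]
      have e3 : |f N ω - f k ω| ≤ 2 * C := by
        refine (abs_sub _ _).trans ?_
        have := bf N le_rfl ω
        have := bf k h2 ω
        linarith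
      calc |Z ω| * |f N ω - f k ω| ≤ 1 * (2 * C) :=
            mul_le_mul (hZ1 ω) e3 (abs_nonneg _) zero_le_one
        _ = 2 * C := one_mul _
  -- Step 2: one step estimates
  have aT : ∀ i, Adapt X i (fun ω => stay X ℓ i ω * (c (i + 1) *
      Real.cos (μ * ps W (X i ω))) * (eta ch ρ W (X i ω) - θ)) := fun i =>
    cr_mul (cr_mul (cr_stay ℓ le_rfl) (cr_mul (cr_const i _) (aC i))) (aE i)
  have s2 : |∫ ω, Z ω * ∑ i ∈ Finset.Ico M N, stay X ℓ i ω * (f (i + 1) ω - f i ω) ∂P +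
      μ ^ 2 / 2 * ∫ ω, Z ω * ∑ i ∈ Finset.Ico M N, stay X ℓ i ω * (c (i + 1) *
        Real.cos (μ * ps W (X i ω))) * (eta ch ρ W (X i ω) - θ) ∂P| ≤
      C * (μ ^ 2 * (ε * (ℓ : ℝ) ^ 2) + ((N : ℝ) - M) * κ ^ 2) := by
    have e1 : ∫ ω, Z ω * ∑ i ∈ Finset.Ico M N, stay X ℓ i ω * (f (i + 1) ω - f i ω) ∂P =
        ∑ i ∈ Finset.Ico M N, ∫ ω, Z ω * (stay X ℓ i ω * (f (i + 1) ω - f i ω)) ∂P := by
      rw [← integral_finsetSum]
      · simp only [Finset.mul_sum]
      · intro i hi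
        have hi' := (Finset.mem_Ico.1 hi)
        exact Adapt.integrable hX hρ h0 (cr_mul (cr_mono (hi'.1.trans (Nat.le_succ i)) hZ)
          (cr_mul (cr_stay ℓ (Nat.le_succ i)) (cr_sub (af (i + 1)) (cr_mono (Nat.le_succ i) (af i)))))
    have e2 : ∫ ω, Z ω * ∑ i ∈ Finset.Ico M N, stay X ℓ i ω * (c (i + 1) *
        Real.cos (μ * ps W (X i ω))) * (eta ch ρ W (X i ω) - θ) ∂P =
        ∑ i ∈ Finset.Ico M N, ∫ ω, Z ω * (stay X ℓ i ω * (c (i + 1) *
        Real.cos (μ * ps W (X i ω))) * (eta ch ρ W (X i ω) - θ)) ∂P := by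
      rw [← integral_finsetSum]
      · simp only [Finset.mul_sum]
      · intro i hi
        have hi' := (Finset.mem_Ico.1 hi)
        exact Adapt.integrable hX hρ h0 (cr_mul (cr_mono hi'.1 hZ) (aT i))
    rw [e1, e2, Finset.mul_sum, ← Finset.sum_add_distrib]
    refine (Finset.abs_sum_le_sum_abs _ _).trans ?_
    have e3 : ∀ i ∈ Finset.Ico M N, |∫ ω, Z ω * (stay X ℓ i ω * (f (i + 1) ω - f i ω)) ∂P +
        μ ^ 2 / 2 * ∫ ω, Z ω * (stay X ℓ i ω * (c (i + 1) *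
        Real.cos (μ * ps W (X i ω))) * (eta ch ρ W (X i ω) - θ)) ∂P| ≤
        C * (μ ^ 2 * ∫ ω, stay X ℓ i ω * lin ch ρ W (1 / μ) (X i ω) ∂P + κ ^ 2) := by
      intro i hi
      have hi' := (Finset.mem_Ico.1 hi)
      refine cr_onestep hX hρ h0 hW hθ hμ (cr_mono hi'.1 hZ) hZ1 (hc0 (i + 1)).le
        (hcm (i + 1) N hi'.2) ?_
      simp only [hc]
      rw [← Real.exp_add]
      congr 1
      push_cast
      ring
    refine (Finset.sum_le_sum e3).trans ?_
    rw [← Finset.mul_sum, Finset.sum_add_distrib, ← Finset.mul_sum]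
    refine mul_le_mul_of_nonneg_left (add_le_add (mul_le_mul_of_nonneg_left ?_ (sq_nonneg μ)) ?_)
      hC0.le
    · refine le_trans ?_ (hLin N)
      have aL : ∀ (R : ℝ) i, Adapt X i (fun ω => stay X ℓ i ω * lin ch ρ W R (X i ω)) :=
        fun R i => cr_mul (cr_stay ℓ le_rfl) (cr_fun le_rfl _)
      rw [integral_finsetSum _ fun i _ => Adapt.integrable hX hρ h0 (aL R i)]
      have hsub : Finset.Ico M N ⊆ Finset.range N := by
        rw [Finset.range_eq_Ico]; exact Finset.Ico_subset_Ico_left (Nat.zero_le M)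
      refine le_trans (Finset.sum_le_sum fun i _ => ?_)
        (Finset.sum_le_sum_of_subset_of_nonneg hsub fun i _ _ => ?_)
      · refine integral_mono (Adapt.integrable hX hρ h0 (aL (1 / μ) i))
          (Adapt.integrable hX hρ h0 (aL R i)) fun ω => ?_
        exact mul_le_mul_of_nonneg_left (cr_lin_anti hρ hR hμR _) (cr_stay_nonneg ℓ i ω)
      · exact integral_nonneg fun ω => mul_nonneg (cr_stay_nonneg ℓ i ω) (cr_lin_nonneg hρ hR _)
    · rw [Finset.sum_const, Nat.card_Ico, nsmul_eq_mul, Nat.cast_sub hMN]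
  -- Step 3: the main term
  have hblk : ∀ m m', M ≤ m → m ≤ m' → m' ≤ m + L → m' ≤ N →
      |∫ ω, Z ω * ∑ i ∈ Finset.Ico m m', stay X ℓ i ω * (c (i + 1) *
        Real.cos (μ * ps W (X i ω))) * (eta ch ρ W (X i ω) - θ) ∂P| ≤
      C * ((κ * L + μ * D) * (2 * θ * L + ε * (ℓ : ℝ) ^ 2) + 4 * (ε * (ℓ : ℝ) ^ 2) +
        2 * θ * L * ((θ * L + ε * (ℓ : ℝ) ^ 2) / D ^ 2)) := by
    intro m m' h1 h2 h3 h4
    have hpw : P.real (WinOut X W ℓ m (m + L) D) ≤ (θ * L + ε * (ℓ : ℝ) ^ 2) / D ^ 2 := by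
      rw [le_div_iff₀ (by positivity), mul_comm]
      exact hWin m L D hD
    have hbl := cr_block hX hρ h0 hW hθ hE h2 h3 hD.le hC0 (o := κ * L + μ * D) (by positivity)
      (cr_mono h1 hZ) hZ1 (g := fun i ω => c (i + 1) * Real.cos (μ * ps W (X i ω)))
      (fun i => cr_mul (cr_const i _) (aC i)) ?_ ?_
    · refine hbl.trans (mul_le_mul_of_nonneg_left (add_le_add le_rfl
        (mul_le_mul_of_nonneg_left hpw (by positivity))) hC0.le)
    · intro i hi1 hi2 ω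
      rw [abs_mul, abs_of_pos (hc0 (i + 1))]
      calc c (i + 1) * |Real.cos (μ * ps W (X i ω))| ≤ C * 1 :=
            mul_le_mul (hcm (i + 1) N (by omega)) (Real.abs_cos_le_one _) (abs_nonneg _) hC0.le
        _ = C := mul_one C
    · intro i hi1 hi2 ω hi3
      have e1 : c (i + 1) * Real.cos (μ * ps W (X i ω)) - c (m + 1) * Real.cos (μ * ps W (X m ω))
          = (c (i + 1) - c (m + 1)) * Real.cos (μ * ps W (X i ω)) +
            c (m + 1) * (Real.cos (μ * ps W (X i ω)) - Real.cos (μ * ps W (X m ω))) := by ring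
      have e2 : |c (i + 1) - c (m + 1)| ≤ C * (κ * L) := by
        rw [abs_of_nonneg (sub_nonneg.2 (hcm _ _ (by omega)))]
        have e3 : c (m + 1) = c (i + 1) * Real.exp (-(κ * ((i : ℝ) - m))) := by
          simp only [hc]
          rw [← Real.exp_add]
          congr 1
          push_cast
          ring
        rw [e3]
        have e4 : 1 - Real.exp (-(κ * ((i : ℝ) - m))) ≤ κ * ((i : ℝ) - m) := by
          have := Real.add_one_le_exp (-(κ * ((i : ℝ) - m)))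
          linarith
        have e5 : (i : ℝ) - m ≤ L := by
          have : i ≤ m + L := by omega
          have : (i : ℝ) ≤ m + L := by exact_mod_cast this
          linarith
        have e6 : (0 : ℝ) ≤ (i : ℝ) - m := by
          have : (m : ℝ) ≤ i := by exact_mod_cast hi1
          linarith
        calc c (i + 1) - c (i + 1) * Real.exp (-(κ * ((i : ℝ) - m)))
            = c (i + 1) * (1 - Real.exp (-(κ * ((i : ℝ) - m)))) := by ring
          _ ≤ c (i + 1) * (κ * ((i : ℝ) - m)) := mul_le_mul_of_nonneg_left e4 (hc0 _).le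
          _ ≤ C * (κ * L) := mul_le_mul (hcm (i + 1) N (by omega))
              (mul_le_mul_of_nonneg_left e5 hκ0) (mul_nonneg hκ0 e6) hC0.le
      have e7 : |Real.cos (μ * ps W (X i ω)) - Real.cos (μ * ps W (X m ω))| ≤ μ * D := by
        refine (Real.abs_cos_sub_cos_le _ _).trans ?_
        rw [← mul_sub, abs_mul, abs_of_pos hμ]
        exact mul_le_mul_of_nonneg_left hi3 hμ.le
      rw [e1]
      refine (abs_add_le _ _).trans ?_
      rw [abs_mul, abs_mul, abs_of_pos (hc0 (m + 1)), mul_add]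
      refine add_le_add ?_ ?_
      · calc |c (i + 1) - c (m + 1)| * |Real.cos (μ * ps W (X i ω))| ≤ (C * (κ * L)) * 1 :=
              mul_le_mul e2 (Real.abs_cos_le_one _) (abs_nonneg _) (by positivity)
          _ = _ := mul_one _
      · exact mul_le_mul (hcm (m + 1) N (by omega)) e7 (abs_nonneg _) hC0.le
  have s3 := cr_blocks hX hρ h0 hMN hZ (g := fun i ω => c (i + 1) * Real.cos (μ * ps W (X i ω)))
    (e := fun i ω => eta ch ρ W (X i ω) - θ) (fun i => cr_mul (cr_const i _) (aC i)) aE ℓ hblk J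
  rw [min_eq_right hJ] at s3
  -- conclusion
  have hT1 : ∫ ω, Z ω * (f N ω - f M ω) ∂P = C * ∫ ω, Z ω * (Real.cos (μ * ps W (X N ω)) -
      Real.exp (-(κ * ((N : ℝ) - M))) * Real.cos (μ * ps W (X M ω))) ∂P := by
    rw [← integral_const_mul]
    refine integral_congr_ae (Filter.Eventually.of_forall fun ω => ?_)
    have e1 : c M = C * Real.exp (-(κ * ((N : ℝ) - M))) := by
      simp only [hC, hc]
      rw [← Real.exp_add]
      congr 1
      ring
    have e2 : f M ω = C * Real.exp (-(κ * ((N : ℝ) - M))) * Real.cos (μ * ps W (X M ω)) := by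
      simp only [hf]; rw [e1]
    have e3 : f N ω = C * Real.cos (μ * ps W (X N ω)) := rfl
    simp only []
    rw [e2, e3]; ring
  have h4 : C * |∫ ω, Z ω * (Real.cos (μ * ps W (X N ω)) -
      Real.exp (-(κ * ((N : ℝ) - M))) * Real.cos (μ * ps W (X M ω))) ∂P| ≤
      C * (2 * P.real (Exit X ℓ N) + μ ^ 2 * (ε * (ℓ : ℝ) ^ 2) +
        ((N : ℝ) - M) * κ ^ 2 +
        μ ^ 2 / 2 * (J * ((κ * L + μ * D) * (2 * θ * L + ε * (ℓ : ℝ) ^ 2) +
          4 * (ε * (ℓ : ℝ) ^ 2) + 2 * θ * L * ((θ * L + ε * (ℓ : ℝ) ^ 2) / D ^ 2)))) := by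
    rw [← abs_of_pos hC0, ← abs_mul, abs_of_pos hC0, ← hT1]
    set T1 := ∫ ω, Z ω * (f N ω - f M ω) ∂P
    set T2 := ∫ ω, Z ω * ∑ i ∈ Finset.Ico M N, stay X ℓ i ω * (f (i + 1) ω - f i ω) ∂P
    set T3 := ∫ ω, Z ω * ∑ i ∈ Finset.Ico M N, stay X ℓ i ω * (c (i + 1) *
        Real.cos (μ * ps W (X i ω))) * (eta ch ρ W (X i ω) - θ) ∂P
    set EE := (κ * L + μ * D) * (2 * θ * L + ε * (ℓ : ℝ) ^ 2) + 4 * (ε * (ℓ : ℝ) ^ 2) +
        2 * θ * L * ((θ * L + ε * (ℓ : ℝ) ^ 2) / D ^ 2)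
    have e1 : T1 = (T1 - T2) + ((T2 + μ ^ 2 / 2 * T3) - μ ^ 2 / 2 * T3) := by ring
    have e2 : |μ ^ 2 / 2 * T3| ≤ μ ^ 2 / 2 * (J * (C * EE)) := by
      rw [abs_mul, abs_of_nonneg (by positivity : 0 ≤ μ ^ 2 / 2)]
      exact mul_le_mul_of_nonneg_left s3 (by positivity)
    calc |T1| = |(T1 - T2) + ((T2 + μ ^ 2 / 2 * T3) - μ ^ 2 / 2 * T3)| := by rw [← e1]
      _ ≤ |T1 - T2| + |(T2 + μ ^ 2 / 2 * T3) - μ ^ 2 / 2 * T3| := abs_add_le _ _
      _ ≤ |T1 - T2| + (|T2 + μ ^ 2 / 2 * T3| + |μ ^ 2 / 2 * T3|) := by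
          gcongr
          exact abs_sub _ _
      _ ≤ 2 * C * P.real (Exit X ℓ N) + (C * (μ ^ 2 * (ε * (ℓ : ℝ) ^ 2) + ((N : ℝ) - M) * κ ^ 2)
          + μ ^ 2 / 2 * (J * (C * EE))) := add_le_add s1 (add_le_add s2 e2)
      _ = _ := by ring
  exact le_of_mul_le_mul_left h4 hC0

private theorem cr_choose {C : ℝ} (hC : 0 ≤ C) {e : ℝ} (he : 0 < e) :
    ∃ x > 0, x ≤ 1 ∧ C * x ≤ e := by
  have hC1 : 0 < C + 1 := by linarith
  refine ⟨min 1 (e / (C + 1)), lt_min one_pos (by positivity), min_le_left _ _, ?_⟩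
  calc C * min 1 (e / (C + 1)) ≤ C * (e / (C + 1)) :=
        mul_le_mul_of_nonneg_left (min_le_right _ _) hC
    _ ≤ (C + 1) * (e / (C + 1)) := mul_le_mul_of_nonneg_right (by linarith) (by positivity)
    _ = e := by field_simp

private theorem cr_exp_lip {a b : ℝ} (ha : 0 ≤ a) (hb : 0 ≤ b) :
    |Real.exp (-a) - Real.exp (-b)| ≤ |a - b| := by
  have aux : ∀ a b : ℝ, 0 ≤ a → a ≤ b → |Real.exp (-a) - Real.exp (-b)| ≤ |a - b| := by
    intro a b ha hab
    have h1 : Real.exp (-b) ≤ Real.exp (-a) := Real.exp_le_exp.2 (by linarith)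
    rw [abs_of_nonneg (by linarith), abs_of_nonpos (by linarith)]
    have h2 : Real.exp (-b) = Real.exp (-a) * Real.exp (-(b - a)) := by
      rw [← Real.exp_add]; congr 1; ring
    have h3 : 1 - (b - a) ≤ Real.exp (-(b - a)) := by
      have := Real.add_one_le_exp (-(b - a)); linarith
    have h4 : Real.exp (-a) ≤ 1 := by
      rw [Real.exp_le_one_iff]; linarith
    have h5 : 0 < Real.exp (-a) := Real.exp_pos _
    calc Real.exp (-a) - Real.exp (-b) = Real.exp (-a) * (1 - Real.exp (-(b - a))) := by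
          rw [h2]; ring
      _ ≤ Real.exp (-a) * (b - a) := mul_le_mul_of_nonneg_left (by linarith) h5.le
      _ ≤ 1 * (b - a) := mul_le_mul_of_nonneg_right h4 (by linarith)
      _ = -(a - b) := by ring
  rcases le_total a b with h | h
  · exact aux a b ha h
  · rw [abs_sub_comm, abs_sub_comm a b]; exact aux b a hb h

private theorem cr_pos (hB : Base ch ρ W X P) {θ : ℝ} (hθ : 0 < θ) (hE : EtaW ch ρ W X P θ)
    (hL : LinW ch ρ W X P) (hTi : TightW X P) {r : ℝ} (hr : 0 < r) (s t : ℝ≥0) (hst : s ≤ t) :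
    ∀ ε > 0, ∀ᶠ n : ℕ in atTop, ∀ Z : Ω → ℝ, Adapt X ⌊(n : ℝ≥0) * s⌋₊ Z → (∀ ω, |Z ω| ≤ 1) →
      |∫ ω, Z ω * (Real.cos (r * (ps W (X ⌊(n : ℝ≥0) * t⌋₊ ω) / √(n : ℝ))) -
        Real.exp (-(θ * r ^ 2 * ((t : ℝ) - s) / 2)) *
          Real.cos (r * (ps W (X ⌊(n : ℝ≥0) * s⌋₊ ω) / √(n : ℝ)))) ∂P| ≤ ε := by
  intro e0 he0
  have hX := hB.walk
  have := hX.prob
  have hρ : 0 < ρ := lt_trans zero_lt_one hB.one_lt
  have h0 : (ch []).Nonempty := by
    rw [Finset.nonempty_iff_ne_empty]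
    intro h
    have h1 := hB.W_flow []
    have h2 := mul_pos hρ hB.W_root
    rw [h1, Up, h, Finset.sum_empty] at h2
    exact lt_irrefl _ h2
  have hW := hB.W_flow
  have ht0 : (0 : ℝ) ≤ t := t.coe_nonneg
  have hs0 : (0 : ℝ) ≤ s := s.coe_nonneg
  have hst' : (s : ℝ) ≤ t := by exact_mod_cast hst
  set T : ℝ := (t : ℝ) + 1 with hT
  have hT0 : 0 < T := by positivity
  have hT1 : 1 ≤ T := by linarith
  obtain ⟨K, hK, hTK⟩ := hTi T hT0 (e0 / 8) (by positivity)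
  set Kp := (K + 1) ^ 2 with hKp
  have hKp0 : 0 < Kp := by positivity
  obtain ⟨δ, hδ, hδ1, hδC⟩ := cr_choose (C := 4 * θ * T * r ^ 3) (e := e0 / 8)
    (by positivity) (by positivity)
  obtain ⟨β, hβ, hβ1, hβC⟩ := cr_choose
    (C := 4 * θ ^ 2 * r ^ 4 * T + 8 * θ ^ 2 * r ^ 2 * T / δ ^ 2) (e := e0 / 8)
    (by positivity) (by positivity)
  obtain ⟨ε, hε, hε1, hεC⟩ := cr_choose
    (C := r ^ 2 * T / β * Kp * ((θ * r ^ 2 * β + r * δ) + 4 + 4 * θ * β / δ ^ 2) + r ^ 2 * Kp)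
    (e := e0 / 8) (by positivity) (by positivity)
  obtain ⟨ℓ1, hℓ1⟩ := hE ε hε
  obtain ⟨ℓ2, hℓ2⟩ := window_exit hB hθ hE ε hε
  obtain ⟨R, hR, ℓ3, hℓ3⟩ := hL ε hε
  set J := ⌈T / β⌉₊ with hJ
  have hJ1 : T / β ≤ J := Nat.le_ceil _
  have hJ2 : (J : ℝ) ≤ 2 * T / β := by
    have h1 : (J : ℝ) < T / β + 1 := Nat.ceil_lt_add_one (by positivity)
    have h2 : 1 ≤ T / β := by rw [le_div_iff₀ hβ]; linarith
    have h3 : 2 * T / β = T / β + T / β := by ring
    linarith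
  have hsq : Tendsto (fun n : ℕ => √(n : ℝ)) atTop atTop :=
    Real.tendsto_sqrt_atTop.comp tendsto_natCast_atTop_atTop
  have hnt : Tendsto (fun n : ℕ => (n : ℝ)) atTop atTop := tendsto_natCast_atTop_atTop
  filter_upwards [eventually_ge_atTop 1, hnt.eventually_ge_atTop (1 / β),
    hsq.eventually_ge_atTop (((max ℓ1 (max ℓ2 ℓ3) : ℕ) : ℝ) / K),
    hsq.eventually_ge_atTop (R * r),
    hnt.eventually_ge_atTop (T * θ ^ 2 * r ^ 4 / 4 / (e0 / 8)),
    hnt.eventually_ge_atTop (θ * r ^ 2 / 2 / (e0 / 8)), hTK] with n n1 n2 n3 n4 n5 n6 n7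
  intro Z hZ hZ1
  have hn0 : (0 : ℝ) < n := by exact_mod_cast n1
  have hn1 : (1 : ℝ) ≤ n := by exact_mod_cast n1
  set q := √(n : ℝ) with hq
  have hq0 : 0 < q := Real.sqrt_pos.2 hn0
  have hq2 : q ^ 2 = n := Real.sq_sqrt hn0.le
  have hq1 : 1 ≤ q := by rw [hq]; exact Real.one_le_sqrt.2 hn1
  set M := ⌊(n : ℝ≥0) * s⌋₊ with hM
  set N := ⌊(n : ℝ≥0) * t⌋₊ with hN
  have hMN : M ≤ N := Nat.floor_le_floor (mul_le_mul_right hst _)
  have hN1 : (N : ℝ) ≤ n * t := by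
    have h1 : ((N : ℕ) : ℝ≥0) ≤ (n : ℝ≥0) * t := Nat.floor_le zero_le
    exact_mod_cast h1
  have hN2 : (n : ℝ) * t < N + 1 := by
    have h1 : (n : ℝ≥0) * t < ((N : ℕ) : ℝ≥0) + 1 := Nat.lt_floor_add_one _
    exact_mod_cast h1
  have hM1 : (M : ℝ) ≤ n * s := by
    have h1 : ((M : ℕ) : ℝ≥0) ≤ (n : ℝ≥0) * s := Nat.floor_le zero_le
    exact_mod_cast h1
  have hM2 : (n : ℝ) * s < M + 1 := by
    have h1 : (n : ℝ≥0) * s < ((M : ℕ) : ℝ≥0) + 1 := Nat.lt_floor_add_one _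
    exact_mod_cast h1
  have hMN' : (0 : ℝ) ≤ (N : ℝ) - M := by
    have : (M : ℝ) ≤ N := by exact_mod_cast hMN
    linarith
  have hNM : (N : ℝ) - M ≤ T * n := by
    have h1 : (0 : ℝ) ≤ M := Nat.cast_nonneg _
    have h2 : T * n = n * t + n := by rw [hT]; ring
    linarith
  set ℓ := ⌈K * q⌉₊ with hℓ
  have hℓge : K * q ≤ ℓ := Nat.le_ceil _
  have hℓle : (ℓ : ℝ) ≤ (K + 1) * q := by
    have h1 : (ℓ : ℝ) < K * q + 1 := Nat.ceil_lt_add_one (by positivity)
    have h2 : (K + 1) * q = K * q + q := by ring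
    linarith
  have hℓsq : (ℓ : ℝ) ^ 2 ≤ Kp * n := by
    rw [hKp, ← hq2, ← mul_pow]
    exact pow_le_pow_left₀ (Nat.cast_nonneg _) hℓle 2
  have hℓmax : max ℓ1 (max ℓ2 ℓ3) ≤ ℓ := by
    have h1 : ((max ℓ1 (max ℓ2 ℓ3) : ℕ) : ℝ) ≤ K * q := by
      rw [div_le_iff₀ hK] at n3; linarith
    exact_mod_cast h1.trans hℓge
  set L := ⌈β * (n : ℝ)⌉₊ with hLdef
  have hL1 : β * n ≤ L := Nat.le_ceil _
  have hL2 : (L : ℝ) ≤ 2 * β * n := by
    have h1 : (L : ℝ) < β * n + 1 := Nat.ceil_lt_add_one (by positivity)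
    have h2 : 1 ≤ β * n := by
      rw [div_le_iff₀ hβ] at n2; linarith
    linarith
  have hJL : N ≤ M + J * L := by
    have h1 : (N : ℝ) ≤ (M : ℝ) + J * L := by
      have h2 : T * n ≤ J * L := by
        calc T * n = T / β * (β * n) := by field_simp
          _ ≤ J * L := mul_le_mul hJ1 hL1 (by positivity) (Nat.cast_nonneg _)
      linarith
    exact_mod_cast h1
  set μ := r / q with hμ
  have hμ0 : 0 < μ := by positivity
  have hμ2 : μ ^ 2 = r ^ 2 / n := by rw [hμ, div_pow, hq2]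
  have hμR : R ≤ 1 / μ := by
    rw [hμ, one_div_div, le_div_iff₀ hr]; exact n4
  set D := δ * q with hD
  have hD0 : 0 < D := by positivity
  have hD2 : D ^ 2 = δ ^ 2 * n := by rw [hD, mul_pow, hq2]
  have hμD : μ * D = r * δ := by rw [hμ, hD]; field_simp
  have hfin := cr_finite hX hρ h0 hW hθ (ε := ε) (ℓ := ℓ)
    (fun M n ξ hξ => hℓ1 ℓ ((le_max_left _ _).trans hℓmax) M n ξ hξ)
    (fun M L D hD => hℓ2 ℓ (((le_max_left _ _).trans (le_max_right _ _)).trans hℓmax) M L D hD)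
    hR (fun n => hℓ3 ℓ (((le_max_right _ _).trans (le_max_right _ _)).trans hℓmax) n)
    hμ0 hμR hMN hJL hD0 hZ hZ1
  -- the terms
  have u1 : P.real (Exit X ℓ N) ≤ e0 / 8 := by
    refine le_trans (measureReal_mono ?_) n7
    rintro ω ⟨s', h1, h2⟩
    refine ⟨s', h1.trans ?_, h2⟩
    refine Nat.le_floor ?_
    have h2 : T * n = n * t + n := by rw [hT]; ring
    linarith
  have hεℓ : ε * (ℓ : ℝ) ^ 2 ≤ ε * Kp * n := by
    calc ε * (ℓ : ℝ) ^ 2 ≤ ε * (Kp * n) := mul_le_mul_of_nonneg_left hℓsq hε.le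
      _ = _ := by ring
  have hεℓ0 : 0 ≤ ε * (ℓ : ℝ) ^ 2 := by positivity
  have u2 : μ ^ 2 * (ε * (ℓ : ℝ) ^ 2) ≤ r ^ 2 * (ε * Kp) := by
    rw [hμ2]
    calc r ^ 2 / n * (ε * (ℓ : ℝ) ^ 2) ≤ r ^ 2 / n * (ε * Kp * n) :=
          mul_le_mul_of_nonneg_left hεℓ (by positivity)
      _ = _ := by field_simp
  have u3 : ((N : ℝ) - M) * (θ * μ ^ 2 / 2) ^ 2 ≤ e0 / 8 := by
    rw [hμ2]
    rw [div_le_iff₀ (by positivity)] at n5
    calc ((N : ℝ) - M) * (θ * (r ^ 2 / n) / 2) ^ 2 ≤ (T * n) * (θ * (r ^ 2 / n) / 2) ^ 2 :=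
          mul_le_mul_of_nonneg_right hNM (by positivity)
      _ = (T * θ ^ 2 * r ^ 4 / 4) / n := by field_simp; ring
      _ ≤ e0 / 8 := by rw [div_le_iff₀ hn0]; linarith
  have v1 : θ * μ ^ 2 / 2 * L + μ * D ≤ θ * r ^ 2 * β + r * δ := by
    rw [hμD, hμ2]
    have : θ * (r ^ 2 / n) / 2 * L ≤ θ * (r ^ 2 / n) / 2 * (2 * β * n) :=
      mul_le_mul_of_nonneg_left hL2 (by positivity)
    have e1 : θ * (r ^ 2 / n) / 2 * (2 * β * n) = θ * r ^ 2 * β := by field_simp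
    linarith
  have hL0 : (0 : ℝ) ≤ L := Nat.cast_nonneg _
  have v2 : 2 * θ * L + ε * (ℓ : ℝ) ^ 2 ≤ n * (4 * θ * β + ε * Kp) := by
    have : 2 * θ * (L : ℝ) ≤ 2 * θ * (2 * β * n) := mul_le_mul_of_nonneg_left hL2 (by positivity)
    calc 2 * θ * L + ε * (ℓ : ℝ) ^ 2 ≤ 2 * θ * (2 * β * n) + ε * Kp * n := add_le_add this hεℓ
      _ = n * (4 * θ * β + ε * Kp) := by ring
  have v3 : 2 * θ * L * ((θ * L + ε * (ℓ : ℝ) ^ 2) / D ^ 2) ≤
      n * (4 * θ * β * (2 * θ * β + ε * Kp) / δ ^ 2) := by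
    have w1 : 2 * θ * (L : ℝ) ≤ 4 * θ * β * n := by
      have : 2 * θ * (L : ℝ) ≤ 2 * θ * (2 * β * n) := mul_le_mul_of_nonneg_left hL2 (by positivity)
      linarith
    have w2 : θ * L + ε * (ℓ : ℝ) ^ 2 ≤ n * (2 * θ * β + ε * Kp) := by
      have : θ * (L : ℝ) ≤ θ * (2 * β * n) := mul_le_mul_of_nonneg_left hL2 hθ.le
      calc θ * L + ε * (ℓ : ℝ) ^ 2 ≤ θ * (2 * β * n) + ε * Kp * n := add_le_add this hεℓ
        _ = n * (2 * θ * β + ε * Kp) := by ring
    have w3 : (θ * L + ε * (ℓ : ℝ) ^ 2) / D ^ 2 ≤ (2 * θ * β + ε * Kp) / δ ^ 2 := by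
      rw [hD2, div_le_div_iff₀ (by positivity) (by positivity)]
      calc (θ * L + ε * (ℓ : ℝ) ^ 2) * δ ^ 2 ≤ (n * (2 * θ * β + ε * Kp)) * δ ^ 2 :=
            mul_le_mul_of_nonneg_right w2 (by positivity)
        _ = _ := by ring
    calc 2 * θ * L * ((θ * L + ε * (ℓ : ℝ) ^ 2) / D ^ 2) ≤
          (4 * θ * β * n) * ((2 * θ * β + ε * Kp) / δ ^ 2) :=
          mul_le_mul w1 w3 (by positivity) (by positivity)
      _ = _ := by ring
  have v4 : (θ * μ ^ 2 / 2 * L + μ * D) * (2 * θ * L + ε * (ℓ : ℝ) ^ 2) ≤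
      (θ * r ^ 2 * β + r * δ) * (n * (4 * θ * β + ε * Kp)) :=
    mul_le_mul v1 v2 (by positivity) (by positivity)
  set S' := (θ * r ^ 2 * β + r * δ) * (4 * θ * β + ε * Kp) + 4 * (ε * Kp) +
    4 * θ * β * (2 * θ * β + ε * Kp) / δ ^ 2 with hS'
  have hS'0 : 0 ≤ S' := by positivity
  have v5 : (θ * μ ^ 2 / 2 * L + μ * D) * (2 * θ * L + ε * (ℓ : ℝ) ^ 2) +
          4 * (ε * (ℓ : ℝ) ^ 2) + 2 * θ * L * ((θ * L + ε * (ℓ : ℝ) ^ 2) / D ^ 2) ≤ n * S' := by
    have : n * S' = (θ * r ^ 2 * β + r * δ) * (n * (4 * θ * β + ε * Kp)) +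
      4 * (ε * Kp * n) + n * (4 * θ * β * (2 * θ * β + ε * Kp) / δ ^ 2) := by
      rw [hS']; ring
    rw [this]
    linarith
  have u4 : μ ^ 2 / 2 * (J * ((θ * μ ^ 2 / 2 * L + μ * D) * (2 * θ * L + ε * (ℓ : ℝ) ^ 2) +
          4 * (ε * (ℓ : ℝ) ^ 2) + 2 * θ * L * ((θ * L + ε * (ℓ : ℝ) ^ 2) / D ^ 2))) ≤
      r ^ 2 * T / β * S' := by
    calc _ ≤ μ ^ 2 / 2 * ((2 * T / β) * (n * S')) := by
          refine mul_le_mul_of_nonneg_left (mul_le_mul hJ2 v5 (by positivity) (by positivity))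
            (by positivity)
      _ = r ^ 2 * T / β * S' := by rw [hμ2]; field_simp
  have u5 : r ^ 2 * T / β * S' + r ^ 2 * (ε * Kp) =
      (4 * θ * T * r ^ 3) * δ + (4 * θ ^ 2 * r ^ 4 * T + 8 * θ ^ 2 * r ^ 2 * T / δ ^ 2) * β +
      (r ^ 2 * T / β * Kp * ((θ * r ^ 2 * β + r * δ) + 4 + 4 * θ * β / δ ^ 2) + r ^ 2 * Kp) * ε := by
    rw [hS']; field_simp; ring
  have main : |∫ ω, Z ω * (Real.cos (μ * ps W (X N ω)) -
      Real.exp (-(θ * μ ^ 2 / 2 * ((N : ℝ) - M))) * Real.cos (μ * ps W (X M ω))) ∂P| ≤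
      6 * (e0 / 8) := by
    refine hfin.trans ?_
    linarith
  -- replace the exponential
  have hexp : |Real.exp (-(θ * μ ^ 2 / 2 * ((N : ℝ) - M))) -
      Real.exp (-(θ * r ^ 2 * ((t : ℝ) - s) / 2))| ≤ e0 / 8 := by
    have hts : 0 ≤ (t : ℝ) - s := by linarith
    refine (cr_exp_lip (by positivity) (by positivity)).trans ?_
    have e1 : θ * μ ^ 2 / 2 * ((N : ℝ) - M) - θ * r ^ 2 * ((t : ℝ) - s) / 2 =
        (θ * r ^ 2 / 2 / n) * (((N : ℝ) - n * t) - (M - n * s)) := by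
      rw [hμ2]; field_simp; ring
    rw [e1, abs_mul, abs_of_nonneg (by positivity)]
    have e2 : |((N : ℝ) - n * t) - (M - n * s)| ≤ 1 := by
      rw [abs_le]; constructor <;> linarith
    rw [div_le_iff₀ (by positivity)] at n6
    calc θ * r ^ 2 / 2 / n * |((N : ℝ) - n * t) - (M - n * s)| ≤ θ * r ^ 2 / 2 / n * 1 :=
          mul_le_mul_of_nonneg_left e2 (by positivity)
      _ ≤ e0 / 8 := by rw [mul_one, div_le_iff₀ hn0]; linarith
  have aN : Adapt X N (fun ω => Real.cos (μ * ps W (X N ω))) :=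
    cr_fun le_rfl fun v => Real.cos (μ * ps W v)
  have aM : Adapt X M (fun ω => Real.cos (μ * ps W (X M ω))) :=
    cr_fun le_rfl fun v => Real.cos (μ * ps W v)
  set c1 := Real.exp (-(θ * μ ^ 2 / 2 * ((N : ℝ) - M))) with hc1
  set c2 := Real.exp (-(θ * r ^ 2 * ((t : ℝ) - s) / 2)) with hc2
  have I1 : Integrable (fun ω => Z ω * (Real.cos (μ * ps W (X N ω)) -
      c1 * Real.cos (μ * ps W (X M ω)))) P :=
    Adapt.integrable hX hρ h0 (cr_mul (cr_mono hMN hZ) (cr_sub aN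
      (cr_mono hMN (cr_mul (cr_const M c1) aM))))
  have I2 : Integrable (fun ω => Z ω * ((c1 - c2) * Real.cos (μ * ps W (X M ω)))) P :=
    Adapt.integrable hX hρ h0 (cr_mul hZ (cr_mul (cr_const M (c1 - c2)) aM))
  have e1 : ∫ ω, Z ω * (Real.cos (r * (ps W (X N ω) / q)) -
        c2 * Real.cos (r * (ps W (X M ω) / q))) ∂P =
      ∫ ω, Z ω * (Real.cos (μ * ps W (X N ω)) - c1 * Real.cos (μ * ps W (X M ω))) ∂P +
      ∫ ω, Z ω * ((c1 - c2) * Real.cos (μ * ps W (X M ω))) ∂P := by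
    rw [← integral_add I1 I2]
    refine integral_congr_ae (Filter.Eventually.of_forall fun ω => ?_)
    have e2 : ∀ x : ℝ, r * (x / q) = μ * x := fun x => by rw [hμ]; ring
    simp only [e2]
    ring
  have e3 : |∫ ω, Z ω * ((c1 - c2) * Real.cos (μ * ps W (X M ω))) ∂P| ≤ e0 / 8 := by
    have e4 : (e0 / 8 : ℝ) = ∫ _ω, e0 / 8 ∂P := by simp
    rw [e4]
    refine (abs_integral_le_integral_abs).trans (integral_mono_of_nonneg
      (Filter.Eventually.of_forall fun ω => abs_nonneg _) (integrable_const _)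
      (Filter.Eventually.of_forall fun ω => ?_))
    show |_| ≤ _
    rw [abs_mul, abs_mul]
    calc |Z ω| * (|c1 - c2| * |Real.cos (μ * ps W (X M ω))|) ≤ 1 * (e0 / 8 * 1) :=
          mul_le_mul (hZ1 ω) (mul_le_mul hexp (Real.abs_cos_le_one _) (abs_nonneg _)
            (by positivity)) (by positivity) zero_le_one
      _ = e0 / 8 := by ring
  rw [e1]
  refine (abs_add_le _ _).trans ?_
  linarith

theorem cos_rec (hB : Base ch ρ W X P) {θ : ℝ} (hθ : 0 < θ) (hE : EtaW ch ρ W X P θ)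
    (hL : LinW ch ρ W X P) (hTi : TightW X P) (r : ℝ) (s t : ℝ≥0) (hst : s ≤ t) :
    ∀ ε > 0, ∀ᶠ n : ℕ in atTop, ∀ Z : Ω → ℝ, Adapt X ⌊(n : ℝ≥0) * s⌋₊ Z → (∀ ω, |Z ω| ≤ 1) →
      |∫ ω, Z ω * (Real.cos (r * (ps W (X ⌊(n : ℝ≥0) * t⌋₊ ω) / √(n : ℝ))) -
        Real.exp (-(θ * r ^ 2 * ((t : ℝ) - s) / 2)) *
          Real.cos (r * (ps W (X ⌊(n : ℝ≥0) * s⌋₊ ω) / √(n : ℝ)))) ∂P| ≤ ε := by
  rcases lt_trichotomy r 0 with hr | hr | hr
  · have h := cr_pos hB hθ hE hL hTi (neg_pos.2 hr) s t hst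
    simpa only [neg_mul, Real.cos_neg, neg_sq] using h
  · intro ε hε
    refine Filter.Eventually.of_forall fun n Z hZ hZ1 => ?_
    subst hr
    simpa using hε.le
  · exact cr_pos hB hθ hE hL hTi hr s t hst

end Walk

end Pool.Agent.BW
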