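import Pool.Agent.Lib.MP_276d40_pr.MuBasic

open MeasureTheory ProbabilityTheory Filter Topology Finset
open scoped ENNReal NNReal

set_option linter.unusedSectionVars false
set_option linter.unusedVariables false

namespace Pool.Agent.BW

section Walk

variable {I : Type} [DecidableEq I] [Countable I] {ch : List I → Finset I} {lam : ℝ}
  {Ω : Type} [MeasurableSpace Ω] {P : Measure Ω} {X : ℕ → Ω → List I}

variable {ρ : ℝ} {W : List I → ℝ}

private theorem cs_sin_nonneg {h : ℝ} (hh : 0 ≤ h) : h - Real.sin h ≤ h ^ 2 / 2 := by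
  have hmono : MonotoneOn (fun x : ℝ => x ^ 2 / 2 - x + Real.sin x) (Set.Ici 0) := by
    have hd : ∀ x : ℝ, HasDerivAt (fun x : ℝ => x ^ 2 / 2 - x + Real.sin x)
        (x - 1 + Real.cos x) x := by
      intro x
      have h1 : HasDerivAt (fun x : ℝ => x ^ 2 / 2) x x := by
        have := (hasDerivAt_pow 2 x).div_const 2
        simpa using this
      exact (h1.sub (hasDerivAt_id x)).add (Real.hasDerivAt_sin x)
    refine monotoneOn_of_deriv_nonneg (convex_Ici 0) ?_ ?_ ?_
    · exact fun x _ => (hd x).continuousAt.continuousWithinAt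
    · exact fun x _ => (hd x).differentiableAt.differentiableWithinAt
    · intro x hx
      rw [interior_Ici] at hx
      have hx0 : 0 < x := hx
      rw [(hd x).deriv]
      rcases le_or_gt x 2 with h2 | h2
      · have := Real.one_sub_sq_div_two_le_cos (x := x)
        nlinarith
      · have := Real.neg_one_le_cos x
        linarith
  have h1 := hmono (Set.mem_Ici.2 le_rfl) (Set.mem_Ici.2 hh) hh
  simp only [Real.sin_zero] at h1
  linarith

private theorem cs_sin (h : ℝ) : |Real.sin h - h| ≤ h ^ 2 / 2 := by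
  rcases le_total 0 h with hh | hh
  · rw [abs_sub_comm, abs_of_nonneg (by linarith [Real.sin_le hh])]
    exact cs_sin_nonneg hh
  · have h1 := cs_sin_nonneg (h := -h) (by linarith)
    have h2 := Real.sin_le (x := -h) (by linarith)
    rw [Real.sin_neg] at h1 h2
    rw [abs_of_nonneg (by linarith)]
    nlinarith

private theorem cs_cos (h : ℝ) : |Real.cos h - 1 + h ^ 2 / 2| ≤ h ^ 2 / 2 := by
  have h1 := Real.one_sub_sq_div_two_le_cos (x := h)
  have h2 := Real.cos_le_one h
  rw [abs_of_nonneg (by linarith)]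
  linarith

private theorem cs_elem (x h : ℝ) :
    |Real.cos (x + h) - Real.cos x + h * Real.sin x + h ^ 2 / 2 * Real.cos x| ≤
      h ^ 2 * min 1 |h| := by
  have e : Real.cos (x + h) - Real.cos x + h * Real.sin x + h ^ 2 / 2 * Real.cos x =
      Real.cos x * (Real.cos h - 1 + h ^ 2 / 2) - Real.sin x * (Real.sin h - h) := by
    rw [Real.cos_add]; ring
  have hc := Real.abs_cos_le_one x
  have hs := Real.abs_sin_le_one x
  have h1 : |Real.cos x * (Real.cos h - 1 + h ^ 2 / 2) - Real.sin x * (Real.sin h - h)| ≤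
      |Real.cos h - 1 + h ^ 2 / 2| + |Real.sin h - h| := by
    refine (abs_sub _ _).trans ?_
    rw [abs_mul, abs_mul]
    have h3 := mul_le_mul_of_nonneg_right hc (abs_nonneg (Real.cos h - 1 + h ^ 2 / 2))
    have h4 := mul_le_mul_of_nonneg_right hs (abs_nonneg (Real.sin h - h))
    linarith
  rw [e]
  refine h1.trans ?_
  rcases le_total |h| 1 with hh | hh
  · rw [min_eq_right hh]
    have h2 := Real.cos_bound hh
    have h3 := Real.sin_bound hh
    have h4 : |Real.cos h - 1 + h ^ 2 / 2| ≤ |h| ^ 4 * (5 / 96) := by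
      have : Real.cos h - 1 + h ^ 2 / 2 = Real.cos h - (1 - h ^ 2 / 2) := by ring
      rw [this]; exact h2
    have h5 : |Real.sin h - h| ≤ |h| ^ 5 / 100 + |h| ^ 3 / 6 := by
      have : Real.sin h - h = (Real.sin h - (h - h ^ 3 / 6)) + (-(h ^ 3 / 6)) := by ring
      rw [this]
      refine (abs_add_le _ _).trans ?_
      rw [abs_neg, abs_div, abs_pow, abs_of_pos (by norm_num : (0 : ℝ) < 6)]
      linarith
    have h7 : |h| ^ 4 ≤ |h| ^ 3 := pow_le_pow_of_le_one (abs_nonneg h) hh (by norm_num)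
    have h7' : |h| ^ 5 ≤ |h| ^ 3 := pow_le_pow_of_le_one (abs_nonneg h) hh (by norm_num)
    have h8 : 0 ≤ |h| ^ 3 := by positivity
    have h9 : h ^ 2 * |h| = |h| ^ 3 := by rw [← sq_abs h]; ring
    rw [h9]
    linarith
  · rw [min_eq_left hh, mul_one]
    have h2 := cs_cos h
    have h3 := cs_sin h
    linarith

/-! ### `Pr` is an averaging operator -/

omit [Countable I] in
private theorem cs_Pr_mono (hρ : 0 < ρ) {f g : List I → ℝ} (h : ∀ u, f u ≤ g u) (v : List I) :
    Pr ch ρ f v ≤ Pr ch ρ g v := by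
  cases v with
  | nil =>
    rw [Pr, Pr]
    split_ifs
    · exact h _
    · exact div_le_div_of_nonneg_right (Finset.sum_le_sum fun i _ => h _)
        (by rw [deg]; positivity)
  | cons i v =>
    have hd : (0 : ℝ) ≤ deg ch (i :: v) := by rw [deg]; positivity
    rw [Pr, Pr]
    refine div_le_div_of_nonneg_right ?_ (by positivity)
    exact add_le_add (mul_le_mul_of_nonneg_left (h _) hρ.le) (Finset.sum_le_sum fun i _ => h _)

omit [Countable I] in
private theorem cs_Pr_add (f g : List I → ℝ) (v : List I) :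
    Pr ch ρ (fun u => f u + g u) v = Pr ch ρ f v + Pr ch ρ g v := by
  cases v with
  | nil =>
    rw [Pr, Pr, Pr]
    split_ifs
    · rfl
    · rw [Finset.sum_add_distrib, add_div]
  | cons i v =>
    rw [Pr, Pr, Pr, Finset.sum_add_distrib, ← add_div]
    congr 1
    ring

omit [Countable I] in
private theorem cs_Pr_const_mul (c : ℝ) (f : List I → ℝ) (v : List I) :
    Pr ch ρ (fun u => c * f u) v = c * Pr ch ρ f v := by
  cases v with
  | nil =>
    rw [Pr, Pr]
    split_ifs
    · rfl
    · rw [← Finset.mul_sum, mul_div_assoc]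
  | cons i v =>
    rw [Pr, Pr, ← Finset.mul_sum, ← mul_div_assoc]
    congr 1
    ring

omit [Countable I] in
private theorem cs_Pr_const (hρ : 0 < ρ) (c : ℝ) (v : List I) :
    Pr ch ρ (fun _ => c) v = c := by
  cases v with
  | nil =>
    rw [Pr]
    split_ifs with h
    · rfl
    · rw [Finset.sum_const, nsmul_eq_mul, deg]
      have : ((ch []).card : ℝ) ≠ 0 := by
        rw [Nat.cast_ne_zero, Finset.card_ne_zero]
        exact Finset.nonempty_iff_ne_empty.2 h
      field_simp
  | cons i v =>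
    have hd : (0 : ℝ) ≤ deg ch (i :: v) := by rw [deg]; positivity
    rw [Pr, Finset.sum_const, nsmul_eq_mul]
    have : ρ + deg ch (i :: v) ≠ 0 := by positivity
    rw [div_eq_iff this, deg]
    ring

omit [Countable I] in
private theorem cs_Pr_ps (hρ : 0 < ρ) (hflow : ∀ v, ρ * W v = Up ch W v) {v : List I}
    (hv : v ≠ []) : Pr ch ρ (ps W) v = ps W v := by
  cases v with
  | nil => exact absurd rfl hv
  | cons i v =>
    have hd : (0 : ℝ) ≤ deg ch (i :: v) := by rw [deg]; positivity
    have hY : (ρ + deg ch (i :: v)) ≠ 0 := by positivity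
    rw [Pr, div_eq_iff hY]
    have h : ∑ j ∈ ch (i :: v), ps W (j :: i :: v) =
        deg ch (i :: v) * ps W (i :: v) + Up ch W (i :: v) := by
      simp only [ps_cons W _ (i :: v), Finset.sum_add_distrib, Finset.sum_const, nsmul_eq_mul]
      rfl
    rw [h, ← hflow, ps_cons]
    ring

omit [Countable I] in
theorem cos_step (hρ : 0 < ρ) (h0 : (ch []).Nonempty) (hflow : ∀ v, ρ * W v = Up ch W v)
    {μ : ℝ} (hμ : 0 < μ) (v : List I) :
    |Pr ch ρ (fun u => Real.cos (μ * ps W u)) v - Real.cos (μ * ps W v) +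
        μ ^ 2 / 2 * Real.cos (μ * ps W v) * eta ch ρ W v| ≤
      μ ^ 2 * lin ch ρ W (1 / μ) v := by
  set x : ℝ := μ * ps W v with hx
  set F : List I → ℝ := fun u => Real.cos (μ * ps W u) - Real.cos x +
    (μ * (ps W u - ps W v)) * Real.sin x + (μ * (ps W u - ps W v)) ^ 2 / 2 * Real.cos x with hF
  set G : List I → ℝ := fun u =>
    μ ^ 2 * ((ps W u - ps W v) ^ 2 * min 1 (|ps W u - ps W v| / (1 / μ))) with hG
  have hFG : ∀ u, |F u| ≤ G u := by
    intro u
    have h1 := cs_elem x (μ * (ps W u - ps W v))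
    have h2 : x + μ * (ps W u - ps W v) = μ * ps W u := by rw [hx]; ring
    rw [h2] at h1
    have h3 : G u = (μ * (ps W u - ps W v)) ^ 2 * min 1 |μ * (ps W u - ps W v)| := by
      simp only [hG]
      rw [abs_mul, abs_of_pos hμ, div_div_eq_mul_div, div_one, mul_comm |ps W u - ps W v| μ]
      ring
    rw [h3]
    exact h1
  -- `|Pr F| ≤ Pr G`
  have hPG : |Pr ch ρ F v| ≤ Pr ch ρ G v := by
    rw [abs_le]
    constructor
    · have h1 : Pr ch ρ (fun u => (-1) * G u) v ≤ Pr ch ρ F v :=
        cs_Pr_mono hρ (fun u => by have := (abs_le.1 (hFG u)).1; linarith) v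
      rw [cs_Pr_const_mul] at h1
      linarith
    · exact cs_Pr_mono hρ (fun u => (abs_le.1 (hFG u)).2) v
  -- `Pr G`
  have hPrG : Pr ch ρ G v = μ ^ 2 * lin ch ρ W (1 / μ) v := by
    simp only [hG]
    rw [cs_Pr_const_mul, lin]
  -- `Pr F`
  have hF2 : F = fun u => (Real.cos (μ * ps W u) +
      (μ * Real.sin x - μ ^ 2 * ps W v * Real.cos x) * ps W u) +
      (μ ^ 2 / 2 * Real.cos x * ps W u ^ 2 +
        (-Real.cos x - μ * ps W v * Real.sin x + μ ^ 2 / 2 * ps W v ^ 2 * Real.cos x)) := by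
    funext u
    simp only [hF]
    ring
  have hPrF : Pr ch ρ F v = Pr ch ρ (fun u => Real.cos (μ * ps W u)) v +
      (μ * Real.sin x - μ ^ 2 * ps W v * Real.cos x) * Pr ch ρ (ps W) v +
      (μ ^ 2 / 2 * Real.cos x * Pr ch ρ (fun u => ps W u ^ 2) v +
        (-Real.cos x - μ * ps W v * Real.sin x + μ ^ 2 / 2 * ps W v ^ 2 * Real.cos x)) := by
    rw [hF2, cs_Pr_add, cs_Pr_add, cs_Pr_add, cs_Pr_const_mul, cs_Pr_const_mul,
      cs_Pr_const hρ]
  have hPrF' : Pr ch ρ F v = Pr ch ρ (fun u => Real.cos (μ * ps W u)) v - Real.cos x +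
      μ ^ 2 / 2 * Real.cos x * eta ch ρ W v := by
    rw [hPrF, eta]
    rcases eq_or_ne v [] with rfl | hv
    · have h1 : x = 0 := by rw [hx]; simp
      rw [h1]
      simp
      ring
    · rw [cs_Pr_ps hρ hflow hv]
      ring
  rw [← hPrF', ← hPrG]
  exact hPG

end Walk

end Pool.Agent.BW
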