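import Pool.Agent.Lib.MP_276d40_pr.Stmt

/-!
# Critically biased walks on (multi-type) Galton-Watson trees: definitions used in the proof

Vertices of the tree are words `v : List I` with the *last* letter first: the root is `[]`,
the children of `v` are the words `i :: v` with `i ∈ ch v`, and the parent of `i :: v` is `v`.
-/

open MeasureTheory ProbabilityTheory Filter Topology Finset
open scoped ENNReal NNReal

namespace Pool.Agent.BW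

section Tree

variable {I : Type} [DecidableEq I]

/-- sum of `f` over the children of `v` -/
noncomputable def Up (ch : List I → Finset I) (f : List I → ℝ) (v : List I) : ℝ :=
  ∑ i ∈ ch v, f (i :: v)

/-- normalised sum of `f` over the vertices of the tree at level `k` -/
noncomputable def mu (ch : List I → Finset I) (ρ : ℝ) (k : ℕ) (f : List I → ℝ) : ℝ :=
  (ρ ^ k)⁻¹ * ((Up ch)^[k] f) []

/-- `ps a v` = sum of `a w` over the vertices `w ≠ root` on the path from the root to `v`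
(`v` included) -/
def ps (a : List I → ℝ) : List I → ℝ
  | [] => 0
  | i :: v => ps a v + a (i :: v)

/-- transition operator of the `lam`-biased walk -/
noncomputable def Pr (ch : List I → Finset I) (lam : ℝ) (f : List I → ℝ) : List I → ℝ
  | [] => if ch [] = ∅ then f [] else (∑ i ∈ ch [], f [i]) / deg ch []
  | i :: v => (lam * f v + ∑ j ∈ ch (i :: v), f (j :: i :: v)) / (lam + deg ch (i :: v))

/-- `Z` is a function of `X 0, …, X n` -/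
def Adapt {Ω : Type} (X : ℕ → Ω → List I) (n : ℕ) (Z : Ω → ℝ) : Prop :=
  ∀ ω ω', (∀ k ≤ n, X k ω = X k ω') → Z ω = Z ω'

/-- indicator of the event that the walk has stayed below level `ℓ` up to time `t` (included) -/
noncomputable def stay {Ω : Type} (X : ℕ → Ω → List I) (ℓ t : ℕ) (ω : Ω) : ℝ :=
  if ∀ s ≤ t, (X s ω).length < ℓ then 1 else 0

/-- adapted weights in `[0,1]`, vanishing before time `M`, nonincreasing from time `M` on,
vanishing once the walk has been at a level `≥ ℓ` -/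
structure Wgt {Ω : Type} (X : ℕ → Ω → List I) (ℓ M : ℕ) (ξ : ℕ → Ω → ℝ) : Prop where
  adapt : ∀ t, Adapt X t (ξ t)
  nonneg : ∀ t ω, 0 ≤ ξ t ω
  le_one : ∀ t ω, ξ t ω ≤ 1
  zero : ∀ t < M, ∀ ω, ξ t ω = 0
  anti : ∀ t, M ≤ t → ∀ ω, ξ (t + 1) ω ≤ ξ t ω
  supp : ∀ t ω, ξ t ω ≠ 0 → ∀ s ≤ t, (X s ω).length < ℓ

/-- one step of the walk: to a child or to the parent -/
def Nb (ch : List I → Finset I) (v w : List I) : Prop :=
  (∃ i ∈ ch v, w = i :: v) ∨ ∃ i, v = i :: w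

/-- `ρ + d_v` -/
noncomputable def Yone (ch : List I → Finset I) (ρ : ℝ) (v : List I) : ℝ := ρ + deg ch v

/-- `ρ W_v ^ 2 + ∑ W_u ^ 2` (sum over children) -/
noncomputable def Yeta (ch : List I → Finset I) (ρ : ℝ) (W : List I → ℝ) (v : List I) : ℝ :=
  ρ * W v ^ 2 + Up ch (fun u => W u ^ 2) v

/-- truncated version of `Yeta` for the Lindeberg condition -/
noncomputable def Ylin (ch : List I → Finset I) (ρ : ℝ) (W : List I → ℝ) (R : ℝ) (v : List I) : ℝ :=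
  ρ * (W v ^ 2 * min 1 (W v / R)) + Up ch (fun u => W u ^ 2 * min 1 (W u / R)) v

/-- `ρ^{-j}` times the sum of `Y` over the descendants of `v` in generation `j` below `v` -/
noncomputable def Fj (ch : List I → Finset I) (ρ : ℝ) (Y : List I → ℝ) (j : ℕ) (v : List I) : ℝ :=
  (ρ ^ j)⁻¹ * ((Up ch)^[j] Y) v

/-- `E[S(X_{t+1})^2 | X_t = v] - S(v)^2` for `S = ps W` -/
noncomputable def eta (ch : List I → Finset I) (ρ : ℝ) (W : List I → ℝ) (v : List I) : ℝ :=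
  Pr ch ρ (fun u => ps W u ^ 2) v - ps W v ^ 2

/-- `E[(S(X_{t+1}) - S(v))^2 min(1, |S(X_{t+1}) - S(v)| / R) | X_t = v]` for `S = ps W` -/
noncomputable def lin (ch : List I → Finset I) (ρ : ℝ) (W : List I → ℝ) (R : ℝ) (v : List I) : ℝ :=
  Pr ch ρ (fun u => (ps W u - ps W v) ^ 2 * min 1 (|ps W u - ps W v| / R)) v

/-- `Y` averages to `c * W` below most vertices, up to small errors (in the level averages) -/
def Reg (ch : List I → Finset I) (ρ : ℝ) (W Y : List I → ℝ) (c : ℝ) : Prop :=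
  ∀ ε > 0, ∃ Y' : List I → ℝ, (∀ v, 0 ≤ Y' v) ∧ ∃ K : ℕ,
    (∀ᶠ k in atTop, mu ch ρ k (fun v => |Y v - Y' v|) ≤ ε) ∧
    (∃ C, ∀ k, mu ch ρ k (fun v => (∑ j ∈ range K, Fj ch ρ Y' j v) ^ 2) ≤ C) ∧
    (∀ᶠ k in atTop, mu ch ρ k (fun v => |Fj ch ρ Y' K v - c * W v|) ≤ ε)

/-- the deterministic properties of the tree which imply the invariance principle -/
structure TreeGood (ch : List I → Finset I) (ρ c1 cη κ : ℝ) (W : List I → ℝ) : Prop where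
  one_lt : 1 < ρ
  c1_pos : 0 < c1
  ceta_pos : 0 < cη
  kappa_pos : 0 < κ
  W_nonneg : ∀ v, 0 ≤ W v
  W_flow : ∀ v, ρ * W v = Up ch W v
  W_root : 0 < W []
  bd_one : ∃ C, ∀ k, mu ch ρ k (Yone ch ρ) ≤ C
  bd_eta : ∃ C, ∀ k, mu ch ρ k (Yeta ch ρ W) ≤ C
  reg_one : Reg ch ρ W (Yone ch ρ) c1
  reg_eta : Reg ch ρ W (Yeta ch ρ W) cη
  lind : ∀ ε > 0, ∃ R > 0, ∀ᶠ k in atTop, mu ch ρ k (Ylin ch ρ W R) ≤ ε
  spat : ∀ δ > (0 : ℝ), Tendsto (fun ℓ : ℕ => (∑ k ∈ range ℓ, mu ch ρ k (fun v =>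
      if δ * ℓ < |(v.length : ℝ) - ps W v / κ| then Yone ch ρ v else 0)) / ℓ) atTop (𝓝 0)
  low : ∃ κ' > (0 : ℝ), ∀ δ > (0 : ℝ), Tendsto (fun ℓ : ℕ => (ℓ : ℝ) * ∑ k ∈ range (ℓ + 1),
      mu ch ρ k (fun v => if ∃ m : ℕ, m ≤ v.length ∧ δ * (ℓ : ℝ) ≤ (m : ℝ) ∧
        ps W v - ps W (v.drop m) < κ' * m then 1 else 0)) atTop (𝓝 0)

/-- standing assumptions for the walk part -/
structure Base {Ω : Type} [MeasurableSpace Ω] (ch : List I → Finset I) (ρ : ℝ)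
    (W : List I → ℝ) (X : ℕ → Ω → List I) (P : Measure Ω) : Prop where
  walk : IsWalk ch ρ X P
  one_lt : 1 < ρ
  W_nonneg : ∀ v, 0 ≤ W v
  W_flow : ∀ v, ρ * W v = Up ch W v
  W_root : 0 < W []

/-- occupation and crossing bounds -/
structure Occ {Ω : Type} [MeasurableSpace Ω] (ch : List I → Finset I) (ρ : ℝ)
    (X : ℕ → Ω → List I) (P : Measure Ω) (C : ℝ) : Prop where
  pos : 0 < C
  occ : ∀ (ℓ n : ℕ) (f : List I → ℝ), (∀ v, 0 ≤ f v) →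
    ∫ ω, ∑ t ∈ range n, stay X ℓ t ω * f (X t ω) ∂P ≤
      C * ℓ * ∑ k ∈ range ℓ, mu ch ρ k (fun v => Yone ch ρ v * f v)
  cross : ∀ (ℓ n : ℕ) (b : List I → ℝ), (∀ v, 0 ≤ b v) →
    ∃ U : Ω → ℝ, Adapt X n U ∧ (∀ ω, 0 ≤ U ω) ∧
      (∀ᵐ ω ∂P, ∀ t ≤ n, (∀ s < t, (X s ω).length < ℓ) → ps b (X t ω) ≤ U ω) ∧
      ∫ ω, U ω ∂P ≤ C * ℓ * ∑ k ∈ range (ℓ + 1), mu ch ρ k b

/-- `η` may be replaced by the constant `θ` in weighted time sums -/
def EtaW {Ω : Type} [MeasurableSpace Ω] (ch : List I → Finset I) (ρ : ℝ) (W : List I → ℝ)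
    (X : ℕ → Ω → List I) (P : Measure Ω) (θ : ℝ) : Prop :=
  ∀ ε > 0, ∃ ℓ0 : ℕ, ∀ ℓ ≥ ℓ0, ∀ (M n : ℕ) (ξ : ℕ → Ω → ℝ), Wgt X ℓ M ξ →
    |∫ ω, ∑ t ∈ range n, ξ t ω * (eta ch ρ W (X t ω) - θ) ∂P| ≤ ε * (ℓ : ℝ) ^ 2

/-- Lindeberg condition along the walk -/
def LinW {Ω : Type} [MeasurableSpace Ω] (ch : List I → Finset I) (ρ : ℝ) (W : List I → ℝ)
    (X : ℕ → Ω → List I) (P : Measure Ω) : Prop :=
  ∀ ε > 0, ∃ R > 0, ∃ ℓ0 : ℕ, ∀ ℓ ≥ ℓ0, ∀ n : ℕ,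
    ∫ ω, ∑ t ∈ range n, stay X ℓ t ω * lin ch ρ W R (X t ω) ∂P ≤ ε * (ℓ : ℝ) ^ 2

/-- the walk reaches level `ℓ` up to time `N` -/
def Exit {Ω : Type} (X : ℕ → Ω → List I) (ℓ N : ℕ) : Set Ω :=
  {ω | ∃ s ≤ N, ℓ ≤ (X s ω).length}

/-- `S = ps W` moves by more than `D` after time `M`, up to time `N`, before level `ℓ` is
left behind -/
def WinOut {Ω : Type} (X : ℕ → Ω → List I) (W : List I → ℝ) (ℓ M N : ℕ) (D : ℝ) : Set Ω :=
  {ω | ∃ r, M < r ∧ r ≤ N ∧ (∀ s < r, (X s ω).length < ℓ) ∧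
    D < |ps W (X r ω) - ps W (X M ω)|}

/-- up to time `T n` the walk stays below level `K √n` with high probability -/
def TightW {Ω : Type} [MeasurableSpace Ω] (X : ℕ → Ω → List I) (P : Measure Ω) : Prop :=
  ∀ T > (0 : ℝ), ∀ η > (0 : ℝ), ∃ K > (0 : ℝ), ∀ᶠ n : ℕ in atTop,
    P.real (Exit X ⌈K * √(n : ℝ)⌉₊ ⌊T * (n : ℝ)⌋₊) ≤ η

/-- modulus of continuity of `S(X) / √n` -/
def OscW {Ω : Type} [MeasurableSpace Ω] (W : List I → ℝ) (X : ℕ → Ω → List I)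
    (P : Measure Ω) : Prop :=
  ∀ T > (0 : ℝ), ∀ δ > (0 : ℝ), ∀ η > (0 : ℝ), ∃ β > (0 : ℝ), ∀ᶠ n : ℕ in atTop,
    P.real {ω | ∃ s t : ℕ, (s : ℝ) ≤ T * n ∧ (t : ℝ) ≤ T * n ∧ |(s : ℝ) - t| ≤ β * n ∧
      δ * √(n : ℝ) < |ps W (X s ω) - ps W (X t ω)|} ≤ η

end Tree

section MGW

variable {Q : Type} [Fintype Q] [DecidableEq Q]

/-- the subtree (environment) below `v` -/
def sub (ω : Env Q) (v : List (Q × ℕ)) : Env Q := fun u => ω (u ++ v)

/-- evaluate a functional (depending on root type and tree) on all subtrees -/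
def lift (a : Q) (Y : Q → Env Q → ℝ) (ω : Env Q) (v : List (Q × ℕ)) : ℝ :=
  Y (typ a v) (sub ω v)

/-- normalised level sums of a functional -/
noncomputable def NY (ρ : ℝ) (Y : Q → Env Q → ℝ) (k : ℕ) (a : Q) (ω : Env Q) : ℝ :=
  mu (chE ω) ρ k (lift a Y ω)

/-- the limit `W = lim ρ^{-n} ∑_{|v| = n} e_{typ v}` (as a limsup) -/
noncomputable def Wf (ρ : ℝ) (e : Q → ℝ) (a : Q) (ω : Env Q) : ℝ :=
  limsup (fun n => NY ρ (fun b _ => e b) n a ω) atTop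

/-- sum of a functional over the subtrees of the children of the root -/
def Tb (Φ : Q → Env Q → ℝ) (_a : Q) (ω : Env Q) : ℝ :=
  ∑ i ∈ chE ω [], Φ i.1 (sub ω [i])

/-- hypotheses on the offspring laws, with the Perron-Frobenius eigenvectors `e` (right) and
`l` (left) -/
structure MGWHyp (q : Q → Measure (Q → ℕ)) (ρ : ℝ) (e l : Q → ℝ) : Prop where
  prob : ∀ b, IsProbabilityMeasure (q b)
  mom2 : ∀ b, ∫⁻ x, (∑ c, (x c : ℝ≥0∞)) ^ 2 ∂(q b) < ∞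
  one_lt : 1 < ρ
  e_pos : ∀ b, 0 < e b
  l_pos : ∀ b, 0 < l b
  Ae : ∀ a, ∑ b, meanMat q a b * e b = ρ * e a
  lA : ∀ b, ∑ a, l a * meanMat q a b = ρ * l b
  le_one : ∑ b, l b * e b = 1
  conv : ∀ a b, Tendsto (fun m : ℕ => (ρ ^ m)⁻¹ * ((meanMat q) ^ m) a b) atTop (𝓝 (e a * l b))
  prim : ∃ n0 : ℕ, ∀ a b, 0 < ((meanMat q) ^ n0) a b

end MGW

end Pool.Agent.BW
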