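import Pool.Agent.Lib.MP_276d40_pr.KeyLemma

open MeasureTheory ProbabilityTheory Filter Topology Finset
open scoped ENNReal NNReal

set_option linter.unusedSectionVars false
set_option linter.unusedVariables false

namespace Pool.Agent.BW

section Walk

variable {I : Type} [DecidableEq I] [Countable I] {ch : List I → Finset I} {lam : ℝ}
  {Ω : Type} [MeasurableSpace Ω] {P : Measure Ω} {X : ℕ → Ω → List I}

variable {ρ : ℝ} {W : List I → ℝ}

private theorem el_sum_le {f : ℕ → ℝ} {ε : ℝ} (hε : 0 ≤ ε) (h : ∀ᶠ k in atTop, f k ≤ ε) :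
    ∃ D, 0 ≤ D ∧ ∀ ℓ : ℕ, ∑ k ∈ range ℓ, f k ≤ D + ε * ℓ := by
  obtain ⟨k0, hk0⟩ := eventually_atTop.1 h
  refine ⟨∑ k ∈ range k0, |f k|, Finset.sum_nonneg fun _ _ => abs_nonneg _, fun ℓ => ?_⟩
  have h1 : ∑ k ∈ range ℓ, f k ≤ ∑ k ∈ range ℓ, ((if k < k0 then |f k| else 0) + ε) := by
    refine Finset.sum_le_sum fun k _ => ?_
    split_ifs with hk
    · have := le_abs_self (f k); linarith
    · have := hk0 k (not_lt.1 hk); linarith
  rw [Finset.sum_add_distrib, Finset.sum_const, Finset.card_range, nsmul_eq_mul] at h1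
  have h2 : ∑ k ∈ range ℓ, (if k < k0 then |f k| else 0) ≤ ∑ k ∈ range k0, |f k| := by
    rw [← Finset.sum_filter]
    refine Finset.sum_le_sum_of_subset_of_nonneg ?_ fun _ _ _ => abs_nonneg _
    intro k hk
    rw [Finset.mem_filter] at hk
    exact Finset.mem_range.2 hk.2
  linarith

omit [Countable I] in
private theorem el_Yone_pos (hρ : 0 < ρ) (v : List I) : 0 < Yone ch ρ v := by
  have : (0 : ℝ) ≤ deg ch v := by rw [deg]; positivity
  rw [Yone]; linarith

omit [Countable I] in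
/-- away from the root, the conditional variance is `Yeta / Yone` -/
theorem eta_eq_div (hρ : 0 < ρ) (hflow : ∀ v, ρ * W v = Up ch W v) {v : List I}
    (hv : v ≠ []) : eta ch ρ W v = Yeta ch ρ W v / Yone ch ρ v := by
  cases v with
  | nil => exact absurd rfl hv
  | cons i v =>
    have hY := (el_Yone_pos (ch := ch) hρ (i :: v)).ne'
    rw [Yone] at hY
    rw [eta, Pr, Yone, Yeta, div_sub' hY]
    congr 1
    have h : ∑ j ∈ ch (i :: v), ps W (j :: i :: v) ^ 2 =
        deg ch (i :: v) * ps W (i :: v) ^ 2 + 2 * ps W (i :: v) * Up ch W (i :: v) +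
          Up ch (fun u => W u ^ 2) (i :: v) := by
      have h2 : ∀ j, ps W (j :: i :: v) ^ 2 = ps W (i :: v) ^ 2 +
          2 * ps W (i :: v) * W (j :: i :: v) + W (j :: i :: v) ^ 2 := by
        intro j
        rw [ps_cons W j (i :: v)]
        ring
      simp only [h2]
      rw [Finset.sum_add_distrib, Finset.sum_add_distrib, Finset.sum_const, nsmul_eq_mul,
        ← Finset.mul_sum]
      rfl
    rw [h, ← hflow, ps_cons]
    ring

omit [Countable I] in
/-- away from the root, `lin` is `Ylin / Yone` -/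
theorem Yone_mul_lin (hρ : 0 < ρ) (hW : ∀ v, 0 ≤ W v) (R : ℝ) {v : List I} (hv : v ≠ []) :
    Yone ch ρ v * lin ch ρ W R v = Ylin ch ρ W R v := by
  cases v with
  | nil => exact absurd rfl hv
  | cons i v =>
    have hY := (el_Yone_pos (ch := ch) hρ (i :: v)).ne'
    have hY' := hY
    rw [Yone] at hY'
    rw [lin, Pr, Yone, mul_div_cancel₀ _ hY', Ylin, Up]
    congr 1
    · have h1 : ps W v - ps W (i :: v) = -W (i :: v) := by rw [ps_cons]; ring
      rw [h1, abs_neg, abs_of_nonneg (hW _), neg_sq]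
    · refine Finset.sum_congr rfl fun j _ => ?_
      have h1 : ps W (j :: i :: v) - ps W (i :: v) = W (j :: i :: v) := by
        rw [ps_cons W j (i :: v)]; ring
      rw [h1, abs_of_nonneg (hW _)]

omit [Countable I] in
theorem lin_nonneg (hρ : 0 < ρ) {R : ℝ} (hR : 0 < R) (v : List I) :
    0 ≤ lin ch ρ W R v := by
  have h : ∀ u, 0 ≤ (ps W u - ps W v) ^ 2 * min 1 (|ps W u - ps W v| / R) := by
    intro u
    exact mul_nonneg (sq_nonneg _) (le_min zero_le_one (div_nonneg (abs_nonneg _) hR.le))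
  rw [lin]
  cases v with
  | nil =>
    rw [Pr]
    split_ifs
    · exact h _
    · exact div_nonneg (Finset.sum_nonneg fun i _ => h _) (by rw [deg]; positivity)
  | cons i v =>
    rw [Pr]
    have := el_Yone_pos (ch := ch) hρ (i :: v)
    rw [Yone] at this
    exact div_nonneg (add_nonneg (mul_nonneg hρ.le (h _)) (Finset.sum_nonneg fun j _ => h _))
      this.le

omit [Countable I] in
private theorem el_root_ne (hρ : 0 < ρ) (hflow : ∀ v, ρ * W v = Up ch W v)
    (hroot : 0 < W []) : (ch []).Nonempty := by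
  by_contra h
  rw [Finset.not_nonempty_iff_eq_empty] at h
  have h1 := hflow []
  rw [Up, h, Finset.sum_empty] at h1
  have : 0 < ρ * W [] := mul_pos hρ hroot
  linarith

theorem etaW_of_good {c1 cη κ : ℝ} (hT : TreeGood ch ρ c1 cη κ W) (hX : IsWalk ch ρ X P)
    {C : ℝ} (hO : Occ ch ρ X P C) : EtaW ch ρ W X P (cη / c1) := by
  intro ε hε
  have hprob := hX.prob
  have hρ : 0 < ρ := by have := hT.one_lt; linarith
  have hB : Base ch ρ W X P := ⟨hX, hT.one_lt, hT.W_nonneg, hT.W_flow, hT.W_root⟩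
  have hne := el_root_ne hρ hT.W_flow hT.W_root
  have hC := hO.pos
  have hc1 := hT.c1_pos
  have hcη := hT.ceta_pos
  set θ : ℝ := cη / c1 with hθ
  have hθ0 : 0 < θ := div_pos hcη hc1
  have hcη' : cη = θ * c1 := by rw [hθ]; field_simp
  obtain ⟨ℓ1, h1⟩ := key_lemma hB hO hT.reg_eta (ε / 4) (by positivity)
  obtain ⟨ℓ2, h2⟩ := key_lemma hB hO hT.reg_one (ε / (4 * θ)) (by positivity)
  set D : ℝ := (eta ch ρ W [] - θ) - ((Yeta ch ρ W [] - cη * W []) / Yone ch ρ [] -
    θ * ((Yone ch ρ [] - c1 * W []) / Yone ch ρ [])) with hD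
  set L : ℝ := C * (|D| * Yone ch ρ []) with hL
  have hL0 : 0 ≤ L := by
    have := (el_Yone_pos (ch := ch) hρ []).le
    positivity
  obtain ⟨ℓ3, hℓ3⟩ := exists_nat_ge (4 * L / ε)
  refine ⟨max ℓ1 (max ℓ2 ℓ3), fun ℓ hℓ M n ξ hξ => ?_⟩
  have hℓa : ℓ1 ≤ ℓ := le_trans (le_max_left _ _) hℓ
  have hℓb : ℓ2 ≤ ℓ := le_trans ((le_max_left _ _).trans (le_max_right _ _)) hℓ
  have hℓc : ℓ3 ≤ ℓ := le_trans ((le_max_right _ _).trans (le_max_right _ _)) hℓ
  have hℓL : L ≤ ε / 4 * ℓ := by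
    have h3 : 4 * L / ε ≤ ℓ := hℓ3.trans (by exact_mod_cast hℓc)
    rw [div_le_iff₀ hε] at h3
    linarith
  have int_xi : ∀ (t : ℕ) (φ : List I → ℝ), Integrable (fun ω => ξ t ω * φ (X t ω)) P := by
    intro t φ
    refine Adapt.integrable hX hρ hne (n := t) ?_
    intro ω ω' h
    show ξ t ω * φ (X t ω) = ξ t ω' * φ (X t ω')
    rw [hξ.adapt t ω ω' h, h t le_rfl]
  have int_sum : ∀ (φ : List I → ℝ),
      Integrable (fun ω => ∑ t ∈ range n, ξ t ω * φ (X t ω)) P :=
    fun φ => integrable_finsetSum _ fun t _ => int_xi t φ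
  -- pointwise identity
  have hpt : ∀ v, eta ch ρ W v - θ = (Yeta ch ρ W v - cη * W v) / Yone ch ρ v -
      θ * ((Yone ch ρ v - c1 * W v) / Yone ch ρ v) + (if v = [] then D else 0) := by
    intro v
    rcases eq_or_ne v [] with rfl | hv
    · rw [if_pos rfl, hD]; ring
    · rw [if_neg hv, eta_eq_div hρ hT.W_flow hv, hcη']
      have hY := (el_Yone_pos (ch := ch) hρ v).ne'
      field_simp
      ring
  have hsplit : ∫ ω, ∑ t ∈ range n, ξ t ω * (eta ch ρ W (X t ω) - θ) ∂P =
      ∫ ω, ∑ t ∈ range n, ξ t ω *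
        ((Yeta ch ρ W (X t ω) - cη * W (X t ω)) / Yone ch ρ (X t ω)) ∂P -
      θ * ∫ ω, ∑ t ∈ range n, ξ t ω *
        ((Yone ch ρ (X t ω) - c1 * W (X t ω)) / Yone ch ρ (X t ω)) ∂P +
      ∫ ω, ∑ t ∈ range n, ξ t ω * (if X t ω = [] then D else 0) ∂P := by
    rw [← integral_const_mul, ← integral_sub, ← integral_add]
    · refine integral_congr_ae (Eventually.of_forall fun ω => ?_)
      simp only
      rw [Finset.mul_sum, ← Finset.sum_sub_distrib, ← Finset.sum_add_distrib]
      refine Finset.sum_congr rfl fun t _ => ?_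
      rw [hpt (X t ω)]
      ring
    · exact (int_sum (fun v => (Yeta ch ρ W v - cη * W v) / Yone ch ρ v)).sub
        ((int_sum (fun v => (Yone ch ρ v - c1 * W v) / Yone ch ρ v)).const_mul θ)
    · exact int_sum (fun v => if v = [] then D else 0)
    · exact int_sum (fun v => (Yeta ch ρ W v - cη * W v) / Yone ch ρ v)
    · exact (int_sum (fun v => (Yone ch ρ v - c1 * W v) / Yone ch ρ v)).const_mul θ
  -- root term
  have hstay : ∀ t ω, ξ t ω ≤ stay X ℓ t ω := by
    intro t ω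
    rcases eq_or_ne (ξ t ω) 0 with h0 | h0
    · rw [h0, stay]; split_ifs <;> norm_num
    · rw [stay, if_pos (hξ.supp t ω h0)]; exact hξ.le_one t ω
  have ad_stay : ∀ t, Adapt X t (stay X ℓ t) := by
    intro t ω ω' h
    have : (∀ s ≤ t, (X s ω).length < ℓ) ↔ (∀ s ≤ t, (X s ω').length < ℓ) :=
      forall_congr' fun s => forall_congr' fun hs => by rw [h s hs]
    simp only [stay, this]
  have int_stay : Integrable (fun ω => ∑ t ∈ range n, stay X ℓ t ω *
      (if X t ω = [] then |D| else 0)) P := by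
    refine integrable_finsetSum _ fun t _ => ?_
    refine Adapt.integrable hX hρ hne (n := t) ?_
    intro ω ω' h
    show stay X ℓ t ω * (if X t ω = [] then |D| else 0) =
      stay X ℓ t ω' * (if X t ω' = [] then |D| else 0)
    rw [ad_stay t ω ω' h, h t le_rfl]
  have hroot : |∫ ω, ∑ t ∈ range n, ξ t ω * (if X t ω = [] then D else 0) ∂P| ≤ L * ℓ := by
    calc |∫ ω, ∑ t ∈ range n, ξ t ω * (if X t ω = [] then D else 0) ∂P|
        ≤ ∫ ω, |∑ t ∈ range n, ξ t ω * (if X t ω = [] then D else 0)| ∂P :=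
          abs_integral_le_integral_abs
      _ ≤ ∫ ω, ∑ t ∈ range n, stay X ℓ t ω * (if X t ω = [] then |D| else 0) ∂P := by
          refine integral_mono (int_sum (fun v => if v = [] then D else 0)).abs int_stay ?_
          intro ω
          simp only
          refine (Finset.abs_sum_le_sum_abs _ _).trans (Finset.sum_le_sum fun t _ => ?_)
          rw [abs_mul, abs_of_nonneg (hξ.nonneg t ω)]
          have h3 : |(if X t ω = [] then D else 0)| = (if X t ω = [] then |D| else 0) := by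
            split_ifs <;> simp
          rw [h3]
          refine mul_le_mul_of_nonneg_right (hstay t ω) ?_
          split_ifs
          · exact abs_nonneg _
          · exact le_rfl
      _ ≤ C * ℓ * ∑ k ∈ range ℓ, mu ch ρ k
            (fun v => Yone ch ρ v * (if v = [] then |D| else 0)) := by
          refine hO.occ ℓ n (fun v => if v = [] then |D| else 0) fun v => ?_
          split_ifs
          · exact abs_nonneg _
          · exact le_rfl
      _ ≤ C * ℓ * (|D| * Yone ch ρ []) := by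
          refine mul_le_mul_of_nonneg_left ?_ (by positivity)
          have hz : ∀ k, k ≠ 0 → mu ch ρ k
              (fun v => Yone ch ρ v * (if v = [] then |D| else 0)) = 0 := by
            intro k hk
            rw [mu_eq_sum, Finset.sum_eq_zero, mul_zero]
            intro v hv
            have hvn : v ≠ [] := by
              rintro rfl
              exact hk (length_of_mem_lev hv).symm
            rw [if_neg hvn, mul_zero]
          rcases Nat.eq_zero_or_pos ℓ with h0 | h0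
          · rw [h0, Finset.range_zero, Finset.sum_empty]
            have := (el_Yone_pos (ch := ch) hρ []).le
            positivity
          · rw [Finset.sum_eq_single_of_mem 0 (Finset.mem_range.2 h0) (fun k _ hk => hz k hk),
              mu_zero, if_pos rfl, mul_comm]
      _ = L * ℓ := by rw [hL]; ring
  rw [hsplit]
  have h1' := h1 ℓ hℓa M n ξ hξ
  have h2' := h2 ℓ hℓb M n ξ hξ
  have h4 : |θ * ∫ ω, ∑ t ∈ range n, ξ t ω *
        ((Yone ch ρ (X t ω) - c1 * W (X t ω)) / Yone ch ρ (X t ω)) ∂P| ≤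
      ε / 4 * (ℓ : ℝ) ^ 2 := by
    rw [abs_mul, abs_of_pos hθ0]
    calc θ * _ ≤ θ * (ε / (4 * θ) * (ℓ : ℝ) ^ 2) := mul_le_mul_of_nonneg_left h2' hθ0.le
      _ = ε / 4 * (ℓ : ℝ) ^ 2 := by field_simp
  have h5 : L * ℓ ≤ ε / 4 * (ℓ : ℝ) ^ 2 := by
    have : (0 : ℝ) ≤ ℓ := Nat.cast_nonneg _
    nlinarith
  refine (abs_add_le _ _).trans ?_
  have h6 := abs_sub (∫ ω, ∑ t ∈ range n, ξ t ω *
        ((Yeta ch ρ W (X t ω) - cη * W (X t ω)) / Yone ch ρ (X t ω)) ∂P)
    (θ * ∫ ω, ∑ t ∈ range n, ξ t ω *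
        ((Yone ch ρ (X t ω) - c1 * W (X t ω)) / Yone ch ρ (X t ω)) ∂P)
  have h7 : 0 ≤ ε / 4 * (ℓ : ℝ) ^ 2 := by positivity
  linarith

theorem linW_of_good {c1 cη κ : ℝ} (hT : TreeGood ch ρ c1 cη κ W) (hX : IsWalk ch ρ X P)
    {C : ℝ} (hO : Occ ch ρ X P C) : LinW ch ρ W X P := by
  intro ε hε
  have hρ : 0 < ρ := by have := hT.one_lt; linarith
  have hC := hO.pos
  obtain ⟨R, hR, hlin⟩ := hT.lind (ε / (2 * C)) (by positivity)
  have hmu : ∀ᶠ k in atTop, mu ch ρ k (fun v => Yone ch ρ v * lin ch ρ W R v) ≤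
      ε / (2 * C) := by
    filter_upwards [hlin, eventually_ge_atTop 1] with k k1 k2
    have h : mu ch ρ k (fun v => Yone ch ρ v * lin ch ρ W R v) =
        mu ch ρ k (Ylin ch ρ W R) := by
      refine mu_congr fun v hv => ?_
      refine Yone_mul_lin hρ hT.W_nonneg R ?_
      rintro rfl
      have := length_of_mem_lev hv
      simp at this
      omega
    rw [h]
    exact k1
  obtain ⟨D, hD0, hD⟩ := el_sum_le (by positivity) hmu
  obtain ⟨ℓ0, hℓ0⟩ := exists_nat_ge (2 * (C * D) / ε)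
  refine ⟨R, hR, ℓ0, fun ℓ hℓ n => ?_⟩
  have hℓL : C * D ≤ ε / 2 * ℓ := by
    have h3 : 2 * (C * D) / ε ≤ ℓ := hℓ0.trans (by exact_mod_cast hℓ)
    rw [div_le_iff₀ hε] at h3
    linarith
  refine (hO.occ ℓ n (lin ch ρ W R) (lin_nonneg hρ hR)).trans ?_
  have hℓ' : (0 : ℝ) ≤ ℓ := Nat.cast_nonneg _
  calc C * ℓ * ∑ k ∈ range ℓ, mu ch ρ k (fun v => Yone ch ρ v * lin ch ρ W R v)
      ≤ C * ℓ * (D + ε / (2 * C) * ℓ) := mul_le_mul_of_nonneg_left (hD ℓ) (by positivity)
    _ = C * D * ℓ + ε / 2 * (ℓ : ℝ) ^ 2 := by field_simp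
    _ ≤ ε * (ℓ : ℝ) ^ 2 := by nlinarith

end Walk

end Pool.Agent.BW
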