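import Pool.Agent.Lib.MP_276d40_pr.MuBasic

/-!
# MP_276d40_pr, piece P8: finite dimensional convergence to reflected Brownian motion from
the asymptotic recursion of the cosine moments
-/

open MeasureTheory ProbabilityTheory Filter Topology Finset
open scoped ENNReal NNReal

set_option linter.unusedSectionVars false
set_option linter.unusedVariables false

namespace Pool.Agent.BW

/-- the asymptotic recursion -/
private def HRec (θ : ℝ) {Ω : Type} [MeasurableSpace Ω] (P : Measure Ω)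
    (x : ℕ → ℝ≥0 → Ω → ℝ) : Prop :=
  ∀ (k : ℕ) (s : Fin k → ℝ≥0) (c : Fin k → ℝ) (t u : ℝ≥0) (r : ℝ), (∀ j, s j ≤ t) →
      t ≤ u → Tendsto (fun n => ∫ ω, (∏ j, Real.cos (c j * x n (s j) ω)) *
        (Real.cos (r * x n u ω) - Real.exp (-(θ * r ^ 2 * ((u : ℝ) - t) / 2)) *
          Real.cos (r * x n t ω)) ∂P) atTop (𝓝 0)

private theorem integrable_prod_cos {Ω : Type} [MeasurableSpace Ω] {P : Measure Ω}
    [IsProbabilityMeasure P] {k : ℕ} {X : Fin k → Ω → ℝ} (hX : ∀ j, AEMeasurable (X j) P)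
    (c : Fin k → ℝ) : Integrable (fun ω => ∏ j, Real.cos (c j * X j ω)) P := by
  refine Integrable.of_bound (C := 1) ?_ (ae_of_all _ fun ω => ?_)
  · refine AEMeasurable.aestronglyMeasurable ?_
    refine Finset.aemeasurable_fun_prod _ fun j _ => ?_
    exact Real.measurable_cos.comp_aemeasurable ((hX j).const_mul _)
  · rw [Real.norm_eq_abs, Finset.abs_prod]
    exact Finset.prod_le_one (fun _ _ => abs_nonneg _) (fun _ _ => Real.abs_cos_le_one _)

private theorem integral_comb {Ω : Type} [MeasurableSpace Ω] {P : Measure Ω} {F G H : Ω → ℝ}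
    (hF : Integrable F P) (hG : Integrable G P) (hH : Integrable H P) (a b : ℝ) :
    ∫ ω, F ω ∂P + a * ∫ ω, G ω ∂P + b * ∫ ω, H ω ∂P = ∫ ω, (F ω + a * G ω + b * H ω) ∂P := by
  have h1 : Integrable (fun ω => F ω + a * G ω) P := hF.add (hG.const_mul a)
  rw [integral_add h1 (hH.const_mul b), integral_add hF (hG.const_mul a), integral_const_mul,
    integral_const_mul]

private theorem exists_lim (θ : ℝ) : ∀ (k : ℕ) (t : Fin k → ℝ≥0), Monotone t →
    ∀ c : Fin k → ℝ, ∃ L : ℝ, ∀ (Ω : Type) [MeasurableSpace Ω] (P : Measure Ω)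
      [IsProbabilityMeasure P] (x : ℕ → ℝ≥0 → Ω → ℝ), (∀ n t, AEMeasurable (x n t) P) →
      (∀ n, ∀ᵐ ω ∂P, x n 0 ω = 0) → HRec θ P x →
      Tendsto (fun n => ∫ ω, ∏ j, Real.cos (c j * x n (t j) ω) ∂P) atTop (𝓝 L) := by
  intro k
  induction k with
  | zero =>
    intro t _ c
    refine ⟨1, fun Ω _ P _ x _ _ _ => ?_⟩
    simp
  | succ k ih =>
    intro t ht c
    rcases k with _ | m
    · refine ⟨Real.exp (-(θ * (c 0) ^ 2 * ((t 0 : ℝ) - (0 : ℝ≥0)) / 2)),
        fun Ω _ P _ x hx h0 hrec => ?_⟩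
      have h1 := hrec 0 Fin.elim0 Fin.elim0 0 (t 0) (c 0) (fun j => j.elim0) (by simp)
      set E : ℝ := Real.exp (-(θ * (c 0) ^ 2 * ((t 0 : ℝ) - (0 : ℝ≥0)) / 2)) with hE
      have h2 : ∀ n, ∫ ω, ∏ j : Fin (0 + 1), Real.cos (c j * x n (t j) ω) ∂P =
          (∫ ω, (∏ j : Fin 0, Real.cos ((Fin.elim0 j : ℝ) * x n (Fin.elim0 j) ω)) *
        (Real.cos (c 0 * x n (t 0) ω) - E * Real.cos (c 0 * x n 0 ω)) ∂P) + E := by
        intro n
        have h3 : ∫ ω, (∏ j : Fin 0, Real.cos ((Fin.elim0 j : ℝ) * x n (Fin.elim0 j) ω)) *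
            (Real.cos (c 0 * x n (t 0) ω) - E * Real.cos (c 0 * x n 0 ω)) ∂P =
            ∫ ω, (Real.cos (c 0 * x n (t 0) ω) - E) ∂P := by
          refine integral_congr_ae ?_
          filter_upwards [h0 n] with ω hω
          simp [hω]
        have hi : Integrable (fun ω => Real.cos (c 0 * x n (t 0) ω)) P := by
          have := integrable_prod_cos (P := P) (X := fun _ : Fin 1 => x n (t 0))
            (fun _ => hx n (t 0)) (fun _ => c 0)
          simpa using this
        rw [h3, integral_sub hi (integrable_const _)]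
        simp
      simp_rw [h2]
      have := h1.add_const E
      simpa using this
    · obtain ⟨L₁, hL₁⟩ := ih (fun j => t j.castSucc)
        (fun a b hab => ht (Fin.castSucc_le_castSucc_iff.2 hab))
        (Fin.snoc (α := fun _ => ℝ) (fun j : Fin m => c j.castSucc.castSucc)
          (c (Fin.last m).castSucc + c (Fin.last (m + 1))))
      obtain ⟨L₂, hL₂⟩ := ih (fun j => t j.castSucc)
        (fun a b hab => ht (Fin.castSucc_le_castSucc_iff.2 hab))
        (Fin.snoc (α := fun _ => ℝ) (fun j : Fin m => c j.castSucc.castSucc)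
          (c (Fin.last m).castSucc - c (Fin.last (m + 1))))
      set T : ℝ≥0 := t (Fin.last m).castSucc with hT
      set u : ℝ≥0 := t (Fin.last (m + 1)) with hu
      set r : ℝ := c (Fin.last (m + 1)) with hr
      set E : ℝ := Real.exp (-(θ * r ^ 2 * ((u : ℝ) - T) / 2)) with hE
      refine ⟨0 + (E / 2) * L₁ + (E / 2) * L₂, fun Ω _ P _ x hx h0 hrec => ?_⟩
      have h1 := hrec (m + 1) (fun j => t j.castSucc) (fun j => c j.castSucc) T u r
        (fun j => ht (Fin.castSucc_le_castSucc_iff.2 (Fin.le_last j)))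
        (ht (Fin.le_last _))
      have h2 := hL₁ Ω P x hx h0 hrec
      have h3 := hL₂ Ω P x hx h0 hrec
      refine ((h1.add (h2.const_mul (E / 2))).add (h3.const_mul (E / 2))).congr fun n => ?_
      have i0 : Integrable (fun ω => ∏ j : Fin (m + 1), Real.cos (c j.castSucc *
          x n (t j.castSucc) ω)) P := integrable_prod_cos (fun j => hx n _) _
      have i1 : Integrable (fun ω => (∏ j : Fin (m + 1), Real.cos (c j.castSucc *
          x n (t j.castSucc) ω)) * (Real.cos (r * x n u ω) - E * Real.cos (r * x n T ω))) P := by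
        have hc : ∀ v : ℝ≥0, AEStronglyMeasurable (fun ω => Real.cos (r * x n v ω)) P :=
          fun v => (Real.measurable_cos.comp_aemeasurable
            ((hx n v).const_mul _)).aestronglyMeasurable
        refine i0.mul_bdd (c := 1 + |E|) ((hc u).sub ((hc T).const_mul E))
          (ae_of_all _ fun ω => ?_)
        rw [Real.norm_eq_abs]
        refine (abs_sub _ _).trans (add_le_add (Real.abs_cos_le_one _) ?_)
        rw [abs_mul]
        exact mul_le_of_le_one_right (abs_nonneg _) (Real.abs_cos_le_one _)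
      have i2 : Integrable (fun ω => ∏ j : Fin (m + 1), Real.cos (Fin.snoc (α := fun _ => ℝ)
        (fun j : Fin m => c j.castSucc.castSucc) (c (Fin.last m).castSucc + r) j *
          x n (t j.castSucc) ω)) P := integrable_prod_cos (fun j => hx n _) _
      have i3 : Integrable (fun ω => ∏ j : Fin (m + 1), Real.cos (Fin.snoc (α := fun _ => ℝ)
        (fun j : Fin m => c j.castSucc.castSucc) (c (Fin.last m).castSucc - r) j *
          x n (t j.castSucc) ω)) P := integrable_prod_cos (fun j => hx n _) _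
      refine (integral_comb i1 i2 i3 (E / 2) (E / 2)).trans ?_
      refine integral_congr_ae (ae_of_all _ fun ω => ?_)
      dsimp only
      rw [Fin.prod_univ_castSucc (n := m + 1)]
      rw [Fin.prod_univ_castSucc (n := m), Fin.prod_univ_castSucc (n := m),
        Fin.prod_univ_castSucc (n := m)]
      simp only [Fin.snoc_castSucc, Fin.snoc_last]
      rw [add_mul, sub_mul, Real.cos_add, Real.cos_sub]
      ring

private theorem gauss_exp (v : ℝ≥0) (a : ℝ) :
    ∫ y : ℝ, Complex.exp (a * y * Complex.I) ∂(gaussianReal 0 v) =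
      ((Real.exp (-(a ^ 2 * v / 2)) : ℝ) : ℂ) := by
  have h := charFun_gaussianReal (μ := 0) (v := v) a
  rw [charFun_apply_real] at h
  rw [h, Complex.ofReal_exp]
  congr 1
  push_cast; ring

private theorem gauss_int (v : ℝ≥0) (a : ℝ) :
    Integrable (fun y : ℝ => Complex.exp (a * y * Complex.I)) (gaussianReal 0 v) := by
  refine Integrable.of_bound (C := 1) (by fun_prop) (ae_of_all _ fun y => ?_)
  rw [← Complex.ofReal_mul, Complex.norm_exp_ofReal_mul_I]

private theorem gauss_cos (v : ℝ≥0) (a : ℝ) :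
    ∫ y, Real.cos (a * y) ∂(gaussianReal 0 v) = Real.exp (-(a ^ 2 * v / 2)) := by
  have h1 : RCLike.re (∫ y : ℝ, Complex.exp (a * y * Complex.I) ∂(gaussianReal 0 v)) =
    Real.exp (-(a ^ 2 * v / 2)) := by rw [gauss_exp]; exact Complex.ofReal_re _
  rw [← integral_re (gauss_int v a)] at h1
  rw [← h1]
  refine integral_congr_ae (ae_of_all _ fun y => ?_)
  dsimp only
  rw [← Complex.ofReal_mul]
  exact (Complex.exp_ofReal_mul_I_re _).symm

private theorem gauss_sin (v : ℝ≥0) (a : ℝ) :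
    ∫ y, Real.sin (a * y) ∂(gaussianReal 0 v) = 0 := by
  have h1 : RCLike.im (∫ y : ℝ, Complex.exp (a * y * Complex.I) ∂(gaussianReal 0 v)) =
    0 := by rw [gauss_exp]; exact Complex.ofReal_im (Real.exp (-(a ^ 2 * v / 2)))
  rw [← integral_im (gauss_int v a)] at h1
  refine Eq.trans ?_ h1
  refine integral_congr_ae (ae_of_all _ fun y => ?_)
  dsimp only
  rw [← Complex.ofReal_mul]
  exact (Complex.exp_ofReal_mul_I_im _).symm

private theorem bm_rec {Ω : Type} [MeasurableSpace Ω] {P : Measure Ω} [IsProbabilityMeasure P]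
    (B : ℝ≥0 → Ω → ℝ) (hB : IsPreBrownianReal B P) {θ : ℝ} (hθ : 0 ≤ θ)
    (k : ℕ) (s : Fin k → ℝ≥0) (c : Fin k → ℝ) (t u : ℝ≥0) (r : ℝ) (hs : ∀ j, s j ≤ t)
    (htu : t ≤ u) :
    ∫ ω, (∏ j, Real.cos (c j * (√θ * B (s j) ω))) *
        (Real.cos (r * (√θ * B u ω)) - Real.exp (-(θ * r ^ 2 * ((u : ℝ) - t) / 2)) *
          Real.cos (r * (√θ * B t ω))) ∂P = 0 := by
  have hm := hB.aemeasurable
  set a : ℝ := r * √θ with ha
  set E : ℝ := Real.exp (-(θ * r ^ 2 * ((u : ℝ) - t) / 2)) with hE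
  -- the law of the increment
  have hlaw := hB.hasLaw_sub u t
  have hnd : ((nndist (u : ℝ) (t : ℝ) : ℝ≥0) : ℝ) = (u : ℝ) - t := by
    rw [coe_nndist, Real.dist_eq, abs_of_nonneg (sub_nonneg.2 (by exact_mod_cast htu))]
  have hcos : ∫ ω, Real.cos (a * (B u ω - B t ω)) ∂P = E := by
    have h := hlaw.integral_comp (f := fun y => Real.cos (a * y)) (by fun_prop)
    rw [gauss_cos] at h
    refine h.trans ?_
    rw [hE, show ((nndist u.1 t.1 : ℝ≥0) : ℝ) = (u : ℝ) - t from hnd]
    congr 2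
    rw [ha, mul_pow, Real.sq_sqrt hθ]
    ring
  have hsin : ∫ ω, Real.sin (a * (B u ω - B t ω)) ∂P = 0 := by
    have h := hlaw.integral_comp (f := fun y => Real.sin (a * y)) (by fun_prop)
    rw [gauss_sin] at h
    exact h
  -- independence
  have hind := hB.indepFun_shift t
  have key : ∀ (f : ℝ → ℝ) (g : ℝ → ℝ), Measurable f → Measurable g →
      ∫ ω, f (B u ω - B t ω) * ((∏ j, Real.cos (c j * (√θ * B (s j) ω))) * g (B t ω)) ∂P =
      (∫ ω, f (B u ω - B t ω) ∂P) *
        ∫ ω, (∏ j, Real.cos (c j * (√θ * B (s j) ω))) * g (B t ω) ∂P := by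
    intro f g hf hg
    have h1 := hind.comp (φ := fun p : ℝ≥0 → ℝ => f (p (u - t)))
      (ψ := fun p : Set.Iic t → ℝ => (∏ j, Real.cos (c j * (√θ * p ⟨s j, hs j⟩))) *
        g (p ⟨t, le_refl t⟩)) (hf.comp (measurable_pi_apply _)) (by fun_prop)
    have h2 : (fun p : ℝ≥0 → ℝ => f (p (u - t))) ∘ (fun ω s => B (t + s) ω - B t ω) =
        fun ω => f (B u ω - B t ω) := by
      funext ω
      simp only [Function.comp_apply]
      rw [add_tsub_cancel_of_le htu]
    rw [h2] at h1
    refine h1.integral_fun_mul_eq_mul_integral ?_ ?_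
    · exact (hf.comp_aemeasurable ((hm u).sub (hm t))).aestronglyMeasurable
    · refine AEMeasurable.aestronglyMeasurable ?_
      refine AEMeasurable.mul ?_ (hg.comp_aemeasurable (hm t))
      refine Finset.aemeasurable_fun_prod _ fun j _ => ?_
      exact Real.measurable_cos.comp_aemeasurable (((hm _).const_mul _).const_mul _)
  have k1 := key (fun y => Real.cos (a * y)) (fun y => Real.cos (a * y)) (by fun_prop)
    (by fun_prop)
  have k2 := key (fun y => Real.sin (a * y)) (fun y => Real.sin (a * y)) (by fun_prop)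
    (by fun_prop)
  rw [hcos] at k1
  rw [hsin, zero_mul] at k2
  have m0 : AEMeasurable (fun ω => ∏ j, Real.cos (c j * (√θ * B (s j) ω))) P := by
    refine Finset.aemeasurable_fun_prod _ fun j _ => ?_
    exact Real.measurable_cos.comp_aemeasurable (((hm _).const_mul _).const_mul _)
  have b0 : ∀ ω, |∏ j, Real.cos (c j * (√θ * B (s j) ω))| ≤ 1 := by
    intro ω
    rw [Finset.abs_prod]
    exact Finset.prod_le_one (fun _ _ => abs_nonneg _) (fun _ _ => Real.abs_cos_le_one _)
  have i1 : Integrable (fun ω => Real.cos (a * (B u ω - B t ω)) *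
      ((∏ j, Real.cos (c j * (√θ * B (s j) ω))) * Real.cos (a * B t ω))) P := by
    refine Integrable.of_bound (C := 1) ?_ (ae_of_all _ fun ω => ?_)
    · refine AEMeasurable.aestronglyMeasurable ?_
      exact (Real.measurable_cos.comp_aemeasurable (((hm u).sub (hm t)).const_mul _)).mul
        (m0.mul (Real.measurable_cos.comp_aemeasurable ((hm t).const_mul _)))
    · rw [Real.norm_eq_abs, abs_mul, abs_mul]
      exact mul_le_one₀ (Real.abs_cos_le_one _) (by positivity)
        (mul_le_one₀ (b0 ω) (abs_nonneg _) (Real.abs_cos_le_one _))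
  have i2 : Integrable (fun ω => Real.sin (a * (B u ω - B t ω)) *
      ((∏ j, Real.cos (c j * (√θ * B (s j) ω))) * Real.sin (a * B t ω))) P := by
    refine Integrable.of_bound (C := 1) ?_ (ae_of_all _ fun ω => ?_)
    · refine AEMeasurable.aestronglyMeasurable ?_
      exact (Real.measurable_sin.comp_aemeasurable (((hm u).sub (hm t)).const_mul _)).mul
        (m0.mul (Real.measurable_sin.comp_aemeasurable ((hm t).const_mul _)))
    · rw [Real.norm_eq_abs, abs_mul, abs_mul]
      exact mul_le_one₀ (Real.abs_sin_le_one _) (by positivity)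
        (mul_le_one₀ (b0 ω) (abs_nonneg _) (Real.abs_sin_le_one _))
  have i3 : Integrable (fun ω => (∏ j, Real.cos (c j * (√θ * B (s j) ω))) *
      Real.cos (a * B t ω)) P := by
    refine Integrable.of_bound (C := 1) ?_ (ae_of_all _ fun ω => ?_)
    · refine AEMeasurable.aestronglyMeasurable ?_
      exact (m0.mul (Real.measurable_cos.comp_aemeasurable ((hm t).const_mul _)))
    · rw [Real.norm_eq_abs, abs_mul]
      exact (mul_le_one₀ (b0 ω) (abs_nonneg _) (Real.abs_cos_le_one _))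
  have h3 := integral_comb i1 i2 i3 (-1) (-E)
  rw [k1, k2] at h3
  have h4 : ∫ ω, (∏ j, Real.cos (c j * (√θ * B (s j) ω))) *
        (Real.cos (r * (√θ * B u ω)) - E * Real.cos (r * (√θ * B t ω))) ∂P =
      ∫ ω, (Real.cos (a * (B u ω - B t ω)) *
      ((∏ j, Real.cos (c j * (√θ * B (s j) ω))) * Real.cos (a * B t ω)) +
      -1 * (Real.sin (a * (B u ω - B t ω)) *
      ((∏ j, Real.cos (c j * (√θ * B (s j) ω))) * Real.sin (a * B t ω))) +
      -E * ((∏ j, Real.cos (c j * (√θ * B (s j) ω))) * Real.cos (a * B t ω))) ∂P := by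
    refine integral_congr_ae (ae_of_all _ fun ω => ?_)
    dsimp only
    have e1 : r * (√θ * B u ω) = a * (B u ω - B t ω) + a * B t ω := by rw [ha]; ring
    have e2 : r * (√θ * B t ω) = a * B t ω := by rw [ha]; ring
    rw [e1, e2, Real.cos_add]
    ring
  rw [h4, ← h3]
  ring

/-- the sign attached to a boolean -/
private noncomputable def sg (b : Bool) : ℝ := if b then 1 else -1

private theorem abs_sg (b : Bool) : |sg b| = 1 := by
  unfold sg; split_ifs <;> simp

/-- the vector with signs -/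
private noncomputable def symY {Ω : Type} {k : ℕ} (X : Fin k → Ω → ℝ) (σ : Fin k → Bool) (ω : Ω) :
    EuclideanSpace ℝ (Fin k) := WithLp.toLp 2 (fun j => sg (σ j) * X j ω)

private theorem aemeas_symY {Ω : Type} [MeasurableSpace Ω] {P : Measure Ω} {k : ℕ}
    {X : Fin k → Ω → ℝ} (hX : ∀ j, AEMeasurable (X j) P) (σ : Fin k → Bool) :
    AEMeasurable (symY X σ) P := by
  unfold symY
  have h1 : AEMeasurable (fun ω => (fun j => sg (σ j) * X j ω)) P :=
    aemeasurable_pi_lambda _ fun j => (hX j).const_mul _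
  exact (by fun_prop : Measurable (WithLp.toLp 2 : (Fin k → ℝ) → EuclideanSpace ℝ (Fin k))).comp_aemeasurable h1

/-- the symmetrised law -/
private noncomputable def symLaw {Ω : Type} [MeasurableSpace Ω] (P : Measure Ω) {k : ℕ}
    (X : Fin k → Ω → ℝ) : Measure (EuclideanSpace ℝ (Fin k)) :=
  ((2 : ℝ≥0∞) ^ k)⁻¹ • ∑ σ : Fin k → Bool, P.map (symY X σ)

private theorem prob_symLaw {Ω : Type} [MeasurableSpace Ω] {P : Measure Ω}
    [IsProbabilityMeasure P] {k : ℕ} {X : Fin k → Ω → ℝ} (hX : ∀ j, AEMeasurable (X j) P) :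
    IsProbabilityMeasure (symLaw P X) := by
  constructor
  unfold symLaw
  have h1 : ∀ σ : Fin k → Bool, (P.map (symY X σ)) Set.univ = 1 := fun σ => by
    rw [Measure.map_apply_of_aemeasurable (aemeas_symY hX σ) MeasurableSet.univ]
    simp
  rw [Measure.smul_apply, Measure.finsetSum_apply, Finset.sum_congr rfl (fun σ _ => h1 σ)]
  simp only [sum_const, card_univ, Fintype.card_pi, Fintype.card_bool, prod_const,
    Fintype.card_fin, nsmul_eq_mul, smul_eq_mul, mul_one, Nat.cast_pow, Nat.cast_ofNat]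
  exact ENNReal.inv_mul_cancel (by positivity) (by finiteness)

/-- the symmetrised law as a probability measure -/
private noncomputable def symPM {Ω : Type} [MeasurableSpace Ω] (P : Measure Ω)
    [IsProbabilityMeasure P] {k : ℕ} (X : Fin k → Ω → ℝ) (hX : ∀ j, AEMeasurable (X j) P) :
    ProbabilityMeasure (EuclideanSpace ℝ (Fin k)) := ⟨symLaw P X, prob_symLaw hX⟩

private theorem coe_symPM {Ω : Type} [MeasurableSpace Ω] (P : Measure Ω)
    [IsProbabilityMeasure P] {k : ℕ} (X : Fin k → Ω → ℝ) (hX : ∀ j, AEMeasurable (X j) P) :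
    (symPM P X hX : Measure (EuclideanSpace ℝ (Fin k))) = symLaw P X := rfl

private theorem integral_symLaw {Ω : Type} [MeasurableSpace Ω] {P : Measure Ω}
    [IsProbabilityMeasure P] {k : ℕ} {X : Fin k → Ω → ℝ} (hX : ∀ j, AEMeasurable (X j) P)
    {G : Type} [NormedAddCommGroup G] [NormedSpace ℝ G] [MeasurableSpace G] [BorelSpace G]
    [SecondCountableTopology G]
    (F : EuclideanSpace ℝ (Fin k) → G) (hF : Continuous F) (C : ℝ) (hC : ∀ y, ‖F y‖ ≤ C) :
    ∫ y, F y ∂(symLaw P X) = ((2 : ℝ) ^ k)⁻¹ • ∑ σ : Fin k → Bool, ∫ ω, F (symY X σ ω) ∂P := by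
  unfold symLaw
  rw [integral_smul_measure, integral_finsetSum_measure]
  · congr 1
    · simp
    · refine Finset.sum_congr rfl fun σ _ => ?_
      rw [integral_map (aemeas_symY hX σ) hF.aestronglyMeasurable]
  · intro σ _
    have : IsFiniteMeasure (P.map (symY X σ)) := inferInstance
    exact Integrable.of_bound hF.aestronglyMeasurable C (ae_of_all _ hC)

private theorem charFun_symLaw {Ω : Type} [MeasurableSpace Ω] {P : Measure Ω}
    [IsProbabilityMeasure P] {k : ℕ} {X : Fin k → Ω → ℝ} (hX : ∀ j, AEMeasurable (X j) P)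
    (c : EuclideanSpace ℝ (Fin k)) :
    charFun (symLaw P X) c = ((∫ ω, ∏ j, Real.cos (c j * X j ω) ∂P : ℝ) : ℂ) := by
  have hF : Continuous fun y : EuclideanSpace ℝ (Fin k) =>
    Complex.exp ((inner ℝ y c : ℝ) * Complex.I) := by fun_prop
  have hb : ∀ y : EuclideanSpace ℝ (Fin k), ‖Complex.exp ((inner ℝ y c : ℝ) * Complex.I)‖ ≤ 1 := by
    intro y
    rw [Complex.norm_exp_ofReal_mul_I]
  rw [charFun_apply, integral_symLaw hX _ hF 1 hb]
  have hint : ∀ σ : Fin k → Bool, Integrable (fun ω =>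
      Complex.exp ((inner ℝ (symY X σ ω) c : ℝ) * Complex.I)) P := by
    intro σ
    refine Integrable.of_bound (C := 1) ?_ (ae_of_all _ fun ω => hb _)
    exact (hF.measurable.comp_aemeasurable (aemeas_symY hX σ)).aestronglyMeasurable
  rw [← integral_finsetSum _ (fun σ _ => hint σ), ← integral_smul, ← integral_complex_ofReal]
  refine integral_congr_ae (ae_of_all _ fun ω => ?_)
  dsimp only
  have h1 : ∀ σ : Fin k → Bool, Complex.exp ((inner ℝ (symY X σ ω) c : ℝ) * Complex.I) =
      ∏ j, Complex.exp (((sg (σ j) * X j ω * c j : ℝ) : ℂ) * Complex.I) := by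
    intro σ
    rw [← Complex.exp_sum, ← Finset.sum_mul]
    congr 2
    rw [← Complex.ofReal_sum]
    congr 1
    rw [PiLp.inner_apply]
    refine Finset.sum_congr rfl fun j _ => ?_
    simp [symY, mul_comm]
  simp_rw [h1]
  have h2 := Finset.prod_univ_sum (fun _ : Fin k => (Finset.univ : Finset Bool))
    (fun (j : Fin k) (b : Bool) => Complex.exp (((sg b * X j ω * c j : ℝ) : ℂ) * Complex.I))
  rw [Fintype.piFinset_univ] at h2
  rw [← h2]
  have h3 : ∀ j : Fin k, ∑ b : Bool, Complex.exp (((sg b * X j ω * c j : ℝ) : ℂ) * Complex.I) =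
      2 * ((Real.cos (c j * X j ω) : ℝ) : ℂ) := by
    intro j
    rw [Fintype.sum_bool]
    simp only [sg]
    rw [Complex.ofReal_cos, Complex.cos]
    simp only [if_true, Bool.false_eq_true, if_false]
    push_cast
    rw [mul_div_cancel₀ _ (two_ne_zero)]
    congr 2 <;> ring
  rw [Finset.prod_congr rfl (fun j _ => h3 j), Finset.prod_mul_distrib]
  simp only [prod_const, card_univ, Fintype.card_fin, Complex.ofReal_prod]
  rw [Complex.real_smul]
  push_cast
  rw [← mul_assoc, inv_mul_cancel₀ (pow_ne_zero _ two_ne_zero), one_mul]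

private theorem integral_symLaw_abs {Ω : Type} [MeasurableSpace Ω] {P : Measure Ω}
    [IsProbabilityMeasure P] {k : ℕ} {X : Fin k → Ω → ℝ} (hX : ∀ j, AEMeasurable (X j) P)
    {φ : (Fin k → ℝ) → ℝ} (hφ : Continuous φ) {C : ℝ} (hC : ∀ y, |φ y| ≤ C) :
    ∫ y : EuclideanSpace ℝ (Fin k), φ (fun j => |y j|) ∂(symLaw P X) =
      ∫ ω, φ (fun j => |X j ω|) ∂P := by
  rw [integral_symLaw hX _ (by fun_prop) C (fun y => hC _)]
  have h1 : ∀ σ : Fin k → Bool, ∫ ω, φ (fun j => |symY X σ ω j|) ∂P =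
      ∫ ω, φ (fun j => |X j ω|) ∂P := by
    intro σ
    refine integral_congr_ae (ae_of_all _ fun ω => ?_)
    dsimp only [symY]
    congr 1
    funext j
    rw [abs_mul, abs_sg, one_mul]
  rw [Finset.sum_congr rfl (fun σ _ => h1 σ)]
  simp only [sum_const, card_univ, Fintype.card_pi, Fintype.card_bool, prod_const,
    Fintype.card_fin, nsmul_eq_mul, smul_eq_mul, Nat.cast_pow, Nat.cast_ofNat]
  rw [← mul_assoc, inv_mul_cancel₀ (pow_ne_zero _ two_ne_zero), one_mul]

section Fdd

variable {Ω : Type} [MeasurableSpace Ω] {P : Measure Ω} [IsProbabilityMeasure P]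
  {Ω' : Type} [MeasurableSpace Ω'] {P' : Measure Ω'} [IsProbabilityMeasure P']

theorem fdd_of_cos (x : ℕ → ℝ≥0 → Ω → ℝ) (hm : ∀ n t, Measurable (x n t))
    (hnn : ∀ n t ω, 0 ≤ x n t ω) (h0 : ∀ n, ∀ᵐ ω ∂P, x n 0 ω = 0) {θ : ℝ} (hθ : 0 ≤ θ)
    (hrec : ∀ (k : ℕ) (s : Fin k → ℝ≥0) (c : Fin k → ℝ) (t u : ℝ≥0) (r : ℝ), (∀ j, s j ≤ t) →
      t ≤ u → Tendsto (fun n => ∫ ω, (∏ j, Real.cos (c j * x n (s j) ω)) *
        (Real.cos (r * x n u ω) - Real.exp (-(θ * r ^ 2 * ((u : ℝ) - t) / 2)) *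
          Real.cos (r * x n t ω)) ∂P) atTop (𝓝 0))
    (B : ℝ≥0 → Ω' → ℝ) (hB : IsPreBrownianReal B P') :
    ∀ (k : ℕ) (t : Fin k → ℝ≥0), Monotone t → ∀ φ : (Fin k → ℝ) → ℝ, Continuous φ →
      (∃ C, ∀ y, |φ y| ≤ C) →
      Tendsto (fun n => ∫ ω, φ (fun j => x n (t j) ω) ∂P) atTop
        (𝓝 (∫ ω, φ (fun j => √θ * |B (t j) ω|) ∂P')) := by
  intro k t ht φ hφ hC
  obtain ⟨C, hC⟩ := hC
  have hmx : ∀ n t, AEMeasurable (x n t) P := fun n t => (hm n t).aemeasurable
  have hmB : ∀ t, AEMeasurable (fun ω => √θ * B t ω) P' := fun t =>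
    (hB.aemeasurable t).const_mul _
  have hcos : ∀ c : Fin k → ℝ, Tendsto (fun n => ∫ ω, ∏ j, Real.cos (c j * x n (t j) ω) ∂P)
      atTop (𝓝 (∫ ω, ∏ j, Real.cos (c j * (√θ * B (t j) ω)) ∂P')) := by
    intro c
    obtain ⟨L, hL⟩ := exists_lim θ k t ht c
    have h1 := hL Ω P x hmx h0 hrec
    have h2 := hL Ω' P' (fun _ t ω => √θ * B t ω) (fun _ t => hmB t)
      (fun _ => by
        filter_upwards [hB.eval_zero_ae_eq_zero] with ω hω
        rw [hω, mul_zero])
      (fun k s c t u r hs htu => by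
        simp only [bm_rec B hB hθ k s c t u r hs htu]
        exact tendsto_const_nhds)
    have h3 := tendsto_nhds_unique h2 tendsto_const_nhds
    rwa [h3] at h1
  have hlim : Tendsto (fun n => symPM P (fun j => x n (t j)) (fun j => hmx n (t j))) atTop
      (𝓝 (symPM P' (fun j ω => √θ * B (t j) ω) (fun j => hmB (t j)))) := by
    refine ProbabilityMeasure.tendsto_of_tendsto_charFun fun c => ?_
    simp only [coe_symPM]
    rw [charFun_symLaw (fun j => hmB (t j))]
    have h : ∀ n, charFun (symLaw P (fun j => x n (t j))) c =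
        ((∫ ω, ∏ j, Real.cos (c j * x n (t j) ω) ∂P : ℝ) : ℂ) :=
      fun n => charFun_symLaw (fun j => hmx n (t j)) c
    simp_rw [h]
    exact (Complex.continuous_ofReal.tendsto _).comp (hcos c)
  rw [ProbabilityMeasure.tendsto_iff_forall_integral_tendsto] at hlim
  have h4 := hlim (BoundedContinuousFunction.ofNormedAddCommGroup
    (fun y : EuclideanSpace ℝ (Fin k) => φ (fun j => |y j|)) (by fun_prop) C (fun y => hC _))
  simp only [BoundedContinuousFunction.coe_ofNormedAddCommGroup, coe_symPM] at h4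
  rw [integral_symLaw_abs (fun j => hmB (t j)) hφ hC] at h4
  have h5 : ∀ n, ∫ y : EuclideanSpace ℝ (Fin k), φ (fun j => |y j|)
      ∂(symLaw P (fun j => x n (t j))) = ∫ ω, φ (fun j => x n (t j) ω) ∂P := by
    intro n
    rw [integral_symLaw_abs (fun j => hmx n (t j)) hφ hC]
    simp only [abs_of_nonneg (hnn _ _ _)]
  simp_rw [h5] at h4
  have h6 : ∀ ω, (fun j => |√θ * B (t j) ω|) = fun j => √θ * |B (t j) ω| := by
    intro ω
    funext j
    rw [abs_mul, abs_of_nonneg (Real.sqrt_nonneg _)]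
  simp_rw [h6] at h4
  exact h4

end Fdd

end Pool.Agent.BW
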