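import Pool.Agent.Lib.MP_276d40_pr.MuBasic

open MeasureTheory ProbabilityTheory Filter Topology Finset
open scoped ENNReal NNReal

set_option linter.unusedSectionVars false
set_option linter.unusedVariables false

namespace Pool.Agent.BW

namespace FLim

/-- `z` and `z'` differ by at most `δ` on `[0, 1/δ]` -/
def Near (δ : ℝ) (z z' : ℝ≥0 → ℝ) : Prop :=
  ∀ t : ℝ≥0, (t : ℝ) * δ ≤ 1 → |z t - z' t| ≤ δ

lemma Near.mono {δ δ' : ℝ} (h : δ ≤ δ') {z z' : ℝ≥0 → ℝ} (hz : Near δ z z') : Near δ' z z' := by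
  intro t ht
  have h1 : (t : ℝ) * δ ≤ 1 := (mul_le_mul_of_nonneg_left h t.2).trans ht
  exact (hz t h1).trans h

lemma Near.symm {δ : ℝ} {z z' : ℝ≥0 → ℝ} (hz : Near δ z z') : Near δ z' z := by
  intro t ht
  rw [abs_sub_comm]
  exact hz t ht

lemma Near.trans {δ δ' : ℝ} (h0 : 0 ≤ δ) (h0' : 0 ≤ δ') {z z' z'' : ℝ≥0 → ℝ}
    (h1 : Near δ z z') (h2 : Near δ' z' z'') : Near (δ + δ') z z'' := by
  intro t ht
  have ht0 : (0 : ℝ) ≤ t := t.2
  have e1 : (t : ℝ) * δ ≤ 1 := by nlinarith [mul_nonneg ht0 h0']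
  have e2 : (t : ℝ) * δ' ≤ 1 := by nlinarith [mul_nonneg ht0 h0]
  calc |z t - z'' t| ≤ |z t - z' t| + |z' t - z'' t| := abs_sub_le _ _ _
    _ ≤ δ + δ' := add_le_add (h1 t e1) (h2 t e2)

lemma Near.refl {δ : ℝ} (h : 0 ≤ δ) (z : ℝ≥0 → ℝ) : Near δ z z := by
  intro t _
  simpa using h

/-- continuity on the cadlag functions, in terms of `Near` -/
def CD (G : (ℝ≥0 → ℝ) → ℝ) : Prop :=
  ∀ z, Cadlag z → ∀ η > 0, ∃ δ > 0, ∀ z', Cadlag z' → Near δ z z' → |G z - G z'| < η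

lemma CD.neg {G : (ℝ≥0 → ℝ) → ℝ} (h : CD G) : CD (fun z => - G z) := by
  intro z hz η hη
  obtain ⟨δ, hδ, H⟩ := h z hz η hη
  refine ⟨δ, hδ, fun z' hz' hn => ?_⟩
  have := H z' hz' hn
  rwa [neg_sub_neg, abs_sub_comm]

lemma cd_of_contD {F : (ℝ≥0 → ℝ) → ℝ} (hF : ContD F) : CD F := by
  intro z hz η hη
  have hz' : ContinuousWithinAt (fun x : UniformOnFun ℝ≥0 ℝ {K | IsCompact K} =>
    F (UniformOnFun.toFun {K | IsCompact K} x))
    {x | Cadlag (UniformOnFun.toFun {K | IsCompact K} x)}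
    (UniformOnFun.ofFun {K | IsCompact K} z) := hF _ hz
  have hB := UniformOnFun.hasBasis_nhds ℝ≥0 ℝ {K | IsCompact K}
    (UniformOnFun.ofFun {K | IsCompact K} z) ⟨∅, isCompact_empty⟩
    (fun K hK L hL => ⟨K ∪ L, IsCompact.union hK hL, Set.subset_union_left,
      Set.subset_union_right⟩)
  have hN := (nhdsWithin_hasBasis hB
    {x | Cadlag (UniformOnFun.toFun {K | IsCompact K} x)})
  have h1 := hz' (Metric.ball_mem_nhds _ hη)
  obtain ⟨⟨K, V⟩, ⟨hK, hV⟩, hsub⟩ := hN.mem_iff.mp h1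
  obtain ⟨ε, hε, hεV⟩ := Metric.mem_uniformity_dist.mp hV
  obtain ⟨T, hT⟩ := (hK : IsCompact K).isBounded.subset_closedBall (0 : ℝ≥0)
  have hTK : ∀ t ∈ K, (t : ℝ) ≤ |T| := by
    intro t ht
    have := hT ht
    rw [Metric.mem_closedBall, NNReal.dist_eq] at this
    simp only [NNReal.coe_zero, sub_zero] at this
    exact (le_abs_self _).trans (this.trans (le_abs_self T))
  set δ : ℝ := min (ε / 2) (1 / (|T| + 1)) with hδ
  have hT1 : 0 < |T| + 1 := by positivity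
  have hδ0 : 0 < δ := lt_min (by positivity) (by positivity)
  refine ⟨δ, hδ0, fun z' hz' hn => ?_⟩
  have hmem : UniformOnFun.ofFun {K | IsCompact K} z' ∈
      {g | (g, UniformOnFun.ofFun {K | IsCompact K} z) ∈
        UniformOnFun.gen {K | IsCompact K} K V} ∩
      {x | Cadlag (UniformOnFun.toFun {K | IsCompact K} x)} := by
    refine ⟨?_, hz'⟩
    intro t ht
    apply hεV
    have h3 : (t : ℝ) * δ ≤ 1 := by
      calc (t : ℝ) * δ ≤ (|T| + 1) * (1 / (|T| + 1)) := by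
            apply mul_le_mul _ (min_le_right _ _) hδ0.le hT1.le
            linarith [hTK t ht]
        _ = 1 := by field_simp
    have h4 := hn t h3
    have h5 : δ ≤ ε / 2 := min_le_left _ _
    change dist (z' t) (z t) < ε
    rw [dist_comm, Real.dist_eq]
    linarith
  have h6 := hsub hmem
  have h7 : dist (F z') (F z) < η := h6
  rw [Real.dist_eq, abs_sub_comm] at h7
  exact h7

/-- step functions are cadlag -/
lemma cadlag_step (n : ℕ) (z : ℕ → ℝ) : Cadlag (fun t => z ⌊(n : ℝ≥0) * t⌋₊) := by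
  have hmono : Monotone fun t : ℝ≥0 => ⌊(n : ℝ≥0) * t⌋₊ := by
    intro s t hst
    exact Nat.floor_mono (mul_le_mul_of_nonneg_left hst zero_le)
  intro t
  refine ⟨?_, ?_⟩
  · have hev : ∀ᶠ s in 𝓝[≥] t, ⌊(n : ℝ≥0) * s⌋₊ = ⌊(n : ℝ≥0) * t⌋₊ := by
      have h1 : (n : ℝ≥0) * t < (⌊(n : ℝ≥0) * t⌋₊ : ℝ≥0) + 1 := Nat.lt_floor_add_one _
      have hc : Continuous fun s : ℝ≥0 => (n : ℝ≥0) * s := by fun_prop
      have h2 : ∀ᶠ s in 𝓝 t, (n : ℝ≥0) * s < (⌊(n : ℝ≥0) * t⌋₊ : ℝ≥0) + 1 :=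
        hc.continuousAt.eventually (eventually_lt_nhds h1)
      filter_upwards [nhdsWithin_le_nhds h2, self_mem_nhdsWithin] with s hs hst
      apply le_antisymm
      · have : ⌊(n : ℝ≥0) * s⌋₊ < ⌊(n : ℝ≥0) * t⌋₊ + 1 := by
          rw [Nat.floor_lt zero_le]
          push_cast
          exact hs
        omega
      · exact hmono hst
    have : Tendsto (fun s => z ⌊(n : ℝ≥0) * s⌋₊) (𝓝[≥] t) (𝓝 (z ⌊(n : ℝ≥0) * t⌋₊)) := by
      apply Tendsto.congr' _ tendsto_const_nhds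
      filter_upwards [hev] with s hs
      rw [hs]
    exact this
  · by_cases ht : t = 0
    · subst ht
      refine ⟨0, ?_⟩
      have : 𝓝[<] (0 : ℝ≥0) = ⊥ := by
        have : Set.Iio (0 : ℝ≥0) = ∅ := by
          ext s; simp
        rw [this, nhdsWithin_empty]
      rw [this]
      exact tendsto_bot
    · have ht0 : 0 < t := pos_iff_ne_zero.mpr ht
      set S : Set ℕ := (fun s : ℝ≥0 => ⌊(n : ℝ≥0) * s⌋₊) '' Set.Iio t with hS
      have hSn : S.Nonempty := ⟨_, ⟨0, ht0, rfl⟩⟩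
      have hSb : BddAbove S := by
        refine ⟨⌊(n : ℝ≥0) * t⌋₊, ?_⟩
        rintro _ ⟨s, hs, rfl⟩
        exact hmono (le_of_lt hs)
      obtain ⟨s0, hs0, hs0m⟩ := Nat.sSup_mem hSn hSb
      refine ⟨z (sSup S), ?_⟩
      have hev : ∀ᶠ s in 𝓝[<] t, ⌊(n : ℝ≥0) * s⌋₊ = sSup S := by
        have h3 : ∀ᶠ s in 𝓝[<] t, s0 < s := by
          apply nhdsWithin_le_nhds
          exact eventually_gt_nhds hs0
        filter_upwards [h3, self_mem_nhdsWithin] with s hs hst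
        apply le_antisymm
        · exact le_csSup hSb ⟨s, hst, rfl⟩
        · rw [← hs0m]
          exact hmono hs.le
      apply Tendsto.congr' _ tendsto_const_nhds
      filter_upwards [hev] with s hs
      rw [hs]

lemma cadlag_of_continuous {y : ℝ≥0 → ℝ} (h : Continuous y) : Cadlag y := by
  intro t
  exact ⟨h.continuousAt.continuousWithinAt, y t, h.continuousAt.continuousWithinAt⟩

lemma cont_step {κ : Type} (g : ℝ≥0 → κ)
    (hfin : ∀ δ > (0 : ℝ), (g '' {t : ℝ≥0 | (t : ℝ) * δ ≤ 1}).Finite)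
    (hcad : ∀ z : κ → ℝ, Cadlag (fun t => z (g t))) {G : (ℝ≥0 → ℝ) → ℝ} (hG : CD G) :
    Continuous fun z : κ → ℝ => G (fun t => z (g t)) := by
  rw [continuous_iff_continuousAt]
  intro z
  rw [Metric.continuousAt_iff']
  intro η hη
  obtain ⟨δ, hδ, H⟩ := hG _ (hcad z) η hη
  have h1 : ∀ᶠ w in 𝓝 z, ∀ k ∈ g '' {t : ℝ≥0 | (t : ℝ) * δ ≤ 1}, |z k - w k| < δ := by
    rw [eventually_all_finite (hfin δ hδ)]
    intro k _
    have hc : Continuous fun w : κ → ℝ => |z k - w k| := by fun_prop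
    have : (fun w : κ → ℝ => |z k - w k|) z < δ := by simpa using hδ
    exact hc.continuousAt.eventually (eventually_lt_nhds this)
  filter_upwards [h1] with w hw
  rw [Real.dist_eq, abs_sub_comm]
  apply H _ (hcad w)
  intro t ht
  exact (hw (g t) ⟨t, ht, rfl⟩).le

lemma step_fin (n : ℕ) (δ : ℝ) (hδ : 0 < δ) :
    ((fun t : ℝ≥0 => ⌊(n : ℝ≥0) * t⌋₊) '' {t : ℝ≥0 | (t : ℝ) * δ ≤ 1}).Finite := by
  apply (Set.finite_Iic ⌊(n : ℝ) * (1 / δ)⌋₊).subset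
  rintro _ ⟨t, ht, rfl⟩
  simp only [Set.mem_ofPred_eq] at ht
  rw [Set.mem_Iic]
  apply Nat.le_floor
  have h1 : ((⌊(n : ℝ≥0) * t⌋₊ : ℝ≥0)) ≤ (n : ℝ≥0) * t := Nat.floor_le zero_le
  have h2 : ((⌊(n : ℝ≥0) * t⌋₊ : ℝ)) ≤ (n : ℝ) * t := by exact_mod_cast h1
  refine h2.trans ?_
  apply mul_le_mul_of_nonneg_left _ (Nat.cast_nonneg n)
  rw [le_div_iff₀ hδ]
  exact ht

lemma cont_floor (n : ℕ) {G : (ℝ≥0 → ℝ) → ℝ} (hG : CD G) :
    Continuous fun z : ℕ → ℝ => G (fun t => z ⌊(n : ℝ≥0) * t⌋₊) :=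
  cont_step (fun t : ℝ≥0 => ⌊(n : ℝ≥0) * t⌋₊) (step_fin n) (cadlag_step n) hG

/-- grid index, frozen after time `j` -/
noncomputable def gr (j : ℕ) (t : ℝ≥0) : Fin (j * j + 1) :=
  ⟨min ⌊(j : ℝ≥0) * t⌋₊ (j * j), Nat.lt_succ_of_le (min_le_right _ _)⟩

lemma cadlag_gr (j : ℕ) (z : Fin (j * j + 1) → ℝ) : Cadlag (fun t => z (gr j t)) :=
  cadlag_step j (fun k => z ⟨min k (j * j), Nat.lt_succ_of_le (min_le_right _ _)⟩)

lemma cont_gr (j : ℕ) {G : (ℝ≥0 → ℝ) → ℝ} (hG : CD G) :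
    Continuous fun z : Fin (j * j + 1) → ℝ => G (fun t => z (gr j t)) :=
  cont_step (gr j) (fun δ hδ => Set.toFinite _) (cadlag_gr j) hG

/-- Lipschitz envelope from below -/
noncomputable def env (F : (ℝ≥0 → ℝ) → ℝ) (k : ℝ) (z : ℝ≥0 → ℝ) : ℝ :=
  sInf {x | ∃ z' : ℝ≥0 → ℝ, ∃ ε : ℝ, Cadlag z' ∧ 0 < ε ∧ Near ε z z' ∧ x = F z' + k * ε}

section env

variable {F : (ℝ≥0 → ℝ) → ℝ} {C k : ℝ}

lemma env_lb (hC : ∀ z, |F z| ≤ C) (hk : 0 ≤ k) (z : ℝ≥0 → ℝ) :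
    ∀ x ∈ {x | ∃ z' : ℝ≥0 → ℝ, ∃ ε : ℝ, Cadlag z' ∧ 0 < ε ∧ Near ε z z' ∧ x = F z' + k * ε},
      -C ≤ x := by
  rintro x ⟨z', ε, _, hε, _, rfl⟩
  have h1 := neg_le_of_abs_le (hC z')
  have h2 : 0 ≤ k * ε := mul_nonneg hk hε.le
  linarith

lemma env_bdd (hC : ∀ z, |F z| ≤ C) (hk : 0 ≤ k) (z : ℝ≥0 → ℝ) :
    BddBelow {x | ∃ z' : ℝ≥0 → ℝ, ∃ ε : ℝ, Cadlag z' ∧ 0 < ε ∧ Near ε z z' ∧
      x = F z' + k * ε} :=
  ⟨-C, env_lb hC hk z⟩

lemma env_ne {z : ℝ≥0 → ℝ} (hz : Cadlag z) :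
    {x | ∃ z' : ℝ≥0 → ℝ, ∃ ε : ℝ, Cadlag z' ∧ 0 < ε ∧ Near ε z z' ∧
      x = F z' + k * ε}.Nonempty :=
  ⟨F z + k * 1, z, 1, hz, one_pos, Near.refl zero_le_one z, rfl⟩

lemma env_le (hC : ∀ z, |F z| ≤ C) (hk : 0 ≤ k) {z : ℝ≥0 → ℝ} (hz : Cadlag z) :
    env F k z ≤ F z := by
  apply le_of_forall_pos_le_add
  intro η hη
  have hη' : 0 < η / (k + 1) := by positivity
  have h1 : env F k z ≤ F z + k * (η / (k + 1)) :=
    csInf_le (env_bdd hC hk z) ⟨z, η / (k + 1), hz, hη', Near.refl hη'.le z, rfl⟩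
  have h2 : k * (η / (k + 1)) ≤ η := by
    rw [← mul_div_assoc, div_le_iff₀ (by positivity)]
    nlinarith
  linarith

lemma env_ge (hC : ∀ z, |F z| ≤ C) (hk : 0 ≤ k) {z : ℝ≥0 → ℝ} (hz : Cadlag z) :
    -C ≤ env F k z :=
  le_csInf (env_ne hz) (env_lb hC hk z)

lemma env_abs (hC : ∀ z, |F z| ≤ C) (hk : 0 ≤ k) {z : ℝ≥0 → ℝ} (hz : Cadlag z) :
    |env F k z| ≤ C :=
  abs_le.mpr ⟨env_ge hC hk hz, (env_le hC hk hz).trans (le_of_abs_le (hC z))⟩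

lemma env_lip1 (hC : ∀ z, |F z| ≤ C) (hk : 0 ≤ k) {z w : ℝ≥0 → ℝ} (hz : Cadlag z) {δ : ℝ}
    (hδ : 0 ≤ δ) (hn : Near δ z w) : env F k w ≤ env F k z + k * δ := by
  have h : env F k w - k * δ ≤ env F k z := by
    apply le_csInf (env_ne hz)
    rintro x ⟨z', ε, hz', hε, hn', rfl⟩
    have h1 : env F k w ≤ F z' + k * (δ + ε) :=
      csInf_le (env_bdd hC hk w) ⟨z', δ + ε, hz', by positivity,
        hn.symm.trans hδ hε.le hn', rfl⟩
    rw [mul_add] at h1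
    linarith
  linarith

lemma env_lip (hC : ∀ z, |F z| ≤ C) (hk : 0 ≤ k) {z w : ℝ≥0 → ℝ} (hz : Cadlag z)
    (hw : Cadlag w) {δ : ℝ} (hδ : 0 ≤ δ) (hn : Near δ z w) :
    |env F k z - env F k w| ≤ k * δ := by
  have h1 := env_lip1 hC hk hz hδ hn
  have h2 := env_lip1 hC hk hw hδ hn.symm
  rw [abs_le]
  constructor <;> linarith

lemma env_cd (hC : ∀ z, |F z| ≤ C) (hk : 0 ≤ k) : CD (env F k) := by
  intro z hz η hη
  refine ⟨η / (k + 1), by positivity, fun z' hz' hn => ?_⟩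
  refine (env_lip hC hk hz hz' (by positivity) hn).trans_lt ?_
  rw [← mul_div_assoc, div_lt_iff₀ (by positivity)]
  nlinarith

lemma env_tendsto (hF : CD F) (hC : ∀ z, |F z| ≤ C) {z : ℝ≥0 → ℝ} (hz : Cadlag z) :
    Tendsto (fun m : ℕ => env F m z) atTop (𝓝 (F z)) := by
  rw [Metric.tendsto_atTop]
  intro η hη
  obtain ⟨δ, hδ, H⟩ := hF z hz (η / 2) (by positivity)
  obtain ⟨N, hN⟩ := exists_nat_ge (2 * C / δ)
  refine ⟨N, fun m hm => ?_⟩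
  have hm0 : (0 : ℝ) ≤ m := Nat.cast_nonneg m
  have hmδ : 2 * C ≤ (m : ℝ) * δ := by
    have : 2 * C / δ ≤ (m : ℝ) := hN.trans (by exact_mod_cast hm)
    rwa [div_le_iff₀ hδ] at this
  have h1 : env F m z ≤ F z := env_le hC hm0 hz
  have h2 : F z - η / 2 ≤ env F m z := by
    apply le_csInf (env_ne hz)
    rintro x ⟨z', ε, hz', hε, hn', rfl⟩
    rcases le_total ε δ with hle | hle
    · have h3 := H z' hz' (hn'.mono hle)
      have h4 := (abs_lt.mp h3).2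
      have h5 : 0 ≤ (m : ℝ) * ε := by positivity
      linarith
    · have h3 : (m : ℝ) * δ ≤ m * ε := mul_le_mul_of_nonneg_left hle hm0
      have h4 := neg_le_of_abs_le (hC z')
      have h5 := le_of_abs_le (hC z)
      linarith
  rw [Real.dist_eq, abs_lt]
  constructor <;> linarith

end env

section main

variable {Ω : Type} [MeasurableSpace Ω] {P : Measure Ω} [IsProbabilityMeasure P]
  {Ω' : Type} [MeasurableSpace Ω'] {P' : Measure Ω'} [IsProbabilityMeasure P']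

/-- times of the grid -/
noncomputable def gt (j : ℕ) (i : Fin (j * j + 1)) : ℝ≥0 := (i : ℕ) / (j : ℝ≥0)

lemma gt_mono (j : ℕ) : Monotone (gt j) := by
  intro a b hab
  unfold gt
  gcongr
  exact_mod_cast hab

lemma grid_close {δ : ℝ} (hδ : 0 < δ) {j : ℕ} (hj1 : 1 / δ < (j : ℝ)) {t : ℝ≥0}
    (ht : (t : ℝ) * δ ≤ 1) :
    ((gt j (gr j t) : ℝ≥0) : ℝ) ≤ t ∧ (t : ℝ) < ((gt j (gr j t) : ℝ≥0) : ℝ) + 1 / j := by
  have hj0 : (0 : ℝ) < j := lt_trans (by positivity) hj1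
  have ht1 : (t : ℝ) ≤ 1 / δ := by rwa [le_div_iff₀ hδ]
  have hfl : ((⌊(j : ℝ≥0) * t⌋₊ : ℝ)) ≤ (j : ℝ) * t := by
    have h1 : ((⌊(j : ℝ≥0) * t⌋₊ : ℝ≥0)) ≤ (j : ℝ≥0) * t := Nat.floor_le zero_le
    exact_mod_cast h1
  have hfl2 : (j : ℝ) * t < (⌊(j : ℝ≥0) * t⌋₊ : ℝ) + 1 := by
    have h1 : (j : ℝ≥0) * t < (⌊(j : ℝ≥0) * t⌋₊ : ℝ≥0) + 1 := Nat.lt_floor_add_one _
    exact_mod_cast h1
  have hmin : ⌊(j : ℝ≥0) * t⌋₊ ≤ j * j := by
    have : ((⌊(j : ℝ≥0) * t⌋₊ : ℝ)) ≤ (j : ℝ) * j :=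
      hfl.trans (mul_le_mul_of_nonneg_left (ht1.trans hj1.le) hj0.le)
    exact_mod_cast this
  have hs : ((gt j (gr j t) : ℝ≥0) : ℝ) = (⌊(j : ℝ≥0) * t⌋₊ : ℝ) / j := by
    unfold gt gr
    simp [min_eq_left hmin]
  rw [hs]
  constructor
  · rw [div_le_iff₀ hj0]
    linarith
  · rw [← add_div, lt_div_iff₀ hj0]
    linarith

lemma near_grid {y : ℝ≥0 → ℝ} (hy : Continuous y) {δ : ℝ} (hδ : 0 < δ) :
    ∀ᶠ j : ℕ in atTop, Near δ y (fun t => y (gt j (gr j t))) := by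
  set T : ℝ≥0 := Real.toNNReal (1 / δ) with hT
  have hTδ : (T : ℝ) = 1 / δ := Real.coe_toNNReal _ (by positivity)
  have hK : IsCompact (Set.Icc (0 : ℝ≥0) T) := isCompact_Icc
  have hu : UniformContinuousOn y (Set.Icc (0 : ℝ≥0) T) :=
    hK.uniformContinuousOn_of_continuous hy.continuousOn
  rw [Metric.uniformContinuousOn_iff] at hu
  obtain ⟨β, hβ, H⟩ := hu δ hδ
  obtain ⟨N, hN⟩ := exists_nat_gt (max (1 / δ) (1 / β))
  filter_upwards [eventually_ge_atTop N] with j hj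
  have hjN : (N : ℝ) ≤ j := by exact_mod_cast hj
  have hj1 : 1 / δ < (j : ℝ) := (le_max_left _ _).trans_lt (hN.trans_le hjN)
  have hj2 : 1 / β < (j : ℝ) := (le_max_right _ _).trans_lt (hN.trans_le hjN)
  have hj0 : (0 : ℝ) < j := lt_trans (by positivity) hj1
  intro t ht
  have ht1 : (t : ℝ) ≤ 1 / δ := by rwa [le_div_iff₀ hδ]
  obtain ⟨hle, hlt'⟩ := grid_close hδ hj1 ht
  have h4 : 1 / (j : ℝ) < β := by
    rw [div_lt_iff₀ hj0]
    rw [div_lt_iff₀ hβ] at hj2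
    linarith
  have hd : dist t (gt j (gr j t)) < β := by
    rw [NNReal.dist_eq, abs_of_nonneg (by linarith)]
    linarith
  have htT : t ∈ Set.Icc (0 : ℝ≥0) T := by
    refine ⟨zero_le, ?_⟩
    rw [← NNReal.coe_le_coe, hTδ]
    exact ht1
  have hsT : gt j (gr j t) ∈ Set.Icc (0 : ℝ≥0) T := by
    refine ⟨zero_le, ?_⟩
    rw [← NNReal.coe_le_coe, hTδ]
    exact hle.trans ht1
  have := H t htT _ hsT hd
  rw [Real.dist_eq] at this
  exact this.le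

lemma near_close {j n : ℕ} {β δ : ℝ} (hδ : 0 < δ) (hβ : 0 < β) (hj1 : 1 / δ < (j : ℝ))
    (hj2 : 2 / β < (j : ℝ)) (hn : 2 / β < (n : ℝ)) {a b : ℕ → ℝ}
    (h1 : ∀ s t : ℕ, (s : ℝ) ≤ 1 / δ * n → (t : ℝ) ≤ 1 / δ * n → |(s : ℝ) - t| ≤ β * n →
      |a s - a t| ≤ δ / 2)
    (h2 : ∀ t : ℕ, (t : ℝ) ≤ 1 / δ * n → |b t - a t| ≤ δ / 2) :
    Near δ (fun t => b ⌊(n : ℝ≥0) * t⌋₊) (fun t => a ⌊(n : ℝ≥0) * gt j (gr j t)⌋₊) := by
  intro t ht
  have hj0 : (0 : ℝ) < j := lt_trans (by positivity) hj1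
  have hn0 : (0 : ℝ) < n := lt_trans (by positivity) hn
  have ht1 : (t : ℝ) ≤ 1 / δ := by rwa [le_div_iff₀ hδ]
  obtain ⟨hle, hlt⟩ := grid_close hδ hj1 ht
  set t' : ℝ≥0 := gt j (gr j t) with ht'
  have fl : ∀ r : ℝ≥0, ((⌊(n : ℝ≥0) * r⌋₊ : ℝ)) ≤ (n : ℝ) * r := by
    intro r
    have h1 : ((⌊(n : ℝ≥0) * r⌋₊ : ℝ≥0)) ≤ (n : ℝ≥0) * r := Nat.floor_le zero_le
    exact_mod_cast h1
  have fl2 : ∀ r : ℝ≥0, (n : ℝ) * r < (⌊(n : ℝ≥0) * r⌋₊ : ℝ) + 1 := by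
    intro r
    have h1 : (n : ℝ≥0) * r < (⌊(n : ℝ≥0) * r⌋₊ : ℝ≥0) + 1 := Nat.lt_floor_add_one _
    exact_mod_cast h1
  have e1 := fl t
  have e2 := fl2 t
  have e3 := fl t'
  have e4 := fl2 t'
  have hnt : (n : ℝ) * t ≤ 1 / δ * n := by
    rw [mul_comm]
    exact mul_le_mul_of_nonneg_right ht1 hn0.le
  have hnt' : (n : ℝ) * t' ≤ n * t := mul_le_mul_of_nonneg_left hle hn0.le
  have hnt2 : (n : ℝ) * t ≤ n * t' + n * (1 / j) := by
    rw [← mul_add]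
    exact mul_le_mul_of_nonneg_left hlt.le hn0.le
  have hj3 : 1 / (j : ℝ) ≤ β / 2 := by
    rw [div_lt_iff₀ hβ] at hj2
    rw [div_le_iff₀ hj0]
    linarith
  have hn3 : 1 ≤ β / 2 * n := by
    rw [div_lt_iff₀ hβ] at hn
    linarith
  have hnj : (n : ℝ) * (1 / j) ≤ β / 2 * n := by
    rw [mul_comm]
    exact mul_le_mul_of_nonneg_right hj3 hn0.le
  have hd : |((⌊(n : ℝ≥0) * t⌋₊ : ℕ) : ℝ) - (⌊(n : ℝ≥0) * t'⌋₊ : ℕ)| ≤ β * n := by
    rw [abs_le]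
    constructor <;> linarith
  have r1 := h2 ⌊(n : ℝ≥0) * t⌋₊ (e1.trans hnt)
  have r2 := h1 ⌊(n : ℝ≥0) * t⌋₊ ⌊(n : ℝ≥0) * t'⌋₊ (e1.trans hnt) ((e3.trans hnt').trans hnt) hd
  calc |b ⌊(n : ℝ≥0) * t⌋₊ - a ⌊(n : ℝ≥0) * t'⌋₊|
      ≤ |b ⌊(n : ℝ≥0) * t⌋₊ - a ⌊(n : ℝ≥0) * t⌋₊| +
        |a ⌊(n : ℝ≥0) * t⌋₊ - a ⌊(n : ℝ≥0) * t'⌋₊| := abs_sub_le _ _ _
    _ ≤ δ := by linarith

lemma cd_grid {y : ℝ≥0 → ℝ} (hy : Continuous y) {G : (ℝ≥0 → ℝ) → ℝ} (hG : CD G) :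
    Tendsto (fun j : ℕ => G (fun t => y (gt j (gr j t)))) atTop (𝓝 (G y)) := by
  rw [Metric.tendsto_atTop']
  intro η hη
  obtain ⟨δ, hδ, H⟩ := hG y (cadlag_of_continuous hy) η hη
  obtain ⟨N, hN⟩ := eventually_atTop.mp (near_grid hy hδ)
  refine ⟨N, fun j hj => ?_⟩
  have := H _ (cadlag_gr j (fun i => y (gt j i))) (hN j hj.le)
  rw [Real.dist_eq, abs_sub_comm]
  exact this

lemma aem_Y (Y : ℝ≥0 → Ω' → ℝ) (hYm : ∀ t, AEMeasurable (Y t) P')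
    (hYc : ∀ᵐ ω ∂P', Continuous fun t => Y t ω) {G : (ℝ≥0 → ℝ) → ℝ} (hG : CD G) :
    (∀ j : ℕ, AEMeasurable (fun ω => G (fun t => Y (gt j (gr j t)) ω)) P') ∧
      AEMeasurable (fun ω => G (fun t => Y t ω)) P' := by
  have h1 : ∀ j : ℕ, AEMeasurable (fun ω => G (fun t => Y (gt j (gr j t)) ω)) P' := by
    intro j
    exact (cont_gr j hG).measurable.comp_aemeasurable
      (aemeasurable_pi_lambda (fun ω i => Y (gt j i) ω) (fun i => hYm _))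
  refine ⟨h1, aemeasurable_of_tendsto_metrizable_ae atTop h1 ?_⟩
  filter_upwards [hYc] with ω hω
  exact cd_grid hω hG

lemma bdd_integrable {Ω : Type} [MeasurableSpace Ω] {P : Measure Ω} [IsProbabilityMeasure P]
    {f : Ω → ℝ} (hf : AEMeasurable f P) {C : ℝ} (hC : ∀ᵐ ω ∂P, |f ω| ≤ C) : Integrable f P :=
  Integrable.of_bound hf.aestronglyMeasurable C (by simpa only [Real.norm_eq_abs] using hC)

set_option maxHeartbeats 1000000 in
lemma lower (u v : ℕ → ℕ → Ω → ℝ) (hu : ∀ n k, Measurable (u n k))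
    (hv : ∀ n k, Measurable (v n k)) (Y : ℝ≥0 → Ω' → ℝ) (hYm : ∀ t, AEMeasurable (Y t) P')
    (hYc : ∀ᵐ ω ∂P', Continuous fun t => Y t ω)
    (hfdd : ∀ (k : ℕ) (t : Fin k → ℝ≥0), Monotone t → ∀ φ : (Fin k → ℝ) → ℝ, Continuous φ →
      (∃ C, ∀ y, |φ y| ≤ C) →
      Tendsto (fun n : ℕ => ∫ ω, φ (fun j => u n ⌊(n : ℝ≥0) * t j⌋₊ ω) ∂P) atTop
        (𝓝 (∫ ω, φ (fun j => Y (t j) ω) ∂P')))
    (hosc : ∀ T > (0 : ℝ), ∀ δ > (0 : ℝ), ∀ η > (0 : ℝ), ∃ β > (0 : ℝ), ∀ᶠ n : ℕ in atTop,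
      P.real {ω | ∃ s t : ℕ, (s : ℝ) ≤ T * n ∧ (t : ℝ) ≤ T * n ∧ |(s : ℝ) - t| ≤ β * n ∧
        δ < |u n s ω - u n t ω|} ≤ η)
    (hclose : ∀ T > (0 : ℝ), ∀ δ > (0 : ℝ), Tendsto (fun n : ℕ =>
      P.real {ω | ∃ t : ℕ, (t : ℝ) ≤ T * n ∧ δ < |v n t ω - u n t ω|}) atTop (𝓝 0))
    {F : (ℝ≥0 → ℝ) → ℝ} (hF : CD F) {C : ℝ} (hC : ∀ z, |F z| ≤ C) {η : ℝ} (hη : 0 < η) :
    ∀ᶠ n : ℕ in atTop, ∫ ω, F (fun t => Y t ω) ∂P' - η ≤
      ∫ ω, F (fun t => v n ⌊(n : ℝ≥0) * t⌋₊ ω) ∂P := by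
  have hC0 : 0 ≤ C := (abs_nonneg _).trans (hC (fun _ => 0))
  -- choice of the level of the envelope
  have hk : Tendsto (fun m : ℕ => ∫ ω, env F m (fun t => Y t ω) ∂P') atTop
      (𝓝 (∫ ω, F (fun t => Y t ω) ∂P')) := by
    apply tendsto_integral_of_dominated_convergence (fun _ => C)
    · intro m
      exact (aem_Y Y hYm hYc (env_cd hC (Nat.cast_nonneg m))).2.aestronglyMeasurable
    · exact integrable_const C
    · intro m
      filter_upwards [hYc] with ω hω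
      rw [Real.norm_eq_abs]
      exact env_abs hC (Nat.cast_nonneg m) (cadlag_of_continuous hω)
    · filter_upwards [hYc] with ω hω
      exact env_tendsto hF hC (cadlag_of_continuous hω)
  obtain ⟨m, hm⟩ := (hk.eventually (Metric.ball_mem_nhds _ (by positivity : 0 < η / 6))).exists
  rw [Real.dist_eq] at hm
  have hm0 : (0 : ℝ) ≤ m := Nat.cast_nonneg m
  set G := env F (m : ℝ) with hG
  have hGcd : CD G := env_cd hC hm0
  set δ : ℝ := η / 6 / (m + 1) with hδd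
  have hδ : 0 < δ := by positivity
  have hmδ : (m : ℝ) * δ ≤ η / 6 := by
    rw [hδd, ← mul_div_assoc, div_le_iff₀ (by positivity)]
    nlinarith
  set η' : ℝ := η / 6 / (2 * C + 1) with hη'd
  have hη' : 0 < η' := by positivity
  have hCη : 2 * C * η' ≤ η / 6 := by
    rw [hη'd, ← mul_div_assoc, div_le_iff₀ (by positivity)]
    nlinarith
  obtain ⟨β, hβ, hA⟩ := hosc (1 / δ) (by positivity) (δ / 2) (by positivity) η' hη'
  have hB := (hclose (1 / δ) (by positivity) (δ / 2) (by positivity)).eventually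
    (Metric.ball_mem_nhds _ hη')
  -- choice of the grid
  have hj : Tendsto (fun j : ℕ => ∫ ω, G (fun t => Y (gt j (gr j t)) ω) ∂P') atTop
      (𝓝 (∫ ω, G (fun t => Y t ω) ∂P')) := by
    apply tendsto_integral_of_dominated_convergence (fun _ => C)
    · intro j
      exact ((aem_Y Y hYm hYc hGcd).1 j).aestronglyMeasurable
    · exact integrable_const C
    · intro j
      filter_upwards with ω
      rw [Real.norm_eq_abs]
      exact env_abs hC hm0 (cadlag_gr j (fun i => Y (gt j i) ω))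
    · filter_upwards [hYc] with ω hω
      exact cd_grid hω hGcd
  obtain ⟨N1, hN1⟩ := exists_nat_gt (max (1 / δ) (2 / β))
  obtain ⟨j, hj1, hjN⟩ := ((hj.eventually (Metric.ball_mem_nhds _
    (by positivity : 0 < η / 6))).and (eventually_ge_atTop N1)).exists
  rw [Real.dist_eq] at hj1
  have hjN' : (N1 : ℝ) ≤ j := by exact_mod_cast hjN
  have hjδ : 1 / δ < (j : ℝ) := (le_max_left _ _).trans_lt (hN1.trans_le hjN')
  have hjβ : 2 / β < (j : ℝ) := (le_max_right _ _).trans_lt (hN1.trans_le hjN')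
  have hfd := (hfdd (j * j + 1) (gt j) (gt_mono j) (fun x => G (fun t => x (gr j t)))
    (cont_gr j hGcd) ⟨C, fun y => env_abs hC hm0 (cadlag_gr j y)⟩).eventually
    (Metric.ball_mem_nhds _ (by positivity : 0 < η / 6))
  filter_upwards [hA, hB, hfd, eventually_ge_atTop N1] with n hAn hBn hfn hnN
  rw [Real.dist_eq] at hBn hfn
  rw [sub_zero, abs_of_nonneg measureReal_nonneg] at hBn
  have hnN' : (N1 : ℝ) ≤ n := by exact_mod_cast hnN
  have hnβ : 2 / β < (n : ℝ) := (le_max_right _ _).trans_lt (hN1.trans_le hnN')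
  -- measurability
  have mF : Measurable (fun ω => F (fun t => v n ⌊(n : ℝ≥0) * t⌋₊ ω)) :=
    (cont_floor n hF).measurable.comp (measurable_pi_lambda (fun ω k => v n k ω) (hv n))
  have mG : Measurable (fun ω => G (fun t => v n ⌊(n : ℝ≥0) * t⌋₊ ω)) :=
    (cont_floor n hGcd).measurable.comp (measurable_pi_lambda (fun ω k => v n k ω) (hv n))
  have mL : Measurable (fun ω => G (fun t => u n ⌊(n : ℝ≥0) * gt j (gr j t)⌋₊ ω)) :=
    (cont_gr j hGcd).measurable.comp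
      (measurable_pi_lambda (fun ω i => u n ⌊(n : ℝ≥0) * gt j i⌋₊ ω) (fun i => hu n _))
  have iF : Integrable (fun ω => F (fun t => v n ⌊(n : ℝ≥0) * t⌋₊ ω)) P :=
    bdd_integrable mF.aemeasurable (C := C) (Eventually.of_forall fun ω => hC _)
  have cV : ∀ ω, Cadlag (fun t => v n ⌊(n : ℝ≥0) * t⌋₊ ω) := fun ω =>
    cadlag_step n (fun k => v n k ω)
  have cL : ∀ ω, Cadlag (fun t => u n ⌊(n : ℝ≥0) * gt j (gr j t)⌋₊ ω) := fun ω =>
    cadlag_gr j (fun i => u n ⌊(n : ℝ≥0) * gt j i⌋₊ ω)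
  have iG : Integrable (fun ω => G (fun t => v n ⌊(n : ℝ≥0) * t⌋₊ ω)) P :=
    bdd_integrable mG.aemeasurable (C := C)
      (Eventually.of_forall fun ω => env_abs hC hm0 (cV ω))
  have iL : Integrable (fun ω => G (fun t => u n ⌊(n : ℝ≥0) * gt j (gr j t)⌋₊ ω)) P :=
    bdd_integrable mL.aemeasurable (C := C)
      (Eventually.of_forall fun ω => env_abs hC hm0 (cL ω))
  have hFG : ∫ ω, G (fun t => v n ⌊(n : ℝ≥0) * t⌋₊ ω) ∂P ≤
      ∫ ω, F (fun t => v n ⌊(n : ℝ≥0) * t⌋₊ ω) ∂P :=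
    integral_mono iG iF fun ω => env_le hC hm0 (cV ω)
  -- the exceptional set
  set A : Set Ω := {ω | ∃ s t : ℕ, (s : ℝ) ≤ 1 / δ * n ∧ (t : ℝ) ≤ 1 / δ * n ∧
    |(s : ℝ) - t| ≤ β * n ∧ δ / 2 < |u n s ω - u n t ω|} with hAd
  set B : Set Ω := {ω | ∃ t : ℕ, (t : ℝ) ≤ 1 / δ * n ∧ δ / 2 < |v n t ω - u n t ω|} with hBd
  set S : Set Ω := toMeasurable P (A ∪ B) with hS
  have hSm : MeasurableSet S := measurableSet_toMeasurable _ _
  have hSP : P.real S ≤ 2 * η' := by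
    have h1 : P.real S = P.real (A ∪ B) := by
      rw [Measure.real, Measure.real, hS, measure_toMeasurable]
    rw [h1]
    have h2 : P.real (A ∪ B) ≤ P.real A + P.real B := measureReal_union_le _ _
    linarith
  have hpt : ∀ ω, |G (fun t => v n ⌊(n : ℝ≥0) * t⌋₊ ω) -
      G (fun t => u n ⌊(n : ℝ≥0) * gt j (gr j t)⌋₊ ω)| ≤
      m * δ + S.indicator (fun _ => 2 * C) ω := by
    intro ω
    by_cases hω : ω ∈ S
    · rw [Set.indicator_of_mem hω]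
      have h1 := env_abs (k := (m : ℝ)) hC hm0 (cV ω)
      have h2 := env_abs (k := (m : ℝ)) hC hm0 (cL ω)
      have h3 := abs_sub (G (fun t => v n ⌊(n : ℝ≥0) * t⌋₊ ω))
        (G (fun t => u n ⌊(n : ℝ≥0) * gt j (gr j t)⌋₊ ω))
      have h4 : 0 ≤ (m : ℝ) * δ := by positivity
      linarith
    · rw [Set.indicator_of_notMem hω, add_zero]
      have hω' : ω ∉ A ∪ B := fun h => hω (subset_toMeasurable P _ h)
      rw [Set.mem_union, not_or] at hω'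
      apply env_lip hC hm0 (cV ω) (cL ω) hδ.le
      apply near_close (a := fun k => u n k ω) (b := fun k => v n k ω) hδ hβ hjδ hjβ hnβ
      · intro s t hs ht hst
        by_contra hcon
        exact hω'.1 ⟨s, t, hs, ht, hst, not_le.mp hcon⟩
      · intro t ht
        by_contra hcon
        exact hω'.2 ⟨t, ht, not_le.mp hcon⟩
  have hdiff : |∫ ω, G (fun t => v n ⌊(n : ℝ≥0) * t⌋₊ ω) ∂P -
      ∫ ω, G (fun t => u n ⌊(n : ℝ≥0) * gt j (gr j t)⌋₊ ω) ∂P| ≤ m * δ + 2 * C * P.real S := by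
    rw [← integral_sub iG iL]
    refine (abs_integral_le_integral_abs).trans ?_
    have hi : Integrable (fun ω => (m : ℝ) * δ + S.indicator (fun _ => 2 * C) ω) P :=
      (integrable_const _).add ((integrable_const _).indicator hSm)
    refine (integral_mono (iG.sub iL).abs hi hpt).trans ?_
    rw [integral_add (integrable_const _) ((integrable_const _).indicator hSm),
      integral_indicator_const _ hSm]
    simp only [integral_const, probReal_univ, smul_eq_mul, one_mul]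
    linarith
  have h5 : 2 * C * P.real S ≤ 2 * (η / 6) := by
    have : 2 * C * P.real S ≤ 2 * C * (2 * η') :=
      mul_le_mul_of_nonneg_left hSP (by positivity)
    linarith
  have h6 := (abs_le.mp hdiff).1
  have h7 := (abs_lt.mp hfn).1
  have h8 := (abs_lt.mp hj1).1
  have h9 := (abs_lt.mp hm).1
  linarith

end main

end FLim

section Fdd

variable {Ω : Type} [MeasurableSpace Ω] {P : Measure Ω} [IsProbabilityMeasure P]
  {Ω' : Type} [MeasurableSpace Ω'] {P' : Measure Ω'} [IsProbabilityMeasure P']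

theorem func_lim (u v : ℕ → ℕ → Ω → ℝ) (hu : ∀ n k, Measurable (u n k))
    (hv : ∀ n k, Measurable (v n k)) (Y : ℝ≥0 → Ω' → ℝ) (hYm : ∀ t, AEMeasurable (Y t) P')
    (hYc : ∀ᵐ ω ∂P', Continuous fun t => Y t ω)
    (hfdd : ∀ (k : ℕ) (t : Fin k → ℝ≥0), Monotone t → ∀ φ : (Fin k → ℝ) → ℝ, Continuous φ →
      (∃ C, ∀ y, |φ y| ≤ C) →
      Tendsto (fun n : ℕ => ∫ ω, φ (fun j => u n ⌊(n : ℝ≥0) * t j⌋₊ ω) ∂P) atTop
        (𝓝 (∫ ω, φ (fun j => Y (t j) ω) ∂P')))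
    (hosc : ∀ T > (0 : ℝ), ∀ δ > (0 : ℝ), ∀ η > (0 : ℝ), ∃ β > (0 : ℝ), ∀ᶠ n : ℕ in atTop,
      P.real {ω | ∃ s t : ℕ, (s : ℝ) ≤ T * n ∧ (t : ℝ) ≤ T * n ∧ |(s : ℝ) - t| ≤ β * n ∧
        δ < |u n s ω - u n t ω|} ≤ η)
    (hclose : ∀ T > (0 : ℝ), ∀ δ > (0 : ℝ), Tendsto (fun n : ℕ =>
      P.real {ω | ∃ t : ℕ, (t : ℝ) ≤ T * n ∧ δ < |v n t ω - u n t ω|}) atTop (𝓝 0)) :
    ∀ F : (ℝ≥0 → ℝ) → ℝ, ContD F → (∃ C, ∀ x, |F x| ≤ C) →
      Tendsto (fun n : ℕ => ∫ ω, F (fun t => v n ⌊(n : ℝ≥0) * t⌋₊ ω) ∂P) atTop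
        (𝓝 (∫ ω, F (fun t => Y t ω) ∂P')) := by
  rintro F hF ⟨C, hC⟩
  have hcd := FLim.cd_of_contD hF
  rw [Metric.tendsto_nhds]
  intro η hη
  have h1 := FLim.lower u v hu hv Y hYm hYc hfdd hosc hclose hcd hC (half_pos hη)
  have h2 := FLim.lower u v hu hv Y hYm hYc hfdd hosc hclose hcd.neg (C := C)
    (fun z => by rw [abs_neg]; exact hC z) (half_pos hη)
  filter_upwards [h1, h2] with n hn1 hn2
  rw [integral_neg, integral_neg] at hn2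
  rw [Real.dist_eq, abs_lt]
  constructor <;> linarith

end Fdd

end Pool.Agent.BW
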