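import Pool.Agent.Lib.MP_276d40_pr.Laplace

open MeasureTheory ProbabilityTheory Filter Topology Finset
open scoped ENNReal NNReal

set_option linter.unusedSectionVars false
set_option linter.unusedVariables false

namespace Pool.Agent.BW

section GW

variable {Q : Type} [Fintype Q] [DecidableEq Q] {q : Q → Measure (Q → ℕ)} {ρ : ℝ} {e l : Q → ℝ}

private theorem low_measurable_diag (G : ℕ → Env Q → ℝ) (hG : ∀ k, Measurable (G k))
    (v : List (Q × ℕ)) (b : Q) : Measurable fun ω : Env Q => G (ω v b) ω := by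
  have h2 : Measurable (fun p : ℕ × Env Q => G p.1 p.2) :=
    measurable_from_prod_countable_right fun k => hG k
  have h3 : Measurable (fun ω : Env Q => (ω v b, ω)) :=
    Measurable.prodMk (f := fun ω : Env Q => ω v b) (g := fun ω : Env Q => ω)
      ((measurable_pi_apply b).comp (measurable_pi_apply v)) measurable_id
  exact h2.comp h3

/-- level sums of measurable functions are measurable -/
theorem low_measurable_Up_iter {F : Env Q → List (Q × ℕ) → ℝ}
    (hF : ∀ u, Measurable fun ω => F ω u) (m : ℕ) (v : List (Q × ℕ)) :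
    Measurable fun ω : Env Q => ((Up (chE ω))^[m] (F ω)) v := by
  induction m generalizing v with
  | zero => exact hF v
  | succ m ih =>
    have h1 : (fun ω : Env Q => ((Up (chE ω))^[m + 1] (F ω)) v) =
        fun ω => ∑ b, ∑ n ∈ range (ω v b), ((Up (chE ω))^[m] (F ω)) ((b, n) :: v) := by
      funext ω
      rw [Function.iterate_succ_apply', Up, chE, sum_chX]
    rw [h1]
    refine Finset.measurable_sum _ fun b _ => ?_
    exact low_measurable_diag
      (fun k ω => ∑ n ∈ range k, ((Up (chE ω))^[m] (F ω)) ((b, n) :: v))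
      (fun k => Finset.measurable_sum _ fun n _ => ih ((b, n) :: v)) v b

theorem low_measurable_mu {F : Env Q → List (Q × ℕ) → ℝ}
    (hF : ∀ u, Measurable fun ω => F ω u) (m : ℕ) :
    Measurable fun ω : Env Q => mu (chE ω) ρ m (F ω) :=
  (low_measurable_Up_iter hF m []).const_mul _

theorem low_measurable_ps (ρ : ℝ) (e : Q → ℝ) (b : Q) (u : List (Q × ℕ)) :
    Measurable fun ω : Env Q => ps (lift b (Wf ρ e) ω) u := by
  induction u with
  | nil =>
    simp only [ps_nil]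
    exact measurable_const
  | cons i u ih =>
    simp only [ps_cons]
    refine ih.add ?_
    show Measurable fun ω : Env Q => Wf ρ e (typ b (i :: u)) (sub ω (i :: u))
    exact (measurable_Wf ρ e _).comp (measurable_sub _)

/-- the functional whose level sums control the exceptional vertices -/
noncomputable def lowG (ρ : ℝ) (e : Q → ℝ) (κ' : ℝ) (m : ℕ) (b : Q) (ω : Env Q) : ℝ :=
  mu (chE ω) ρ m (fun u => if ps (lift b (Wf ρ e) ω) u < κ' * m then 1 else 0)

theorem low_measurable_G (ρ : ℝ) (e : Q → ℝ) (κ' : ℝ) (m : ℕ) (b : Q) :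
    Measurable (lowG ρ e κ' m b) := by
  refine low_measurable_mu (F := fun ω u => if ps (lift b (Wf ρ e) ω) u < κ' * m then 1 else 0)
    (fun u => ?_) m
  exact Measurable.ite (measurableSet_lt (low_measurable_ps ρ e b u) measurable_const)
    measurable_const measurable_const

theorem lowG_nonneg (hρ : 0 ≤ ρ) (κ' : ℝ) (m : ℕ) (b : Q) (ω : Env Q) :
    0 ≤ lowG ρ e κ' m b ω := by
  refine mu_nonneg hρ fun v _ => ?_
  split_ifs <;> norm_num

theorem low_NY_eq (ρ : ℝ) (e : Q → ℝ) (κ' : ℝ) (a : Q) (ω : Env Q) (j m : ℕ) :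
    mu (chE ω) ρ (j + m) (fun v => if ps (lift a (Wf ρ e) ω) v -
      ps (lift a (Wf ρ e) ω) (v.drop m) < κ' * m then 1 else 0) =
    NY ρ (lowG ρ e κ' m) j a ω := by
  refine mu_relative ρ a ω j m _
    (fun b η u => if ps (lift b (Wf ρ e) η) u < κ' * m then 1 else 0) fun u w hu => ?_
  have h1 : (u ++ w).drop m = w := by rw [← hu, List.drop_left]
  have h2 : (fun u => lift a (Wf ρ e) ω (u ++ w)) = lift (typ a w) (Wf ρ e) (sub ω w) :=
    funext fun u => lift_append a _ ω u w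
  rw [h1, ps_append, h2]
  simp only [add_sub_cancel_left]

/-- normalised powers of the mean matrix are bounded -/
theorem low_bdd (H : MGWHyp q ρ e l) : ∃ C > (0 : ℝ), ∀ (k : ℕ) (a b : Q),
    (ρ ^ k)⁻¹ * ((meanMat q) ^ k) a b ≤ C := by
  have h1 : ∀ a b, ∃ C, ∀ k : ℕ, (ρ ^ k)⁻¹ * ((meanMat q) ^ k) a b ≤ C := by
    intro a b
    obtain ⟨C, hC⟩ := (H.conv a b).bddAbove_range
    exact ⟨C, fun k => hC ⟨k, rfl⟩⟩
  choose C hC using h1
  refine ⟨∑ a, ∑ b, |C a b| + 1, by positivity, fun k a b => ?_⟩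
  have h2 : |C a b| ≤ ∑ b, |C a b| :=
    Finset.single_le_sum (f := fun b => |C a b|) (fun b _ => abs_nonneg _) (Finset.mem_univ b)
  have h3 : ∑ b, |C a b| ≤ ∑ a, ∑ b, |C a b| :=
    Finset.single_le_sum (f := fun a => ∑ b, |C a b|)
      (fun a _ => Finset.sum_nonneg fun b _ => abs_nonneg _) (Finset.mem_univ a)
  have h4 := hC a b k
  have h5 := le_abs_self (C a b)
  linarith

/-- pointwise bound of the exceptional vertices -/
theorem low_pointwise (hρ : 0 ≤ ρ) (κ' : ℝ) (a : Q) (ω : Env Q) (x : ℝ) (k : ℕ) :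
    mu (chE ω) ρ k (fun v => if ∃ m : ℕ, m ≤ v.length ∧ x ≤ (m : ℝ) ∧
        ps (lift a (Wf ρ e) ω) v - ps (lift a (Wf ρ e) ω) (v.drop m) < κ' * m
        then 1 else 0) ≤
      ∑ m ∈ (range (k + 1)).filter (fun m : ℕ => x ≤ (m : ℝ)),
        NY ρ (lowG ρ e κ' m) (k - m) a ω := by
  have h1 : ∑ m ∈ (range (k + 1)).filter (fun m : ℕ => x ≤ (m : ℝ)),
        NY ρ (lowG ρ e κ' m) (k - m) a ω =
      ∑ m ∈ (range (k + 1)).filter (fun m : ℕ => x ≤ (m : ℝ)),
        mu (chE ω) ρ k (fun v => if ps (lift a (Wf ρ e) ω) v -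
          ps (lift a (Wf ρ e) ω) (v.drop m) < κ' * m then 1 else 0) := by
    refine Finset.sum_congr rfl fun m hm => ?_
    rw [Finset.mem_filter, Finset.mem_range] at hm
    have h2 := low_NY_eq ρ e κ' a ω (k - m) m
    rw [Nat.sub_add_cancel (by omega)] at h2
    exact h2.symm
  rw [h1, ← mu_finset_sum]
  refine mu_mono hρ fun v hv => ?_
  have hlen := length_of_mem_lev hv
  have hnn : ∀ m ∈ (range (k + 1)).filter (fun m : ℕ => x ≤ (m : ℝ)),
      (0 : ℝ) ≤ if ps (lift a (Wf ρ e) ω) v -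
          ps (lift a (Wf ρ e) ω) (v.drop m) < κ' * m then 1 else 0 := by
    intro m _
    split_ifs <;> norm_num
  split_ifs with h
  · obtain ⟨m, hm1, hm2, hm3⟩ := h
    have hmem : m ∈ (range (k + 1)).filter (fun m : ℕ => x ≤ (m : ℝ)) := by
      rw [Finset.mem_filter, Finset.mem_range]
      exact ⟨by omega, hm2⟩
    refine le_trans ?_ (Finset.single_le_sum hnn hmem)
    rw [if_pos hm3]
  · exact Finset.sum_nonneg hnn

theorem low_ae (H : MGWHyp q ρ e l) : ∃ κ' > (0 : ℝ), ∀ a, ∀ᵐ ω ∂mgw q a, ∀ δ > (0 : ℝ),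
    Tendsto (fun ℓ : ℕ => (ℓ : ℝ) * ∑ k ∈ range (ℓ + 1),
      mu (chE ω) ρ k (fun v => if ∃ m : ℕ, m ≤ v.length ∧ δ * (ℓ : ℝ) ≤ (m : ℝ) ∧
        ps (lift a (Wf ρ e) ω) v - ps (lift a (Wf ρ e) ω) (v.drop m) < κ' * m
        then 1 else 0)) atTop (𝓝 0) := by
  have hρ : 0 ≤ ρ := by linarith [H.one_lt]
  have hρ' : 0 < ρ := by linarith [H.one_lt]
  obtain ⟨C, hC, c, hc, κ', hκ', hL⟩ := laplace H
  obtain ⟨C1, hC1, hbd⟩ := low_bdd H
  refine ⟨κ', hκ', fun a => ?_⟩
  -- integrability of `G`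
  have hGi : ∀ m b, Integrable (lowG ρ e κ' m b) (mgw q b) := by
    intro m b
    refine ⟨(low_measurable_G ρ e κ' m b).aestronglyMeasurable, ?_⟩
    rw [hasFiniteIntegral_iff_ofReal (ae_of_all _ (lowG_nonneg hρ κ' m b))]
    exact lt_of_le_of_lt (hL b m) ENNReal.ofReal_lt_top
  have hGint : ∀ m b, ∫ ω, lowG ρ e κ' m b ω ∂mgw q b ≤ C * Real.exp (-(c * m)) := by
    intro m b
    have h1 := hL b m
    have h2 := ofReal_integral_eq_lintegral_ofReal (hGi m b)
      (ae_of_all _ (lowG_nonneg hρ κ' m b))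
    have h3 : ENNReal.ofReal (∫ ω, lowG ρ e κ' m b ω ∂mgw q b) ≤
        ENNReal.ofReal (C * Real.exp (-(c * m))) := by
      rw [h2]; exact h1
    exact (ENNReal.ofReal_le_ofReal_iff (by positivity)).1 h3
  have hNYi : ∀ m j, Integrable (NY ρ (lowG ρ e κ' m) j a) (mgw q a) := by
    intro m j
    have h1 := (Tb_iter_moments H (low_measurable_G ρ e κ' m) (hGi m) j a).1
    have h2 : NY ρ (lowG ρ e κ' m) j a = fun ω => (ρ ^ j)⁻¹ * (Tb^[j] (lowG ρ e κ' m)) a ω :=
      funext fun ω => NY_eq ρ _ j a ω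
    rw [h2]
    exact h1.const_mul _
  have hNYn : ∀ m j ω, 0 ≤ NY ρ (lowG ρ e κ' m) j a ω := fun m j ω =>
    mu_nonneg hρ fun v _ => lowG_nonneg hρ κ' m _ _
  have hcard : (0 : ℝ) ≤ (Fintype.card Q : ℝ) := Nat.cast_nonneg _
  have hNYint : ∀ m j, ∫ ω, NY ρ (lowG ρ e κ' m) j a ω ∂mgw q a ≤
      (Fintype.card Q * C1 * C) * Real.exp (-(c * m)) := by
    intro m j
    have h1 := (Tb_iter_moments H (low_measurable_G ρ e κ' m) (hGi m) j a).2
    have h2 : NY ρ (lowG ρ e κ' m) j a = fun ω => (ρ ^ j)⁻¹ * (Tb^[j] (lowG ρ e κ' m)) a ω :=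
      funext fun ω => NY_eq ρ _ j a ω
    rw [h2, integral_const_mul, h1, Finset.mul_sum]
    have h3 : ∀ b ∈ (Finset.univ : Finset Q), (ρ ^ j)⁻¹ * ((meanMat q ^ j) a b *
        ∫ ω, lowG ρ e κ' m b ω ∂mgw q b) ≤ C1 * (C * Real.exp (-(c * m))) := by
      intro b _
      rw [← mul_assoc]
      exact mul_le_mul (hbd j a b) (hGint m b)
        (integral_nonneg (lowG_nonneg hρ κ' m b)) hC1.le
    refine (Finset.sum_le_sum h3).trans (le_of_eq ?_)
    rw [Finset.sum_const, Finset.card_univ, nsmul_eq_mul]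
    ring
  -- the dominating variables
  have key : ∀ j : ℕ, ∀ᵐ ω ∂mgw q a, Tendsto (fun ℓ : ℕ => (ℓ : ℝ) * ∑ k ∈ range (ℓ + 1),
      ∑ m ∈ (range (k + 1)).filter (fun m : ℕ => (1 / ((j : ℝ) + 1)) * (ℓ : ℝ) ≤ (m : ℝ)),
        NY ρ (lowG ρ e κ' m) (k - m) a ω) atTop (𝓝 0) := by
    intro j
    set δ : ℝ := 1 / ((j : ℝ) + 1) with hδ
    have hδ0 : 0 < δ := by positivity
    let Z : ℕ → Env Q → ℝ := fun ℓ ω => (ℓ : ℝ) * ∑ k ∈ range (ℓ + 1),
      ∑ m ∈ (range (k + 1)).filter (fun m : ℕ => δ * (ℓ : ℝ) ≤ (m : ℝ)),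
        NY ρ (lowG ρ e κ' m) (k - m) a ω
    have hZn : ∀ ℓ ω, 0 ≤ Z ℓ ω := fun ℓ ω =>
      mul_nonneg (Nat.cast_nonneg _) (Finset.sum_nonneg fun k _ =>
        Finset.sum_nonneg fun m _ => hNYn m _ ω)
    have hZi : ∀ ℓ, Integrable (Z ℓ) (mgw q a) := fun ℓ =>
      (integrable_finsetSum _ fun k _ => integrable_finsetSum _ fun m _ =>
        hNYi m (k - m)).const_mul _
    have hZint : ∀ ℓ : ℕ, ∫ ω, Z ℓ ω ∂mgw q a ≤
        (Fintype.card Q * C1 * C) * (((ℓ : ℝ) + 1) ^ 3 * Real.exp (-(c * δ) * ℓ)) := by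
      intro ℓ
      show ∫ ω, (ℓ : ℝ) * ∑ k ∈ range (ℓ + 1),
        ∑ m ∈ (range (k + 1)).filter (fun m : ℕ => δ * (ℓ : ℝ) ≤ (m : ℝ)),
        NY ρ (lowG ρ e κ' m) (k - m) a ω ∂mgw q a ≤ _
      rw [integral_const_mul, integral_finsetSum _ fun k _ =>
        integrable_finsetSum _ fun m _ => hNYi m (k - m)]
      have h1 : ∀ k ∈ range (ℓ + 1), ∫ ω, ∑ m ∈ (range (k + 1)).filter
          (fun m : ℕ => δ * (ℓ : ℝ) ≤ (m : ℝ)), NY ρ (lowG ρ e κ' m) (k - m) a ω ∂mgw q a ≤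
          ((ℓ : ℝ) + 1) * ((Fintype.card Q * C1 * C) * Real.exp (-(c * δ) * ℓ)) := by
        intro k hk
        rw [Finset.mem_range] at hk
        rw [integral_finsetSum _ fun m _ => hNYi m (k - m)]
        have h2 : ∀ m ∈ (range (k + 1)).filter (fun m : ℕ => δ * (ℓ : ℝ) ≤ (m : ℝ)),
            ∫ ω, NY ρ (lowG ρ e κ' m) (k - m) a ω ∂mgw q a ≤
            (Fintype.card Q * C1 * C) * Real.exp (-(c * δ) * ℓ) := by
          intro m hm
          refine (hNYint m (k - m)).trans ?_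
          refine mul_le_mul_of_nonneg_left (Real.exp_le_exp.2 ?_) (by positivity)
          have h3 := (Finset.mem_filter.1 hm).2
          nlinarith
        refine (Finset.sum_le_sum h2).trans ?_
        rw [Finset.sum_const, nsmul_eq_mul]
        refine mul_le_mul_of_nonneg_right ?_ (by positivity)
        have h4 := Finset.card_filter_le (range (k + 1)) (fun m : ℕ => δ * (ℓ : ℝ) ≤ (m : ℝ))
        rw [Finset.card_range] at h4
        have h5 : ((#((range (k + 1)).filter (fun m : ℕ => δ * (ℓ : ℝ) ≤ (m : ℝ))) : ℕ) : ℝ) ≤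
            ((k + 1 : ℕ) : ℝ) := by exact_mod_cast h4
        have h6 : ((k + 1 : ℕ) : ℝ) ≤ ((ℓ + 1 : ℕ) : ℝ) := by exact_mod_cast (by omega)
        push_cast at h5 h6 ⊢
        linarith
      refine (mul_le_mul_of_nonneg_left (Finset.sum_le_sum h1) (Nat.cast_nonneg ℓ)).trans ?_
      rw [Finset.sum_const, Finset.card_range, nsmul_eq_mul]
      push_cast
      have hE : 0 ≤ (Fintype.card Q * C1 * C) * Real.exp (-(c * δ) * ℓ) := by positivity
      have hℓ : (0 : ℝ) ≤ ℓ := Nat.cast_nonneg ℓ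
      calc (ℓ : ℝ) * (((ℓ : ℝ) + 1) * (((ℓ : ℝ) + 1) *
            ((Fintype.card Q * C1 * C) * Real.exp (-(c * δ) * ℓ))))
          ≤ ((ℓ : ℝ) + 1) * (((ℓ : ℝ) + 1) * (((ℓ : ℝ) + 1) *
            ((Fintype.card Q * C1 * C) * Real.exp (-(c * δ) * ℓ)))) :=
            mul_le_mul_of_nonneg_right (by linarith) (by positivity)
        _ = _ := by ring
    have hsum : Summable fun ℓ : ℕ =>
        (Fintype.card Q * C1 * C) * (((ℓ : ℝ) + 1) ^ 3 * Real.exp (-(c * δ) * ℓ)) := by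
      refine Summable.mul_left _ ?_
      have h1 : Summable fun n : ℕ => ((n : ℝ)) ^ 3 * Real.exp (-(c * δ) * n) :=
        Real.summable_pow_mul_exp_neg_nat_mul 3 (by positivity)
      have h2 := (summable_nat_add_iff 1).2 h1
      have h3 : (fun ℓ : ℕ => ((ℓ : ℝ) + 1) ^ 3 * Real.exp (-(c * δ) * ℓ)) = fun ℓ : ℕ =>
          Real.exp (c * δ) * ((((ℓ + 1 : ℕ) : ℝ)) ^ 3 * Real.exp (-(c * δ) * ((ℓ + 1 : ℕ) : ℝ))) := by
        funext ℓ
        push_cast
        have h4 : Real.exp (-(c * δ) * ℓ) =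
            Real.exp (c * δ) * Real.exp (-(c * δ) * ((ℓ : ℝ) + 1)) := by
          rw [← Real.exp_add]
          congr 1
          ring
        rw [h4]
        ring
      rw [h3]
      exact h2.mul_left _
    have hfin : ∫⁻ ω, ∑' ℓ, ENNReal.ofReal (Z ℓ ω) ∂mgw q a ≠ ∞ := by
      rw [lintegral_tsum fun ℓ => (hZi ℓ).aestronglyMeasurable.aemeasurable.ennreal_ofReal]
      have h1 : ∀ ℓ, ∫⁻ ω, ENNReal.ofReal (Z ℓ ω) ∂mgw q a ≤ ENNReal.ofReal
          ((Fintype.card Q * C1 * C) * (((ℓ : ℝ) + 1) ^ 3 * Real.exp (-(c * δ) * ℓ))) := by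
        intro ℓ
        rw [← ofReal_integral_eq_lintegral_ofReal (hZi ℓ) (ae_of_all _ (hZn ℓ))]
        exact ENNReal.ofReal_le_ofReal (hZint ℓ)
      refine ne_top_of_le_ne_top ?_ (ENNReal.tsum_le_tsum h1)
      rw [← ENNReal.ofReal_tsum_of_nonneg (fun ℓ => by positivity) hsum]
      exact ENNReal.ofReal_ne_top
    have hmeas : AEMeasurable (fun ω => ∑' ℓ, ENNReal.ofReal (Z ℓ ω)) (mgw q a) :=
      AEMeasurable.tsum fun ℓ =>
        (hZi ℓ).aestronglyMeasurable.aemeasurable.ennreal_ofReal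
    filter_upwards [ae_lt_top' hmeas hfin] with ω hω
    have h1 := ENNReal.tendsto_atTop_zero_of_tsum_ne_top hω.ne
    have h2 := (ENNReal.tendsto_toReal (ENNReal.zero_ne_top)).comp h1
    rw [ENNReal.toReal_zero] at h2
    refine h2.congr fun ℓ => ?_
    rw [Function.comp_apply, ENNReal.toReal_ofReal (hZn ℓ ω)]
  filter_upwards [ae_all_iff.2 key] with ω hω δ hδ
  obtain ⟨j, hj⟩ := exists_nat_one_div_lt hδ
  refine squeeze_zero (fun ℓ => ?_) (fun ℓ => ?_) (hω j)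
  · refine mul_nonneg (Nat.cast_nonneg _) (Finset.sum_nonneg fun k _ => mu_nonneg hρ fun v _ => ?_)
    split_ifs <;> norm_num
  · refine mul_le_mul_of_nonneg_left (Finset.sum_le_sum fun k _ => ?_) (Nat.cast_nonneg _)
    refine le_trans ?_ (low_pointwise hρ κ' a ω _ k)
    refine mu_mono hρ fun v _ => ?_
    split_ifs with h1 h2
    · exact le_rfl
    · exfalso
      apply h2
      obtain ⟨m, h3, h4, h5⟩ := h1
      refine ⟨m, h3, le_trans ?_ h4, h5⟩
      exact mul_le_mul_of_nonneg_right hj.le (Nat.cast_nonneg _)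
    · norm_num
    · exact le_rfl

end GW

end Pool.Agent.BW
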