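import Pool.Agent.Lib.MP_276d40_pr.Wlim

open MeasureTheory ProbabilityTheory Filter Topology Finset
open scoped ENNReal NNReal

set_option linter.unusedSectionVars false
set_option linter.unusedVariables false

namespace Pool.Agent.BW

section GW

variable {Q : Type} [Fintype Q] [DecidableEq Q] {q : Q → Measure (Q → ℕ)} {ρ : ℝ} {e l : Q → ℝ}

/-! ### Preliminaries -/

private theorem lln_prob (H : MGWHyp q ρ e l) (a : Q) : IsProbabilityMeasure (mgw q a) := by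
  have := H.prob
  unfold mgw
  infer_instance

private theorem lln_NY_sum (Y : Q → Env Q → ℝ) (k : ℕ) (a : Q) (ω : Env Q) :
    NY ρ Y k a ω = (ρ ^ k)⁻¹ * ∑ v ∈ lev (chE ω) k, lift a Y ω v := mu_eq_sum k _

private theorem lln_NY_add (Y Z : Q → Env Q → ℝ) (k : ℕ) (a : Q) (ω : Env Q) :
    NY ρ (fun b η => Y b η + Z b η) k a ω = NY ρ Y k a ω + NY ρ Z k a ω :=
  mu_add_fun k (lift a Y ω) (lift a Z ω)

private theorem lln_NY_sub (Y Z : Q → Env Q → ℝ) (k : ℕ) (a : Q) (ω : Env Q) :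
    NY ρ (fun b η => Y b η - Z b η) k a ω = NY ρ Y k a ω - NY ρ Z k a ω :=
  mu_sub_fun k (lift a Y ω) (lift a Z ω)

private theorem lln_NY_smul (c : ℝ) (Y : Q → Env Q → ℝ) (k : ℕ) (a : Q) (ω : Env Q) :
    NY ρ (fun b η => c * Y b η) k a ω = c * NY ρ Y k a ω :=
  mu_const_mul k c (lift a Y ω)

private theorem lln_NY_mono (hρ : 0 ≤ ρ) {Y Z : Q → Env Q → ℝ} (h : ∀ b η, Y b η ≤ Z b η)
    (k : ℕ) (a : Q) (ω : Env Q) : NY ρ Y k a ω ≤ NY ρ Z k a ω :=
  mu_mono hρ fun v _ => h _ _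

private theorem lln_NY_nonneg (hρ : 0 ≤ ρ) {Y : Q → Env Q → ℝ} (h : ∀ b η, 0 ≤ Y b η)
    (k : ℕ) (a : Q) (ω : Env Q) : 0 ≤ NY ρ Y k a ω :=
  mu_nonneg hρ fun v _ => h _ _

private theorem lln_NY_abs (hρ : 0 ≤ ρ) (Y : Q → Env Q → ℝ) (k : ℕ) (a : Q) (ω : Env Q) :
    |NY ρ Y k a ω| ≤ NY ρ (fun b η => |Y b η|) k a ω :=
  abs_mu_le hρ k (lift a Y ω)

private theorem lln_A_nonneg (a b : Q) : 0 ≤ meanMat q a b :=
  integral_nonneg fun x => by positivity

private theorem lln_Apow_nonneg (k : ℕ) (a b : Q) : 0 ≤ (meanMat q ^ k) a b := by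
  induction k generalizing a b with
  | zero =>
    rw [pow_zero, Matrix.one_apply]
    split_ifs <;> norm_num
  | succ k ih =>
    rw [pow_succ, Matrix.mul_apply]
    exact Finset.sum_nonneg fun c _ => mul_nonneg (ih a c) (lln_A_nonneg c b)

private theorem lln_bdd (H : MGWHyp q ρ e l) :
    ∃ C : ℝ, 0 < C ∧ ∀ k a b, (ρ ^ k)⁻¹ * (meanMat q ^ k) a b ≤ C := by
  have h : ∀ a b, ∃ C : ℝ, ∀ k, (ρ ^ k)⁻¹ * (meanMat q ^ k) a b ≤ C := by
    intro a b
    obtain ⟨C, hC⟩ := (H.conv a b).bddAbove_range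
    exact ⟨C, fun k => hC ⟨k, rfl⟩⟩
  choose C hC using h
  refine ⟨1 + ∑ a, ∑ b, |C a b|, by positivity, fun k a b => ?_⟩
  have h1 : |C a b| ≤ ∑ b, |C a b| :=
    Finset.single_le_sum (f := fun b => |C a b|) (fun i _ => abs_nonneg _) (Finset.mem_univ b)
  have h2 : ∑ b, |C a b| ≤ ∑ a, ∑ b, |C a b| :=
    Finset.single_le_sum (f := fun a => ∑ b, |C a b|)
      (fun i _ => Finset.sum_nonneg fun j _ => abs_nonneg _) (Finset.mem_univ a)
  have h3 := hC a b k
  have h4 := le_abs_self (C a b)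
  linarith

private theorem lln_rho (H : MGWHyp q ρ e l) : 0 < ρ := lt_trans zero_lt_one H.one_lt

private theorem lln_integrable_NY (H : MGWHyp q ρ e l) {Y : Q → Env Q → ℝ}
    (hm : ∀ b, Measurable (Y b)) (hi : ∀ b, Integrable (Y b) (mgw q b)) (k : ℕ) (a : Q) :
    Integrable (NY ρ Y k a) (mgw q a) := by
  have h := (Tb_iter_moments H hm hi k a).1.const_mul ((ρ ^ k)⁻¹)
  refine h.congr (Eventually.of_forall fun ω => ?_)
  exact (NY_eq ρ Y k a ω).symm

private theorem lln_memLp_NY (H : MGWHyp q ρ e l) {Y : Q → Env Q → ℝ}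
    (hm : ∀ b, Measurable (Y b)) (h2 : ∀ b, MemLp (Y b) 2 (mgw q b)) (k : ℕ) (a : Q) :
    MemLp (NY ρ Y k a) 2 (mgw q a) := by
  have h := (Tb_iter_memLp H hm h2 k a).const_mul ((ρ ^ k)⁻¹)
  refine h.ae_eq (Eventually.of_forall fun ω => ?_)
  exact (NY_eq ρ Y k a ω).symm

private theorem lln_integral_NY (H : MGWHyp q ρ e l) {Y : Q → Env Q → ℝ}
    (hm : ∀ b, Measurable (Y b)) (hi : ∀ b, Integrable (Y b) (mgw q b)) (k : ℕ) (a : Q) :
    ∫ ω, NY ρ Y k a ω ∂mgw q a =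
      ∑ b, (ρ ^ k)⁻¹ * (meanMat q ^ k) a b * ∫ ω, Y b ω ∂mgw q b := by
  have h : ∫ ω, NY ρ Y k a ω ∂mgw q a = ∫ ω, (ρ ^ k)⁻¹ * (Tb^[k] Y) a ω ∂mgw q a :=
    integral_congr_ae (Eventually.of_forall fun ω => NY_eq ρ Y k a ω)
  rw [h, integral_const_mul, (Tb_iter_moments H hm hi k a).2, Finset.mul_sum]
  exact Finset.sum_congr rfl fun b _ => by ring

private theorem lln_first_le (H : MGWHyp q ρ e l) {C : ℝ}
    (hbd : ∀ k a b, (ρ ^ k)⁻¹ * (meanMat q ^ k) a b ≤ C) {Y : Q → Env Q → ℝ}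
    (hm : ∀ b, Measurable (Y b)) (hi : ∀ b, Integrable (Y b) (mgw q b))
    (h0 : ∀ b η, 0 ≤ Y b η) (k : ℕ) (a : Q) :
    ∫ ω, NY ρ Y k a ω ∂mgw q a ≤ C * ∑ b, ∫ ω, Y b ω ∂mgw q b := by
  rw [lln_integral_NY H hm hi, Finset.mul_sum]
  exact Finset.sum_le_sum fun b _ =>
    mul_le_mul_of_nonneg_right (hbd k a b) (integral_nonneg (h0 b))

private theorem lln_sq_le (H : MGWHyp q ρ e l) {C : ℝ}
    (hbd : ∀ k a b, (ρ ^ k)⁻¹ * (meanMat q ^ k) a b ≤ C) {D : Q → Env Q → ℝ}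
    (hm : ∀ b, Measurable (D b)) (h2 : ∀ b, MemLp (D b) 2 (mgw q b))
    (h0 : ∀ b, ∫ ω, D b ω ∂mgw q b = 0) (k : ℕ) (a : Q) :
    ∫ ω, NY ρ D k a ω ^ 2 ∂mgw q a ≤ C * (ρ ^ k)⁻¹ * ∑ b, ∫ ω, D b ω ^ 2 ∂mgw q b := by
  have hρ := lln_rho H
  have h : ∫ ω, NY ρ D k a ω ^ 2 ∂mgw q a =
      ∫ ω, ((ρ ^ k)⁻¹) ^ 2 * ((Tb^[k] D) a ω) ^ 2 ∂mgw q a :=
    integral_congr_ae (Eventually.of_forall fun ω => by
      show NY ρ D k a ω ^ 2 = _
      rw [NY_eq]; ring)
  rw [h, integral_const_mul, Tb_iter_sq H hm h2 h0 k a, Finset.mul_sum, Finset.mul_sum]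
  refine Finset.sum_le_sum fun b _ => ?_
  have h3 : 0 ≤ ∫ ω, D b ω ^ 2 ∂mgw q b := integral_nonneg fun ω => sq_nonneg _
  have h4 : 0 ≤ (ρ ^ k)⁻¹ := by positivity
  calc ((ρ ^ k)⁻¹) ^ 2 * ((meanMat q ^ k) a b * ∫ ω, D b ω ^ 2 ∂mgw q b)
      = ((ρ ^ k)⁻¹ * (meanMat q ^ k) a b) * ((ρ ^ k)⁻¹ * ∫ ω, D b ω ^ 2 ∂mgw q b) := by ring
    _ ≤ C * ((ρ ^ k)⁻¹ * ∫ ω, D b ω ^ 2 ∂mgw q b) :=
        mul_le_mul_of_nonneg_right (hbd k a b) (mul_nonneg h4 h3)
    _ = _ := by ring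

/-- nonnegative integrable functions with summable integrals tend to zero almost everywhere -/
private theorem lln_ae_zero {Ω : Type*} [MeasurableSpace Ω] {P : Measure Ω} {f : ℕ → Ω → ℝ}
    (hf : ∀ k, Integrable (f k) P) (h0 : ∀ k ω, 0 ≤ f k ω)
    (hs : Summable fun k => ∫ ω, f k ω ∂P) :
    ∀ᵐ ω ∂P, Tendsto (fun k => f k ω) atTop (𝓝 0) := by
  have h1 : ∫⁻ ω, ∑' k, ENNReal.ofReal (f k ω) ∂P ≠ ∞ := by
    rw [lintegral_tsum fun k => (hf k).1.aemeasurable.ennreal_ofReal]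
    have h2 : ∀ k, ∫⁻ ω, ENNReal.ofReal (f k ω) ∂P = ENNReal.ofReal (∫ ω, f k ω ∂P) := by
      intro k
      rw [ofReal_integral_eq_lintegral_ofReal (hf k) (Eventually.of_forall (h0 k))]
    simp only [h2]
    rw [← ENNReal.ofReal_tsum_of_nonneg (fun k => integral_nonneg (h0 k)) hs]
    exact ENNReal.ofReal_ne_top
  have h3 := ae_lt_top' (AEMeasurable.tsum fun k =>
    (hf k).1.aemeasurable.ennreal_ofReal) h1
  filter_upwards [h3] with ω hω
  have h4 := ENNReal.tendsto_atTop_zero_of_tsum_ne_top hω.ne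
  have h5 := (ENNReal.tendsto_toReal ENNReal.zero_ne_top).comp h4
  simp only [ENNReal.toReal_zero] at h5
  refine h5.congr fun k => ?_
  simp [ENNReal.toReal_ofReal (h0 k ω)]

private theorem lln_ae_zero_sq {Ω : Type*} [MeasurableSpace Ω] {P : Measure Ω} {f : ℕ → Ω → ℝ}
    (hf : ∀ k, MemLp (f k) 2 P) (hs : Summable fun k => ∫ ω, f k ω ^ 2 ∂P) :
    ∀ᵐ ω ∂P, Tendsto (fun k => f k ω) atTop (𝓝 0) := by
  have h := lln_ae_zero (f := fun k ω => f k ω ^ 2) (fun k => (hf k).integrable_sq)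
    (fun k ω => sq_nonneg _) hs
  filter_upwards [h] with ω hω
  have h2 : Tendsto (fun k => √(f k ω ^ 2)) atTop (𝓝 √0) := hω.sqrt
  rw [Real.sqrt_zero] at h2
  refine (tendsto_zero_iff_abs_tendsto_zero _).2 (h2.congr fun k => ?_)
  simp [Real.sqrt_sq_eq_abs]

/-! ### Constant functionals -/

/-- the constant functional with values `y` -/
private def lln_cst (y : Q → ℝ) : Q → Env Q → ℝ := fun b _ => y b

private theorem lln_cst_meas (y : Q → ℝ) (b : Q) : Measurable (lln_cst y b) :=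
  measurable_const

private theorem lln_cst_memLp (H : MGWHyp q ρ e l) (y : Q → ℝ) (b : Q) :
    MemLp (lln_cst y b) 2 (mgw q b) := by
  have := lln_prob H b
  exact memLp_const (y b)

private theorem lln_cst_integrable (H : MGWHyp q ρ e l) (y : Q → ℝ) (b : Q) :
    Integrable (lln_cst y b) (mgw q b) := by
  have := lln_prob H b
  exact integrable_const (y b)

private theorem lln_cst_integral (H : MGWHyp q ρ e l) (y : Q → ℝ) (b : Q) :
    ∫ ω, lln_cst y b ω ∂mgw q b = y b := by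
  have := lln_prob H b
  simp [lln_cst]

/-- the mean of `NY ρ (lln_cst y) m` -/
private noncomputable def lln_ym (q : Q → Measure (Q → ℕ)) (ρ : ℝ) (y : Q → ℝ) (m : ℕ) (b : Q) :
    ℝ := ∑ c, (ρ ^ m)⁻¹ * (meanMat q ^ m) b c * y c

private theorem lln_ym_eq (H : MGWHyp q ρ e l) (y : Q → ℝ) (m : ℕ) (b : Q) :
    ∫ ω, NY ρ (lln_cst y) m b ω ∂mgw q b = lln_ym q ρ y m b := by
  rw [lln_integral_NY H (lln_cst_meas y) (lln_cst_integrable H y), lln_ym]
  simp only [lln_cst_integral H]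

private theorem lln_ym_tendsto (H : MGWHyp q ρ e l) (y : Q → ℝ) (b : Q) :
    Tendsto (fun m => lln_ym q ρ y m b) atTop (𝓝 ((∑ c, l c * y c) * e b)) := by
  have h : (∑ c, l c * y c) * e b = ∑ c, (e b * l c) * y c := by
    rw [Finset.sum_mul]
    exact Finset.sum_congr rfl fun c _ => by ring
  rw [h]
  exact tendsto_finsetSum _ fun c _ => (H.conv b c).mul_const (y c)

/-- total error of `lln_ym` -/
private noncomputable def lln_err (q : Q → Measure (Q → ℕ)) (ρ : ℝ) (e l y : Q → ℝ) (m : ℕ) : ℝ :=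
  ∑ b, |lln_ym q ρ y m b - (∑ c, l c * y c) * e b|

private theorem lln_err_tendsto (H : MGWHyp q ρ e l) (y : Q → ℝ) :
    Tendsto (fun m => lln_err q ρ e l y m) atTop (𝓝 0) := by
  have h : ∀ b ∈ (Finset.univ : Finset Q), Tendsto (fun m =>
      |lln_ym q ρ y m b - (∑ c, l c * y c) * e b|) atTop (𝓝 0) := by
    intro b _
    have h1 := ((lln_ym_tendsto H y b).sub_const ((∑ c, l c * y c) * e b)).abs
    simpa using h1
  have h2 := tendsto_finsetSum _ h
  simpa [lln_err] using h2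

/-- the centred functional `NY ρ (lln_cst y) m - lln_ym` -/
private noncomputable def lln_D (q : Q → Measure (Q → ℕ)) (ρ : ℝ) (y : Q → ℝ) (m : ℕ) :
    Q → Env Q → ℝ := fun b η => NY ρ (lln_cst y) m b η - lln_cst (lln_ym q ρ y m) b η

private theorem lln_D_meas (H : MGWHyp q ρ e l) (y : Q → ℝ) (m : ℕ) (b : Q) :
    Measurable (lln_D q ρ y m b) :=
  (measurable_NY (lln_cst_meas y) m b).sub (lln_cst_meas _ b)

private theorem lln_D_memLp (H : MGWHyp q ρ e l) (y : Q → ℝ) (m : ℕ) (b : Q) :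
    MemLp (lln_D q ρ y m b) 2 (mgw q b) :=
  (lln_memLp_NY H (lln_cst_meas y) (lln_cst_memLp H y) m b).sub (lln_cst_memLp H _ b)

private theorem lln_D_zero (H : MGWHyp q ρ e l) (y : Q → ℝ) (m : ℕ) (b : Q) :
    ∫ ω, lln_D q ρ y m b ω ∂mgw q b = 0 := by
  have h := integral_sub (lln_integrable_NY H (lln_cst_meas y) (lln_cst_integrable H y) m b)
    (lln_cst_integrable H (lln_ym q ρ y m) b)
  have h2 : ∫ ω, lln_D q ρ y m b ω ∂mgw q b =
    ∫ ω, NY ρ (lln_cst y) m b ω - lln_cst (lln_ym q ρ y m) b ω ∂mgw q b := rfl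
  rw [h2, h, lln_ym_eq H, lln_cst_integral H, sub_self]

private theorem lln_summable_geo (H : MGWHyp q ρ e l) : Summable fun k : ℕ => (ρ ^ k)⁻¹ := by
  have h := summable_geometric_of_lt_one (inv_nonneg.2 (lln_rho H).le)
    (inv_lt_one_of_one_lt₀ H.one_lt)
  simpa [inv_pow] using h

private theorem lln_centered_ae (H : MGWHyp q ρ e l) {D : Q → Env Q → ℝ}
    (hm : ∀ b, Measurable (D b)) (h2 : ∀ b, MemLp (D b) 2 (mgw q b))
    (h0 : ∀ b, ∫ ω, D b ω ∂mgw q b = 0) (a : Q) :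
    ∀ᵐ ω ∂mgw q a, Tendsto (fun k => NY ρ D k a ω) atTop (𝓝 0) := by
  obtain ⟨C, hC, hbd⟩ := lln_bdd H
  refine lln_ae_zero_sq (fun k => lln_memLp_NY H hm h2 k a) ?_
  refine Summable.of_nonneg_of_le (fun k => integral_nonneg fun ω => sq_nonneg _)
    (fun k => lln_sq_le H hbd hm h2 h0 k a) ?_
  exact ((lln_summable_geo H).mul_left C).mul_right _

private theorem lln_decomp (H : MGWHyp q ρ e l) (y : Q → ℝ) (m k : ℕ) (a : Q) (ω : Env Q) :
    NY ρ (lln_cst y) (k + m) a ω =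
      NY ρ (lln_D q ρ y m) k a ω + NY ρ (lln_cst (lln_ym q ρ y m)) k a ω := by
  rw [← NY_NY, ← lln_NY_add]
  congr 1
  funext b η
  simp [lln_D]

private theorem lln_min (H : MGWHyp q ρ e l) : ∃ c : ℝ, 0 < c ∧ ∀ b, c * 1 ≤ e b := by
  rcases isEmpty_or_nonempty Q with h | h
  · exact ⟨1, one_pos, fun b => (h.false b).elim⟩
  · obtain ⟨b0, hb0⟩ := Finite.exists_min e
    exact ⟨e b0, H.e_pos b0, fun b => by rw [mul_one]; exact hb0 b⟩

private theorem lln_one_le (H : MGWHyp q ρ e l) {c : ℝ} (hc : 0 < c) (hce : ∀ b, c * 1 ≤ e b)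
    (k : ℕ) (a : Q) (ω : Env Q) :
    NY ρ (lln_cst fun _ => 1) k a ω ≤ c⁻¹ * NY ρ (lln_cst e) k a ω := by
  rw [← lln_NY_smul]
  refine lln_NY_mono (lln_rho H).le (fun b η => ?_) k a ω
  show (1 : ℝ) ≤ c⁻¹ * e b
  rw [inv_mul_eq_div, le_div_iff₀ hc, one_mul]
  have := hce b
  linarith

/-- comparison of constant functionals -/
private theorem lln_cst_diff (H : MGWHyp q ρ e l) (y z : Q → ℝ) (k : ℕ) (a : Q) (ω : Env Q) :
    |NY ρ (lln_cst y) k a ω - NY ρ (lln_cst z) k a ω| ≤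
      (∑ b, |y b - z b|) * NY ρ (lln_cst fun _ => 1) k a ω := by
  rw [← lln_NY_sub, ← lln_NY_smul]
  refine (lln_NY_abs (lln_rho H).le _ k a ω).trans (lln_NY_mono (lln_rho H).le (fun b η => ?_) k a ω)
  show |y b - z b| ≤ (∑ b, |y b - z b|) * 1
  rw [mul_one]
  exact Finset.single_le_sum (f := fun b => |y b - z b|) (fun i _ => abs_nonneg _)
    (Finset.mem_univ b)

private theorem lln_const (H : MGWHyp q ρ e l) (y : Q → ℝ) (a : Q) :
    ∀ᵐ ω ∂mgw q a, Tendsto (fun k => NY ρ (lln_cst y) k a ω) atTop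
      (𝓝 ((∑ b, l b * y b) * Wf ρ e a ω)) := by
  obtain ⟨c, hc, hce⟩ := lln_min H
  have h1 : ∀ᵐ ω ∂mgw q a, ∀ m, Tendsto (fun k => NY ρ (lln_D q ρ y m) k a ω) atTop (𝓝 0) :=
    ae_all_iff.2 fun m => lln_centered_ae H (lln_D_meas H y m) (lln_D_memLp H y m)
      (lln_D_zero H y m) a
  filter_upwards [h1, tendsto_Wf H a] with ω hD hW
  have hW' : Tendsto (fun k => NY ρ (lln_cst e) k a ω) atTop (𝓝 (Wf ρ e a ω)) := hW
  obtain ⟨R, hR⟩ := hW'.bddAbove_range
  have hR' : ∀ k, NY ρ (lln_cst fun _ => 1) k a ω ≤ c⁻¹ * |R| := fun k =>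
    (lln_one_le H hc hce k a ω).trans (mul_le_mul_of_nonneg_left
      ((hR ⟨k, rfl⟩).trans (le_abs_self R)) (inv_nonneg.2 hc.le))
  set L := ∑ b, l b * y b with hL
  set B := c⁻¹ * |R| with hB
  have hB0 : 0 ≤ B := by positivity
  rw [Metric.tendsto_atTop]
  intro ε hε
  have h3 : ∃ m, lln_err q ρ e l y m * B < ε / 3 := by
    have h4 := (lln_err_tendsto H y).mul_const B
    rw [zero_mul] at h4
    exact (h4.eventually (gt_mem_nhds (show (0 : ℝ) < ε / 3 by positivity))).exists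
  obtain ⟨m, hm⟩ := h3
  have h5 : ∀ᶠ k in atTop, |NY ρ (lln_D q ρ y m) k a ω| < ε / 3 := by
    have := (hD m).abs
    rw [abs_zero] at this
    exact this.eventually (gt_mem_nhds (show (0 : ℝ) < ε / 3 by positivity))
  have h6 : ∀ᶠ k in atTop, |L * NY ρ (lln_cst e) k a ω - L * Wf ρ e a ω| < ε / 3 := by
    have h7 := ((hW'.const_mul L).sub_const (L * Wf ρ e a ω)).abs
    rw [sub_self, abs_zero] at h7
    exact h7.eventually (gt_mem_nhds (show (0 : ℝ) < ε / 3 by positivity))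
  obtain ⟨N, hN⟩ := eventually_atTop.1 (h5.and h6)
  refine ⟨N + m, fun k hk => ?_⟩
  obtain ⟨j, rfl⟩ : ∃ j, k = j + m := ⟨k - m, by omega⟩
  obtain ⟨h8, h9⟩ := hN j (by omega)
  have h10 := lln_cst_diff H (lln_ym q ρ y m) (fun b => L * e b) j a ω
  have h11 : NY ρ (lln_cst fun b => L * e b) j a ω = L * NY ρ (lln_cst e) j a ω :=
    lln_NY_smul L (lln_cst e) j a ω
  rw [h11] at h10
  have h12 : (∑ b, |lln_ym q ρ y m b - L * e b|) * NY ρ (lln_cst fun _ => 1) j a ω ≤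
      lln_err q ρ e l y m * B :=
    mul_le_mul_of_nonneg_left (hR' j) (Finset.sum_nonneg fun b _ => abs_nonneg _)
  rw [Real.dist_eq, lln_decomp H]
  have h13 : NY ρ (lln_D q ρ y m) j a ω + NY ρ (lln_cst (lln_ym q ρ y m)) j a ω -
      L * Wf ρ e a ω = NY ρ (lln_D q ρ y m) j a ω +
      (NY ρ (lln_cst (lln_ym q ρ y m)) j a ω - L * NY ρ (lln_cst e) j a ω) +
      (L * NY ρ (lln_cst e) j a ω - L * Wf ρ e a ω) := by ring
  rw [h13]
  have h14 := abs_add_three (NY ρ (lln_D q ρ y m) j a ω)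
    (NY ρ (lln_cst (lln_ym q ρ y m)) j a ω - L * NY ρ (lln_cst e) j a ω)
    (L * NY ρ (lln_cst e) j a ω - L * Wf ρ e a ω)
  linarith

/-! ### Two elementary sums -/

private theorem lln_sum_big {ρ : ℝ} (hρ : 1 < ρ) {t : ℝ} (ht : 0 ≤ t) (n : ℕ) :
    ∑ k ∈ range n, (if ρ ^ k < t then ρ ^ k else 0) ≤ ρ / (ρ - 1) * t := by
  have h1 : 0 < ρ - 1 := by linarith
  have hK : 0 ≤ ρ / (ρ - 1) := by positivity
  have hgeo : ∀ n : ℕ, ∑ k ∈ range n, (if ρ ^ k < t then ρ ^ k else 0) ≤ ρ ^ n / (ρ - 1) := by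
    intro n
    have h2 : ∑ k ∈ range n, (if ρ ^ k < t then ρ ^ k else 0) ≤ ∑ k ∈ range n, ρ ^ k := by
      refine Finset.sum_le_sum fun k _ => ?_
      have : 0 < ρ ^ k := by positivity
      split_ifs <;> linarith
    refine h2.trans ?_
    rw [geom_sum_eq hρ.ne']
    gcongr
    linarith
  induction n with
  | zero => simpa using mul_nonneg hK ht
  | succ n ih =>
    by_cases h : ρ ^ n < t
    · refine (hgeo (n + 1)).trans ?_
      rw [pow_succ, div_mul_eq_mul_div]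
      refine div_le_div_of_nonneg_right ?_ h1.le
      nlinarith
    · rw [Finset.sum_range_succ, if_neg h, add_zero]
      exact ih

private theorem lln_sum_small {ρ : ℝ} (hρ : 1 < ρ) {t : ℝ} (ht : 0 ≤ t) (n : ℕ) :
    ∑ k ∈ range n, (if t ≤ ρ ^ k then (ρ ^ k)⁻¹ * t ^ 2 else 0) ≤ ρ / (ρ - 1) * t := by
  have h1 : 0 < ρ - 1 := by linarith
  have hρ0 : 0 < ρ := by linarith
  have hK : 0 ≤ ρ / (ρ - 1) := by positivity
  have key : ∀ n : ℕ, ∑ k ∈ range n, (if t ≤ ρ ^ k then (ρ ^ k)⁻¹ * t ^ 2 else 0) ≤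
      ρ / (ρ - 1) * max 0 (t - t ^ 2 * (ρ ^ n)⁻¹) := by
    intro n
    induction n with
    | zero => simpa using mul_nonneg hK (le_max_left _ _)
    | succ n ih =>
      have hp : 0 < ρ ^ n := by positivity
      rw [Finset.sum_range_succ]
      by_cases h : t ≤ ρ ^ n
      · rw [if_pos h]
        have h2 : 0 ≤ t - t ^ 2 * (ρ ^ n)⁻¹ := by
          have h3 : t * (ρ ^ n)⁻¹ ≤ 1 := by
            rw [← div_eq_mul_inv, div_le_one hp]; exact h
          nlinarith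
        rw [max_eq_right h2] at ih
        have h4 : ρ / (ρ - 1) * (t - t ^ 2 * (ρ ^ n)⁻¹) + (ρ ^ n)⁻¹ * t ^ 2 =
            ρ / (ρ - 1) * (t - t ^ 2 * (ρ ^ (n + 1))⁻¹) := by
          rw [pow_succ]
          field_simp
          ring
        calc _ ≤ ρ / (ρ - 1) * (t - t ^ 2 * (ρ ^ n)⁻¹) + (ρ ^ n)⁻¹ * t ^ 2 := by linarith
          _ = ρ / (ρ - 1) * (t - t ^ 2 * (ρ ^ (n + 1))⁻¹) := h4
          _ ≤ _ := mul_le_mul_of_nonneg_left (le_max_right _ _) hK
      · rw [if_neg h, add_zero]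
        have h2 : t - t ^ 2 * (ρ ^ n)⁻¹ ≤ 0 := by
          have h3 : 1 ≤ t * (ρ ^ n)⁻¹ := by
            rw [← div_eq_mul_inv, le_div_iff₀ hp, one_mul]; exact (not_le.1 h).le
          nlinarith
        rw [max_eq_left h2, mul_zero] at ih
        exact ih.trans (mul_nonneg hK (le_max_left _ _))
  refine (key n).trans (mul_le_mul_of_nonneg_left (max_le ht ?_) hK)
  have : 0 ≤ t ^ 2 * (ρ ^ n)⁻¹ := by positivity
  linarith

/-- summability of integrals from a pointwise bound -/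
private theorem lln_summable_int {Ω : Type*} [MeasurableSpace Ω] {P : Measure Ω}
    {f : ℕ → Ω → ℝ} {g : Ω → ℝ} (hf : ∀ k, Integrable (f k) P) (h0 : ∀ k ω, 0 ≤ f k ω)
    (hg : Integrable g P) (h : ∀ n ω, ∑ k ∈ range n, f k ω ≤ g ω) :
    Summable fun k => ∫ ω, f k ω ∂P := by
  refine summable_of_sum_range_le (c := ∫ ω, g ω ∂P) (fun k => integral_nonneg (h0 k)) fun n => ?_
  rw [← integral_finsetSum _ fun k _ => hf k]
  exact integral_mono (integrable_finsetSum _ fun k _ => hf k) hg (h n)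

/-! ### Truncation -/

/-- truncation at height `ρ ^ k` -/
private noncomputable def lln_tr (ρ : ℝ) (Y : Q → Env Q → ℝ) (k : ℕ) : Q → Env Q → ℝ :=
  fun b η => if |Y b η| ≤ ρ ^ k then Y b η else 0

/-- indicator of a large value -/
private noncomputable def lln_big (ρ : ℝ) (Y : Q → Env Q → ℝ) (k : ℕ) : Q → Env Q → ℝ :=
  fun b η => if ρ ^ k < |Y b η| then 1 else 0

private theorem lln_tr_meas {Y : Q → Env Q → ℝ} (hm : ∀ b, Measurable (Y b)) (k : ℕ) (b : Q) :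
    Measurable (lln_tr ρ Y k b) :=
  Measurable.ite (measurableSet_le (hm b).abs measurable_const) (hm b) measurable_const

private theorem lln_big_meas {Y : Q → Env Q → ℝ} (hm : ∀ b, Measurable (Y b)) (k : ℕ) (b : Q) :
    Measurable (lln_big ρ Y k b) :=
  Measurable.ite (measurableSet_lt measurable_const (hm b).abs) measurable_const measurable_const

private theorem lln_tr_bound (Y : Q → Env Q → ℝ) (hρ : 0 ≤ ρ) (k : ℕ) (b : Q) (η : Env Q) :
    |lln_tr ρ Y k b η| ≤ ρ ^ k := by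
  unfold lln_tr
  split_ifs with h
  · exact h
  · simpa using pow_nonneg hρ k

private theorem lln_tr_abs_le (Y : Q → Env Q → ℝ) (k : ℕ) (b : Q) (η : Env Q) :
    |lln_tr ρ Y k b η| ≤ |Y b η| := by
  unfold lln_tr
  split_ifs with h
  · exact le_rfl
  · simp

private theorem lln_tr_memLp (H : MGWHyp q ρ e l) {Y : Q → Env Q → ℝ}
    (hm : ∀ b, Measurable (Y b)) (k : ℕ) (b : Q) : MemLp (lln_tr ρ Y k b) 2 (mgw q b) := by
  have := lln_prob H b
  exact MemLp.of_bound (lln_tr_meas hm k b).aestronglyMeasurable (ρ ^ k)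
    (Eventually.of_forall fun η => by
      rw [Real.norm_eq_abs]; exact lln_tr_bound Y (lln_rho H).le k b η)

private theorem lln_tr_integrable (H : MGWHyp q ρ e l) {Y : Q → Env Q → ℝ}
    (hm : ∀ b, Measurable (Y b)) (k : ℕ) (b : Q) : Integrable (lln_tr ρ Y k b) (mgw q b) := by
  have := lln_prob H b
  exact (lln_tr_memLp H hm k b).integrable (by norm_num)

private theorem lln_big_integrable (H : MGWHyp q ρ e l) {Y : Q → Env Q → ℝ}
    (hm : ∀ b, Measurable (Y b)) (k : ℕ) (b : Q) : Integrable (lln_big ρ Y k b) (mgw q b) := by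
  have := lln_prob H b
  refine (MemLp.of_bound (p := 1) (lln_big_meas hm k b).aestronglyMeasurable 1
    (Eventually.of_forall fun η => ?_)).integrable le_rfl
  unfold lln_big
  split_ifs <;> simp

/-- eventually no value above `ρ ^ k` at level `k` -/
private theorem lln_eventually_tr (H : MGWHyp q ρ e l) {Y : Q → Env Q → ℝ}
    (hm : ∀ b, Measurable (Y b)) (hi : ∀ b, Integrable (Y b) (mgw q b)) (a : Q) :
    ∀ᵐ ω ∂mgw q a, ∀ᶠ k in atTop, NY ρ Y k a ω = NY ρ (lln_tr ρ Y k) k a ω := by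
  obtain ⟨C, hC, hbd⟩ := lln_bdd H
  have hρ := lln_rho H
  have hi' : ∀ k, Integrable (fun ω => ρ ^ k * NY ρ (lln_big ρ Y k) k a ω) (mgw q a) := fun k =>
    (lln_integrable_NY H (lln_big_meas hm k) (lln_big_integrable H hm k) k a).const_mul _
  have h0 : ∀ k ω, 0 ≤ ρ ^ k * NY ρ (lln_big ρ Y k) k a ω := fun k ω =>
    mul_nonneg (by positivity) (lln_NY_nonneg hρ.le (fun b η => by
      unfold lln_big; split_ifs <;> norm_num) k a ω)
  have hsum : Summable fun k => ∫ ω, ρ ^ k * NY ρ (lln_big ρ Y k) k a ω ∂mgw q a := by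
    have h1 : ∀ b, Summable fun k => ∫ ω, ρ ^ k * lln_big ρ Y k b ω ∂mgw q b := by
      intro b
      refine lln_summable_int (g := fun ω => ρ / (ρ - 1) * |Y b ω|)
        (fun k => (lln_big_integrable H hm k b).const_mul _) (fun k ω => ?_)
        ((hi b).abs.const_mul _) (fun n ω => ?_)
      · refine mul_nonneg (by positivity) ?_
        unfold lln_big; split_ifs <;> norm_num
      · have h2 := lln_sum_big H.one_lt (abs_nonneg (Y b ω)) n
        refine le_trans (le_of_eq ?_) h2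
        refine Finset.sum_congr rfl fun k _ => ?_
        unfold lln_big
        split_ifs <;> simp
    have h2 : Summable fun k => C * ∑ b, ∫ ω, ρ ^ k * lln_big ρ Y k b ω ∂mgw q b :=
      (summable_sum fun b _ => h1 b).mul_left C
    refine Summable.of_nonneg_of_le (fun k => integral_nonneg (h0 k)) (fun k => ?_) h2
    rw [integral_const_mul]
    have h3 := lln_first_le H hbd (lln_big_meas hm k) (lln_big_integrable H hm k)
      (fun b η => by unfold lln_big; split_ifs <;> norm_num) k a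
    have h4 : C * ∑ b, ∫ ω, ρ ^ k * lln_big ρ Y k b ω ∂mgw q b =
        ρ ^ k * (C * ∑ b, ∫ ω, lln_big ρ Y k b ω ∂mgw q b) := by
      simp only [integral_const_mul, Finset.mul_sum]
      exact Finset.sum_congr rfl fun b _ => by ring
    rw [h4]
    exact mul_le_mul_of_nonneg_left h3 (by positivity)
  filter_upwards [lln_ae_zero hi' h0 hsum] with ω hω
  filter_upwards [hω.eventually (gt_mem_nhds (zero_lt_one (α := ℝ)))] with k hk
  rw [lln_NY_sum, ← mul_assoc, mul_inv_cancel₀ (by positivity), one_mul] at hk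
  rw [lln_NY_sum, lln_NY_sum]
  congr 1
  refine Finset.sum_congr rfl fun v hv => ?_
  have h5 : lift a (lln_big ρ Y k) ω v ≤ ∑ v ∈ lev (chE ω) k, lift a (lln_big ρ Y k) ω v :=
    Finset.single_le_sum (f := fun v => lift a (lln_big ρ Y k) ω v) (fun u _ => by
      unfold lift lln_big; split_ifs <;> norm_num) hv
  have h6 : lift a (lln_big ρ Y k) ω v < 1 := lt_of_le_of_lt h5 hk
  have h7 : ¬ ρ ^ k < |Y (typ a v) (sub ω v)| := by
    intro h8
    have h9 : lift a (lln_big ρ Y k) ω v = 1 := by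
      unfold lift lln_big
      rw [if_pos h8]
    linarith
  unfold lift lln_tr
  rw [if_pos (not_lt.1 h7)]

private theorem lln_tr_tendsto (H : MGWHyp q ρ e l) {Y : Q → Env Q → ℝ}
    (hm : ∀ b, Measurable (Y b)) (hi : ∀ b, Integrable (Y b) (mgw q b)) (b : Q) :
    Tendsto (fun k => ∫ ω, lln_tr ρ Y k b ω ∂mgw q b) atTop (𝓝 (∫ ω, Y b ω ∂mgw q b)) := by
  refine tendsto_integral_of_dominated_convergence (fun ω => |Y b ω|)
    (fun k => (lln_tr_meas hm k b).aestronglyMeasurable) (hi b).abs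
    (fun k => Eventually.of_forall fun ω => by
      rw [Real.norm_eq_abs]; exact lln_tr_abs_le Y k b ω)
    (Eventually.of_forall fun ω => ?_)
  have h1 : ∀ᶠ k : ℕ in atTop, |Y b ω| ≤ ρ ^ k :=
    (tendsto_pow_atTop_atTop_of_one_lt H.one_lt).eventually_ge_atTop _
  refine tendsto_const_nhds.congr' ?_
  filter_upwards [h1] with k hk
  unfold lln_tr
  rw [if_pos hk]

/-- centred truncation -/
private noncomputable def lln_Dk (q : Q → Measure (Q → ℕ)) (ρ : ℝ) (Y : Q → Env Q → ℝ) (k : ℕ) :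
    Q → Env Q → ℝ := fun b η => lln_tr ρ Y k b η -
      lln_cst (fun b => ∫ ω, lln_tr ρ Y k b ω ∂mgw q b) b η

private theorem lln_Dk_ae (H : MGWHyp q ρ e l) {Y : Q → Env Q → ℝ}
    (hm : ∀ b, Measurable (Y b)) (hi : ∀ b, Integrable (Y b) (mgw q b)) (a : Q) :
    ∀ᵐ ω ∂mgw q a, Tendsto (fun k => NY ρ (lln_Dk q ρ Y k) k a ω) atTop (𝓝 0) := by
  obtain ⟨C, hC, hbd⟩ := lln_bdd H
  have hρ := lln_rho H
  have hDm : ∀ k b, Measurable (lln_Dk q ρ Y k b) := fun k b =>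
    (lln_tr_meas hm k b).sub (lln_cst_meas _ b)
  have hD2 : ∀ k b, MemLp (lln_Dk q ρ Y k b) 2 (mgw q b) := fun k b =>
    (lln_tr_memLp H hm k b).sub (lln_cst_memLp H _ b)
  have hD0 : ∀ k b, ∫ ω, lln_Dk q ρ Y k b ω ∂mgw q b = 0 := by
    intro k b
    have h := integral_sub (lln_tr_integrable H hm k b)
      (lln_cst_integrable H (fun b => ∫ ω, lln_tr ρ Y k b ω ∂mgw q b) b)
    have h2 : ∫ ω, lln_Dk q ρ Y k b ω ∂mgw q b = ∫ ω, lln_tr ρ Y k b ω -
      lln_cst (fun b => ∫ ω, lln_tr ρ Y k b ω ∂mgw q b) b ω ∂mgw q b := rfl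
    rw [h2, h, lln_cst_integral H, sub_self]
  -- variance bound
  have hvar : ∀ k b, ∫ ω, lln_Dk q ρ Y k b ω ^ 2 ∂mgw q b ≤
      ∫ ω, lln_tr ρ Y k b ω ^ 2 ∂mgw q b := by
    intro k b
    have := lln_prob H b
    set m := ∫ ω, lln_tr ρ Y k b ω ∂mgw q b with hmdef
    have h1 : ∀ ω, lln_Dk q ρ Y k b ω ^ 2 =
        lln_tr ρ Y k b ω ^ 2 - (2 * m * lln_tr ρ Y k b ω - m ^ 2) := by
      intro ω
      simp only [lln_Dk, lln_cst, ← hmdef]
      ring
    simp only [h1]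
    have hI1 : Integrable (fun ω => 2 * m * lln_tr ρ Y k b ω) (mgw q b) :=
      (lln_tr_integrable H hm k b).const_mul _
    have hI2 : Integrable (fun ω => 2 * m * lln_tr ρ Y k b ω - m ^ 2) (mgw q b) :=
      hI1.sub (integrable_const _)
    rw [integral_sub (lln_tr_memLp H hm k b).integrable_sq hI2,
      integral_sub hI1 (integrable_const _), integral_const_mul, ← hmdef]
    simp only [integral_const, probReal_univ, smul_eq_mul, one_mul]
    nlinarith [sq_nonneg m]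
  refine lln_ae_zero_sq (fun k => lln_memLp_NY H (hDm k) (hD2 k) k a) ?_
  have h1 : ∀ b, Summable fun k => ∫ ω, (ρ ^ k)⁻¹ * lln_tr ρ Y k b ω ^ 2 ∂mgw q b := by
    intro b
    refine lln_summable_int (g := fun ω => ρ / (ρ - 1) * |Y b ω|)
      (fun k => (lln_tr_memLp H hm k b).integrable_sq.const_mul _) (fun k ω => by positivity)
      ((hi b).abs.const_mul _) (fun n ω => ?_)
    have h2 := lln_sum_small H.one_lt (abs_nonneg (Y b ω)) n
    refine le_trans (le_of_eq ?_) h2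
    refine Finset.sum_congr rfl fun k _ => ?_
    unfold lln_tr
    split_ifs <;> simp
  have h2 : Summable fun k => C * ∑ b, ∫ ω, (ρ ^ k)⁻¹ * lln_tr ρ Y k b ω ^ 2 ∂mgw q b :=
    (summable_sum fun b _ => h1 b).mul_left C
  refine Summable.of_nonneg_of_le (fun k => integral_nonneg fun ω => sq_nonneg _) (fun k => ?_) h2
  refine (lln_sq_le H hbd (hDm k) (hD2 k) (hD0 k) k a).trans ?_
  have h3 : C * ∑ b, ∫ ω, (ρ ^ k)⁻¹ * lln_tr ρ Y k b ω ^ 2 ∂mgw q b =
      C * (ρ ^ k)⁻¹ * ∑ b, ∫ ω, lln_tr ρ Y k b ω ^ 2 ∂mgw q b := by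
    simp only [integral_const_mul, Finset.mul_sum]
    exact Finset.sum_congr rfl fun b _ => by ring
  rw [h3]
  exact mul_le_mul_of_nonneg_left (Finset.sum_le_sum fun b _ => hvar k b) (by positivity)

/-! ### The law of large numbers -/

theorem lln (H : MGWHyp q ρ e l) {Y : Q → Env Q → ℝ} (hm : ∀ b, Measurable (Y b))
    (hi : ∀ b, Integrable (Y b) (mgw q b)) (a : Q) :
    ∀ᵐ ω ∂mgw q a, Tendsto (fun k => NY ρ Y k a ω) atTop
      (𝓝 ((∑ b, l b * ∫ ω', Y b ω' ∂mgw q b) * Wf ρ e a ω)) := by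
  obtain ⟨c, hc, hce⟩ := lln_min H
  filter_upwards [lln_eventually_tr H hm hi a, lln_Dk_ae H hm hi a,
    lln_const H (fun b => ∫ ω', Y b ω' ∂mgw q b) a, lln_const H (fun _ => 1) a]
    with ω h1 h2 h3 h4
  -- the means converge
  set m := fun b => ∫ ω', Y b ω' ∂mgw q b with hmdef
  set mk := fun (k : ℕ) (b : Q) => ∫ ω', lln_tr ρ Y k b ω' ∂mgw q b with hmk
  have h5 : Tendsto (fun k => ∑ b, |mk k b - m b|) atTop (𝓝 0) := by
    have h6 : ∀ b ∈ (Finset.univ : Finset Q), Tendsto (fun k => |mk k b - m b|) atTop (𝓝 0) := by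
      intro b _
      have h7 := ((lln_tr_tendsto H hm hi b).sub_const (m b)).abs
      simpa [hmdef] using h7
    simpa using tendsto_finsetSum _ h6
  have h6 : Tendsto (fun k => NY ρ (lln_cst (mk k)) k a ω - NY ρ (lln_cst m) k a ω) atTop
      (𝓝 0) := by
    have h7 := h5.mul h4
    rw [zero_mul] at h7
    exact squeeze_zero_norm (fun k => by
      rw [Real.norm_eq_abs]; exact lln_cst_diff H (mk k) m k a ω) h7
  have h7 : Tendsto (fun k => NY ρ (lln_tr ρ Y k) k a ω) atTop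
      (𝓝 ((∑ b, l b * m b) * Wf ρ e a ω)) := by
    have h8 := (h2.add h6).add h3
    rw [add_zero, zero_add] at h8
    refine h8.congr fun k => ?_
    have h9 : NY ρ (lln_Dk q ρ Y k) k a ω =
        NY ρ (lln_tr ρ Y k) k a ω - NY ρ (lln_cst (mk k)) k a ω := lln_NY_sub _ _ k a ω
    rw [h9]
    ring
  refine h7.congr' ?_
  filter_upwards [h1] with k hk
  exact hk.symm

/-! ### `L¹` convergence -/

private theorem lln_L1_of_sq {Ω : Type*} [MeasurableSpace Ω] {P : Measure Ω}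
    [IsProbabilityMeasure P] {f : ℕ → Ω → ℝ} (hf : ∀ k, MemLp (f k) 2 P)
    (hs : Tendsto (fun k => ∫ ω, f k ω ^ 2 ∂P) atTop (𝓝 0)) :
    Tendsto (fun k => ∫ ω, |f k ω| ∂P) atTop (𝓝 0) := by
  rw [Metric.tendsto_atTop]
  intro ε hε
  have h1 : ∀ᶠ k in atTop, ∫ ω, f k ω ^ 2 ∂P < ε ^ 2 / 2 :=
    hs.eventually (gt_mem_nhds (by positivity))
  obtain ⟨N, hN⟩ := eventually_atTop.1 h1
  refine ⟨N, fun k hk => ?_⟩
  have h2 := hN k hk
  have hfi : Integrable (fun ω => |f k ω|) P := ((hf k).integrable (by norm_num)).abs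
  have hg : Integrable (fun ω => ε / 2 + f k ω ^ 2 * (2 * ε)⁻¹) P :=
    (integrable_const _).add ((hf k).integrable_sq.mul_const _)
  have h3 : ∫ ω, |f k ω| ∂P ≤ ∫ ω, (ε / 2 + f k ω ^ 2 * (2 * ε)⁻¹) ∂P := by
    refine integral_mono hfi hg fun ω => ?_
    show |f k ω| ≤ ε / 2 + f k ω ^ 2 * (2 * ε)⁻¹
    have h4 : 0 ≤ (|f k ω| - ε) ^ 2 * (2 * ε)⁻¹ := by positivity
    have h5 : (|f k ω| - ε) ^ 2 * (2 * ε)⁻¹ = ε / 2 + f k ω ^ 2 * (2 * ε)⁻¹ - |f k ω| := by
      have h6 : f k ω ^ 2 = |f k ω| ^ 2 := (sq_abs _).symm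
      rw [h6]
      field_simp
      ring
    linarith
  rw [integral_add (integrable_const _) ((hf k).integrable_sq.mul_const _), integral_mul_const]
    at h3
  simp only [integral_const, probReal_univ, smul_eq_mul, one_mul] at h3
  have h7 : (∫ ω, f k ω ^ 2 ∂P) * (2 * ε)⁻¹ < ε ^ 2 / 2 * (2 * ε)⁻¹ :=
    mul_lt_mul_of_pos_right h2 (by positivity)
  have h8 : ε ^ 2 / 2 * (2 * ε)⁻¹ = ε / 4 := by
    field_simp
    ring
  rw [Real.dist_eq, sub_zero, abs_of_nonneg (integral_nonneg fun ω => abs_nonneg _)]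
  linarith

private theorem lln_centered_L1 (H : MGWHyp q ρ e l) {D : Q → Env Q → ℝ}
    (hm : ∀ b, Measurable (D b)) (h2 : ∀ b, MemLp (D b) 2 (mgw q b))
    (h0 : ∀ b, ∫ ω, D b ω ∂mgw q b = 0) (a : Q) :
    Tendsto (fun k => ∫ ω, |NY ρ D k a ω| ∂mgw q a) atTop (𝓝 0) := by
  obtain ⟨C, hC, hbd⟩ := lln_bdd H
  have := lln_prob H a
  refine lln_L1_of_sq (fun k => lln_memLp_NY H hm h2 k a) ?_
  have h1 := ((lln_summable_geo H).tendsto_atTop_zero.const_mul C).mul_const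
    (∑ b, ∫ ω, D b ω ^ 2 ∂mgw q b)
  rw [mul_zero, zero_mul] at h1
  exact squeeze_zero (fun k => integral_nonneg fun ω => sq_nonneg _)
    (fun k => lln_sq_le H hbd hm h2 h0 k a) h1

/-- Scheffé's lemma for `NY ρ e` -/
private theorem lln_e_L1 (H : MGWHyp q ρ e l) (a : Q) :
    Tendsto (fun k => ∫ ω, |NY ρ (lln_cst e) k a ω - Wf ρ e a ω| ∂mgw q a) atTop (𝓝 0) := by
  have := lln_prob H a
  have hρ := lln_rho H
  have hW : Integrable (Wf ρ e a) (mgw q a) := (memLp_Wf H a).integrable (by norm_num)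
  have hf : ∀ k, Integrable (NY ρ (lln_cst e) k a) (mgw q a) := fun k =>
    lln_integrable_NY H (lln_cst_meas e) (lln_cst_integrable H e) k a
  have hf0 : ∀ k ω, 0 ≤ NY ρ (lln_cst e) k a ω := fun k ω =>
    lln_NY_nonneg hρ.le (fun b η => (H.e_pos b).le) k a ω
  have hW0 : ∀ ω, 0 ≤ Wf ρ e a ω := fun ω => Wf_nonneg hρ.le (fun b => (H.e_pos b).le) a ω
  have hpos : ∀ k, Integrable (fun ω => max (Wf ρ e a ω - NY ρ (lln_cst e) k a ω) 0)
      (mgw q a) := fun k => (hW.sub (hf k)).pos_part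
  have h1 : Tendsto (fun k => ∫ ω, max (Wf ρ e a ω - NY ρ (lln_cst e) k a ω) 0 ∂mgw q a) atTop
      (𝓝 (∫ ω, (0 : ℝ) ∂mgw q a)) := by
    refine tendsto_integral_of_dominated_convergence (fun ω => Wf ρ e a ω)
      (fun k => (hpos k).1) hW (fun k => Eventually.of_forall fun ω => ?_) ?_
    · rw [Real.norm_eq_abs, abs_of_nonneg (le_max_right _ _)]
      exact max_le (by have := hf0 k ω; linarith) (hW0 ω)
    · filter_upwards [tendsto_Wf H a] with ω hω
      have hω' : Tendsto (fun k => NY ρ (lln_cst e) k a ω) atTop (𝓝 (Wf ρ e a ω)) := hω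
      have h2 := (hω'.const_sub (Wf ρ e a ω)).max (tendsto_const_nhds (x := (0 : ℝ)))
      simpa using h2
  have h2 : Tendsto (fun k => ∫ ω, NY ρ (lln_cst e) k a ω ∂mgw q a - ∫ ω, Wf ρ e a ω ∂mgw q a)
      atTop (𝓝 0) := by
    have h3 := (lln_ym_tendsto H e a).sub_const (∫ ω, Wf ρ e a ω ∂mgw q a)
    rw [H.le_one, one_mul, integral_Wf H, sub_self] at h3
    refine h3.congr fun k => ?_
    rw [lln_ym_eq H, integral_Wf H]
  have h3 := (h1.const_mul 2).add h2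
  rw [integral_zero, mul_zero, add_zero] at h3
  refine h3.congr fun k => ?_
  have hI1 : Integrable (fun ω => 2 * max (Wf ρ e a ω - NY ρ (lln_cst e) k a ω) 0)
      (mgw q a) := (hpos k).const_mul 2
  have hI2 : Integrable (fun ω => NY ρ (lln_cst e) k a ω - Wf ρ e a ω) (mgw q a) :=
    (hf k).sub hW
  rw [← integral_const_mul, ← integral_sub (hf k) hW, ← integral_add hI1 hI2]
  refine integral_congr_ae (Eventually.of_forall fun ω => ?_)
  show 2 * max (Wf ρ e a ω - NY ρ (lln_cst e) k a ω) 0 + (NY ρ (lln_cst e) k a ω - Wf ρ e a ω) =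
    |NY ρ (lln_cst e) k a ω - Wf ρ e a ω|
  rcases le_total (Wf ρ e a ω) (NY ρ (lln_cst e) k a ω) with h | h
  · rw [max_eq_right (by linarith), abs_of_nonneg (by linarith)]; ring
  · rw [max_eq_left (by linarith), abs_of_nonpos (by linarith)]; ring

private theorem lln_const_L1 (H : MGWHyp q ρ e l) (y : Q → ℝ) (a : Q) :
    Tendsto (fun k => ∫ ω, |NY ρ (lln_cst y) k a ω - (∑ b, l b * y b) * Wf ρ e a ω| ∂mgw q a)
      atTop (𝓝 0) := by
  have := lln_prob H a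
  obtain ⟨C, hC, hbd⟩ := lln_bdd H
  set L := ∑ b, l b * y b with hL
  set B := C * ∑ b : Q, (1 : ℝ) with hB
  have hB0 : 0 ≤ B := by positivity
  have h1 : ∀ k, ∫ ω, NY ρ (lln_cst fun _ => 1) k a ω ∂mgw q a ≤ B := by
    intro k
    have h2 := lln_first_le H hbd (lln_cst_meas fun _ => 1) (lln_cst_integrable H fun _ => 1)
      (fun b η => zero_le_one) k a
    simpa only [lln_cst_integral H] using h2
  have hW : Integrable (Wf ρ e a) (mgw q a) := (memLp_Wf H a).integrable (by norm_num)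
  have hI : ∀ (z : Q → ℝ) k, Integrable (NY ρ (lln_cst z) k a) (mgw q a) := fun z k =>
    lln_integrable_NY H (lln_cst_meas z) (lln_cst_integrable H z) k a
  have hD : ∀ m k, Integrable (NY ρ (lln_D q ρ y m) k a) (mgw q a) := fun m k =>
    (lln_memLp_NY H (lln_D_meas H y m) (lln_D_memLp H y m) k a).integrable (by norm_num)
  rw [Metric.tendsto_atTop]
  intro ε hε
  have h3 : ∃ m, lln_err q ρ e l y m * B < ε / 3 := by
    have h4 := (lln_err_tendsto H y).mul_const B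
    rw [zero_mul] at h4
    exact (h4.eventually (gt_mem_nhds (show (0 : ℝ) < ε / 3 by positivity))).exists
  obtain ⟨m, hm⟩ := h3
  have h5 : ∀ᶠ k in atTop, ∫ ω, |NY ρ (lln_D q ρ y m) k a ω| ∂mgw q a < ε / 3 :=
    (lln_centered_L1 H (lln_D_meas H y m) (lln_D_memLp H y m) (lln_D_zero H y m) a).eventually
      (gt_mem_nhds (show (0 : ℝ) < ε / 3 by positivity))
  have h6 : ∀ᶠ k in atTop, |L| * ∫ ω, |NY ρ (lln_cst e) k a ω - Wf ρ e a ω| ∂mgw q a
      < ε / 3 := by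
    have h7 := (lln_e_L1 H a).const_mul |L|
    rw [mul_zero] at h7
    exact h7.eventually (gt_mem_nhds (show (0 : ℝ) < ε / 3 by positivity))
  obtain ⟨N, hN⟩ := eventually_atTop.1 (h5.and h6)
  refine ⟨N + m, fun k hk => ?_⟩
  obtain ⟨j, rfl⟩ : ∃ j, k = j + m := ⟨k - m, by omega⟩
  obtain ⟨h8, h9⟩ := hN j (by omega)
  rw [Real.dist_eq, sub_zero, abs_of_nonneg (integral_nonneg fun ω => abs_nonneg _)]
  have hI1 : Integrable (fun ω => |NY ρ (lln_D q ρ y m) j a ω|) (mgw q a) := (hD m j).abs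
  have hI2 : Integrable (fun ω => lln_err q ρ e l y m * NY ρ (lln_cst fun _ => 1) j a ω)
      (mgw q a) := (hI _ j).const_mul _
  have hI3 : Integrable (fun ω => |L| * |NY ρ (lln_cst e) j a ω - Wf ρ e a ω|) (mgw q a) :=
    ((hI e j).sub hW).abs.const_mul _
  have hI12 : Integrable (fun ω => |NY ρ (lln_D q ρ y m) j a ω| +
      lln_err q ρ e l y m * NY ρ (lln_cst fun _ => 1) j a ω) (mgw q a) := hI1.add hI2
  have h10 : ∫ ω, |NY ρ (lln_cst y) (j + m) a ω - L * Wf ρ e a ω| ∂mgw q a ≤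
      ∫ ω, (|NY ρ (lln_D q ρ y m) j a ω| + lln_err q ρ e l y m *
        NY ρ (lln_cst fun _ => 1) j a ω + |L| * |NY ρ (lln_cst e) j a ω - Wf ρ e a ω|)
        ∂mgw q a := by
    refine integral_mono (((hI y _).sub (hW.const_mul L)).abs) (hI12.add hI3) fun ω => ?_
    show |NY ρ (lln_cst y) (j + m) a ω - L * Wf ρ e a ω| ≤
      |NY ρ (lln_D q ρ y m) j a ω| + lln_err q ρ e l y m *
        NY ρ (lln_cst fun _ => 1) j a ω + |L| * |NY ρ (lln_cst e) j a ω - Wf ρ e a ω|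
    rw [lln_decomp H]
    have h10 := lln_cst_diff H (lln_ym q ρ y m) (fun b => L * e b) j a ω
    have h11 : NY ρ (lln_cst fun b => L * e b) j a ω = L * NY ρ (lln_cst e) j a ω :=
      lln_NY_smul L (lln_cst e) j a ω
    rw [h11] at h10
    have h12 : (∑ b, |lln_ym q ρ y m b - L * e b|) = lln_err q ρ e l y m := rfl
    rw [h12] at h10
    have h13 : NY ρ (lln_D q ρ y m) j a ω + NY ρ (lln_cst (lln_ym q ρ y m)) j a ω -
        L * Wf ρ e a ω = NY ρ (lln_D q ρ y m) j a ω +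
        (NY ρ (lln_cst (lln_ym q ρ y m)) j a ω - L * NY ρ (lln_cst e) j a ω) +
        L * (NY ρ (lln_cst e) j a ω - Wf ρ e a ω) := by ring
    rw [h13]
    have h14 := abs_add_three (NY ρ (lln_D q ρ y m) j a ω)
      (NY ρ (lln_cst (lln_ym q ρ y m)) j a ω - L * NY ρ (lln_cst e) j a ω)
      (L * (NY ρ (lln_cst e) j a ω - Wf ρ e a ω))
    rw [abs_mul L] at h14
    linarith
  rw [integral_add hI12 hI3, integral_add hI1 hI2, integral_const_mul, integral_const_mul]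
    at h10
  have h15 : lln_err q ρ e l y m * ∫ ω, NY ρ (lln_cst fun _ => 1) j a ω ∂mgw q a ≤
      lln_err q ρ e l y m * B :=
    mul_le_mul_of_nonneg_left (h1 j) (Finset.sum_nonneg fun b _ => abs_nonneg _)
  linarith

/-- L¹ convergence for square integrable functionals -/
theorem lln_L1 (H : MGWHyp q ρ e l) {Y : Q → Env Q → ℝ} (hm : ∀ b, Measurable (Y b))
    (h2 : ∀ b, MemLp (Y b) 2 (mgw q b)) (a : Q) :
    Tendsto (fun k => ∫ ω, |NY ρ Y k a ω - (∑ b, l b * ∫ ω', Y b ω' ∂mgw q b) * Wf ρ e a ω|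
      ∂mgw q a) atTop (𝓝 0) := by
  have := lln_prob H a
  set m := fun b => ∫ ω', Y b ω' ∂mgw q b with hmdef
  set L := ∑ b, l b * m b with hL
  have hi : ∀ b, Integrable (Y b) (mgw q b) := fun b => by
    have := lln_prob H b
    exact (h2 b).integrable (by norm_num)
  have hDm : ∀ b, Measurable (fun η => Y b η - lln_cst m b η) := fun b =>
    (hm b).sub (lln_cst_meas m b)
  have hD2 : ∀ b, MemLp (fun η => Y b η - lln_cst m b η) 2 (mgw q b) := fun b =>
    (h2 b).sub (lln_cst_memLp H m b)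
  have hD0 : ∀ b, ∫ η, (Y b η - lln_cst m b η) ∂mgw q b = 0 := fun b => by
    rw [integral_sub (hi b) (lln_cst_integrable H m b), lln_cst_integral H, sub_self]
  have hW : Integrable (Wf ρ e a) (mgw q a) := (memLp_Wf H a).integrable (by norm_num)
  have h3 := (lln_centered_L1 H (D := fun b η => Y b η - lln_cst m b η) hDm hD2 hD0 a).add
    (lln_const_L1 H m a)
  rw [add_zero] at h3
  refine squeeze_zero (fun k => integral_nonneg fun ω => abs_nonneg _) (fun k => ?_) h3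
  have hI1 : Integrable (NY ρ (fun b η => Y b η - lln_cst m b η) k a) (mgw q a) :=
    (lln_memLp_NY H hDm hD2 k a).integrable (by norm_num)
  have hI2 : Integrable (fun ω => NY ρ (lln_cst m) k a ω - L * Wf ρ e a ω) (mgw q a) :=
    (lln_integrable_NY H (lln_cst_meas m) (lln_cst_integrable H m) k a).sub (hW.const_mul L)
  rw [← integral_add hI1.abs hI2.abs]
  refine integral_mono (((lln_integrable_NY H hm hi k a).sub (hW.const_mul L)).abs)
    (hI1.abs.add hI2.abs) fun ω => ?_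
  show |NY ρ Y k a ω - L * Wf ρ e a ω| ≤ |NY ρ (fun b η => Y b η - lln_cst m b η) k a ω| +
    |NY ρ (lln_cst m) k a ω - L * Wf ρ e a ω|
  have h4 : NY ρ (fun b η => Y b η - lln_cst m b η) k a ω =
      NY ρ Y k a ω - NY ρ (lln_cst m) k a ω := lln_NY_sub _ _ k a ω
  rw [h4]
  have h5 := abs_add_le (NY ρ Y k a ω - NY ρ (lln_cst m) k a ω)
    (NY ρ (lln_cst m) k a ω - L * Wf ρ e a ω)
  have h6 : NY ρ Y k a ω - NY ρ (lln_cst m) k a ω + (NY ρ (lln_cst m) k a ω - L * Wf ρ e a ω) =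
      NY ρ Y k a ω - L * Wf ρ e a ω := by ring
  rw [h6] at h5
  exact h5

end GW

end Pool.Agent.BW
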