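import Pool.Agent.Lib.MP_276d40_pr.SpatW
import Pool.Agent.Lib.MP_276d40_pr.LLN

open MeasureTheory ProbabilityTheory Filter Topology Finset
open scoped ENNReal NNReal

set_option linter.unusedSectionVars false
set_option linter.unusedVariables false

namespace Pool.Agent.BW

section Det

private theorem cesaro_le {u : ℕ → ℝ} {ε : ℝ} (hε : 0 < ε) (h : ∀ᶠ k in atTop, u k ≤ ε) (B : ℝ) :
    ∀ᶠ n : ℕ in atTop, (B + ∑ k ∈ range n, u k) / n ≤ 2 * ε := by
  obtain ⟨k0, hk0⟩ := eventually_atTop.1 h
  set C : ℝ := ∑ k ∈ range k0, |u k| with hC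
  have hsum : ∀ n : ℕ, ∑ k ∈ range n, u k ≤ n * ε + C := by
    intro n
    calc ∑ k ∈ range n, u k ≤ ∑ k ∈ range n, (ε + if k < k0 then |u k| else 0) := by
          refine Finset.sum_le_sum fun k _ => ?_
          by_cases hk : k < k0
          · rw [if_pos hk]; linarith [le_abs_self (u k)]
          · rw [if_neg hk, add_zero]; exact hk0 k (not_lt.1 hk)
      _ = n * ε + ∑ k ∈ (range n).filter (fun k => k < k0), |u k| := by
          rw [Finset.sum_add_distrib, Finset.sum_const, Finset.card_range, nsmul_eq_mul,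
            Finset.sum_filter]
      _ ≤ n * ε + C := by
          refine add_le_add le_rfl ?_
          refine Finset.sum_le_sum_of_subset_of_nonneg ?_ fun _ _ _ => abs_nonneg _
          intro k hk
          rw [Finset.mem_filter] at hk
          exact Finset.mem_range.2 hk.2
  have hbig : ∀ᶠ n : ℕ in atTop, B + C ≤ ε * n := by
    have : Tendsto (fun n : ℕ => ε * (n : ℝ)) atTop atTop :=
      Tendsto.const_mul_atTop hε tendsto_natCast_atTop_atTop
    exact this.eventually_ge_atTop _
  filter_upwards [hbig, eventually_gt_atTop 0] with n hn hn0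
  have hn0' : (0 : ℝ) < n := by exact_mod_cast hn0
  rw [div_le_iff₀ hn0']
  linarith [hsum n]

variable {I : Type} [DecidableEq I] {ch : List I → Finset I} {ρ : ℝ}

private theorem Yone_nonneg' (hρ : 0 ≤ ρ) (v : List I) : 0 ≤ Yone ch ρ v :=
  add_nonneg hρ (Nat.cast_nonneg _)

private theorem drop_append_len (u w : List I) {J : ℕ} (h : u.length = J) :
    (u ++ w).drop J = w := by
  rw [← h, List.drop_left]

private theorem spat_det (hρ : 0 < ρ) {W : List I → ℝ} (hW : ∀ v, 0 ≤ W v) {κ : ℝ} (hκ : 0 < κ)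
    {c1 : ℝ} (hc1 : 0 ≤ c1)
    (h1 : Tendsto (fun k : ℕ => mu ch ρ k (fun v => W v * |ps W v - κ * k|) / k) atTop (𝓝 0))
    (h2 : ∀ ε > 0, ∃ J : ℕ,
      (∀ᶠ k in atTop, mu ch ρ k (fun w => |Fj ch ρ (Yone ch ρ) J w - c1 * W w|) ≤ ε) ∧
      ∃ R : ℝ, ∀ᶠ k in atTop, mu ch ρ (k + J) (fun v =>
        if R < ps W v - ps W (v.drop J) then Yone ch ρ v else 0) ≤ ε) :
    ∀ δ > 0, Tendsto (fun ℓ : ℕ => (∑ k ∈ range ℓ, mu ch ρ k (fun v =>
      if δ * ℓ < |(v.length : ℝ) - ps W v / κ| then Yone ch ρ v else 0)) / ℓ) atTop (𝓝 0) := by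
  intro δ hδ
  have hρ' := hρ.le
  have hA0 : ∀ ℓ k : ℕ, 0 ≤ mu ch ρ k (fun v =>
      if δ * ℓ < |(v.length : ℝ) - ps W v / κ| then Yone ch ρ v else 0) := by
    intro ℓ k
    refine mu_nonneg hρ' fun v _ => ?_
    split_ifs
    · exact Yone_nonneg' hρ' v
    · exact le_rfl
  -- it is enough to bound by `ε` eventually
  suffices hmain : ∀ ε > 0, ∀ᶠ ℓ : ℕ in atTop, (∑ k ∈ range ℓ, mu ch ρ k (fun v =>
      if δ * ℓ < |(v.length : ℝ) - ps W v / κ| then Yone ch ρ v else 0)) / ℓ ≤ ε by
    rw [tendsto_order]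
    constructor
    · intro b hb
      refine Eventually.of_forall fun ℓ => lt_of_lt_of_le hb ?_
      exact div_nonneg (Finset.sum_nonneg fun k _ => hA0 ℓ k) (Nat.cast_nonneg _)
    · intro b hb
      filter_upwards [hmain (b / 2) (by linarith)] with ℓ hℓ
      linarith
  intro ε hε
  set ε1 : ℝ := ε / 6 with hε1
  have hε1p : 0 < ε1 := by positivity
  obtain ⟨J, hJ1, R, hJ2⟩ := h2 ε1 hε1p
  set x : ℕ → ℝ := fun k => mu ch ρ k (fun v => W v * |ps W v - κ * k|) / k with hx
  set y : ℕ → ℝ := fun k => mu ch ρ k (fun w => |Fj ch ρ (Yone ch ρ) J w - c1 * W w|) with hy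
  set z : ℕ → ℝ := fun k => mu ch ρ (k + J) (fun v =>
        if R < ps W v - ps W (v.drop J) then Yone ch ρ v else 0) with hz
  set c : ℝ := c1 * (2 / (δ * κ)) with hc
  have hc0 : 0 ≤ c := mul_nonneg hc1 (by positivity)
  have hx0 : ∀ k, 0 ≤ x k := fun k => div_nonneg (mu_nonneg hρ' fun v _ =>
    mul_nonneg (hW v) (abs_nonneg _)) (Nat.cast_nonneg _)
  have hy0 : ∀ k, 0 ≤ y k := fun k => mu_nonneg hρ' fun v _ => abs_nonneg _
  have hz0 : ∀ k, 0 ≤ z k := by
    intro k
    refine mu_nonneg hρ' fun v _ => ?_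
    split_ifs
    · exact Yone_nonneg' hρ' v
    · exact le_rfl
  -- the summands
  have hu : ∀ᶠ k in atTop, c * x k + y k + z k ≤ 3 * ε1 := by
    have hcx : ∀ᶠ k in atTop, c * x k ≤ ε1 := by
      have : Tendsto (fun k => c * x k) atTop (𝓝 (c * 0)) := h1.const_mul c
      rw [mul_zero] at this
      exact (this.eventually_lt_const hε1p).mono fun k hk => hk.le
    filter_upwards [hcx, hJ1, hJ2] with k e1 e2 e3
    have e2' : y k ≤ ε1 := e2
    have e3' : z k ≤ ε1 := e3
    linarith
  set B : ℝ := ∑ k ∈ range J, mu ch ρ k (Yone ch ρ) with hB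
  have hces := cesaro_le (u := fun k => c * x k + y k + z k) (by positivity : 0 < 3 * ε1) hu B
  have hbig : ∀ᶠ ℓ : ℕ in atTop, R / κ + J ≤ (δ / 2) * ℓ := by
    have : Tendsto (fun n : ℕ => (δ / 2) * (n : ℝ)) atTop atTop :=
      Tendsto.const_mul_atTop (by positivity) tendsto_natCast_atTop_atTop
    exact this.eventually_ge_atTop _
  filter_upwards [hces, hbig, eventually_gt_atTop J] with ℓ hℓ1 hℓ2 hℓJ
  have hℓ0 : (0 : ℝ) < ℓ := by exact_mod_cast (lt_of_le_of_lt (Nat.zero_le J) hℓJ)
  -- the key estimate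
  have hkey : ∀ k < ℓ, mu ch ρ (k + J) (fun v =>
      if δ * ℓ < |(v.length : ℝ) - ps W v / κ| then Yone ch ρ v else 0) ≤
      c * x k + y k + z k := by
    intro k hk
    have hstep : mu ch ρ (k + J) (fun v =>
        if δ * ℓ < |(v.length : ℝ) - ps W v / κ| then Yone ch ρ v else 0) ≤
        mu ch ρ (k + J) (fun v => (if (δ / 2) * ℓ < |((v.drop J).length : ℝ) -
          ps W (v.drop J) / κ| then Yone ch ρ v else 0) +
          if R < ps W v - ps W (v.drop J) then Yone ch ρ v else 0) := by
      refine mu_mono hρ' fun v hv => ?_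
      have hlen : v.length = k + J := length_of_mem_lev hv
      have hY := Yone_nonneg' (ch := ch) hρ' v
      by_cases h : δ * ℓ < |(v.length : ℝ) - ps W v / κ|
      · rw [if_pos h]
        by_cases h' : (δ / 2) * ℓ < |((v.drop J).length : ℝ) - ps W (v.drop J) / κ|
        · rw [if_pos h']
          have : 0 ≤ (if R < ps W v - ps W (v.drop J) then Yone ch ρ v else 0) := by
            split_ifs
            · exact hY
            · exact le_rfl
          linarith
        · rw [if_neg h', zero_add]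
          have hR : R < ps W v - ps W (v.drop J) := by
            have hdl : ((v.drop J).length : ℝ) = k := by
              rw [List.length_drop, hlen, Nat.add_sub_cancel]
            rw [hlen] at h
            rw [hdl] at h'
            push Not at h'
            push_cast at h
            have hmono : 0 ≤ ps W v - ps W (v.drop J) := by
              have hsplit : v = v.take J ++ v.drop J := (List.take_append_drop J v).symm
              have := ps_append W (v.take J) (v.drop J)
              rw [← hsplit] at this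
              rw [this]
              have := ps_nonneg (a := fun u => W (u ++ v.drop J)) (fun u => hW _) (v.take J)
              linarith
            have habs : |((k : ℝ) + J) - ps W v / κ| ≤
                |(k : ℝ) - ps W (v.drop J) / κ| + (J + (ps W v - ps W (v.drop J)) / κ) := by
              have e : ((k : ℝ) + J) - ps W v / κ =
                  ((k : ℝ) - ps W (v.drop J) / κ) + (J - (ps W v - ps W (v.drop J)) / κ) := by
                ring
              rw [e]
              refine (abs_add_le _ _).trans (add_le_add le_rfl ?_)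
              have hq : 0 ≤ (ps W v - ps W (v.drop J)) / κ := div_nonneg hmono hκ.le
              have hJ0 : (0 : ℝ) ≤ J := Nat.cast_nonneg _
              rw [abs_le]
              constructor <;> linarith
            have hlt : R / κ < (ps W v - ps W (v.drop J)) / κ := by
              have := lt_of_lt_of_le h habs
              linarith
            rwa [div_lt_div_iff_of_pos_right hκ] at hlt
          rw [if_pos hR]
      · rw [if_neg h]
        have e1 : 0 ≤ (if (δ / 2) * ℓ < |((v.drop J).length : ℝ) -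
          ps W (v.drop J) / κ| then Yone ch ρ v else 0) := by
          split_ifs
          · exact hY
          · exact le_rfl
        have e2 : 0 ≤ (if R < ps W v - ps W (v.drop J) then Yone ch ρ v else 0) := by
          split_ifs
          · exact hY
          · exact le_rfl
        linarith
    refine hstep.trans ?_
    rw [mu_add_fun]
    refine add_le_add ?_ le_rfl
    -- first term
    have e1 : mu ch ρ (k + J) (fun v => if (δ / 2) * ℓ < |((v.drop J).length : ℝ) -
        ps W (v.drop J) / κ| then Yone ch ρ v else 0) =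
        mu ch ρ k (fun w => if (δ / 2) * ℓ < |(w.length : ℝ) - ps W w / κ| then
          Fj ch ρ (Yone ch ρ) J w else 0) := by
      rw [mu_add']
      refine mu_congr fun w _ => ?_
      have hc : mu (fun u => ch (u ++ w)) ρ J (fun u => if (δ / 2) * ℓ <
          |(((u ++ w).drop J).length : ℝ) - ps W ((u ++ w).drop J) / κ| then
            Yone ch ρ (u ++ w) else 0) =
          mu (fun u => ch (u ++ w)) ρ J (fun u => if (δ / 2) * ℓ <
          |(w.length : ℝ) - ps W w / κ| then Yone ch ρ (u ++ w) else 0) := by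
        refine mu_congr fun u hu => ?_
        rw [drop_append_len u w (length_of_mem_lev hu)]
      rw [hc, Fj_eq_mu]
      by_cases h : (δ / 2) * ℓ < |(w.length : ℝ) - ps W w / κ|
      · simp only [if_pos h]
      · simp only [if_neg h]
        rw [mu_eq_sum]; simp
    rw [e1]
    have e2 : mu ch ρ k (fun w => if (δ / 2) * ℓ < |(w.length : ℝ) - ps W w / κ| then
          Fj ch ρ (Yone ch ρ) J w else 0) ≤
        mu ch ρ k (fun w => (c1 * (2 / (δ * κ) / ℓ)) * (W w * |ps W w - κ * k|) +
          |Fj ch ρ (Yone ch ρ) J w - c1 * W w|) := by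
      refine mu_mono hρ' fun w hw => ?_
      have hlen : w.length = k := length_of_mem_lev hw
      have hab := abs_nonneg (Fj ch ρ (Yone ch ρ) J w - c1 * W w)
      have hq : 0 ≤ (c1 * (2 / (δ * κ) / ℓ)) * (W w * |ps W w - κ * k|) :=
        mul_nonneg (mul_nonneg hc1 (by positivity)) (mul_nonneg (hW w) (abs_nonneg _))
      by_cases h : (δ / 2) * ℓ < |(w.length : ℝ) - ps W w / κ|
      · rw [if_pos h]
        have e3 : Fj ch ρ (Yone ch ρ) J w ≤ c1 * W w + |Fj ch ρ (Yone ch ρ) J w - c1 * W w| := by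
          linarith [le_abs_self (Fj ch ρ (Yone ch ρ) J w - c1 * W w)]
        have e4 : c1 * W w ≤ (c1 * (2 / (δ * κ) / ℓ)) * (W w * |ps W w - κ * k|) := by
          rw [hlen] at h
          have e5 : |(k : ℝ) - ps W w / κ| = |ps W w - κ * k| / κ := by
            have : (k : ℝ) - ps W w / κ = -((ps W w - κ * k) / κ) := by
              field_simp; ring
            rw [this, abs_neg, abs_div, abs_of_pos hκ]
          rw [e5, lt_div_iff₀ hκ] at h
          have e6 : 1 ≤ (2 / (δ * κ) / ℓ) * |ps W w - κ * k| := by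
            rw [div_div, div_mul_eq_mul_div, le_div_iff₀ (by positivity)]
            nlinarith
          have e7 : c1 * W w * 1 ≤ c1 * W w * ((2 / (δ * κ) / ℓ) * |ps W w - κ * k|) :=
            mul_le_mul_of_nonneg_left e6 (mul_nonneg hc1 (hW w))
          calc c1 * W w = c1 * W w * 1 := (mul_one _).symm
            _ ≤ c1 * W w * ((2 / (δ * κ) / ℓ) * |ps W w - κ * k|) := e7
            _ = _ := by ring
        linarith
      · rw [if_neg h]; linarith
    refine e2.trans ?_
    rw [mu_add_fun, mu_const_mul]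
    refine add_le_add ?_ le_rfl
    have e8 : mu ch ρ k (fun w => W w * |ps W w - κ * k|) = k * x k := by
      rcases Nat.eq_zero_or_pos k with h0 | h0
      · subst h0
        rw [mu_zero]; simp
      · have : (k : ℝ) ≠ 0 := by exact_mod_cast h0.ne'
        simp only [hx]
        field_simp
    rw [e8]
    have e9 : (k : ℝ) / ℓ ≤ 1 := by
      rw [div_le_one hℓ0]; exact_mod_cast hk.le
    calc c1 * (2 / (δ * κ) / ℓ) * (k * x k) = (c * x k) * (k / ℓ) := by rw [hc]; ring
      _ ≤ (c * x k) * 1 := mul_le_mul_of_nonneg_left e9 (mul_nonneg hc0 (hx0 k))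
      _ = c * x k := mul_one _
  -- sum
  have hsplit : ∑ k ∈ range ℓ, mu ch ρ k (fun v =>
      if δ * ℓ < |(v.length : ℝ) - ps W v / κ| then Yone ch ρ v else 0) ≤
      B + ∑ k ∈ range ℓ, (c * x k + y k + z k) := by
    obtain ⟨m, rfl⟩ : ∃ m, ℓ = J + m := ⟨ℓ - J, by omega⟩
    rw [Finset.sum_range_add]
    have hρ1 : ∀ k, 0 ≤ c * x k + y k + z k := fun k => by
      have := mul_nonneg hc0 (hx0 k)
      have := hy0 k
      have := hz0 k
      linarith
    refine add_le_add ?_ ?_
    · refine Finset.sum_le_sum fun k _ => ?_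
      refine mu_mono hρ' fun v _ => ?_
      split_ifs
      · exact le_rfl
      · exact Yone_nonneg' hρ' v
    · calc _ ≤ ∑ k ∈ range m, (c * x k + y k + z k) := by
            refine Finset.sum_le_sum fun k hk => ?_
            rw [Nat.add_comm J k]
            refine hkey k ?_
            have := Finset.mem_range.1 hk
            omega
        _ ≤ ∑ k ∈ range (J + m), (c * x k + y k + z k) :=
            Finset.sum_le_sum_of_subset_of_nonneg
              (Finset.range_mono (by omega)) fun k _ _ => hρ1 k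
  calc _ ≤ (B + ∑ k ∈ range ℓ, (c * x k + y k + z k)) / ℓ :=
        div_le_div_of_nonneg_right hsplit hℓ0.le
    _ ≤ 2 * (3 * ε1) := hℓ1
    _ = ε := by rw [hε1]; ring

end Det

section GW

variable {Q : Type} [Fintype Q] [DecidableEq Q] {q : Q → Measure (Q → ℕ)} {ρ : ℝ} {e l : Q → ℝ}

/-! ### measurability of level sums -/

private theorem spat_measurableSet_InT (v : List (Q × ℕ)) :
    MeasurableSet {ω : Env Q | InT (chE ω) v} := by
  induction v with
  | nil => simp only [InT]; exact MeasurableSet.univ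
  | cons i v ih =>
    have h2 : MeasurableSet {ω : Env Q | i.2 < ω v i.1} := by
      refine measurableSet_lt measurable_const ?_
      exact (measurable_pi_apply i.1).comp (measurable_pi_apply v)
    have e : {ω : Env Q | InT (chE ω) (i :: v)} =
        {ω : Env Q | InT (chE ω) v} ∩ {ω : Env Q | i.2 < ω v i.1} := by
      ext ω
      simp only [InT, Set.mem_ofPred_eq, Set.mem_inter_iff, chE, mem_chX]
    rw [e]
    exact ih.inter h2

/-- level sums with measurable summands are measurable functions of the environment -/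
theorem spat_measurable_mu {f : List (Q × ℕ) → Env Q → ℝ} (hf : ∀ v, Measurable (f v)) (J : ℕ) :
    Measurable (fun ω : Env Q => mu (chE ω) ρ J (fun v => f v ω)) := by
  have e : (fun ω : Env Q => mu (chE ω) ρ J (fun v => f v ω)) =
      fun ω => (ρ ^ J)⁻¹ * ∑ v ∈ lev (chE ω) J, f v ω := by
    funext ω; rw [mu_eq_sum]
  rw [e]
  refine Measurable.const_mul ?_ _
  let _ : MeasurableSpace (Finset (List (Q × ℕ))) := ⊤
  have : MeasurableSingletonClass (Finset (List (Q × ℕ))) := ⟨fun _ => trivial⟩
  have hL : Measurable (fun ω : Env Q => lev (chE ω) J) := by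
    refine measurable_to_countable' fun s => ?_
    have e2 : (fun ω : Env Q => lev (chE ω) J) ⁻¹' {s} =
        ⋂ v : List (Q × ℕ), {ω : Env Q | (InT (chE ω) v ∧ v.length = J) ↔ v ∈ s} := by
      ext ω
      simp only [Set.mem_preimage, Set.mem_singleton_iff, Set.mem_iInter, Set.mem_ofPred_eq]
      constructor
      · rintro rfl v
        exact mem_lev.symm
      · intro h
        ext v
        exact mem_lev.trans (h v)
    rw [e2]
    refine MeasurableSet.iInter fun v => ?_
    have h1 : MeasurableSet {ω : Env Q | InT (chE ω) v ∧ v.length = J} :=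
      (spat_measurableSet_InT v).inter (MeasurableSet.const _)
    by_cases hv : v ∈ s
    · simp only [hv, iff_true]; exact h1
    · simp only [hv, iff_false]; exact h1.compl
  have hF : Measurable (fun p : Env Q × Finset (List (Q × ℕ)) => ∑ v ∈ p.2, f v p.1) :=
    measurable_from_prod_countable_left fun s => Finset.measurable_sum _ fun v _ => hf v
  exact hF.comp (measurable_id.prodMk hL)

private noncomputable def Y1 (ρ : ℝ) : Q → Env Q → ℝ := fun _ ω => ρ + ((chE ω []).card : ℝ)

private theorem Yone_lift (a : Q) (ω : Env Q) (v : List (Q × ℕ)) :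
    Yone (chE ω) ρ v = lift a (Y1 ρ) ω v := by
  simp only [Yone, deg, lift, Y1, chE_sub, List.nil_append]

private theorem Yone_lift' (a : Q) (ω : Env Q) : Yone (chE ω) ρ = lift a (Y1 ρ) ω :=
  funext fun v => Yone_lift a ω v

private theorem measurable_Y1 (b : Q) : Measurable (Y1 (Q := Q) ρ b) := by
  have : Measurable (fun x : Q → ℕ => ρ + ((chX x).card : ℝ)) := measurable_of_countable _
  exact this.comp (measurable_pi_apply ([] : List (Q × ℕ)))

private theorem memLp_Y1 (H : MGWHyp q ρ e l) (b : Q) : MemLp (Y1 (Q := Q) ρ b) 2 (mgw q b) := by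
  have := H.prob
  have h1 : MemLp (fun x : Q → ℕ => ((chX x).card : ℝ)) 2 (q b) := by
    have hm : Measurable (fun x : Q → ℕ => ((chX x).card : ℝ)) := measurable_of_countable _
    rw [memLp_two_iff_integrable_sq hm.aestronglyMeasurable]
    refine ⟨(hm.pow_const 2).aestronglyMeasurable, ?_⟩
    have e : ∀ x : Q → ℕ, ‖((chX x).card : ℝ) ^ 2‖ₑ = (∑ c, (x c : ℝ≥0∞)) ^ 2 := by
      intro x
      rw [card_chX, Real.enorm_eq_ofReal (sq_nonneg _), ENNReal.ofReal_pow (Nat.cast_nonneg _),
        ENNReal.ofReal_natCast]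
      push_cast
      rfl
    rw [HasFiniteIntegral]
    simp only [e]
    exact H.mom2 b
  have h2 : MemLp (fun x : Q → ℕ => ρ + ((chX x).card : ℝ)) 2 (q b) := (memLp_const ρ).add h1
  have hmp : MeasurePreserving (fun ω : Env Q => ω []) (mgw q b) (q b) :=
    measurePreserving_eval_infinitePi (fun v : List (Q × ℕ) => q (typ b v)) []
  exact h2.comp_measurePreserving hmp

private theorem integrable_NY1 (H : MGWHyp q ρ e l) (J : ℕ) (b : Q) :
    Integrable (NY ρ (Y1 ρ) J b) (mgw q b) := by
  have := H.prob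
  have h := (Tb_iter_moments H (Φ := Y1 ρ) measurable_Y1
    (fun c => by
      have : IsProbabilityMeasure (mgw q c) := by unfold mgw; infer_instance
      exact (memLp_Y1 H c).integrable one_le_two) J b).1
  have e : NY ρ (Y1 ρ) J b = fun ω => (ρ ^ J)⁻¹ * (Tb^[J] (Y1 ρ)) b ω := by
    funext ω; rw [NY_eq]
  rw [e]
  exact h.const_mul _

private noncomputable def GJR (ρ : ℝ) (e : Q → ℝ) (J R : ℕ) : Q → Env Q → ℝ := fun b η =>
  mu (chE η) ρ J (fun u =>
    if (R : ℝ) < ps (lift b (Wf ρ e) η) u then Yone (chE η) ρ u else 0)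

private theorem measurable_lift' {Y : Q → Env Q → ℝ} (hY : ∀ b, Measurable (Y b)) (b : Q)
    (v : List (Q × ℕ)) : Measurable (fun η : Env Q => lift b Y η v) :=
  (hY (typ b v)).comp (measurable_sub v)

private theorem measurable_ps' {Y : Q → Env Q → ℝ} (hY : ∀ b, Measurable (Y b)) (b : Q)
    (v : List (Q × ℕ)) : Measurable (fun η : Env Q => ps (lift b Y η) v) := by
  induction v with
  | nil => simp only [ps_nil]; exact measurable_const
  | cons i v ih => simp only [ps_cons]; exact ih.add (measurable_lift' hY b _)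

private theorem measurable_GJR (J R : ℕ) (b : Q) : Measurable (GJR ρ e J R b) := by
  refine spat_measurable_mu (fun u => ?_) J
  refine Measurable.ite ?_ ?_ measurable_const
  · exact measurableSet_lt measurable_const (measurable_ps' (measurable_Wf ρ e) b u)
  · simp only [Yone_lift b]
    exact measurable_lift' measurable_Y1 b u

private theorem GJR_nonneg (hρ : 0 ≤ ρ) (J R : ℕ) (b : Q) (η : Env Q) : 0 ≤ GJR ρ e J R b η := by
  refine mu_nonneg hρ fun v _ => ?_
  split_ifs
  · exact Yone_nonneg' hρ v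
  · exact le_rfl

private theorem GJR_le (hρ : 0 ≤ ρ) (J R : ℕ) (b : Q) (η : Env Q) :
    GJR ρ e J R b η ≤ NY ρ (Y1 ρ) J b η := by
  rw [NY, ← Yone_lift']
  refine mu_mono hρ fun v _ => ?_
  split_ifs
  · exact le_rfl
  · exact Yone_nonneg' hρ v

private theorem integrable_GJR (H : MGWHyp q ρ e l) (J R : ℕ) (b : Q) :
    Integrable (GJR ρ e J R b) (mgw q b) := by
  have hρ : 0 ≤ ρ := by linarith [H.one_lt]
  refine (integrable_NY1 H J b).mono' (measurable_GJR J R b).aestronglyMeasurable ?_
  refine Eventually.of_forall fun η => ?_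
  rw [Real.norm_eq_abs, abs_of_nonneg (GJR_nonneg hρ J R b η)]
  exact GJR_le hρ J R b η

private theorem tendsto_GJR (H : MGWHyp q ρ e l) (J : ℕ) (b : Q) :
    Tendsto (fun R : ℕ => ∫ η, GJR ρ e J R b η ∂mgw q b) atTop (𝓝 0) := by
  have hρ : 0 ≤ ρ := by linarith [H.one_lt]
  have h := tendsto_integral_of_dominated_convergence (μ := mgw q b)
    (F := fun R : ℕ => GJR ρ e J R b) (f := fun _ => (0 : ℝ)) (NY ρ (Y1 ρ) J b)
    (fun R => (measurable_GJR J R b).aestronglyMeasurable) (integrable_NY1 H J b)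
    (fun R => Eventually.of_forall fun η => by
      rw [Real.norm_eq_abs, abs_of_nonneg (GJR_nonneg hρ J R b η)]
      exact GJR_le hρ J R b η)
    (Eventually.of_forall fun η => by
      have e1 : (fun R : ℕ => GJR ρ e J R b η) = fun R : ℕ => (ρ ^ J)⁻¹ *
          ∑ u ∈ lev (chE η) J,
            (if (R : ℝ) < ps (lift b (Wf ρ e) η) u then Yone (chE η) ρ u else 0) := by
        funext R; rw [GJR, mu_eq_sum]
      have e2 : (0 : ℝ) = (ρ ^ J)⁻¹ * ∑ u ∈ lev (chE η) J, (0 : ℝ) := by simp
      rw [e1]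
      nth_rewrite 2 [e2]
      refine Tendsto.const_mul _ (tendsto_finsetSum _ fun u _ => ?_)
      refine tendsto_const_nhds.congr' ?_
      obtain ⟨n, hn⟩ := exists_nat_ge (ps (lift b (Wf ρ e) η) u)
      filter_upwards [eventually_ge_atTop n] with R hR
      rw [if_neg]
      rw [not_lt]
      exact hn.trans (by exact_mod_cast hR))
  rwa [integral_zero] at h

private theorem kappa_pos (H : MGWHyp q ρ e l) (a : Q) :
    0 < ∑ b, l b * ∫ ω', Wf ρ e b ω' ^ 2 ∂mgw q b := by
  refine Finset.sum_pos (fun b _ => mul_pos (H.l_pos b) ?_) ⟨a, Finset.mem_univ a⟩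
  have hi := (memLp_Wf H b).integrable_sq
  refine lt_of_le_of_ne (integral_nonneg fun ω => sq_nonneg _) fun h0 => ?_
  have h1 := (integral_eq_zero_iff_of_nonneg (fun ω => sq_nonneg (Wf ρ e b ω)) hi).1 h0.symm
  have h2 : ∫ ω, Wf ρ e b ω ∂mgw q b = 0 := by
    refine integral_eq_zero_of_ae ?_
    filter_upwards [h1] with ω hω
    have : Wf ρ e b ω ^ 2 = 0 := hω
    exact pow_eq_zero_iff (two_ne_zero) |>.1 this
  rw [integral_Wf H b] at h2
  exact (H.e_pos b).ne' h2

theorem spat_ae (H : MGWHyp q ρ e l) (a : Q) : ∀ᵐ ω ∂mgw q a, ∀ δ > 0,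
    Tendsto (fun ℓ : ℕ => (∑ k ∈ range ℓ, mu (chE ω) ρ k (fun v =>
      if δ * ℓ < |(v.length : ℝ) - ps (lift a (Wf ρ e) ω) v /
          (∑ b, l b * ∫ ω', Wf ρ e b ω' ^ 2 ∂mgw q b)|
        then Yone (chE ω) ρ v else 0)) / ℓ) atTop (𝓝 0) := by
  have hρ : 0 < ρ := by linarith [H.one_lt]
  have hprob : ∀ b, IsProbabilityMeasure (mgw q b) := fun b => by
    have := H.prob
    unfold mgw; infer_instance
  set c1 : ℝ := ∑ b, l b * ∫ ω', Y1 (Q := Q) ρ b ω' ∂mgw q b with hc1
  have hc1_nonneg : 0 ≤ c1 := Finset.sum_nonneg fun b _ => mul_nonneg (H.l_pos b).le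
    (integral_nonneg fun ω => add_nonneg hρ.le (Nat.cast_nonneg _))
  set D : ℕ → Q → Env Q → ℝ := fun J b η => |NY ρ (Y1 ρ) J b η - c1 * Wf ρ e b η| with hD
  have hDm : ∀ J b, Measurable (D J b) := fun J b =>
    ((measurable_NY measurable_Y1 J b).sub ((measurable_Wf ρ e b).const_mul c1)).abs
  have hDi : ∀ J b, Integrable (D J b) (mgw q b) := fun J b => by
    have := hprob b
    exact ((integrable_NY1 H J b).sub
      (((memLp_Wf H b).integrable one_le_two).const_mul c1)).abs
  have hdJ : Tendsto (fun J => ∑ b, l b * ∫ η, D J b η ∂mgw q b) atTop (𝓝 0) := by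
    have : Tendsto (fun J => ∑ b, l b * ∫ η, D J b η ∂mgw q b) atTop (𝓝 (∑ b, l b * 0)) :=
      tendsto_finsetSum _ fun b _ => (lln_L1 H measurable_Y1 (memLp_Y1 H) b).const_mul (l b)
    simpa using this
  have hgJR : ∀ J, Tendsto (fun R : ℕ => ∑ b, l b * ∫ η, GJR ρ e J R b η ∂mgw q b) atTop
      (𝓝 0) := by
    intro J
    have : Tendsto (fun R : ℕ => ∑ b, l b * ∫ η, GJR ρ e J R b η ∂mgw q b) atTop
        (𝓝 (∑ b, l b * 0)) :=
      tendsto_finsetSum _ fun b _ => (tendsto_GJR H J b).const_mul (l b)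
    simpa using this
  have E1 : ∀ᵐ ω ∂mgw q a, ∀ J, Tendsto (fun k => NY ρ (D J) k a ω) atTop
      (𝓝 ((∑ b, l b * ∫ η, D J b η ∂mgw q b) * Wf ρ e a ω)) :=
    ae_all_iff.2 fun J => lln H (hDm J) (hDi J) a
  have E2 : ∀ᵐ ω ∂mgw q a, ∀ J R : ℕ, Tendsto (fun k => NY ρ (GJR ρ e J R) k a ω) atTop
      (𝓝 ((∑ b, l b * ∫ η, GJR ρ e J R b η ∂mgw q b) * Wf ρ e a ω)) :=
    ae_all_iff.2 fun J => ae_all_iff.2 fun R => lln H (measurable_GJR J R) (integrable_GJR H J R) a
  filter_upwards [E1, E2, spat_W H a] with ω h1 h2 h3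
  refine spat_det (W := lift a (Wf ρ e) ω) hρ (fun v => Wf_nonneg hρ.le (fun b => (H.e_pos b).le) _ _)
    (kappa_pos H a) hc1_nonneg h3 ?_
  intro ε hε
  have hlim1 : Tendsto (fun J => (∑ b, l b * ∫ η, D J b η ∂mgw q b) * Wf ρ e a ω) atTop
      (𝓝 0) := by
    have := hdJ.mul_const (Wf ρ e a ω)
    rwa [zero_mul] at this
  obtain ⟨J, hJ⟩ := (hlim1.eventually_lt_const hε).exists
  have hlim2 : Tendsto (fun R : ℕ => (∑ b, l b * ∫ η, GJR ρ e J R b η ∂mgw q b) *
      Wf ρ e a ω) atTop (𝓝 0) := by
    have := (hgJR J).mul_const (Wf ρ e a ω)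
    rwa [zero_mul] at this
  obtain ⟨R, hR⟩ := (hlim2.eventually_lt_const hε).exists
  refine ⟨J, ?_, R, ?_⟩
  · filter_upwards [(h1 J).eventually_lt_const hJ] with k hk
    refine le_trans (le_of_eq ?_) hk.le
    rw [NY]
    refine mu_congr fun w _ => ?_
    rw [Yone_lift' a, Fj_lift]
    rfl
  · filter_upwards [(h2 J R).eventually_lt_const hR] with k hk
    refine le_trans (le_of_eq ?_) hk.le
    refine mu_relative ρ a ω k J _ (fun b η u =>
      if (R : ℝ) < ps (lift b (Wf ρ e) η) u then Yone (chE η) ρ u else 0) ?_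
    intro u w hu
    rw [drop_append_len u w hu, ps_append]
    have e1 : (fun u => lift a (Wf ρ e) ω (u ++ w)) =
        lift (typ a w) (Wf ρ e) (sub ω w) := by
      funext u; rw [lift_append]
    have e2 : Yone (chE ω) ρ (u ++ w) = Yone (chE (sub ω w)) ρ u := rfl
    rw [e1, e2, add_sub_cancel_left]

end GW

end Pool.Agent.BW
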