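import Pool.Agent.Lib.MP_276d40_pr.Wlim

open MeasureTheory ProbabilityTheory Filter Topology Finset
open scoped ENNReal NNReal

set_option linter.unusedSectionVars false
set_option linter.unusedVariables false

namespace Pool.Agent.BW

section GW

variable {Q : Type} [Fintype Q] [DecidableEq Q] {q : Q → Measure (Q → ℕ)} {ρ : ℝ} {e l : Q → ℝ}

/-- sigma-algebra generated by the coordinate `u` -/
@[instance_reducible] private def wpCo (u : List (Q × ℕ)) : MeasurableSpace (Env Q) :=
  MeasurableSpace.comap (fun ω : Env Q => ω u) inferInstance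

private theorem wpCo_le (u : List (Q × ℕ)) :
    wpCo u ≤ (inferInstance : MeasurableSpace (Env Q)) :=
  (measurable_pi_apply u).comap_le

/-- sigma-algebra generated by the coordinates in `S` -/
@[instance_reducible] private def wpSA (S : Set (List (Q × ℕ))) : MeasurableSpace (Env Q) := ⨆ u ∈ S, wpCo u

private theorem wpCo_le_wpSA {S : Set (List (Q × ℕ))} {u : List (Q × ℕ)} (hu : u ∈ S) :
    wpCo u ≤ wpSA S :=
  le_iSup₂_of_le u hu le_rfl

private theorem wpSA_mono {S T : Set (List (Q × ℕ))} (h : S ⊆ T) : wpSA S ≤ wpSA T :=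
  iSup₂_le fun u hu => wpCo_le_wpSA (h hu)

private theorem wpSA_le (S : Set (List (Q × ℕ))) :
    wpSA S ≤ (inferInstance : MeasurableSpace (Env Q)) :=
  iSup₂_le fun u _ => wpCo_le u

/-- the filtration generated by the coordinates at words of length `< n` -/
private def wpFil : Filtration ℕ (inferInstance : MeasurableSpace (Env Q)) where
  seq n := wpSA {u : List (Q × ℕ) | u.length < n}
  mono' := fun m n hmn => wpSA_mono fun u (hu : u.length < m) => lt_of_lt_of_le hu hmn
  le' := fun n => wpSA_le _

private theorem wpFil_sup :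
    (⨆ n, (wpFil (Q := Q)) n) = (inferInstance : MeasurableSpace (Env Q)) := by
  refine le_antisymm (iSup_le fun n => wpSA_le _) ?_
  refine iSup_le fun u => ?_
  refine le_trans ?_ (le_iSup (fun n => (wpFil (Q := Q)) n) (u.length + 1))
  exact wpCo_le_wpSA (S := {v : List (Q × ℕ) | v.length < u.length + 1}) (Nat.lt_succ_self _)

private theorem wp_alive_meas (v : List (Q × ℕ)) :
    MeasurableSet[wpSA {u : List (Q × ℕ) | u.length < v.length}] {ω : Env Q | Alive ω v} := by
  induction v with
  | nil => simp [Alive]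
  | cons i v ih =>
    have h1 : {ω : Env Q | Alive ω (i :: v)} =
        {ω : Env Q | Alive ω v} ∩ {ω : Env Q | i ∈ chE ω v} := by
      ext ω; simp [Alive]
    rw [h1]
    refine MeasurableSet.inter ?_ ?_
    · exact wpSA_mono (fun u (hu : u.length < v.length) =>
        (by simpa using Nat.lt_succ_of_lt hu : u.length < (i :: v).length)) _ ih
    · refine wpCo_le_wpSA (S := {u : List (Q × ℕ) | u.length < (i :: v).length}) (u := v)
        (by simp) _ ?_
      refine ⟨{x : Q → ℕ | i.2 < x i.1}, ?_, ?_⟩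
      · exact measurableSet_lt measurable_const (measurable_pi_apply _)
      · ext ω; simp [chE, mem_chX]

private theorem wp_sub_meas (v : List (Q × ℕ)) :
    Measurable[wpSA {u : List (Q × ℕ) | v.length ≤ u.length}] (fun ω : Env Q => sub ω v) := by
  refine @measurable_pi_lambda _ _ _ (wpSA {u : List (Q × ℕ) | v.length ≤ u.length}) _ _ ?_
  intro u
  have h1 : wpCo (u ++ v) ≤ wpSA {u : List (Q × ℕ) | v.length ≤ u.length} :=
    wpCo_le_wpSA (S := {u : List (Q × ℕ) | v.length ≤ u.length}) (by simp)
  exact (comap_measurable (fun ω : Env Q => ω (u ++ v))).mono h1 le_rfl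

private theorem wp_indep (hq : ∀ b, IsProbabilityMeasure (q b)) (a : Q) (n : ℕ) :
    Indep (wpSA {u : List (Q × ℕ) | u.length < n}) (wpSA {u : List (Q × ℕ) | n ≤ u.length})
      (mgw q a) := by
  have h1 : iIndepFun (fun (v : List (Q × ℕ)) (ω : Env Q) => ω v) (mgw q a) :=
    iIndepFun_infinitePi (X := fun _ x => x) (fun _ => measurable_id)
  refine indep_iSup_of_disjoint (m := wpCo) (fun u => wpCo_le u) h1 ?_
  rw [Set.disjoint_left]
  intro u hu hu'
  exact absurd (lt_of_lt_of_le (show u.length < n from hu) (show n ≤ u.length from hu'))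
    (lt_irrefl _)

/-- the set where `W` vanishes -/
private def wpZ (ρ : ℝ) (e : Q → ℝ) (b : Q) : Set (Env Q) := {ω | Wf ρ e b ω = 0}

private theorem wpZ_meas (ρ : ℝ) (e : Q → ℝ) (b : Q) : MeasurableSet (wpZ ρ e b) :=
  measurable_Wf ρ e b (measurableSet_singleton 0)

private theorem wpZ_lt (H : MGWHyp q ρ e l) (b : Q) : mgw q b (wpZ ρ e b) < 1 := by
  have := H.prob
  have hp : IsProbabilityMeasure (mgw q b) := by unfold mgw; infer_instance
  refine lt_of_le_of_ne prob_le_one fun h => ?_
  have h1 : ∀ᵐ ω ∂mgw q b, Wf ρ e b ω = 0 := by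
    rw [← mem_ae_iff_prob_eq_one (wpZ_meas ρ e b)] at h
    exact h
  have h2 := integral_Wf H b
  rw [integral_congr_ae h1] at h2
  simp only [integral_zero] at h2
  exact absurd h2 (H.e_pos b).ne

private theorem wp_alive_zero (H : MGWHyp q ρ e l) (a : Q) :
    ∀ᵐ ω ∂mgw q a, ∀ v, Wf ρ e a ω = 0 → Alive ω v → Wf ρ e (typ a v) (sub ω v) = 0 := by
  filter_upwards [Wf_flow H a] with ω hω v h0
  induction v with
  | nil => intro _; simpa using h0
  | cons i v ih =>
    intro hal
    have h1 := ih hal.1
    have h2 := hω v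
    rw [lift, h1, mul_zero, Up] at h2
    have h3 := (Finset.sum_eq_zero_iff_of_nonneg (fun j _ => ?_)).1 h2.symm i hal.2
    · exact h3
    · exact Wf_nonneg (by linarith [H.one_lt]) (fun b => (H.e_pos b).le) _ _

private theorem wp_key (H : MGWHyp q ρ e l) (a : Q) (n : ℕ) {E : Set (Env Q)} {s : ℝ≥0∞}
    (hs : ∀ b, mgw q b (wpZ ρ e b) ≤ s)
    (hE : MeasurableSet[wpSA {u : List (Q × ℕ) | u.length < n}] E)
    (hEN : E ⊆ {ω | ∃ v, Alive ω v ∧ v.length = n}) :
    mgw q a (E ∩ wpZ ρ e a) ≤ s * mgw q a E := by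
  have := H.prob
  obtain ⟨f, hf⟩ := exists_surjective_nat (List (Q × ℕ))
  set A : ℕ → Set (Env Q) := fun k => {ω | Alive ω (f k) ∧ (f k).length = n} with hA
  have hAm : ∀ k, MeasurableSet[wpSA {u : List (Q × ℕ) | u.length < n}] (A k) := by
    intro k
    by_cases h : (f k).length = n
    · have : A k = {ω | Alive ω (f k)} := by
        ext ω; simp [hA, h]
      rw [this, ← h]
      exact wp_alive_meas (f k)
    · have : A k = ∅ := by
        ext ω; simp [hA, h]
      rw [this]
      exact @MeasurableSet.empty _ (wpSA {u : List (Q × ℕ) | u.length < n})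
  have hDm : ∀ k, MeasurableSet[wpSA {u : List (Q × ℕ) | u.length < n}] (disjointed A k) :=
    fun k => MeasurableSet.disjointed (mα := wpSA {u : List (Q × ℕ) | u.length < n}) hAm k
  have hcov : E = ⋃ k, (E ∩ disjointed A k) := by
    rw [← Set.inter_iUnion, iUnion_disjointed]
    refine (Set.inter_eq_left.2 fun ω hω => ?_).symm
    obtain ⟨v, hv1, hv2⟩ := hEN hω
    obtain ⟨k, rfl⟩ := hf v
    exact Set.mem_iUnion.2 ⟨k, hv1, hv2⟩
  have hle := wpSA_le {u : List (Q × ℕ) | u.length < n}
  have hdisj : Pairwise (Function.onFun Disjoint fun k => E ∩ disjointed A k) := by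
    intro i j hij
    exact (disjoint_disjointed A hij).mono Set.inter_subset_right Set.inter_subset_right
  have hEm : mgw q a E = ∑' k, mgw q a (E ∩ disjointed A k) := by
    conv_lhs => rw [hcov]
    exact measure_iUnion hdisj fun k => hle _ (hE.inter (hDm k))
  have hone : ∀ k, mgw q a (E ∩ disjointed A k ∩ wpZ ρ e a) ≤
      s * mgw q a (E ∩ disjointed A k) := by
    intro k
    by_cases hk : (f k).length = n
    · have h1 : mgw q a (E ∩ disjointed A k ∩ wpZ ρ e a) ≤
          mgw q a (E ∩ disjointed A k ∩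
            (fun ω : Env Q => sub ω (f k)) ⁻¹' wpZ ρ e (typ a (f k))) := by
        refine measure_mono_ae ?_
        filter_upwards [wp_alive_zero H a] with ω hω hmem
        refine ⟨hmem.1, ?_⟩
        have h2 : ω ∈ A k := disjointed_subset A k hmem.1.2
        exact hω (f k) hmem.2 h2.1
      refine h1.trans ?_
      have h3 := (Indep_iff _ _ _).1 (wp_indep H.prob a n) _
        ((fun ω : Env Q => sub ω (f k)) ⁻¹' wpZ ρ e (typ a (f k)))
        (hE.inter (hDm k)) ?_
      · rw [h3, mul_comm, (map_sub H.prob a (f k)).measure_preimage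
          (wpZ_meas _ _ _).nullMeasurableSet]
        gcongr
        exact hs _
      · rw [← hk]
        exact wp_sub_meas (f k) (wpZ_meas ρ e (typ a (f k)))
    · have h0 : disjointed A k = ∅ := by
        refine Set.subset_empty_iff.1 ((disjointed_subset A k).trans ?_)
        intro ω hω
        exact absurd hω.2 hk
      simp [h0]
  calc mgw q a (E ∩ wpZ ρ e a) = mgw q a (⋃ k, (E ∩ disjointed A k ∩ wpZ ρ e a)) := by
        rw [← Set.iUnion_inter, ← hcov]
    _ ≤ ∑' k, mgw q a (E ∩ disjointed A k ∩ wpZ ρ e a) := measure_iUnion_le _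
    _ ≤ ∑' k, s * mgw q a (E ∩ disjointed A k) := ENNReal.tsum_le_tsum hone
    _ = s * mgw q a E := by rw [ENNReal.tsum_mul_left, ← hEm]

theorem Wf_pos (H : MGWHyp q ρ e l) (a : Q) :
    ∀ᵐ ω ∂mgw q a, Survives ω → 0 < Wf ρ e a ω := by
  have hprob := H.prob
  have hp : IsProbabilityMeasure (mgw q a) := by unfold mgw; infer_instance
  obtain ⟨b0, -, hb0⟩ := Finset.exists_max_image (Finset.univ : Finset Q)
    (fun b => mgw q b (wpZ ρ e b)) ⟨a, Finset.mem_univ _⟩
  set s : ℝ≥0∞ := mgw q b0 (wpZ ρ e b0) with hsdef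
  have hs : ∀ b, mgw q b (wpZ ρ e b) ≤ s := fun b => hb0 b (Finset.mem_univ _)
  have hs1 : s < 1 := wpZ_lt H b0
  have hst : s ≠ ∞ := (hs1.trans ENNReal.one_lt_top).ne
  set g : Env Q → ℝ := (wpZ ρ e a).indicator (fun _ => (1 : ℝ)) with hg
  have hgi : Integrable g (mgw q a) :=
    (integrable_const (1 : ℝ)).indicator (wpZ_meas ρ e a)
  have hgm : StronglyMeasurable[⨆ n, (wpFil (Q := Q)) n] g := by
    rw [wpFil_sup]
    exact stronglyMeasurable_const.indicator (wpZ_meas ρ e a)
  have hconv := hgi.tendsto_ae_condExp hgm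
  have hbd : ∀ n : ℕ, ∀ᵐ ω ∂mgw q a, (∃ v, Alive ω v ∧ v.length = n) →
      ((mgw q a)[g | (wpFil (Q := Q)) n]) ω ≤ s.toReal := by
    intro n
    set N : Set (Env Q) := {ω | ∃ v, Alive ω v ∧ v.length = n} with hN
    have hNm : MeasurableSet[wpSA {u : List (Q × ℕ) | u.length < n}] N := by
      have : N = ⋃ v : List (Q × ℕ), {ω | Alive ω v ∧ v.length = n} := by
        ext ω; simp [hN]
      rw [this]
      refine MeasurableSet.iUnion fun v => ?_
      by_cases h : v.length = n
      · have : {ω : Env Q | Alive ω v ∧ v.length = n} = {ω | Alive ω v} := by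
          ext ω; simp [h]
        rw [this, ← h]
        exact wp_alive_meas v
      · have : {ω : Env Q | Alive ω v ∧ v.length = n} = ∅ := by
          ext ω; simp [h]
        rw [this]
        exact @MeasurableSet.empty _ (wpSA {u : List (Q × ℕ) | u.length < n})
    set c : Env Q → ℝ := (mgw q a)[g | (wpFil (Q := Q)) n] with hc
    have hcm : Measurable[wpSA {u : List (Q × ℕ) | u.length < n}] c :=
      (stronglyMeasurable_condExp (m := (wpFil (Q := Q)) n) (μ := mgw q a) (f := g)).measurable
    set B : Set (Env Q) := N ∩ {ω | s.toReal < c ω} with hB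
    have hBm : MeasurableSet[wpSA {u : List (Q × ℕ) | u.length < n}] B :=
      hNm.inter (hcm (measurableSet_Ioi (a := s.toReal)))
    have hle := wpSA_le {u : List (Q × ℕ) | u.length < n}
    have hk := wp_key H a n hs hBm Set.inter_subset_left
    have hint : ∫ ω in B, c ω ∂mgw q a = (mgw q a).real (B ∩ wpZ ρ e a) := by
      rw [hc, setIntegral_condExp ((wpFil (Q := Q)).le n) hgi hBm, hg,
        setIntegral_indicator (wpZ_meas ρ e a)]
      simp
    have hci : Integrable c (mgw q a) := integrable_condExp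
    by_contra hne
    have hB0 : mgw q a B ≠ 0 := by
      intro h0
      apply hne
      have h1 : ∀ᵐ ω ∂mgw q a, ω ∉ B := measure_eq_zero_iff_ae_notMem.1 h0
      filter_upwards [h1] with ω hω hex
      by_contra hlt
      exact hω ⟨hex, not_le.1 hlt⟩
    have hpos : 0 < ∫ ω in B, (c ω - s.toReal) ∂mgw q a := by
      rw [setIntegral_pos_iff_support_of_nonneg_ae]
      · have : (Function.support fun ω => c ω - s.toReal) ∩ B = B := by
          refine Set.inter_eq_right.2 fun ω hω => ?_
          exact (sub_pos.2 hω.2).ne'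
        rw [this]
        exact pos_iff_ne_zero.2 hB0
      · refine (ae_restrict_iff' (hle _ hBm)).2 (Eventually.of_forall fun ω hω => ?_)
        exact (sub_pos.2 hω.2).le
      · exact (hci.sub (integrable_const _)).integrableOn
    rw [integral_sub hci.integrableOn (integrable_const _).integrableOn, hint] at hpos
    simp only [setIntegral_const, smul_eq_mul] at hpos
    have h5 : (mgw q a).real (B ∩ wpZ ρ e a) ≤ (mgw q a).real B * s.toReal := by
      rw [Measure.real, Measure.real, mul_comm, ← ENNReal.toReal_mul]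
      exact ENNReal.toReal_mono (ENNReal.mul_ne_top hst (measure_ne_top _ _)) hk
    linarith
  filter_upwards [hconv, ae_all_iff.2 hbd] with ω h1 h2 hsurv
  have h3 : 0 ≤ Wf ρ e a ω :=
    Wf_nonneg (by linarith [H.one_lt]) (fun b => (H.e_pos b).le) _ _
  refine lt_of_le_of_ne h3 fun h0 => ?_
  have h4 : g ω = 1 := by
    rw [hg]
    exact Set.indicator_of_mem (show ω ∈ wpZ ρ e a from h0.symm) _
  rw [h4] at h1
  have h5 : (1 : ℝ) ≤ s.toReal := le_of_tendsto h1 (Eventually.of_forall fun n => h2 n (hsurv n))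
  have h6 : s.toReal < 1 := by
    have := (ENNReal.toReal_lt_toReal hst ENNReal.one_ne_top).2 hs1
    simpa using this
  linarith

end GW

end Pool.Agent.BW
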