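import Pool.Agent.Lib.MP_276d40_pr.OneEta
import Pool.Agent.Lib.MP_276d40_pr.Spat
import Pool.Agent.Lib.MP_276d40_pr.Low
import Pool.Agent.Lib.MP_276d40_pr.WPos

/-!
# Almost every surviving Galton-Watson tree is good
-/

open MeasureTheory ProbabilityTheory Filter Topology Finset
open scoped ENNReal NNReal

set_option linter.unusedSectionVars false
set_option linter.unusedVariables false

namespace Pool.Agent.BW

section GW

variable {Q : Type} [Fintype Q] [DecidableEq Q] {q : Q → Measure (Q → ℕ)} {ρ : ℝ} {e l : Q → ℝ}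

/-- `κ = ∑ l_b E^b[W²] > 0` -/
theorem kappa_pos (H : MGWHyp q ρ e l) (a : Q) :
    0 < ∑ b, l b * ∫ ω', Wf ρ e b ω' ^ 2 ∂mgw q b := by
  haveI := H.prob
  haveI : ∀ b, IsProbabilityMeasure (mgw q b) := fun b => by unfold mgw; infer_instance
  have h : ∀ b, 0 < ∫ ω', Wf ρ e b ω' ^ 2 ∂mgw q b := by
    intro b
    have h1 : (∫ ω', Wf ρ e b ω' ∂mgw q b) ^ 2 ≤ ∫ ω', Wf ρ e b ω' ^ 2 ∂mgw q b := by
      have hv := variance_nonneg (Wf ρ e b) (mgw q b)
      rw [variance_eq_sub (memLp_Wf H b)] at hv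
      simp only [Pi.pow_apply] at hv
      linarith
    rw [integral_Wf H b] at h1
    have h2 : 0 < e b ^ 2 := pow_pos (H.e_pos b) 2
    linarith
  exact Finset.sum_pos (fun b _ => mul_pos (H.l_pos b) (h b)) ⟨a, Finset.mem_univ a⟩

theorem treeGood_ae (H : MGWHyp q ρ e l) (a : Q) : ∀ᵐ ω ∂mgw q a, Survives ω →
    TreeGood (chE ω) ρ (2 * ρ * ∑ b, l b)
      (2 * ρ * ∑ b, l b * ∫ ω', Wf ρ e b ω' ^ 2 ∂mgw q b)
      (∑ b, l b * ∫ ω', Wf ρ e b ω' ^ 2 ∂mgw q b) (lift a (Wf ρ e) ω) := by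
  obtain ⟨κ', hκ', hlow⟩ := low_ae H
  have hρ : 0 < ρ := by linarith [H.one_lt]
  filter_upwards [one_eta H a, spat_ae H a, hlow a, Wf_pos H a, Wf_flow H a] with
    ω h1 h2 h3 h4 h5 hs
  obtain ⟨b1, b2, r1, r2, li⟩ := h1
  exact
    { one_lt := H.one_lt
      c1_pos := by
        have : 0 < ∑ b, l b := Finset.sum_pos (fun b _ => H.l_pos b) ⟨a, Finset.mem_univ a⟩
        positivity
      ceta_pos := by
        have := kappa_pos H a
        positivity
      kappa_pos := kappa_pos H a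
      W_nonneg := fun v => Wf_nonneg hρ.le (fun b => (H.e_pos b).le) _ _
      W_flow := h5
      W_root := by rw [lift_nil]; exact h4 hs
      bd_one := b1
      bd_eta := b2
      reg_one := r1
      reg_eta := r2
      lind := li
      spat := h2
      low := ⟨κ', hκ', h3⟩ }

end GW

end Pool.Agent.BW
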