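import Pool.Agent.Lib.MP_276d40_pr.WalkBase

open MeasureTheory ProbabilityTheory Filter Topology Finset
open scoped ENNReal NNReal

set_option linter.unusedSectionVars false
set_option linter.unusedVariables false

namespace Pool.Agent.BW

section GreenOp

variable {I : Type} [DecidableEq I] {ch : List I → Finset I} {ρ : ℝ}

theorem Green.Pr_mono (hρ : 0 < ρ) {f g : List I → ℝ} (h : ∀ v, f v ≤ g v) (v : List I) :
    Pr ch ρ f v ≤ Pr ch ρ g v := by
  cases v with
  | nil =>
    simp only [Pr]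
    split_ifs
    · exact h _
    · exact div_le_div_of_nonneg_right (Finset.sum_le_sum fun i _ => h _) (by unfold deg; positivity)
  | cons i v =>
    simp only [Pr]
    refine div_le_div_of_nonneg_right ?_ (by unfold deg; positivity)
    exact add_le_add (mul_le_mul_of_nonneg_left (h v) hρ.le) (Finset.sum_le_sum fun j _ => h _)

theorem Green.Pr_const (hρ : 0 < ρ) (c : ℝ) (v : List I) : Pr ch ρ (fun _ => c) v = c := by
  cases v with
  | nil =>
    simp only [Pr]
    split_ifs with h
    · rfl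
    · rw [Finset.sum_const, nsmul_eq_mul]
      unfold deg
      have : ((ch []).card : ℝ) ≠ 0 := by
        rw [Nat.cast_ne_zero, Finset.card_ne_zero]
        exact Finset.nonempty_iff_ne_empty.mpr h
      field_simp
  | cons i v =>
    simp only [Pr]
    rw [Finset.sum_const, nsmul_eq_mul]
    unfold deg
    have : ρ + ((ch (i :: v)).card : ℝ) ≠ 0 := by positivity
    field_simp

/-- the killed transition operator -/
noncomputable def Green.T (ch : List I → Finset I) (ρ : ℝ) (ℓ : ℕ) (φ : List I → ℝ)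
    (v : List I) : ℝ :=
  (if v.length < ℓ then 1 else 0) * Pr ch ρ (fun w => (if w.length < ℓ then 1 else 0) * φ w) v

/-- the reversing weights -/
noncomputable def Green.wt (ch : List I → Finset I) (ρ : ℝ) (v : List I) : ℝ :=
  if v = [] then deg ch [] else Yone ch ρ v

/-- the bilinear form -/
noncomputable def Green.br (ch : List I → Finset I) (ρ : ℝ) (ℓ : ℕ) (φ ψ : List I → ℝ) : ℝ :=
  ∑ k ∈ range ℓ, mu ch ρ k (fun v => Green.wt ch ρ v * (φ v * ψ v))

theorem Green.br_comm (ℓ : ℕ) (φ ψ : List I → ℝ) :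
    Green.br ch ρ ℓ φ ψ = Green.br ch ρ ℓ ψ φ := by
  unfold Green.br
  refine Finset.sum_congr rfl fun k _ => mu_congr fun v _ => ?_
  ring

theorem Green.wt_Pr (hρ : 0 < ρ) (h0 : (ch []).Nonempty) (g : List I → ℝ) (v : List I) :
    Green.wt ch ρ v * Pr ch ρ g v = (if v = [] then 0 else ρ * g v.tail) + Up ch g v := by
  unfold Green.wt
  cases v with
  | nil =>
    simp only [Pr, if_true, if_neg (Finset.nonempty_iff_ne_empty.mp h0), zero_add, Up]
    unfold deg
    have : ((ch []).card : ℝ) ≠ 0 := by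
      rw [Nat.cast_ne_zero, Finset.card_ne_zero]
      exact h0
    field_simp
  | cons i v =>
    simp only [Pr, List.tail_cons, Up, Yone]
    rw [if_neg (List.cons_ne_nil i v), if_neg (List.cons_ne_nil i v)]
    unfold deg
    have : ρ + ((ch (i :: v)).card : ℝ) ≠ 0 := by positivity
    field_simp

theorem Green.mu_succ_tail (hρ : 0 < ρ) (k : ℕ) (φ g : List I → ℝ) :
    mu ch ρ (k + 1) (fun v => φ v * (ρ * g v.tail)) = mu ch ρ k (fun v => g v * Up ch φ v) := by
  rw [mu_eq_sum, mu_eq_sum, sum_lev_succ, Finset.mul_sum, Finset.mul_sum]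
  refine Finset.sum_congr rfl fun v _ => ?_
  simp only [Up, List.tail_cons]
  rw [Finset.mul_sum, Finset.mul_sum, Finset.mul_sum]
  refine Finset.sum_congr rfl fun i _ => ?_
  rw [pow_succ]
  field_simp

theorem Green.br_T (hρ : 0 < ρ) (h0 : (ch []).Nonempty) (ℓ : ℕ) (φ ψ : List I → ℝ) :
    Green.br ch ρ ℓ φ (Green.T ch ρ ℓ ψ) =
      ∑ j ∈ range (ℓ - 1), (mu ch ρ j (fun v => φ v * Up ch ψ v) +
        mu ch ρ j (fun v => ψ v * Up ch φ v)) := by
  set g : List I → ℝ := fun w => (if w.length < ℓ then 1 else 0) * ψ w with hg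
  have e1 : Green.br ch ρ ℓ φ (Green.T ch ρ ℓ ψ) =
      ∑ k ∈ range ℓ, (mu ch ρ k (fun v => φ v * Up ch g v) +
        mu ch ρ k (fun v => φ v * (if v = [] then 0 else ρ * g v.tail))) := by
    unfold Green.br
    refine Finset.sum_congr rfl fun k hk => ?_
    rw [← mu_add_fun]
    refine mu_congr fun v hv => ?_
    have hl := length_of_mem_lev hv
    have hkl : v.length < ℓ := by rw [hl]; exact Finset.mem_range.mp hk
    unfold Green.T
    rw [if_pos hkl, one_mul]
    have := Green.wt_Pr hρ h0 g v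
    calc Green.wt ch ρ v * (φ v * Pr ch ρ g v) = φ v * (Green.wt ch ρ v * Pr ch ρ g v) := by ring
      _ = _ := by rw [this]; ring
  rw [e1]
  rcases Nat.eq_zero_or_pos ℓ with h | h
  · subst h; simp
  obtain ⟨m, rfl⟩ : ∃ m, ℓ = m + 1 := ⟨ℓ - 1, by omega⟩
  rw [Finset.sum_add_distrib, Finset.sum_add_distrib, Nat.add_sub_cancel]
  congr 1
  · rw [Finset.sum_range_succ]
    have hz : mu ch ρ m (fun v => φ v * Up ch g v) = 0 := by
      rw [mu_eq_sum]
      rw [Finset.sum_eq_zero, mul_zero]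
      intro v hv
      have hl := length_of_mem_lev hv
      have : Up ch g v = 0 := by
        unfold Up
        refine Finset.sum_eq_zero fun i _ => ?_
        simp only [hg]
        rw [if_neg (by simp [hl]), zero_mul]
      rw [this, mul_zero]
    rw [hz, add_zero]
    refine Finset.sum_congr rfl fun k hk => mu_congr fun v hv => ?_
    have hl := length_of_mem_lev hv
    have hkm := Finset.mem_range.mp hk
    congr 1
    unfold Up
    refine Finset.sum_congr rfl fun i _ => ?_
    simp only [hg]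
    rw [if_pos (by simp only [List.length_cons, hl]; omega), one_mul]
  · rw [Finset.sum_range_succ']
    have hz : mu ch ρ 0 (fun v => φ v * (if v = [] then 0 else ρ * g v.tail)) = 0 := by
      rw [mu_zero]; simp
    rw [hz, add_zero]
    refine Finset.sum_congr rfl fun k hk => ?_
    have hkm := Finset.mem_range.mp hk
    have e2 : mu ch ρ (k + 1) (fun v => φ v * (if v = [] then 0 else ρ * g v.tail)) =
        mu ch ρ (k + 1) (fun v => φ v * (ρ * g v.tail)) := by
      refine mu_congr fun v hv => ?_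
      have hl := length_of_mem_lev hv
      rw [if_neg]
      rintro rfl
      simp at hl
    rw [e2, Green.mu_succ_tail hρ]
    refine mu_congr fun v hv => ?_
    have hl := length_of_mem_lev hv
    simp only [hg]
    rw [if_pos (by rw [hl]; omega), one_mul]

theorem Green.br_T_comm (hρ : 0 < ρ) (h0 : (ch []).Nonempty) (ℓ : ℕ) (φ ψ : List I → ℝ) :
    Green.br ch ρ ℓ φ (Green.T ch ρ ℓ ψ) = Green.br ch ρ ℓ (Green.T ch ρ ℓ φ) ψ := by
  rw [Green.br_comm ℓ (Green.T ch ρ ℓ φ) ψ, Green.br_T hρ h0, Green.br_T hρ h0]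
  refine Finset.sum_congr rfl fun k _ => ?_
  rw [add_comm]

theorem Green.br_iter (hρ : 0 < ρ) (h0 : (ch []).Nonempty) (ℓ t : ℕ) (φ ψ : List I → ℝ) :
    Green.br ch ρ ℓ φ ((Green.T ch ρ ℓ)^[t] ψ) = Green.br ch ρ ℓ ((Green.T ch ρ ℓ)^[t] φ) ψ := by
  induction t generalizing φ with
  | zero => rfl
  | succ t ih =>
    rw [Function.iterate_succ_apply', Green.br_T_comm hρ h0, ih, Function.iterate_succ_apply]

/-- indicator of the root -/
noncomputable def Green.dl (v : List I) : ℝ := if v = [] then 1 else 0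

theorem Green.br_dl {ℓ : ℕ} (hℓ : 0 < ℓ) (φ : List I → ℝ) :
    Green.br ch ρ ℓ Green.dl φ = deg ch [] * φ [] := by
  unfold Green.br
  obtain ⟨m, rfl⟩ : ∃ m, ℓ = m + 1 := ⟨ℓ - 1, by omega⟩
  rw [Finset.sum_range_succ', Finset.sum_eq_zero, zero_add, mu_zero]
  · simp [Green.wt, Green.dl]
  · intro k _
    rw [mu_eq_sum, Finset.sum_eq_zero, mul_zero]
    intro v hv
    have hl := length_of_mem_lev hv
    have : v ≠ [] := by rintro rfl; simp at hl
    simp [Green.dl, this]

theorem Green.T_nonneg (hρ : 0 < ρ) (ℓ : ℕ) {φ : List I → ℝ} (h : ∀ v, 0 ≤ φ v) (v : List I) :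
    0 ≤ Green.T ch ρ ℓ φ v := by
  unfold Green.T
  refine mul_nonneg (by split_ifs <;> norm_num) ?_
  have := Green.Pr_mono (ch := ch) hρ (f := fun _ => 0)
    (g := fun w => (if w.length < ℓ then 1 else 0) * φ w)
    (fun w => mul_nonneg (by split_ifs <;> norm_num) (h w)) v
  rwa [Green.Pr_const hρ] at this

theorem Green.T_le (hρ : 0 < ρ) (ℓ : ℕ) {φ : List I → ℝ} {c : ℝ} (hc : 0 ≤ c) (h : ∀ v, φ v ≤ c)
    (v : List I) : Green.T ch ρ ℓ φ v ≤ c := by
  unfold Green.T
  have := Green.Pr_mono (ch := ch) hρ (f := fun w => (if w.length < ℓ then 1 else 0) * φ w)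
    (g := fun _ => c) (fun w => by
      split_ifs
      · rw [one_mul]; exact h w
      · rw [zero_mul]; exact hc) v
  rw [Green.Pr_const hρ] at this
  split_ifs
  · rw [one_mul]; exact this
  · rw [zero_mul]; exact hc

theorem Green.T_add (ℓ : ℕ) (φ ψ : List I → ℝ) (v : List I) :
    Green.T ch ρ ℓ (fun w => φ w + ψ w) v = Green.T ch ρ ℓ φ v + Green.T ch ρ ℓ ψ v := by
  unfold Green.T
  rw [← mul_add]
  congr 1
  cases v with
  | nil =>
    simp only [Pr]
    by_cases h : ch [] = ∅
    · rw [if_pos h, if_pos h, if_pos h]; ring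
    · rw [if_neg h, if_neg h, if_neg h, ← add_div, ← Finset.sum_add_distrib]
      congr 1
      exact Finset.sum_congr rfl fun i _ => by ring
  | cons i v =>
    simp only [Pr]
    rw [← add_div]
    congr 1
    have : ∑ j ∈ ch (i :: v), (if (j :: i :: v).length < ℓ then (1 : ℝ) else 0) *
        (φ (j :: i :: v) + ψ (j :: i :: v)) =
        ∑ j ∈ ch (i :: v), (if (j :: i :: v).length < ℓ then (1 : ℝ) else 0) * φ (j :: i :: v) +
        ∑ j ∈ ch (i :: v), (if (j :: i :: v).length < ℓ then (1 : ℝ) else 0) * ψ (j :: i :: v) := by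
      rw [← Finset.sum_add_distrib]
      exact Finset.sum_congr rfl fun j _ => by ring
    rw [this]
    ring

/-- truncated Green function -/
noncomputable def Green.gf (ch : List I → Finset I) (ρ : ℝ) (ℓ n : ℕ) (v : List I) : ℝ :=
  ∑ t ∈ range n, ((Green.T ch ρ ℓ)^[t] Green.dl) v

theorem Green.iter_nonneg (hρ : 0 < ρ) (ℓ t : ℕ) (v : List I) :
    0 ≤ ((Green.T ch ρ ℓ)^[t] Green.dl) v := by
  induction t generalizing v with
  | zero =>
    simp only [Function.iterate_zero, id]
    unfold Green.dl; split_ifs <;> norm_num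
  | succ t ih => rw [Function.iterate_succ_apply']; exact Green.T_nonneg hρ ℓ ih v

theorem Green.T_sum (ℓ n : ℕ) (F : ℕ → List I → ℝ) (v : List I) :
    Green.T ch ρ ℓ (fun w => ∑ t ∈ range n, F t w) v =
      ∑ t ∈ range n, Green.T ch ρ ℓ (F t) v := by
  induction n with
  | zero =>
    simp only [Finset.range_zero, Finset.sum_empty]
    unfold Green.T
    cases v <;> simp [Pr]
  | succ n ih =>
    simp only [Finset.sum_range_succ]
    rw [Green.T_add, ih]

theorem Green.gf_le (hρ : 0 < ρ) (ℓ n : ℕ) (v : List I) :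
    Green.gf ch ρ ℓ n v ≤ Green.gf ch ρ ℓ n [] := by
  induction n generalizing v with
  | zero => simp [Green.gf]
  | succ n ih =>
    by_cases hv : v = []
    · rw [hv]
    have h0 : 0 ≤ Green.gf ch ρ ℓ n [] :=
      Finset.sum_nonneg fun t _ => Green.iter_nonneg hρ ℓ t []
    have h1 : Green.gf ch ρ ℓ (n + 1) v = Green.T ch ρ ℓ (Green.gf ch ρ ℓ n) v := by
      unfold Green.gf
      rw [Finset.sum_range_succ', Green.T_sum]
      simp only [Function.iterate_zero, id, Green.dl, if_neg hv, add_zero]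
      exact Finset.sum_congr rfl fun t _ => by rw [Function.iterate_succ_apply']
    rw [h1]
    refine (Green.T_le hρ ℓ h0 ih v).trans ?_
    unfold Green.gf
    rw [Finset.sum_range_succ]
    linarith [Green.iter_nonneg (ch := ch) hρ ℓ n []]

end GreenOp

section Walk

variable {I : Type} [DecidableEq I] [Countable I] {ch : List I → Finset I} {lam : ℝ}
  {Ω : Type} [MeasurableSpace Ω] {P : Measure Ω} {X : ℕ → Ω → List I}

variable {ρ : ℝ} {W : List I → ℝ}

theorem Green.stay_adapt (X : ℕ → Ω → List I) (ℓ t : ℕ) : Adapt X t (stay X ℓ t) := by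
  intro ω ω' h
  unfold stay
  congr 1
  apply propext
  constructor
  · intro h1 s hs; rw [← h s hs]; exact h1 s hs
  · intro h1 s hs; rw [h s hs]; exact h1 s hs

theorem Green.stay_succ (X : ℕ → Ω → List I) (ℓ t : ℕ) (ω : Ω) :
    stay X ℓ (t + 1) ω = stay X ℓ t ω * (if (X (t + 1) ω).length < ℓ then 1 else 0) := by
  unfold stay
  by_cases h1 : ∀ s ≤ t, (X s ω).length < ℓ
  · rw [if_pos h1, one_mul]
    by_cases h2 : (X (t + 1) ω).length < ℓ
    · rw [if_pos h2, if_pos]
      intro s hs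
      rcases Nat.lt_or_ge s (t + 1) with h | h
      · exact h1 s (by omega)
      · rw [show s = t + 1 by omega]; exact h2
    · rw [if_neg h2, if_neg]
      intro h; exact h2 (h _ le_rfl)
  · rw [if_neg h1, zero_mul, if_neg]
    intro h; exact h1 fun s hs => h s (by omega)

theorem Green.stay_mul (X : ℕ → Ω → List I) (ℓ t : ℕ) (ω : Ω) :
    stay X ℓ t ω * (if (X t ω).length < ℓ then 1 else 0) = stay X ℓ t ω := by
  by_cases h : (X t ω).length < ℓ
  · rw [if_pos h, mul_one]
  · rw [if_neg h, mul_zero]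
    unfold stay
    rw [if_neg]
    intro h1; exact h (h1 t le_rfl)

theorem Green.integral_eq (hX : IsWalk ch ρ X P) (hρ : 0 < ρ) (h0 : (ch []).Nonempty) {ℓ : ℕ}
    (hℓ : 0 < ℓ) (t : ℕ) (φ : List I → ℝ) :
    ∫ ω, stay X ℓ t ω * φ (X t ω) ∂P = ((Green.T ch ρ ℓ)^[t] φ) [] := by
  have := hX.prob
  induction t generalizing φ with
  | zero =>
    have h1 : ∀ᵐ ω ∂P, stay X ℓ 0 ω * φ (X 0 ω) = φ [] := by
      filter_upwards [hX.ae_path hρ h0] with ω hω
      rw [hω.1]
      unfold stay
      rw [if_pos, one_mul]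
      intro s hs
      rw [Nat.le_zero.mp hs, hω.1]
      exact hℓ
    rw [integral_congr_ae h1]
    simp
  | succ t ih =>
    rw [Function.iterate_succ_apply, ← ih]
    have e1 : (fun ω => stay X ℓ (t + 1) ω * φ (X (t + 1) ω)) = fun ω => stay X ℓ t ω *
        (fun w : List I => (if w.length < ℓ then 1 else 0) * φ w) (X (t + 1) ω) := by
      funext ω
      simp only
      rw [Green.stay_succ]; ring
    rw [e1, Adapt.markov hX hρ h0 (Green.stay_adapt X ℓ t)
      (fun w : List I => (if w.length < ℓ then 1 else 0) * φ w)]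
    refine integral_congr_ae (Eventually.of_forall fun ω => ?_)
    simp only
    unfold Green.T
    rw [← mul_assoc, Green.stay_mul]

theorem green (hX : IsWalk ch ρ X P) (hρ : 0 < ρ) (h0 : (ch []).Nonempty) (ℓ n : ℕ)
    (f : List I → ℝ) (hf : ∀ v, 0 ≤ f v) :
    ∫ ω, ∑ t ∈ range n, stay X ℓ t ω * f (X t ω) ∂P ≤
      (∫ ω, ∑ t ∈ range n, stay X ℓ t ω * (if X t ω = [] then 1 else 0) ∂P) / deg ch [] *
        (deg ch [] * f [] + ∑ k ∈ Ico 1 ℓ, mu ch ρ k (fun v => Yone ch ρ v * f v)) := by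
  rcases Nat.eq_zero_or_pos ℓ with hℓ | hℓ
  · subst hℓ
    have hs : ∀ t ω, stay X 0 t ω = 0 := by
      intro t ω
      unfold stay
      rw [if_neg]
      intro h
      exact absurd (h 0 (Nat.zero_le _)) (by simp)
    simp [hs]
  have hd : 0 < deg ch [] := by
    unfold deg
    exact_mod_cast Finset.card_pos.mpr h0
  have ad : ∀ (φ : List I → ℝ) (t : ℕ), Adapt X t (fun ω => stay X ℓ t ω * φ (X t ω)) := by
    intro φ t ω ω' h
    simp only
    rw [Green.stay_adapt X ℓ t ω ω' h, h t le_rfl]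
  have hint : ∀ (φ : List I → ℝ), ∫ ω, ∑ t ∈ range n, stay X ℓ t ω * φ (X t ω) ∂P =
      ∑ t ∈ range n, ((Green.T ch ρ ℓ)^[t] φ) [] := by
    intro φ
    rw [integral_finsetSum _ fun t _ => (ad φ t).integrable hX hρ h0]
    exact Finset.sum_congr rfl fun t _ => Green.integral_eq hX hρ h0 hℓ t φ
  have hroot : ∫ ω, ∑ t ∈ range n, stay X ℓ t ω * (if X t ω = [] then 1 else 0) ∂P =
      Green.gf ch ρ ℓ n [] := hint Green.dl
  rw [hint f, hroot]
  have e1 : deg ch [] * ∑ t ∈ range n, ((Green.T ch ρ ℓ)^[t] f) [] =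
      ∑ k ∈ range ℓ, mu ch ρ k (fun v => Green.wt ch ρ v * (Green.gf ch ρ ℓ n v * f v)) := by
    rw [Finset.mul_sum]
    have : ∀ t, deg ch [] * ((Green.T ch ρ ℓ)^[t] f) [] =
        Green.br ch ρ ℓ ((Green.T ch ρ ℓ)^[t] Green.dl) f := by
      intro t
      rw [← Green.br_iter hρ h0, Green.br_dl hℓ]
    simp only [this]
    unfold Green.br
    rw [Finset.sum_comm]
    refine Finset.sum_congr rfl fun k _ => ?_
    rw [← mu_finset_sum]
    refine mu_congr fun v _ => ?_
    unfold Green.gf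
    rw [Finset.sum_mul, Finset.mul_sum]
  have wt0 : ∀ v, 0 ≤ Green.wt ch ρ v := by
    intro v
    unfold Green.wt Yone deg
    split_ifs <;> positivity
  have e2 : ∑ k ∈ range ℓ, mu ch ρ k (fun v => Green.wt ch ρ v * (Green.gf ch ρ ℓ n v * f v)) ≤
      ∑ k ∈ range ℓ, mu ch ρ k (fun v => Green.gf ch ρ ℓ n [] * (Green.wt ch ρ v * f v)) := by
    refine Finset.sum_le_sum fun k _ => mu_mono hρ.le fun v _ => ?_
    have h1 := mul_le_mul_of_nonneg_right (Green.gf_le (ch := ch) hρ ℓ n v) (hf v)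
    have h2 := mul_le_mul_of_nonneg_left h1 (wt0 v)
    linarith
  have e3 : ∑ k ∈ range ℓ, mu ch ρ k (fun v => Green.gf ch ρ ℓ n [] * (Green.wt ch ρ v * f v)) =
      Green.gf ch ρ ℓ n [] * (deg ch [] * f [] +
        ∑ k ∈ Ico 1 ℓ, mu ch ρ k (fun v => Yone ch ρ v * f v)) := by
    simp only [mu_const_mul]
    rw [← Finset.mul_sum]
    congr 1
    rw [Finset.range_eq_Ico, Finset.sum_eq_sum_Ico_succ_bot hℓ, mu_zero]
    refine congrArg₂ (· + ·) ?_ ?_
    · simp [Green.wt]
    · refine Finset.sum_congr rfl fun k hk => mu_congr fun v hv => ?_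
      have hl := length_of_mem_lev hv
      have hk1 := (Finset.mem_Ico.mp hk).1
      have : v ≠ [] := by rintro rfl; simp at hl; omega
      rw [Green.wt, if_neg this]
  rw [div_mul_eq_mul_div, le_div_iff₀ hd, mul_comm, e1]
  exact e2.trans e3.le

end Walk

end Pool.Agent.BW
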