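import Pool.Agent.Lib.MP_276d40_pr.WalkBase

open MeasureTheory ProbabilityTheory Filter Topology Finset
open scoped ENNReal NNReal

set_option linter.unusedSectionVars false
set_option linter.unusedVariables false

namespace Pool.Agent.BW

section Walk

variable {I : Type} [DecidableEq I] [Countable I] {ch : List I → Finset I} {lam : ℝ}
  {Ω : Type} [MeasurableSpace Ω] {P : Measure Ω} {X : ℕ → Ω → List I}

variable {ρ : ℝ} {W : List I → ℝ}

/-- the vertex of minimal level visited in a time interval is a common ancestor -/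
private theorem exists_common {x : ℕ → List I} (hx : ∀ n, Nb ch (x n) (x (n + 1))) (r d : ℕ) :
    ∃ s0, r ≤ s0 ∧ s0 ≤ r + d ∧ ∀ s, r ≤ s → s ≤ r + d → x s0 <:+ x s := by
  induction d with
  | zero =>
    refine ⟨r, le_refl _, le_refl _, fun s h1 h2 => ?_⟩
    have : s = r := by omega
    subst this
    exact List.suffix_refl _
  | succ d ih =>
    obtain ⟨s0, h0, h1, h2⟩ := ih
    have key : x s0 <:+ x (r + d) := h2 (r + d) (by omega) (le_refl _)
    rcases hx (r + d) with ⟨i, -, hi⟩ | ⟨i, hi⟩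
    · refine ⟨s0, h0, by omega, fun s hs1 hs2 => ?_⟩
      by_cases hs : s ≤ r + d
      · exact h2 s hs1 hs
      · have : s = r + d + 1 := by omega
        subst this
        rw [hi]
        exact key.trans (List.suffix_cons _ _)
    · rw [hi] at key
      rcases List.suffix_cons_iff.1 key with h | h
      · refine ⟨r + d + 1, by omega, by omega, fun s hs1 hs2 => ?_⟩
        by_cases hs : s ≤ r + d
        · refine List.IsSuffix.trans ?_ (h2 s hs1 hs)
          rw [h]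
          exact List.suffix_cons _ _
        · have : s = r + d + 1 := by omega
          subst this
          exact List.suffix_refl _
      · refine ⟨s0, h0, by omega, fun s hs1 hs2 => ?_⟩
        by_cases hs : s ≤ r + d
        · exact h2 s hs1 hs
        · have : s = r + d + 1 := by omega
          subst this
          exact h

private theorem drop_bound {v w : List I} (hw : w <:+ v) {κ' e D : ℝ} (hκ' : 0 < κ') (he : 0 ≤ e)
    (hD : 0 ≤ D) (hlo : ∀ m : ℕ, m ≤ v.length → e ≤ m → κ' * m ≤ ps W v - ps W (v.drop m))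
    (h : ps W v - ps W w ≤ D) :
    ((v.length - w.length : ℕ) : ℝ) ≤ e + D / κ' := by
  have h1 : w = v.drop (v.length - w.length) := List.suffix_iff_eq_drop.1 hw
  have hD' : 0 ≤ D / κ' := div_nonneg hD hκ'.le
  by_cases hc : e ≤ ((v.length - w.length : ℕ) : ℝ)
  · have h2 := hlo (v.length - w.length) (by omega) hc
    rw [← h1] at h2
    have h3 : ((v.length - w.length : ℕ) : ℝ) ≤ D / κ' := by
      rw [le_div_iff₀ hκ']
      linarith
    linarith
  · push Not at hc
    linarith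

private theorem height_det {x : ℕ → List I} (hx : ∀ n, Nb ch (x n) (x (n + 1)))
    {κ' e D : ℝ} (hκ' : 0 < κ') (he : 0 ≤ e) (hD : 0 ≤ D) (t d : ℕ)
    (hlo : ∀ s, t ≤ s → s ≤ t + d → ∀ m : ℕ, m ≤ (x s).length → e ≤ m →
      κ' * m ≤ ps W (x s) - ps W ((x s).drop m))
    (hosc : ∀ s s', t ≤ s → s ≤ t + d → t ≤ s' → s' ≤ t + d →
      |ps W (x s) - ps W (x s')| ≤ D) :
    |((x t).length : ℝ) - ((x (t + d)).length : ℝ)| ≤ e + D / κ' := by
  obtain ⟨s0, h0, h1, h2⟩ := exists_common hx t d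
  have a1 := drop_bound (h2 t (le_refl _) (by omega)) hκ' he hD (hlo t (le_refl _) (by omega))
    (le_trans (le_abs_self _) (hosc t s0 (le_refl _) (by omega) h0 h1))
  have a2 := drop_bound (h2 (t + d) (by omega) (le_refl _)) hκ' he hD
    (hlo (t + d) (by omega) (le_refl _))
    (le_trans (le_abs_self _) (hosc (t + d) s0 (by omega) (le_refl _) h0 h1))
  have l1 := (h2 t (le_refl _) (by omega)).length_le
  have l2 := (h2 (t + d) (by omega) (le_refl _)).length_le
  rw [Nat.cast_sub l1] at a1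
  rw [Nat.cast_sub l2] at a2
  have l1' : ((x s0).length : ℝ) ≤ (x t).length := by exact_mod_cast l1
  have l2' : ((x s0).length : ℝ) ≤ (x (t + d)).length := by exact_mod_cast l2
  rw [abs_le]
  constructor <;> linarith

/-- all the deterministic estimates -/
private theorem height_det' {x : ℕ → List I} (hx : ∀ n, Nb ch (x n) (x (n + 1)))
    {κ κ' e e2 D : ℝ} (hκ : 0 < κ) (hκ' : 0 < κ') (he : 0 ≤ e) (hD : 0 ≤ D) (t L : ℕ)
    (hlo : ∀ s, t ≤ s → s < t + L → ∀ m : ℕ, m ≤ (x s).length → e ≤ m →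
      κ' * m ≤ ps W (x s) - ps W ((x s).drop m))
    (hosc : ∀ s s', t ≤ s → s < t + L → t ≤ s' → s' < t + L →
      |ps W (x s) - ps W (x s')| ≤ D)
    (hgood : ∃ r, t ≤ r ∧ r < t + L ∧ |((x r).length : ℝ) - ps W (x r) / κ| ≤ e2) :
    |((x t).length : ℝ) - ps W (x t) / κ| ≤ e2 + (e + D / κ') + D / κ := by
  obtain ⟨r, hr1, hr2, hr⟩ := hgood
  obtain ⟨d, rfl⟩ := Nat.exists_eq_add_of_le hr1
  have h1 := height_det hx hκ' he hD t d (fun s hs1 hs2 => hlo s hs1 (by omega))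
    (fun s s' a b c d' => hosc s s' a (by omega) c (by omega))
  have h2 := hosc t (t + d) (le_refl _) (by omega) (by omega) hr2
  have h3 : |ps W (x t) / κ - ps W (x (t + d)) / κ| ≤ D / κ := by
    rw [← sub_div, abs_div, abs_of_pos hκ]
    exact div_le_div_of_nonneg_right h2 hκ.le
  rw [abs_le] at *
  constructor <;> linarith [h1.1, h1.2, h3.1, h3.2, hr.1, hr.2]

private theorem root_ne (hB : Base ch ρ W X P) : (ch []).Nonempty := by
  rw [Finset.nonempty_iff_ne_empty]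
  intro h
  have h1 := hB.W_flow []
  rw [Up, h, Finset.sum_empty] at h1
  have h2 := mul_pos (by linarith [hB.one_lt] : (0 : ℝ) < ρ) hB.W_root
  linarith

private theorem occ_event (hB : Base ch ρ W X P) {C : ℝ} (hO : Occ ch ρ X P C) (ℓ N L : ℕ)
    (hL : 0 < L) (A : List I → Prop) [DecidablePred A] :
    P.real {ω | (L : ℝ) ≤ ∑ t ∈ range N, stay X ℓ t ω * (if A (X t ω) then 1 else 0)} ≤
      C * ℓ * (∑ k ∈ range ℓ, mu ch ρ k (fun v => if A v then Yone ch ρ v else 0)) / L := by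
  have h0 := root_ne hB
  have hρ : 0 < ρ := by linarith [hB.one_lt]
  have := hB.walk.prob
  have hL' : (0 : ℝ) < L := by exact_mod_cast hL
  set G : Ω → ℝ := fun ω => ∑ t ∈ range N, stay X ℓ t ω * (if A (X t ω) then 1 else 0) with hG
  have hGn : ∀ ω, 0 ≤ G ω := by
    intro ω
    refine Finset.sum_nonneg fun t _ => mul_nonneg ?_ ?_
    · unfold stay; split_ifs <;> norm_num
    · split_ifs <;> norm_num
  have hGa : Adapt X N G := by
    intro ω ω' h
    refine Finset.sum_congr rfl fun t ht => ?_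
    have ht' : t < N := Finset.mem_range.1 ht
    have e1 : X t ω = X t ω' := h t ht'.le
    have e2 : stay X ℓ t ω = stay X ℓ t ω' := by
      unfold stay
      have : (∀ s ≤ t, (X s ω).length < ℓ) ↔ (∀ s ≤ t, (X s ω').length < ℓ) := by
        constructor
        · intro h1 s hs
          rw [← h s (by omega)]
          exact h1 s hs
        · intro h1 s hs
          rw [h s (by omega)]
          exact h1 s hs
      simp only [this]
    rw [e1, e2]
  have hGi : Integrable G P := hGa.integrable hB.walk hρ h0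
  have hM := mul_meas_ge_le_integral_of_nonneg (μ := P) (Eventually.of_forall hGn) hGi (L : ℝ)
  have hocc := hO.occ ℓ N (fun v => if A v then 1 else 0) (fun v => by split_ifs <;> norm_num)
  have e : (fun k => mu ch ρ k (fun v => Yone ch ρ v * (if A v then (1 : ℝ) else 0))) =
      fun k => mu ch ρ k (fun v => if A v then Yone ch ρ v else 0) := by
    funext k
    refine mu_congr fun v _ => ?_
    split_ifs <;> simp
  simp only [e] at hocc
  rw [le_div_iff₀ hL', mul_comm]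
  exact hM.trans hocc

private theorem cross_event (hB : Base ch ρ W X P) {C : ℝ} (hO : Occ ch ρ X P C) (ℓ N : ℕ)
    (A : List I → Prop) [DecidablePred A] (hA : ¬ A []) :
    ∃ E : Set Ω, P.real E ≤ C * ℓ * (∑ k ∈ range (ℓ + 1), mu ch ρ k
        (fun v => if A v then 1 else 0)) ∧
      ∀ᵐ ω ∂P, ω ∉ E → ∀ t ≤ N, (∀ s < t, (X s ω).length < ℓ) → ¬ A (X t ω) := by
  have h0 := root_ne hB
  have hρ : 0 < ρ := by linarith [hB.one_lt]
  have := hB.walk.prob
  obtain ⟨U, hUa, hUn, hU, hUi⟩ := hO.cross ℓ N (fun v => if A v then 1 else 0)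
    (fun v => by split_ifs <;> norm_num)
  refine ⟨{ω | 1 ≤ U ω}, ?_, ?_⟩
  · have hM := mul_meas_ge_le_integral_of_nonneg (μ := P) (Eventually.of_forall hUn)
      (hUa.integrable hB.walk hρ h0) (1 : ℝ)
    rw [one_mul] at hM
    exact hM.trans hUi
  · filter_upwards [hU] with ω hω hE t ht hs hAt
    apply hE
    have h1 := hω t ht hs
    refine le_trans ?_ h1
    cases hX : X t ω with
    | nil => rw [hX] at hAt; exact absurd hAt hA
    | cons i v =>
      rw [hX] at hAt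
      rw [ps_cons, if_pos hAt]
      have := ps_nonneg (a := fun v => if A v then (1 : ℝ) else 0)
        (fun v => by split_ifs <;> norm_num) v
      linarith

theorem height_close (hB : Base ch ρ W X P) {C κ κ' : ℝ} (hO : Occ ch ρ X P C) (hκ : 0 < κ)
    (hκ' : 0 < κ')
    (hspat : ∀ δ > 0, Tendsto (fun ℓ : ℕ => (∑ k ∈ range ℓ, mu ch ρ k (fun v =>
      if δ * ℓ < |(v.length : ℝ) - ps W v / κ| then Yone ch ρ v else 0)) / ℓ) atTop (𝓝 0))
    (hlow : ∀ δ > (0 : ℝ), Tendsto (fun ℓ : ℕ => (ℓ : ℝ) * ∑ k ∈ range (ℓ + 1), mu ch ρ k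
      (fun v => if ∃ m : ℕ, m ≤ v.length ∧ δ * ℓ ≤ m ∧ ps W v - ps W (v.drop m) < κ' * m
        then 1 else 0)) atTop (𝓝 0))
    (hTi : TightW X P) (hOs : OscW W X P) :
    ∀ T > (0 : ℝ), ∀ δ > (0 : ℝ), Tendsto (fun n : ℕ =>
      P.real {ω | ∃ t : ℕ, (t : ℝ) ≤ T * n ∧
        δ * √(n : ℝ) < |((X t ω).length : ℝ) - ps W (X t ω) / κ|}) atTop (𝓝 0) := by
  intro T hT δ hδ
  have := hB.walk.prob
  have hρ : 0 < ρ := by linarith [hB.one_lt]
  have h0 := root_ne hB
  rw [Metric.tendsto_atTop']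
  suffices H : ∀ η > (0 : ℝ), ∀ᶠ n : ℕ in atTop, P.real {ω | ∃ t : ℕ, (t : ℝ) ≤ T * n ∧
        δ * √(n : ℝ) < |((X t ω).length : ℝ) - ps W (X t ω) / κ|} ≤ 4 * η by
    intro ε hε
    obtain ⟨N, hN⟩ := eventually_atTop.1 (H (ε / 8) (by positivity))
    refine ⟨N, fun n hn => ?_⟩
    have h1 := hN n hn.le
    rw [Real.dist_eq, sub_zero, abs_of_nonneg measureReal_nonneg]
    linarith
  intro η hη
  -- constants
  set δ1 : ℝ := δ / (2 * (1 / κ' + 1 / κ)) with hδ1
  have hδ1p : 0 < δ1 := by positivity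
  obtain ⟨K, hK, hTK⟩ := hTi (T + 1) (by linarith) η hη
  set δ2 : ℝ := δ / (4 * (K + 1)) with hδ2
  have hδ2p : 0 < δ2 := by positivity
  obtain ⟨β0, hβ0, hosc0⟩ := hOs (T + 1) (by linarith) δ1 hδ1p η hη
  set β : ℝ := min β0 1 with hβ
  have hβp : 0 < β := lt_min hβ0 one_pos
  have hβ1 : β ≤ 1 := min_le_right _ _
  have hββ : β ≤ β0 := min_le_left _ _
  have hC := hO.pos
  set ε2 : ℝ := η * β / (4 * C * (K + 1) ^ 2) with hε2
  have hε2p : 0 < ε2 := by positivity
  have hell : Tendsto (fun n : ℕ => ⌈K * √(n : ℝ)⌉₊) atTop atTop := by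
    refine tendsto_nat_ceil_atTop.comp ?_
    refine Tendsto.const_mul_atTop hK ?_
    exact (Real.tendsto_sqrt_atTop).comp tendsto_natCast_atTop_atTop
  have ev1 : ∀ᶠ n : ℕ in atTop, (∑ k ∈ range ⌈K * √(n : ℝ)⌉₊, mu ch ρ k (fun v =>
      if δ2 * (⌈K * √(n : ℝ)⌉₊ : ℝ) < |(v.length : ℝ) - ps W v / κ| then Yone ch ρ v else 0)) /
        (⌈K * √(n : ℝ)⌉₊ : ℝ) < ε2 :=
    (((hspat δ2 hδ2p).comp hell).eventually (gt_mem_nhds hε2p))
  have ev2 : ∀ᶠ n : ℕ in atTop, ((⌈K * √(n : ℝ)⌉₊ : ℕ) : ℝ) * ∑ k ∈ range (⌈K * √(n : ℝ)⌉₊ + 1),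
      mu ch ρ k (fun v => if ∃ m : ℕ, m ≤ v.length ∧ δ2 * (⌈K * √(n : ℝ)⌉₊ : ℝ) ≤ m ∧
        ps W v - ps W (v.drop m) < κ' * m then 1 else 0) < η / C :=
    (((hlow δ2 hδ2p).comp hell).eventually (gt_mem_nhds (by positivity : (0 : ℝ) < η / C)))
  have ev3 : ∀ᶠ n : ℕ in atTop, 4 / β ≤ (n : ℝ) :=
    (tendsto_natCast_atTop_atTop (R := ℝ)).eventually (eventually_ge_atTop (4 / β))
  filter_upwards [hTK, hosc0, ev1, ev2, ev3, eventually_ge_atTop 1] with n hTKn hoscn h1 h2 h3 hn1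
  have hn : (1 : ℝ) ≤ n := by exact_mod_cast hn1
  have hnβ : 4 ≤ β * n := by
    rw [div_le_iff₀ hβp] at h3
    linarith
  set ℓ : ℕ := ⌈K * √(n : ℝ)⌉₊ with hℓ
  set L : ℕ := ⌊β * n / 2⌋₊ with hLdef
  set N : ℕ := ⌊(T + 1) * (n : ℝ)⌋₊ with hN
  have hsq1 : 1 ≤ √(n : ℝ) := by
    rw [Real.one_le_sqrt]
    exact hn
  have hℓp : 0 < ℓ := by
    rw [hℓ, Nat.ceil_pos]
    positivity
  have hℓp' : (0 : ℝ) < ℓ := by exact_mod_cast hℓp
  have hℓle : (ℓ : ℝ) ≤ (K + 1) * √(n : ℝ) := by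
    have := (Nat.ceil_lt_add_one (by positivity : 0 ≤ K * √(n : ℝ))).le
    rw [← hℓ] at this
    linarith
  have hℓsq : (ℓ : ℝ) ^ 2 ≤ (K + 1) ^ 2 * n := by
    calc (ℓ : ℝ) ^ 2 ≤ ((K + 1) * √(n : ℝ)) ^ 2 := by
          exact pow_le_pow_left₀ hℓp'.le hℓle 2
      _ = (K + 1) ^ 2 * n := by rw [mul_pow, Real.sq_sqrt (by linarith)]
  have hLge : β * n / 4 ≤ L := by
    have := Nat.lt_floor_add_one (β * n / 2)
    rw [← hLdef] at this
    linarith
  have hLle : (L : ℝ) ≤ β * n / 2 := Nat.floor_le (by positivity)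
  have hLp' : (0 : ℝ) < L := by
    have : 0 < β * n / 4 := by positivity
    linarith
  have hLp : 0 < L := by exact_mod_cast hLp'
  -- the events
  have hG := occ_event hB hO ℓ (N + 1) L hLp
    (fun v => δ2 * (ℓ : ℝ) < |(v.length : ℝ) - ps W v / κ|)
  obtain ⟨E, hE, hEae⟩ := cross_event hB hO ℓ N
    (fun v => ∃ m : ℕ, m ≤ v.length ∧ δ2 * (ℓ : ℝ) ≤ m ∧ ps W v - ps W (v.drop m) < κ' * m)
    (by
      rintro ⟨m, hm, hm2, -⟩
      have : m = 0 := by simpa using hm
      subst this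
      have : 0 < δ2 * (ℓ : ℝ) := by positivity
      simp at hm2
      linarith)
  set G : Set Ω := {ω | (L : ℝ) ≤ ∑ t ∈ range (N + 1), stay X ℓ t ω *
    (if δ2 * (ℓ : ℝ) < |((X t ω).length : ℝ) - ps W (X t ω) / κ| then 1 else 0)} with hGdef
  have hGle : P.real G ≤ η := by
    refine hG.trans ?_
    rw [div_le_iff₀ hLp']
    rw [div_lt_iff₀ hℓp'] at h1
    calc C * ℓ * (∑ k ∈ range ℓ, mu ch ρ k (fun v =>
          if δ2 * (ℓ : ℝ) < |(v.length : ℝ) - ps W v / κ| then Yone ch ρ v else 0))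
        ≤ C * ℓ * (ε2 * ℓ) := by
          exact mul_le_mul_of_nonneg_left h1.le (by positivity)
      _ = C * ε2 * (ℓ : ℝ) ^ 2 := by ring
      _ ≤ C * ε2 * ((K + 1) ^ 2 * n) := by
          exact mul_le_mul_of_nonneg_left hℓsq (by positivity)
      _ = η * (β * n / 4) := by
          rw [hε2]
          field_simp
      _ ≤ η * L := mul_le_mul_of_nonneg_left hLge hη.le
  have hEle : P.real E ≤ η := by
    refine hE.trans ?_
    rw [lt_div_iff₀ hC] at h2
    calc C * ℓ * _ = (ℓ * _) * C := by ring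
      _ ≤ η := h2.le
  set O : Set Ω := {ω | ∃ s t : ℕ, (s : ℝ) ≤ (T + 1) * n ∧ (t : ℝ) ≤ (T + 1) * n ∧
    |(s : ℝ) - t| ≤ β0 * n ∧ δ1 * √(n : ℝ) < |ps W (X s ω) - ps W (X t ω)|} with hOdef
  have hincl : P.real {ω | ∃ t : ℕ, (t : ℝ) ≤ T * n ∧
        δ * √(n : ℝ) < |((X t ω).length : ℝ) - ps W (X t ω) / κ|} ≤
        P.real (((Exit X ℓ N ∪ O) ∪ G) ∪ E) := by
    refine ENNReal.toReal_mono (measure_ne_top _ _) (measure_mono_ae ?_)
    filter_upwards [hEae, hB.walk.ae_path hρ h0] with ω hω1 hω2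
    rintro ⟨t, ht, hbad⟩
    by_contra hcon
    have hcon' : ω ∉ Exit X ℓ N ∧ ω ∉ O ∧ ω ∉ G ∧ ω ∉ E := by
      refine ⟨fun h => hcon (Or.inl (Or.inl (Or.inl h))), fun h => hcon (Or.inl (Or.inl (Or.inr h))),
        fun h => hcon (Or.inl (Or.inr h)), fun h => hcon (Or.inr h)⟩
    obtain ⟨c1, c2, c3, c4⟩ := hcon'
    have hstay : ∀ s ≤ N, (X s ω).length < ℓ := by
      intro s hs
      by_contra h
      exact c1 ⟨s, hs, by omega⟩
    have htL : ∀ s, s < t + L → s ≤ N ∧ (s : ℝ) ≤ (T + 1) * n := by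
      intro s hs
      have : (s : ℝ) ≤ t + L := by exact_mod_cast hs.le
      have h4 : β * n ≤ n := by
        have := mul_le_mul_of_nonneg_right hβ1 (by linarith : (0 : ℝ) ≤ n)
        linarith
      have h5 : (s : ℝ) ≤ (T + 1) * n := by
        have : (0 : ℝ) ≤ n := by linarith
        nlinarith
      exact ⟨Nat.le_floor h5, h5⟩
    have hlo : ∀ s, t ≤ s → s < t + L → ∀ m : ℕ, m ≤ (X s ω).length → δ2 * (ℓ : ℝ) ≤ m →
        κ' * m ≤ ps W (X s ω) - ps W ((X s ω).drop m) := by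
      intro s hs1 hs2 m hm1 hm2
      by_contra h
      push Not at h
      exact hω1 c4 s (htL s hs2).1 (fun s' hs' => hstay s' (by have := (htL s hs2).1; omega))
        ⟨m, hm1, hm2, h⟩
    have hosc : ∀ s s', t ≤ s → s < t + L → t ≤ s' → s' < t + L →
        |ps W (X s ω) - ps W (X s' ω)| ≤ δ1 * √(n : ℝ) := by
      intro s s' a b c d
      by_contra h
      push Not at h
      refine c2 ⟨s, s', (htL s b).2, (htL s' d).2, ?_, h⟩
      have e1 : (t : ℝ) ≤ s := by exact_mod_cast a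
      have e2 : (s : ℝ) ≤ t + L := by exact_mod_cast b.le
      have e3 : (t : ℝ) ≤ s' := by exact_mod_cast c
      have e4 : (s' : ℝ) ≤ t + L := by exact_mod_cast d.le
      have e5 : (L : ℝ) ≤ β0 * n := by
        have : β * n ≤ β0 * n := mul_le_mul_of_nonneg_right hββ (by linarith)
        have : 0 ≤ β * n := by positivity
        linarith
      rw [abs_le]
      constructor <;> linarith
    have hgood : ∃ r, t ≤ r ∧ r < t + L ∧
        |((X r ω).length : ℝ) - ps W (X r ω) / κ| ≤ δ2 * ℓ := by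
      by_contra h
      push Not at h
      apply c3
      have hsub : Finset.Ico t (t + L) ⊆ range (N + 1) := by
        intro r hr
        rw [Finset.mem_Ico] at hr
        rw [Finset.mem_range]
        have := (htL r hr.2).1
        omega
      have hterm : ∀ r ∈ Finset.Ico t (t + L), (stay X ℓ r ω *
          (if δ2 * (ℓ : ℝ) < |((X r ω).length : ℝ) - ps W (X r ω) / κ| then 1 else 0) : ℝ) = 1 := by
        intro r hr
        rw [Finset.mem_Ico] at hr
        rw [if_pos (h r hr.1 hr.2), mul_one, stay, if_pos]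
        intro s hs
        exact hstay s (by have := (htL r hr.2).1; omega)
      show (L : ℝ) ≤ _
      calc (L : ℝ) = ∑ r ∈ Finset.Ico t (t + L), (1 : ℝ) := by simp
        _ = ∑ r ∈ Finset.Ico t (t + L), (stay X ℓ r ω *
          (if δ2 * (ℓ : ℝ) < |((X r ω).length : ℝ) - ps W (X r ω) / κ| then 1 else 0) : ℝ) :=
            (Finset.sum_congr rfl hterm).symm
        _ ≤ _ := by
            refine Finset.sum_le_sum_of_subset_of_nonneg hsub fun r _ _ => mul_nonneg ?_ ?_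
            · unfold stay; split_ifs <;> norm_num
            · split_ifs <;> norm_num
    have hfin := height_det' (x := fun s => X s ω) (κ := κ) hω2.2 hκ hκ'
      (by positivity : 0 ≤ δ2 * (ℓ : ℝ)) (by positivity : 0 ≤ δ1 * √(n : ℝ)) t L hlo hosc hgood
    have hfin2 : δ2 * ℓ + (δ2 * ℓ + δ1 * √(n : ℝ) / κ') + δ1 * √(n : ℝ) / κ ≤ δ * √(n : ℝ) := by
      have e1 : δ2 * ℓ ≤ δ / 4 * √(n : ℝ) := by
        calc δ2 * ℓ ≤ δ2 * ((K + 1) * √(n : ℝ)) := mul_le_mul_of_nonneg_left hℓle hδ2p.le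
          _ = δ / 4 * √(n : ℝ) := by rw [hδ2]; field_simp
      have e2 : δ1 * √(n : ℝ) / κ' + δ1 * √(n : ℝ) / κ = δ / 2 * √(n : ℝ) := by
        have : δ1 * (1 / κ' + 1 / κ) = δ / 2 := by
          rw [hδ1]; field_simp
        calc δ1 * √(n : ℝ) / κ' + δ1 * √(n : ℝ) / κ = (δ1 * (1 / κ' + 1 / κ)) * √(n : ℝ) := by ring
          _ = _ := by rw [this]
      linarith
    have hbad' : δ * √(n : ℝ) < |((X t ω).length : ℝ) - ps W (X t ω) / κ| := hbad
    linarith
  have hunion : P.real (((Exit X ℓ N ∪ O) ∪ G) ∪ E) ≤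
      P.real (Exit X ℓ N) + P.real O + P.real G + P.real E := by
    have a1 := measureReal_union_le (μ := P) ((Exit X ℓ N ∪ O) ∪ G) E
    have a2 := measureReal_union_le (μ := P) (Exit X ℓ N ∪ O) G
    have a3 := measureReal_union_le (μ := P) (Exit X ℓ N) O
    linarith
  linarith

end Walk

end Pool.Agent.BW
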