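import Pool.Agent.Lib.MP_276d40_pr.WalkBase

/-!
# Second moment of weighted increments of `S = ps W` along the walk
-/

open MeasureTheory ProbabilityTheory Filter Topology Finset
open scoped ENNReal NNReal

set_option linter.unusedSectionVars false
set_option linter.unusedVariables false

namespace Pool.Agent.BW

section Walk

variable {I : Type} [DecidableEq I] [Countable I] {ch : List I → Finset I} {lam : ℝ}
  {Ω : Type} [MeasurableSpace Ω] {P : Measure Ω} {X : ℕ → Ω → List I}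

variable {ρ : ℝ} {W : List I → ℝ}

theorem incr_nonempty (hB : Base ch ρ W X P) : (ch []).Nonempty := by
  by_contra h
  rw [Finset.not_nonempty_iff_eq_empty] at h
  have h1 := hB.W_flow []
  rw [Up, h, Finset.sum_empty] at h1
  have h2 := hB.W_root
  have h3 := hB.one_lt
  nlinarith

theorem incr_pos (hB : Base ch ρ W X P) : 0 < ρ := lt_trans one_pos hB.one_lt

/-- `S` is harmonic off the root -/
theorem incr_Pr_ps (hB : Base ch ρ W X P) {v : List I} (hv : v ≠ []) :
    Pr ch ρ (ps W) v = ps W v := by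
  cases v with
  | nil => exact absurd rfl hv
  | cons i v =>
    have hρ := incr_pos hB
    have hd : 0 ≤ deg ch (i :: v) := by unfold deg; positivity
    have h1 := hB.W_flow (i :: v)
    rw [Up] at h1
    rw [Pr]
    have h2 : ∑ j ∈ ch (i :: v), ps W (j :: i :: v) =
        deg ch (i :: v) * ps W (i :: v) + ρ * W (i :: v) := by
      rw [h1, deg, ← nsmul_eq_mul, ← Finset.sum_const, ← Finset.sum_add_distrib]
      rfl
    rw [h2, ps_cons]
    have h3 : ρ + deg ch (i :: v) ≠ 0 := by positivity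
    field_simp
    ring

theorem incr_Pr_ps_nil (hB : Base ch ρ W X P) : 0 ≤ Pr ch ρ (ps W) [] := by
  rw [Pr, if_neg (incr_nonempty hB).ne_empty]
  refine div_nonneg (Finset.sum_nonneg fun i _ => ps_nonneg hB.W_nonneg _) ?_
  unfold deg
  positivity

theorem incr_ps_mul_Pr (hB : Base ch ρ W X P) (v : List I) :
    ps W v * Pr ch ρ (ps W) v = ps W v ^ 2 := by
  by_cases hv : v = []
  · subst hv
    simp
  · rw [incr_Pr_ps hB hv, sq]

theorem incr_Pr_ps_ge (hB : Base ch ρ W X P) (v : List I) :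
    0 ≤ Pr ch ρ (ps W) v - ps W v := by
  by_cases hv : v = []
  · subst hv
    rw [ps_nil, sub_zero]
    exact incr_Pr_ps_nil hB
  · rw [incr_Pr_ps hB hv, sub_self]

/-! ### adapted variables -/

theorem Adapt.imono {n m : ℕ} (h : n ≤ m) {Z : Ω → ℝ} (hZ : Adapt X n Z) : Adapt X m Z :=
  fun ω ω' hω => hZ ω ω' fun k hk => hω k (hk.trans h)

theorem Adapt.imul {n : ℕ} {Y Z : Ω → ℝ} (hY : Adapt X n Y) (hZ : Adapt X n Z) :
    Adapt X n (fun ω => Y ω * Z ω) := fun ω ω' hω => by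
  show Y ω * Z ω = Y ω' * Z ω'
  rw [hY ω ω' hω, hZ ω ω' hω]

theorem Adapt.iadd {n : ℕ} {Y Z : Ω → ℝ} (hY : Adapt X n Y) (hZ : Adapt X n Z) :
    Adapt X n (fun ω => Y ω + Z ω) := fun ω ω' hω => by
  show Y ω + Z ω = Y ω' + Z ω'
  rw [hY ω ω' hω, hZ ω ω' hω]

theorem Adapt.isub {n : ℕ} {Y Z : Ω → ℝ} (hY : Adapt X n Y) (hZ : Adapt X n Z) :
    Adapt X n (fun ω => Y ω - Z ω) := fun ω ω' hω => by
  show Y ω - Z ω = Y ω' - Z ω'
  rw [hY ω ω' hω, hZ ω ω' hω]

theorem Adapt.iconst_mul {n : ℕ} (c : ℝ) {Z : Ω → ℝ} (hZ : Adapt X n Z) :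
    Adapt X n (fun ω => c * Z ω) := fun ω ω' hω => by
  show c * Z ω = c * Z ω'
  rw [hZ ω ω' hω]

theorem Adapt.ipow {n : ℕ} (k : ℕ) {Z : Ω → ℝ} (hZ : Adapt X n Z) :
    Adapt X n (fun ω => Z ω ^ k) := fun ω ω' hω => by
  show Z ω ^ k = Z ω' ^ k
  rw [hZ ω ω' hω]

theorem Adapt.isum {n : ℕ} {ι : Type*} {s : Finset ι} {Z : ι → Ω → ℝ}
    (hZ : ∀ i ∈ s, Adapt X n (Z i)) : Adapt X n (fun ω => ∑ i ∈ s, Z i ω) := fun ω ω' hω =>
  Finset.sum_congr rfl fun i hi => hZ i hi ω ω' hω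

theorem Adapt.ieval {n k : ℕ} (h : k ≤ n) (φ : List I → ℝ) :
    Adapt X n (fun ω => φ (X k ω)) := fun ω ω' hω => by
  show φ (X k ω) = φ (X k ω')
  rw [hω k h]

/-! ### the estimate -/

private theorem incr_path (hB : Base ch ρ W X P) {w : ℕ → Ω → ℝ}
    (h01 : ∀ t ω, w t ω = 0 ∨ w t ω = 1)
    (hconv : ∀ ω r s t, r ≤ s → s ≤ t → w r ω = 1 → w t ω = 1 → w s ω = 1) (ω : Ω) (t : ℕ)
    (ht : w t ω = 1) : ∃ r ≤ t,
      ∑ s ∈ range t, w s ω * (ps W (X (s + 1) ω) - ps W (X s ω)) =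
        ps W (X t ω) - ps W (X r ω) := by
  induction t with
  | zero => exact ⟨0, le_rfl, by simp⟩
  | succ t ih =>
    rcases h01 t ω with h0 | h1
    · refine ⟨t + 1, le_rfl, ?_⟩
      rw [sub_self]
      refine Finset.sum_eq_zero fun s hs => ?_
      have hs' : s ≤ t := Nat.lt_succ_iff.1 (Finset.mem_range.1 hs)
      rcases h01 s ω with h2 | h2
      · rw [h2, zero_mul]
      · have h3 := hconv ω s t (t + 1) hs' (Nat.le_succ t) h2 ht
        rw [h0] at h3
        exact absurd h3 zero_ne_one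
    · obtain ⟨r, hr, h2⟩ := ih h1
      refine ⟨r, hr.trans (Nat.le_succ t), ?_⟩
      rw [Finset.sum_range_succ, h2, h1]
      ring

theorem incr_sq (hB : Base ch ρ W X P) {w : ℕ → Ω → ℝ} (hw : ∀ t, Adapt X t (w t))
    (h01 : ∀ t ω, w t ω = 0 ∨ w t ω = 1)
    (hconv : ∀ ω r s t, r ≤ s → s ≤ t → w r ω = 1 → w t ω = 1 → w s ω = 1) (N : ℕ) :
    ∫ ω, (∑ t ∈ range N, w t ω * (ps W (X (t + 1) ω) - ps W (X t ω))) ^ 2 ∂P ≤
      ∫ ω, ∑ t ∈ range N, w t ω * eta ch ρ W (X t ω) ∂P := by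
  have hX := hB.walk
  have hρ := incr_pos hB
  have h0 := incr_nonempty hB
  have hint : ∀ {n : ℕ} {Z : Ω → ℝ}, Adapt X n Z → Integrable Z P :=
    fun hZ => hZ.integrable hX hρ h0
  have hD : ∀ n : ℕ, Adapt X n
      (fun ω => ∑ t ∈ range n, w t ω * (ps W (X (t + 1) ω) - ps W (X t ω))) := by
    intro n
    refine Adapt.isum fun t ht => ?_
    have ht' := Finset.mem_range.1 ht
    exact ((hw t).imono ht'.le).imul ((Adapt.ieval ht' _).isub (Adapt.ieval ht'.le _))
  induction N with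
  | zero => simp
  | succ N ih =>
    set D : Ω → ℝ := fun ω => ∑ t ∈ range N, w t ω * (ps W (X (t + 1) ω) - ps W (X t ω))
      with hDdef
    have hDN : Adapt X N D := hD N
    have hDN' : Adapt X (N + 1) D := hDN.imono (Nat.le_succ N)
    have hwN : Adapt X N (w N) := hw N
    have hwN' : Adapt X (N + 1) (w N) := hwN.imono (Nat.le_succ N)
    have e1 : (fun ω => (∑ t ∈ range (N + 1), w t ω *
        (ps W (X (t + 1) ω) - ps W (X t ω))) ^ 2) = fun ω => D ω ^ 2 +
        ((2 * (w N ω * D ω * ps W (X (N + 1) ω)) - 2 * (w N ω * D ω * ps W (X N ω))) +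
        (w N ω * ps W (X (N + 1) ω) ^ 2 - 2 * (w N ω * ps W (X N ω) * ps W (X (N + 1) ω)) +
        w N ω * ps W (X N ω) ^ 2)) := by
      funext ω
      rw [Finset.sum_range_succ]
      have h1 : w N ω ^ 2 = w N ω := by
        rcases h01 N ω with h | h <;> rw [h] <;> norm_num
      show (D ω + w N ω * (ps W (X (N + 1) ω) - ps W (X N ω))) ^ 2 = _
      linear_combination (ps W (X (N + 1) ω) - ps W (X N ω)) ^ 2 * h1
    have i1 : Integrable (fun ω => D ω ^ 2) P := hint (hDN.ipow 2)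
    have a2 : Adapt X N (fun ω => w N ω * D ω) := hwN.imul hDN
    have i2 : Integrable (fun ω => w N ω * D ω * ps W (X (N + 1) ω)) P :=
      hint ((a2.imono (Nat.le_succ N)).imul (Adapt.ieval le_rfl _))
    have i2' : Integrable (fun ω => w N ω * D ω * Pr ch ρ (ps W) (X N ω)) P :=
      hint (a2.imul (Adapt.ieval le_rfl _))
    have i3 : Integrable (fun ω => w N ω * D ω * ps W (X N ω)) P :=
      hint (a2.imul (Adapt.ieval le_rfl _))
    have i4 : Integrable (fun ω => w N ω * ps W (X (N + 1) ω) ^ 2) P :=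
      hint (hwN'.imul (Adapt.ieval le_rfl (fun v => ps W v ^ 2)))
    have a5 : Adapt X N (fun ω => w N ω * ps W (X N ω)) := hwN.imul (Adapt.ieval le_rfl _)
    have i5 : Integrable (fun ω => w N ω * ps W (X N ω) * ps W (X (N + 1) ω)) P :=
      hint ((a5.imono (Nat.le_succ N)).imul (Adapt.ieval le_rfl _))
    have i6 : Integrable (fun ω => w N ω * ps W (X N ω) ^ 2) P :=
      hint (hwN.imul (Adapt.ieval le_rfl (fun v => ps W v ^ 2)))
    have i7 : Integrable (fun ω => w N ω * eta ch ρ W (X N ω)) P :=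
      hint (hwN.imul (Adapt.ieval le_rfl (eta ch ρ W)))
    have i8 : Integrable (fun ω => ∑ t ∈ range N, w t ω * eta ch ρ W (X t ω)) P := by
      refine hint (n := N) (Adapt.isum fun t ht => ?_)
      have ht' := (Finset.mem_range.1 ht).le
      exact ((hw t).imono ht').imul (Adapt.ieval ht' _)
    -- Markov property
    have m1 : ∫ ω, w N ω * D ω * ps W (X (N + 1) ω) ∂P =
        ∫ ω, w N ω * D ω * Pr ch ρ (ps W) (X N ω) ∂P := a2.markov hX hρ h0 (ps W)
    have m2 : ∫ ω, w N ω * ps W (X (N + 1) ω) ^ 2 ∂P =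
        ∫ ω, w N ω * Pr ch ρ (fun u => ps W u ^ 2) (X N ω) ∂P :=
      hwN.markov hX hρ h0 (fun u => ps W u ^ 2)
    have m3 : ∫ ω, w N ω * ps W (X N ω) * ps W (X (N + 1) ω) ∂P =
        ∫ ω, w N ω * ps W (X N ω) * Pr ch ρ (ps W) (X N ω) ∂P := a5.markov hX hρ h0 (ps W)
    have i9 : Integrable (fun ω => w N ω * Pr ch ρ (fun u => ps W u ^ 2) (X N ω)) P :=
      hint (hwN.imul (Adapt.ieval le_rfl _))
    -- the cross term is nonpositive
    have c1 : ∫ ω, w N ω * D ω * Pr ch ρ (ps W) (X N ω) ∂P ≤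
        ∫ ω, w N ω * D ω * ps W (X N ω) ∂P := by
      refine integral_mono i2' i3 fun ω => ?_
      show w N ω * D ω * Pr ch ρ (ps W) (X N ω) ≤ w N ω * D ω * ps W (X N ω)
      by_cases hv : X N ω = []
      · rcases h01 N ω with h | h
        · rw [h]; simp
        · obtain ⟨r, -, hr⟩ := incr_path hB h01 hconv ω N h
          have h2 : D ω ≤ 0 := by
            show ∑ s ∈ range N, w s ω * (ps W (X (s + 1) ω) - ps W (X s ω)) ≤ 0
            rw [hr, hv, ps_nil, zero_sub, neg_nonpos]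
            exact ps_nonneg hB.W_nonneg _
          rw [h, one_mul]
          exact mul_le_mul_of_nonpos_left (sub_nonneg.1 (incr_Pr_ps_ge hB _)) h2
      · rw [incr_Pr_ps hB hv]
    have c2 : ∫ ω, w N ω * ps W (X N ω) * Pr ch ρ (ps W) (X N ω) ∂P =
        ∫ ω, w N ω * ps W (X N ω) ^ 2 ∂P := by
      congr 1
      funext ω
      rw [mul_assoc, incr_ps_mul_Pr hB]
    have c3 : ∫ ω, w N ω * eta ch ρ W (X N ω) ∂P =
        ∫ ω, w N ω * Pr ch ρ (fun u => ps W u ^ 2) (X N ω) ∂P -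
        ∫ ω, w N ω * ps W (X N ω) ^ 2 ∂P := by
      rw [← integral_sub i9 i6]
      congr 1
      funext ω
      rw [eta, mul_sub]
    have e2 : (fun ω => ∑ t ∈ range (N + 1), w t ω * eta ch ρ W (X t ω)) = fun ω =>
        (∑ t ∈ range N, w t ω * eta ch ρ W (X t ω)) + w N ω * eta ch ρ W (X N ω) := by
      funext ω
      rw [Finset.sum_range_succ]
    rw [e1, e2, integral_add i8 i7, integral_add i1, integral_add, integral_sub, integral_add,
      integral_sub, integral_const_mul, integral_const_mul, integral_const_mul]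
    · rw [m1, m2, m3, c2, c3]
      linarith [ih, c1]
    · exact i4
    · exact i5.const_mul 2
    · exact i4.sub (i5.const_mul 2)
    · exact i6
    · exact i2.const_mul 2
    · exact i3.const_mul 2
    · exact (i2.const_mul 2).sub (i3.const_mul 2)
    · exact (i4.sub (i5.const_mul 2)).add i6
    · exact ((i2.const_mul 2).sub (i3.const_mul 2)).add ((i4.sub (i5.const_mul 2)).add i6)

end Walk

end Pool.Agent.BW
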