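import Pool.Agent.Lib.MP_276d40_pr.WalkBase

open MeasureTheory ProbabilityTheory Filter Topology Finset
open scoped ENNReal NNReal

set_option linter.unusedSectionVars false
set_option linter.unusedVariables false

namespace Pool.Agent.BW

section Walk

variable {I : Type} [DecidableEq I] [Countable I] {ch : List I → Finset I} {lam : ℝ}
  {Ω : Type} [MeasurableSpace Ω] {P : Measure Ω} {X : ℕ → Ω → List I}

variable {ρ : ℝ} {W : List I → ℝ}

/-- Abel summation: weighted sums of increments of a nonnegative sequence are bounded by the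
maximum of the sequence. -/
private theorem kl_abel {x ξ : ℕ → ℝ} {M n : ℕ} {B : ℝ} (hx : ∀ t, 0 ≤ x t)
    (h0 : ∀ t, 0 ≤ ξ t) (h1 : ∀ t, ξ t ≤ 1) (hz : ∀ t < M, ξ t = 0)
    (ha : ∀ t, M ≤ t → ξ (t + 1) ≤ ξ t) (hB : 0 ≤ B)
    (hb : ∀ t, t < n → ξ t ≠ 0 → x t ≤ B ∧ x (t + 1) ≤ B) :
    |∑ t ∈ range n, ξ t * (x (t + 1) - x t)| ≤ B := by
  rcases le_or_gt n M with hn | hn
  · rw [Finset.sum_eq_zero]
    · simpa using hB
    · intro t ht
      rw [hz t (lt_of_lt_of_le (Finset.mem_range.1 ht) hn), zero_mul]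
  · -- the key estimate
    have key : ∀ m, M + m < n →
        -(ξ M * x M) + ξ (M + m) * x (M + m + 1) ≤
          ∑ t ∈ range (M + m + 1), ξ t * (x (t + 1) - x t) ∧
        ∑ t ∈ range (M + m + 1), ξ t * (x (t + 1) - x t) ≤
          -(ξ M * x M) + (ξ M - ξ (M + m)) * B + ξ (M + m) * x (M + m + 1) := by
      intro m
      induction m with
      | zero =>
        intro _
        have h : ∑ t ∈ range (M + 0 + 1), ξ t * (x (t + 1) - x t) = ξ M * (x (M + 1) - x M) := by
          rw [add_zero, Finset.sum_range_succ, Finset.sum_eq_zero, zero_add]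
          intro t ht
          rw [hz t (Finset.mem_range.1 ht), zero_mul]
        rw [h]
        simp only [add_zero]
        constructor
        · linarith
        · linarith
      | succ m ih =>
        intro hm
        obtain ⟨i1, i2⟩ := ih (by omega)
        have e : ∑ t ∈ range (M + (m + 1) + 1), ξ t * (x (t + 1) - x t) =
            (∑ t ∈ range (M + m + 1), ξ t * (x (t + 1) - x t)) +
              ξ (M + m + 1) * (x (M + m + 1 + 1) - x (M + m + 1)) := by
          rw [show M + (m + 1) + 1 = M + m + 1 + 1 by ring, Finset.sum_range_succ]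
        rw [e, show M + (m + 1) = M + m + 1 by ring]
        have ha' : ξ (M + m + 1) ≤ ξ (M + m) := ha (M + m) (by omega)
        have hxx : (ξ (M + m) - ξ (M + m + 1)) * x (M + m + 1) ≤
            (ξ (M + m) - ξ (M + m + 1)) * B := by
          rcases eq_or_ne (ξ (M + m)) 0 with hz0 | hz0
          · have : ξ (M + m + 1) = 0 := le_antisymm (by linarith) (h0 _)
            rw [hz0, this]; simp
          · exact mul_le_mul_of_nonneg_left (hb (M + m) (by omega) hz0).2 (by linarith)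
        have hxx0 : 0 ≤ (ξ (M + m) - ξ (M + m + 1)) * x (M + m + 1) :=
          mul_nonneg (by linarith) (hx _)
        constructor
        · nlinarith
        · nlinarith
    obtain ⟨k1, k2⟩ := key (n - 1 - M) (by omega)
    have en : M + (n - 1 - M) + 1 = n := by omega
    have en' : M + (n - 1 - M) = n - 1 := by omega
    rw [en, en'] at k1 k2
    have b1 : ξ M * x M ≤ B := by
      rcases eq_or_ne (ξ M) 0 with hz0 | hz0
      · rw [hz0, zero_mul]; exact hB
      · have := (hb M hn hz0).1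
        calc ξ M * x M ≤ 1 * B := mul_le_mul (h1 M) this (hx M) zero_le_one
          _ = B := one_mul B
    have b0 : 0 ≤ ξ M * x M := mul_nonneg (h0 _) (hx _)
    have b2 : ξ (n - 1) * x n ≤ ξ (n - 1) * B := by
      rcases eq_or_ne (ξ (n - 1)) 0 with hz0 | hz0
      · rw [hz0]; simp
      · have := (hb (n - 1) (by omega) hz0).2
        rw [show n - 1 + 1 = n by omega] at this
        exact mul_le_mul_of_nonneg_left this (h0 _)
    have b3 : 0 ≤ ξ (n - 1) * x n := mul_nonneg (h0 _) (hx _)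
    rw [abs_le]
    constructor
    · linarith
    · have : ξ M * B ≤ 1 * B := mul_le_mul_of_nonneg_right (h1 M) hB
      nlinarith

/-- Cauchy-Schwarz along a path -/
private theorem kl_ps_sq (a : List I → ℝ) (v : List I) :
    ps a v ^ 2 ≤ (v.length : ℝ) * ps (fun u => a u ^ 2) v := by
  induction v with
  | nil => simp
  | cons i v ih =>
    have hq : 0 ≤ ps (fun u => a u ^ 2) v := ps_nonneg (fun u => sq_nonneg _) v
    rw [ps_cons, ps_cons, List.length_cons]
    push_cast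
    set p := ps a v
    set q := ps (fun u => a u ^ 2) v
    set b := a (i :: v)
    rcases Nat.eq_zero_or_pos v.length with h0 | h0
    · rw [h0] at ih ⊢
      simp only [Nat.cast_zero, zero_mul] at ih
      have hp : p = 0 := by
        have : p ^ 2 = 0 := le_antisymm ih (sq_nonneg _)
        exact pow_eq_zero_iff (two_ne_zero) |>.1 this
      rw [hp]
      simp only [Nat.cast_zero, zero_add, one_mul]
      linarith
    · have hm' : (0 : ℝ) < (v.length : ℝ) := by exact_mod_cast h0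
      set m : ℝ := (v.length : ℝ)
      have hm : 0 < m := hm'
      have h1 : 0 ≤ q + m * b ^ 2 - 2 * p * b := by
        have h2 : 0 ≤ m * (q + m * b ^ 2 - 2 * p * b) := by nlinarith [sq_nonneg (p - m * b)]
        exact nonneg_of_mul_nonneg_right h2 hm
      nlinarith

/-- the corrector -/
private noncomputable def kl_a (ch : List I → Finset I) (ρ : ℝ) (Y' : List I → ℝ) (K : ℕ)
    (v : List I) : ℝ := ρ⁻¹ * ∑ j ∈ range K, Fj ch ρ Y' j v

private theorem kl_Up_a (hρ : ρ ≠ 0) (Y' : List I → ℝ) (K : ℕ) (v : List I) :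
    Up ch (kl_a ch ρ Y' K) v - ρ * kl_a ch ρ Y' K v = Fj ch ρ Y' K v - Y' v := by
  have h1 : Up ch (kl_a ch ρ Y' K) v = ∑ j ∈ range K, Fj ch ρ Y' (j + 1) v := by
    have e : kl_a ch ρ Y' K = fun v => ρ⁻¹ * ∑ j ∈ range K, Fj ch ρ Y' j v := rfl
    rw [e, Up_const_mul]
    simp only
    have e2 : Up ch (fun v => ∑ j ∈ range K, Fj ch ρ Y' j v) v =
        ∑ j ∈ range K, Up ch (Fj ch ρ Y' j) v := by
      simp only [Up]
      rw [Finset.sum_comm]
    rw [e2, Finset.mul_sum]
    refine Finset.sum_congr rfl fun j _ => ?_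
    rw [Up_Fj hρ, ← mul_assoc, inv_mul_cancel₀ hρ, one_mul]
  have h2 : ρ * kl_a ch ρ Y' K v = ∑ j ∈ range K, Fj ch ρ Y' j v := by
    rw [kl_a, ← mul_assoc, mul_inv_cancel₀ hρ, one_mul]
  rw [h1, h2, ← Finset.sum_sub_distrib, Finset.sum_range_sub (fun j => Fj ch ρ Y' j v), Fj_zero]

private theorem kl_Pr_ps (hρ : 0 < ρ) (a : List I → ℝ) {v : List I} (hv : v ≠ []) :
    Pr ch ρ (ps a) v - ps a v = (Up ch a v - ρ * a v) / Yone ch ρ v := by
  cases v with
  | nil => exact absurd rfl hv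
  | cons i v =>
    have hd : (0 : ℝ) ≤ deg ch (i :: v) := by rw [deg]; positivity
    have hY : (ρ + deg ch (i :: v)) ≠ 0 := by positivity
    rw [Pr, Yone, div_sub' hY]
    congr 1
    have h : ∑ j ∈ ch (i :: v), ps a (j :: i :: v) =
        deg ch (i :: v) * ps a (i :: v) + Up ch a (i :: v) := by
      simp only [ps_cons a _ (i :: v), Finset.sum_add_distrib, Finset.sum_const, nsmul_eq_mul]
      rfl
    rw [h, ps_cons]
    ring

private theorem kl_sum_le {f : ℕ → ℝ} {ε : ℝ} (hε : 0 ≤ ε) (h : ∀ᶠ k in atTop, f k ≤ ε) :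
    ∃ D, 0 ≤ D ∧ ∀ ℓ : ℕ, ∑ k ∈ range ℓ, f k ≤ D + ε * ℓ := by
  obtain ⟨k0, hk0⟩ := eventually_atTop.1 h
  refine ⟨∑ k ∈ range k0, |f k|, Finset.sum_nonneg fun _ _ => abs_nonneg _, fun ℓ => ?_⟩
  have h1 : ∑ k ∈ range ℓ, f k ≤ ∑ k ∈ range ℓ, ((if k < k0 then |f k| else 0) + ε) := by
    refine Finset.sum_le_sum fun k _ => ?_
    split_ifs with hk
    · have := le_abs_self (f k); linarith
    · have := hk0 k (not_lt.1 hk); linarith
  rw [Finset.sum_add_distrib, Finset.sum_const, Finset.card_range, nsmul_eq_mul] at h1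
  have h2 : ∑ k ∈ range ℓ, (if k < k0 then |f k| else 0) ≤ ∑ k ∈ range k0, |f k| := by
    rw [← Finset.sum_filter]
    refine Finset.sum_le_sum_of_subset_of_nonneg ?_ fun _ _ _ => abs_nonneg _
    intro k hk
    rw [Finset.mem_filter] at hk
    exact Finset.mem_range.2 hk.2
  linarith

theorem key_lemma (hB : Base ch ρ W X P) {C : ℝ} (hO : Occ ch ρ X P C) {Y : List I → ℝ} {c : ℝ}
    (hR : Reg ch ρ W Y c) :
    ∀ ε > 0, ∃ ℓ0 : ℕ, ∀ ℓ ≥ ℓ0, ∀ (M n : ℕ) (ξ : ℕ → Ω → ℝ), Wgt X ℓ M ξ →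
      |∫ ω, ∑ t ∈ range n, ξ t ω * ((Y (X t ω) - c * W (X t ω)) / Yone ch ρ (X t ω)) ∂P| ≤
        ε * (ℓ : ℝ) ^ 2 := by
  intro ε hε
  have hX := hB.walk
  have := hX.prob
  have hρ1 := hB.one_lt
  have hρ : 0 < ρ := by linarith
  have hC := hO.pos
  have hne : (ch []).Nonempty := by
    by_contra h
    rw [Finset.not_nonempty_iff_eq_empty] at h
    have h1 := hB.W_flow []
    rw [Up, h, Finset.sum_empty] at h1
    have h2 := hB.W_root
    have : 0 < ρ * W [] := mul_pos hρ h2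
    linarith
  have hYone : ∀ v, 0 < Yone ch ρ v := by
    intro v
    have : (0 : ℝ) ≤ deg ch v := by rw [deg]; positivity
    rw [Yone]; linarith
  -- constants
  set ε' : ℝ := ε / (4 * (2 * C + 1)) with hε'
  have hε'0 : 0 < ε' := by positivity
  obtain ⟨Y', hY'0, K, r1, ⟨C1, r2⟩, r3⟩ := hR ε' hε'0
  have hC1 : 0 ≤ C1 := (mu_nonneg hρ.le fun v _ => sq_nonneg _).trans (r2 0)
  set a : List I → ℝ := kl_a ch ρ Y' K with ha
  have ha0 : ∀ v, 0 ≤ a v := fun v =>
    mul_nonneg (inv_nonneg.2 hρ.le) (Finset.sum_nonneg fun j _ => Fj_nonneg hρ.le hY'0 j v)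
  set ψ : List I → ℝ := ps a with hψ
  have hψ0 : ∀ v, 0 ≤ ψ v := ps_nonneg ha0
  set e : List I → ℝ := fun v => (Y v - c * W v) / Yone ch ρ v + (Pr ch ρ ψ v - ψ v) with he
  set D : ℝ := |e []| with hD
  set g : List I → ℝ := fun v => (|Y v - Y' v| + |Fj ch ρ Y' K v - c * W v|) / Yone ch ρ v +
    (if v = [] then D else 0) with hg
  have hg0 : ∀ v, 0 ≤ g v := by
    intro v
    have h1 : 0 ≤ (|Y v - Y' v| + |Fj ch ρ Y' K v - c * W v|) / Yone ch ρ v :=
      div_nonneg (by positivity) (hYone v).le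
    have h2 : (0 : ℝ) ≤ (if v = [] then D else 0) := by
      split_ifs
      · exact abs_nonneg _
      · exact le_rfl
    exact add_nonneg h1 h2
  have heg : ∀ v, |e v| ≤ g v := by
    intro v
    rcases eq_or_ne v [] with rfl | hv
    · have h1 : 0 ≤ (|Y [] - Y' []| + |Fj ch ρ Y' K [] - c * W []|) / Yone ch ρ [] :=
        div_nonneg (by positivity) (hYone []).le
      simp only [hg, if_true]
      rw [← hD]
      linarith
    · simp only [hg, if_neg hv, add_zero]
      have h1 : e v = ((Y v - Y' v) + (Fj ch ρ Y' K v - c * W v)) / Yone ch ρ v := by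
        simp only [he]
        rw [hψ, kl_Pr_ps hρ a hv, ha, kl_Up_a hρ.ne', ← add_div]
        congr 1
        ring
      rw [h1, abs_div, abs_of_pos (hYone v)]
      exact div_le_div_of_nonneg_right (abs_add_le _ _) (hYone v).le
  -- level sums of `Yone * g`
  have hmug : ∀ᶠ k in atTop, mu ch ρ k (fun v => Yone ch ρ v * g v) ≤ 2 * ε' := by
    filter_upwards [r1, r3, eventually_ge_atTop 1] with k k1 k3 k2
    have h : mu ch ρ k (fun v => Yone ch ρ v * g v) =
        mu ch ρ k (fun v => |Y v - Y' v| + |Fj ch ρ Y' K v - c * W v|) := by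
      refine mu_congr fun v hv => ?_
      have hvn : v ≠ [] := by
        rintro rfl
        have := length_of_mem_lev hv
        simp at this
        omega
      simp only [hg, if_neg hvn, add_zero]
      rw [mul_div_cancel₀ _ (hYone v).ne']
    rw [h, mu_add_fun]
    linarith
  obtain ⟨D0, hD0, hD1⟩ := kl_sum_le (by positivity) hmug
  -- level sums of `a ^ 2`
  have hmua : ∀ k, mu ch ρ k (fun v => a v ^ 2) ≤ C1 := by
    intro k
    have h : mu ch ρ k (fun v => a v ^ 2) =
        (ρ⁻¹) ^ 2 * mu ch ρ k (fun v => (∑ j ∈ range K, Fj ch ρ Y' j v) ^ 2) := by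
      rw [← mu_const_mul]
      refine mu_congr fun v _ => ?_
      rw [ha, kl_a, mul_pow]
    rw [h]
    have h1 : (ρ⁻¹) ^ 2 ≤ 1 := by
      have : ρ⁻¹ ≤ 1 := inv_le_one_of_one_le₀ hρ1.le
      exact pow_le_one₀ (inv_nonneg.2 hρ.le) this
    have h2 : 0 ≤ mu ch ρ k (fun v => (∑ j ∈ range K, Fj ch ρ Y' j v) ^ 2) :=
      mu_nonneg hρ.le fun v _ => sq_nonneg _
    calc _ ≤ 1 * mu ch ρ k (fun v => (∑ j ∈ range K, Fj ch ρ Y' j v) ^ 2) :=
          mul_le_mul_of_nonneg_right h1 h2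
      _ ≤ C1 := by rw [one_mul]; exact r2 k
  -- threshold
  set L : ℝ := C * D0 + C * C1 / ε' with hL
  have hL0 : 0 ≤ L := by positivity
  obtain ⟨ℓ1, hℓ1⟩ := exists_nat_ge (2 * L / ε)
  refine ⟨max ℓ1 1, fun ℓ hℓ M n ξ hξ => ?_⟩
  have hℓa : ℓ1 ≤ ℓ := le_trans (le_max_left _ _) hℓ
  have hℓb : 1 ≤ ℓ := le_trans (le_max_right _ _) hℓ
  have hℓ0 : (1 : ℝ) ≤ ℓ := by exact_mod_cast hℓb
  have hℓL : L ≤ ε / 2 * ℓ := by
    have h1 : 2 * L / ε ≤ ℓ := hℓ1.trans (by exact_mod_cast hℓa)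
    rw [div_le_iff₀ hε] at h1
    linarith
  -- adaptedness
  have ad_fun : ∀ (t m : ℕ) (φ : List I → ℝ), t ≤ m → Adapt X m (fun ω => φ (X t ω)) := by
    intro t m φ htm ω ω' h
    show φ (X t ω) = φ (X t ω')
    rw [h t htm]
  have ad_xi : ∀ (t m : ℕ) (φ : Ω → ℝ), t ≤ m → Adapt X m φ →
      Adapt X m (fun ω => ξ t ω * φ ω) := by
    intro t m φ htm hφ ω ω' h
    show ξ t ω * φ ω = ξ t ω' * φ ω'
    rw [hξ.adapt t ω ω' fun k hk => h k (hk.trans htm), hφ ω ω' h]
  have int_xi : ∀ (t s : ℕ) (φ : List I → ℝ),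
      Integrable (fun ω => ξ t ω * φ (X s ω)) P := by
    intro t s φ
    exact Adapt.integrable hX hρ hne
      (ad_xi t (max t s) _ (le_max_left _ _) (ad_fun s (max t s) φ (le_max_right _ _)))
  have int_sum : ∀ (φ : ℕ → Ω → ℝ), (∀ t, Integrable (φ t) P) →
      Integrable (fun ω => ∑ t ∈ range n, φ t ω) P := by
    intro φ h
    exact integrable_finsetSum _ fun t _ => h t
  -- splitting
  have hsplit : ∫ ω, ∑ t ∈ range n,
      ξ t ω * ((Y (X t ω) - c * W (X t ω)) / Yone ch ρ (X t ω)) ∂P =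
      ∫ ω, ∑ t ∈ range n, ξ t ω * e (X t ω) ∂P -
        ∫ ω, ∑ t ∈ range n, ξ t ω * (ψ (X (t + 1) ω) - ψ (X t ω)) ∂P := by
    have h1 : ∫ ω, ∑ t ∈ range n, ξ t ω * (ψ (X (t + 1) ω) - ψ (X t ω)) ∂P =
        ∫ ω, ∑ t ∈ range n, ξ t ω * (Pr ch ρ ψ (X t ω) - ψ (X t ω)) ∂P := by
      rw [integral_finsetSum, integral_finsetSum]
      · refine Finset.sum_congr rfl fun t _ => ?_
        simp only [mul_sub]
        rw [integral_sub (int_xi _ _ _) (int_xi _ _ _), integral_sub (int_xi _ _ _) (int_xi _ _ _)]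
        rw [Adapt.markov hX hρ hne (hξ.adapt t) ψ]
      · intro t _
        exact int_xi t t (fun v => Pr ch ρ ψ v - ψ v)
      · intro t _
        simp only [mul_sub]
        exact (int_xi _ _ _).sub (int_xi _ _ _)
    rw [h1, ← integral_sub]
    · refine integral_congr_ae (Eventually.of_forall fun ω => ?_)
      simp only
      rw [← Finset.sum_sub_distrib]
      refine Finset.sum_congr rfl fun t _ => ?_
      simp only [he]
      ring
    · exact int_sum _ fun t => int_xi t t e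
    · exact int_sum _ fun t => int_xi t t (fun v => Pr ch ρ ψ v - ψ v)
  -- `ξ ≤ stay`
  have hstay : ∀ t ω, ξ t ω ≤ stay X ℓ t ω := by
    intro t ω
    rcases eq_or_ne (ξ t ω) 0 with h0 | h0
    · rw [h0, stay]; split_ifs <;> norm_num
    · rw [stay, if_pos (hξ.supp t ω h0)]; exact hξ.le_one t ω
  have ad_stay : ∀ t, Adapt X t (stay X ℓ t) := by
    intro t ω ω' h
    have : (∀ s ≤ t, (X s ω).length < ℓ) ↔ (∀ s ≤ t, (X s ω').length < ℓ) :=
      forall_congr' fun s => forall_congr' fun hs => by rw [h s hs]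
    simp only [stay, this]
  have int_stay : ∀ t, Integrable (fun ω => stay X ℓ t ω * g (X t ω)) P := by
    intro t
    refine Adapt.integrable hX hρ hne (n := t) ?_
    intro ω ω' h
    show stay X ℓ t ω * g (X t ω) = stay X ℓ t ω' * g (X t ω')
    rw [ad_stay t ω ω' h, h t le_rfl]
  -- first term
  have hfirst : |∫ ω, ∑ t ∈ range n, ξ t ω * e (X t ω) ∂P| ≤ C * ℓ * (D0 + 2 * ε' * ℓ) := by
    calc |∫ ω, ∑ t ∈ range n, ξ t ω * e (X t ω) ∂P|
        ≤ ∫ ω, |∑ t ∈ range n, ξ t ω * e (X t ω)| ∂P := abs_integral_le_integral_abs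
      _ ≤ ∫ ω, ∑ t ∈ range n, stay X ℓ t ω * g (X t ω) ∂P := by
          refine integral_mono (int_sum _ fun t => int_xi t t e).abs (int_sum _ int_stay) ?_
          intro ω
          simp only
          refine (Finset.abs_sum_le_sum_abs _ _).trans (Finset.sum_le_sum fun t _ => ?_)
          rw [abs_mul, abs_of_nonneg (hξ.nonneg t ω)]
          exact mul_le_mul (hstay t ω) (heg _) (abs_nonneg _)
            ((hξ.nonneg t ω).trans (hstay t ω))
      _ ≤ C * ℓ * ∑ k ∈ range ℓ, mu ch ρ k (fun v => Yone ch ρ v * g v) := hO.occ ℓ n g hg0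
      _ ≤ C * ℓ * (D0 + 2 * ε' * ℓ) :=
          mul_le_mul_of_nonneg_left (hD1 ℓ) (by positivity)
  -- second term
  obtain ⟨U, hU, hU0, hUb, hUi⟩ := hO.cross ℓ n (fun v => a v ^ 2) (fun v => sq_nonneg _)
  have intU : Integrable U P := Adapt.integrable hX hρ hne hU
  have hUi' : ∫ ω, U ω ∂P ≤ C * ℓ * ((ℓ + 1) * C1) := by
    refine hUi.trans (mul_le_mul_of_nonneg_left ?_ (by positivity))
    calc ∑ k ∈ range (ℓ + 1), mu ch ρ k (fun v => a v ^ 2) ≤ ∑ k ∈ range (ℓ + 1), C1 :=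
          Finset.sum_le_sum fun k _ => hmua k
      _ = (ℓ + 1) * C1 := by rw [Finset.sum_const, Finset.card_range, nsmul_eq_mul]; push_cast; ring
  have hsecond : |∫ ω, ∑ t ∈ range n, ξ t ω * (ψ (X (t + 1) ω) - ψ (X t ω)) ∂P| ≤
      (ε' * ℓ ^ 2 + C * ℓ * ((ℓ + 1) * C1) / (ε' * ℓ)) / 2 := by
    calc |∫ ω, ∑ t ∈ range n, ξ t ω * (ψ (X (t + 1) ω) - ψ (X t ω)) ∂P|
        ≤ ∫ ω, |∑ t ∈ range n, ξ t ω * (ψ (X (t + 1) ω) - ψ (X t ω))| ∂P :=
          abs_integral_le_integral_abs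
      _ ≤ ∫ ω, (ε' * ℓ ^ 2 + U ω / (ε' * ℓ)) / 2 ∂P := by
          refine integral_mono_ae ?_ ?_ ?_
          · refine Integrable.abs (int_sum _ fun t => ?_)
            simp only [mul_sub]
            exact (int_xi _ _ _).sub (int_xi _ _ _)
          · exact ((integrable_const _).add (intU.div_const _)).div_const _
          · filter_upwards [hUb, IsWalk.ae_path hX hρ hne] with ω h1 h2
            have hU0' := hU0 ω
            have hB0 : 0 ≤ (ε' * ℓ ^ 2 + U ω / (ε' * ℓ)) / 2 := by positivity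
            -- bound for `ψ`
            have hb : ∀ r ≤ n, (∀ s < r, (X s ω).length < ℓ) →
                ψ (X r ω) ≤ (ε' * ℓ ^ 2 + U ω / (ε' * ℓ)) / 2 := by
              intro r hr hs
              have hlen : (X r ω).length ≤ ℓ := by
                cases r with
                | zero => rw [h2.1]; simp
                | succ r =>
                  have h3 := hs r (Nat.lt_succ_self r)
                  rcases h2.2 r with ⟨i, -, hi⟩ | ⟨i, hi⟩
                  · rw [hi, List.length_cons]; omega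
                  · have : (X r ω).length = (X (r + 1) ω).length + 1 := by
                      rw [hi, List.length_cons]
                    omega
              have h4 : ψ (X r ω) ^ 2 ≤ ℓ * U ω := by
                refine (kl_ps_sq a (X r ω)).trans ?_
                have h5 := h1 r hr hs
                have h6 : 0 ≤ ps (fun u => a u ^ 2) (X r ω) := ps_nonneg (fun u => sq_nonneg _) _
                have h7 : ((X r ω).length : ℝ) ≤ ℓ := by exact_mod_cast hlen
                exact mul_le_mul h7 h5 h6 (by positivity)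
              have h8 : (ℓ : ℝ) * U ω ≤ ((ε' * ℓ ^ 2 + U ω / (ε' * ℓ)) / 2) ^ 2 := by
                have h9 : (ε' * ℓ ^ 2) * (U ω / (ε' * ℓ)) = ℓ * U ω := by
                  have : (ℓ : ℝ) ≠ 0 := by positivity
                  field_simp
                nlinarith [sq_nonneg (ε' * ℓ ^ 2 - U ω / (ε' * ℓ))]
              exact abs_le_of_sq_le_sq' (h4.trans h8) hB0 |>.2
            refine kl_abel (x := fun t => ψ (X t ω)) (ξ := fun t => ξ t ω) (M := M)
              (fun t => hψ0 _) (fun t => hξ.nonneg t ω) (fun t => hξ.le_one t ω)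
              (fun t ht => hξ.zero t ht ω) (fun t ht => hξ.anti t ht ω) hB0 ?_
            intro t ht hne0
            have hs := hξ.supp t ω hne0
            exact ⟨hb t ht.le fun s hst => hs s hst.le,
              hb (t + 1) ht fun s hst => hs s (Nat.lt_succ_iff.1 hst)⟩
      _ = (ε' * ℓ ^ 2 + (∫ ω, U ω ∂P) / (ε' * ℓ)) / 2 := by
          rw [integral_div, integral_add (integrable_const _) (intU.div_const _), integral_div]
          simp
      _ ≤ (ε' * ℓ ^ 2 + C * ℓ * ((ℓ + 1) * C1) / (ε' * ℓ)) / 2 := by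
          have : (∫ ω, U ω ∂P) / (ε' * ℓ) ≤ C * ℓ * ((ℓ + 1) * C1) / (ε' * ℓ) :=
            div_le_div_of_nonneg_right hUi' (by positivity)
          linarith
  -- conclusion
  rw [hsplit]
  have hlast : C * ℓ * ((ℓ + 1) * C1) / (ε' * ℓ) = C * C1 / ε' * (ℓ + 1) := by
    have : (ℓ : ℝ) ≠ 0 := by positivity
    field_simp
  have hCC : 0 ≤ C * C1 / ε' := by positivity
  have hεC : ε' * (2 * C + 1) = ε / 4 := by
    rw [hε']; field_simp
  calc |∫ ω, ∑ t ∈ range n, ξ t ω * e (X t ω) ∂P -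
        ∫ ω, ∑ t ∈ range n, ξ t ω * (ψ (X (t + 1) ω) - ψ (X t ω)) ∂P|
      ≤ |∫ ω, ∑ t ∈ range n, ξ t ω * e (X t ω) ∂P| +
        |∫ ω, ∑ t ∈ range n, ξ t ω * (ψ (X (t + 1) ω) - ψ (X t ω)) ∂P| := abs_sub _ _
    _ ≤ C * ℓ * (D0 + 2 * ε' * ℓ) + (ε' * ℓ ^ 2 + C * C1 / ε' * (ℓ + 1)) / 2 := by
        rw [hlast] at hsecond
        exact add_le_add hfirst hsecond
    _ ≤ ε * (ℓ : ℝ) ^ 2 := by
        have h1 : C * C1 / ε' * (ℓ + 1) / 2 ≤ C * C1 / ε' * ℓ := by nlinarith
        have h2 : L * ℓ ≤ ε / 2 * ℓ ^ 2 := by nlinarith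
        have h3 : C * ℓ * (2 * ε' * ℓ) + ε' * ℓ ^ 2 / 2 ≤ ε / 4 * ℓ ^ 2 := by
          rw [← hεC]
          nlinarith [mul_pos hε'0 (pow_pos (lt_of_lt_of_le one_pos hℓ0) 2)]
        have h4 : L * ℓ = C * D0 * ℓ + C * C1 / ε' * ℓ := by rw [hL]; ring
        nlinarith [sq_nonneg (ℓ : ℝ)]

end Walk

end Pool.Agent.BW
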