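import Pool.Agent.Lib.MP_276d40_pr.Wlim

open MeasureTheory ProbabilityTheory Filter Topology Finset
open scoped ENNReal NNReal

set_option linter.unusedSectionVars false
set_option linter.unusedVariables false

namespace Pool.Agent.BW

section GW

variable {Q : Type} [Fintype Q] [DecidableEq Q] {q : Q → Measure (Q → ℕ)} {ρ : ℝ} {e l : Q → ℝ}

/-! ### expectation of products over the children -/

private lemma lap_prob (hq : ∀ b, IsProbabilityMeasure (q b)) (a : Q) :
    IsProbabilityMeasure (mgw q a) := by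
  unfold mgw; infer_instance

private lemma lap_prod (hq : ∀ b, IsProbabilityMeasure (q b)) {K Φ : Q → Env Q → ℝ≥0∞}
    (hK : ∀ b, Measurable (K b)) (hΦ : ∀ b, Measurable (Φ b)) (s : Finset (Q × ℕ)) (i : Q × ℕ)
    (hi : i ∈ s) :
    ∫⁻ η, (∏ j ∈ s.erase i, K j.1 (η j)) * Φ i.1 (η i)
        ∂(Measure.infinitePi fun i : Q × ℕ => mgw q i.1) =
      (∏ j ∈ s.erase i, ∫⁻ η, K j.1 η ∂mgw q j.1) * ∫⁻ η, Φ i.1 η ∂mgw q i.1 := by
  have : ∀ a, IsProbabilityMeasure (mgw q a) := lap_prob hq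
  set g : (j : Q × ℕ) → Env Q → ℝ≥0∞ := fun j => if j = i then Φ j.1 else K j.1 with hg
  have hgm : ∀ j, Measurable (g j) := by
    intro j
    simp only [hg]
    split_ifs
    · exact hΦ _
    · exact hK _
  have hind := iIndepFun_infinitePi (P := fun j : Q × ℕ => mgw q j.1) (X := g) hgm
  have h1 := lintegral_prod_eq_prod_lintegral_of_indepFun s (fun j (η : Q × ℕ → Env Q) => g j (η j))
    hind (fun j => (hgm j).comp (measurable_pi_apply j))
  have h2 : ∀ j, ∫⁻ η : Q × ℕ → Env Q, g j (η j)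
      ∂(Measure.infinitePi fun i : Q × ℕ => mgw q i.1) = ∫⁻ η, g j η ∂mgw q j.1 := fun j =>
    (measurePreserving_eval_infinitePi (fun i : Q × ℕ => mgw q i.1) j).lintegral_comp (hgm j)
  rw [← Finset.prod_erase_mul _ _ hi] at h1
  have h3 : (fun η : Q × ℕ → Env Q => ∏ j ∈ s, g j (η j)) =
      fun η => (∏ j ∈ s.erase i, K j.1 (η j)) * Φ i.1 (η i) := by
    funext η
    rw [← Finset.prod_erase_mul _ _ hi]
    congr 1
    · refine Finset.prod_congr rfl fun j hj => ?_
      simp [hg, Finset.ne_of_mem_erase hj]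
    · simp [hg]
  rw [h3] at h1
  rw [h1]
  congr 1
  · refine Finset.prod_congr rfl fun j hj => ?_
    rw [h2]
    simp [hg, Finset.ne_of_mem_erase hj]
  · rw [h2]
    simp [hg]

private lemma lap_Tb (hq : ∀ b, IsProbabilityMeasure (q b)) {K Φ : Q → Env Q → ℝ≥0∞}
    (hK : ∀ b, Measurable (K b)) (hΦ : ∀ b, Measurable (Φ b)) (a : Q) :
    ∫⁻ ω, ∑ i ∈ chE ω [], (∏ j ∈ (chE ω []).erase i, K j.1 (sub ω [j])) * Φ i.1 (sub ω [i])
        ∂mgw q a =
      ∫⁻ x, ∑ i ∈ chX x, (∏ j ∈ (chX x).erase i, ∫⁻ η, K j.1 η ∂mgw q j.1) *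
        ∫⁻ η, Φ i.1 η ∂mgw q i.1 ∂q a := by
  have : ∀ a, IsProbabilityMeasure (mgw q a) := lap_prob hq
  have := hq a
  have hm : ∀ x : Q → ℕ, ∀ i, Measurable fun η : Q × ℕ → Env Q =>
      (∏ j ∈ (chX x).erase i, K j.1 (η j)) * Φ i.1 (η i) := by
    intro x i
    refine Measurable.mul ?_ ((hΦ _).comp (measurable_pi_apply i))
    exact Finset.measurable_prod _ fun j _ => (hK _).comp (measurable_pi_apply j)
  set F : (Q → ℕ) × (Q × ℕ → Env Q) → ℝ≥0∞ := fun p =>
    ∑ i ∈ chX p.1, (∏ j ∈ (chX p.1).erase i, K j.1 (p.2 j)) * Φ i.1 (p.2 i) with hF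
  have hFm : Measurable F := by
    refine measurable_from_prod_countable_right fun x => ?_
    change Measurable fun η : Q × ℕ → Env Q =>
      ∑ i ∈ chX x, (∏ j ∈ (chX x).erase i, K j.1 (η j)) * Φ i.1 (η i)
    exact Finset.measurable_sum _ fun i _ => hm x i
  have h := (map_decomp hq a).lintegral_comp hFm
  have h1 : ∫⁻ ω, ∑ i ∈ chE ω [], (∏ j ∈ (chE ω []).erase i, K j.1 (sub ω [j])) *
      Φ i.1 (sub ω [i]) ∂mgw q a = ∫⁻ ω, F (ω [], fun i : Q × ℕ => sub ω [i]) ∂mgw q a := rfl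
  rw [h1, h, lintegral_prod _ hFm.aemeasurable]
  refine lintegral_congr fun x => ?_
  simp only [hF]
  rw [lintegral_finsetSum _ fun i _ => hm x i]
  exact Finset.sum_congr rfl fun i hi => lap_prod hq hK hΦ _ i hi

/-! ### moments of the offspring numbers -/

private lemma lap_integrable (H : MGWHyp q ρ e l) (a b : Q) :
    Integrable (fun x : Q → ℕ => (x b : ℝ)) (q a) := by
  have := H.prob a
  have hm : Measurable fun x : Q → ℕ => (x b : ℝ) := by
    exact (measurable_from_top (f := fun n : ℕ => (n : ℝ))).comp (measurable_pi_apply b)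
  refine ⟨hm.aestronglyMeasurable, ?_⟩
  refine lt_of_le_of_lt ?_ (H.mom2 a)
  refine lintegral_mono fun x => ?_
  have h1 : x b ≤ (∑ c, x c) ^ 2 := by
    have h2 : x b ≤ ∑ c, x c := Finset.single_le_sum (fun c _ => Nat.zero_le _) (Finset.mem_univ b)
    exact h2.trans (Nat.le_self_pow two_ne_zero _)
  have h3 : ‖(x b : ℝ)‖ₑ = (x b : ℝ≥0∞) := by
    rw [Real.enorm_natCast]
  rw [h3]
  calc (x b : ℝ≥0∞) ≤ (((∑ c, x c) ^ 2 : ℕ) : ℝ≥0∞) := by exact_mod_cast h1
    _ = _ := by push_cast; rfl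

/-- the factor `1` if there is at most one child and `s` otherwise -/
private noncomputable def lapS (s : ℝ) (x : Q → ℕ) : ℝ := if ∑ b, x b ≤ 1 then 1 else s

private noncomputable def lapA (q : Q → Measure (Q → ℕ)) (s : ℝ) (a b : Q) : ℝ :=
  ∫ x, (x b : ℝ) * lapS s x ∂q a

private lemma lapS_meas (s : ℝ) : Measurable (lapS s : (Q → ℕ) → ℝ) := by
  exact Measurable.of_discrete

private lemma lapS_nonneg {s : ℝ} (hs : 0 < s) (x : Q → ℕ) : 0 ≤ lapS s x := by
  unfold lapS; split_ifs <;> linarith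

private lemma lapS_le {s : ℝ} (hs1 : s < 1) (x : Q → ℕ) : lapS s x ≤ 1 := by
  unfold lapS; split_ifs <;> linarith

private lemma lapA_int (H : MGWHyp q ρ e l) {s : ℝ} (hs : 0 < s) (hs1 : s < 1) (a b : Q) :
    Integrable (fun x : Q → ℕ => (x b : ℝ) * lapS s x) (q a) := by
  refine (lap_integrable H a b).mul_bdd (c := 1) (lapS_meas s).aestronglyMeasurable ?_
  refine Eventually.of_forall fun x => ?_
  rw [Real.norm_eq_abs, abs_of_nonneg (lapS_nonneg hs x)]
  exact lapS_le hs1 x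

private lemma lapA_nonneg {s : ℝ} (hs : 0 < s) (a b : Q) : 0 ≤ lapA q s a b :=
  integral_nonneg fun x => mul_nonneg (Nat.cast_nonneg _) (lapS_nonneg hs x)

private lemma lapA_le (H : MGWHyp q ρ e l) {s : ℝ} (hs : 0 < s) (hs1 : s < 1) (a b : Q) :
    lapA q s a b ≤ meanMat q a b := by
  refine integral_mono (lapA_int H hs hs1 a b) (lap_integrable H a b) fun x => ?_
  exact mul_le_of_le_one_right (Nat.cast_nonneg _) (lapS_le hs1 x)

private lemma meanMat_nonneg' (a b : Q) : 0 ≤ meanMat q a b :=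
  integral_nonneg fun x => Nat.cast_nonneg _

/-- strict inequality for some entry -/
private lemma lapA_lt (H : MGWHyp q ρ e l) [Nonempty Q] {s : ℝ} (hs : 0 < s) (hs1 : s < 1) :
    ∃ a b, lapA q s a b < meanMat q a b := by
  by_contra hcon
  push Not at hcon
  have heq : ∀ a b, lapA q s a b = meanMat q a b := fun a b =>
    le_antisymm (lapA_le H hs hs1 a b) (hcon a b)
  have hae : ∀ a, ∀ᵐ x ∂q a, ∀ b, x b = 0 ∨ ∑ c, x c ≤ 1 := by
    intro a
    rw [ae_all_iff]
    intro b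
    have h1 : ∫ x, ((x b : ℝ) - (x b : ℝ) * lapS s x) ∂q a = 0 := by
      rw [integral_sub (lap_integrable H a b) (lapA_int H hs hs1 a b)]
      have := heq a b
      unfold lapA meanMat at this
      linarith
    have h0 : ∀ x : Q → ℕ, 0 ≤ (x b : ℝ) - (x b : ℝ) * lapS s x := fun x =>
      sub_nonneg.2 (mul_le_of_le_one_right (Nat.cast_nonneg _) (lapS_le hs1 x))
    have h2 := (integral_eq_zero_iff_of_nonneg h0
      ((lap_integrable H a b).sub (lapA_int H hs hs1 a b))).1 h1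
    filter_upwards [h2] with x hx
    by_contra hc
    push Not at hc
    have hx' : (x b : ℝ) - (x b : ℝ) * lapS s x = 0 := hx
    have h3 : lapS s x = s := by
      unfold lapS
      rw [if_neg (by omega)]
    rw [h3] at hx'
    have h4 : (x b : ℝ) * (1 - s) = 0 := by linarith
    rcases mul_eq_zero.1 h4 with h5 | h5
    · exact hc.1 (by exact_mod_cast h5)
    · linarith
  have hone : ∀ a, ∀ᵐ x ∂q a, ∑ c, (x c : ℝ) ≤ 1 := by
    intro a
    filter_upwards [hae a] with x hx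
    by_cases h : ∑ c, x c ≤ 1
    · exact_mod_cast h
    · have : ∀ b, x b = 0 := fun b => (hx b).resolve_right h
      simp [this]
  obtain ⟨a, ha⟩ := Finite.exists_max e
  have h1 := H.Ae a
  have := H.prob a
  have h2 : ∑ b, meanMat q a b * e b ≤ e a := by
    calc ∑ b, meanMat q a b * e b ≤ ∑ b, meanMat q a b * e a :=
          Finset.sum_le_sum fun b _ => mul_le_mul_of_nonneg_left (ha b) (meanMat_nonneg' a b)
      _ = (∫ x, ∑ b, (x b : ℝ) ∂q a) * e a := by
          rw [← Finset.sum_mul, integral_finsetSum _ fun b _ => lap_integrable H a b]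
          rfl
      _ ≤ 1 * e a := by
          refine mul_le_mul_of_nonneg_right ?_ (H.e_pos a).le
          calc ∫ x, ∑ b, (x b : ℝ) ∂q a ≤ ∫ x, 1 ∂q a :=
                integral_mono_ae (integrable_finsetSum _ fun b _ => lap_integrable H a b)
                  (integrable_const _) (hone a)
            _ = 1 := by simp
      _ = e a := one_mul _
  have h3 := H.one_lt
  have h4 := H.e_pos a
  nlinarith

/-! ### Perron-Frobenius comparison -/

private lemma lap_unif {r : Q → ℝ} (h : ∀ c, r c < 1) : ∃ s : ℝ, 0 < s ∧ s < 1 ∧ ∀ c, r c ≤ s := by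
  have h1 : ∀ᶠ s : ℝ in 𝓝[<] 1, ∀ c, r c ≤ s := by
    rw [eventually_all]
    intro c
    exact eventually_nhdsWithin_of_eventually_nhds ((lt_mem_nhds (h c)).mono fun _ h => h.le)
  have h2 : ∀ᶠ s : ℝ in 𝓝[<] 1, 0 < s :=
    eventually_nhdsWithin_of_eventually_nhds (lt_mem_nhds one_pos)
  have h3 : ∀ᶠ s : ℝ in 𝓝[<] 1, s < 1 := eventually_mem_nhdsWithin
  obtain ⟨s, ⟨h1, h2⟩, h3⟩ := ((h1.and h2).and h3).exists
  exact ⟨s, h2, h3, h1⟩

private lemma lap_vec (H : MGWHyp q ρ e l) [Nonempty Q] {s : ℝ} (hs : 0 < s) (hs1 : s < 1) :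
    ∃ θ : ℝ, 0 < θ ∧ θ < 1 ∧ ∃ y : Q → ℝ, (∀ b, e b ≤ y b) ∧
      ∀ a, ∑ b, lapA q s a b * y b ≤ θ * ρ * y a := by
  obtain ⟨a0, b0, hab⟩ := lapA_lt H hs hs1
  obtain ⟨n0, hn0⟩ := H.prim
  have hρ : 0 < ρ := one_pos.trans H.one_lt
  set T : (Q → ℝ) → (Q → ℝ) := fun v a => ∑ b, lapA q s a b * v b with hT
  have hTmono : ∀ v w : Q → ℝ, (∀ b, v b ≤ w b) → ∀ a, T v a ≤ T w a := fun v w h a =>
    Finset.sum_le_sum fun b _ => mul_le_mul_of_nonneg_left (h b) (lapA_nonneg hs a b)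
  have hv0 : ∀ m b, 0 ≤ (T^[m] e) b := by
    intro m
    induction m with
    | zero => intro b; exact (H.e_pos b).le
    | succ m ih =>
      intro b
      rw [Function.iterate_succ_apply']
      exact Finset.sum_nonneg fun c _ => mul_nonneg (lapA_nonneg hs b c) (ih c)
  -- the defect
  set w : ℕ → Q → ℝ := fun m b => ρ ^ m * e b - (T^[m] e) b with hw
  have hw1 : ∀ m a, ∑ b, meanMat q a b * w m b ≤ w (m + 1) a := by
    intro m a
    have h1 : ρ ^ (m + 1) * e a = ∑ b, meanMat q a b * (ρ ^ m * e b) := by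
      have := H.Ae a
      rw [pow_succ, mul_assoc, ← this, Finset.mul_sum]
      exact Finset.sum_congr rfl fun b _ => by ring
    have h2 : (T^[m + 1] e) a ≤ ∑ b, meanMat q a b * (T^[m] e) b := by
      rw [Function.iterate_succ_apply']
      exact Finset.sum_le_sum fun b _ => mul_le_mul_of_nonneg_right (lapA_le H hs hs1 a b) (hv0 m b)
    simp only [hw, mul_sub, Finset.sum_sub_distrib]
    linarith
  have hw2 : ∀ m b, 0 ≤ w m b := by
    intro m
    induction m with
    | zero => intro b; simp [hw]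
    | succ m ih =>
      intro b
      exact le_trans (Finset.sum_nonneg fun c _ => mul_nonneg (meanMat_nonneg' b c) (ih c))
        (hw1 m b)
  have hw3 : 0 < w 1 a0 := by
    have h1 : w 1 a0 = ∑ b, (meanMat q a0 b - lapA q s a0 b) * e b := by
      simp only [hw, hT, Function.iterate_one, pow_one, sub_mul, Finset.sum_sub_distrib, H.Ae]
    rw [h1]
    refine lt_of_lt_of_le (mul_pos (sub_pos.2 hab) (H.e_pos b0)) ?_
    exact Finset.single_le_sum (f := fun b => (meanMat q a0 b - lapA q s a0 b) * e b)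
      (fun b _ => mul_nonneg (sub_nonneg.2 (lapA_le H hs hs1 a0 b)) (H.e_pos b).le)
      (Finset.mem_univ b0)
  have hw4 : ∀ n c, ∑ b, (meanMat q ^ n) c b * w 1 b ≤ w (1 + n) c := by
    intro n
    induction n with
    | zero =>
      intro c
      simp [Matrix.one_apply]
    | succ n ih =>
      intro c
      refine le_trans ?_ (hw1 (1 + n) c)
      have h1 : ∑ b, (meanMat q ^ (n + 1)) c b * w 1 b =
          ∑ d, meanMat q c d * ∑ b, (meanMat q ^ n) d b * w 1 b := by
        simp only [pow_succ', Matrix.mul_apply, Finset.sum_mul, Finset.mul_sum]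
        rw [Finset.sum_comm]
        exact Finset.sum_congr rfl fun b _ => Finset.sum_congr rfl fun d _ => by ring
      rw [h1]
      exact Finset.sum_le_sum fun d _ => mul_le_mul_of_nonneg_left (ih d) (meanMat_nonneg' c d)
  set N : ℕ := 1 + n0 with hN
  have hw5 : ∀ c, 0 < w N c := by
    intro c
    refine lt_of_lt_of_le (mul_pos (hn0 c a0) hw3) (le_trans ?_ (hw4 n0 c))
    exact Finset.single_le_sum (f := fun b => (meanMat q ^ n0) c b * w 1 b)
      (fun b _ => mul_nonneg (hn0 c b).le (hw2 1 b)) (Finset.mem_univ a0)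
  obtain ⟨θ, hθ, hθ1, hle⟩ := lap_unif (r := fun c => (T^[N] e) c / (ρ ^ N * e c)) (fun c => by
    rw [div_lt_one (mul_pos (pow_pos hρ N) (H.e_pos c))]
    have := hw5 c
    simp only [hw] at this
    linarith)
  have hTN : ∀ c, (T^[N] e) c ≤ θ * (ρ ^ N * e c) := fun c =>
    (div_le_iff₀ (mul_pos (pow_pos hρ N) (H.e_pos c))).1 (hle c)
  -- the root
  have hN0 : N ≠ 0 := by omega
  set t : ℝ := θ ^ ((N : ℝ)⁻¹) with ht
  have ht0 : 0 < t := Real.rpow_pos_of_pos hθ _
  have ht1 : t < 1 := Real.rpow_lt_one hθ.le hθ1 (by positivity)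
  have htN : t ^ N = θ := Real.rpow_inv_natCast_pow hθ.le hN0
  have htr : 0 < t * ρ := mul_pos ht0 hρ
  set y : Q → ℝ := fun b => ∑ m ∈ range N, ((t * ρ) ^ m)⁻¹ * (T^[m] e) b with hy
  refine ⟨t, ht0, ht1, y, fun b => ?_, fun a => ?_⟩
  · have h1 : e b = ((t * ρ) ^ 0)⁻¹ * (T^[0] e) b := by simp
    rw [h1]
    exact Finset.single_le_sum (f := fun m => ((t * ρ) ^ m)⁻¹ * (T^[m] e) b)
      (fun m _ => mul_nonneg (inv_nonneg.2 (pow_nonneg htr.le m)) (hv0 m b))
      (Finset.mem_range.2 (Nat.pos_of_ne_zero hN0))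
  · have h1 : ∑ b, lapA q s a b * y b =
        t * ρ * ∑ m ∈ range N, ((t * ρ) ^ (m + 1))⁻¹ * (T^[m + 1] e) a := by
      simp only [hy, Finset.mul_sum]
      rw [Finset.sum_comm]
      refine Finset.sum_congr rfl fun m _ => ?_
      rw [Function.iterate_succ_apply']
      simp only [hT, Finset.mul_sum]
      refine Finset.sum_congr rfl fun b _ => ?_
      rw [pow_succ]
      field_simp
    rw [h1]
    refine mul_le_mul_of_nonneg_left ?_ htr.le
    have h2 := Finset.sum_range_succ' (fun m => ((t * ρ) ^ m)⁻¹ * (T^[m] e) a) N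
    have h3 := Finset.sum_range_succ (fun m => ((t * ρ) ^ m)⁻¹ * (T^[m] e) a) N
    have h4 : ((t * ρ) ^ N)⁻¹ * (T^[N] e) a ≤ e a := by
      rw [inv_mul_le_iff₀ (pow_pos htr N), mul_pow, htN]
      calc _ ≤ _ := hTN a
        _ = _ := by ring
    have h5 : ((t * ρ) ^ 0)⁻¹ * (T^[0] e) a = e a := by simp
    simp only [hy]
    linarith

/-! ### the Laplace transform of `W` -/

private noncomputable def lapK (ρ : ℝ) (e : Q → ℝ) (b : Q) (η : Env Q) : ℝ≥0∞ :=
  ENNReal.ofReal (Real.exp (-(ρ⁻¹ * Wf ρ e b η)))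

private lemma lapK_meas (b : Q) : Measurable (lapK ρ e b) := by
  unfold lapK
  have := measurable_Wf ρ e b
  fun_prop

private lemma lapK_lt (H : MGWHyp q ρ e l) :
    ∃ s : ℝ, 0 < s ∧ s < 1 ∧ ∀ c, ∫⁻ η, lapK ρ e c η ∂mgw q c ≤ ENNReal.ofReal s := by
  have hρ : 0 < ρ := one_pos.trans H.one_lt
  have : ∀ a, IsProbabilityMeasure (mgw q a) := lap_prob H.prob
  have hWm := fun b => measurable_Wf ρ e b
  have hWn : ∀ b η, 0 ≤ Wf ρ e b η := fun b η => Wf_nonneg hρ.le (fun b => (H.e_pos b).le) b η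
  have hle : ∀ b η, Real.exp (-(ρ⁻¹ * Wf ρ e b η)) ≤ 1 := by
    intro b η
    rw [Real.exp_le_one_iff]
    have := mul_nonneg (inv_nonneg.2 hρ.le) (hWn b η)
    linarith
  have hint : ∀ c, Integrable (fun η => Real.exp (-(ρ⁻¹ * Wf ρ e c η))) (mgw q c) := by
    intro c
    refine Integrable.of_bound (C := 1) ?_ ?_
    · have := hWm c
      exact Measurable.aestronglyMeasurable (by fun_prop)
    · refine Eventually.of_forall fun η => ?_
      rw [Real.norm_eq_abs, abs_of_pos (Real.exp_pos _)]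
      exact hle c η
  have hlt : ∀ c, ∫ η, Real.exp (-(ρ⁻¹ * Wf ρ e c η)) ∂mgw q c < 1 := by
    intro c
    by_contra hc
    push Not at hc
    have h1 : ∫ η, (1 - Real.exp (-(ρ⁻¹ * Wf ρ e c η))) ∂mgw q c = 0 := by
      refine le_antisymm ?_ (integral_nonneg fun η => sub_nonneg.2 (hle c η))
      rw [integral_sub (integrable_const _) (hint c)]
      simp only [integral_const, probReal_univ, smul_eq_mul, one_mul]
      linarith
    have h2 := (integral_eq_zero_iff_of_nonneg (fun η => sub_nonneg.2 (hle c η))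
      ((integrable_const _).sub (hint c))).1 h1
    have h3 : ∀ᵐ η ∂mgw q c, Wf ρ e c η = 0 := by
      filter_upwards [h2] with η hη
      have h4 : 1 - Real.exp (-(ρ⁻¹ * Wf ρ e c η)) = 0 := hη
      have h5 : Real.exp (-(ρ⁻¹ * Wf ρ e c η)) = 1 := by linarith
      rw [Real.exp_eq_one_iff] at h5
      have h6 : ρ⁻¹ * Wf ρ e c η = 0 := by linarith
      exact (mul_eq_zero.1 h6).resolve_left (inv_ne_zero hρ.ne')
    have h4 := integral_Wf H c
    rw [integral_congr_ae h3] at h4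
    simp only [integral_zero] at h4
    exact (H.e_pos c).ne h4
  obtain ⟨s, hs, hs1, h⟩ := lap_unif hlt
  refine ⟨s, hs, hs1, fun c => ?_⟩
  unfold lapK
  rw [← ofReal_integral_eq_lintegral_ofReal (hint c)
    (Eventually.of_forall fun η => (Real.exp_pos _).le)]
  exact ENNReal.ofReal_le_ofReal (h c)

/-- the exponential functional -/
private noncomputable def lapF (ρ : ℝ) (e : Q → ℝ) (m : ℕ) (b : Q) (η : Env Q) : ℝ :=
  mu (chE η) ρ m (fun u => Real.exp (-(Wf ρ e b η + ps (lift b (Wf ρ e) η) u)))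

private lemma lapF_nonneg (hρ : 0 ≤ ρ) (m : ℕ) (b : Q) (η : Env Q) : 0 ≤ lapF ρ e m b η :=
  mu_nonneg hρ fun v _ => (Real.exp_pos _).le

private lemma lapF_zero (b : Q) (η : Env Q) : lapF ρ e 0 b η = Real.exp (-Wf ρ e b η) := by
  unfold lapF
  rw [mu_zero]
  simp

/-- first step decomposition -/
private lemma lap_step (m : ℕ) (a : Q) (ω : Env Q) :
    mu (chE ω) ρ (m + 1) (fun u => Real.exp (-(ps (lift a (Wf ρ e) ω) u))) =
      ρ⁻¹ * Tb (lapF ρ e m) a ω := by
  rw [add_comm m 1, mu_add', mu, pow_one, Function.iterate_one, Up, Tb]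
  congr 1
  refine Finset.sum_congr rfl fun i _ => ?_
  unfold lapF
  change mu (chE (sub ω [i])) ρ m _ = _
  refine mu_congr fun u _ => ?_
  rw [ps_append]
  congr 2
  have h1 : ps (lift a (Wf ρ e) ω) [i] = Wf ρ e i.1 (sub ω [i]) := by
    rw [ps_cons, ps_nil, zero_add]; rfl
  rw [h1]
  congr 1
  congr 1
  funext v
  rw [lift_append]
  rfl

private lemma lapF_succ (m : ℕ) (a : Q) (ω : Env Q) :
    lapF ρ e (m + 1) a ω = Real.exp (-Wf ρ e a ω) * (ρ⁻¹ * Tb (lapF ρ e m) a ω) := by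
  rw [← lap_step, ← mu_const_mul]
  unfold lapF
  refine mu_congr fun u _ => ?_
  rw [← Real.exp_add]
  congr 1
  ring

private lemma lapF_meas (m : ℕ) : ∀ b, Measurable (lapF ρ e m b) := by
  induction m with
  | zero =>
    intro b
    have : lapF ρ e 0 b = fun η => Real.exp (-Wf ρ e b η) := funext fun η => lapF_zero b η
    rw [this]
    have := measurable_Wf ρ e b
    fun_prop
  | succ m ih =>
    intro b
    have : lapF ρ e (m + 1) b = fun η => Real.exp (-Wf ρ e b η) * (ρ⁻¹ * Tb (lapF ρ e m) b η) :=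
      funext fun η => lapF_succ m b η
    rw [this]
    have h1 := measurable_Wf ρ e b
    have h2 := measurable_Tb ih b
    fun_prop

/-- the recursive inequality, pointwise -/
private lemma lapF_succ_le (H : MGWHyp q ρ e l) (m : ℕ) (a : Q) : ∀ᵐ ω ∂mgw q a,
    ENNReal.ofReal (lapF ρ e (m + 1) a ω) ≤ ENNReal.ofReal ρ⁻¹ *
      ∑ i ∈ chE ω [], (∏ j ∈ (chE ω []).erase i, lapK ρ e j.1 (sub ω [j])) *
        ENNReal.ofReal (lapF ρ e m i.1 (sub ω [i])) := by
  have hρ : 0 < ρ := one_pos.trans H.one_lt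
  have hWn : ∀ b η, 0 ≤ Wf ρ e b η := fun b η => Wf_nonneg hρ.le (fun b => (H.e_pos b).le) b η
  filter_upwards [Wf_flow H a] with ω hω
  have h0 := hω []
  rw [lift_nil] at h0
  have h1 : Wf ρ e a ω = ρ⁻¹ * ∑ j ∈ chE ω [], Wf ρ e j.1 (sub ω [j]) := by
    have h2 : Up (chE ω) (lift a (Wf ρ e) ω) [] = ∑ j ∈ chE ω [], Wf ρ e j.1 (sub ω [j]) := rfl
    rw [h2] at h0
    rw [← h0]
    field_simp
  have h2 : lapF ρ e (m + 1) a ω ≤ ρ⁻¹ * ∑ i ∈ chE ω [],
      (∏ j ∈ (chE ω []).erase i, Real.exp (-(ρ⁻¹ * Wf ρ e j.1 (sub ω [j])))) *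
        lapF ρ e m i.1 (sub ω [i]) := by
    rw [lapF_succ, Tb, mul_left_comm, Finset.mul_sum]
    refine mul_le_mul_of_nonneg_left (Finset.sum_le_sum fun i hi => ?_) (inv_nonneg.2 hρ.le)
    refine mul_le_mul_of_nonneg_right ?_ (lapF_nonneg hρ.le _ _ _)
    rw [← Real.exp_sum, Real.exp_le_exp, Finset.sum_neg_distrib, ← Finset.mul_sum, h1]
    refine neg_le_neg (mul_le_mul_of_nonneg_left ?_ (inv_nonneg.2 hρ.le))
    exact Finset.sum_le_sum_of_subset_of_nonneg (Finset.erase_subset _ _) fun j _ _ => hWn _ _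
  refine (ENNReal.ofReal_le_ofReal h2).trans (le_of_eq ?_)
  rw [ENNReal.ofReal_mul (inv_nonneg.2 hρ.le), ENNReal.ofReal_sum_of_nonneg]
  · congr 1
    refine Finset.sum_congr rfl fun i _ => ?_
    rw [ENNReal.ofReal_mul (Finset.prod_nonneg fun j _ => (Real.exp_pos _).le),
      ENNReal.ofReal_prod_of_nonneg fun j _ => (Real.exp_pos _).le]
    rfl
  · exact fun i _ => mul_nonneg (Finset.prod_nonneg fun j _ => (Real.exp_pos _).le)
      (lapF_nonneg hρ.le _ _ _)

private lemma lap_sum_chX (x : Q → ℕ) (f : Q → ℝ≥0∞) :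
    ∑ i ∈ chX x, f i.1 = ∑ b, (x b : ℝ≥0∞) * f b := by
  rw [chX, Finset.sum_biUnion]
  · refine Finset.sum_congr rfl fun b _ => ?_
    rw [Finset.sum_image]
    · simp
    · intro i _ j _ h
      simpa using h
  · intro b _ c _ hbc
    rw [Function.onFun, Finset.disjoint_left]
    intro u hu hu'
    simp only [Finset.mem_image] at hu hu'
    obtain ⟨n, -, rfl⟩ := hu
    obtain ⟨m, -, h⟩ := hu'
    exact hbc (by simpa using (Prod.ext_iff.1 h).1.symm)

/-- bound for the weighted first moment -/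
private lemma lap_bound (H : MGWHyp q ρ e l) {s : ℝ} (hs : 0 < s) (hs1 : s < 1) {L φ : Q → ℝ≥0∞}
    (hL : ∀ c, L c ≤ ENNReal.ofReal s) (a : Q) :
    ∫⁻ x, ∑ i ∈ chX x, (∏ j ∈ (chX x).erase i, L j.1) * φ i.1 ∂q a ≤
      ∑ b, ENNReal.ofReal (lapA q s a b) * φ b := by
  have := H.prob a
  have hs' : ENNReal.ofReal s ≤ 1 := by
    rw [← ENNReal.ofReal_one]; exact ENNReal.ofReal_le_ofReal hs1.le
  have hL1 : ∀ c, L c ≤ 1 := fun c => (hL c).trans hs'
  have h1 : ∀ x : Q → ℕ, ∑ i ∈ chX x, (∏ j ∈ (chX x).erase i, L j.1) * φ i.1 ≤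
      ∑ b, ENNReal.ofReal ((x b : ℝ) * lapS s x) * φ b := by
    intro x
    calc ∑ i ∈ chX x, (∏ j ∈ (chX x).erase i, L j.1) * φ i.1
        ≤ ∑ i ∈ chX x, ENNReal.ofReal (lapS s x) * φ i.1 := by
          refine Finset.sum_le_sum fun i hi => ?_
          gcongr
          unfold lapS
          split_ifs with h
          · rw [ENNReal.ofReal_one]
            exact Finset.prod_le_one' fun j _ => hL1 _
          · have hc : 1 < (chX x).card := by rw [card_chX]; omega
            obtain ⟨j, hj⟩ : ((chX x).erase i).Nonempty := by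
              rw [← Finset.card_pos, Finset.card_erase_of_mem hi]; omega
            rw [← Finset.mul_prod_erase _ _ hj]
            calc L j.1 * ∏ k ∈ ((chX x).erase i).erase j, L k.1
                ≤ ENNReal.ofReal s * 1 := by
                  gcongr
                  · exact hL _
                  · exact Finset.prod_le_one' fun j _ => hL1 _
              _ = ENNReal.ofReal s := mul_one _
      _ = ∑ b, (x b : ℝ≥0∞) * (ENNReal.ofReal (lapS s x) * φ b) :=
          lap_sum_chX x fun b => ENNReal.ofReal (lapS s x) * φ b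
      _ = _ := by
          refine Finset.sum_congr rfl fun b _ => ?_
          rw [ENNReal.ofReal_mul (Nat.cast_nonneg _), ENNReal.ofReal_natCast, mul_assoc]
  refine (lintegral_mono h1).trans (le_of_eq ?_)
  rw [lintegral_finsetSum]
  · refine Finset.sum_congr rfl fun b _ => ?_
    rw [lintegral_mul_const _ Measurable.of_discrete]
    congr 1
    rw [lapA, ofReal_integral_eq_lintegral_ofReal (lapA_int H hs hs1 a b)]
    exact Eventually.of_forall fun x => mul_nonneg (Nat.cast_nonneg _) (lapS_nonneg hs x)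
  · exact fun b _ => Measurable.of_discrete

private lemma lap_bound' (H : MGWHyp q ρ e l) {φ : Q → ℝ≥0∞} (a : Q) :
    ∫⁻ x, ∑ i ∈ chX x, φ i.1 ∂q a = ∑ b, ENNReal.ofReal (meanMat q a b) * φ b := by
  have := H.prob a
  have h1 : ∀ x : Q → ℕ, ∑ i ∈ chX x, φ i.1 = ∑ b, ENNReal.ofReal (x b : ℝ) * φ b := by
    intro x
    rw [lap_sum_chX x φ]
    exact Finset.sum_congr rfl fun b _ => by rw [ENNReal.ofReal_natCast]
  simp_rw [h1]
  rw [lintegral_finsetSum]
  · refine Finset.sum_congr rfl fun b _ => ?_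
    rw [lintegral_mul_const _ Measurable.of_discrete]
    congr 1
    rw [meanMat, ofReal_integral_eq_lintegral_ofReal (lap_integrable H a b)]
    exact Eventually.of_forall fun x => Nat.cast_nonneg _
  · exact fun b _ => Measurable.of_discrete

private lemma lap_rec (H : MGWHyp q ρ e l) {s : ℝ} (hs : 0 < s) (hs1 : s < 1)
    (hL : ∀ c, ∫⁻ η, lapK ρ e c η ∂mgw q c ≤ ENNReal.ofReal s) (m : ℕ) (a : Q) :
    ∫⁻ ω, ENNReal.ofReal (lapF ρ e (m + 1) a ω) ∂mgw q a ≤ ENNReal.ofReal ρ⁻¹ *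
      ∑ b, ENNReal.ofReal (lapA q s a b) * ∫⁻ η, ENNReal.ofReal (lapF ρ e m b η) ∂mgw q b := by
  refine (lintegral_mono_ae (lapF_succ_le H m a)).trans ?_
  rw [lintegral_const_mul' _ _ ENNReal.ofReal_ne_top]
  gcongr
  rw [lap_Tb H.prob lapK_meas (fun b => (lapF_meas m b).ennreal_ofReal) a]
  exact lap_bound H hs hs1 (L := fun c => ∫⁻ η, lapK ρ e c η ∂mgw q c)
    (φ := fun b => ∫⁻ η, ENNReal.ofReal (lapF ρ e m b η) ∂mgw q b) hL a

private lemma lap_mean (H : MGWHyp q ρ e l) (m : ℕ) (a : Q) :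
    ∫⁻ ω, ENNReal.ofReal (Tb (lapF ρ e m) a ω) ∂mgw q a =
      ∑ b, ENNReal.ofReal (meanMat q a b) *
        ∫⁻ η, ENNReal.ofReal (lapF ρ e m b η) ∂mgw q b := by
  have hρ : 0 < ρ := one_pos.trans H.one_lt
  have : ∀ a, IsProbabilityMeasure (mgw q a) := lap_prob H.prob
  have h := lap_Tb (K := fun _ _ => 1) H.prob (fun _ => measurable_const)
    (fun b => (lapF_meas (ρ := ρ) (e := e) m b).ennreal_ofReal) a
  simp only [Finset.prod_const_one, one_mul, lintegral_const, measure_univ] at h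
  rw [← lap_bound' H (φ := fun b => ∫⁻ η, ENNReal.ofReal (lapF ρ e m b η) ∂mgw q b) a, ← h]
  refine lintegral_congr fun ω => ?_
  rw [Tb, ENNReal.ofReal_sum_of_nonneg fun i _ => lapF_nonneg hρ.le _ _ _]

private lemma lap_decay (H : MGWHyp q ρ e l) [Nonempty Q] :
    ∃ t : ℝ, 0 < t ∧ t < 1 ∧ ∃ y : Q → ℝ, (∀ b, 0 ≤ y b) ∧
      ∀ m b, ∫⁻ ω, ENNReal.ofReal (lapF ρ e m b ω) ∂mgw q b ≤ ENNReal.ofReal (t ^ m * y b) := by
  have hρ : 0 < ρ := one_pos.trans H.one_lt
  have : ∀ a, IsProbabilityMeasure (mgw q a) := lap_prob H.prob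
  obtain ⟨s, hs, hs1, hL⟩ := lapK_lt H
  obtain ⟨t, ht, ht1, y, hy, hy2⟩ := lap_vec H hs hs1
  obtain ⟨b0, hb0⟩ := Finite.exists_min e
  have he0 := H.e_pos b0
  have hy0 : ∀ b, 0 ≤ y b := fun b => (H.e_pos b).le.trans (hy b)
  refine ⟨t, ht, ht1, fun b => (e b0)⁻¹ * y b, fun b => mul_nonneg (inv_nonneg.2 he0.le) (hy0 b),
    fun m => ?_⟩
  induction m with
  | zero =>
    intro b
    have h1 : 1 ≤ t ^ 0 * ((e b0)⁻¹ * y b) := by
      rw [pow_zero, one_mul, ← div_eq_inv_mul, one_le_div he0]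
      exact (hb0 b).trans (hy b)
    calc ∫⁻ ω, ENNReal.ofReal (lapF ρ e 0 b ω) ∂mgw q b ≤ ∫⁻ ω, 1 ∂mgw q b := by
          refine lintegral_mono fun ω => ?_
          rw [lapF_zero, ← ENNReal.ofReal_one]
          refine ENNReal.ofReal_le_ofReal ?_
          rw [Real.exp_le_one_iff]
          exact neg_nonpos.2 (Wf_nonneg hρ.le (fun b => (H.e_pos b).le) b ω)
      _ = 1 := by simp
      _ ≤ _ := by rw [← ENNReal.ofReal_one]; exact ENNReal.ofReal_le_ofReal h1
  | succ m ih =>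
    intro a
    refine (lap_rec H hs hs1 hL m a).trans ?_
    have h1 : ∑ b, ENNReal.ofReal (lapA q s a b) *
        ∫⁻ η, ENNReal.ofReal (lapF ρ e m b η) ∂mgw q b ≤
        ∑ b, ENNReal.ofReal (lapA q s a b * (t ^ m * ((e b0)⁻¹ * y b))) := by
      refine Finset.sum_le_sum fun b _ => ?_
      rw [ENNReal.ofReal_mul (lapA_nonneg hs a b)]
      gcongr
      exact ih b
    refine (mul_le_mul_right h1 _).trans ?_
    rw [← ENNReal.ofReal_sum_of_nonneg fun b _ => mul_nonneg (lapA_nonneg hs a b)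
      (mul_nonneg (pow_nonneg ht.le m) (mul_nonneg (inv_nonneg.2 he0.le) (hy0 b))),
      ← ENNReal.ofReal_mul (inv_nonneg.2 hρ.le)]
    refine ENNReal.ofReal_le_ofReal ?_
    have h2 : ∑ b, lapA q s a b * (t ^ m * ((e b0)⁻¹ * y b)) =
        t ^ m * (e b0)⁻¹ * ∑ b, lapA q s a b * y b := by
      rw [Finset.mul_sum]
      exact Finset.sum_congr rfl fun b _ => by ring
    rw [h2]
    calc ρ⁻¹ * (t ^ m * (e b0)⁻¹ * ∑ b, lapA q s a b * y b)
        ≤ ρ⁻¹ * (t ^ m * (e b0)⁻¹ * (t * ρ * y a)) := by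
          have := hy2 a
          have := pow_nonneg ht.le m
          gcongr
      _ = t ^ (m + 1) * ((e b0)⁻¹ * y a) := by
          rw [pow_succ]
          field_simp

theorem laplace (H : MGWHyp q ρ e l) : ∃ C > 0, ∃ c > 0, ∃ κ' > 0, ∀ (a : Q) (m : ℕ),
    ∫⁻ ω, ENNReal.ofReal (mu (chE ω) ρ m
      (fun u => if ps (lift a (Wf ρ e) ω) u < κ' * m then 1 else 0)) ∂mgw q a ≤
    ENNReal.ofReal (C * Real.exp (-(c * m))) := by
  rcases isEmpty_or_nonempty Q with hQ | hQ
  · exact ⟨1, one_pos, 1, one_pos, 1, one_pos, fun a => (hQ.false a).elim⟩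
  have hρ : 0 < ρ := one_pos.trans H.one_lt
  obtain ⟨t, ht, ht1, y, hy, hdec⟩ := lap_decay H
  set κ : ℝ := -Real.log t / 2 with hκ
  have hκ0 : 0 < κ := by
    have := Real.log_neg ht ht1
    rw [hκ]; linarith
  have htk : t = Real.exp (-(2 * κ)) := by
    rw [hκ, ← Real.exp_log ht]
    congr 1
    rw [Real.log_exp]; ring
  set D : ℝ := ∑ a, ∑ b, meanMat q a b * y b with hD
  have hD0 : 0 ≤ D := Finset.sum_nonneg fun a _ => Finset.sum_nonneg fun b _ =>
    mul_nonneg (meanMat_nonneg' a b) (hy b)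
  have hDa : ∀ a, ∑ b, meanMat q a b * y b ≤ D := fun a =>
    Finset.single_le_sum (f := fun a => ∑ b, meanMat q a b * y b)
      (fun a _ => Finset.sum_nonneg fun b _ => mul_nonneg (meanMat_nonneg' a b) (hy b))
      (Finset.mem_univ a)
  refine ⟨Real.exp (2 * κ) * ρ⁻¹ * (D + 1), by positivity, κ, hκ0, κ, hκ0, fun a m => ?_⟩
  cases m with
  | zero => simp [mu_zero]
  | succ m =>
    have h1 : ∀ ω, mu (chE ω) ρ (m + 1)
        (fun u => if ps (lift a (Wf ρ e) ω) u < κ * ((m + 1 : ℕ) : ℝ) then (1 : ℝ) else 0) ≤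
        Real.exp (κ * ((m + 1 : ℕ) : ℝ)) * ρ⁻¹ * Tb (lapF ρ e m) a ω := by
      intro ω
      rw [mul_assoc, ← lap_step, ← mu_const_mul]
      refine mu_mono hρ.le fun u _ => ?_
      rw [← Real.exp_add]
      split_ifs with h
      · exact Real.one_le_exp (by linarith)
      · exact (Real.exp_pos _).le
    calc ∫⁻ ω, ENNReal.ofReal (mu (chE ω) ρ (m + 1)
        (fun u => if ps (lift a (Wf ρ e) ω) u < κ * ((m + 1 : ℕ) : ℝ) then (1 : ℝ) else 0))
          ∂mgw q a
        ≤ ∫⁻ ω, ENNReal.ofReal (Real.exp (κ * ((m + 1 : ℕ) : ℝ)) * ρ⁻¹) *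
            ENNReal.ofReal (Tb (lapF ρ e m) a ω) ∂mgw q a := by
          refine lintegral_mono fun ω => ?_
          rw [← ENNReal.ofReal_mul (by positivity)]
          exact ENNReal.ofReal_le_ofReal (h1 ω)
      _ = ENNReal.ofReal (Real.exp (κ * ((m + 1 : ℕ) : ℝ)) * ρ⁻¹) *
            ∑ b, ENNReal.ofReal (meanMat q a b) *
              ∫⁻ η, ENNReal.ofReal (lapF ρ e m b η) ∂mgw q b := by
          rw [lintegral_const_mul' _ _ ENNReal.ofReal_ne_top, lap_mean H]
      _ ≤ ENNReal.ofReal (Real.exp (κ * ((m + 1 : ℕ) : ℝ)) * ρ⁻¹) *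
            ∑ b, ENNReal.ofReal (meanMat q a b * (t ^ m * y b)) := by
          gcongr with b
          rw [ENNReal.ofReal_mul (meanMat_nonneg' a b)]
          gcongr
          exact hdec m b
      _ = ENNReal.ofReal (Real.exp (κ * ((m + 1 : ℕ) : ℝ)) * ρ⁻¹ *
            ∑ b, meanMat q a b * (t ^ m * y b)) := by
          rw [← ENNReal.ofReal_sum_of_nonneg fun b _ => mul_nonneg (meanMat_nonneg' a b)
            (mul_nonneg (pow_nonneg ht.le m) (hy b)), ← ENNReal.ofReal_mul (by positivity)]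
      _ ≤ _ := by
          refine ENNReal.ofReal_le_ofReal ?_
          have h2 : ∑ b, meanMat q a b * (t ^ m * y b) = t ^ m * ∑ b, meanMat q a b * y b := by
            rw [Finset.mul_sum]
            exact Finset.sum_congr rfl fun b _ => by ring
          have h3 : t ^ m = Real.exp (-(2 * κ) * m) := by
            rw [mul_comm, Real.exp_nat_mul, ← htk]
          have h4 : Real.exp (κ * ((m + 1 : ℕ) : ℝ)) * t ^ m =
              Real.exp (2 * κ) * Real.exp (-(κ * ((m + 1 : ℕ) : ℝ))) := by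
            rw [h3, ← Real.exp_add, ← Real.exp_add]
            congr 1
            push_cast
            ring
          rw [h2]
          calc Real.exp (κ * ((m + 1 : ℕ) : ℝ)) * ρ⁻¹ * (t ^ m * ∑ b, meanMat q a b * y b)
              = ρ⁻¹ * (Real.exp (κ * ((m + 1 : ℕ) : ℝ)) * t ^ m) *
                  ∑ b, meanMat q a b * y b := by ring
            _ = Real.exp (2 * κ) * ρ⁻¹ * (∑ b, meanMat q a b * y b) *
                  Real.exp (-(κ * ((m + 1 : ℕ) : ℝ))) := by rw [h4]; ring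
            _ ≤ Real.exp (2 * κ) * ρ⁻¹ * (D + 1) * Real.exp (-(κ * ((m + 1 : ℕ) : ℝ))) := by
                have := hDa a
                gcongr
                linarith

end GW

end Pool.Agent.BW
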