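import Pool.Agent.Lib.MP_276d40_pr.Shift

/-!
# First and second moments of sums over the children of the root
-/

open MeasureTheory ProbabilityTheory Filter Topology Finset
open scoped ENNReal NNReal

set_option linter.unusedSectionVars false
set_option linter.unusedVariables false

namespace Pool.Agent.BW

section GW

variable {Q : Type} [Fintype Q] [DecidableEq Q] {q : Q → Measure (Q → ℕ)} {ρ : ℝ} {e l : Q → ℝ}

/-- sum over the children, as a function of the offspring vector and of the subtrees -/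
private noncomputable def momG (Φ : Q → Env Q → ℝ) (p : (Q → ℕ) × (Q × ℕ → Env Q)) : ℝ :=
  ∑ i ∈ chX p.1, Φ i.1 (p.2 i)

private theorem Tb_eq_momG (Φ : Q → Env Q → ℝ) (a : Q) :
    Tb Φ a = momG Φ ∘ (fun ω : Env Q => (ω [], fun i : Q × ℕ => sub ω [i])) := by
  funext ω
  rfl

private theorem measurable_momG {Φ : Q → Env Q → ℝ} (hm : ∀ b, Measurable (Φ b)) :
    Measurable (momG Φ) := by
  refine measurable_from_prod_countable_right fun x => ?_
  unfold momG
  exact Finset.measurable_sum (f := fun (i : Q × ℕ) (y : Q × ℕ → Env Q) => Φ i.1 (y i)) (chX x)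
    fun (i : Q × ℕ) _ => (hm i.1).comp (measurable_pi_apply i)

private theorem mgw_prob (H : MGWHyp q ρ e l) (a : Q) : IsProbabilityMeasure (mgw q a) := by
  have := H.prob
  unfold mgw
  infer_instance

/-- the law of the subtrees -/
private noncomputable def subLaw (q : Q → Measure (Q → ℕ)) : Measure (Q × ℕ → Env Q) :=
  Measure.infinitePi fun i : Q × ℕ => mgw q i.1

private theorem subLaw_prob (H : MGWHyp q ρ e l) : IsProbabilityMeasure (subLaw q) := by
  have := mgw_prob H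
  unfold subLaw
  infer_instance

private theorem mp_eval (H : MGWHyp q ρ e l) (i : Q × ℕ) :
    MeasurePreserving (fun y : Q × ℕ → Env Q => y i) (subLaw q) (mgw q i.1) := by
  have := mgw_prob H
  exact measurePreserving_eval_infinitePi (fun i : Q × ℕ => mgw q i.1) i

private theorem mp_dec (H : MGWHyp q ρ e l) (a : Q) :
    MeasurePreserving (fun ω : Env Q => (ω [], fun i : Q × ℕ => sub ω [i])) (mgw q a)
      ((q a).prod (subLaw q)) := map_decomp H.prob a

private theorem integrable_coord (H : MGWHyp q ρ e l) {f : Env Q → ℝ} {i : Q × ℕ}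
    (hi : Integrable f (mgw q i.1)) : Integrable (fun y : Q × ℕ → Env Q => f (y i)) (subLaw q) :=
  (mp_eval H i).integrable_comp_of_integrable hi

private theorem integrable_coord' (H : MGWHyp q ρ e l) {Φ : Q → Env Q → ℝ}
    (hi : ∀ b, Integrable (Φ b) (mgw q b)) (i : Q × ℕ) :
    Integrable (fun y : Q × ℕ → Env Q => Φ i.1 (y i)) (subLaw q) :=
  (mp_eval H i).integrable_comp_of_integrable (hi i.1)

private theorem integral_coord (H : MGWHyp q ρ e l) {f : Env Q → ℝ} (hf : Measurable f)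
    (i : Q × ℕ) : ∫ y, f (y i) ∂(subLaw q) = ∫ ω, f ω ∂(mgw q i.1) := by
  rw [← (mp_eval H i).map_eq, integral_map (mp_eval H i).measurable.aemeasurable
    hf.aestronglyMeasurable]

private theorem memLp_total (H : MGWHyp q ρ e l) (a : Q) :
    MemLp (fun x : Q → ℕ => ∑ c, (x c : ℝ)) 2 (q a) := by
  refine ⟨Measurable.of_discrete.aestronglyMeasurable, ?_⟩
  rw [eLpNorm_lt_top_iff_lintegral_rpow_enorm_lt_top (by norm_num) (by norm_num)]
  refine lt_of_le_of_lt (lintegral_mono fun x => ?_) (H.mom2 a)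
  have h0 : (0 : ℝ) ≤ ∑ c, (x c : ℝ) := Finset.sum_nonneg fun c _ => Nat.cast_nonneg _
  have h1 : ‖∑ c, (x c : ℝ)‖ₑ = ∑ c, (x c : ℝ≥0∞) := by
    rw [Real.enorm_eq_ofReal h0, ENNReal.ofReal_sum_of_nonneg fun c _ => Nat.cast_nonneg _]
    exact Finset.sum_congr rfl fun c _ => ENNReal.ofReal_natCast _
  rw [h1]
  simp

private theorem integrable_total_sq (H : MGWHyp q ρ e l) (a : Q) :
    Integrable (fun x : Q → ℕ => (∑ c, (x c : ℝ)) ^ 2) (q a) :=
  (memLp_total H a).integrable_sq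

private theorem integrable_total (H : MGWHyp q ρ e l) (a : Q) :
    Integrable (fun x : Q → ℕ => ∑ c, (x c : ℝ)) (q a) := by
  have := H.prob a
  exact (memLp_total H a).integrable (by norm_num)

private theorem coord_le_total (x : Q → ℕ) (b : Q) : (x b : ℝ) ≤ ∑ c, (x c : ℝ) :=
  Finset.single_le_sum (f := fun c => (x c : ℝ)) (fun c _ => Nat.cast_nonneg _)
    (Finset.mem_univ b)

private theorem integrable_xb (H : MGWHyp q ρ e l) (a b : Q) :
    Integrable (fun x : Q → ℕ => (x b : ℝ)) (q a) := by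
  refine (integrable_total H a).mono' Measurable.of_discrete.aestronglyMeasurable
    (Eventually.of_forall fun x => ?_)
  rw [Real.norm_of_nonneg (Nat.cast_nonneg _)]
  exact coord_le_total x b

private theorem sum_chX_fst (x : Q → ℕ) (m : Q → ℝ) :
    ∑ i ∈ chX x, m i.1 = ∑ b, (x b : ℝ) * m b := by
  rw [sum_chX]
  exact Finset.sum_congr rfl fun b _ => by simp

private theorem integrable_momG (H : MGWHyp q ρ e l) {Φ : Q → Env Q → ℝ}
    (hm : ∀ b, Measurable (Φ b)) (hi : ∀ b, Integrable (Φ b) (mgw q b)) (a : Q) :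
    Integrable (momG Φ) ((q a).prod (subLaw q)) := by
  have := subLaw_prob H
  have := H.prob a
  rw [integrable_prod_iff (measurable_momG hm).aestronglyMeasurable]
  refine ⟨Eventually.of_forall fun x => integrable_finsetSum (chX x) fun i _ =>
    integrable_coord' H hi i, ?_⟩
  have hb : Integrable (fun x : Q → ℕ => ∑ b, (x b : ℝ) * ∫ ω, ‖Φ b ω‖ ∂(mgw q b)) (q a) :=
    integrable_finsetSum _ fun b _ => (integrable_xb H a b).mul_const _
  refine hb.mono' Measurable.of_discrete.aestronglyMeasurable (Eventually.of_forall fun x => ?_)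
  rw [Real.norm_of_nonneg (integral_nonneg fun y => norm_nonneg _)]
  calc ∫ y, ‖momG Φ (x, y)‖ ∂(subLaw q)
      ≤ ∫ y, ∑ i ∈ chX x, ‖Φ i.1 (y i)‖ ∂(subLaw q) := by
        refine integral_mono_of_nonneg (Eventually.of_forall fun y => norm_nonneg _)
          (integrable_finsetSum _ fun i _ => (integrable_coord' H hi i).norm)
          (Eventually.of_forall fun y => norm_sum_le _ _)
    _ = ∑ i ∈ chX x, ∫ y, ‖Φ i.1 (y i)‖ ∂(subLaw q) :=
        integral_finsetSum _ fun i _ => (integrable_coord' H hi i).norm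
    _ = ∑ i ∈ chX x, ∫ ω, ‖Φ i.1 ω‖ ∂(mgw q i.1) :=
        Finset.sum_congr rfl fun i _ => integral_coord H (f := fun ω => ‖Φ i.1 ω‖)
          (hm i.1).norm i
    _ = ∑ b, (x b : ℝ) * ∫ ω, ‖Φ b ω‖ ∂(mgw q b) :=
        sum_chX_fst x fun b => ∫ ω, ‖Φ b ω‖ ∂(mgw q b)

theorem integrable_Tb (H : MGWHyp q ρ e l) {Φ : Q → Env Q → ℝ} (hm : ∀ b, Measurable (Φ b))
    (hi : ∀ b, Integrable (Φ b) (mgw q b)) (a : Q) : Integrable (Tb Φ a) (mgw q a) := by
  rw [Tb_eq_momG]
  exact (mp_dec H a).integrable_comp_of_integrable (integrable_momG H hm hi a)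

theorem integral_Tb (H : MGWHyp q ρ e l) {Φ : Q → Env Q → ℝ} (hm : ∀ b, Measurable (Φ b))
    (hi : ∀ b, Integrable (Φ b) (mgw q b)) (a : Q) :
    ∫ ω, Tb Φ a ω ∂mgw q a = ∑ b, meanMat q a b * ∫ ω, Φ b ω ∂mgw q b := by
  have := subLaw_prob H
  have := H.prob a
  have h1 : ∫ ω, Tb Φ a ω ∂mgw q a = ∫ p, momG Φ p ∂((q a).prod (subLaw q)) := by
    rw [← (mp_dec H a).map_eq, integral_map (mp_dec H a).measurable.aemeasurable
      (measurable_momG hm).aestronglyMeasurable, Tb_eq_momG]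
    rfl
  rw [h1, integral_prod _ (integrable_momG H hm hi a)]
  have h2 : ∀ x : Q → ℕ, ∫ y, momG Φ (x, y) ∂(subLaw q) =
      ∑ b, (x b : ℝ) * ∫ ω, Φ b ω ∂mgw q b := by
    intro x
    unfold momG
    rw [integral_finsetSum (chX x) fun i _ => integrable_coord' H hi i,
      ← sum_chX_fst x fun b => ∫ ω, Φ b ω ∂mgw q b]
    exact Finset.sum_congr rfl fun i _ => integral_coord H (hm i.1) i
  simp only [h2]
  rw [integral_finsetSum _ fun b _ => (integrable_xb H a b).mul_const _]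
  exact Finset.sum_congr rfl fun b _ => integral_mul_const _ _

private theorem memLp_coord (H : MGWHyp q ρ e l) {f : Env Q → ℝ} {i : Q × ℕ}
    (h2 : MemLp f 2 (mgw q i.1)) : MemLp (fun y : Q × ℕ → Env Q => f (y i)) 2 (subLaw q) :=
  h2.comp_measurePreserving (mp_eval H i)

private theorem memLp_coord' (H : MGWHyp q ρ e l) {Φ : Q → Env Q → ℝ}
    (h2 : ∀ b, MemLp (Φ b) 2 (mgw q b)) (i : Q × ℕ) :
    MemLp (fun y : Q × ℕ → Env Q => Φ i.1 (y i)) 2 (subLaw q) :=
  (h2 i.1).comp_measurePreserving (mp_eval H i)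

private theorem memLp_momG_right (H : MGWHyp q ρ e l) {Φ : Q → Env Q → ℝ}
    (h2 : ∀ b, MemLp (Φ b) 2 (mgw q b)) (x : Q → ℕ) :
    MemLp (fun y => momG Φ (x, y)) 2 (subLaw q) :=
  memLp_finsetSum (chX x) fun i _ => memLp_coord' H h2 i

private theorem integrable_sq_momG (H : MGWHyp q ρ e l) {Φ : Q → Env Q → ℝ}
    (hm : ∀ b, Measurable (Φ b)) (h2 : ∀ b, MemLp (Φ b) 2 (mgw q b)) (a : Q) :
    Integrable (fun p => momG Φ p ^ 2) ((q a).prod (subLaw q)) := by
  have := subLaw_prob H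
  have := H.prob a
  rw [integrable_prod_iff ((measurable_momG hm).pow_const 2).aestronglyMeasurable]
  refine ⟨Eventually.of_forall fun x => (memLp_momG_right H h2 x).integrable_sq, ?_⟩
  set M : ℝ := ∑ b, ∫ ω, Φ b ω ^ 2 ∂(mgw q b) with hM
  have hMb : ∀ b, ∫ ω, Φ b ω ^ 2 ∂(mgw q b) ≤ M := fun b =>
    Finset.single_le_sum (f := fun b => ∫ ω, Φ b ω ^ 2 ∂(mgw q b))
      (fun c _ => integral_nonneg fun ω => sq_nonneg _) (Finset.mem_univ b)
  have hb : Integrable (fun x : Q → ℕ => (∑ c, (x c : ℝ)) ^ 2 * M) (q a) :=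
    (integrable_total_sq H a).mul_const _
  refine hb.mono' Measurable.of_discrete.aestronglyMeasurable (Eventually.of_forall fun x => ?_)
  rw [Real.norm_of_nonneg (integral_nonneg fun y => norm_nonneg _)]
  have hcard : ((chX x).card : ℝ) = ∑ c, (x c : ℝ) := by
    rw [card_chX]; push_cast; rfl
  have hint : ∀ i ∈ chX x, Integrable (fun y : Q × ℕ → Env Q => Φ i.1 (y i) ^ 2) (subLaw q) :=
    fun i _ => (memLp_coord' H h2 i).integrable_sq
  calc ∫ y, ‖momG Φ (x, y) ^ 2‖ ∂(subLaw q)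
      ≤ ∫ y, (chX x).card * ∑ i ∈ chX x, Φ i.1 (y i) ^ 2 ∂(subLaw q) := by
        refine integral_mono_of_nonneg (Eventually.of_forall fun y => norm_nonneg _)
          ((integrable_finsetSum _ hint).const_mul _) (Eventually.of_forall fun y => ?_)
        simp only
        rw [Real.norm_of_nonneg (sq_nonneg _)]
        exact sq_sum_le_card_mul_sum_sq
    _ = (chX x).card * ∑ i ∈ chX x, ∫ y, Φ i.1 (y i) ^ 2 ∂(subLaw q) := by
        rw [integral_const_mul, integral_finsetSum _ hint]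
    _ = (chX x).card * ∑ b, (x b : ℝ) * ∫ ω, Φ b ω ^ 2 ∂(mgw q b) := by
        rw [← sum_chX_fst x fun b => ∫ ω, Φ b ω ^ 2 ∂(mgw q b)]
        congr 1
        exact Finset.sum_congr rfl fun i _ => integral_coord H (f := fun ω => Φ i.1 ω ^ 2)
          ((hm i.1).pow_const 2) i
    _ ≤ (chX x).card * ∑ b, (x b : ℝ) * M := by
        refine mul_le_mul_of_nonneg_left (Finset.sum_le_sum fun b _ =>
          mul_le_mul_of_nonneg_left (hMb b) (Nat.cast_nonneg _)) (Nat.cast_nonneg _)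
    _ = (∑ c, (x c : ℝ)) ^ 2 * M := by
        rw [← Finset.sum_mul, hcard]; ring

theorem memLp_Tb (H : MGWHyp q ρ e l) {Φ : Q → Env Q → ℝ} (hm : ∀ b, Measurable (Φ b))
    (h2 : ∀ b, MemLp (Φ b) 2 (mgw q b)) (a : Q) : MemLp (Tb Φ a) 2 (mgw q a) := by
  rw [Tb_eq_momG]
  refine MemLp.comp_measurePreserving ?_ (mp_dec H a)
  rw [memLp_two_iff_integrable_sq (measurable_momG hm).aestronglyMeasurable]
  exact integrable_sq_momG H hm h2 a

theorem integral_sq_Tb (H : MGWHyp q ρ e l) {Φ : Q → Env Q → ℝ} (hm : ∀ b, Measurable (Φ b))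
    (h2 : ∀ b, MemLp (Φ b) 2 (mgw q b)) (h0 : ∀ b, ∫ ω, Φ b ω ∂mgw q b = 0) (a : Q) :
    ∫ ω, Tb Φ a ω ^ 2 ∂mgw q a = ∑ b, meanMat q a b * ∫ ω, Φ b ω ^ 2 ∂mgw q b := by
  have := subLaw_prob H
  have := H.prob a
  have := mgw_prob H
  have h1 : ∫ ω, Tb Φ a ω ^ 2 ∂mgw q a = ∫ p, momG Φ p ^ 2 ∂((q a).prod (subLaw q)) := by
    rw [← (mp_dec H a).map_eq, integral_map (mp_dec H a).measurable.aemeasurable
      ((measurable_momG hm).pow_const 2).aestronglyMeasurable, Tb_eq_momG]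
    rfl
  rw [h1, integral_prod _ (integrable_sq_momG H hm h2 a)]
  have hind : iIndepFun (fun (i : Q × ℕ) (y : Q × ℕ → Env Q) => Φ i.1 (y i)) (subLaw q) :=
    iIndepFun_infinitePi (P := fun i : Q × ℕ => mgw q i.1) (X := fun i ω => Φ i.1 ω)
      (fun i => hm i.1)
  have hz : ∀ i : Q × ℕ, ∫ y, Φ i.1 (y i) ∂(subLaw q) = 0 := fun i => by
    rw [integral_coord H (hm i.1) i, h0]
  have h2' : ∀ x : Q → ℕ, ∫ y, momG Φ (x, y) ^ 2 ∂(subLaw q) =
      ∑ b, (x b : ℝ) * ∫ ω, Φ b ω ^ 2 ∂mgw q b := by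
    intro x
    have hv := IndepFun.variance_sum (μ := subLaw q)
      (X := fun (i : Q × ℕ) (y : Q × ℕ → Env Q) => Φ i.1 (y i)) (s := chX x)
      (fun i _ => memLp_coord' H h2 i) (fun i _ j _ hij => hind.indepFun hij)
    have hsum : (∑ i ∈ chX x, fun y : Q × ℕ → Env Q => Φ i.1 (y i)) =
        fun y => momG Φ (x, y) := by
      funext y
      simp [momG]
    rw [hsum, variance_of_integral_eq_zero
      (memLp_momG_right H h2 x).aestronglyMeasurable.aemeasurable] at hv
    · rw [hv, ← sum_chX_fst x fun b => ∫ ω, Φ b ω ^ 2 ∂(mgw q b)]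
      refine Finset.sum_congr rfl fun i _ => ?_
      rw [variance_of_integral_eq_zero
        (memLp_coord' H h2 i).aestronglyMeasurable.aemeasurable (hz i)]
      exact integral_coord H (f := fun ω => Φ i.1 ω ^ 2) ((hm i.1).pow_const 2) i
    · unfold momG
      rw [integral_finsetSum (chX x) fun i _ => (memLp_coord' H h2 i).integrable (by norm_num)]
      exact Finset.sum_eq_zero fun i _ => hz i
  simp only [h2']
  rw [integral_finsetSum _ fun b _ => (integrable_xb H a b).mul_const _]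
  exact Finset.sum_congr rfl fun b _ => integral_mul_const _ _

private theorem mom_sum_pow (A : Matrix Q Q ℝ) (k : ℕ) (a : Q) (m : Q → ℝ) :
    ∑ b, A a b * ∑ c, (A ^ k) b c * m c = ∑ c, (A ^ (k + 1)) a c * m c := by
  simp only [pow_succ', Matrix.mul_apply, Finset.mul_sum, Finset.sum_mul]
  rw [Finset.sum_comm]
  exact Finset.sum_congr rfl fun c _ => Finset.sum_congr rfl fun b _ => by ring

private theorem mom_one (m : Q → ℝ) (A : Matrix Q Q ℝ) (a : Q) :
    ∑ b, (A ^ 0) a b * m b = m a := by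
  simp [Matrix.one_apply]

theorem Tb_iter_moments (H : MGWHyp q ρ e l) {Φ : Q → Env Q → ℝ} (hm : ∀ b, Measurable (Φ b))
    (hi : ∀ b, Integrable (Φ b) (mgw q b)) (k : ℕ) (a : Q) :
    Integrable (Tb^[k] Φ a) (mgw q a) ∧
      ∫ ω, Tb^[k] Φ a ω ∂mgw q a = ∑ b, (meanMat q ^ k) a b * ∫ ω, Φ b ω ∂mgw q b := by
  induction k generalizing a with
  | zero => exact ⟨hi a, (mom_one (fun b => ∫ ω, Φ b ω ∂mgw q b) _ a).symm⟩
  | succ k ih =>
    rw [Function.iterate_succ_apply']
    refine ⟨integrable_Tb H (measurable_Tb_iter hm k) (fun b => (ih b).1) a, ?_⟩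
    rw [integral_Tb H (measurable_Tb_iter hm k) (fun b => (ih b).1) a,
      ← mom_sum_pow (meanMat q) k a fun b => ∫ ω, Φ b ω ∂mgw q b]
    exact Finset.sum_congr rfl fun b _ => by rw [(ih b).2]

theorem Tb_iter_memLp (H : MGWHyp q ρ e l) {Φ : Q → Env Q → ℝ} (hm : ∀ b, Measurable (Φ b))
    (h2 : ∀ b, MemLp (Φ b) 2 (mgw q b)) (k : ℕ) (a : Q) : MemLp (Tb^[k] Φ a) 2 (mgw q a) := by
  induction k generalizing a with
  | zero => exact h2 a
  | succ k ih =>
    rw [Function.iterate_succ_apply']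
    exact memLp_Tb H (measurable_Tb_iter hm k) ih a

theorem Tb_iter_sq (H : MGWHyp q ρ e l) {Φ : Q → Env Q → ℝ} (hm : ∀ b, Measurable (Φ b))
    (h2 : ∀ b, MemLp (Φ b) 2 (mgw q b)) (h0 : ∀ b, ∫ ω, Φ b ω ∂mgw q b = 0) (k : ℕ) (a : Q) :
    ∫ ω, (Tb^[k] Φ a ω) ^ 2 ∂mgw q a =
      ∑ b, (meanMat q ^ k) a b * ∫ ω, Φ b ω ^ 2 ∂mgw q b := by
  have := mgw_prob H
  induction k generalizing a with
  | zero => exact (mom_one (fun b => ∫ ω, Φ b ω ^ 2 ∂mgw q b) _ a).symm
  | succ k ih =>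
    rw [Function.iterate_succ_apply']
    rw [integral_sq_Tb H (measurable_Tb_iter hm k) (fun b => Tb_iter_memLp H hm h2 k b) ?_ a,
      ← mom_sum_pow (meanMat q) k a fun b => ∫ ω, Φ b ω ^ 2 ∂mgw q b]
    · exact Finset.sum_congr rfl fun b _ => by rw [ih b]
    · intro b
      rw [(Tb_iter_moments H hm (fun b => (h2 b).integrable (by norm_num)) k b).2]
      exact Finset.sum_eq_zero fun c _ => by rw [h0, mul_zero]

end GW

end Pool.Agent.BW
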