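import Pool.Agent.Lib.MP_276d40_pr.Defs

/-!
# Basic algebra of level sums
-/

open MeasureTheory ProbabilityTheory Filter Topology Finset
open scoped ENNReal NNReal

set_option linter.unusedSectionVars false
set_option linter.unusedVariables false

namespace Pool.Agent.BW

section Tree

variable {I : Type} [DecidableEq I]

/-- `v` is a vertex of the tree `ch` -/
def InT (ch : List I → Finset I) : List I → Prop
  | [] => True
  | i :: v => InT ch v ∧ i ∈ ch v

/-- the vertices at level `k` -/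
def lev (ch : List I → Finset I) : ℕ → Finset (List I)
  | 0 => {[]}
  | k + 1 => (lev ch k).biUnion fun v => (ch v).image fun i => i :: v

variable {ch : List I → Finset I} {ρ : ℝ}

theorem mem_lev {k : ℕ} {v : List I} : v ∈ lev ch k ↔ InT ch v ∧ v.length = k := by
  induction k generalizing v with
  | zero =>
    simp only [lev, Finset.mem_singleton, List.length_eq_zero_iff]
    constructor
    · rintro rfl; exact ⟨trivial, rfl⟩
    · rintro ⟨-, h⟩; exact h
  | succ k ih =>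
    simp only [lev, Finset.mem_biUnion, Finset.mem_image]
    constructor
    · rintro ⟨w, hw, i, hi, rfl⟩
      obtain ⟨h1, h2⟩ := ih.1 hw
      exact ⟨⟨h1, hi⟩, by simp [h2]⟩
    · rintro ⟨h1, h2⟩
      cases v with
      | nil => simp at h2
      | cons i v =>
        refine ⟨v, ih.2 ⟨h1.1, by simpa using h2⟩, i, h1.2, rfl⟩

theorem length_of_mem_lev {k : ℕ} {v : List I} (h : v ∈ lev ch k) : v.length = k :=
  (mem_lev.1 h).2

theorem sum_lev_succ (k : ℕ) (f : List I → ℝ) :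
    ∑ v ∈ lev ch (k + 1), f v = ∑ v ∈ lev ch k, Up ch f v := by
  rw [lev, Finset.sum_biUnion]
  · refine Finset.sum_congr rfl fun v _ => ?_
    rw [Up, Finset.sum_image]
    intro i _ j _ h
    simpa using h
  · intro v _ w _ hvw
    rw [Function.onFun, Finset.disjoint_left]
    intro u hu hu'
    simp only [Finset.mem_image] at hu hu'
    obtain ⟨i, -, rfl⟩ := hu
    obtain ⟨j, -, h⟩ := hu'
    exact hvw (by simpa using (List.cons.inj h).2.symm)

theorem Up_iter_root (k : ℕ) (f : List I → ℝ) :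
    ((Up ch)^[k] f) [] = ∑ v ∈ lev ch k, f v := by
  induction k generalizing f with
  | zero => simp [lev]
  | succ k ih => rw [Function.iterate_succ_apply, ih, sum_lev_succ]

theorem mu_eq_sum (k : ℕ) (f : List I → ℝ) :
    mu ch ρ k f = (ρ ^ k)⁻¹ * ∑ v ∈ lev ch k, f v := by
  rw [mu, Up_iter_root]

theorem mu_zero (f : List I → ℝ) : mu ch ρ 0 f = f [] := by
  simp [mu]

theorem mu_mono (hρ : 0 ≤ ρ) {k : ℕ} {f g : List I → ℝ} (h : ∀ v ∈ lev ch k, f v ≤ g v) :
    mu ch ρ k f ≤ mu ch ρ k g := by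
  rw [mu_eq_sum, mu_eq_sum]
  exact mul_le_mul_of_nonneg_left (Finset.sum_le_sum h) (inv_nonneg.2 (pow_nonneg hρ k))

theorem mu_nonneg (hρ : 0 ≤ ρ) {k : ℕ} {f : List I → ℝ} (h : ∀ v ∈ lev ch k, 0 ≤ f v) :
    0 ≤ mu ch ρ k f := by
  rw [mu_eq_sum]
  exact mul_nonneg (inv_nonneg.2 (pow_nonneg hρ k)) (Finset.sum_nonneg h)

theorem mu_congr {k : ℕ} {f g : List I → ℝ} (h : ∀ v ∈ lev ch k, f v = g v) :
    mu ch ρ k f = mu ch ρ k g := by
  rw [mu_eq_sum, mu_eq_sum, Finset.sum_congr rfl h]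

theorem mu_add_fun (k : ℕ) (f g : List I → ℝ) :
    mu ch ρ k (fun v => f v + g v) = mu ch ρ k f + mu ch ρ k g := by
  rw [mu_eq_sum, mu_eq_sum, mu_eq_sum, Finset.sum_add_distrib, mul_add]

theorem mu_sub_fun (k : ℕ) (f g : List I → ℝ) :
    mu ch ρ k (fun v => f v - g v) = mu ch ρ k f - mu ch ρ k g := by
  rw [mu_eq_sum, mu_eq_sum, mu_eq_sum, Finset.sum_sub_distrib, mul_sub]

theorem mu_const_mul (k : ℕ) (c : ℝ) (f : List I → ℝ) :
    mu ch ρ k (fun v => c * f v) = c * mu ch ρ k f := by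
  rw [mu_eq_sum, mu_eq_sum, ← Finset.mul_sum]; ring

theorem mu_mul_const (k : ℕ) (c : ℝ) (f : List I → ℝ) :
    mu ch ρ k (fun v => f v * c) = mu ch ρ k f * c := by
  rw [mu_eq_sum, mu_eq_sum, ← Finset.sum_mul]; ring

theorem mu_finset_sum {ι : Type*} (k : ℕ) (s : Finset ι) (f : ι → List I → ℝ) :
    mu ch ρ k (fun v => ∑ j ∈ s, f j v) = ∑ j ∈ s, mu ch ρ k (f j) := by
  simp only [mu_eq_sum]
  rw [Finset.sum_comm, Finset.mul_sum]

theorem abs_mu_le (hρ : 0 ≤ ρ) (k : ℕ) (f : List I → ℝ) :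
    |mu ch ρ k f| ≤ mu ch ρ k (fun v => |f v|) := by
  rw [mu_eq_sum, mu_eq_sum, abs_mul, abs_of_nonneg (inv_nonneg.2 (pow_nonneg hρ k))]
  exact mul_le_mul_of_nonneg_left (Finset.abs_sum_le_sum_abs _ _)
    (inv_nonneg.2 (pow_nonneg hρ k))

/-- Cauchy-Schwarz for level sums -/
theorem mu_mul_sq_le (hρ : 0 ≤ ρ) (k : ℕ) (f g : List I → ℝ) :
    (mu ch ρ k (fun v => f v * g v)) ^ 2 ≤
      mu ch ρ k (fun v => f v ^ 2) * mu ch ρ k (fun v => g v ^ 2) := by
  simp only [mu_eq_sum]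
  have h := Finset.sum_mul_sq_le_sq_mul_sq (lev ch k) f g
  have h2 : 0 ≤ ((ρ ^ k)⁻¹) ^ 2 := sq_nonneg _
  calc ((ρ ^ k)⁻¹ * ∑ v ∈ lev ch k, f v * g v) ^ 2
      = ((ρ ^ k)⁻¹) ^ 2 * (∑ v ∈ lev ch k, f v * g v) ^ 2 := by ring
    _ ≤ ((ρ ^ k)⁻¹) ^ 2 * ((∑ v ∈ lev ch k, f v ^ 2) * ∑ v ∈ lev ch k, g v ^ 2) :=
        mul_le_mul_of_nonneg_left h h2
    _ = _ := by ring

/-- weighted Cauchy-Schwarz for level sums -/
theorem mu_weight_sq_le (hρ : 0 ≤ ρ) (k : ℕ) {w h : List I → ℝ} (hw : ∀ v, 0 ≤ w v) :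
    (mu ch ρ k (fun v => w v * |h v|)) ^ 2 ≤
      mu ch ρ k w * mu ch ρ k (fun v => w v * h v ^ 2) := by
  have h1 := mu_mul_sq_le (ch := ch) hρ k (fun v => √(w v)) (fun v => √(w v) * |h v|)
  have e1 : (fun v => √(w v) * (√(w v) * |h v|)) = fun v => w v * |h v| := by
    funext v
    rw [← mul_assoc, Real.mul_self_sqrt (hw v)]
  have e2 : (fun v => √(w v) ^ 2) = w := by
    funext v
    rw [Real.sq_sqrt (hw v)]
  have e3 : (fun v => (√(w v) * |h v|) ^ 2) = fun v => w v * h v ^ 2 := by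
    funext v
    rw [mul_pow, Real.sq_sqrt (hw v), sq_abs]
  rw [e1, e2, e3] at h1
  exact h1

/-! ### `Up`, `Fj`, `ps` -/

theorem Up_mono {f g : List I → ℝ} (h : ∀ v, f v ≤ g v) (v : List I) : Up ch f v ≤ Up ch g v :=
  Finset.sum_le_sum fun i _ => h _

theorem Up_nonneg {f : List I → ℝ} (h : ∀ v, 0 ≤ f v) (v : List I) : 0 ≤ Up ch f v :=
  Finset.sum_nonneg fun i _ => h _

theorem Up_const_mul (c : ℝ) (f : List I → ℝ) :
    Up ch (fun v => c * f v) = fun v => c * Up ch f v := by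
  funext v
  simp [Up, Finset.mul_sum]

theorem Up_iter_const_mul (c : ℝ) (f : List I → ℝ) (j : ℕ) :
    (Up ch)^[j] (fun v => c * f v) = fun v => c * ((Up ch)^[j] f) v := by
  induction j with
  | zero => rfl
  | succ j ih => rw [Function.iterate_succ_apply', ih, Up_const_mul, Function.iterate_succ_apply']

theorem Up_iter_nonneg {f : List I → ℝ} (h : ∀ v, 0 ≤ f v) (j : ℕ) (v : List I) :
    0 ≤ ((Up ch)^[j] f) v := by
  induction j generalizing v with
  | zero => exact h v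
  | succ j ih => rw [Function.iterate_succ_apply']; exact Up_nonneg ih v

theorem Up_iter_mono {f g : List I → ℝ} (h : ∀ v, f v ≤ g v) (j : ℕ) (v : List I) :
    ((Up ch)^[j] f) v ≤ ((Up ch)^[j] g) v := by
  induction j generalizing v with
  | zero => exact h v
  | succ j ih =>
    rw [Function.iterate_succ_apply', Function.iterate_succ_apply']; exact Up_mono ih v

@[simp] theorem Fj_zero (Y : List I → ℝ) (v : List I) : Fj ch ρ Y 0 v = Y v := by
  simp [Fj]

theorem Fj_nonneg (hρ : 0 ≤ ρ) {Y : List I → ℝ} (h : ∀ v, 0 ≤ Y v) (j : ℕ) (v : List I) :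
    0 ≤ Fj ch ρ Y j v :=
  mul_nonneg (inv_nonneg.2 (pow_nonneg hρ j)) (Up_iter_nonneg h j v)

theorem Fj_mono (hρ : 0 ≤ ρ) {f g : List I → ℝ} (h : ∀ v, f v ≤ g v) (j : ℕ) (v : List I) :
    Fj ch ρ f j v ≤ Fj ch ρ g j v :=
  mul_le_mul_of_nonneg_left (Up_iter_mono h j v) (inv_nonneg.2 (pow_nonneg hρ j))

theorem Fj_const_mul (c : ℝ) (f : List I → ℝ) (j : ℕ) (v : List I) :
    Fj ch ρ (fun u => c * f u) j v = c * Fj ch ρ f j v := by
  rw [Fj, Up_iter_const_mul, Fj]; ring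

theorem Up_Fj (hρ : ρ ≠ 0) (Y : List I → ℝ) (j : ℕ) (v : List I) :
    Up ch (Fj ch ρ Y j) v = ρ * Fj ch ρ Y (j + 1) v := by
  have h : Fj ch ρ Y j = fun v => (ρ ^ j)⁻¹ * ((Up ch)^[j] Y) v := rfl
  rw [h, Up_const_mul, Fj, Function.iterate_succ_apply']
  field_simp
  ring

theorem mu_add (j m : ℕ) (f : List I → ℝ) :
    mu ch ρ (j + m) f = mu ch ρ j (Fj ch ρ f m) := by
  have h : Fj ch ρ f m = fun v => (ρ ^ m)⁻¹ * ((Up ch)^[m] f) v := rfl
  rw [h, mu_const_mul, mu, mu, Function.iterate_add_apply, pow_add, mul_inv]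
  ring

/-- the flow property iterated -/
theorem Fj_flow (hρ : ρ ≠ 0) {W : List I → ℝ} (hW : ∀ v, ρ * W v = Up ch W v) (m : ℕ)
    (v : List I) : Fj ch ρ W m v = W v := by
  induction m generalizing v with
  | zero => simp
  | succ m ih =>
    have h := Up_Fj (ch := ch) hρ W m v
    have h2 : Up ch (Fj ch ρ W m) v = Up ch W v := by
      have : Fj ch ρ W m = W := funext ih
      rw [this]
    rw [h2, ← hW] at h
    exact (mul_left_cancel₀ hρ h).symm

theorem mu_flow (hρ : ρ ≠ 0) {W : List I → ℝ} (hW : ∀ v, ρ * W v = Up ch W v) (k : ℕ) :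
    mu ch ρ k W = W [] := by
  have h := Fj_flow hρ hW k []
  rwa [Fj] at h

@[simp] theorem ps_nil (a : List I → ℝ) : ps a [] = 0 := rfl

@[simp] theorem ps_cons (a : List I → ℝ) (i : I) (v : List I) :
    ps a (i :: v) = ps a v + a (i :: v) := rfl

theorem ps_nonneg {a : List I → ℝ} (h : ∀ v, 0 ≤ a v) (v : List I) : 0 ≤ ps a v := by
  induction v with
  | nil => simp
  | cons i v ih => rw [ps_cons]; exact add_nonneg ih (h _)

theorem ps_mono {a b : List I → ℝ} (h : ∀ v, a v ≤ b v) (v : List I) : ps a v ≤ ps b v := by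
  induction v with
  | nil => simp
  | cons i v ih => rw [ps_cons, ps_cons]; exact add_le_add ih (h _)

theorem ps_append (a : List I → ℝ) (u w : List I) :
    ps a (u ++ w) = ps a w + ps (fun u => a (u ++ w)) u := by
  induction u with
  | nil => simp
  | cons i u ih => rw [List.cons_append, ps_cons, ih, ps_cons, List.cons_append]; ring

theorem Up_iter_append (f : List I → ℝ) (w : List I) (m : ℕ) (u : List I) :
    ((Up ch)^[m] f) (u ++ w) =
      ((Up (fun u => ch (u ++ w)))^[m] (fun u => f (u ++ w))) u := by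
  induction m generalizing u with
  | zero => rfl
  | succ m ih =>
    rw [Function.iterate_succ_apply', Function.iterate_succ_apply', Up, Up]
    refine Finset.sum_congr rfl fun i _ => ?_
    rw [← List.cons_append, ih]

/-- `Fj` at `w` is a level sum of the subtree below `w` -/
theorem Fj_eq_mu (f : List I → ℝ) (m : ℕ) (w : List I) :
    Fj ch ρ f m w = mu (fun u => ch (u ++ w)) ρ m (fun u => f (u ++ w)) := by
  have h := Up_iter_append (ch := ch) f w m []
  rw [List.nil_append] at h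
  rw [Fj, mu, h]

/-- splitting a level sum: `v = u ++ w` with `w` at level `j`, `u` at level `m` of the
subtree below `w` -/
theorem mu_add' (j m : ℕ) (f : List I → ℝ) :
    mu ch ρ (j + m) f =
      mu ch ρ j (fun w => mu (fun u => ch (u ++ w)) ρ m (fun u => f (u ++ w))) := by
  rw [mu_add]
  exact mu_congr fun v _ => Fj_eq_mu f m v

end Tree

section MGW

variable {Q : Type} [Fintype Q] [DecidableEq Q]

theorem alive_iff (ω : Env Q) (v : List (Q × ℕ)) : Alive ω v ↔ InT (chE ω) v := by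
  induction v with
  | nil => simp [Alive, InT]
  | cons i v ih => simp [Alive, InT, ih]

@[simp] theorem sub_nil (ω : Env Q) : sub ω [] = ω := by
  funext u; simp [sub]

theorem sub_sub (ω : Env Q) (v u : List (Q × ℕ)) : sub (sub ω v) u = sub ω (u ++ v) := by
  funext w; simp [sub, List.append_assoc]

@[simp] theorem typ_nil (a : Q) : typ a [] = a := rfl

@[simp] theorem typ_cons (a : Q) (i : Q × ℕ) (v : List (Q × ℕ)) : typ a (i :: v) = i.1 := rfl

theorem typ_append (a : Q) (u v : List (Q × ℕ)) : typ a (u ++ v) = typ (typ a v) u := by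
  cases u <;> simp

theorem chE_sub (ω : Env Q) (v u : List (Q × ℕ)) : chE (sub ω v) u = chE ω (u ++ v) := rfl

theorem lift_nil (a : Q) (Y : Q → Env Q → ℝ) (ω : Env Q) : lift a Y ω [] = Y a ω := by
  simp [lift]

theorem lift_append (a : Q) (Y : Q → Env Q → ℝ) (ω : Env Q) (u v : List (Q × ℕ)) :
    lift a Y ω (u ++ v) = lift (typ a v) Y (sub ω v) u := by
  simp [lift, typ_append, sub_sub]

theorem mem_chX (x : Q → ℕ) (i : Q × ℕ) : i ∈ chX x ↔ i.2 < x i.1 := by
  simp only [chX, Finset.mem_biUnion, Finset.mem_univ, true_and, Finset.mem_image,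
    Finset.mem_range]
  constructor
  · rintro ⟨b, n, hn, rfl⟩; exact hn
  · intro h; exact ⟨i.1, i.2, h, rfl⟩

theorem sum_chX (x : Q → ℕ) (f : Q × ℕ → ℝ) :
    ∑ i ∈ chX x, f i = ∑ b, ∑ n ∈ range (x b), f (b, n) := by
  rw [chX, Finset.sum_biUnion]
  · refine Finset.sum_congr rfl fun b _ => ?_
    rw [Finset.sum_image]
    intro i _ j _ h
    simpa using h
  · intro b _ c _ hbc
    rw [Function.onFun, Finset.disjoint_left]
    intro u hu hu'
    simp only [Finset.mem_image] at hu hu'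
    obtain ⟨n, -, rfl⟩ := hu
    obtain ⟨m, -, h⟩ := hu'
    exact hbc (by simpa using (Prod.ext_iff.1 h).1.symm)

theorem card_chX (x : Q → ℕ) : (chX x).card = ∑ b, x b := by
  have h := sum_chX x (fun _ => (1 : ℝ))
  simp only [Finset.sum_const, Finset.card_range, nsmul_eq_mul, mul_one] at h
  exact_mod_cast h

theorem lift_Tb (a : Q) (Φ : Q → Env Q → ℝ) (ω : Env Q) (v : List (Q × ℕ)) :
    lift a (Tb Φ) ω v = Up (chE ω) (lift a Φ ω) v := by
  simp only [lift, Tb, Up]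
  refine Finset.sum_congr ?_ fun i _ => ?_
  · simp [chE, sub]
  · rw [sub_sub]; rfl

theorem lift_Tb_iter (a : Q) (Φ : Q → Env Q → ℝ) (ω : Env Q) (k : ℕ) :
    lift a (Tb^[k] Φ) ω = (Up (chE ω))^[k] (lift a Φ ω) := by
  induction k with
  | zero => rfl
  | succ k ih =>
    rw [Function.iterate_succ_apply', Function.iterate_succ_apply', ← ih]
    funext v
    exact lift_Tb a _ ω v

theorem NY_eq (ρ : ℝ) (Y : Q → Env Q → ℝ) (k : ℕ) (a : Q) (ω : Env Q) :
    NY ρ Y k a ω = (ρ ^ k)⁻¹ * (Tb^[k] Y) a ω := by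
  rw [NY, mu, ← lift_Tb_iter, lift_nil]

theorem Fj_lift (ρ : ℝ) (a : Q) (Y : Q → Env Q → ℝ) (ω : Env Q) (j : ℕ) (v : List (Q × ℕ)) :
    Fj (chE ω) ρ (lift a Y ω) j v = lift a (NY ρ Y j) ω v := by
  rw [Fj, ← lift_Tb_iter, lift, lift, NY_eq]

theorem NY_NY (ρ : ℝ) (Y : Q → Env Q → ℝ) (j k : ℕ) (a : Q) (ω : Env Q) :
    NY ρ (NY ρ Y j) k a ω = NY ρ Y (k + j) a ω := by
  rw [NY, NY, mu_add]
  exact mu_congr fun v _ => (Fj_lift ρ a Y ω j v).symm

theorem NY_zero (ρ : ℝ) (Y : Q → Env Q → ℝ) (a : Q) (ω : Env Q) : NY ρ Y 0 a ω = Y a ω := by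
  rw [NY, mu_zero, lift_nil]

/-- first step decomposition of the level sums -/
theorem NY_succ (ρ : ℝ) (Y : Q → Env Q → ℝ) (k : ℕ) (a : Q) (ω : Env Q) :
    NY ρ Y (k + 1) a ω = ρ⁻¹ * Tb (NY ρ Y k) a ω := by
  rw [NY_eq, Function.iterate_succ_apply', Tb, Tb, Finset.mul_sum, Finset.mul_sum]
  refine Finset.sum_congr rfl fun i _ => ?_
  rw [NY_eq, pow_succ, mul_inv]
  ring

/-- a level sum of a function of the vertex relative to its ancestor `m` levels up is a level
sum of a functional of the subtree -/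
theorem mu_relative (ρ : ℝ) (a : Q) (ω : Env Q) (j m : ℕ) (f : List (Q × ℕ) → ℝ)
    (G : Q → Env Q → List (Q × ℕ) → ℝ)
    (hf : ∀ u w, u.length = m → f (u ++ w) = G (typ a w) (sub ω w) u) :
    mu (chE ω) ρ (j + m) f =
      NY ρ (fun b η => mu (chE η) ρ m (G b η)) j a ω := by
  rw [mu_add', NY]
  refine mu_congr fun w _ => ?_
  rw [lift]
  refine mu_congr fun u hu => ?_
  exact hf u w (length_of_mem_lev hu)

end MGW

end Pool.Agent.BW
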