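import Pool.Agent.Lib.MP_276d40_pr.MuBasic

open MeasureTheory ProbabilityTheory Filter Topology Finset
open scoped ENNReal NNReal

set_option linter.unusedSectionVars false
set_option linter.unusedVariables false

namespace Pool.Agent.BW

section MuPs

variable {I : Type} [DecidableEq I] {ch : List I → Finset I} {ρ : ℝ} {W : List I → ℝ}

private theorem mu_succ_Up (k : ℕ) (f : List I → ℝ) :
    mu ch ρ (k + 1) f = ρ⁻¹ * mu ch ρ k (Up ch f) := by
  rw [mu_add k 1 f, ← mu_const_mul]
  refine mu_congr fun v _ => ?_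
  rw [Fj, pow_one, Function.iterate_one]

private theorem Up_ps_mul (g F : List I → ℝ) (v : List I) :
    Up ch (fun u => ps g u * F u) v = ps g v * Up ch F v + Up ch (fun u => g u * F u) v := by
  rw [Up, Up, Up, Finset.mul_sum, ← Finset.sum_add_distrib]
  refine Finset.sum_congr rfl fun i _ => ?_
  rw [ps_cons]
  ring

theorem mu_W_ps (hρ : ρ ≠ 0) (hflow : ∀ v, ρ * W v = Up ch W v) (g : List I → ℝ) (k : ℕ) :
    mu ch ρ k (fun v => W v * ps g v) =
      ∑ j ∈ Ico 1 (k + 1), mu ch ρ j (fun v => g v * W v) := by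
  induction k with
  | zero => rw [mu_zero, ps_nil, mul_zero, zero_add, Finset.Ico_self, Finset.sum_empty]
  | succ k ih =>
    rw [Finset.sum_Ico_succ_top (by omega), ← ih, mu_succ_Up, mu_succ_Up]
    have h1 : mu ch ρ k (Up ch (fun v => W v * ps g v)) =
        mu ch ρ k (fun v => ρ * (W v * ps g v) + Up ch (fun u => g u * W u) v) := by
      refine mu_congr fun v _ => ?_
      have h2 := Up_ps_mul (ch := ch) g W v
      have h3 : Up ch (fun v => W v * ps g v) v = Up ch (fun u => ps g u * W u) v := by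
        congr 1
        funext u
        ring
      rw [h3, h2, ← hflow]
      ring
    rw [h1, mu_add_fun, mu_const_mul]
    field_simp

private theorem mu_ps_Fj (hρ : ρ ≠ 0) (g h : List I → ℝ) (k n : ℕ) :
    mu ch ρ k (fun v => ps g v * Fj ch ρ h n v) =
      ∑ i ∈ Ico 1 (k + 1), mu ch ρ i (fun v => g v * Fj ch ρ h (k + n - i) v) := by
  induction k generalizing n with
  | zero => rw [mu_zero, ps_nil, zero_mul, zero_add, Finset.Ico_self, Finset.sum_empty]
  | succ k ih =>
    rw [Finset.sum_Ico_succ_top (by omega), mu_succ_Up]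
    have h1 : mu ch ρ k (Up ch (fun v => ps g v * Fj ch ρ h n v)) =
        mu ch ρ k (fun v => ρ * (ps g v * Fj ch ρ h (n + 1) v) +
          Up ch (fun u => g u * Fj ch ρ h n u) v) := by
      refine mu_congr fun v _ => ?_
      rw [Up_ps_mul]
      have h2 : Up ch (fun u => Fj ch ρ h n u) v = ρ * Fj ch ρ h (n + 1) v :=
        Up_Fj hρ h n v
      rw [h2]
      ring
    rw [h1, mu_add_fun, mu_const_mul, ih, mul_add, ← mul_assoc, inv_mul_cancel₀ hρ, one_mul,
      ← mu_succ_Up]
    congr 1
    · refine Finset.sum_congr rfl fun i _ => ?_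
      have : k + (n + 1) - i = k + 1 + n - i := by omega
      rw [this]
    · have : k + 1 + n - (k + 1) = n := by omega
      rw [this]

theorem mu_W_ps_sq (hρ : ρ ≠ 0) (hflow : ∀ v, ρ * W v = Up ch W v) (g : List I → ℝ) (k : ℕ) :
    mu ch ρ k (fun v => W v * ps g v ^ 2) =
      ∑ j ∈ Ico 1 (k + 1), mu ch ρ j (fun v => g v ^ 2 * W v) +
      2 * ∑ i ∈ Ico 1 (k + 1), ∑ m ∈ Ico 1 (k + 1 - i),
        mu ch ρ i (fun v => g v * Fj ch ρ (fun u => g u * W u) m v) := by
  induction k with
  | zero =>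
    rw [mu_zero, ps_nil, zero_add, Finset.Ico_self, Finset.sum_empty, Finset.sum_empty]
    ring
  | succ k ih =>
    have h1 : mu ch ρ (k + 1) (fun v => W v * ps g v ^ 2) =
        mu ch ρ k (fun v => W v * ps g v ^ 2) +
          2 * mu ch ρ k (fun v => ps g v * Fj ch ρ (fun u => g u * W u) 1 v) +
          mu ch ρ (k + 1) (fun v => g v ^ 2 * W v) := by
      rw [mu_succ_Up, mu_succ_Up]
      have h2 : mu ch ρ k (Up ch (fun v => W v * ps g v ^ 2)) =
          mu ch ρ k (fun v => ρ * (W v * ps g v ^ 2) +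
            ρ * (2 * (ps g v * Fj ch ρ (fun u => g u * W u) 1 v)) +
            Up ch (fun u => g u ^ 2 * W u) v) := by
        refine mu_congr fun v _ => ?_
        have h3 : ρ * Fj ch ρ (fun u => g u * W u) 1 v = Up ch (fun u => g u * W u) v := by
          rw [Fj, pow_one, Function.iterate_one, ← mul_assoc, mul_inv_cancel₀ hρ, one_mul]
        have h4 : ρ * (W v * ps g v ^ 2) +
            ρ * (2 * (ps g v * Fj ch ρ (fun u => g u * W u) 1 v)) =
            (ρ * W v) * ps g v ^ 2 + 2 * ps g v * (ρ * Fj ch ρ (fun u => g u * W u) 1 v) := by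
          ring
        rw [h4, h3, hflow, Up, Up, Up, Up, Finset.sum_mul, Finset.mul_sum,
          ← Finset.sum_add_distrib, ← Finset.sum_add_distrib]
        refine Finset.sum_congr rfl fun i _ => ?_
        rw [ps_cons]
        ring
      rw [h2, mu_add_fun, mu_add_fun, mu_const_mul, mu_const_mul, mu_const_mul]
      field_simp
    rw [h1, ih, mu_ps_Fj hρ, Finset.sum_Ico_succ_top (by omega : 1 ≤ k + 1),
      Finset.sum_Ico_succ_top (by omega : 1 ≤ k + 1)]
    have h5 : ∑ i ∈ Ico 1 (k + 1), ∑ m ∈ Ico 1 (k + 1 + 1 - i),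
        mu ch ρ i (fun v => g v * Fj ch ρ (fun u => g u * W u) m v) =
        ∑ i ∈ Ico 1 (k + 1), ∑ m ∈ Ico 1 (k + 1 - i),
          mu ch ρ i (fun v => g v * Fj ch ρ (fun u => g u * W u) m v) +
        ∑ i ∈ Ico 1 (k + 1), mu ch ρ i
          (fun v => g v * Fj ch ρ (fun u => g u * W u) (k + 1 - i) v) := by
      rw [← Finset.sum_add_distrib]
      refine Finset.sum_congr rfl fun i hi => ?_
      rw [Finset.mem_Ico] at hi
      have h6 : k + 1 + 1 - i = (k + 1 - i) + 1 := by omega
      rw [h6, Finset.sum_Ico_succ_top (by omega)]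
    rw [h5]
    have h7 : k + 1 + 1 - (k + 1) = 1 := by omega
    rw [h7, Finset.Ico_self, Finset.sum_empty]
    ring

end MuPs

end Pool.Agent.BW
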