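import Pool.Agent.Lib.MP_276d40_pr.Green

open MeasureTheory ProbabilityTheory Filter Topology Finset
open scoped ENNReal NNReal

set_option linter.unusedSectionVars false
set_option linter.unusedVariables false

namespace Pool.Agent.BW

section Walk

variable {I : Type} [DecidableEq I] [Countable I] {ch : List I → Finset I} {lam : ℝ}
  {Ω : Type} [MeasurableSpace Ω] {P : Measure Ω} {X : ℕ → Ω → List I}

variable {ρ : ℝ} {W : List I → ℝ}

/-! ### `stay` -/

private theorem occ_stay_adapt (X : ℕ → Ω → List I) (ℓ t : ℕ) : Adapt X t (stay X ℓ t) := by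
  intro ω ω' h
  have : (∀ s ≤ t, (X s ω).length < ℓ) ↔ (∀ s ≤ t, (X s ω').length < ℓ) := by
    constructor
    · intro H s hs; rw [← h s hs]; exact H s hs
    · intro H s hs; rw [h s hs]; exact H s hs
  simp only [stay, this]

private theorem occ_stay_nonneg (X : ℕ → Ω → List I) (ℓ t : ℕ) (ω : Ω) : 0 ≤ stay X ℓ t ω := by
  unfold stay; split_ifs <;> norm_num

private theorem occ_stay_zero (X : ℕ → Ω → List I) (t : ℕ) (ω : Ω) : stay X 0 t ω = 0 := by
  unfold stay
  rw [if_neg]
  intro h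
  exact absurd (h 0 (Nat.zero_le _)) (Nat.not_lt_zero _)

/-! ### algebra at a vertex -/

private theorem occ_h0 (hB : Base ch ρ W X P) : (ch []).Nonempty := by
  by_contra h
  rw [Finset.not_nonempty_iff_eq_empty] at h
  have h1 := hB.W_flow []
  rw [Up, h, Finset.sum_empty] at h1
  have h2 := mul_pos (lt_trans one_pos hB.one_lt) hB.W_root
  linarith

private theorem occ_deg_pos (h0 : (ch []).Nonempty) : 0 < deg ch [] := by
  rw [deg]; exact_mod_cast h0.card_pos

private theorem occ_deg_nonneg (v : List I) : 0 ≤ deg ch v := by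
  rw [deg]; exact Nat.cast_nonneg _

private theorem occ_Pr_root (h0 : (ch []).Nonempty) (φ : List I → ℝ) :
    Pr ch ρ φ [] = (∑ i ∈ ch [], φ [i]) / deg ch [] := by
  rw [Pr, if_neg h0.ne_empty]

private theorem occ_Pr_cons (φ : List I → ℝ) (i : I) (v : List I) :
    Pr ch ρ φ (i :: v) =
      (ρ * φ v + ∑ j ∈ ch (i :: v), φ (j :: i :: v)) / (ρ + deg ch (i :: v)) := by
  rw [Pr]

private theorem occ_drift (hB : Base ch ρ W X P) (v : List I) :
    Pr ch ρ (ps W) v - ps W v = (ρ * W [] / deg ch []) * (if v = [] then 1 else 0) := by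
  have h0 := occ_h0 hB
  cases v with
  | nil =>
    rw [occ_Pr_root h0, if_pos rfl, hB.W_flow [], Up]
    simp
  | cons i v =>
    have hρ : 0 < ρ := lt_trans one_pos hB.one_lt
    have hd : 0 < ρ + deg ch (i :: v) := add_pos_of_pos_of_nonneg hρ (occ_deg_nonneg _)
    rw [occ_Pr_cons, if_neg (by simp), mul_zero, sub_eq_zero, div_eq_iff hd.ne']
    have h1 := hB.W_flow (i :: v)
    rw [Up] at h1
    have h2 : ∑ j ∈ ch (i :: v), ps W (j :: i :: v) =
        deg ch (i :: v) * ps W (i :: v) + ρ * W (i :: v) := by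
      rw [h1]
      simp only [ps_cons]
      rw [Finset.sum_add_distrib, Finset.sum_const, nsmul_eq_mul, deg]
    rw [h2, ps_cons]
    ring

private theorem occ_eta_root (hB : Base ch ρ W X P) :
    deg ch [] * eta ch ρ W [] = Up ch (fun u => W u ^ 2) [] := by
  have h0 := occ_h0 hB
  have hd := occ_deg_pos h0
  rw [eta, occ_Pr_root h0, Up]
  simp only [ps_cons, ps_nil]
  field_simp
  simp

private theorem occ_eta_cons (hB : Base ch ρ W X P) (i : I) (v : List I) :
    Yone ch ρ (i :: v) * eta ch ρ W (i :: v) = Yeta ch ρ W (i :: v) := by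
  have hρ : 0 < ρ := lt_trans one_pos hB.one_lt
  have hd : 0 < ρ + deg ch (i :: v) := add_pos_of_pos_of_nonneg hρ (occ_deg_nonneg _)
  rw [eta, occ_Pr_cons, Yone, Yeta, mul_sub, mul_div_cancel₀ _ hd.ne']
  have h1 := hB.W_flow (i :: v)
  rw [Up] at h1
  have h2 : ∑ j ∈ ch (i :: v), ps W (j :: i :: v) ^ 2 =
      deg ch (i :: v) * ps W (i :: v) ^ 2 + 2 * ps W (i :: v) * (ρ * W (i :: v)) +
        Up ch (fun u => W u ^ 2) (i :: v) := by
    rw [h1, Up, Finset.mul_sum, deg, ← nsmul_eq_mul, ← Finset.sum_const,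
      ← Finset.sum_add_distrib, ← Finset.sum_add_distrib]
    refine Finset.sum_congr rfl fun j _ => ?_
    rw [ps_cons W j]
    ring
  rw [h2, ps_cons]
  ring

private theorem occ_Yeta_nonneg (hB : Base ch ρ W X P) (v : List I) : 0 ≤ Yeta ch ρ W v := by
  have hρ : 0 < ρ := lt_trans one_pos hB.one_lt
  rw [Yeta]
  exact add_nonneg (mul_nonneg hρ.le (sq_nonneg _)) (Up_nonneg (fun u => sq_nonneg _) _)

private theorem occ_eta_nonneg (hB : Base ch ρ W X P) (v : List I) : 0 ≤ eta ch ρ W v := by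
  have hρ : 0 < ρ := lt_trans one_pos hB.one_lt
  cases v with
  | nil =>
    have h1 := occ_eta_root hB
    have hd := occ_deg_pos (occ_h0 hB)
    have h2 : 0 ≤ Up ch (fun u => W u ^ 2) [] := Up_nonneg (fun u => sq_nonneg _) _
    rw [← h1] at h2
    exact nonneg_of_mul_nonneg_right h2 hd
  | cons i v =>
    have hd : 0 < Yone ch ρ (i :: v) := add_pos_of_pos_of_nonneg hρ (occ_deg_nonneg _)
    have h2 := occ_Yeta_nonneg hB (i :: v)
    rw [← occ_eta_cons hB] at h2
    exact nonneg_of_mul_nonneg_right h2 hd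

/-! ### martingale identity -/

private theorem occ_adapt_one {n t : ℕ} (h : t ≤ n) (φ : List I → ℝ) :
    Adapt X n (fun ω => φ (X t ω)) := by
  intro ω ω' H
  show φ _ = φ _
  rw [H t h]

private theorem occ_adapt_mul {n : ℕ} {Y Z : Ω → ℝ} (hY : Adapt X n Y) (hZ : Adapt X n Z) :
    Adapt X n (fun ω => Y ω * Z ω) := by
  intro ω ω' H
  show _ * _ = _ * _
  rw [hY ω ω' H, hZ ω ω' H]

private theorem occ_adapt_sub {n : ℕ} {Y Z : Ω → ℝ} (hY : Adapt X n Y) (hZ : Adapt X n Z) :
    Adapt X n (fun ω => Y ω - Z ω) := by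
  intro ω ω' H
  show _ - _ = _ - _
  rw [hY ω ω' H, hZ ω ω' H]

private theorem occ_adapt_mono {m n : ℕ} (h : m ≤ n) {Y : Ω → ℝ} (hY : Adapt X m Y) :
    Adapt X n Y := fun ω ω' H => hY ω ω' fun k hk => H k (hk.trans h)

private theorem occ_adapt_sum {ι : Type} {n : ℕ} (s : Finset ι) {Y : ι → Ω → ℝ}
    (hY : ∀ i ∈ s, Adapt X n (Y i)) : Adapt X n (fun ω => ∑ i ∈ s, Y i ω) := by
  intro ω ω' H
  exact Finset.sum_congr rfl fun i hi => hY i hi ω ω' H

private theorem occ_mart (hB : Base ch ρ W X P) (ℓ n : ℕ) (φ : List I → ℝ) :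
    ∫ ω, ∑ t ∈ range n, stay X ℓ t ω * (φ (X (t + 1) ω) - φ (X t ω)) ∂P =
      ∫ ω, ∑ t ∈ range n, stay X ℓ t ω * (Pr ch ρ φ (X t ω) - φ (X t ω)) ∂P := by
  have hρ : 0 < ρ := lt_trans one_pos hB.one_lt
  have h0 := occ_h0 hB
  rw [integral_finsetSum, integral_finsetSum]
  · refine Finset.sum_congr rfl fun t _ => ?_
    have ha := occ_stay_adapt X ℓ t
    have i1 : Integrable (fun ω => stay X ℓ t ω * φ (X (t + 1) ω)) P :=
      Adapt.integrable hB.walk hρ h0 (n := t + 1)
        (occ_adapt_mul (occ_adapt_mono (Nat.le_succ t) ha) (occ_adapt_one le_rfl φ))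
    have i2 : Integrable (fun ω => stay X ℓ t ω * φ (X t ω)) P :=
      Adapt.integrable hB.walk hρ h0 (n := t) (occ_adapt_mul ha (occ_adapt_one le_rfl φ))
    have i3 : Integrable (fun ω => stay X ℓ t ω * Pr ch ρ φ (X t ω)) P :=
      Adapt.integrable hB.walk hρ h0 (n := t)
        (occ_adapt_mul ha (occ_adapt_one le_rfl (Pr ch ρ φ)))
    simp only [mul_sub]
    rw [integral_sub i1 i2, integral_sub i3 i2, Adapt.markov hB.walk hρ h0 ha φ]
  · intro t _
    exact Adapt.integrable hB.walk hρ h0 (n := t) (occ_adapt_mul (occ_stay_adapt X ℓ t)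
      (occ_adapt_sub (occ_adapt_one le_rfl (Pr ch ρ φ)) (occ_adapt_one le_rfl φ)))
  · intro t _
    exact Adapt.integrable hB.walk hρ h0 (n := t + 1)
      (occ_adapt_mul (occ_adapt_mono (Nat.le_succ t) (occ_stay_adapt X ℓ t))
      (occ_adapt_sub (occ_adapt_one le_rfl φ) (occ_adapt_one (Nat.le_succ t) φ)))

/-- the stopped value -/
private theorem occ_stopped {ω : Ω} (h : X 0 ω = []) (ℓ t : ℕ)
    (hs : ∀ s < t, (X s ω).length < ℓ) (φ : List I → ℝ) :
    ∑ s ∈ range t, stay X ℓ s ω * (φ (X (s + 1) ω) - φ (X s ω)) = φ (X t ω) - φ [] := by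
  have h1 : ∀ s ∈ range t, stay X ℓ s ω * (φ (X (s + 1) ω) - φ (X s ω)) =
      φ (X (s + 1) ω) - φ (X s ω) := by
    intro s hs'
    rw [Finset.mem_range] at hs'
    rw [stay, if_pos (fun r hr => hs r (lt_of_le_of_lt hr hs')), one_mul]
  rw [Finset.sum_congr rfl h1, Finset.sum_range_sub (fun s => φ (X s ω)), h]

private theorem occ_sq {ω : Ω} (h : X 0 ω = []) (ℓ n : ℕ) :
    (∑ t ∈ range n, stay X ℓ t ω * (ps W (X (t + 1) ω) - ps W (X t ω))) ^ 2 =
      ∑ t ∈ range n, stay X ℓ t ω * (ps W (X (t + 1) ω) ^ 2 - ps W (X t ω) ^ 2) := by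
  induction n with
  | zero => simp
  | succ n ih =>
    rw [Finset.sum_range_succ, Finset.sum_range_succ, ← ih]
    by_cases hs : ∀ s ≤ n, (X s ω).length < ℓ
    · have h1 := occ_stopped h ℓ n (fun s hs' => hs s hs'.le) (ps W)
      rw [ps_nil, sub_zero] at h1
      rw [h1, stay, if_pos hs]
      ring
    · rw [stay, if_neg hs]
      ring

/-! ### the bound for the number of visits to the root -/

private theorem occ_gamma (hB : Base ch ρ W X P) {C : ℝ}
    (hC : ∀ k, mu ch ρ k (Yeta ch ρ W) ≤ C) (ℓ n : ℕ) :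
    0 ≤ (∫ ω, ∑ t ∈ range n, stay X ℓ t ω * (if X t ω = [] then 1 else 0) ∂P) / deg ch [] ∧
    (∫ ω, ∑ t ∈ range n, stay X ℓ t ω * (if X t ω = [] then 1 else 0) ∂P) / deg ch [] ≤
      C / (ρ * W []) ^ 2 * ℓ := by
  have hρ : 0 < ρ := lt_trans one_pos hB.one_lt
  have h0 := occ_h0 hB
  have hd := occ_deg_pos h0
  have hC0 : 0 ≤ C := le_trans (mu_nonneg hρ.le (fun v _ => occ_Yeta_nonneg hB v)) (hC 0)
  have hprob : IsProbabilityMeasure P := hB.walk.prob
  set γ := (∫ ω, ∑ t ∈ range n, stay X ℓ t ω * (if X t ω = [] then 1 else 0) ∂P) / deg ch []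
    with hγ
  have hγ0 : 0 ≤ γ := by
    refine div_nonneg (integral_nonneg fun ω => Finset.sum_nonneg fun t _ =>
      mul_nonneg (occ_stay_nonneg X ℓ t ω) ?_) hd.le
    split_ifs <;> norm_num
  refine ⟨hγ0, ?_⟩
  have hρW : 0 < ρ * W [] := mul_pos hρ hB.W_root
  rcases Nat.eq_zero_or_pos ℓ with rfl | hℓ
  · have : γ = 0 := by
      rw [hγ]
      simp [occ_stay_zero]
    rw [this]
    simp
  -- the martingale
  set D : Ω → ℝ := fun ω =>
    ∑ t ∈ range n, stay X ℓ t ω * (ps W (X (t + 1) ω) - ps W (X t ω)) with hD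
  have hDad : Adapt X n D := by
    refine occ_adapt_sum _ fun t ht => ?_
    have ht' : t + 1 ≤ n := Finset.mem_range.1 ht
    exact occ_adapt_mul (occ_adapt_mono (by omega) (occ_stay_adapt X ℓ t))
      (occ_adapt_sub (occ_adapt_one ht' _) (occ_adapt_one (by omega) _))
  have hDi : Integrable D P := Adapt.integrable hB.walk hρ h0 hDad
  have hD2i : Integrable (fun ω => D ω * D ω) P :=
    Adapt.integrable hB.walk hρ h0 (occ_adapt_mul hDad hDad)
  have hE1 : ∫ ω, D ω ∂P = ρ * W [] * γ := by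
    rw [hD, occ_mart hB ℓ n (ps W)]
    have : ∀ ω, ∑ t ∈ range n, stay X ℓ t ω * (Pr ch ρ (ps W) (X t ω) - ps W (X t ω)) =
        (ρ * W [] / deg ch []) * ∑ t ∈ range n, stay X ℓ t ω * (if X t ω = [] then 1 else 0) := by
      intro ω
      rw [Finset.mul_sum]
      refine Finset.sum_congr rfl fun t _ => ?_
      rw [occ_drift hB]
      ring
    simp only [this]
    rw [integral_const_mul, hγ]
    ring
  have hE2 : ∫ ω, D ω * D ω ∂P = ∫ ω, ∑ t ∈ range n, stay X ℓ t ω * eta ch ρ W (X t ω) ∂P := by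
    have h1 : ∫ ω, D ω * D ω ∂P = ∫ ω, ∑ t ∈ range n, stay X ℓ t ω *
        ((fun v => ps W v ^ 2) (X (t + 1) ω) - (fun v => ps W v ^ 2) (X t ω)) ∂P := by
      refine integral_congr_ae ?_
      filter_upwards [hB.walk.ae_path hρ h0] with ω hω
      rw [← sq]
      exact occ_sq hω.1 ℓ n
    rw [h1, occ_mart hB ℓ n (fun v => ps W v ^ 2)]
    rfl
  have hCS : (∫ ω, D ω ∂P) ^ 2 ≤ ∫ ω, D ω * D ω ∂P := by
    set c := ∫ ω, D ω ∂P with hc
    have h1 : 0 ≤ ∫ ω, (D ω - c) * (D ω - c) ∂P :=
      integral_nonneg fun ω => mul_self_nonneg _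
    have h2 : ∫ ω, (D ω - c) * (D ω - c) ∂P = ∫ ω, (D ω * D ω - 2 * c * D ω + c * c) ∂P := by
      refine integral_congr_ae (Filter.Eventually.of_forall fun ω => ?_)
      show (D ω - c) * (D ω - c) = D ω * D ω - 2 * c * D ω + c * c
      ring
    have i1 : Integrable (fun ω => D ω * D ω - 2 * c * D ω) P := hD2i.sub (hDi.const_mul _)
    have i2 : Integrable (fun _ : Ω => c * c) P := integrable_const _
    have i3 : Integrable (fun ω => 2 * c * D ω) P := hDi.const_mul _
    rw [h2, integral_add i1 i2, integral_sub hD2i i3, integral_const_mul, ← hc,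
      integral_const] at h1
    simp only [probReal_univ, one_smul] at h1
    nlinarith [h1]
  have hgr := green hB.walk hρ h0 ℓ n (eta ch ρ W) (occ_eta_nonneg hB)
  rw [← hγ] at hgr
  have hsum : deg ch [] * eta ch ρ W [] +
      ∑ k ∈ Ico 1 ℓ, mu ch ρ k (fun v => Yone ch ρ v * eta ch ρ W v) ≤ ℓ * C := by
    have h1 : deg ch [] * eta ch ρ W [] ≤ mu ch ρ 0 (Yeta ch ρ W) := by
      rw [occ_eta_root hB, mu_zero, Yeta]
      have := mul_nonneg hρ.le (sq_nonneg (W []))
      linarith
    have h2 : ∀ k ∈ Ico 1 ℓ, mu ch ρ k (fun v => Yone ch ρ v * eta ch ρ W v) =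
        mu ch ρ k (Yeta ch ρ W) := by
      intro k hk
      rw [Finset.mem_Ico] at hk
      refine mu_congr fun v hv => ?_
      have hl := length_of_mem_lev hv
      cases v with
      | nil => rw [List.length_nil] at hl; omega
      | cons i v => exact occ_eta_cons hB i v
    rw [Finset.sum_congr rfl h2]
    calc deg ch [] * eta ch ρ W [] + ∑ k ∈ Ico 1 ℓ, mu ch ρ k (Yeta ch ρ W)
        ≤ mu ch ρ 0 (Yeta ch ρ W) + ∑ k ∈ Ico 1 ℓ, mu ch ρ k (Yeta ch ρ W) := by linarith
      _ = ∑ k ∈ range ℓ, mu ch ρ k (Yeta ch ρ W) := by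
          rw [Finset.range_eq_Ico, Finset.sum_eq_sum_Ico_succ_bot hℓ]
      _ ≤ ∑ k ∈ range ℓ, C := Finset.sum_le_sum fun k _ => hC k
      _ = ℓ * C := by rw [Finset.sum_const, Finset.card_range, nsmul_eq_mul]
  have key : (ρ * W [] * γ) ^ 2 ≤ γ * (ℓ * C) := by
    rw [← hE1]
    calc (∫ ω, D ω ∂P) ^ 2 ≤ ∫ ω, D ω * D ω ∂P := hCS
      _ = _ := hE2
      _ ≤ _ := hgr
      _ ≤ _ := mul_le_mul_of_nonneg_left hsum hγ0
  rcases hγ0.eq_or_lt with h | h
  · rw [← h]
    positivity
  · have h3 : (ρ * W []) ^ 2 * γ ≤ ℓ * C := by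
      have : γ * ((ρ * W []) ^ 2 * γ) ≤ γ * (ℓ * C) := by nlinarith [key]
      exact le_of_mul_le_mul_left this h
    rw [div_mul_eq_mul_div, le_div_iff₀ (pow_pos hρW 2)]
    linarith

private theorem occ_Uterm {ω : Ω} (ℓ t : ℕ) (b : List I → ℝ) (hb : ∀ v, 0 ≤ b v) :
    0 ≤ ∑ k ∈ range ℓ, (stay X ℓ t ω * (if (X t ω).length = k then 1 else 0)) *
      (if (X (t + 1) ω).length = k + 1 then b (X (t + 1) ω) else 0) := by
  refine Finset.sum_nonneg fun k _ => mul_nonneg (mul_nonneg (occ_stay_nonneg X ℓ t ω) ?_) ?_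
  · split_ifs <;> norm_num
  · split_ifs
    · exact hb _
    · exact le_rfl

private theorem occ_path {ω : Ω} (h : X 0 ω = []) (hnb : ∀ n, Nb ch (X n ω) (X (n + 1) ω))
    (ℓ : ℕ) (b : List I → ℝ) (hb : ∀ v, 0 ≤ b v) (t : ℕ)
    (hs : ∀ s < t, (X s ω).length < ℓ) :
    ps b (X t ω) ≤ ∑ s ∈ range t, ∑ k ∈ range ℓ,
      (stay X ℓ s ω * (if (X s ω).length = k then 1 else 0)) *
      (if (X (s + 1) ω).length = k + 1 then b (X (s + 1) ω) else 0) := by
  induction t with
  | zero => rw [h]; simp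
  | succ t ih =>
    have ih' := ih fun s hs' => hs s (hs'.trans (Nat.lt_succ_self t))
    rw [Finset.sum_range_succ]
    rcases hnb t with ⟨i, -, hi⟩ | ⟨i, hi⟩
    · have hlt : (X t ω).length < ℓ := hs t (Nat.lt_succ_self t)
      have h1 : ∑ k ∈ range ℓ, (stay X ℓ t ω * (if (X t ω).length = k then 1 else 0)) *
          (if (X (t + 1) ω).length = k + 1 then b (X (t + 1) ω) else 0) = b (X (t + 1) ω) := by
        rw [Finset.sum_eq_single_of_mem (X t ω).length (Finset.mem_range.2 hlt)]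
        · rw [stay, if_pos (fun s hs' => hs s (Nat.lt_succ_of_le hs')), if_pos rfl, if_pos]
          · ring
          · rw [hi, List.length_cons]
        · intro k _ hk
          rw [if_neg (Ne.symm hk)]
          ring
      rw [h1, hi, ps_cons, ← hi]
      linarith
    · have h1 := occ_Uterm (X := X) (ω := ω) ℓ t b hb
      have h2 : ps b (X (t + 1) ω) ≤ ps b (X t ω) := by
        rw [hi, ps_cons]
        linarith [hb (i :: X (t + 1) ω)]
      linarith

private theorem occ_Pr_level (h0 : (ch []).Nonempty) (b : List I → ℝ) (v : List I) :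
    Pr ch ρ (fun w => if w.length = v.length + 1 then b w else 0) v =
      Up ch b v / (if v = [] then deg ch [] else Yone ch ρ v) := by
  cases v with
  | nil =>
    rw [occ_Pr_root h0, if_pos rfl, Up]
    simp
  | cons i v =>
    have h1 : ¬ v.length = (i :: v).length + 1 := by
      rw [List.length_cons]; omega
    rw [occ_Pr_cons, if_neg h1, if_neg (List.cons_ne_nil i v), Yone, Up]
    simp

theorem occ_bound (hB : Base ch ρ W X P) (hη : ∃ C, ∀ k, mu ch ρ k (Yeta ch ρ W) ≤ C) :
    ∃ C, Occ ch ρ X P C := by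
  obtain ⟨C, hC⟩ := hη
  have hρ : 0 < ρ := lt_trans one_pos hB.one_lt
  have h0 := occ_h0 hB
  have hd := occ_deg_pos h0
  have hC0 : 0 ≤ C := le_trans (mu_nonneg hρ.le (fun v _ => occ_Yeta_nonneg hB v)) (hC 0)
  have hρW : 0 < ρ * W [] := mul_pos hρ hB.W_root
  set C' := C / (ρ * W []) ^ 2 + 1 with hC'
  have hC'1 : 1 ≤ C' := by
    have : 0 ≤ C / (ρ * W []) ^ 2 := div_nonneg hC0 (sq_nonneg _)
    linarith
  have hγ : ∀ ℓ n : ℕ,
      0 ≤ (∫ ω, ∑ t ∈ range n, stay X ℓ t ω * (if X t ω = [] then 1 else 0) ∂P) / deg ch [] ∧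
      (∫ ω, ∑ t ∈ range n, stay X ℓ t ω * (if X t ω = [] then 1 else 0) ∂P) / deg ch [] ≤
        C' * ℓ := by
    intro ℓ n
    obtain ⟨h1, h2⟩ := occ_gamma hB hC ℓ n
    refine ⟨h1, h2.trans ?_⟩
    rw [hC', add_mul]
    linarith [Nat.cast_nonneg (α := ℝ) ℓ]
  have hYone : ∀ v, 0 < Yone ch ρ v := fun v =>
    add_pos_of_pos_of_nonneg hρ (occ_deg_nonneg v)
  refine ⟨ρ * C', mul_pos hρ (by linarith), ?_, ?_⟩
  · intro ℓ n f hf
    rcases Nat.eq_zero_or_pos ℓ with rfl | hℓ
    · simp [occ_stay_zero]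
    have hgr := green hB.walk hρ h0 ℓ n f hf
    obtain ⟨h1, h2⟩ := hγ ℓ n
    have hS0 : 0 ≤ ∑ k ∈ range ℓ, mu ch ρ k (fun v => Yone ch ρ v * f v) :=
      Finset.sum_nonneg fun k _ => mu_nonneg hρ.le fun v _ => mul_nonneg (hYone v).le (hf v)
    have h3 : deg ch [] * f [] + ∑ k ∈ Ico 1 ℓ, mu ch ρ k (fun v => Yone ch ρ v * f v) ≤
        ∑ k ∈ range ℓ, mu ch ρ k (fun v => Yone ch ρ v * f v) := by
      rw [Finset.range_eq_Ico, Finset.sum_eq_sum_Ico_succ_bot hℓ, mu_zero, Yone]
      have := mul_nonneg hρ.le (hf [])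
      linarith
    calc _ ≤ _ := hgr
      _ ≤ (∫ ω, ∑ t ∈ range n, stay X ℓ t ω * (if X t ω = [] then 1 else 0) ∂P) / deg ch [] *
          ∑ k ∈ range ℓ, mu ch ρ k (fun v => Yone ch ρ v * f v) :=
        mul_le_mul_of_nonneg_left h3 h1
      _ ≤ (C' * ℓ) * ∑ k ∈ range ℓ, mu ch ρ k (fun v => Yone ch ρ v * f v) :=
        mul_le_mul_of_nonneg_right h2 hS0
      _ ≤ (ρ * C' * ℓ) * ∑ k ∈ range ℓ, mu ch ρ k (fun v => Yone ch ρ v * f v) := by
        refine mul_le_mul_of_nonneg_right ?_ hS0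
        have h5 : C' ≤ ρ * C' := by nlinarith [hB.one_lt]
        exact mul_le_mul_of_nonneg_right h5 (Nat.cast_nonneg ℓ)
  · intro ℓ n b hb
    refine ⟨fun ω => ∑ t ∈ range n, ∑ k ∈ range ℓ,
      (stay X ℓ t ω * (if (X t ω).length = k then 1 else 0)) *
      (if (X (t + 1) ω).length = k + 1 then b (X (t + 1) ω) else 0), ?_, ?_, ?_, ?_⟩
    · refine occ_adapt_sum _ fun t ht => ?_
      have ht' : t + 1 ≤ n := Finset.mem_range.1 ht
      refine occ_adapt_sum _ fun k _ => ?_
      exact occ_adapt_mul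
        (occ_adapt_mul (occ_adapt_mono (by omega) (occ_stay_adapt X ℓ t))
          (occ_adapt_one (t := t) (by omega) (fun v => if v.length = k then 1 else 0)))
        (occ_adapt_one ht' (fun v => if v.length = k + 1 then b v else 0))
    · intro ω
      exact Finset.sum_nonneg fun t _ => occ_Uterm ℓ t b hb
    · filter_upwards [hB.walk.ae_path hρ h0] with ω hω
      intro t ht hs
      refine (occ_path hω.1 hω.2 ℓ b hb t hs).trans ?_
      refine Finset.sum_le_sum_of_subset_of_nonneg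
        (Finset.range_subset_range.2 ht) fun s _ _ => occ_Uterm ℓ s b hb
    · set h : List I → ℝ := fun v => Up ch b v / (if v = [] then deg ch [] else Yone ch ρ v)
        with hh
      have hh0 : ∀ v, 0 ≤ h v := by
        intro v
        refine div_nonneg (Up_nonneg hb v) ?_
        split_ifs
        · exact hd.le
        · exact (hYone v).le
      have hint : ∀ t k, Adapt X (t + 1) (fun ω =>
          (stay X ℓ t ω * (if (X t ω).length = k then 1 else 0)) *
          (if (X (t + 1) ω).length = k + 1 then b (X (t + 1) ω) else 0)) := by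
        intro t k
        exact occ_adapt_mul
          (occ_adapt_mul (occ_adapt_mono (by omega) (occ_stay_adapt X ℓ t))
            (occ_adapt_one (t := t) (by omega) (fun v => if v.length = k then 1 else 0)))
          (occ_adapt_one le_rfl (fun v => if v.length = k + 1 then b v else 0))
      have hE : ∫ ω, ∑ t ∈ range n, ∑ k ∈ range ℓ,
          (stay X ℓ t ω * (if (X t ω).length = k then 1 else 0)) *
          (if (X (t + 1) ω).length = k + 1 then b (X (t + 1) ω) else 0) ∂P =
          ∫ ω, ∑ t ∈ range n, stay X ℓ t ω * h (X t ω) ∂P := by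
        rw [integral_finsetSum, integral_finsetSum]
        · refine Finset.sum_congr rfl fun t _ => ?_
          rw [integral_finsetSum]
          · have hZ : ∀ k, Adapt X t (fun ω =>
                stay X ℓ t ω * (if (X t ω).length = k then 1 else 0)) := fun k =>
              occ_adapt_mul (occ_stay_adapt X ℓ t)
                (occ_adapt_one le_rfl (fun v => if v.length = k then 1 else 0))
            have hm : ∀ k, ∫ ω, (stay X ℓ t ω * (if (X t ω).length = k then 1 else 0)) *
                (if (X (t + 1) ω).length = k + 1 then b (X (t + 1) ω) else 0) ∂P =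
                ∫ ω, (stay X ℓ t ω * (if (X t ω).length = k then 1 else 0)) *
                  Pr ch ρ (fun w => if w.length = k + 1 then b w else 0) (X t ω) ∂P :=
              fun k => Adapt.markov hB.walk hρ h0 (hZ k)
                (fun w => if w.length = k + 1 then b w else 0)
            simp only [hm]
            rw [← integral_finsetSum]
            · refine integral_congr_ae (Filter.Eventually.of_forall fun ω => ?_)
              show ∑ k ∈ range ℓ, (stay X ℓ t ω * (if (X t ω).length = k then 1 else 0)) *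
                  Pr ch ρ (fun w => if w.length = k + 1 then b w else 0) (X t ω) =
                stay X ℓ t ω * h (X t ω)
              by_cases hs : ∀ s ≤ t, (X s ω).length < ℓ
              · rw [Finset.sum_eq_single_of_mem (X t ω).length
                  (Finset.mem_range.2 (hs t le_rfl))]
                · rw [occ_Pr_level h0, if_pos rfl, mul_one]
                · intro k _ hk
                  rw [if_neg (Ne.symm hk)]
                  ring
              · have h1 : stay X ℓ t ω = 0 := by rw [stay, if_neg hs]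
                rw [h1]
                simp
            · intro k _
              exact Adapt.integrable hB.walk hρ h0 (n := t) (occ_adapt_mul (hZ k)
                (occ_adapt_one le_rfl (Pr ch ρ (fun w => if w.length = k + 1 then b w else 0))))
          · intro k _
            exact Adapt.integrable hB.walk hρ h0 (hint t k)
        · intro t _
          exact Adapt.integrable hB.walk hρ h0 (n := t)
            (occ_adapt_mul (occ_stay_adapt X ℓ t) (occ_adapt_one le_rfl h))
        · intro t _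
          exact Adapt.integrable hB.walk hρ h0 (n := t + 1)
            (occ_adapt_sum _ fun k _ => hint t k)
      show ∫ ω, ∑ t ∈ range n, ∑ k ∈ range ℓ,
          (stay X ℓ t ω * (if (X t ω).length = k then 1 else 0)) *
          (if (X (t + 1) ω).length = k + 1 then b (X (t + 1) ω) else 0) ∂P ≤ _
      rw [hE]
      have hS0 : 0 ≤ ∑ k ∈ range (ℓ + 1), mu ch ρ k b :=
        Finset.sum_nonneg fun k _ => mu_nonneg hρ.le fun v _ => hb v
      rcases Nat.eq_zero_or_pos ℓ with rfl | hℓ
      · simp [occ_stay_zero]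
      have hgr := green hB.walk hρ h0 ℓ n h hh0
      obtain ⟨h1, h2⟩ := hγ ℓ n
      have hmu : ∀ k, mu ch ρ k (Up ch b) = ρ * mu ch ρ (k + 1) b := by
        intro k
        rw [mu_eq_sum, mu_eq_sum, sum_lev_succ, pow_succ, mul_inv]
        field_simp
      have h3 : deg ch [] * h [] + ∑ k ∈ Ico 1 ℓ, mu ch ρ k (fun v => Yone ch ρ v * h v) =
          ∑ k ∈ range ℓ, ρ * mu ch ρ (k + 1) b := by
        have h4 : ∀ k ∈ Ico 1 ℓ, mu ch ρ k (fun v => Yone ch ρ v * h v) =
            ρ * mu ch ρ (k + 1) b := by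
          intro k hk
          rw [Finset.mem_Ico] at hk
          rw [← hmu]
          refine mu_congr fun v hv => ?_
          have hl := length_of_mem_lev hv
          have hv0 : v ≠ [] := by
            rintro rfl
            rw [List.length_nil] at hl
            omega
          rw [hh]
          simp only [if_neg hv0]
          exact mul_div_cancel₀ _ (hYone v).ne'
        rw [Finset.sum_congr rfl h4, Finset.range_eq_Ico, Finset.sum_eq_sum_Ico_succ_bot hℓ,
          ← hmu 0, mu_zero, hh]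
        simp only [if_true]
        rw [mul_div_cancel₀ _ hd.ne']
      have h5 : ∑ k ∈ range ℓ, ρ * mu ch ρ (k + 1) b ≤ ρ * ∑ k ∈ range (ℓ + 1), mu ch ρ k b := by
        rw [← Finset.mul_sum, Finset.sum_range_succ']
        refine mul_le_mul_of_nonneg_left ?_ hρ.le
        have := mu_nonneg (ch := ch) hρ.le (k := 0) (f := b) fun v _ => hb v
        linarith
      calc _ ≤ _ := hgr
        _ = _ := by rw [h3]
        _ ≤ (∫ ω, ∑ t ∈ range n, stay X ℓ t ω * (if X t ω = [] then 1 else 0) ∂P) /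
            deg ch [] * (ρ * ∑ k ∈ range (ℓ + 1), mu ch ρ k b) :=
          mul_le_mul_of_nonneg_left h5 h1
        _ ≤ (C' * ℓ) * (ρ * ∑ k ∈ range (ℓ + 1), mu ch ρ k b) :=
          mul_le_mul_of_nonneg_right h2 (mul_nonneg hρ.le hS0)
        _ = _ := by ring

end Walk

end Pool.Agent.BW
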