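import Pool.Agent.Lib.MP_276d40_pr.RegOf

/-!
# Application of the law of large numbers to the functionals of the walk part
-/

open MeasureTheory ProbabilityTheory Filter Topology Finset
open scoped ENNReal NNReal

set_option linter.unusedSectionVars false
set_option linter.unusedVariables false

namespace Pool.Agent.BW

section GW

variable {Q : Type} [Fintype Q] [DecidableEq Q] {q : Q → Measure (Q → ℕ)} {ρ : ℝ} {e l : Q → ℝ}

/-- `ρ g + sum of g over the children` -/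
private noncomputable def YY (ρ : ℝ) (g : Q → Env Q → ℝ) (b : Q) (ω : Env Q) : ℝ :=
  ρ * g b ω + Tb g b ω

private theorem lift_YY (a : Q) (g : Q → Env Q → ℝ) (ω : Env Q) :
    lift a (YY ρ g) ω = fun v => ρ * lift a g ω v + Up (chE ω) (lift a g ω) v := by
  funext v
  rw [← lift_Tb]
  rfl

private theorem measurable_YY {g : Q → Env Q → ℝ} (hm : ∀ b, Measurable (g b)) (b : Q) :
    Measurable (YY ρ g b) :=
  ((hm b).const_mul ρ).add (measurable_Tb hm b)

private theorem integrable_YY (H : MGWHyp q ρ e l) {g : Q → Env Q → ℝ}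
    (hm : ∀ b, Measurable (g b)) (hi : ∀ b, Integrable (g b) (mgw q b)) (b : Q) :
    Integrable (YY ρ g b) (mgw q b) :=
  ((hi b).const_mul ρ).add (integrable_Tb H hm hi b)

private theorem sum_YY (H : MGWHyp q ρ e l) {g : Q → Env Q → ℝ}
    (hm : ∀ b, Measurable (g b)) (hi : ∀ b, Integrable (g b) (mgw q b)) :
    ∑ b, l b * ∫ ω, YY ρ g b ω ∂mgw q b = 2 * ρ * ∑ b, l b * ∫ ω, g b ω ∂mgw q b := by
  have h1 : ∀ b, ∫ ω, YY ρ g b ω ∂mgw q b =
      ρ * ∫ ω, g b ω ∂mgw q b + ∑ c, meanMat q b c * ∫ ω, g c ω ∂mgw q c := by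
    intro b
    have : ∫ ω, YY ρ g b ω ∂mgw q b = ∫ ω, (ρ * g b ω + Tb g b ω) ∂mgw q b := rfl
    rw [this, integral_add ((hi b).const_mul ρ) (integrable_Tb H hm hi b), integral_const_mul,
      integral_Tb H hm hi]
  have h2 : ∑ b, l b * ∑ c, meanMat q b c * ∫ ω, g c ω ∂mgw q c =
      ρ * ∑ b, l b * ∫ ω, g b ω ∂mgw q b := by
    calc ∑ b, l b * ∑ c, meanMat q b c * ∫ ω, g c ω ∂mgw q c
        = ∑ b, ∑ c, (l b * meanMat q b c) * ∫ ω, g c ω ∂mgw q c := by
          refine Finset.sum_congr rfl fun b _ => ?_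
          rw [Finset.mul_sum]
          exact Finset.sum_congr rfl fun c _ => by ring
      _ = ∑ c, (∑ b, l b * meanMat q b c) * ∫ ω, g c ω ∂mgw q c := by
          rw [Finset.sum_comm]
          exact Finset.sum_congr rfl fun c _ => by rw [Finset.sum_mul]
      _ = ρ * ∑ b, l b * ∫ ω, g b ω ∂mgw q b := by
          rw [Finset.mul_sum]
          refine Finset.sum_congr rfl fun c _ => ?_
          rw [H.lA c]
          ring
  calc ∑ b, l b * ∫ ω, YY ρ g b ω ∂mgw q b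
      = ρ * ∑ b, l b * ∫ ω, g b ω ∂mgw q b +
        ∑ b, l b * ∑ c, meanMat q b c * ∫ ω, g c ω ∂mgw q c := by
        rw [Finset.mul_sum, ← Finset.sum_add_distrib]
        refine Finset.sum_congr rfl fun b _ => ?_
        rw [h1 b]
        ring
    _ = 2 * ρ * ∑ b, l b * ∫ ω, g b ω ∂mgw q b := by
        rw [h2]
        ring

private theorem Yone_eq (a : Q) (ω : Env Q) :
    Yone (chE ω) ρ = lift a (YY ρ (fun _ _ => (1 : ℝ))) ω := by
  rw [lift_YY]
  funext v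
  simp [Yone, deg, lift, Up]

private theorem Yeta_eq (a : Q) (ω : Env Q) (W : Q → Env Q → ℝ) :
    Yeta (chE ω) ρ (lift a W ω) = lift a (YY ρ (fun b η => W b η ^ 2)) ω := by
  rw [lift_YY]
  rfl

private theorem Ylin_eq (a : Q) (ω : Env Q) (W : Q → Env Q → ℝ) (R : ℝ) :
    Ylin (chE ω) ρ (lift a W ω) R =
      lift a (YY ρ (fun b η => W b η ^ 2 * min 1 (W b η / R))) ω := by
  rw [lift_YY]
  rfl

private theorem bdd_of_tendsto {u : ℕ → ℝ} {c : ℝ} (h : Tendsto u atTop (𝓝 c)) :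
    ∃ C, ∀ k, u k ≤ C := by
  obtain ⟨C, hC⟩ := h.bddAbove_range
  exact ⟨C, fun k => hC ⟨k, rfl⟩⟩

theorem one_eta (H : MGWHyp q ρ e l) (a : Q) : ∀ᵐ ω ∂mgw q a,
    (∃ C, ∀ k, mu (chE ω) ρ k (Yone (chE ω) ρ) ≤ C) ∧
    (∃ C, ∀ k, mu (chE ω) ρ k (Yeta (chE ω) ρ (lift a (Wf ρ e) ω)) ≤ C) ∧
    Reg (chE ω) ρ (lift a (Wf ρ e) ω) (Yone (chE ω) ρ) (2 * ρ * ∑ b, l b) ∧
    Reg (chE ω) ρ (lift a (Wf ρ e) ω) (Yeta (chE ω) ρ (lift a (Wf ρ e) ω))
      (2 * ρ * ∑ b, l b * ∫ ω', Wf ρ e b ω' ^ 2 ∂mgw q b) ∧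
    (∀ ε > 0, ∃ R > 0, ∀ᶠ k in atTop,
      mu (chE ω) ρ k (Ylin (chE ω) ρ (lift a (Wf ρ e) ω) R) ≤ ε) := by
  have hprob : ∀ b, IsProbabilityMeasure (q b) := H.prob
  have hprob' : ∀ b, IsProbabilityMeasure (mgw q b) := fun b => by
    unfold mgw
    infer_instance
  have hρ : 0 < ρ := by linarith [H.one_lt]
  have hW0 : ∀ b ω, 0 ≤ Wf ρ e b ω := fun b ω =>
    Wf_nonneg hρ.le (fun b => (H.e_pos b).le) b ω
  -- the three functionals
  set g1 : Q → Env Q → ℝ := fun _ _ => 1 with hg1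
  set g2 : Q → Env Q → ℝ := fun b η => Wf ρ e b η ^ 2 with hg2
  set g3 : ℕ → Q → Env Q → ℝ := fun n b η =>
    Wf ρ e b η ^ 2 * min 1 (Wf ρ e b η / ((n : ℝ) + 1)) with hg3
  have m1 : ∀ b, Measurable (g1 b) := fun b => measurable_const
  have m2 : ∀ b, Measurable (g2 b) := fun b => (measurable_Wf ρ e b).pow_const 2
  have m3 : ∀ n b, Measurable (g3 n b) := fun n b =>
    ((measurable_Wf ρ e b).pow_const 2).mul
      (measurable_const.min ((measurable_Wf ρ e b).div_const _))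
  have i1 : ∀ b, Integrable (g1 b) (mgw q b) := fun b => integrable_const _
  have i2 : ∀ b, Integrable (g2 b) (mgw q b) := fun b => (memLp_Wf H b).integrable_sq
  have b3 : ∀ n b η, 0 ≤ g3 n b η ∧ g3 n b η ≤ g2 b η := by
    intro n b η
    have h1 : 0 ≤ min 1 (Wf ρ e b η / ((n : ℝ) + 1)) :=
      le_min zero_le_one (div_nonneg (hW0 b η) (by positivity))
    have h2 : min 1 (Wf ρ e b η / ((n : ℝ) + 1)) ≤ 1 := min_le_left _ _
    refine ⟨mul_nonneg (sq_nonneg _) h1, ?_⟩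
    calc g3 n b η ≤ Wf ρ e b η ^ 2 * 1 := mul_le_mul_of_nonneg_left h2 (sq_nonneg _)
      _ = g2 b η := mul_one _
  have i3 : ∀ n b, Integrable (g3 n b) (mgw q b) := fun n b =>
    (i2 b).mono' (m3 n b).aestronglyMeasurable (Eventually.of_forall fun η => by
      rw [Real.norm_eq_abs, abs_of_nonneg (b3 n b η).1]
      exact (b3 n b η).2)
  have t3 : ∀ b, Tendsto (fun n => ∫ η, g3 n b η ∂mgw q b) atTop (𝓝 0) := by
    intro b
    have := tendsto_integral_of_dominated_convergence (μ := mgw q b) (F := fun n η => g3 n b η)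
      (f := fun _ => (0 : ℝ)) (g2 b) (fun n => (m3 n b).aestronglyMeasurable) (i2 b)
      (fun n => Eventually.of_forall fun η => by
        rw [Real.norm_eq_abs, abs_of_nonneg (b3 n b η).1]
        exact (b3 n b η).2)
      (Eventually.of_forall fun η => by
        have h1 : Tendsto (fun n : ℕ => Wf ρ e b η / ((n : ℝ) + 1)) atTop (𝓝 0) := by
          have := (tendsto_const_div_atTop_nhds_zero_nat (Wf ρ e b η)).comp (tendsto_add_atTop_nat 1)
          refine this.congr fun n => ?_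
          simp
        have h2 : Tendsto (fun n : ℕ => min 1 (Wf ρ e b η / ((n : ℝ) + 1))) atTop
            (𝓝 (min 1 0)) := tendsto_const_nhds.min h1
        have h3 := h2.const_mul (Wf ρ e b η ^ 2)
        simpa using h3)
    simpa using this
  have t3' : Tendsto (fun n => (∑ b, l b * ∫ η, YY ρ (g3 n) b η ∂mgw q b)) atTop (𝓝 0) := by
    have h1 : Tendsto (fun n => 2 * ρ * ∑ b, l b * ∫ η, g3 n b η ∂mgw q b) atTop
        (𝓝 (2 * ρ * ∑ b : Q, l b * 0)) :=
      (tendsto_finsetSum _ fun b _ => (t3 b).const_mul (l b)).const_mul _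
    simp only [mul_zero, Finset.sum_const_zero] at h1
    refine h1.congr fun n => ?_
    rw [sum_YY H (m3 n) (i3 n)]
  have e1 : ∑ b, l b * ∫ η, YY ρ g1 b η ∂mgw q b = 2 * ρ * ∑ b, l b := by
    rw [sum_YY H m1 i1]
    simp [hg1]
  have e2 : ∑ b, l b * ∫ η, YY ρ g2 b η ∂mgw q b =
      2 * ρ * ∑ b, l b * ∫ ω', Wf ρ e b ω' ^ 2 ∂mgw q b := sum_YY H m2 i2
  have hall := ae_all_iff.mpr fun n : ℕ =>
    lln H (fun b => measurable_YY (ρ := ρ) (m3 n) b) (integrable_YY H (m3 n) (i3 n)) a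
  have n1 : ∀ b ω, 0 ≤ YY ρ g1 b ω := fun b ω => by
    have : 0 ≤ Tb g1 b ω := Finset.sum_nonneg fun i _ => zero_le_one
    have h2 : 0 ≤ ρ * g1 b ω := mul_nonneg hρ.le zero_le_one
    exact add_nonneg h2 this
  have n2 : ∀ b ω, 0 ≤ YY ρ g2 b ω := fun b ω => by
    have : 0 ≤ Tb g2 b ω := Finset.sum_nonneg fun i _ => sq_nonneg _
    have h2 : 0 ≤ ρ * g2 b ω := mul_nonneg hρ.le (sq_nonneg _)
    exact add_nonneg h2 this
  filter_upwards [lln H (fun b => measurable_YY (ρ := ρ) m1 b) (integrable_YY H m1 i1) a,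
    lln H (fun b => measurable_YY (ρ := ρ) m2 b) (integrable_YY H m2 i2) a,
    reg_of_integrable H (fun b => measurable_YY (ρ := ρ) m1 b) n1 (integrable_YY H m1 i1) a,
    reg_of_integrable H (fun b => measurable_YY (ρ := ρ) m2 b) n2 (integrable_YY H m2 i2) a,
    hall] with ω l1 l2 r1 r2 l3
  refine ⟨?_, ?_, ?_, ?_, ?_⟩
  · rw [Yone_eq a ω]
    exact bdd_of_tendsto l1
  · rw [Yeta_eq a ω]
    exact bdd_of_tendsto l2
  · rw [Yone_eq a ω, ← e1]
    exact r1
  · rw [Yeta_eq a ω, ← e2]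
    exact r2
  · intro ε hε
    have h1 : Tendsto (fun n => (∑ b, l b * ∫ η, YY ρ (g3 n) b η ∂mgw q b) * Wf ρ e a ω) atTop
        (𝓝 0) := by
      simpa using t3'.mul_const (Wf ρ e a ω)
    obtain ⟨n, hn⟩ := (h1.eventually (gt_mem_nhds hε)).exists
    refine ⟨(n : ℝ) + 1, by positivity, ?_⟩
    have h2 := (l3 n).eventually (gt_mem_nhds hn)
    filter_upwards [h2] with k hk
    rw [Ylin_eq a ω]
    exact hk.le

end GW

end Pool.Agent.BW
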