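import Pool.Agent.Lib.MP_276d40_pr.Window

open MeasureTheory ProbabilityTheory Filter Topology Finset
open scoped ENNReal NNReal

set_option linter.unusedSectionVars false
set_option linter.unusedVariables false

namespace Pool.Agent.BW

/-- the block containing `s` -/
private theorem osc_block {M : ℕ → ℕ} (h0 : M 0 = 0) {J s : ℕ} (hs : s < M J) :
    ∃ j < J, M j ≤ s ∧ s < M (j + 1) := by
  induction J with
  | zero => rw [h0] at hs; omega
  | succ J ih =>
    by_cases h : s < M J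
    · obtain ⟨j, hj, h1⟩ := ih h
      exact ⟨j, by omega, h1⟩
    · exact ⟨J, by omega, by omega, hs⟩

/-- oscillation in terms of the blocks -/
private theorem osc_det {M : ℕ → ℕ} (hM : Monotone M) (h0 : M 0 = 0) {J : ℕ} {S : ℕ → ℝ} {D : ℝ}
    (hD : 0 ≤ D) (hwin : ∀ j < J, ∀ r, M j < r → r ≤ M (j + 1) → |S r - S (M j)| ≤ D)
    {s t : ℕ} (hst : s ≤ t) (ht : t < M J) (hgap : ∀ j, s < M (j + 1) → t ≤ M (j + 2)) :
    |S s - S t| ≤ 3 * D := by
  have hwin' : ∀ j < J, ∀ r, M j ≤ r → r ≤ M (j + 1) → |S r - S (M j)| ≤ D := by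
    intro j hj r h1 h2
    rcases h1.eq_or_lt with h | h
    · rw [h, sub_self, abs_zero]; exact hD
    · exact hwin j hj r h h2
  obtain ⟨j, hj, hj1, hj2⟩ := osc_block h0 (lt_of_le_of_lt hst ht)
  have h1 := hwin' j hj s hj1 hj2.le
  by_cases h : t ≤ M (j + 1)
  · have h2 := hwin' j hj t (hj1.trans hst) h
    rw [abs_le] at h1 h2 ⊢
    constructor <;> linarith [h1.1, h1.2, h2.1, h2.2]
  · push Not at h
    have h3 : j + 1 < J := by
      by_contra hno
      have := hM (show J ≤ j + 1 by omega)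
      omega
    have h2 := hwin' (j + 1) h3 t h.le (hgap j hj2)
    have h4 := hwin' j hj (M (j + 1)) (hM (by omega)) le_rfl
    rw [abs_le] at h1 h2 h4 ⊢
    constructor <;> linarith [h1.1, h1.2, h2.1, h2.2, h4.1, h4.2]

/-- grid points -/
private noncomputable def osc_M (b : ℝ≥0) (n j : ℕ) : ℕ := ⌊(n : ℝ≥0) * ((j : ℝ≥0) * b)⌋₊

private theorem osc_M_zero (b : ℝ≥0) (n : ℕ) : osc_M b n 0 = 0 := by
  unfold osc_M
  rw [Nat.cast_zero, zero_mul, mul_zero, Nat.floor_zero]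

private theorem osc_M_mono (b : ℝ≥0) (n : ℕ) : Monotone (osc_M b n) := by
  intro i j hij
  unfold osc_M
  apply Nat.floor_mono
  gcongr

private theorem osc_M_le (b : ℝ≥0) (n j : ℕ) : (osc_M b n j : ℝ) ≤ n * (j * b) := by
  have h1 : ((osc_M b n j : ℕ) : ℝ≥0) ≤ (n : ℝ≥0) * ((j : ℝ≥0) * b) := Nat.floor_le (by positivity)
  exact_mod_cast h1

private theorem osc_M_lt (b : ℝ≥0) (n j : ℕ) : (n : ℝ) * (j * b) < osc_M b n j + 1 := by
  have h1 : (n : ℝ≥0) * ((j : ℝ≥0) * b) < ((osc_M b n j : ℕ) : ℝ≥0) + 1 := Nat.lt_floor_add_one _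
  exact_mod_cast h1

section Walk

variable {I : Type} [DecidableEq I] [Countable I] {ch : List I → Finset I} {lam : ℝ}
  {Ω : Type} [MeasurableSpace Ω] {P : Measure Ω} {X : ℕ → Ω → List I}

variable {ρ : ℝ} {W : List I → ℝ}

theorem osc_of_two_point (hB : Base ch ρ W X P) {θ : ℝ} (hθ : 0 < θ) (hE : EtaW ch ρ W X P θ)
    (hTi : TightW X P) {C2 : ℝ}
    (h2 : ∀ s t : ℝ≥0, s ≤ t → ∀ δ > (0 : ℝ), ∀ ε > (0 : ℝ), ∀ᶠ n : ℕ in atTop,
      P.real {ω | δ < |ps W (X ⌊(n : ℝ≥0) * t⌋₊ ω) / √(n : ℝ) -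
        ps W (X ⌊(n : ℝ≥0) * s⌋₊ ω) / √(n : ℝ)|} ≤ C2 * ((t : ℝ) - s) ^ 2 / δ ^ 4 + ε) :
    OscW W X P := by
  have hprob : IsProbabilityMeasure P := hB.walk.prob
  intro T hT δ hδ η hη
  -- the block length
  set A : ℝ := 8192 * (T + 2) * (|C2| + 1) / δ ^ 4 with hA
  have hApos : 0 < A := by positivity
  obtain ⟨b, hbpos, hb1, hbθ, hbA⟩ : ∃ b : ℝ≥0, 0 < (b : ℝ) ∧ (b : ℝ) ≤ 1 ∧
      256 * θ * b ≤ δ ^ 2 ∧ A * b ≤ η / 4 := by
    refine ⟨Real.toNNReal (min 1 (min (δ ^ 2 / (256 * θ)) (η / (4 * A)))), ?_⟩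
    have hpos : 0 < min 1 (min (δ ^ 2 / (256 * θ)) (η / (4 * A))) := by
      refine lt_min one_pos (lt_min ?_ ?_) <;> positivity
    rw [Real.coe_toNNReal _ hpos.le]
    refine ⟨hpos, min_le_left _ _, ?_, ?_⟩
    · have h1 : min 1 (min (δ ^ 2 / (256 * θ)) (η / (4 * A))) ≤ δ ^ 2 / (256 * θ) :=
        (min_le_right _ _).trans (min_le_left _ _)
      rw [le_div_iff₀ (by positivity)] at h1
      linarith
    · have h1 : min 1 (min (δ ^ 2 / (256 * θ)) (η / (4 * A))) ≤ η / (4 * A) :=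
        (min_le_right _ _).trans (min_le_right _ _)
      rw [le_div_iff₀ (by positivity)] at h1
      linarith
  set J : ℕ := ⌈(T + 1) / (b : ℝ)⌉₊ with hJ
  have hJ1 : (T + 1) / b ≤ (J : ℝ) := Nat.le_ceil _
  have hJ2 : (J : ℝ) < (T + 1) / b + 1 := Nat.ceil_lt_add_one (by positivity)
  have hJb1 : T + 1 ≤ J * b := by rwa [div_le_iff₀ hbpos] at hJ1
  have hJb2 : (J : ℝ) * b ≤ T + 2 := by
    have h1 := mul_lt_mul_of_pos_right hJ2 hbpos
    rw [add_mul, div_mul_cancel₀ _ hbpos.ne', one_mul] at h1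
    linarith
  -- the other parameters
  set η' : ℝ := η / (4 * (2 * J + 1)) with hη'
  have hη'pos : 0 < η' := by positivity
  obtain ⟨K, hK, hexit⟩ := hTi (T + 2) (by linarith) η' hη'pos
  set ε : ℝ := η * δ ^ 2 / (64 * (J + 1) * (K + 1) ^ 2) with hε
  have hεpos : 0 < ε := by positivity
  obtain ⟨ℓ0, hott⟩ := window_ottaviani hB hθ hE ε hεpos
  set ε1 : ℝ := η / (8 * (J + 1)) with hε1
  have hε1pos : 0 < ε1 := by positivity
  have htwo : ∀ᶠ n : ℕ in atTop, ∀ j ∈ range J,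
      P.real {ω | δ / 8 < |ps W (X (osc_M b n (j + 1)) ω) / √(n : ℝ) -
        ps W (X (osc_M b n j) ω) / √(n : ℝ)|} ≤ C2 * b ^ 2 / (δ / 8) ^ 4 + ε1 := by
    rw [Filter.eventually_all_finset]
    intro j _
    have h3 := h2 ((j : ℝ≥0) * b) (((j + 1 : ℕ) : ℝ≥0) * b) (by
      gcongr
      exact Nat.le_succ j) (δ / 8) (by positivity) ε1 hε1pos
    filter_upwards [h3] with n hn
    have h4 : ((((j + 1 : ℕ) : ℝ≥0) * b : ℝ≥0) : ℝ) - (((j : ℝ≥0) * b : ℝ≥0) : ℝ) = b := by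
      push_cast
      ring
    rw [h4] at hn
    exact hn
  have hlarge : ∀ᶠ n : ℕ in atTop, ℓ0 ≤ ⌈K * √(n : ℝ)⌉₊ := by
    have h1 : Tendsto (fun n : ℕ => K * √(n : ℝ)) atTop atTop :=
      (Real.tendsto_sqrt_atTop.comp tendsto_natCast_atTop_atTop).const_mul_atTop hK
    filter_upwards [h1.eventually_ge_atTop (ℓ0 : ℝ)] with n hn
    exact_mod_cast hn.trans (Nat.le_ceil _)
  have hlarge2 : ∀ᶠ n : ℕ in atTop, 2 ≤ (b : ℝ) * n := by
    have h1 : Tendsto (fun n : ℕ => (b : ℝ) * n) atTop atTop :=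
      tendsto_natCast_atTop_atTop.const_mul_atTop hbpos
    exact h1.eventually_ge_atTop 2
  refine ⟨b / 2, by positivity, ?_⟩
  filter_upwards [hexit, htwo, hlarge, hlarge2, eventually_ge_atTop 1] with n hn1 hn2 hn3 hn4 hn5
  set ℓ : ℕ := ⌈K * √(n : ℝ)⌉₊ with hℓ
  set D : ℝ := δ * √(n : ℝ) / 4 with hD
  have hn5' : (1 : ℝ) ≤ n := by exact_mod_cast hn5
  have hsq : (√(n : ℝ)) ^ 2 = n := Real.sq_sqrt (by linarith)
  have hspos : 0 < √(n : ℝ) := Real.sqrt_pos.2 (by linarith)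
  have hDpos : 0 < D := by positivity
  have hD2 : D ^ 2 = δ ^ 2 * n / 16 := by rw [hD, div_pow, mul_pow, hsq]; norm_num
  -- the events
  have hsub : {ω | ∃ s t : ℕ, (s : ℝ) ≤ T * n ∧ (t : ℝ) ≤ T * n ∧ |(s : ℝ) - t| ≤ b / 2 * n ∧
      δ * √(n : ℝ) < |ps W (X s ω) - ps W (X t ω)|} ⊆
      (⋃ j ∈ range J, WinOut X W ℓ (osc_M b n j) (osc_M b n (j + 1)) D) ∪
        Exit X ℓ ⌊(T + 2) * (n : ℝ)⌋₊ := by
    rintro ω ⟨s, t, hs, ht, hst, hbig⟩
    by_contra hno
    rw [Set.mem_union, not_or, Set.mem_iUnion₂] at hno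
    obtain ⟨hno1, hno2⟩ := hno
    push Not at hno1
    have hlen : ∀ r, r ≤ ⌊(T + 2) * (n : ℝ)⌋₊ → (X r ω).length < ℓ := by
      intro r hr
      by_contra h
      exact hno2 ⟨r, hr, not_lt.1 h⟩
    have hMJ : ∀ j ≤ J, osc_M b n j ≤ ⌊(T + 2) * (n : ℝ)⌋₊ := by
      intro j hj
      apply Nat.le_floor
      refine (osc_M_le b n j).trans ?_
      have h1 : (j : ℝ) * b ≤ T + 2 := by
        refine le_trans ?_ hJb2
        gcongr
      have := mul_le_mul_of_nonneg_left h1 (show (0 : ℝ) ≤ n by linarith)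
      linarith
    have hwin : ∀ j < J, ∀ r, osc_M b n j < r → r ≤ osc_M b n (j + 1) →
        |ps W (X r ω) - ps W (X (osc_M b n j) ω)| ≤ D := by
      intro j hj r hr1 hr2
      by_contra h
      apply hno1 j (mem_range.2 hj)
      refine ⟨r, hr1, hr2, fun s' hs' => hlen s' ?_, not_le.1 h⟩
      exact hs'.le.trans (hr2.trans (hMJ (j + 1) hj))
    have hTJ : ∀ u : ℕ, (u : ℝ) ≤ T * n → u < osc_M b n J := by
      intro u hu
      have h1 := osc_M_lt b n J
      have h3 : (n : ℝ) * (T + 1) ≤ n * (J * b) := by gcongr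
      have h4 : (u : ℝ) < osc_M b n J := by nlinarith
      exact_mod_cast h4
    have hgap : ∀ u w : ℕ, (w : ℝ) - u ≤ b / 2 * n → ∀ j, u < osc_M b n (j + 1) →
        w ≤ osc_M b n (j + 2) := by
      intro u w huw j hj
      have h1 := osc_M_le b n (j + 1)
      have h3 := osc_M_lt b n (j + 2)
      have h4 : (u : ℝ) + 1 ≤ osc_M b n (j + 1) := by exact_mod_cast hj
      push_cast at h1 h3
      have h5 : (w : ℝ) < osc_M b n (j + 2) + 1 := by nlinarith
      have h6 : w < osc_M b n (j + 2) + 1 := by exact_mod_cast h5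
      omega
    have hfin : |ps W (X s ω) - ps W (X t ω)| ≤ 3 * D := by
      rw [abs_le] at hst
      rcases le_total s t with h | h
      · exact osc_det (osc_M_mono b n) (osc_M_zero b n) (S := fun r => ps W (X r ω)) hDpos.le
          hwin h (hTJ t ht) (hgap s t (by linarith [hst.1]))
      · rw [abs_sub_comm]
        exact osc_det (osc_M_mono b n) (osc_M_zero b n) (S := fun r => ps W (X r ω)) hDpos.le
          hwin h (hTJ s hs) (hgap t s (by linarith [hst.2]))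
    rw [hD] at hfin
    have hpos : 0 < δ * √(n : ℝ) := by positivity
    linarith
  -- one block
  have hblock : ∀ j ∈ range J, P.real (WinOut X W ℓ (osc_M b n j) (osc_M b n (j + 1)) D) ≤
      2 * (C2 * b ^ 2 / (δ / 8) ^ 4 + ε1) + 2 * η' + η / (4 * (J + 1)) := by
    intro j hj
    have hjJ := mem_range.1 hj
    have hle : osc_M b n j ≤ osc_M b n (j + 1) := osc_M_mono b n (Nat.le_succ j)
    obtain ⟨L, hL⟩ := Nat.exists_eq_add_of_le hle
    have hLle : (L : ℝ) ≤ 2 * (b * n) := by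
      have h1 := osc_M_le b n (j + 1)
      have h3 := osc_M_lt b n j
      rw [hL] at h1
      push_cast at h1
      nlinarith
    have hcond : 8 * θ * L ≤ D ^ 2 := by
      rw [hD2]
      have h1 : 8 * θ * L ≤ 8 * θ * (2 * (b * n)) := by gcongr
      have h3 : 256 * θ * b * n ≤ δ ^ 2 * n := by gcongr
      linarith
    have h1 := hott ℓ hn3 (osc_M b n j) L D hDpos hcond
    rw [← hL] at h1
    refine h1.trans ?_
    have h3 : P.real {ω | D / 2 < |ps W (X (osc_M b n (j + 1)) ω) -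
        ps W (X (osc_M b n j) ω)|} ≤ C2 * b ^ 2 / (δ / 8) ^ 4 + ε1 := by
      refine le_trans (measureReal_mono ?_) (hn2 j hj)
      intro ω hω
      rw [Set.mem_ofPred_eq] at hω ⊢
      rw [← sub_div, abs_div, abs_of_pos hspos, lt_div_iff₀ hspos]
      rw [hD] at hω
      linarith
    have h4 : P.real (Exit X ℓ (osc_M b n (j + 1))) ≤ η' := by
      refine le_trans (measureReal_mono ?_) hn1
      rintro ω ⟨s, hs, hs2⟩
      refine ⟨s, hs.trans ?_, hs2⟩
      apply Nat.le_floor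
      refine (osc_M_le b n (j + 1)).trans ?_
      have h5 : ((j + 1 : ℕ) : ℝ) * b ≤ T + 2 := by
        refine le_trans ?_ hJb2
        gcongr
        exact hjJ
      have := mul_le_mul_of_nonneg_left h5 (show (0 : ℝ) ≤ n by linarith)
      linarith
    have h5 : ε * (ℓ : ℝ) ^ 2 / D ^ 2 ≤ η / (4 * (J + 1)) := by
      have hℓle : (ℓ : ℝ) ≤ (K + 1) * √(n : ℝ) := by
        have h6 : (ℓ : ℝ) < K * √(n : ℝ) + 1 := Nat.ceil_lt_add_one (by positivity)
        have h7 : 1 ≤ √(n : ℝ) := Real.one_le_sqrt.2 hn5'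
        linarith
      have hℓ2 : (ℓ : ℝ) ^ 2 ≤ (K + 1) ^ 2 * n := by
        have h8 : (ℓ : ℝ) ^ 2 ≤ ((K + 1) * √(n : ℝ)) ^ 2 := by gcongr
        rwa [mul_pow, hsq] at h8
      rw [hD2, div_le_iff₀ (by positivity)]
      have h9 : ε * (ℓ : ℝ) ^ 2 ≤ ε * ((K + 1) ^ 2 * n) := by gcongr
      refine h9.trans (le_of_eq ?_)
      rw [hε]
      field_simp
      ring
    linarith
  -- conclusion
  have hC2 : J * (2 * (C2 * b ^ 2 / (δ / 8) ^ 4)) ≤ η / 4 := by
    have h1 : C2 * b ^ 2 / (δ / 8) ^ 4 ≤ (|C2| + 1) * b ^ 2 / (δ / 8) ^ 4 := by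
      gcongr
      linarith [le_abs_self C2]
    have h3 : (J : ℝ) * (2 * (C2 * b ^ 2 / (δ / 8) ^ 4)) ≤
        J * (2 * ((|C2| + 1) * b ^ 2 / (δ / 8) ^ 4)) := by gcongr
    refine h3.trans ?_
    have h4 : (J : ℝ) * (2 * ((|C2| + 1) * b ^ 2 / (δ / 8) ^ 4)) =
        (J * b) * ((8192 * (|C2| + 1) / δ ^ 4) * b) := by
      field_simp
      ring
    rw [h4]
    have h5 : (J * b : ℝ) * ((8192 * (|C2| + 1) / δ ^ 4) * b) ≤
        (T + 2) * ((8192 * (|C2| + 1) / δ ^ 4) * b) := by gcongr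
    refine h5.trans (le_trans (le_of_eq ?_) hbA)
    rw [hA]
    ring
  calc P.real {ω | ∃ s t : ℕ, (s : ℝ) ≤ T * n ∧ (t : ℝ) ≤ T * n ∧
        |(s : ℝ) - t| ≤ b / 2 * n ∧ δ * √(n : ℝ) < |ps W (X s ω) - ps W (X t ω)|}
      ≤ P.real ((⋃ j ∈ range J, WinOut X W ℓ (osc_M b n j) (osc_M b n (j + 1)) D) ∪
          Exit X ℓ ⌊(T + 2) * (n : ℝ)⌋₊) := measureReal_mono hsub
    _ ≤ P.real (⋃ j ∈ range J, WinOut X W ℓ (osc_M b n j) (osc_M b n (j + 1)) D) +
          P.real (Exit X ℓ ⌊(T + 2) * (n : ℝ)⌋₊) := measureReal_union_le _ _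
    _ ≤ ∑ j ∈ range J, P.real (WinOut X W ℓ (osc_M b n j) (osc_M b n (j + 1)) D) + η' :=
          add_le_add (measureReal_biUnion_finset_le _ _) hn1
    _ ≤ ∑ j ∈ range J, (2 * (C2 * b ^ 2 / (δ / 8) ^ 4 + ε1) + 2 * η' + η / (4 * (J + 1))) + η' :=
          add_le_add (Finset.sum_le_sum hblock) le_rfl
    _ = J * (2 * (C2 * b ^ 2 / (δ / 8) ^ 4)) + (2 * (J * ε1)) + ((2 * J + 1) * η') +
          J * (η / (4 * (J + 1))) := by
          rw [Finset.sum_const, card_range, nsmul_eq_mul]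
          ring
    _ ≤ η / 4 + η / 4 + η / 4 + η / 4 := by
          have h3 : 2 * ((J : ℝ) * ε1) ≤ η / 4 := by
            rw [hε1]
            have : 2 * ((J : ℝ) * (η / (8 * (J + 1)))) = η / 4 * (J / (J + 1)) := by
              field_simp
              ring
            rw [this]
            have h4 : (J : ℝ) / (J + 1) ≤ 1 := by
              rw [div_le_one (by positivity)]
              linarith
            nlinarith
          have h5 : (2 * (J : ℝ) + 1) * η' ≤ η / 4 := by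
            rw [hη']
            apply le_of_eq
            field_simp
          have h6 : (J : ℝ) * (η / (4 * (J + 1))) ≤ η / 4 := by
            have : (J : ℝ) * (η / (4 * (J + 1))) = η / 4 * (J / (J + 1)) := by
              field_simp
            rw [this]
            have h4 : (J : ℝ) / (J + 1) ≤ 1 := by
              rw [div_le_one (by positivity)]
              linarith
            nlinarith
          linarith
    _ = η := by ring

end Walk

end Pool.Agent.BW
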