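import Pool.Agent.Lib.MP_276d40_pr.MuBasic

open MeasureTheory ProbabilityTheory Filter Topology Finset
open scoped ENNReal NNReal

set_option linter.unusedSectionVars false
set_option linter.unusedVariables false

namespace Pool.Agent.BW

section PF

variable {Q : Type} [Fintype Q] [DecidableEq Q]

/-- an average of numbers in an interval lies in the interval -/
private theorem pf_avg {w f : Q → ℝ} (hw : ∀ b, 0 ≤ w b) (hw1 : ∑ b, w b = 1) {lo hi : ℝ}
    (h : ∀ b, lo ≤ f b ∧ f b ≤ hi) : lo ≤ ∑ b, w b * f b ∧ ∑ b, w b * f b ≤ hi := by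
  constructor
  · calc lo = ∑ b, w b * lo := by rw [← Finset.sum_mul, hw1, one_mul]
      _ ≤ _ := Finset.sum_le_sum fun b _ => mul_le_mul_of_nonneg_left (h b).1 (hw b)
  · calc ∑ b, w b * f b ≤ ∑ b, w b * hi :=
          Finset.sum_le_sum fun b _ => mul_le_mul_of_nonneg_left (h b).2 (hw b)
      _ = hi := by rw [← Finset.sum_mul, hw1, one_mul]

/-- Doeblin contraction for one averaging row -/
private theorem pf_doeblin {w f : Q → ℝ} {c : ℝ} (hc : ∀ b, c ≤ w b) (hw : ∀ b, 0 ≤ w b)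
    (hw1 : ∑ b, w b = 1) {lo hi : ℝ} (h : ∀ b, lo ≤ f b ∧ f b ≤ hi) (b0 : Q) :
    c * f b0 + (1 - c) * lo ≤ ∑ b, w b * f b ∧
      ∑ b, w b * f b ≤ c * f b0 + (1 - c) * hi := by
  have hlow : 0 ≤ ∑ b, w b * (f b - lo) - c * (f b0 - lo) := by
    have h1 : w b0 * (f b0 - lo) ≤ ∑ b, w b * (f b - lo) :=
      Finset.single_le_sum (f := fun b => w b * (f b - lo))
        (fun b _ => mul_nonneg (hw b) (sub_nonneg.2 (h b).1)) (Finset.mem_univ b0)
    have h2 : c * (f b0 - lo) ≤ w b0 * (f b0 - lo) :=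
      mul_le_mul_of_nonneg_right (hc b0) (sub_nonneg.2 (h b0).1)
    linarith
  have hupp : 0 ≤ ∑ b, w b * (hi - f b) - c * (hi - f b0) := by
    have h1 : w b0 * (hi - f b0) ≤ ∑ b, w b * (hi - f b) :=
      Finset.single_le_sum (f := fun b => w b * (hi - f b))
        (fun b _ => mul_nonneg (hw b) (sub_nonneg.2 (h b).2)) (Finset.mem_univ b0)
    have h2 : c * (hi - f b0) ≤ w b0 * (hi - f b0) :=
      mul_le_mul_of_nonneg_right (hc b0) (sub_nonneg.2 (h b0).2)
    linarith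
  have e1 : ∑ b, w b * (f b - lo) = ∑ b, w b * f b - lo := by
    simp_rw [mul_sub]
    rw [Finset.sum_sub_distrib, ← Finset.sum_mul, hw1, one_mul]
  have e2 : ∑ b, w b * (hi - f b) = hi - ∑ b, w b * f b := by
    simp_rw [mul_sub]
    rw [Finset.sum_sub_distrib, ← Finset.sum_mul, hw1, one_mul]
  rw [e1] at hlow
  rw [e2] at hupp
  constructor <;> nlinarith

private theorem pf_pow_nonneg {B : Matrix Q Q ℝ} (hB : ∀ a b, 0 ≤ B a b) (m : ℕ) :
    ∀ a b, 0 ≤ (B ^ m) a b := by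
  induction m with
  | zero =>
    intro a b
    rw [pow_zero, Matrix.one_apply]
    split_ifs <;> norm_num
  | succ m ih =>
    intro a b
    rw [pow_succ, Matrix.mul_apply]
    exact Finset.sum_nonneg fun x _ => mul_nonneg (ih a x) (hB x b)

private theorem pf_pow_sum {B : Matrix Q Q ℝ} (hB1 : ∀ a, ∑ b, B a b = 1) (m : ℕ) :
    ∀ a, ∑ b, (B ^ m) a b = 1 := by
  induction m with
  | zero =>
    intro a
    simp [Matrix.one_apply]
  | succ m ih =>
    intro a
    simp_rw [pow_succ, Matrix.mul_apply]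
    rw [Finset.sum_comm]
    simp_rw [← Finset.mul_sum, hB1, mul_one]
    exact ih a

/-- nested intervals for the columns of the powers of a primitive stochastic matrix -/
private theorem pf_nested {B : Matrix Q Q ℝ} (hB : ∀ a b, 0 ≤ B a b)
    (hB1 : ∀ a, ∑ b, B a b = 1) {n0 : ℕ} {c : ℝ} (hc : ∀ a b, c ≤ (B ^ n0) a b)
    (b0 y : Q) (k : ℕ) :
    ∃ lo hi : ℝ, hi - lo = (1 - c) ^ k ∧
      ∀ m, k * n0 ≤ m → ∀ a, lo ≤ (B ^ m) a y ∧ (B ^ m) a y ≤ hi := by
  induction k with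
  | zero =>
    refine ⟨0, 1, by norm_num, fun m _ a => ⟨pf_pow_nonneg hB m a y, ?_⟩⟩
    rw [← pf_pow_sum hB1 m a]
    exact Finset.single_le_sum (f := fun b => (B ^ m) a b)
      (fun b _ => pf_pow_nonneg hB m a b) (Finset.mem_univ y)
  | succ k ih =>
    obtain ⟨lo, hi, hlen, hk⟩ := ih
    have h0 := hk (k * n0) le_rfl
    refine ⟨c * (B ^ (k * n0)) b0 y + (1 - c) * lo, c * (B ^ (k * n0)) b0 y + (1 - c) * hi,
      ?_, ?_⟩
    · rw [pow_succ, ← hlen]; ring
    · have h1 : ∀ a, c * (B ^ (k * n0)) b0 y + (1 - c) * lo ≤ (B ^ ((k + 1) * n0)) a y ∧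
          (B ^ ((k + 1) * n0)) a y ≤ c * (B ^ (k * n0)) b0 y + (1 - c) * hi := by
        intro a
        have e : (B ^ ((k + 1) * n0)) a y = ∑ x, (B ^ n0) a x * (B ^ (k * n0)) x y := by
          rw [← Matrix.mul_apply, ← pow_add, show n0 + k * n0 = (k + 1) * n0 by ring]
        rw [e]
        exact pf_doeblin (hc a) (pf_pow_nonneg hB n0 a) (pf_pow_sum hB1 n0 a) h0 b0
      intro m hm a
      have e : (B ^ m) a y = ∑ x, (B ^ (m - (k + 1) * n0)) a x * (B ^ ((k + 1) * n0)) x y := by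
        rw [← Matrix.mul_apply, ← pow_add, Nat.sub_add_cancel hm]
      rw [e]
      exact pf_avg (pf_pow_nonneg hB _ a) (pf_pow_sum hB1 _ a) h1

/-- convergence of the powers of a primitive stochastic matrix -/
private theorem pf_stoch [Nonempty Q] {B : Matrix Q Q ℝ} (hB : ∀ a b, 0 ≤ B a b)
    (hB1 : ∀ a, ∑ b, B a b = 1) {n0 : ℕ} (hn0 : ∀ a b, 0 < (B ^ n0) a b) :
    ∃ p : Q → ℝ, (∀ b, 0 < p b) ∧ (∀ b, ∑ a, p a * B a b = p b) ∧ ∑ b, p b = 1 ∧
      ∀ a b, Tendsto (fun m : ℕ => (B ^ m) a b) atTop (𝓝 (p b)) := by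
  classical
  obtain ⟨q0⟩ := ‹Nonempty Q›
  -- the Doeblin constant
  obtain ⟨c, hc0, hc⟩ : ∃ c : ℝ, 0 < c ∧ ∀ a b, c ≤ (B ^ n0) a b := by
    obtain ⟨z, -, hz⟩ := Finset.exists_min_image (Finset.univ : Finset (Q × Q))
      (fun z => (B ^ n0) z.1 z.2) ⟨(q0, q0), Finset.mem_univ _⟩
    exact ⟨(B ^ n0) z.1 z.2, hn0 _ _, fun a b => hz (a, b) (Finset.mem_univ _)⟩
  have hc1 : c ≤ 1 := by
    rw [← pf_pow_sum hB1 n0 q0]
    exact (hc q0 q0).trans (Finset.single_le_sum (f := fun b => (B ^ n0) q0 b)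
      (fun b _ => pf_pow_nonneg hB n0 q0 b) (Finset.mem_univ q0))
  have hpow : Tendsto (fun k : ℕ => (1 - c) ^ k) atTop (𝓝 0) :=
    tendsto_pow_atTop_nhds_zero_of_lt_one (by linarith) (by linarith)
  -- two entries of a column are close
  have hclose : ∀ (y : Q) (ε : ℝ), 0 < ε → ∃ N : ℕ, ∀ m, N ≤ m → ∀ m', N ≤ m' → ∀ a a',
      |(B ^ m) a y - (B ^ m') a' y| < ε := by
    intro y ε hε
    obtain ⟨k, hk⟩ := ((tendsto_order.1 hpow).2 ε hε).exists
    obtain ⟨lo, hi, hlen, hb⟩ := pf_nested hB hB1 hc q0 y k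
    refine ⟨k * n0, fun m hm m' hm' a a' => ?_⟩
    have h1 := hb m hm a
    have h2 := hb m' hm' a'
    rw [abs_lt]
    constructor <;> linarith [h1.1, h1.2, h2.1, h2.2]
  have hcau : ∀ y, CauchySeq (fun m : ℕ => (B ^ m) q0 y) := by
    intro y
    rw [Metric.cauchySeq_iff]
    intro ε hε
    obtain ⟨N, hN⟩ := hclose y ε hε
    exact ⟨N, fun m hm n hn => by rw [Real.dist_eq]; exact hN m hm n hn q0 q0⟩
  choose p hp using fun y => cauchySeq_tendsto_of_complete (hcau y)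
  have hlim : ∀ a b, Tendsto (fun m : ℕ => (B ^ m) a b) atTop (𝓝 (p b)) := by
    intro a b
    have hdiff : Tendsto (fun m : ℕ => (B ^ m) a b - (B ^ m) q0 b) atTop (𝓝 0) := by
      rw [Metric.tendsto_atTop]
      intro ε hε
      obtain ⟨N, hN⟩ := hclose b ε hε
      exact ⟨N, fun m hm => by rw [Real.dist_eq, sub_zero]; exact hN m hm m hm a q0⟩
    have h := hdiff.add (hp b)
    simpa using h
  refine ⟨p, ?_, ?_, ?_, hlim⟩
  · intro b
    refine lt_of_lt_of_le hc0 (ge_of_tendsto (hlim q0 b) ?_)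
    filter_upwards [eventually_ge_atTop n0] with m hm
    have e : (B ^ m) q0 b = ∑ x, (B ^ (m - n0)) q0 x * (B ^ n0) x b := by
      rw [← Matrix.mul_apply, ← pow_add, Nat.sub_add_cancel hm]
    rw [e]
    calc c = ∑ x, (B ^ (m - n0)) q0 x * c := by
          rw [← Finset.sum_mul, pf_pow_sum hB1, one_mul]
      _ ≤ _ := Finset.sum_le_sum fun x _ =>
          mul_le_mul_of_nonneg_left (hc x b) (pf_pow_nonneg hB _ q0 x)
  · intro b
    have h1 : Tendsto (fun m : ℕ => (B ^ (m + 1)) q0 b) atTop (𝓝 (∑ a, p a * B a b)) := by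
      simp_rw [pow_succ, Matrix.mul_apply]
      exact tendsto_finsetSum _ fun x _ => (hlim q0 x).mul_const _
    have h2 : Tendsto (fun m : ℕ => (B ^ (m + 1)) q0 b) atTop (𝓝 (p b)) :=
      (hlim q0 b).comp (tendsto_add_atTop_nat 1)
    exact tendsto_nhds_unique h1 h2
  · have h1 : Tendsto (fun m : ℕ => ∑ b, (B ^ m) q0 b) atTop (𝓝 (∑ b, p b)) :=
      tendsto_finsetSum _ fun x _ => hlim q0 x
    simp_rw [pf_pow_sum hB1] at h1
    exact tendsto_nhds_unique h1 tendsto_const_nhds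

theorem pf_left [Nonempty Q] {A : Matrix Q Q ℝ} (hA : ∀ a b, 0 ≤ A a b)
    (hprim : ∃ n0 : ℕ, ∀ a b, 0 < (A ^ n0) a b) {ρ : ℝ} (hρ : 0 < ρ) {e : Q → ℝ}
    (he : ∀ b, 0 < e b) (hAe : ∀ a, ∑ b, A a b * e b = ρ * e a) :
    ∃ l : Q → ℝ, (∀ b, 0 < l b) ∧ (∀ b, ∑ a, l a * A a b = ρ * l b) ∧ ∑ b, l b * e b = 1 ∧
      ∀ a b, Tendsto (fun m : ℕ => (ρ ^ m)⁻¹ * (A ^ m) a b) atTop (𝓝 (e a * l b)) := by
  obtain ⟨n0, hn0⟩ := hprim
  have hρ' : ρ ≠ 0 := hρ.ne'
  have he' : ∀ b, e b ≠ 0 := fun b => (he b).ne'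
  set B : Matrix Q Q ℝ := Matrix.of fun a b => ρ⁻¹ * (e a)⁻¹ * A a b * e b with hBdef
  have hBapp : ∀ a b, B a b = ρ⁻¹ * (e a)⁻¹ * A a b * e b := fun a b => rfl
  have hBpow : ∀ m a b, (B ^ m) a b = (ρ ^ m)⁻¹ * (e a)⁻¹ * (A ^ m) a b * e b := by
    intro m
    induction m with
    | zero =>
      intro a b
      rw [pow_zero, pow_zero, pow_zero, Matrix.one_apply]
      by_cases hab : a = b
      · subst hab
        have := he' a
        simp [this]
      · simp [hab]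
    | succ m ih =>
      intro a b
      have hBs : (B ^ (m + 1)) a b = ∑ x, (B ^ m) a x * B x b := by
        rw [pow_succ, Matrix.mul_apply]
      have hAs : (A ^ (m + 1)) a b = ∑ x, (A ^ m) a x * A x b := by
        rw [pow_succ, Matrix.mul_apply]
      rw [hBs, hAs, Finset.mul_sum, Finset.sum_mul]
      refine Finset.sum_congr rfl fun x _ => ?_
      rw [ih, hBapp, pow_succ]
      have h1 := he' a
      have h2 := he' x
      field_simp
  have hB : ∀ a b, 0 ≤ B a b := fun a b => by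
    rw [hBapp]
    exact mul_nonneg (mul_nonneg (mul_nonneg (inv_nonneg.2 hρ.le) (inv_nonneg.2 (he a).le))
      (hA a b)) (he b).le
  have hB1 : ∀ a, ∑ b, B a b = 1 := by
    intro a
    simp_rw [hBapp, mul_assoc]
    rw [← Finset.mul_sum, ← Finset.mul_sum, hAe]
    have := he' a
    field_simp
  have hn0' : ∀ a b, 0 < (B ^ n0) a b := fun a b => by
    rw [hBpow]
    exact mul_pos (mul_pos (mul_pos (inv_pos.2 (pow_pos hρ n0)) (inv_pos.2 (he a)))
      (hn0 a b)) (he b)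
  obtain ⟨p, hp0, hpB, hp1, hlim⟩ := pf_stoch hB hB1 hn0'
  refine ⟨fun b => p b / e b, fun b => div_pos (hp0 b) (he b), ?_, ?_, ?_⟩
  · intro b
    have h := hpB b
    simp_rw [hBapp] at h
    have e1 : ∑ a, p a / e a * A a b = ρ * (∑ a, p a * (ρ⁻¹ * (e a)⁻¹ * A a b * e b)) / e b := by
      rw [Finset.mul_sum, Finset.sum_div]
      refine Finset.sum_congr rfl fun a _ => ?_
      have h1 := he' a
      have h2 := he' b
      field_simp
    show ∑ a, p a / e a * A a b = ρ * (p b / e b)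
    rw [e1, h, mul_div_assoc]
  · show ∑ b, p b / e b * e b = 1
    rw [← hp1]
    exact Finset.sum_congr rfl fun b _ => div_mul_cancel₀ _ (he' b)
  · intro a b
    have h := ((hlim a b).const_mul (e a)).div_const (e b)
    have e1 : (fun m : ℕ => e a * (B ^ m) a b / e b) = fun m : ℕ => (ρ ^ m)⁻¹ * (A ^ m) a b := by
      funext m
      rw [hBpow]
      have h1 := he' a
      have h2 := he' b
      field_simp
    rw [e1] at h
    show Tendsto (fun m : ℕ => (ρ ^ m)⁻¹ * (A ^ m) a b) atTop (𝓝 (e a * (p b / e b)))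
    rw [← mul_div_assoc]
    exact h

end PF

end Pool.Agent.BW
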