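import Pool.Agent.Lib.MP_276d40_pr.MuBasic

open MeasureTheory ProbabilityTheory Filter Topology Finset
open scoped ENNReal NNReal

set_option linter.unusedSectionVars false
set_option linter.unusedVariables false

namespace Pool.Agent.BW

section PF

variable {Q : Type} [Fintype Q] [DecidableEq Q]

/-- eigenvectors of complex matrices -/
private theorem pfe_mem_spectrum (M : Matrix Q Q ℂ) (k : ℂ) :
    k ∈ spectrum ℂ M ↔ ∃ z : Q → ℂ, z ≠ 0 ∧ M.mulVec z = k • z := by
  rw [← Matrix.spectrum_toLin', ← Module.End.hasEigenvalue_iff_mem_spectrum]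
  constructor
  · intro h
    obtain ⟨z, hz⟩ := h.exists_hasEigenvector
    refine ⟨z, hz.2, ?_⟩
    have := hz.apply_eq_smul
    rwa [Matrix.toLin'_apply] at this
  · rintro ⟨z, hz, h⟩
    apply Module.End.hasEigenvalue_of_hasEigenvector (x := z)
    refine ⟨?_, hz⟩
    rw [Module.End.mem_eigenspace_iff, Matrix.toLin'_apply]
    exact h

/-- the bound on `s` -/
private theorem pfe_bound {A : Matrix Q Q ℝ} (hA : ∀ a b, 0 ≤ A a b) {x : Q → ℝ} {s : ℝ}
    (hx : x ∈ stdSimplex ℝ Q) (h : ∀ a, s * x a ≤ ∑ b, A a b * x b) :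
    s ≤ ∑ a, ∑ b, A a b := by
  have h1 : s = ∑ a, s * x a := by rw [← Finset.mul_sum, hx.2, mul_one]
  rw [h1]
  refine Finset.sum_le_sum fun a _ => (h a).trans (Finset.sum_le_sum fun b _ => ?_)
  have hb : x b ≤ 1 := by
    rw [← hx.2]
    exact Finset.single_le_sum (f := x) (fun c _ => hx.1 c) (Finset.mem_univ b)
  calc A a b * x b ≤ A a b * 1 := mul_le_mul_of_nonneg_left hb (hA a b)
    _ = A a b := mul_one _

/-- the Collatz-Wielandt maximum -/
private theorem pfe_max [Nonempty Q] {A : Matrix Q Q ℝ} (hA : ∀ a b, 0 ≤ A a b) :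
    ∃ (r : ℝ) (x : Q → ℝ), 0 ≤ r ∧ x ∈ stdSimplex ℝ Q ∧ (∀ a, r * x a ≤ ∑ b, A a b * x b) ∧
      ∀ (s : ℝ) (y : Q → ℝ), 0 ≤ s → y ∈ stdSimplex ℝ Q → (∀ a, s * y a ≤ ∑ b, A a b * y b) →
        s ≤ r := by
  set M := ∑ a, ∑ b, A a b with hM
  have hM0 : 0 ≤ M := Finset.sum_nonneg fun a _ => Finset.sum_nonneg fun b _ => hA a b
  let K : Set ((Q → ℝ) × ℝ) := (stdSimplex ℝ Q ×ˢ Set.Icc 0 M) ∩
    {q | ∀ a, q.2 * q.1 a ≤ ∑ b, A a b * q.1 b}
  have hK : IsCompact K := by
    apply ((isCompact_stdSimplex ℝ Q).prod isCompact_Icc).inter_right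
    have : {q : (Q → ℝ) × ℝ | ∀ a, q.2 * q.1 a ≤ ∑ b, A a b * q.1 b} =
        ⋂ a, {q : (Q → ℝ) × ℝ | q.2 * q.1 a ≤ ∑ b, A a b * q.1 b} := by
      ext q; simp
    rw [this]
    refine isClosed_iInter fun a => isClosed_le ?_ ?_
    · fun_prop
    · fun_prop
  have hne : K.Nonempty := by
    obtain ⟨c⟩ := ‹Nonempty Q›
    refine ⟨(Pi.single c 1, 0), ⟨⟨single_mem_stdSimplex ℝ c, le_refl _, hM0⟩, fun a => ?_⟩⟩
    simp only [zero_mul]
    refine Finset.sum_nonneg fun b _ => mul_nonneg (hA a b) ?_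
    exact (single_mem_stdSimplex ℝ c).1 b
  obtain ⟨⟨x, r⟩, ⟨⟨hx, hr⟩, hxr⟩, hmax⟩ := hK.exists_isMaxOn hne
    (f := Prod.snd) continuous_snd.continuousOn
  refine ⟨r, x, hr.1, hx, hxr, fun s y hs hy hsy => ?_⟩
  have : (y, s) ∈ K := ⟨⟨hy, hs, pfe_bound hA hy hsy⟩, hsy⟩
  exact hmax this

/-- normalisation -/
private theorem pfe_le [Nonempty Q] {A : Matrix Q Q ℝ} {r : ℝ}
    (hmax : ∀ (s : ℝ) (y : Q → ℝ), 0 ≤ s → y ∈ stdSimplex ℝ Q →
      (∀ a, s * y a ≤ ∑ b, A a b * y b) → s ≤ r) (s : ℝ) (y : Q → ℝ) (hs : 0 ≤ s)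
    (hy : ∀ a, 0 ≤ y a) (hy0 : y ≠ 0) (h : ∀ a, s * y a ≤ ∑ b, A a b * y b) : s ≤ r := by
  have hpos : 0 < ∑ a, y a := by
    obtain ⟨c, hc⟩ := Function.ne_iff.1 hy0
    exact Finset.sum_pos' (fun a _ => hy a) ⟨c, Finset.mem_univ c, lt_of_le_of_ne (hy c) hc.symm⟩
  apply hmax s (fun a => y a / ∑ a, y a) hs
  · refine ⟨fun a => div_nonneg (hy a) hpos.le, ?_⟩
    rw [← Finset.sum_div, div_self hpos.ne']
  · intro a
    have h1 : ∑ b, A a b * (y b / ∑ a, y a) = (∑ b, A a b * y b) / ∑ a, y a := by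
      rw [Finset.sum_div]
      exact Finset.sum_congr rfl fun b _ => by ring
    rw [h1, ← mul_div_assoc]
    exact div_le_div_of_nonneg_right (h a) hpos.le

theorem pf_right [Nonempty Q] {A : Matrix Q Q ℝ} (hA : ∀ a b, 0 ≤ A a b)
    (hprim : ∃ n0 : ℕ, ∀ a b, 0 < (A ^ n0) a b) :
    ∃ e : Q → ℝ, (∀ b, 0 < e b) ∧ ∀ a, ∑ b, A a b * e b =
      (spectralRadius ℂ (A.map ((↑) : ℝ → ℂ))).toReal * e a := by
  obtain ⟨n0, hn0⟩ := hprim
  obtain ⟨r, x, hr, hx, hxr, hmax⟩ := pfe_max hA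
  have hle := fun s y => pfe_le (A := A) hmax s y
  have hx0 : x ≠ 0 := by
    rintro rfl
    have := hx.2
    simp at this
  -- positivity of `A ^ n0 z`
  have hpos : ∀ z : Q → ℝ, (∀ a, 0 ≤ z a) → z ≠ 0 → ∀ a, 0 < ((A ^ n0).mulVec z) a := by
    intro z hz hz0 a
    obtain ⟨c, hc⟩ := Function.ne_iff.1 hz0
    show 0 < ∑ b, (A ^ n0) a b * z b
    exact Finset.sum_pos' (fun b _ => mul_nonneg (hn0 a b).le (hz b))
      ⟨c, Finset.mem_univ c, mul_pos (hn0 a c) (lt_of_le_of_ne (hz c) hc.symm)⟩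
  -- `A x = r x`
  have hAx : A.mulVec x = r • x := by
    by_contra hne
    set d : Q → ℝ := A.mulVec x - r • x with hd
    have hd0 : d ≠ 0 := fun h => hne (sub_eq_zero.1 h)
    have hdn : ∀ a, 0 ≤ d a := fun a => sub_nonneg.2 (hxr a)
    set y : Q → ℝ := (A ^ n0).mulVec x with hy
    have hypos : ∀ a, 0 < y a := hpos x hx.1 hx0
    have hdpos := hpos d hdn hd0
    have hcomm : (A ^ n0).mulVec d = A.mulVec y - r • y := by
      rw [hd, hy, Matrix.mulVec_sub, Matrix.mulVec_smul, Matrix.mulVec_mulVec,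
        Matrix.mulVec_mulVec, ((Commute.refl A).pow_left n0).eq]
    -- `δ`
    obtain ⟨c, hc⟩ := Finite.exists_min fun a => ((A ^ n0).mulVec d) a / y a
    set δ := ((A ^ n0).mulVec d) c / y c with hδ
    have hδ0 : 0 < δ := div_pos (hdpos c) (hypos c)
    have h1 : r + δ ≤ r := by
      apply hle (r + δ) y (by positivity) (fun a => (hypos a).le)
      · intro h
        have := hypos c
        rw [h] at this
        exact lt_irrefl _ this
      · intro a
        have h2 := hc a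
        rw [le_div_iff₀ (hypos a)] at h2
        have h3 : ((A ^ n0).mulVec d) a = ∑ b, A a b * y b - r * y a := by
          rw [hcomm]; rfl
        rw [h3] at h2
        linarith
    linarith
  -- positivity of `x`
  have hpow : ∀ n : ℕ, (A ^ n).mulVec x = r ^ n • x := by
    intro n
    induction n with
    | zero => simp
    | succ n ih =>
      rw [pow_succ, ← Matrix.mulVec_mulVec, hAx, Matrix.mulVec_smul, ih, smul_smul, pow_succ,
        mul_comm]
  have hxpos : ∀ a, 0 < x a := by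
    intro a
    have h1 := hpos x hx.1 hx0 a
    rw [hpow n0] at h1
    have h2 : 0 < r ^ n0 * x a := h1
    exact (pos_iff_pos_of_mul_pos h2).1 (lt_of_le_of_ne (pow_nonneg hr _) fun h => by
      rw [← h, zero_mul] at h2; exact lt_irrefl _ h2)
  -- the spectral radius
  have hrad : (spectralRadius ℂ (A.map ((↑) : ℝ → ℂ))).toReal = r := by
    have h1 : spectralRadius ℂ (A.map ((↑) : ℝ → ℂ)) = (‖(r : ℂ)‖₊ : ℝ≥0∞) := by
      unfold spectralRadius
      apply le_antisymm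
      · refine iSup₂_le fun k hk => ?_
        rw [pfe_mem_spectrum] at hk
        obtain ⟨z, hz, hzk⟩ := hk
        rw [ENNReal.coe_le_coe, ← NNReal.coe_le_coe, coe_nnnorm, coe_nnnorm, Complex.norm_real,
          Real.norm_of_nonneg hr]
        apply hle ‖k‖ (fun a => ‖z a‖) (norm_nonneg _) (fun a => norm_nonneg _)
        · intro h
          apply hz
          funext a
          exact norm_eq_zero.1 (congrFun h a)
        · intro a
          have h2 : ∑ b, (A a b : ℂ) * z b = k * z a := congrFun hzk a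
          rw [← norm_mul, ← h2]
          refine (norm_sum_le _ _).trans (le_of_eq (Finset.sum_congr rfl fun b _ => ?_))
          rw [norm_mul, Complex.norm_real, Real.norm_of_nonneg (hA a b)]
      · have h3 : (r : ℂ) ∈ spectrum ℂ (A.map ((↑) : ℝ → ℂ)) := by
          rw [pfe_mem_spectrum]
          refine ⟨fun a => (x a : ℂ), ?_, ?_⟩
          · intro h
            apply hx0
            funext a
            exact Complex.ofReal_eq_zero.1 (congrFun h a)
          · funext a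
            have h4 : ∑ b, A a b * x b = r * x a := congrFun hAx a
            show ∑ b, (A a b : ℂ) * (x b : ℂ) = (r : ℂ) * (x a : ℂ)
            exact_mod_cast congrArg ((↑) : ℝ → ℂ) h4
        exact le_iSup₂_of_le (r : ℂ) h3 le_rfl
    rw [h1, ENNReal.coe_toReal, coe_nnnorm, Complex.norm_real, Real.norm_of_nonneg hr]
  refine ⟨x, hxpos, fun a => ?_⟩
  rw [hrad]
  exact congrFun hAx a

end PF

end Pool.Agent.BW
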