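import Pool.Agent.Lib.MP_276d40_pr.LLN

open MeasureTheory ProbabilityTheory Filter Topology Finset
open scoped ENNReal NNReal

set_option linter.unusedSectionVars false
set_option linter.unusedVariables false

namespace Pool.Agent.BW

section GW

variable {Q : Type} [Fintype Q] [DecidableEq Q] {q : Q → Measure (Q → ℕ)} {ρ : ℝ} {e l : Q → ℝ}

private theorem isProb_mgw (H : MGWHyp q ρ e l) (b : Q) : IsProbabilityMeasure (mgw q b) := by
  have : ∀ v, IsProbabilityMeasure (q (typ b v)) := fun v => H.prob _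
  unfold mgw
  infer_instance

/-- the truncated functional -/
private noncomputable def tr (Y : Q → Env Q → ℝ) (M : ℕ) (b : Q) (ω : Env Q) : ℝ :=
  min (Y b ω) M

private theorem tr_measurable {Y : Q → Env Q → ℝ} (hm : ∀ b, Measurable (Y b)) (M : ℕ) (b : Q) :
    Measurable (tr Y M b) :=
  (hm b).min measurable_const

private theorem tr_nonneg {Y : Q → Env Q → ℝ} (h0 : ∀ b ω, 0 ≤ Y b ω) (M : ℕ) (b : Q)
    (ω : Env Q) : 0 ≤ tr Y M b ω :=
  le_min (h0 b ω) (Nat.cast_nonneg M)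

private theorem tr_memLp (H : MGWHyp q ρ e l) {Y : Q → Env Q → ℝ} (hm : ∀ b, Measurable (Y b))
    (h0 : ∀ b ω, 0 ≤ Y b ω) (M : ℕ) (b : Q) : MemLp (tr Y M b) 2 (mgw q b) := by
  have := isProb_mgw H b
  refine MemLp.of_bound (tr_measurable hm M b).aestronglyMeasurable (M : ℝ) ?_
  refine Eventually.of_forall fun ω => ?_
  rw [Real.norm_eq_abs, abs_of_nonneg (tr_nonneg h0 M b ω)]
  exact min_le_right _ _

private theorem NY_memLp (H : MGWHyp q ρ e l) {Y : Q → Env Q → ℝ} (hm : ∀ b, Measurable (Y b))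
    (h2 : ∀ b, MemLp (Y b) 2 (mgw q b)) (k : ℕ) (b : Q) : MemLp (NY ρ Y k b) 2 (mgw q b) := by
  have h : NY ρ Y k b = fun ω => (ρ ^ k)⁻¹ * (Tb^[k] Y) b ω := by
    funext ω
    exact NY_eq ρ Y k b ω
  rw [h]
  exact (Tb_iter_memLp H hm h2 k b).const_mul _

private theorem lim_tr (H : MGWHyp q ρ e l) {Y : Q → Env Q → ℝ} (hm : ∀ b, Measurable (Y b))
    (h0 : ∀ b ω, 0 ≤ Y b ω) (hi : ∀ b, Integrable (Y b) (mgw q b)) :
    Tendsto (fun M : ℕ => ∑ b, l b * ∫ ω, |Y b ω - tr Y M b ω| ∂mgw q b) atTop (𝓝 0) := by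
  have h1 : ∀ b : Q, Tendsto (fun M : ℕ => ∫ ω, |Y b ω - tr Y M b ω| ∂mgw q b) atTop (𝓝 0) := by
    intro b
    have := isProb_mgw H b
    have h2 : Tendsto (fun M : ℕ => ∫ ω, |Y b ω - tr Y M b ω| ∂mgw q b) atTop
        (𝓝 (∫ ω, (0 : ℝ) ∂mgw q b)) := by
      refine tendsto_integral_of_dominated_convergence (fun ω => |Y b ω|) ?_ (hi b).abs ?_ ?_
      · intro M
        exact (measurable_norm.comp ((hm b).sub (tr_measurable hm M b))).aestronglyMeasurable
      · intro M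
        refine Eventually.of_forall fun ω => ?_
        rw [Real.norm_eq_abs, abs_abs, abs_of_nonneg (h0 b ω), abs_of_nonneg
          (sub_nonneg.2 (min_le_left _ _))]
        linarith [tr_nonneg h0 M b ω]
      · refine Eventually.of_forall fun ω => ?_
        refine tendsto_const_nhds.congr' ?_
        filter_upwards [eventually_ge_atTop ⌈Y b ω⌉₊] with M hM
        have h3 : Y b ω ≤ M := (Nat.le_ceil _).trans (by exact_mod_cast hM)
        rw [tr, min_eq_left h3, sub_self, abs_zero]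
    simpa using h2
  have h3 := tendsto_finsetSum (Finset.univ : Finset Q) fun b _ => (h1 b).const_mul (l b)
  simpa using h3

private theorem const_tr (H : MGWHyp q ρ e l) {Y : Q → Env Q → ℝ} (hm : ∀ b, Measurable (Y b))
    (h0 : ∀ b ω, 0 ≤ Y b ω) (hi : ∀ b, Integrable (Y b) (mgw q b)) (M : ℕ) :
    |(∑ b, l b * ∫ ω, tr Y M b ω ∂mgw q b) - ∑ b, l b * ∫ ω, Y b ω ∂mgw q b| ≤
      ∑ b, l b * ∫ ω, |Y b ω - tr Y M b ω| ∂mgw q b := by
  rw [← Finset.sum_sub_distrib]
  refine (Finset.abs_sum_le_sum_abs _ _).trans (Finset.sum_le_sum fun b _ => ?_)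
  have := isProb_mgw H b
  rw [← mul_sub, abs_mul, abs_of_pos (H.l_pos b), abs_sub_comm]
  refine mul_le_mul_of_nonneg_left ?_ (H.l_pos b).le
  rw [← integral_sub (hi b) ((tr_memLp H hm h0 M b).integrable (by norm_num))]
  exact abs_integral_le_integral_abs

theorem reg_of_integrable (H : MGWHyp q ρ e l) {Y : Q → Env Q → ℝ} (hm : ∀ b, Measurable (Y b))
    (h0 : ∀ b ω, 0 ≤ Y b ω) (hi : ∀ b, Integrable (Y b) (mgw q b)) (a : Q) :
    ∀ᵐ ω ∂mgw q a, Reg (chE ω) ρ (lift a (Wf ρ e) ω) (lift a Y ω)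
      (∑ b, l b * ∫ ω', Y b ω' ∂mgw q b) := by
  set c := ∑ b, l b * ∫ ω', Y b ω' ∂mgw q b with hc
  have hρ : 0 ≤ ρ := (zero_lt_one.trans H.one_lt).le
  have hW0 : ∀ b ω, 0 ≤ Wf ρ e b ω := Wf_nonneg hρ fun b => (H.e_pos b).le
  have hint : ∀ M b, Integrable (tr Y M b) (mgw q b) := fun M b =>
    have := isProb_mgw H b
    (tr_memLp H hm h0 M b).integrable (by norm_num)
  have hNYi : ∀ M K b, Integrable (NY ρ (tr Y M) K b) (mgw q b) := fun M K b =>
    have := isProb_mgw H b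
    (NY_memLp H (tr_measurable hm M) (tr_memLp H hm h0 M) K b).integrable (by norm_num)
  have hWi : ∀ b, Integrable (Wf ρ e b) (mgw q b) := fun b =>
    have := isProb_mgw H b
    (memLp_Wf H b).integrable (by norm_num)
  -- the three functionals
  have h1 : ∀ᵐ ω ∂mgw q a, ∀ M : ℕ, Tendsto (fun k => NY ρ (fun b ω => |Y b ω - tr Y M b ω|) k a ω)
      atTop (𝓝 ((∑ b, l b * ∫ ω', |Y b ω' - tr Y M b ω'| ∂mgw q b) * Wf ρ e a ω)) := by
    rw [ae_all_iff]
    intro M
    refine lln H (Y := fun b ω => |Y b ω - tr Y M b ω|) ?_ ?_ a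
    · intro b
      exact measurable_norm.comp ((hm b).sub (tr_measurable hm M b))
    · intro b
      exact ((hi b).sub (hint M b)).abs
  have h2 : ∀ᵐ ω ∂mgw q a, ∀ M K : ℕ, Tendsto (fun k => NY ρ (fun b ω =>
      (∑ j ∈ range K, NY ρ (tr Y M) j b ω) ^ 2) k a ω) atTop
      (𝓝 ((∑ b, l b * ∫ ω', (∑ j ∈ range K, NY ρ (tr Y M) j b ω') ^ 2 ∂mgw q b)
        * Wf ρ e a ω)) := by
    rw [ae_all_iff]
    intro M
    rw [ae_all_iff]
    intro K
    refine lln H (Y := fun b ω => (∑ j ∈ range K, NY ρ (tr Y M) j b ω) ^ 2) ?_ ?_ a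
    · intro b
      exact (Finset.measurable_sum _ fun j _ => measurable_NY (tr_measurable hm M) j b).pow_const 2
    · intro b
      exact (memLp_finsetSum (range K) fun j _ =>
        NY_memLp H (tr_measurable hm M) (tr_memLp H hm h0 M) j b).integrable_sq
  have h3 : ∀ᵐ ω ∂mgw q a, ∀ M K : ℕ, Tendsto (fun k => NY ρ (fun b ω =>
      |NY ρ (tr Y M) K b ω - c * Wf ρ e b ω|) k a ω) atTop
      (𝓝 ((∑ b, l b * ∫ ω', |NY ρ (tr Y M) K b ω' - c * Wf ρ e b ω'| ∂mgw q b)
        * Wf ρ e a ω)) := by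
    rw [ae_all_iff]
    intro M
    rw [ae_all_iff]
    intro K
    refine lln H (Y := fun b ω => |NY ρ (tr Y M) K b ω - c * Wf ρ e b ω|) ?_ ?_ a
    · intro b
      exact measurable_norm.comp ((measurable_NY (tr_measurable hm M) K b).sub
        ((measurable_Wf ρ e b).const_mul c))
    · intro b
      exact ((hNYi M K b).sub ((hWi b).const_mul c)).abs
  filter_upwards [h1, h2, h3] with ω g1 g2 g3
  set w := Wf ρ e a ω with hw
  have hw0 : 0 ≤ w := hW0 a ω
  intro ε hε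
  -- choice of `M`
  have hM := (lim_tr H hm h0 hi)
  have hM2 : ∀ᶠ M : ℕ in atTop,
      (∑ b, l b * ∫ ω, |Y b ω - tr Y M b ω| ∂mgw q b) * w < ε / 2 := by
    have h := hM.mul_const w
    rw [zero_mul] at h
    exact h.eventually_lt_const (half_pos hε)
  obtain ⟨M, hMε⟩ := hM2.exists
  set α := ∑ b, l b * ∫ ω, |Y b ω - tr Y M b ω| ∂mgw q b with hα
  set cM := ∑ b, l b * ∫ ω, tr Y M b ω ∂mgw q b with hcM
  have hcc : |cM - c| ≤ α := const_tr H hm h0 hi M
  -- choice of `K`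
  have hK : Tendsto (fun K => (∑ b, l b * ∫ ω', |NY ρ (tr Y M) K b ω' - cM * Wf ρ e b ω'|
      ∂mgw q b) * w) atTop (𝓝 0) := by
    have h := tendsto_finsetSum (Finset.univ : Finset Q) fun b _ =>
      (lln_L1 H (tr_measurable hm M) (tr_memLp H hm h0 M) b).const_mul (l b)
    simp only [mul_zero, Finset.sum_const_zero] at h
    have h' := h.mul_const w
    rwa [zero_mul] at h'
  obtain ⟨K, hKε⟩ := (hK.eventually_lt_const (half_pos hε)).exists
  refine ⟨lift a (tr Y M) ω, fun v => tr_nonneg h0 M _ _, K, ?_, ?_, ?_⟩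
  · have h := (g1 M).eventually_lt_const (show α * w < ε by linarith)
    filter_upwards [h] with k hk
    exact hk.le
  · obtain ⟨C, hC⟩ := (g2 M K).bddAbove_range
    refine ⟨C, fun k => ?_⟩
    have h := hC (Set.mem_range_self k)
    refine le_trans (le_of_eq ?_) h
    refine mu_congr fun v _ => ?_
    simp only [Fj_lift]
    rfl
  · have hb : ∀ b : Q, ∫ ω', |NY ρ (tr Y M) K b ω' - c * Wf ρ e b ω'| ∂mgw q b ≤
        ∫ ω', |NY ρ (tr Y M) K b ω' - cM * Wf ρ e b ω'| ∂mgw q b + α * e b := by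
      intro b
      have := isProb_mgw H b
      have h4 : ∫ ω', |NY ρ (tr Y M) K b ω' - cM * Wf ρ e b ω'| ∂mgw q b + α * e b =
          ∫ ω', (|NY ρ (tr Y M) K b ω' - cM * Wf ρ e b ω'| + α * Wf ρ e b ω') ∂mgw q b := by
        have h7 : Integrable (fun ω' => |NY ρ (tr Y M) K b ω' - cM * Wf ρ e b ω'|) (mgw q b) :=
          ((hNYi M K b).sub ((hWi b).const_mul cM)).abs
        rw [integral_add h7 ((hWi b).const_mul α), integral_const_mul, integral_Wf H b]
      rw [h4]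
      refine integral_mono ((hNYi M K b).sub ((hWi b).const_mul c)).abs
        (((hNYi M K b).sub ((hWi b).const_mul cM)).abs.add ((hWi b).const_mul α)) fun ω' => ?_
      have h5 : NY ρ (tr Y M) K b ω' - c * Wf ρ e b ω' =
          (NY ρ (tr Y M) K b ω' - cM * Wf ρ e b ω') + (cM - c) * Wf ρ e b ω' := by ring
      calc |NY ρ (tr Y M) K b ω' - c * Wf ρ e b ω'|
          ≤ |NY ρ (tr Y M) K b ω' - cM * Wf ρ e b ω'| + |(cM - c) * Wf ρ e b ω'| := by
            rw [h5]; exact abs_add_le _ _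
        _ ≤ _ := by
            gcongr
            rw [abs_mul, abs_of_nonneg (hW0 b ω')]
            exact mul_le_mul_of_nonneg_right hcc (hW0 b ω')
    have hlt : (∑ b, l b * ∫ ω', |NY ρ (tr Y M) K b ω' - c * Wf ρ e b ω'| ∂mgw q b) * w < ε := by
      have h6 : ∑ b, l b * ∫ ω', |NY ρ (tr Y M) K b ω' - c * Wf ρ e b ω'| ∂mgw q b ≤
          ∑ b, l b * ∫ ω', |NY ρ (tr Y M) K b ω' - cM * Wf ρ e b ω'| ∂mgw q b + α := by
        calc ∑ b, l b * ∫ ω', |NY ρ (tr Y M) K b ω' - c * Wf ρ e b ω'| ∂mgw q b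
            ≤ ∑ b, l b * (∫ ω', |NY ρ (tr Y M) K b ω' - cM * Wf ρ e b ω'| ∂mgw q b
                + α * e b) :=
              Finset.sum_le_sum fun b _ => mul_le_mul_of_nonneg_left (hb b) (H.l_pos b).le
          _ = ∑ b, l b * ∫ ω', |NY ρ (tr Y M) K b ω' - cM * Wf ρ e b ω'| ∂mgw q b
                + α * ∑ b, l b * e b := by
              rw [Finset.mul_sum, ← Finset.sum_add_distrib]
              exact Finset.sum_congr rfl fun b _ => by ring
          _ = _ := by rw [H.le_one, mul_one]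
      calc (∑ b, l b * ∫ ω', |NY ρ (tr Y M) K b ω' - c * Wf ρ e b ω'| ∂mgw q b) * w
          ≤ (∑ b, l b * ∫ ω', |NY ρ (tr Y M) K b ω' - cM * Wf ρ e b ω'| ∂mgw q b + α) * w :=
            mul_le_mul_of_nonneg_right h6 hw0
        _ < ε := by rw [add_mul]; linarith
    have h := (g3 M K).eventually_lt_const hlt
    filter_upwards [h] with k hk
    refine le_trans (le_of_eq ?_) hk.le
    refine mu_congr fun v _ => ?_
    simp only [Fj_lift]
    rfl

end GW

end Pool.Agent.BW
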