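import Pool.Agent.Lib.MP_276d40_pr.MuBasic

/-!
# Subtrees of Galton-Watson trees: measurability and laws
-/

open MeasureTheory ProbabilityTheory Filter Topology Finset
open scoped ENNReal NNReal

set_option linter.unusedSectionVars false
set_option linter.unusedVariables false

namespace Pool.Agent.BW

section General

variable {ι κ X : Type*} [MeasurableSpace X] (μ : ι → Measure X)
  [hμ : ∀ i, IsProbabilityMeasure (μ i)]

/-- the law of a subfamily of the coordinates, together with one more coordinate -/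
private theorem infinitePi_box (f : κ → ι) (hf : Function.Injective f) (i₀ : ι)
    (hi₀ : ∀ k, f k ≠ i₀) (s : Set X) (hs : MeasurableSet s) (S : Finset κ) (t : κ → Set X)
    (ht : ∀ k, MeasurableSet (t k)) :
    Measure.infinitePi μ {x | x i₀ ∈ s ∧ ∀ k ∈ S, x (f k) ∈ t k} =
      μ i₀ s * ∏ k ∈ S, μ (f k) (t k) := by
  classical
  let t' : ι → Set X := fun i =>
    if h : ∃ k, f k = i then t h.choose else if i = i₀ then s else Set.univ
  have h1 : ∀ k, t' (f k) = t k := by
    intro k
    have h : ∃ k', f k' = f k := ⟨k, rfl⟩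
    show (if h : ∃ k', f k' = f k then t h.choose else _) = t k
    rw [dif_pos h, hf h.choose_spec]
  have h2 : t' i₀ = s := by
    have h : ¬ ∃ k, f k = i₀ := fun ⟨k, hk⟩ => hi₀ k hk
    show (if h : ∃ k', f k' = i₀ then t h.choose else if i₀ = i₀ then s else Set.univ) = s
    rw [dif_neg h, if_pos rfl]
  have h3 : ∀ i, MeasurableSet (t' i) := by
    intro i
    show MeasurableSet (if h : ∃ k', f k' = i then t h.choose else
      if i = i₀ then s else Set.univ)
    split_ifs
    · exact ht _
    · exact hs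
    · exact MeasurableSet.univ
  have hnot : i₀ ∉ S.image f := by
    intro h
    obtain ⟨k, -, hk⟩ := Finset.mem_image.1 h
    exact hi₀ k hk
  have h4 : {x : ι → X | x i₀ ∈ s ∧ ∀ k ∈ S, x (f k) ∈ t k} =
      Set.pi (↑(insert i₀ (S.image f)) : Set ι) t' := by
    ext x
    simp only [Set.mem_ofPred_eq, Set.mem_pi, Finset.mem_coe, Finset.mem_insert,
      Finset.mem_image, forall_eq_or_imp, forall_exists_index, and_imp,
      forall_apply_eq_imp_iff₂, h2, h1]
  rw [h4, Measure.infinitePi_pi μ (fun i _ => h3 i), Finset.prod_insert hnot,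
    Finset.prod_image (fun k _ k' _ h => hf h), h2]
  simp only [h1]

private theorem infinitePi_map_inj (f : κ → ι) (hf : Function.Injective f) :
    (Measure.infinitePi μ).map (fun x k => x (f k)) = Measure.infinitePi (fun k => μ (f k)) := by
  classical
  refine Measure.eq_infinitePi _ fun S t ht => ?_
  rw [Measure.map_apply (by fun_prop) (.pi S.countable_toSet fun _ _ => ht _)]
  let t' : ι → Set X := fun i => if h : ∃ k, f k = i then t h.choose else Set.univ
  have h1 : ∀ k, t' (f k) = t k := by
    intro k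
    have h : ∃ k', f k' = f k := ⟨k, rfl⟩
    show (if h : ∃ k', f k' = f k then t h.choose else _) = t k
    rw [dif_pos h, hf h.choose_spec]
  have h3 : ∀ i, MeasurableSet (t' i) := by
    intro i
    show MeasurableSet (if h : ∃ k', f k' = i then t h.choose else Set.univ)
    split_ifs
    · exact ht _
    · exact MeasurableSet.univ
  have h4 : (fun (x : ι → X) k => x (f k)) ⁻¹' (Set.pi (↑S : Set κ) t) =
      Set.pi (↑(S.image f) : Set ι) t' := by
    ext x
    simp only [Set.mem_preimage, Set.mem_pi, Finset.mem_coe, Finset.mem_image,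
      forall_exists_index, and_imp, forall_apply_eq_imp_iff₂, h1]
  rw [h4, Measure.infinitePi_pi μ (fun i _ => h3 i), Finset.prod_image (fun k _ k' _ h => hf h)]
  simp only [h1]

private theorem infinitePi_map_prod (f : κ → ι) (hf : Function.Injective f) (i₀ : ι)
    (hi₀ : ∀ k, f k ≠ i₀) :
    (Measure.infinitePi μ).map (fun x => (x i₀, fun k => x (f k))) =
      (μ i₀).prod (Measure.infinitePi (fun k => μ (f k))) := by
  symm
  refine Measure.prod_eq fun s t hs ht => ?_
  by_cases h0 : μ i₀ s = 0
  · rw [h0, zero_mul, Measure.map_apply (by fun_prop) (hs.prod ht)]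
    refine measure_mono_null (t := Function.eval i₀ ⁻¹' s) ?_ ?_
    · intro x hx
      exact hx.1
    · rw [(measurePreserving_eval_infinitePi μ i₀).measure_preimage hs.nullMeasurableSet]
      exact h0
  have hfin : μ i₀ s ≠ ∞ := measure_ne_top _ _
  have hev : MeasurableSet (Function.eval i₀ ⁻¹' s : Set (ι → X)) :=
    measurable_pi_apply i₀ hs
  have hmf : Measurable (fun (x : ι → X) k => x (f k)) := by fun_prop
  have key : (μ i₀ s)⁻¹ • ((Measure.infinitePi μ).restrict
      (Function.eval i₀ ⁻¹' s)).map (fun x k => x (f k)) =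
      Measure.infinitePi (fun k => μ (f k)) := by
    refine Measure.eq_infinitePi _ fun S T hT => ?_
    have hm : MeasurableSet (Set.pi (↑S : Set κ) T) := .pi S.countable_toSet fun _ _ => hT _
    rw [Measure.smul_apply, Measure.map_apply hmf hm, Measure.restrict_apply (hmf hm)]
    have h5 : (fun (x : ι → X) k => x (f k)) ⁻¹' Set.pi (↑S : Set κ) T ∩
        Function.eval i₀ ⁻¹' s = {x | x i₀ ∈ s ∧ ∀ k ∈ S, x (f k) ∈ T k} := by
      ext x
      simp only [Set.mem_inter_iff, Set.mem_preimage, Set.mem_pi, Finset.mem_coe,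
        Function.eval, Set.mem_ofPred_eq]
      exact and_comm
    rw [h5, infinitePi_box μ f hf i₀ hi₀ s hs S T hT, smul_eq_mul, ← mul_assoc,
      ENNReal.inv_mul_cancel h0 hfin, one_mul]
  rw [← key, Measure.smul_apply, Measure.map_apply hmf ht, Measure.restrict_apply (hmf ht),
    Measure.map_apply (by fun_prop) (hs.prod ht), smul_eq_mul, ← mul_assoc,
    ENNReal.mul_inv_cancel h0 hfin, one_mul]
  congr 1
  ext x
  exact and_comm

end General

section GW

variable {Q : Type} [Fintype Q] [DecidableEq Q] {q : Q → Measure (Q → ℕ)} {ρ : ℝ} {e l : Q → ℝ}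

theorem measurable_sub (v : List (Q × ℕ)) : Measurable (fun ω : Env Q => sub ω v) := by
  unfold sub
  fun_prop

theorem map_sub (hq : ∀ b, IsProbabilityMeasure (q b)) (a : Q) (v : List (Q × ℕ)) :
    MeasurePreserving (fun ω : Env Q => sub ω v) (mgw q a) (mgw q (typ a v)) := by
  refine ⟨measurable_sub v, ?_⟩
  have h := infinitePi_map_inj (fun u : List (Q × ℕ) => q (typ a u)) (fun u => u ++ v)
    (List.append_left_injective v)
  simp only [typ_append] at h
  exact h

theorem ae_sub (hq : ∀ b, IsProbabilityMeasure (q b)) {p : Q → Env Q → Prop}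
    (h : ∀ b, ∀ᵐ ω ∂mgw q b, p b ω) (a : Q) : ∀ᵐ ω ∂mgw q a, ∀ v, p (typ a v) (sub ω v) := by
  rw [ae_all_iff]
  intro v
  exact (map_sub hq a v).quasiMeasurePreserving.ae (h (typ a v))

theorem map_decomp (hq : ∀ b, IsProbabilityMeasure (q b)) (a : Q) :
    MeasurePreserving (fun ω : Env Q => (ω [], fun i : Q × ℕ => sub ω [i])) (mgw q a)
      ((q a).prod (Measure.infinitePi fun i : Q × ℕ => mgw q i.1)) := by
  have hm2 : Measurable (fun ω : Env Q => fun i : Q × ℕ => sub ω [i]) :=
    measurable_pi_iff.2 fun i => measurable_sub [i]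
  refine ⟨(measurable_pi_apply _).prodMk hm2, ?_⟩
  -- the flattened index set
  have h1 := infinitePi_map_prod (fun u : List (Q × ℕ) => q (typ a u))
    (fun p : (Q × ℕ) × List (Q × ℕ) => p.2 ++ [p.1])
    (by
      rintro ⟨i, u⟩ ⟨j, w⟩ h
      have h' := List.append_inj' h rfl
      simp only [List.cons.injEq, and_true] at h'
      rw [h'.1, h'.2]) []
    (by
      intro p h
      simp at h)
  have h2 : (fun p : (Q × ℕ) × List (Q × ℕ) => q (typ a (p.2 ++ [p.1]))) =
      fun p => q (typ p.1.1 p.2) := by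
    funext p
    rw [typ_append, typ_cons]
  rw [h2] at h1
  have h3 := Measure.infinitePi_map_curry
    (fun (i : Q × ℕ) (u : List (Q × ℕ)) => q (typ i.1 u))
  have hc : Measurable (MeasurableEquiv.curry (Q × ℕ) (List (Q × ℕ)) (Q → ℕ)) :=
    MeasurableEquiv.measurable _
  have h4 : (fun ω : Env Q => (ω [], fun i : Q × ℕ => sub ω [i])) =
      (Prod.map id (MeasurableEquiv.curry (Q × ℕ) (List (Q × ℕ)) (Q → ℕ))) ∘
      (fun x : Env Q => (x [], fun k : (Q × ℕ) × List (Q × ℕ) => x (k.2 ++ [k.1]))) := by
    funext ω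
    rfl
  rw [h4, ← Measure.map_map (measurable_id.prodMap hc) (by fun_prop), mgw, h1,
    ← Measure.map_prod_map _ _ measurable_id hc, h3, Measure.map_id]
  rfl

theorem measurable_Tb {Φ : Q → Env Q → ℝ} (h : ∀ b, Measurable (Φ b)) (a : Q) :
    Measurable (Tb Φ a) := by
  have h1 : Tb Φ a = fun ω => ∑ b, ∑ n ∈ range (ω [] b), Φ b (sub ω [(b, n)]) := by
    funext ω
    rw [Tb, chE, sum_chX]
  rw [h1]
  refine Finset.measurable_sum _ fun b _ => ?_
  have h2 : Measurable (fun p : ℕ × Env Q => ∑ n ∈ range p.1, Φ b (sub p.2 [(b, n)])) := by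
    refine measurable_from_prod_countable_right fun m => ?_
    show Measurable fun y : Env Q => ∑ n ∈ range m, Φ b (sub y [(b, n)])
    exact Finset.measurable_sum _ fun n _ => (h b).comp (measurable_sub [(b, n)])
  have h3 : Measurable (fun ω : Env Q => (ω [] b, ω)) :=
    Measurable.prodMk (f := fun ω : Env Q => ω [] b) (g := fun ω : Env Q => ω)
      ((measurable_pi_apply b).comp (measurable_pi_apply [])) measurable_id
  exact h2.comp h3

theorem measurable_Tb_iter {Φ : Q → Env Q → ℝ} (h : ∀ b, Measurable (Φ b)) (k : ℕ) (a : Q) :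
    Measurable (Tb^[k] Φ a) := by
  induction k generalizing a with
  | zero => exact h a
  | succ k ih =>
    rw [Function.iterate_succ_apply']
    exact measurable_Tb ih a

theorem measurable_NY {Y : Q → Env Q → ℝ} (h : ∀ b, Measurable (Y b)) (k : ℕ) (a : Q) :
    Measurable (NY ρ Y k a) := by
  have h1 : NY ρ Y k a = fun ω => (ρ ^ k)⁻¹ * (Tb^[k] Y) a ω := funext fun ω => NY_eq ρ Y k a ω
  rw [h1]
  exact (measurable_Tb_iter h k a).const_mul _

end GW

end Pool.Agent.BW
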