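import Pool.Agent.Lib.MP_276d40_pr.MuPs
import Pool.Agent.Lib.MP_276d40_pr.LLN

open MeasureTheory ProbabilityTheory Filter Topology Finset
open scoped ENNReal NNReal

set_option linter.unusedSectionVars false
set_option linter.unusedVariables false

namespace Pool.Agent.BW

section Det

variable {I : Type} [DecidableEq I] {ch : List I → Finset I} {ρ : ℝ} {W : List I → ℝ}

private theorem spatW_abs_Fj (hρ : 0 ≤ ρ) (f : List I → ℝ) (m : ℕ) (v : List I) :
    |Fj ch ρ f m v| ≤ Fj ch ρ (fun u => |f u|) m v := by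
  rw [abs_le]
  constructor
  · have h := Fj_mono (ch := ch) hρ (f := fun u => (-1 : ℝ) * |f u|) (g := f)
      (fun u => by rw [neg_one_mul]; exact neg_abs_le _) m v
    rw [Fj_const_mul] at h
    linarith
  · exact Fj_mono hρ (fun u => le_abs_self _) m v

private theorem spatW_sum_le {x : ℕ → ℝ} (hx : ∀ k, 0 ≤ x k) {ε : ℝ} (hε : 0 ≤ ε)
    (h : ∀ᶠ k in atTop, x k ≤ ε) : ∃ C, ∀ k : ℕ, ∑ i ∈ Ico 1 (k + 1), x i ≤ C + ε * k := by
  obtain ⟨N, hN⟩ := eventually_atTop.1 h
  refine ⟨∑ i ∈ range N, x i, fun k => ?_⟩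
  have h1 : ∀ i, x i ≤ (if i < N then x i else 0) + ε := by
    intro i
    by_cases hi : i < N
    · simp [hi, hε]
    · simp [hi, hN i (not_lt.1 hi)]
  calc ∑ i ∈ Ico 1 (k + 1), x i ≤ ∑ i ∈ Ico 1 (k + 1), ((if i < N then x i else 0) + ε) :=
        Finset.sum_le_sum fun i _ => h1 i
    _ = ∑ i ∈ Ico 1 (k + 1), (if i < N then x i else 0) + ε * k := by
        rw [Finset.sum_add_distrib, Finset.sum_const, Nat.card_Ico, nsmul_eq_mul]
        simp [mul_comm]
    _ ≤ ∑ i ∈ range N, x i + ε * k := by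
        gcongr
        rw [← Finset.sum_filter]
        refine Finset.sum_le_sum_of_subset_of_nonneg ?_ fun i _ _ => hx i
        intro i hi
        rw [Finset.mem_filter] at hi
        exact Finset.mem_range.2 hi.2

private theorem spatW_small (hρ : 0 < ρ) (hflow : ∀ v, ρ * W v = Up ch W v)
    (hW : ∀ v, 0 ≤ W v) {g : List I → ℝ} {B : ℝ} (hB : ∀ v, |g v| ≤ B) (m : ℕ) (v : List I) :
    |Fj ch ρ (fun u => g u * W u) m v| ≤ B * W v := by
  refine (spatW_abs_Fj hρ.le _ m v).trans ?_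
  have h2 := Fj_mono (ch := ch) hρ.le (f := fun u => |g u * W u|) (g := fun u => B * W u)
    (fun u => by
      show |g u * W u| ≤ B * W u
      rw [abs_mul, abs_of_nonneg (hW u)]
      exact mul_le_mul_of_nonneg_right (hB u) (hW u)) m v
  rw [Fj_const_mul, Fj_flow hρ.ne' hflow] at h2
  exact h2

/-- second moment bound -/
private theorem spatW_sq (hρ : 0 < ρ) (hflow : ∀ v, ρ * W v = Up ch W v) (hW : ∀ v, 0 ≤ W v)
    {g : List I → ℝ} {B : ℝ} (hB : ∀ v, |g v| ≤ B)
    (h : ∀ ε > 0, ∃ J : ℕ, ∃ Ys : List I → ℝ, (∀ v, 0 ≤ Ys v) ∧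
      (∀ m ≥ J, ∀ v, |Fj ch ρ (fun u => g u * W u) m v| ≤ Ys v) ∧
      ∀ᶠ k in atTop, mu ch ρ k Ys ≤ ε) :
    Tendsto (fun k : ℕ => mu ch ρ k (fun v => W v * ps g v ^ 2) / (k : ℝ) ^ 2) atTop (𝓝 0) := by
  have hB0 : 0 ≤ B := (abs_nonneg _).trans (hB [])
  have hρ' := hρ.ne'
  have hmuW : ∀ k, mu ch ρ k W = W [] := mu_flow hρ' hflow
  have hnn : ∀ k, 0 ≤ mu ch ρ k (fun v => W v * ps g v ^ 2) := fun k =>
    mu_nonneg hρ.le fun v _ => mul_nonneg (hW v) (sq_nonneg _)
  rw [Metric.tendsto_atTop]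
  intro ε hε
  obtain ⟨J, Ys, hY0, hYs, hev⟩ := h (ε / (8 * (B + 1))) (by positivity)
  obtain ⟨C, hC⟩ := spatW_sum_le (x := fun k => mu ch ρ k Ys)
    (fun k => mu_nonneg hρ.le fun v _ => hY0 v) (by positivity) hev
  -- bound
  have key : ∀ k : ℕ, mu ch ρ k (fun v => W v * ps g v ^ 2) ≤
      B ^ 2 * W [] * k + 2 * (J * B ^ 2 * W [] * k + B * k * (C + ε / (8 * (B + 1)) * k)) := by
    intro k
    rw [mu_W_ps_sq hρ' hflow]
    have h1 : ∑ j ∈ Ico 1 (k + 1), mu ch ρ j (fun v => g v ^ 2 * W v) ≤ B ^ 2 * W [] * k := by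
      calc ∑ j ∈ Ico 1 (k + 1), mu ch ρ j (fun v => g v ^ 2 * W v)
          ≤ ∑ j ∈ Ico 1 (k + 1), B ^ 2 * W [] := by
            refine Finset.sum_le_sum fun j _ => ?_
            rw [← hmuW j, ← mu_const_mul]
            refine mu_mono hρ.le fun v _ => ?_
            refine mul_le_mul_of_nonneg_right ?_ (hW v)
            rw [← sq_abs]
            exact pow_le_pow_left₀ (abs_nonneg _) (hB v) 2
        _ = B ^ 2 * W [] * k := by
            rw [Finset.sum_const, Nat.card_Ico, nsmul_eq_mul]; simp; ring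
    have hsmall : ∀ m v, |Fj ch ρ (fun u => g u * W u) m v| ≤ B * W v :=
      fun m v => spatW_small hρ hflow hW hB m v
    have h2 : ∀ i m, mu ch ρ i (fun v => g v * Fj ch ρ (fun u => g u * W u) m v) ≤
        (if m < J then B ^ 2 * W [] else 0) + B * mu ch ρ i Ys := by
      intro i m
      have hge : 0 ≤ B * mu ch ρ i Ys :=
        mul_nonneg hB0 (mu_nonneg hρ.le fun v _ => hY0 v)
      by_cases hm : m < J
      · rw [if_pos hm]
        have : mu ch ρ i (fun v => g v * Fj ch ρ (fun u => g u * W u) m v) ≤ B ^ 2 * W [] := by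
          rw [← hmuW i, ← mu_const_mul]
          refine mu_mono hρ.le fun v _ => ?_
          calc g v * Fj ch ρ (fun u => g u * W u) m v
              ≤ |g v * Fj ch ρ (fun u => g u * W u) m v| := le_abs_self _
            _ = |g v| * |Fj ch ρ (fun u => g u * W u) m v| := abs_mul _ _
            _ ≤ B * (B * W v) := mul_le_mul (hB v) (hsmall m v) (abs_nonneg _) hB0
            _ = B ^ 2 * W v := by ring
        linarith
      · rw [if_neg hm, zero_add, ← mu_const_mul]
        refine mu_mono hρ.le fun v _ => ?_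
        calc g v * Fj ch ρ (fun u => g u * W u) m v
            ≤ |g v * Fj ch ρ (fun u => g u * W u) m v| := le_abs_self _
          _ = |g v| * |Fj ch ρ (fun u => g u * W u) m v| := abs_mul _ _
          _ ≤ B * Ys v := mul_le_mul (hB v) (hYs m (not_lt.1 hm) v) (abs_nonneg _) hB0
    have h3 : ∀ i, ∑ m ∈ Ico 1 (k + 1 - i),
        mu ch ρ i (fun v => g v * Fj ch ρ (fun u => g u * W u) m v) ≤
        J * (B ^ 2 * W []) + k * (B * mu ch ρ i Ys) := by
      intro i
      have hge : 0 ≤ B * mu ch ρ i Ys :=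
        mul_nonneg hB0 (mu_nonneg hρ.le fun v _ => hY0 v)
      have hge2 : 0 ≤ B ^ 2 * W [] := mul_nonneg (sq_nonneg _) (hW _)
      calc ∑ m ∈ Ico 1 (k + 1 - i),
            mu ch ρ i (fun v => g v * Fj ch ρ (fun u => g u * W u) m v)
          ≤ ∑ m ∈ Ico 1 (k + 1 - i), ((if m < J then B ^ 2 * W [] else 0) + B * mu ch ρ i Ys) :=
            Finset.sum_le_sum fun m _ => h2 i m
        _ = ∑ m ∈ Ico 1 (k + 1 - i), (if m < J then B ^ 2 * W [] else 0) +
              ((k + 1 - i - 1 : ℕ) : ℝ) * (B * mu ch ρ i Ys) := by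
            rw [Finset.sum_add_distrib, Finset.sum_const, Nat.card_Ico, nsmul_eq_mul]
        _ ≤ J * (B ^ 2 * W []) + k * (B * mu ch ρ i Ys) := by
            refine add_le_add ?_ ?_
            · rw [← Finset.sum_filter, Finset.sum_const, nsmul_eq_mul]
              refine mul_le_mul_of_nonneg_right ?_ hge2
              have : ((Ico 1 (k + 1 - i)).filter fun m => m < J) ⊆ range J := by
                intro m hm
                rw [Finset.mem_filter] at hm
                exact Finset.mem_range.2 hm.2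
              have h4 := Finset.card_le_card this
              rw [Finset.card_range] at h4
              exact_mod_cast h4
            · refine mul_le_mul_of_nonneg_right ?_ hge
              exact_mod_cast (by omega : k + 1 - i - 1 ≤ k)
    have h4 : ∑ i ∈ Ico 1 (k + 1), ∑ m ∈ Ico 1 (k + 1 - i),
        mu ch ρ i (fun v => g v * Fj ch ρ (fun u => g u * W u) m v) ≤
        J * B ^ 2 * W [] * k + B * k * (C + ε / (8 * (B + 1)) * k) := by
      calc _ ≤ ∑ i ∈ Ico 1 (k + 1), (J * (B ^ 2 * W []) + k * (B * mu ch ρ i Ys)) :=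
            Finset.sum_le_sum fun i _ => h3 i
        _ = J * B ^ 2 * W [] * k + B * k * ∑ i ∈ Ico 1 (k + 1), mu ch ρ i Ys := by
            rw [Finset.sum_add_distrib, Finset.sum_const, Nat.card_Ico, nsmul_eq_mul,
              Finset.mul_sum]
            congr 1
            · simp; ring
            · exact Finset.sum_congr rfl fun i _ => by ring
        _ ≤ _ := by
            have := hC k
            have h5 : 0 ≤ B * (k : ℝ) := by positivity
            have := mul_le_mul_of_nonneg_left this h5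
            linarith
    linarith
  -- the leading coefficient is small
  have hlim : Tendsto (fun k : ℕ => (B ^ 2 * W [] + 2 * (J * B ^ 2 * W []) + 2 * B * C) *
      ((k : ℝ))⁻¹) atTop (𝓝 0) := by
    have := tendsto_inv_atTop_nhds_zero_nat (𝕜 := ℝ)
    have h := this.const_mul (B ^ 2 * W [] + 2 * (J * B ^ 2 * W []) + 2 * B * C)
    simpa using h
  obtain ⟨N, hN⟩ := eventually_atTop.1 (hlim.eventually (gt_mem_nhds (half_pos hε)))
  refine ⟨max N 1, fun k hk => ?_⟩
  have hk1 : 1 ≤ k := le_trans (le_max_right _ _) hk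
  have hkN := hN k (le_trans (le_max_left _ _) hk)
  have hkpos : (0 : ℝ) < k := by exact_mod_cast hk1
  rw [Real.dist_eq, sub_zero, abs_of_nonneg (div_nonneg (hnn k) (sq_nonneg _)),
    div_lt_iff₀ (by positivity)]
  refine (key k).trans_lt ?_
  have h5 : 2 * (B * (ε / (8 * (B + 1)))) ≤ ε / 4 := by
    rw [← mul_div_assoc, ← mul_div_assoc, div_le_div_iff₀ (by positivity) (by norm_num)]
    nlinarith
  have h6 : (B ^ 2 * W [] + 2 * (J * B ^ 2 * W []) + 2 * B * C) * k < ε / 2 * (k : ℝ) ^ 2 := by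
    have := mul_lt_mul_of_pos_right hkN (by positivity : (0 : ℝ) < (k : ℝ) ^ 2)
    have e : (B ^ 2 * W [] + 2 * (J * B ^ 2 * W []) + 2 * B * C) * ((k : ℝ))⁻¹ * (k : ℝ) ^ 2 =
      (B ^ 2 * W [] + 2 * (J * B ^ 2 * W []) + 2 * B * C) * k := by
      field_simp
    rwa [e] at this
  have h7 : 0 < (k : ℝ) ^ 2 := by positivity
  nlinarith

/-- first moment version -/
private theorem spatW_abs (hρ : 0 < ρ) (hflow : ∀ v, ρ * W v = Up ch W v) (hW : ∀ v, 0 ≤ W v)
    {g : List I → ℝ}
    (h : Tendsto (fun k : ℕ => mu ch ρ k (fun v => W v * ps g v ^ 2) / (k : ℝ) ^ 2)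
      atTop (𝓝 0)) :
    Tendsto (fun k : ℕ => mu ch ρ k (fun v => W v * |ps g v|) / k) atTop (𝓝 0) := by
  have hmuW : ∀ k, mu ch ρ k W = W [] := mu_flow hρ.ne' hflow
  have h1 : Tendsto (fun k : ℕ => √(W [] * (mu ch ρ k (fun v => W v * ps g v ^ 2) /
      (k : ℝ) ^ 2))) atTop (𝓝 0) := by
    have := (h.const_mul (W [])).sqrt
    simpa using this
  refine squeeze_zero (fun k => ?_) (fun k => ?_) h1
  · exact div_nonneg (mu_nonneg hρ.le fun v _ => mul_nonneg (hW v) (abs_nonneg _))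
      (Nat.cast_nonneg k)
  · apply Real.le_sqrt_of_sq_le
    have h2 := mu_weight_sq_le (ch := ch) hρ.le k (h := ps g) hW
    rw [hmuW] at h2
    rw [div_pow, ← mul_div_assoc]
    exact div_le_div_of_nonneg_right h2 (sq_nonneg _)

private theorem spatW_ps_sub (a b : List I → ℝ) (v : List I) :
    ps (fun u => a u - b u) v = ps a v - ps b v := by
  induction v with
  | nil => simp
  | cons i v ih => rw [ps_cons, ps_cons, ps_cons, ih]; ring

private theorem spatW_ps_const (c : ℝ) (v : List I) :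
    ps (fun _ => c) v = c * v.length := by
  induction v with
  | nil => simp
  | cons i v ih => rw [ps_cons, ih, List.length_cons]; push_cast; ring

/-- Cesàro -/
private theorem spatW_cesaro {x : ℕ → ℝ} {c : ℝ} (h : Tendsto x atTop (𝓝 c)) :
    Tendsto (fun k : ℕ => (∑ i ∈ Ico 1 (k + 1), x i) / k) atTop (𝓝 c) := by
  have h1 := (tendsto_add_atTop_iff_nat 1).2 h
  have h2 := h1.cesaro
  refine h2.congr fun k => ?_
  rw [Finset.sum_Ico_eq_sum_range, div_eq_inv_mul]
  simp [add_comm]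

end Det

section GW

variable {Q : Type} [Fintype Q] [DecidableEq Q] {q : Q → Measure (Q → ℕ)} {ρ : ℝ} {e l : Q → ℝ}

/-- `W min(W, M)` -/
private noncomputable def spV (ρ : ℝ) (e : Q → ℝ) (M : ℕ) (b : Q) (ω : Env Q) : ℝ :=
  Wf ρ e b ω * min (Wf ρ e b ω) M

/-- `W (W - min(W, M))` -/
private noncomputable def spR (ρ : ℝ) (e : Q → ℝ) (M : ℕ) (b : Q) (ω : Env Q) : ℝ :=
  (Wf ρ e b ω - min (Wf ρ e b ω) M) * Wf ρ e b ω

private noncomputable def spK (q : Q → Measure (Q → ℕ)) (ρ : ℝ) (e l : Q → ℝ) (M : ℕ) : ℝ :=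
  ∑ b, l b * ∫ ω', spV ρ e M b ω' ∂mgw q b

private noncomputable def spD (q : Q → Measure (Q → ℕ)) (ρ : ℝ) (e l : Q → ℝ) (M m : ℕ) (b : Q)
    (ω : Env Q) : ℝ :=
  min ((M + spK q ρ e l M) * Wf ρ e b ω)
    |NY ρ (spV ρ e M) m b ω - spK q ρ e l M * Wf ρ e b ω|

private noncomputable def spY (q : Q → Measure (Q → ℕ)) (ρ : ℝ) (e l : Q → ℝ) (M J : ℕ) (b : Q)
    (ω : Env Q) : ℝ :=
  ⨆ m : ℕ, spD q ρ e l M (J + m) b ω

private theorem spW_nonneg (H : MGWHyp q ρ e l) (b : Q) (ω : Env Q) : 0 ≤ Wf ρ e b ω :=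
  Wf_nonneg (by linarith [H.one_lt]) (fun b => (H.e_pos b).le) b ω

private theorem spV_nonneg (H : MGWHyp q ρ e l) (M : ℕ) (b : Q) (ω : Env Q) :
    0 ≤ spV ρ e M b ω :=
  mul_nonneg (spW_nonneg H b ω) (le_min (spW_nonneg H b ω) (Nat.cast_nonneg M))

private theorem spR_nonneg (H : MGWHyp q ρ e l) (M : ℕ) (b : Q) (ω : Env Q) :
    0 ≤ spR ρ e M b ω :=
  mul_nonneg (sub_nonneg.2 (min_le_left _ _)) (spW_nonneg H b ω)

private theorem spK_nonneg (H : MGWHyp q ρ e l) (M : ℕ) : 0 ≤ spK q ρ e l M :=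
  Finset.sum_nonneg fun b _ => mul_nonneg (H.l_pos b).le
    (integral_nonneg fun ω => spV_nonneg H M b ω)

private theorem spV_meas (M : ℕ) (b : Q) : Measurable (spV ρ e M b) :=
  (measurable_Wf ρ e b).mul ((measurable_Wf ρ e b).min measurable_const)

private theorem spR_meas (M : ℕ) (b : Q) : Measurable (spR ρ e M b) :=
  ((measurable_Wf ρ e b).sub ((measurable_Wf ρ e b).min measurable_const)).mul
    (measurable_Wf ρ e b)

private theorem spD_meas (M m : ℕ) (b : Q) : Measurable (spD q ρ e l M m b) :=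
  ((measurable_Wf ρ e b).const_mul _).min
    (((measurable_NY (fun b => spV_meas M b) m b).sub
      ((measurable_Wf ρ e b).const_mul _)).abs)

private theorem spY_meas (M J : ℕ) (b : Q) : Measurable (spY q ρ e l M J b) :=
  Measurable.iSup fun m => spD_meas M (J + m) b

private theorem spD_le (M m : ℕ) (b : Q) (ω : Env Q) :
    spD q ρ e l M m b ω ≤ (M + spK q ρ e l M) * Wf ρ e b ω := min_le_left _ _

private theorem spD_nonneg (H : MGWHyp q ρ e l) (M m : ℕ) (b : Q) (ω : Env Q) :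
    0 ≤ spD q ρ e l M m b ω :=
  le_min (mul_nonneg (add_nonneg (Nat.cast_nonneg M) (spK_nonneg H M)) (spW_nonneg H b ω))
    (abs_nonneg _)

private theorem spD_bdd (M J : ℕ) (b : Q) (ω : Env Q) :
    BddAbove (Set.range fun m : ℕ => spD q ρ e l M (J + m) b ω) :=
  ⟨_, by rintro _ ⟨m, rfl⟩; exact spD_le M (J + m) b ω⟩

private theorem spY_le (M J : ℕ) (b : Q) (ω : Env Q) :
    spY q ρ e l M J b ω ≤ (M + spK q ρ e l M) * Wf ρ e b ω :=
  ciSup_le fun m => spD_le M (J + m) b ω

private theorem spY_ge (M : ℕ) {J m : ℕ} (hm : J ≤ m) (b : Q) (ω : Env Q) :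
    spD q ρ e l M m b ω ≤ spY q ρ e l M J b ω := by
  obtain ⟨k, rfl⟩ := Nat.exists_eq_add_of_le hm
  exact le_ciSup (spD_bdd M J b ω) k

private theorem spY_nonneg (H : MGWHyp q ρ e l) (M J : ℕ) (b : Q) (ω : Env Q) :
    0 ≤ spY q ρ e l M J b ω := (spD_nonneg H M J b ω).trans (spY_ge M le_rfl b ω)

private theorem spW_int (H : MGWHyp q ρ e l) (b : Q) : Integrable (Wf ρ e b) (mgw q b) := by
  have := H.prob
  have : IsProbabilityMeasure (mgw q b) := by unfold mgw; infer_instance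
  exact (memLp_Wf H b).integrable (by norm_num)

private theorem spWsq_int (H : MGWHyp q ρ e l) (b : Q) :
    Integrable (fun ω => Wf ρ e b ω ^ 2) (mgw q b) := (memLp_Wf H b).integrable_sq

private theorem spV_int (H : MGWHyp q ρ e l) (M : ℕ) (b : Q) :
    Integrable (spV ρ e M b) (mgw q b) := by
  refine (spWsq_int H b).mono' (spV_meas M b).aestronglyMeasurable (ae_of_all _ fun ω => ?_)
  rw [Real.norm_of_nonneg (spV_nonneg H M b ω), spV, sq]
  exact mul_le_mul_of_nonneg_left (min_le_left _ _) (spW_nonneg H b ω)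

private theorem spR_int (H : MGWHyp q ρ e l) (M : ℕ) (b : Q) :
    Integrable (spR ρ e M b) (mgw q b) := by
  have h : spR ρ e M b = fun ω => Wf ρ e b ω ^ 2 - spV ρ e M b ω := by
    funext ω; rw [spR, spV]; ring
  rw [h]
  exact (spWsq_int H b).sub (spV_int H M b)

private theorem spR_integral (H : MGWHyp q ρ e l) (M : ℕ) :
    ∑ b, l b * ∫ ω', spR ρ e M b ω' ∂mgw q b =
      (∑ b, l b * ∫ ω', Wf ρ e b ω' ^ 2 ∂mgw q b) - spK q ρ e l M := by
  rw [spK, ← Finset.sum_sub_distrib]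
  refine Finset.sum_congr rfl fun b _ => ?_
  rw [← mul_sub, ← integral_sub (spWsq_int H b) (spV_int H M b)]
  congr 1
  refine integral_congr_ae (ae_of_all _ fun ω => ?_)
  show spR ρ e M b ω = Wf ρ e b ω ^ 2 - spV ρ e M b ω
  rw [spR, spV]; ring

private theorem spY_int (H : MGWHyp q ρ e l) (M J : ℕ) (b : Q) :
    Integrable (spY q ρ e l M J b) (mgw q b) := by
  refine ((spW_int H b).const_mul (M + spK q ρ e l M)).mono'
    (spY_meas M J b).aestronglyMeasurable (ae_of_all _ fun ω => ?_)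
  rw [Real.norm_of_nonneg (spY_nonneg H M J b ω)]
  exact spY_le M J b ω

private theorem spY_tendsto (H : MGWHyp q ρ e l) (M : ℕ) (b : Q) :
    ∀ᵐ ω ∂mgw q b, Tendsto (fun J => spY q ρ e l M J b ω) atTop (𝓝 0) := by
  filter_upwards [lln H (fun b => spV_meas M b) (fun b => spV_int H M b) b] with ω hω
  have h1 : Tendsto (fun m => spD q ρ e l M m b ω) atTop (𝓝 0) := by
    have h2 : Tendsto (fun m => |NY ρ (spV ρ e M) m b ω - spK q ρ e l M * Wf ρ e b ω|) atTop
        (𝓝 0) := by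
      have := (hω.sub_const (spK q ρ e l M * Wf ρ e b ω)).abs
      rwa [← spK, sub_self, abs_zero] at this
    exact squeeze_zero (fun m => spD_nonneg H M m b ω) (fun m => min_le_right _ _) h2
  rw [Metric.tendsto_atTop] at h1 ⊢
  intro ε hε
  obtain ⟨N, hN⟩ := h1 (ε / 2) (half_pos hε)
  refine ⟨N, fun J hJ => ?_⟩
  rw [Real.dist_eq, sub_zero, abs_of_nonneg (spY_nonneg H M J b ω)]
  refine lt_of_le_of_lt (ciSup_le fun m => ?_) (half_lt_self hε)
  have := hN (J + m) (by omega)
  rw [Real.dist_eq, sub_zero, abs_of_nonneg (spD_nonneg H M _ b ω)] at this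
  exact this.le

private theorem spY_integral (H : MGWHyp q ρ e l) (M : ℕ) :
    Tendsto (fun J => ∑ b, l b * ∫ ω', spY q ρ e l M J b ω' ∂mgw q b) atTop (𝓝 0) := by
  have h : ∀ b, Tendsto (fun J => l b * ∫ ω', spY q ρ e l M J b ω' ∂mgw q b) atTop
      (𝓝 (l b * 0)) := by
    intro b
    refine Tendsto.const_mul _ ?_
    have := tendsto_integral_of_dominated_convergence (μ := mgw q b)
      (F := fun J => spY q ρ e l M J b) (f := fun _ => (0 : ℝ))
      (fun ω => (M + spK q ρ e l M) * Wf ρ e b ω)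
      (fun J => (spY_meas M J b).aestronglyMeasurable)
      ((spW_int H b).const_mul _)
      (fun J => ae_of_all _ fun ω => by
        rw [Real.norm_of_nonneg (spY_nonneg H M J b ω)]
        exact spY_le M J b ω)
      (spY_tendsto H M b)
    simpa using this
  have h2 := tendsto_finsetSum (Finset.univ : Finset Q) fun b _ => h b
  simpa using h2

private theorem spK_tendsto (H : MGWHyp q ρ e l) :
    Tendsto (fun M => spK q ρ e l M) atTop
      (𝓝 (∑ b, l b * ∫ ω', Wf ρ e b ω' ^ 2 ∂mgw q b)) := by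
  unfold spK
  refine tendsto_finsetSum _ fun b _ => Tendsto.const_mul _ ?_
  refine tendsto_integral_of_dominated_convergence (fun ω => Wf ρ e b ω ^ 2)
    (fun M => (spV_meas M b).aestronglyMeasurable) (spWsq_int H b)
    (fun M => ae_of_all _ fun ω => ?_) (ae_of_all _ fun ω => ?_)
  · rw [Real.norm_of_nonneg (spV_nonneg H M b ω), spV, sq]
    exact mul_le_mul_of_nonneg_left (min_le_left _ _) (spW_nonneg H b ω)
  · obtain ⟨N, hN⟩ := exists_nat_ge (Wf ρ e b ω)
    refine tendsto_const_nhds.congr' ?_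
    filter_upwards [eventually_ge_atTop N] with M hM
    have : Wf ρ e b ω ≤ M := hN.trans (by exact_mod_cast hM)
    rw [spV, min_eq_left this, sq]

theorem spat_W (H : MGWHyp q ρ e l) (a : Q) : ∀ᵐ ω ∂mgw q a,
    Tendsto (fun k : ℕ => mu (chE ω) ρ k (fun v => lift a (Wf ρ e) ω v *
      |ps (lift a (Wf ρ e) ω) v - (∑ b, l b * ∫ ω', Wf ρ e b ω' ^ 2 ∂mgw q b) * k|) / k)
      atTop (𝓝 0) := by
  have hρ : 0 < ρ := by linarith [H.one_lt]
  have h1 : ∀ᵐ ω ∂mgw q a, ∀ M J : ℕ, Tendsto (fun k => NY ρ (spY q ρ e l M J) k a ω) atTop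
      (𝓝 ((∑ b, l b * ∫ ω', spY q ρ e l M J b ω' ∂mgw q b) * Wf ρ e a ω)) := by
    rw [ae_all_iff]
    intro M
    rw [ae_all_iff]
    intro J
    exact lln H (fun b => spY_meas M J b) (fun b => spY_int H M J b) a
  have h2 : ∀ᵐ ω ∂mgw q a, ∀ M : ℕ, Tendsto (fun k => NY ρ (spR ρ e M) k a ω) atTop
      (𝓝 ((∑ b, l b * ∫ ω', spR ρ e M b ω' ∂mgw q b) * Wf ρ e a ω)) := by
    rw [ae_all_iff]
    intro M
    exact lln H (fun b => spR_meas M b) (fun b => spR_int H M b) a
  filter_upwards [h1, h2, Wf_flow H a] with ω hω1 hω2 hflow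
  set κ : ℝ := ∑ b, l b * ∫ ω', Wf ρ e b ω' ^ 2 ∂mgw q b with hκ
  set W : List (Q × ℕ) → ℝ := lift a (Wf ρ e) ω with hWdef
  have hW : ∀ v, 0 ≤ W v := fun v => spW_nonneg H _ _
  have hWr : W [] = Wf ρ e a ω := lift_nil _ _ _
  have hmuW : ∀ k, mu (chE ω) ρ k W = W [] := mu_flow hρ.ne' hflow
  -- the truncated part
  have hA : ∀ M : ℕ, Tendsto (fun k : ℕ => mu (chE ω) ρ k (fun v => W v *
      |ps (fun u => min (W u) M - spK q ρ e l M) v|) / k) atTop (𝓝 0) := by
    intro M
    have hB : ∀ v, |min (W v) M - spK q ρ e l M| ≤ M + spK q ρ e l M := by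
      intro v
      have h3 : 0 ≤ min (W v) (M : ℝ) := le_min (hW v) (Nat.cast_nonneg M)
      have h4 : min (W v) (M : ℝ) ≤ M := min_le_right _ _
      have h5 := spK_nonneg H M
      rw [abs_le]; constructor <;> linarith
    refine spatW_abs hρ hflow hW (spatW_sq hρ hflow hW hB ?_)
    intro ε hε
    -- choose J
    have h3 : Tendsto (fun J => (∑ b, l b * ∫ ω', spY q ρ e l M J b ω' ∂mgw q b) *
        Wf ρ e a ω) atTop (𝓝 0) := by
      have := (spY_integral H M).mul_const (Wf ρ e a ω)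
      simpa using this
    obtain ⟨J, hJ⟩ := (h3.eventually (gt_mem_nhds hε)).exists
    refine ⟨J, lift a (spY q ρ e l M J) ω, fun v => spY_nonneg H M J _ _, ?_, ?_⟩
    · intro m hm v
      have h4 := spatW_small hρ hflow hW hB m v
      have h5 : Fj (chE ω) ρ (fun u => (min (W u) M - spK q ρ e l M) * W u) m v =
          lift a (NY ρ (spV ρ e M) m) ω v - spK q ρ e l M * W v := by
        rw [← Fj_lift]
        have h6 := Fj_flow hρ.ne' hflow m v
        have h7 : Fj (chE ω) ρ (fun u => (min (W u) M - spK q ρ e l M) * W u) m v =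
            Fj (chE ω) ρ (lift a (spV ρ e M) ω) m v -
              Fj (chE ω) ρ (fun u => spK q ρ e l M * W u) m v := by
          rw [Fj_eq_mu, Fj_eq_mu, Fj_eq_mu, ← mu_sub_fun]
          refine mu_congr fun u _ => ?_
          show (min (W (u ++ v)) M - spK q ρ e l M) * W (u ++ v) =
            spV ρ e M (typ a (u ++ v)) (sub ω (u ++ v)) - spK q ρ e l M * W (u ++ v)
          rw [spV]
          show (min (W (u ++ v)) M - spK q ρ e l M) * W (u ++ v) =
            W (u ++ v) * min (W (u ++ v)) M - spK q ρ e l M * W (u ++ v)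
          ring
        rw [h7, Fj_const_mul, h6]
      refine le_trans ?_ (spY_ge M hm (typ a v) (sub ω v))
      refine le_min h4 ?_
      rw [h5]
      exact le_refl _
    · have h4 := (hω1 M J).eventually (gt_mem_nhds hJ)
      filter_upwards [h4] with k hk
      exact hk.le
  -- the remainder
  have hR : ∀ M : ℕ, Tendsto (fun k : ℕ => mu (chE ω) ρ k (fun v => W v *
      ps (fun u => W u - min (W u) M) v) / k) atTop (𝓝 ((κ - spK q ρ e l M) * W [])) := by
    intro M
    have h3 := hω2 M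
    rw [spR_integral H M] at h3
    have h4 := spatW_cesaro h3
    rw [← hWr] at h4
    refine h4.congr fun k => ?_
    rw [mu_W_ps hρ.ne' hflow]
    rfl
  have hpt : ∀ M k : ℕ, mu (chE ω) ρ k (fun v => W v * |ps W v - κ * k|) ≤
      mu (chE ω) ρ k (fun v => W v * |ps (fun u => min (W u) M - spK q ρ e l M) v|) +
      mu (chE ω) ρ k (fun v => W v * ps (fun u => W u - min (W u) M) v) +
      |κ - spK q ρ e l M| * W [] * k := by
    intro M k
    rw [← mu_add_fun, mul_assoc, mul_comm (W []) (k : ℝ), ← mul_assoc, ← hmuW k,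
      ← mu_const_mul, ← mu_add_fun]
    refine mu_mono hρ.le fun v hv => ?_
    have hlen : v.length = k := length_of_mem_lev hv
    have h3 : ps W v - κ * k = ps (fun u => min (W u) M - spK q ρ e l M) v +
        ps (fun u => W u - min (W u) M) v - (κ - spK q ρ e l M) * k := by
      rw [spatW_ps_sub (fun u => min (W u) (M : ℝ)) (fun _ => spK q ρ e l M),
        spatW_ps_sub W (fun u => min (W u) (M : ℝ)), spatW_ps_const, hlen]
      ring
    have h4 : 0 ≤ ps (fun u => W u - min (W u) (M : ℝ)) v :=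
      ps_nonneg (fun u => sub_nonneg.2 (min_le_left _ _)) v
    have h5 : |ps W v - κ * k| ≤ |ps (fun u => min (W u) M - spK q ρ e l M) v| +
        ps (fun u => W u - min (W u) M) v + |κ - spK q ρ e l M| * k := by
      rw [h3]
      refine (abs_sub _ _).trans ?_
      refine add_le_add ((abs_add_le _ _).trans ?_) ?_
      · rw [abs_of_nonneg h4]
      · rw [abs_mul, abs_of_nonneg (Nat.cast_nonneg k : (0 : ℝ) ≤ k)]
    have := mul_le_mul_of_nonneg_left h5 (hW v)
    linarith
  have hnn : ∀ k : ℕ, 0 ≤ mu (chE ω) ρ k (fun v => W v * |ps W v - κ * k|) / k := fun k =>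
    div_nonneg (mu_nonneg hρ.le fun v _ => mul_nonneg (hW v) (abs_nonneg _)) (Nat.cast_nonneg k)
  rw [Metric.tendsto_atTop]
  intro ε hε
  have h3 : Tendsto (fun M => |κ - spK q ρ e l M| * W []) atTop (𝓝 0) := by
    have h4 := ((tendsto_const_nhds (x := κ)).sub (spK_tendsto H)).abs.mul_const (W [])
    rw [← hκ, sub_self, abs_zero, zero_mul] at h4
    exact h4
  obtain ⟨M, hM⟩ := (h3.eventually (gt_mem_nhds (show (0 : ℝ) < ε / 4 by positivity))).exists
  have h4 := (hA M).eventually (gt_mem_nhds (show (0 : ℝ) < ε / 4 by positivity))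
  have h5 : (κ - spK q ρ e l M) * W [] < ε / 4 :=
    lt_of_le_of_lt (mul_le_mul_of_nonneg_right (le_abs_self _) (hW [])) hM
  have h6 := (hR M).eventually (gt_mem_nhds h5)
  obtain ⟨N, hN⟩ := eventually_atTop.1 (h4.and (h6.and (eventually_ge_atTop 1)))
  refine ⟨N, fun k hk => ?_⟩
  obtain ⟨h7, h8, h9⟩ := hN k hk
  have hkpos : (0 : ℝ) < k := by exact_mod_cast h9
  rw [Real.dist_eq, sub_zero, abs_of_nonneg (hnn k)]
  have h10 := div_le_div_of_nonneg_right (hpt M k) hkpos.le
  rw [add_div, add_div, mul_div_assoc, div_self hkpos.ne', mul_one] at h10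
  linarith

end GW

end Pool.Agent.BW
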