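import Mathlib

/-!
# Critically biased walks on multi-type Galton-Watson trees: definitions used in the statement

Vertices of the tree are words `v : List I` with the *last* letter first: the root is `[]`,
the children of `v` are the words `i :: v` with `i ∈ ch v`, and the parent of `i :: v` is `v`.
-/

open MeasureTheory ProbabilityTheory Filter Topology Finset
open scoped ENNReal NNReal

namespace Pool.Agent.BW

section Tree

variable {I : Type} [DecidableEq I]

/-- number of children of `v` -/
noncomputable def deg (ch : List I → Finset I) (v : List I) : ℝ := ((ch v).card : ℝ)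

/-- transition probabilities of the `lam`-biased walk: from `v ≠ root` to the parent with
probability `lam / (lam + deg v)` and to each child with probability `1 / (lam + deg v)`;
from the root to a uniformly chosen child (if the root has no child the walk stays there;
this case is irrelevant for infinite trees). -/
noncomputable def pr (ch : List I → Finset I) (lam : ℝ) (v w : List I) : ℝ :=
  if v = [] then
    if ch [] = ∅ then (if w = [] then 1 else 0)
    else if ∃ i ∈ ch [], w = [i] then 1 / deg ch [] else 0
  else if w = v.tail then lam / (lam + deg ch v)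
  else if ∃ i ∈ ch v, w = i :: v then 1 / (lam + deg ch v) else 0

/-- `X` is (under `P`) the `lam`-biased nearest neighbour walk on the tree `ch`, started at the
root: a Markov chain with transition probabilities `pr ch lam`. -/
structure IsWalk {Ω : Type} [MeasurableSpace Ω] (ch : List I → Finset I) (lam : ℝ)
    (X : ℕ → Ω → List I) (P : Measure Ω) : Prop where
  prob : IsProbabilityMeasure P
  meas : ∀ n w, MeasurableSet {ω | X n ω = w}
  zero : P {ω | X 0 ω = []} = 1
  step : ∀ (n : ℕ) (h : ℕ → List I) (w : List I),
    P {ω | (∀ k ≤ n, X k ω = h k) ∧ X (n + 1) ω = w} =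
      P {ω | ∀ k ≤ n, X k ω = h k} * ENNReal.ofReal (pr ch lam (h n) w)

end Tree

section CLT

/-- càdlàg functions on `[0, ∞)` -/
def Cadlag (x : ℝ≥0 → ℝ) : Prop :=
  ∀ t, ContinuousWithinAt x (Set.Ici t) t ∧ ∃ l, Tendsto x (𝓝[<] t) (𝓝 l)

/-- `F` is continuous on the space `D[0, ∞)` of càdlàg functions with the topology of uniform
convergence on compact intervals -/
def ContD (F : (ℝ≥0 → ℝ) → ℝ) : Prop :=
  ContinuousOn (fun x : UniformOnFun ℝ≥0 ℝ {K | IsCompact K} =>
    F (UniformOnFun.toFun {K | IsCompact K} x))
    {x | Cadlag (UniformOnFun.toFun {K | IsCompact K} x)}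

variable {I : Type} [DecidableEq I]

/-- The rescaled height process of the `ρ`-biased walk on the tree `ch` converges in law in
`D[0, ∞)` (uniform convergence on compact intervals) to reflected Brownian motion. -/
def WalkCLT (ch : List I → Finset I) (ρ σ : ℝ) : Prop :=
  ∀ (Ω : Type) [MeasurableSpace Ω] (P : Measure Ω) (X : ℕ → Ω → List I), IsWalk ch ρ X P →
  ∀ (Ω' : Type) [MeasurableSpace Ω'] (P' : Measure Ω') [IsProbabilityMeasure P']
    (B : ℝ≥0 → Ω' → ℝ), IsBrownianReal B P' →
  ∀ F : (ℝ≥0 → ℝ) → ℝ, ContD F → (∃ C, ∀ x, |F x| ≤ C) →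
    Tendsto (fun n : ℕ => ∫ ω, F (fun t => ((X ⌊(n : ℝ≥0) * t⌋₊ ω).length : ℝ) / (σ * √n)) ∂P)
      atTop (𝓝 (∫ ω, F (fun t => |B t ω|) ∂P'))

end CLT

section MGW

variable {Q : Type} [Fintype Q] [DecidableEq Q]

/-- offspring configurations at all words -/
abbrev Env (Q : Type) : Type := List (Q × ℕ) → (Q → ℕ)

/-- type of the vertex `v` if the root has type `a`; the letter `(b, i)` stands for the `i`-th
child of type `b` -/
def typ (a : Q) : List (Q × ℕ) → Q
  | [] => a
  | i :: _ => i.1

/-- the set of labels of children for the offspring configuration `x` -/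
def chX (x : Q → ℕ) : Finset (Q × ℕ) :=
  Finset.univ.biUnion fun b => (Finset.range (x b)).image fun i => (b, i)

/-- children of the vertex `v` in the environment `ω` -/
def chE (ω : Env Q) (v : List (Q × ℕ)) : Finset (Q × ℕ) := chX (ω v)

/-- the multi-type Galton-Watson law with root type `a`: the offspring configurations are
independent, the one at `v` has law `q (typ a v)` -/
noncomputable def mgw (q : Q → Measure (Q → ℕ)) (a : Q) : Measure (Env Q) :=
  Measure.infinitePi fun v => q (typ a v)

/-- `v` is a vertex of the tree of `ω` -/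
def Alive (ω : Env Q) : List (Q × ℕ) → Prop
  | [] => True
  | i :: v => Alive ω v ∧ i ∈ chE ω v

/-- the tree is infinite -/
def Survives (ω : Env Q) : Prop := ∀ n : ℕ, ∃ v, Alive ω v ∧ v.length = n

/-- mean matrix -/
noncomputable def meanMat (q : Q → Measure (Q → ℕ)) : Matrix Q Q ℝ :=
  fun a b => ∫ x, (x b : ℝ) ∂(q a)

end MGW

end Pool.Agent.BW
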