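import Pool.Agent.Lib.MP_276d40_pr.MuBasic

open MeasureTheory ProbabilityTheory Filter Topology Finset
open scoped ENNReal NNReal

set_option linter.unusedSectionVars false
set_option linter.unusedVariables false

namespace Pool.Agent.BW

/-- fourth moment of a centred Gaussian -/
private lemma twoPoint_gaussian_fourth (v : ℝ≥0) :
    ∫ x, x ^ 4 ∂(gaussianReal 0 v) = 3 * (v : ℝ) ^ 2 := by
  have h : ∫ x, x ^ 4 ∂(gaussianReal 0 v) =
      iteratedDeriv 4 (mgf (fun x ↦ x) (gaussianReal 0 v)) 0 := by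
    rw [iteratedDeriv_mgf_zero] <;> simp
  rw [h, mgf_fun_id_gaussianReal]
  have e0 : (fun t : ℝ ↦ Real.exp (0 * t + v * t ^ 2 / 2)) =
      fun t : ℝ ↦ Real.exp (v * t ^ 2 / 2) := by
    ext t; simp
  rw [e0]
  have hb : ∀ t : ℝ, HasDerivAt (fun t : ℝ ↦ Real.exp (v * t ^ 2 / 2))
      (Real.exp (v * t ^ 2 / 2) * (v * t)) t := by
    intro t
    have h1 : HasDerivAt (fun t : ℝ ↦ (v : ℝ) * t ^ 2 / 2) (v * t) t := by
      have := ((hasDerivAt_pow 2 t).const_mul (v : ℝ)).div_const 2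
      refine this.congr_deriv ?_
      norm_num
      ring
    exact h1.exp
  have hp : ∀ (p : ℝ → ℝ) (p' : ℝ) (t : ℝ), HasDerivAt p p' t →
      HasDerivAt (fun t : ℝ ↦ p t * Real.exp (v * t ^ 2 / 2))
        ((p' + p t * (v * t)) * Real.exp (v * t ^ 2 / 2)) t := by
    intro p p' t h
    refine (h.mul (hb t)).congr_deriv ?_
    ring
  have e1 : deriv (fun t : ℝ ↦ Real.exp (v * t ^ 2 / 2)) =
      fun t ↦ ((v : ℝ) * t) * Real.exp (v * t ^ 2 / 2) := by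
    ext t
    rw [(hb t).deriv]; ring
  have e2 : deriv (fun t : ℝ ↦ ((v : ℝ) * t) * Real.exp (v * t ^ 2 / 2)) =
      fun t ↦ ((v : ℝ) + v ^ 2 * t ^ 2) * Real.exp (v * t ^ 2 / 2) := by
    ext t
    have h1 : HasDerivAt (fun t : ℝ ↦ (v : ℝ) * t) (v * 1) t := (hasDerivAt_id t).const_mul _
    rw [(hp _ _ t h1).deriv]; ring
  have e3 : deriv (fun t : ℝ ↦ ((v : ℝ) + v ^ 2 * t ^ 2) * Real.exp (v * t ^ 2 / 2)) =
      fun t ↦ (3 * (v : ℝ) ^ 2 * t + v ^ 3 * t ^ 3) * Real.exp (v * t ^ 2 / 2) := by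
    ext t
    have h1 : HasDerivAt (fun t : ℝ ↦ (v : ℝ) + v ^ 2 * t ^ 2) (v ^ 2 * (2 * t)) t := by
      have := ((hasDerivAt_pow 2 t).const_mul ((v : ℝ) ^ 2)).const_add (v : ℝ)
      refine this.congr_deriv ?_
      norm_num
    rw [(hp _ _ t h1).deriv]; ring
  have e4 : deriv (fun t : ℝ ↦ (3 * (v : ℝ) ^ 2 * t + v ^ 3 * t ^ 3) *
        Real.exp (v * t ^ 2 / 2)) 0 = 3 * (v : ℝ) ^ 2 := by
    have h1 : HasDerivAt (fun t : ℝ ↦ 3 * (v : ℝ) ^ 2 * t + v ^ 3 * t ^ 3)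
        (3 * (v : ℝ) ^ 2 * 1 + v ^ 3 * (3 * 0 ^ 2)) 0 := by
      have a1 := (hasDerivAt_id (0 : ℝ)).const_mul (3 * (v : ℝ) ^ 2)
      have a2 := (hasDerivAt_pow 3 (0 : ℝ)).const_mul ((v : ℝ) ^ 3)
      refine (a1.add a2).congr_deriv ?_
      norm_num
    rw [(hp _ _ 0 h1).deriv]
    simp
  rw [iteratedDeriv_succ, iteratedDeriv_succ, iteratedDeriv_succ, iteratedDeriv_one, e1, e2, e3,
    e4]

section Fdd

variable {Ω : Type} [MeasurableSpace Ω] {P : Measure Ω} [IsProbabilityMeasure P]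
  {Ω' : Type} [MeasurableSpace Ω'] {P' : Measure Ω'} [IsProbabilityMeasure P']

theorem two_point_of_fdd (x : ℕ → ℝ≥0 → Ω → ℝ) (hm : ∀ n t, Measurable (x n t)) {θ : ℝ}
    (hθ : 0 ≤ θ) (B : ℝ≥0 → Ω' → ℝ) (hB : IsPreBrownianReal B P')
    (hfdd : ∀ (k : ℕ) (t : Fin k → ℝ≥0), Monotone t → ∀ φ : (Fin k → ℝ) → ℝ, Continuous φ →
      (∃ C, ∀ y, |φ y| ≤ C) →
      Tendsto (fun n => ∫ ω, φ (fun j => x n (t j) ω) ∂P) atTop
        (𝓝 (∫ ω, φ (fun j => √θ * |B (t j) ω|) ∂P'))) :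
    ∀ s t : ℝ≥0, s ≤ t → ∀ δ > (0 : ℝ), ∀ ε > (0 : ℝ), ∀ᶠ n : ℕ in atTop,
      P.real {ω | δ < |x n t ω - x n s ω|} ≤ 3 * θ ^ 2 * ((t : ℝ) - s) ^ 2 / δ ^ 4 + ε := by
  intro s t hst δ hδ ε hε
  set φ : (Fin 2 → ℝ) → ℝ := fun y => min 1 ((y 1 - y 0) ^ 4 / δ ^ 4) with hφ
  have hφc : Continuous φ := by
    rw [hφ]; fun_prop
  have hφ0 : ∀ y, 0 ≤ φ y := by
    intro y; rw [hφ]
    have : 0 ≤ (y 1 - y 0) ^ 4 / δ ^ 4 := by positivity
    exact le_min zero_le_one this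
  have hφ1 : ∀ y, φ y ≤ 1 := fun y => min_le_left _ _
  have hφb : ∀ y, |φ y| ≤ 1 := fun y => by rw [abs_of_nonneg (hφ0 y)]; exact hφ1 y
  have hmono : Monotone (![s, t] : Fin 2 → ℝ≥0) := by
    intro i j hij
    fin_cases i <;> fin_cases j <;> simp_all
  have hlim := hfdd 2 ![s, t] hmono φ hφc ⟨1, hφb⟩
  have hBm : ∀ u, AEMeasurable (B u) P' := fun u => hB.aemeasurable u
  -- law of the increment
  have hlaw := hB.hasLaw_sub t s
  have hnn : ((nndist (t : ℝ) (s : ℝ) : ℝ≥0) : ℝ) = (t : ℝ) - s := by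
    rw [coe_nndist, Real.dist_eq, abs_of_nonneg]
    have : (s : ℝ) ≤ t := by exact_mod_cast hst
    linarith
  have h4 : ∫ ω, (B t ω - B s ω) ^ 4 ∂P' = 3 * ((t : ℝ) - s) ^ 2 := by
    have := hlaw.integral_comp (f := fun x : ℝ => x ^ 4) (by fun_prop)
    have h' := twoPoint_gaussian_fourth (nndist (t : ℝ) (s : ℝ))
    rw [hnn] at h'
    rw [← h']
    simpa [Function.comp_def] using this
  have hint4 : Integrable (fun ω => (B t ω - B s ω) ^ 4) P' := by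
    have h1 : Integrable (fun x : ℝ => x ^ 4) (gaussianReal 0 (nndist (t : ℝ) (s : ℝ))) := by
      have := (memLp_id_gaussianReal (μ := 0) (v := nndist (t : ℝ) (s : ℝ)) 4)
      have h2 := this.integrable_norm_pow (p := 4) (by norm_num)
      simpa [Even.pow_abs (by decide : Even 4)] using h2
    have h2 : Integrable (fun x : ℝ => x ^ 4) (P'.map (B t - B s)) := by
      rw [hlaw.map_eq]; exact h1
    have h3 := h2.comp_aemeasurable hlaw.aemeasurable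
    simpa [Function.comp_def] using h3
  have hle : ∫ ω, φ (fun j => √θ * |B ((![s, t] : Fin 2 → ℝ≥0) j) ω|) ∂P' ≤
      3 * θ ^ 2 * ((t : ℝ) - s) ^ 2 / δ ^ 4 := by
    have e : 3 * θ ^ 2 * ((t : ℝ) - s) ^ 2 / δ ^ 4 =
        ∫ ω, θ ^ 2 / δ ^ 4 * (B t ω - B s ω) ^ 4 ∂P' := by
      rw [integral_const_mul, h4]; ring
    rw [e]
    refine integral_mono_of_nonneg
      (Eventually.of_forall fun ω => hφ0 (fun j => √θ * |B ((![s, t] : Fin 2 → ℝ≥0) j) ω|))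
      (hint4.const_mul _) (Eventually.of_forall fun ω => ?_)
    simp only [hφ]
    refine (min_le_right _ _).trans ?_
    simp only [Matrix.cons_val_one, Matrix.cons_val_zero]
    have h1 : (√θ * |B t ω| - √θ * |B s ω|) ^ 4 = θ ^ 2 * (|B t ω| - |B s ω|) ^ 4 := by
      have : √θ ^ 4 = θ ^ 2 := by
        have h2 : √θ ^ 2 = θ := Real.sq_sqrt hθ
        calc √θ ^ 4 = (√θ ^ 2) ^ 2 := by ring
          _ = θ ^ 2 := by rw [h2]
      calc (√θ * |B t ω| - √θ * |B s ω|) ^ 4 = √θ ^ 4 * (|B t ω| - |B s ω|) ^ 4 := by ring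
        _ = _ := by rw [this]
    rw [h1]
    have h2 : (|B t ω| - |B s ω|) ^ 4 ≤ (B t ω - B s ω) ^ 4 := by
      have h3 : |(|B t ω| - |B s ω|)| ≤ |B t ω - B s ω| := abs_abs_sub_abs_le _ _
      have h5 := pow_le_pow_left₀ (abs_nonneg _) h3 4
      rwa [Even.pow_abs (by decide), Even.pow_abs (by decide)] at h5
    have h6 : 0 ≤ θ ^ 2 / δ ^ 4 := by positivity
    calc θ ^ 2 * (|B t ω| - |B s ω|) ^ 4 / δ ^ 4
        = θ ^ 2 / δ ^ 4 * (|B t ω| - |B s ω|) ^ 4 := by ring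
      _ ≤ _ := mul_le_mul_of_nonneg_left h2 h6
  have hev : ∀ᶠ n in atTop, ∫ ω, φ (fun j => x n ((![s, t] : Fin 2 → ℝ≥0) j) ω) ∂P <
      3 * θ ^ 2 * ((t : ℝ) - s) ^ 2 / δ ^ 4 + ε :=
    hlim.eventually_lt_const (by linarith)
  filter_upwards [hev] with n hn
  refine le_trans ?_ hn.le
  have hms : MeasurableSet {ω | δ < |x n t ω - x n s ω|} :=
    measurableSet_lt measurable_const ((hm n t).sub (hm n s)).abs
  have hI : P.real {ω | δ < |x n t ω - x n s ω|} =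
      ∫ ω, ({ω | δ < |x n t ω - x n s ω|}.indicator (fun _ => (1 : ℝ))) ω ∂P := by
    rw [integral_indicator hms]; simp
  rw [hI]
  have hφm : Measurable (fun ω => φ (fun j => x n ((![s, t] : Fin 2 → ℝ≥0) j) ω)) :=
    hφc.measurable.comp (measurable_pi_lambda _ fun j => hm n _)
  refine integral_mono_of_nonneg (Eventually.of_forall fun ω => ?_) ?_
    (Eventually.of_forall fun ω => ?_)
  · exact Set.indicator_nonneg (fun _ _ => zero_le_one) ω
  · exact Integrable.of_bound hφm.aestronglyMeasurable 1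
      (Eventually.of_forall fun ω => by
        rw [Real.norm_eq_abs]
        exact hφb (fun j => x n ((![s, t] : Fin 2 → ℝ≥0) j) ω))
  · by_cases h : δ < |x n t ω - x n s ω|
    · rw [Set.indicator_of_mem (by exact h)]
      simp only [hφ, Matrix.cons_val_one, Matrix.cons_val_zero]
      refine le_min le_rfl ?_
      rw [le_div_iff₀ (by positivity), one_mul]
      have h5 := pow_le_pow_left₀ hδ.le h.le 4
      rwa [Even.pow_abs (by decide)] at h5
    · rw [Set.indicator_of_notMem (by exact h)]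
      exact hφ0 (fun j => x n ((![s, t] : Fin 2 → ℝ≥0) j) ω)

end Fdd

end Pool.Agent.BW
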