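import Pool.Agent.Lib.MP_276d40_pr.MuBasic

/-!
# Basic facts on the walk

Functions of `X 0, …, X n` are measurable and integrable, the walk moves to neighbours, and the
one step Markov property.
-/

open MeasureTheory ProbabilityTheory Filter Topology Finset
open scoped ENNReal NNReal

set_option linter.unusedSectionVars false
set_option linter.unusedVariables false

namespace Pool.Agent.BW

section WBaux

variable {I : Type} [DecidableEq I]

/-- the history up to time `n` -/
private def hist {Ω : Type} (X : ℕ → Ω → List I) (n : ℕ) (ω : Ω) : Fin (n + 1) → List I :=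
  fun k => X k ω

private theorem hist_eq_iff {Ω : Type} (X : ℕ → Ω → List I) (n : ℕ) (ω : Ω)
    (h : Fin (n + 1) → List I) :
    hist X n ω = h ↔ ∀ k ≤ n, X k ω = (fun k : ℕ => if hk : k < n + 1 then h ⟨k, hk⟩ else []) k := by
  constructor
  · rintro rfl k hk
    have : k < n + 1 := by omega
    simp [hist, this]
  · intro H
    funext k
    have := H k (by omega)
    simpa [hist, Nat.lt_succ_iff.mp k.2] using this

/-- neighbours of a vertex (with `[]` added at the root) -/
private def nbr (ch : List I → Finset I) (v : List I) : Finset (List I) :=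
  insert v.tail ((ch v).image fun i => i :: v)

private theorem mem_nbr_of_Nb {ch : List I → Finset I} {v w : List I} (h : Nb ch v w) :
    w ∈ nbr ch v := by
  rcases h with ⟨i, hi, rfl⟩ | ⟨i, rfl⟩
  · exact mem_insert_of_mem (mem_image_of_mem _ hi)
  · simp [nbr]

/-- vertices which can be reached in `k` steps -/
private def rch (ch : List I → Finset I) : ℕ → Finset (List I)
  | 0 => {[]}
  | k + 1 => (rch ch k).biUnion (nbr ch)

private theorem pr_eq_zero {ch : List I → Finset I} {lam : ℝ} (h0 : (ch []).Nonempty)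
    {v w : List I} (h : ¬ Nb ch v w) : pr ch lam v w = 0 := by
  unfold Nb at h
  push Not at h
  unfold pr
  have hne : ch [] ≠ ∅ := h0.ne_empty
  rcases v with _ | ⟨j, v⟩
  · simp only [if_true, hne, if_false]
    rw [if_neg]
    rintro ⟨i, hi, rfl⟩
    exact h.1 i hi rfl
  · rw [if_neg (by simp), if_neg, if_neg]
    · rintro ⟨i, hi, rfl⟩
      exact h.1 i hi rfl
    · rintro rfl
      exact h.2 j rfl

private theorem pr_nonneg {ch : List I → Finset I} {lam : ℝ} (hlam : 0 < lam) (v w : List I) :
    0 ≤ pr ch lam v w := by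
  unfold pr deg
  split_ifs <;> positivity

/-- sum over the neighbours -/
private theorem sum_nbr {ch : List I → Finset I} {lam : ℝ} (h0 : (ch []).Nonempty)
    (φ : List I → ℝ) (v : List I) :
    ∑ w ∈ nbr ch v, pr ch lam v w * φ w = Pr ch lam φ v := by
  have hnot : v.tail ∉ (ch v).image fun i => i :: v := by
    intro h
    obtain ⟨i, -, hi⟩ := mem_image.mp h
    have := congrArg List.length hi
    simp at this
    omega
  rw [nbr, sum_insert hnot, sum_image (by intro a _ b _ h; exact (List.cons.inj h).1)]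
  have hne : ch [] ≠ ∅ := h0.ne_empty
  rcases v with _ | ⟨j, v⟩
  · have e1 : pr ch lam [] ([] : List I).tail = 0 := by
      unfold pr
      simp [hne]
    have e2 : ∀ i ∈ ch [], pr ch lam [] [i] * φ [i] = φ [i] / deg ch [] := by
      intro i hi
      have : ∃ j ∈ ch [], [i] = [j] := ⟨i, hi, rfl⟩
      unfold pr
      rw [if_pos rfl, if_neg hne, if_pos this]
      ring
    rw [e1, zero_mul, zero_add, sum_congr rfl e2, ← sum_div]
    simp [Pr, hne]
  · have e1 : pr ch lam (j :: v) (j :: v).tail = lam / (lam + deg ch (j :: v)) := by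
      unfold pr
      rw [if_neg (by simp), if_pos rfl]
    have e2 : ∀ i ∈ ch (j :: v), pr ch lam (j :: v) (i :: j :: v) * φ (i :: j :: v) =
        φ (i :: j :: v) / (lam + deg ch (j :: v)) := by
      intro i hi
      have h1 : i :: j :: v ≠ (j :: v).tail := by
        intro h
        have := congrArg List.length h
        simp at this
        omega
      have : ∃ k ∈ ch (j :: v), i :: j :: v = k :: j :: v := ⟨i, hi, rfl⟩
      unfold pr
      rw [if_neg (by simp), if_neg h1, if_pos this]
      ring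
    rw [e1, sum_congr rfl e2, ← sum_div]
    simp only [Pr, List.tail_cons]
    ring

end WBaux

section Walk

variable {I : Type} [DecidableEq I] [Countable I] {ch : List I → Finset I} {lam : ℝ}
  {Ω : Type} [MeasurableSpace Ω] {P : Measure Ω} {X : ℕ → Ω → List I}

private theorem measurableSet_hist (hX : IsWalk ch lam X P) {n : ℕ} (h : Fin (n + 1) → List I) :
    MeasurableSet {ω | hist X n ω = h} := by
  have : {ω | hist X n ω = h} = ⋂ k : Fin (n + 1), {ω | X k ω = h k} := by
    ext ω
    simp [hist, funext_iff]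
  rw [this]
  exact MeasurableSet.iInter fun k => hX.meas k (h k)

theorem measurableSet_adapt (hX : IsWalk ch lam X P) {n : ℕ} {E : Set Ω}
    (hE : ∀ ω ω', (∀ k ≤ n, X k ω = X k ω') → (ω ∈ E ↔ ω' ∈ E)) : MeasurableSet E := by
  have : E = ⋃ h ∈ hist X n '' E, {ω | hist X n ω = h} := by
    ext ω
    simp only [Set.mem_image, Set.mem_iUnion, Set.mem_ofPred_eq, exists_prop]
    constructor
    · intro h
      exact ⟨_, ⟨ω, h, rfl⟩, rfl⟩
    · rintro ⟨h, ⟨ω', h1, h2⟩, h3⟩
      refine (hE ω ω' fun k hk => ?_).mpr h1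
      have := congrFun (h3.trans h2.symm) ⟨k, by omega⟩
      exact this
  rw [this]
  exact MeasurableSet.biUnion (Set.to_countable _) fun h _ => measurableSet_hist hX h

theorem Adapt.measurable (hX : IsWalk ch lam X P) {n : ℕ} {Z : Ω → ℝ} (hZ : Adapt X n Z) :
    Measurable Z := by
  intro s hs
  refine measurableSet_adapt hX (n := n) fun ω ω' h => ?_
  rw [Set.mem_preimage, Set.mem_preimage, hZ ω ω' h]

private theorem step_hist (hX : IsWalk ch lam X P) {n : ℕ} (h : Fin (n + 1) → List I)
    (w : List I) :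
    P {ω | hist X n ω = h ∧ X (n + 1) ω = w} =
      P {ω | hist X n ω = h} * ENNReal.ofReal (pr ch lam (h (Fin.last n)) w) := by
  have key := hX.step n (fun k : ℕ => if hk : k < n + 1 then h ⟨k, hk⟩ else []) w
  have e1 : {ω | (∀ k ≤ n, X k ω = (fun k : ℕ => if hk : k < n + 1 then h ⟨k, hk⟩ else []) k) ∧
      X (n + 1) ω = w} = {ω | hist X n ω = h ∧ X (n + 1) ω = w} := by
    ext ω
    simp only [Set.mem_ofPred_eq, hist_eq_iff]
  have e2 : {ω | ∀ k ≤ n, X k ω = (fun k : ℕ => if hk : k < n + 1 then h ⟨k, hk⟩ else []) k} =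
      {ω | hist X n ω = h} := by
    ext ω
    simp only [Set.mem_ofPred_eq, hist_eq_iff]
  rw [e1, e2] at key
  rw [key]
  congr 3
  simp [Fin.last]

theorem IsWalk.ae_path (hX : IsWalk ch lam X P) (hlam : 0 < lam) (h0 : (ch []).Nonempty) :
    ∀ᵐ ω ∂P, X 0 ω = [] ∧ ∀ n, Nb ch (X n ω) (X (n + 1) ω) := by
  have := hX.prob
  have hz : ∀ᵐ ω ∂P, X 0 ω = [] := (mem_ae_iff_prob_eq_one (hX.meas 0 [])).mpr hX.zero
  have hs : ∀ᵐ ω ∂P, ∀ (n : ℕ) (h : Fin (n + 1) → List I) (w : List I),
      ¬ Nb ch (h (Fin.last n)) w → ¬ (hist X n ω = h ∧ X (n + 1) ω = w) := by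
    rw [ae_all_iff]
    intro n
    rw [ae_all_iff]
    intro h
    rw [ae_all_iff]
    intro w
    by_cases hN : Nb ch (h (Fin.last n)) w
    · exact Filter.Eventually.of_forall fun ω h => absurd hN h
    · have : P {ω | hist X n ω = h ∧ X (n + 1) ω = w} = 0 := by
        rw [step_hist hX, pr_eq_zero h0 hN]
        simp
      rw [measure_eq_zero_iff_ae_notMem] at this
      filter_upwards [this] with ω hω _ using hω
  filter_upwards [hz, hs] with ω h1 h2
  refine ⟨h1, fun n => ?_⟩
  by_contra hN
  exact h2 n (hist X n ω) (X (n + 1) ω) hN ⟨rfl, rfl⟩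

private theorem ae_mem_rch (hX : IsWalk ch lam X P) (hlam : 0 < lam) (h0 : (ch []).Nonempty) :
    ∀ᵐ ω ∂P, ∀ n, X n ω ∈ rch ch n := by
  filter_upwards [hX.ae_path hlam h0] with ω hω n
  induction n with
  | zero => simp [rch, hω.1]
  | succ n ih =>
    rw [rch, mem_biUnion]
    exact ⟨_, ih, mem_nbr_of_Nb (hω.2 n)⟩

/-- finite set of possible histories -/
private def hs (ch : List I → Finset I) (n : ℕ) : Finset (Fin (n + 1) → List I) :=
  Fintype.piFinset fun k => rch ch k

private theorem ae_mem_hs (hX : IsWalk ch lam X P) (hlam : 0 < lam) (h0 : (ch []).Nonempty)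
    (n : ℕ) : ∀ᵐ ω ∂P, hist X n ω ∈ hs ch n := by
  filter_upwards [ae_mem_rch hX hlam h0] with ω hω
  rw [hs, Fintype.mem_piFinset]
  exact fun k => hω k

/-- the value of an adapted variable on a history -/
private noncomputable def gv (X : ℕ → Ω → List I) (n : ℕ) (Z : Ω → ℝ)
    (h : Fin (n + 1) → List I) : ℝ :=
  Function.extend (hist X n) Z 0 h

private theorem gv_hist {n : ℕ} {Z : Ω → ℝ} (hZ : Adapt X n Z) (ω : Ω) :
    gv X n Z (hist X n ω) = Z ω := by
  have hf : Function.FactorsThrough Z (hist X n) := fun a b hab =>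
    hZ a b fun k hk => congrFun hab ⟨k, by omega⟩
  exact hf.extend_apply _ ω

theorem Adapt.integrable (hX : IsWalk ch lam X P) (hlam : 0 < lam) (h0 : (ch []).Nonempty)
    {n : ℕ} {Z : Ω → ℝ} (hZ : Adapt X n Z) : Integrable Z P := by
  have := hX.prob
  refine Integrable.of_bound (hZ.measurable hX).aestronglyMeasurable
    (∑ h ∈ hs ch n, |gv X n Z h|) ?_
  filter_upwards [ae_mem_hs hX hlam h0 n] with ω hω
  rw [← gv_hist hZ ω, Real.norm_eq_abs]
  exact single_le_sum (f := fun h => |gv X n Z h|) (fun _ _ => abs_nonneg _) hω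

theorem Adapt.markov (hX : IsWalk ch lam X P) (hlam : 0 < lam) (h0 : (ch []).Nonempty)
    {n : ℕ} {Z : Ω → ℝ} (hZ : Adapt X n Z) (φ : List I → ℝ) :
    ∫ ω, Z ω * φ (X (n + 1) ω) ∂P = ∫ ω, Z ω * Pr ch lam φ (X n ω) ∂P := by
  classical
  have := hX.prob
  have mA : ∀ (h : Fin (n + 1) → List I) (w : List I),
      MeasurableSet {ω | hist X n ω = h ∧ X (n + 1) ω = w} := fun h w =>
    (measurableSet_hist hX h).inter (hX.meas (n + 1) w)
  -- left side
  have eL : ∀ᵐ ω ∂P, Z ω * φ (X (n + 1) ω) = ∑ h ∈ hs ch n, ∑ w ∈ nbr ch (h (Fin.last n)),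
      ({ω | hist X n ω = h ∧ X (n + 1) ω = w}.indicator (fun _ => gv X n Z h * φ w) ω) := by
    filter_upwards [ae_mem_hs hX hlam h0 n, hX.ae_path hlam h0] with ω h1 h2
    rw [Finset.sum_eq_single_of_mem _ h1, Finset.sum_eq_single_of_mem (X (n + 1) ω)]
    · rw [Set.indicator_of_mem (by simp), gv_hist hZ]
    · exact mem_nbr_of_Nb (h2.2 n)
    · intro w _ hw
      rw [Set.indicator_of_notMem]
      rintro ⟨-, h⟩
      exact hw h.symm
    · intro h _ hh
      refine Finset.sum_eq_zero fun w _ => ?_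
      rw [Set.indicator_of_notMem]
      rintro ⟨h', -⟩
      exact hh h'.symm
  have eR : ∀ᵐ ω ∂P, Z ω * Pr ch lam φ (X n ω) = ∑ h ∈ hs ch n,
      ({ω | hist X n ω = h}.indicator
        (fun _ => gv X n Z h * Pr ch lam φ (h (Fin.last n))) ω) := by
    filter_upwards [ae_mem_hs hX hlam h0 n] with ω h1
    rw [Finset.sum_eq_single_of_mem _ h1]
    · rw [Set.indicator_of_mem (by simp), gv_hist hZ]
      rfl
    · intro h _ hh
      rw [Set.indicator_of_notMem]
      intro h'
      exact hh (Eq.symm h')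
  rw [integral_congr_ae eL, integral_congr_ae eR, integral_finsetSum _ fun h _ =>
    integrable_finsetSum _ fun w _ => (integrable_const _).indicator (mA h w),
    integral_finsetSum _ fun h _ => (integrable_const _).indicator (measurableSet_hist hX h)]
  refine Finset.sum_congr rfl fun h _ => ?_
  rw [integral_finsetSum _ fun w _ => (integrable_const _).indicator (mA h w),
    integral_indicator_const _ (measurableSet_hist hX h), ← sum_nbr h0]
  have e3 : ∀ w ∈ nbr ch (h (Fin.last n)), ∫ ω, {ω | hist X n ω = h ∧ X (n + 1) ω = w}.indicator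
      (fun _ => gv X n Z h * φ w) ω ∂P =
      P.real {ω | hist X n ω = h} * (gv X n Z h * (pr ch lam (h (Fin.last n)) w * φ w)) := by
    intro w _
    rw [integral_indicator_const _ (mA h w), smul_eq_mul]
    have : P.real {ω | hist X n ω = h ∧ X (n + 1) ω = w} =
        P.real {ω | hist X n ω = h} * pr ch lam (h (Fin.last n)) w := by
      rw [Measure.real, step_hist hX, ENNReal.toReal_mul, ENNReal.toReal_ofReal (pr_nonneg hlam _ _)]
      rfl
    rw [this]
    ring
  rw [Finset.sum_congr rfl e3, ← Finset.mul_sum, ← Finset.mul_sum, smul_eq_mul]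

end Walk

end Pool.Agent.BW
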