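import Pool.Agent.Lib.MP_276d40_pr.MuBasic

open MeasureTheory ProbabilityTheory Filter Topology Finset
open scoped ENNReal NNReal

set_option linter.unusedSectionVars false
set_option linter.unusedVariables false

namespace Pool.Agent.BW

section Walk

variable {I : Type} [DecidableEq I] [Countable I] {ch : List I → Finset I} {lam : ℝ}
  {Ω : Type} [MeasurableSpace Ω] {P : Measure Ω} {X : ℕ → Ω → List I}

/-- the discrete sigma-algebra on words -/
private abbrev weM (I : Type) : MeasurableSpace (List I) := ⊤

/-- the transition law -/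
private noncomputable def weLaw (ch : List I → Finset I) (lam : ℝ) (v : List I) :
    @Measure (List I) (weM I) :=
  letI := weM I
  if v = [] then
    if ch [] = ∅ then Measure.dirac []
    else ∑ i ∈ ch [], ENNReal.ofReal (1 / deg ch []) • Measure.dirac [i]
  else ENNReal.ofReal (lam / (lam + deg ch v)) • Measure.dirac v.tail +
    ∑ i ∈ ch v, ENNReal.ofReal (1 / (lam + deg ch v)) • Measure.dirac (i :: v)

private theorem we_sum (s : Finset I) (v w : List I) (c : ℝ≥0∞) :
    (∑ i ∈ s, c * (if i :: v = w then 1 else 0) : ℝ≥0∞) =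
      if ∃ i ∈ s, w = i :: v then c else 0 := by
  split_ifs with h
  · obtain ⟨i, hi, rfl⟩ := h
    rw [Finset.sum_eq_single i]
    · simp
    · intro j _ hj
      rw [if_neg (by simpa using hj), mul_zero]
    · exact fun h => absurd hi h
  · refine Finset.sum_eq_zero fun i hi => ?_
    rw [if_neg fun h' => h ⟨i, hi, h'.symm⟩, mul_zero]

private theorem we_dirac (a w : List I) :
    letI := weM I
    (Measure.dirac a : Measure (List I)) {w} = if a = w then 1 else 0 := by
  let _ := weM I
  rw [Measure.dirac_apply' _ MeasurableSpace.measurableSet_top]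
  by_cases h : a = w
  · rw [if_pos h, Set.indicator_of_mem (by simpa using h)]; rfl
  · rw [if_neg h, Set.indicator_of_notMem (by simpa using h)]

private theorem weLaw_apply (ch : List I → Finset I) (lam : ℝ) (v w : List I) :
    weLaw ch lam v {w} = ENNReal.ofReal (pr ch lam v w) := by
  let _ := weM I
  unfold weLaw pr
  by_cases hv : v = []
  · rw [if_pos hv, if_pos hv]
    by_cases hc : ch [] = ∅
    · rw [if_pos hc, if_pos hc, we_dirac]
      by_cases hw : w = []
      · rw [if_pos hw, if_pos hw.symm, ENNReal.ofReal_one]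
      · rw [if_neg hw, if_neg (Ne.symm hw), ENNReal.ofReal_zero]
    · rw [if_neg hc, if_neg hc, Measure.finsetSum_apply]
      simp only [Measure.smul_apply, smul_eq_mul, we_dirac]
      rw [we_sum]
      split_ifs
      · rfl
      · rw [ENNReal.ofReal_zero]
  · rw [if_neg hv, if_neg hv, Measure.add_apply, Measure.finsetSum_apply]
    simp only [Measure.smul_apply, smul_eq_mul, we_dirac]
    rw [we_sum]
    by_cases hw : w = v.tail
    · rw [if_pos hw.symm, if_pos hw, if_neg, mul_one, add_zero]
      rintro ⟨i, _, h⟩
      rw [hw] at h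
      have := congrArg List.length h
      rw [List.length_tail, List.length_cons] at this
      omega
    · rw [if_neg (Ne.symm hw), if_neg hw, mul_zero, zero_add]
      split_ifs
      · rfl
      · rw [ENNReal.ofReal_zero]

private theorem weLaw_prob (ch : List I → Finset I) (lam : ℝ) (hlam : 0 < lam) (v : List I) :
    @IsProbabilityMeasure _ (weM I) (weLaw ch lam v) := by
  let _ := weM I
  constructor
  have hd : 0 ≤ deg ch v := Nat.cast_nonneg _
  unfold weLaw
  split_ifs with hv hc
  · exact measure_univ
  · rw [Measure.finsetSum_apply]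
    simp only [Measure.smul_apply, smul_eq_mul, measure_univ, mul_one, Finset.sum_const,
      nsmul_eq_mul]
    have h1 : (0 : ℝ) < deg ch [] := by
      unfold deg
      exact_mod_cast Finset.card_pos.2 (Finset.nonempty_iff_ne_empty.2 hc)
    have h2 : (((ch []).card : ℕ) : ℝ≥0∞) = ENNReal.ofReal (deg ch []) := by
      unfold deg
      rw [ENNReal.ofReal_natCast]
    rw [h2, ← ENNReal.ofReal_mul h1.le, mul_one_div_cancel h1.ne', ENNReal.ofReal_one]
  · rw [Measure.add_apply, Measure.finsetSum_apply]
    simp only [Measure.smul_apply, smul_eq_mul, measure_univ, mul_one, Finset.sum_const,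
      nsmul_eq_mul]
    have h1 : (0 : ℝ) < lam + deg ch v := by linarith
    have h2 : (((ch v).card : ℕ) : ℝ≥0∞) = ENNReal.ofReal (deg ch v) := by
      unfold deg
      rw [ENNReal.ofReal_natCast]
    rw [h2, ← ENNReal.ofReal_mul hd, ← ENNReal.ofReal_add (by positivity) (by positivity)]
    rw [show lam / (lam + deg ch v) + deg ch v * (1 / (lam + deg ch v)) = 1 by
      field_simp, ENNReal.ofReal_one]

/-- Ionescu-Tulcea for a time homogeneous Markov chain -/
private theorem we_chain {S : Type} [MeasurableSpace S] [MeasurableSingletonClass S]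
    (K0 : Kernel S S) [IsMarkovKernel K0] (s0 : S) :
    ∃ P : Measure (ℕ → S), IsProbabilityMeasure P ∧ P {ω | ω 0 = s0} = 1 ∧
      ∀ (n : ℕ) (h : ℕ → S) (w : S), P {ω | (∀ k ≤ n, ω k = h k) ∧ ω (n + 1) = w} =
        P {ω | ∀ k ≤ n, ω k = h k} * K0 (h n) {w} := by
  let π : ℕ → Type := fun _ => S
  have hm : ∀ n : ℕ, Measurable fun x : (i : Finset.Iic n) → π i =>
      x ⟨n, Finset.mem_Iic.2 le_rfl⟩ := fun n => measurable_pi_apply _
  let κ : (n : ℕ) → Kernel ((i : Finset.Iic n) → π i) (π (n + 1)) := fun n => K0.comap _ (hm n)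
  have hκ : ∀ n, IsMarkovKernel (κ n) := fun n => Kernel.IsMarkovKernel.comap K0 (hm n)
  let x₀ : (i : Finset.Iic 0) → π i := fun _ => s0
  refine ⟨Kernel.traj κ 0 x₀, inferInstance, ?_, ?_⟩
  · have h1 : {ω : ℕ → S | ω 0 = s0} = Preorder.frestrictLe (π := π) 0 ⁻¹' {x₀} := by
      ext ω
      rw [Set.mem_preimage, Set.mem_singleton_iff, Set.mem_ofPred_eq]
      constructor
      · intro h
        funext i
        have hi : i.1 = 0 := Nat.le_zero.1 (Finset.mem_Iic.1 i.2)
        show ω i.1 = s0
        rw [hi]; exact h
      · intro h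
        exact congrFun h ⟨0, Finset.mem_Iic.2 le_rfl⟩
    rw [h1, ← Measure.map_apply (Preorder.measurable_frestrictLe _) (measurableSet_singleton _),
      Kernel.traj_map_frestrictLe_apply, Kernel.partialTraj_self, Kernel.id_apply,
      Measure.dirac_apply' _ (measurableSet_singleton _)]
    simp
  · intro n h w
    set z : (i : Finset.Iic n) → π i := Preorder.frestrictLe (π := π) n h with hz
    have hE : {ω : ℕ → S | ∀ k ≤ n, ω k = h k} = Preorder.frestrictLe (π := π) n ⁻¹' {z} := by
      ext ω
      rw [Set.mem_preimage, Set.mem_singleton_iff, Set.mem_ofPred_eq]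
      constructor
      · intro hω
        funext i
        exact hω i.1 (Finset.mem_Iic.1 i.2)
      · intro hω k hk
        exact congrFun hω ⟨k, Finset.mem_Iic.2 hk⟩
    have hF : {ω : ℕ → S | (∀ k ≤ n, ω k = h k) ∧ ω (n + 1) = w} =
        Preorder.frestrictLe (π := π) n ⁻¹' {z} ∩ (fun ω : (n : ℕ) → π n => ω (n + 1)) ⁻¹' {w} := by
      rw [← hE]
      rfl
    have hEm : MeasurableSet (Preorder.frestrictLe (π := π) n ⁻¹' {z}) :=
      Preorder.measurable_frestrictLe _ (measurableSet_singleton _)
    have hwm : MeasurableSet ((fun ω : (n : ℕ) → π n => ω (n + 1)) ⁻¹' {w}) :=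
      (measurable_pi_apply (n + 1)) (measurableSet_singleton w)
    -- the law given the past
    have hcond : ∀ y : (i : Finset.Iic n) → π i,
        Kernel.traj κ n y (Preorder.frestrictLe (π := π) n ⁻¹' {z} ∩
          (fun ω : (n : ℕ) → π n => ω (n + 1)) ⁻¹' {w}) =
        Set.indicator {z} (fun _ => K0 (h n) {w}) y := by
      intro y
      have hmap : (Kernel.traj κ n y).map (Preorder.frestrictLe n) = Measure.dirac y := by
        rw [Kernel.traj_map_frestrictLe_apply, Kernel.partialTraj_self, Kernel.id_apply]
      by_cases hy : y = z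
      · rw [Set.indicator_of_mem (Set.mem_singleton_iff.2 hy)]
        have hE1 : Kernel.traj κ n y (Preorder.frestrictLe (π := π) n ⁻¹' {z}) = 1 := by
          rw [← Measure.map_apply (Preorder.measurable_frestrictLe _)
            (measurableSet_singleton _), hmap, Measure.dirac_apply' _ (measurableSet_singleton _),
            Set.indicator_of_mem (Set.mem_singleton_iff.2 hy)]
          rfl
        have hE2 : (Kernel.traj κ n y) (Preorder.frestrictLe (π := π) n ⁻¹' {z})ᶜ = 0 :=
          (prob_compl_eq_zero_iff hEm).2 hE1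
        rw [Set.inter_comm, measure_inter_conull hE2]
        have h3 : (Kernel.traj κ n y) ((fun ω : (n : ℕ) → π n => ω (n + 1)) ⁻¹' {w}) =
            κ n y {w} := by
          rw [← Kernel.map_traj_succ_self (κ := κ) (a := n), Kernel.map_apply' _
            (measurable_pi_apply (n + 1)) _ (measurableSet_singleton w)]
        rw [h3, Kernel.comap_apply, hy]
        rfl
      · rw [Set.indicator_of_notMem fun h => hy (Set.mem_singleton_iff.1 h)]
        refine measure_mono_null Set.inter_subset_left ?_
        rw [← Measure.map_apply (Preorder.measurable_frestrictLe _)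
          (measurableSet_singleton _), hmap, Measure.dirac_apply' _ (measurableSet_singleton _),
          Set.indicator_of_notMem fun h => hy (Set.mem_singleton_iff.1 h)]
    rw [hF, hE]
    have h4 : (Kernel.traj κ 0 x₀) (Preorder.frestrictLe (π := π) n ⁻¹' {z} ∩
        (fun ω : (n : ℕ) → π n => ω (n + 1)) ⁻¹' {w}) =
        ∫⁻ y, Kernel.traj κ n y (Preorder.frestrictLe (π := π) n ⁻¹' {z} ∩
          (fun ω : (n : ℕ) → π n => ω (n + 1)) ⁻¹' {w}) ∂(Kernel.partialTraj κ 0 n x₀) := by
      rw [← Kernel.traj_comp_partialTraj (κ := κ) (Nat.zero_le n), Kernel.comp_apply' _ _ _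
        (hEm.inter hwm)]
    rw [h4]
    simp only [hcond]
    rw [lintegral_indicator (measurableSet_singleton _), lintegral_const,
      Measure.restrict_apply_univ, mul_comm]
    congr 1
    rw [← Measure.map_apply (Preorder.measurable_frestrictLe _)
      (measurableSet_singleton _), Kernel.traj_map_frestrictLe_apply]

theorem exists_walk (ch : List I → Finset I) (lam : ℝ) (hlam : 0 < lam) :
    ∃ (Ω : Type) (_ : MeasurableSpace Ω) (P : Measure Ω) (X : ℕ → Ω → List I),
      IsWalk ch lam X P := by
  let mL : MeasurableSpace (List I) := weM I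
  have hsing : MeasurableSingletonClass (List I) := ⟨fun _ => MeasurableSpace.measurableSet_top⟩
  let K0 : Kernel (List I) (List I) := ⟨weLaw ch lam, measurable_from_top⟩
  have : IsMarkovKernel K0 := ⟨fun v => weLaw_prob ch lam hlam v⟩
  obtain ⟨P, hP, h0, hs⟩ := we_chain K0 []
  refine ⟨ℕ → List I, inferInstance, P, fun n ω => ω n, hP, ?_, h0, ?_⟩
  · intro n w
    have h1 : Measurable fun ω : ℕ → List I => ω n := measurable_pi_apply n
    exact h1 (measurableSet_singleton w)
  · intro n h w
    rw [hs n h w]
    congr 1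
    exact weLaw_apply ch lam (h n) w

end Walk

end Pool.Agent.BW
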