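import Pool.Agent.Lib.MP_276d40_pr.OccBound
import Pool.Agent.Lib.MP_276d40_pr.EtaLin
import Pool.Agent.Lib.MP_276d40_pr.Apriori
import Pool.Agent.Lib.MP_276d40_pr.CosRec
import Pool.Agent.Lib.MP_276d40_pr.Fdd
import Pool.Agent.Lib.MP_276d40_pr.TwoPoint
import Pool.Agent.Lib.MP_276d40_pr.Osc
import Pool.Agent.Lib.MP_276d40_pr.Height
import Pool.Agent.Lib.MP_276d40_pr.FuncLim

/-!
# The invariance principle on a fixed good tree
-/

open MeasureTheory ProbabilityTheory Filter Topology Finset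
open scoped ENNReal NNReal

set_option linter.unusedSectionVars false
set_option linter.unusedVariables false

namespace Pool.Agent.BW

section Main1

variable {I : Type} [DecidableEq I] [Countable I] {ch : List I → Finset I} {ρ : ℝ}
  {W : List I → ℝ}

private theorem adapt_fun {Ω : Type} {X : ℕ → Ω → List I} {n k : ℕ} (hk : k ≤ n)
    (f : List I → ℝ) : Adapt X n (fun ω => f (X k ω)) := by
  intro ω ω' h
  simp only [h k hk]

theorem walkCLT_of_good {c1 cη κ : ℝ} (hT : TreeGood ch ρ c1 cη κ W) :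
    WalkCLT ch ρ (√(cη / c1) / κ) := by
  intro Ω _ P X hX Ω' _ P' _ B hB F hF hFb
  haveI := hX.prob
  have hBase : Base ch ρ W X P := ⟨hX, hT.one_lt, hT.W_nonneg, hT.W_flow, hT.W_root⟩
  obtain ⟨C, hO⟩ := occ_bound hBase hT.bd_eta
  have hE := etaW_of_good hT hX hO
  have hL := linW_of_good hT hX hO
  obtain ⟨κ', hκ', hlow⟩ := hT.low
  have hTi := tightW hBase hO hE hκ' (hlow 1 one_pos)
  have hθ : 0 < cη / c1 := div_pos hT.ceta_pos hT.c1_pos
  set θ := cη / c1 with hθdef
  have hκ := hT.kappa_pos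
  have hsθ : 0 < √θ := Real.sqrt_pos.2 hθ
  -- the process
  set x : ℕ → ℝ≥0 → Ω → ℝ := fun n t ω => ps W (X ⌊(n : ℝ≥0) * t⌋₊ ω) / √(n : ℝ) with hx
  have hm : ∀ n t, Measurable (x n t) := by
    intro n t
    refine Adapt.measurable hX (n := ⌊(n : ℝ≥0) * t⌋₊) ?_
    exact adapt_fun le_rfl (fun v => ps W v / √(n : ℝ))
  have hnn : ∀ n t ω, 0 ≤ x n t ω := fun n t ω =>
    div_nonneg (ps_nonneg hT.W_nonneg _) (Real.sqrt_nonneg _)
  have h0 : ∀ n, ∀ᵐ ω ∂P, x n 0 ω = 0 := by
    intro n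
    have hroot : (ch []).Nonempty := by
      by_contra h
      rw [Finset.not_nonempty_iff_eq_empty] at h
      have h1 := hT.W_flow []
      rw [Up, h, Finset.sum_empty] at h1
      have h2 : 0 < ρ * W [] := mul_pos (by linarith [hT.one_lt]) hT.W_root
      linarith
    filter_upwards [IsWalk.ae_path hX (by linarith [hT.one_lt]) hroot] with ω hω
    simp only [hx, mul_zero, Nat.floor_zero, hω.1, ps_nil, zero_div]
  have hrec : ∀ (k : ℕ) (s : Fin k → ℝ≥0) (c : Fin k → ℝ) (t u : ℝ≥0) (r : ℝ),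
      (∀ j, s j ≤ t) → t ≤ u → Tendsto (fun n => ∫ ω, (∏ j, Real.cos (c j * x n (s j) ω)) *
        (Real.cos (r * x n u ω) - Real.exp (-(θ * r ^ 2 * ((u : ℝ) - t) / 2)) *
          Real.cos (r * x n t ω)) ∂P) atTop (𝓝 0) := by
    intro k s c t u r hs htu
    rw [Metric.tendsto_atTop]
    intro ε hε
    have h := cos_rec hBase hθ hE hL hTi r t u htu (ε / 2) (half_pos hε)
    obtain ⟨N, hN⟩ := eventually_atTop.1 h
    refine ⟨N, fun n hn => ?_⟩
    rw [Real.dist_eq, sub_zero]
    refine lt_of_le_of_lt (hN n hn (fun ω => ∏ j, Real.cos (c j * x n (s j) ω)) ?_ ?_)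
      (half_lt_self hε)
    · intro ω ω' hh
      refine Finset.prod_congr rfl fun j _ => ?_
      simp only [hx]
      rw [hh ⌊(n : ℝ≥0) * s j⌋₊ (Nat.floor_mono (mul_le_mul_right (hs j) _))]
    · intro ω
      rw [Finset.abs_prod]
      exact Finset.prod_le_one (fun j _ => abs_nonneg _) (fun j _ => Real.abs_cos_le_one _)
  have hfdd := fdd_of_cos x hm hnn h0 hθ.le hrec B hB.toIsPreBrownianReal
  have h2 := two_point_of_fdd x hm hθ.le B hB.toIsPreBrownianReal hfdd
  have hosc : OscW W X P := osc_of_two_point hBase hθ hE hTi (C2 := 3 * θ ^ 2) h2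
  have hheight := height_close hBase hO hκ hκ' hT.spat hlow hTi hosc
  -- functional limit theorem
  have key := func_lim (P := P) (P' := P')
    (fun n k ω => ps W (X k ω) / (√θ * √(n : ℝ)))
    (fun n k ω => ((X k ω).length : ℝ) / (√θ / κ * √(n : ℝ)))
    (fun n k => Adapt.measurable hX (n := k)
      (adapt_fun le_rfl (fun v => ps W v / (√θ * √(n : ℝ)))))
    (fun n k => Adapt.measurable hX (n := k)
      (adapt_fun le_rfl (fun v => (v.length : ℝ) / (√θ / κ * √(n : ℝ)))))
    (fun t ω => |B t ω|) (fun t => (hB.aemeasurable t).abs)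
    (by filter_upwards [hB.cont] with ω hω using hω.abs) ?_ ?_ ?_ F hF hFb
  · exact key
  · intro k t ht φ hφ hφb
    have h := hfdd k t ht (fun y => φ (fun j => y j / √θ))
      (hφ.comp (continuous_pi fun j => (continuous_apply j).div_const _))
      (by obtain ⟨C, hC⟩ := hφb; exact ⟨C, fun y => hC _⟩)
    refine (h.congr fun n => ?_).trans (by
      refine le_of_eq ?_
      congr 1
      refine integral_congr_ae (ae_of_all _ fun ω => ?_)
      refine congrArg φ (funext fun j => ?_)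
      simp only
      field_simp)
    refine integral_congr_ae (ae_of_all _ fun ω => ?_)
    refine congrArg φ (funext fun j => ?_)
    simp only [hx]
    rw [div_div, mul_comm (√(n : ℝ))]
  · intro T hT' δ hδ η hη
    obtain ⟨β, hβ, h⟩ := hosc T hT' (δ * √θ) (mul_pos hδ hsθ) η hη
    refine ⟨β, hβ, ?_⟩
    filter_upwards [h, eventually_gt_atTop 0] with n hn hn0
    refine le_trans (measureReal_mono ?_ (measure_ne_top _ _)) hn
    rintro ω ⟨s, t, h1, h2, h3, h4⟩
    refine ⟨s, t, h1, h2, h3, ?_⟩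
    have hn' : 0 < √(n : ℝ) := Real.sqrt_pos.2 (by exact_mod_cast hn0)
    have e : ps W (X s ω) / (√θ * √(n : ℝ)) - ps W (X t ω) / (√θ * √(n : ℝ)) =
        (ps W (X s ω) - ps W (X t ω)) / (√θ * √(n : ℝ)) := by ring
    rw [e, abs_div, abs_of_pos (mul_pos hsθ hn'), lt_div_iff₀ (mul_pos hsθ hn')] at h4
    linarith
  · intro T hT' δ hδ
    have h := hheight T hT' (δ * √θ / κ) (div_pos (mul_pos hδ hsθ) hκ)
    refine squeeze_zero' (Eventually.of_forall fun n => measureReal_nonneg) ?_ h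
    filter_upwards [eventually_gt_atTop 0] with n hn0
    refine measureReal_mono ?_ (measure_ne_top _ _)
    rintro ω ⟨t, h1, h4⟩
    refine ⟨t, h1, ?_⟩
    have hn' : 0 < √(n : ℝ) := Real.sqrt_pos.2 (by exact_mod_cast hn0)
    have e : ((X t ω).length : ℝ) / (√θ / κ * √(n : ℝ)) - ps W (X t ω) / (√θ * √(n : ℝ)) =
        (((X t ω).length : ℝ) - ps W (X t ω) / κ) * (κ / (√θ * √(n : ℝ))) := by
      field_simp
    have hpos : 0 < κ / (√θ * √(n : ℝ)) := div_pos hκ (mul_pos hsθ hn')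
    rw [e, abs_mul, abs_of_pos hpos, mul_div_assoc', lt_div_iff₀ (mul_pos hsθ hn')] at h4
    rw [div_mul_eq_mul_div, div_lt_iff₀ hκ]
    linarith

end Main1

end Pool.Agent.BW
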