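import Pool.Agent.Lib.MP_276d40_pr.Moments

open MeasureTheory ProbabilityTheory Filter Topology Finset
open scoped ENNReal NNReal

set_option linter.unusedSectionVars false
set_option linter.unusedVariables false

namespace Pool.Agent.BW

section GW

variable {Q : Type} [Fintype Q] [DecidableEq Q] {q : Q → Measure (Q → ℕ)} {ρ : ℝ} {e l : Q → ℝ}

private theorem wl_measurable_NYe (ρ : ℝ) (e : Q → ℝ) (n : ℕ) (b : Q) :
    Measurable (NY ρ (fun c (_ : Env Q) => e c) n b) :=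
  measurable_NY (fun _ => measurable_const) n b

theorem measurable_Wf (ρ : ℝ) (e : Q → ℝ) (b : Q) : Measurable (Wf ρ e b) := by
  unfold Wf
  exact Measurable.limsup fun n => wl_measurable_NYe ρ e n b

theorem Wf_nonneg (hρ : 0 ≤ ρ) (he : ∀ b, 0 ≤ e b) (b : Q) (ω : Env Q) :
    0 ≤ Wf ρ e b ω := by
  unfold Wf
  rw [limsup_eq]
  refine Real.sInf_nonneg fun x hx => ?_
  obtain ⟨n, hn⟩ := (Filter.Eventually.exists hx)
  refine le_trans ?_ hn
  rw [NY]
  refine mu_nonneg hρ fun v _ => ?_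
  rw [lift]
  exact he _

private theorem wl_prob (H : MGWHyp q ρ e l) (b : Q) : IsProbabilityMeasure (mgw q b) := by
  have : ∀ v : List (Q × ℕ), IsProbabilityMeasure (q (typ b v)) := fun v => H.prob _
  unfold mgw
  infer_instance

/-- the centered increment functional -/
private noncomputable def wlD (ρ : ℝ) (e : Q → ℝ) (b : Q) (ω : Env Q) : ℝ :=
  ρ⁻¹ * Tb (fun c (_ : Env Q) => e c) b ω - e b

private theorem wlD_meas (ρ : ℝ) (e : Q → ℝ) (b : Q) : Measurable (wlD ρ e b) := by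
  unfold wlD
  exact ((measurable_Tb (fun _ => measurable_const) b).const_mul _).sub measurable_const

private theorem wl_const_memLp (H : MGWHyp q ρ e l) (b : Q) :
    MemLp (fun (_ : Env Q) => e b) 2 (mgw q b) := by
  have := wl_prob H b
  exact memLp_const _

private theorem wlD_memLp (H : MGWHyp q ρ e l) (b : Q) : MemLp (wlD ρ e b) 2 (mgw q b) := by
  have := wl_prob H b
  have h1 : MemLp (Tb (fun c (_ : Env Q) => e c) b) 2 (mgw q b) :=
    memLp_Tb H (fun _ => measurable_const) (fun c => wl_const_memLp H c) b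
  exact (h1.const_mul ρ⁻¹).sub (memLp_const _)

private theorem wlD_int (H : MGWHyp q ρ e l) (b : Q) : ∫ ω, wlD ρ e b ω ∂mgw q b = 0 := by
  have := wl_prob H b
  have hρ : ρ ≠ 0 := (lt_trans zero_lt_one H.one_lt).ne'
  have hi : ∀ c, Integrable (fun (_ : Env Q) => e c) (mgw q c) := fun c => by
    have := wl_prob H c
    exact integrable_const _
  have h1 : Integrable (Tb (fun c (_ : Env Q) => e c) b) (mgw q b) :=
    integrable_Tb H (fun _ => measurable_const) hi b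
  have h2 := integral_Tb H (fun _ => measurable_const) hi b
  have h3 : ∀ c, ∫ (_ : Env Q), e c ∂mgw q c = e c := fun c => by
    have := wl_prob H c
    simp
  simp only [h3] at h2
  have h4 : ∫ ω, wlD ρ e b ω ∂mgw q b
      = ρ⁻¹ * (∫ ω, Tb (fun c (_ : Env Q) => e c) b ω ∂mgw q b) - e b := by
    unfold wlD
    rw [integral_sub (h1.const_mul _) (integrable_const _), integral_const_mul]
    simp
  rw [h4, h2, H.Ae]
  field_simp
  ring

private theorem wl_NY_sub (ρ : ℝ) (Y Y' : Q → Env Q → ℝ) (n : ℕ) (a : Q) (ω : Env Q) :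
    NY ρ (fun b ω => Y b ω - Y' b ω) n a ω = NY ρ Y n a ω - NY ρ Y' n a ω := by
  rw [NY, NY, NY, ← mu_sub_fun]
  rfl

private theorem wl_incr (ρ : ℝ) (e : Q → ℝ) (n : ℕ) (a : Q) (ω : Env Q) :
    NY ρ (fun c (_ : Env Q) => e c) (n + 1) a ω - NY ρ (fun c (_ : Env Q) => e c) n a ω =
      NY ρ (wlD ρ e) n a ω := by
  have h1 : NY ρ (fun c (_ : Env Q) => e c) 1 =
      fun b ω => ρ⁻¹ * Tb (fun c (_ : Env Q) => e c) b ω := by
    funext b ω
    have := NY_succ ρ (fun c (_ : Env Q) => e c) 0 b ω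
    rw [zero_add] at this
    rw [this]
    congr 2
    funext c ω
    exact NY_zero ρ _ c ω
  rw [← NY_NY ρ (fun c (_ : Env Q) => e c) 1 n a ω, h1, ← wl_NY_sub]
  rfl

private theorem wl_sq (H : MGWHyp q ρ e l) (a : Q) :
    ∃ C : ℝ, 0 ≤ C ∧ ∀ n : ℕ, ∫ ω, (NY ρ (wlD ρ e) n a ω) ^ 2 ∂mgw q a ≤ C * (ρ ^ n)⁻¹ := by
  have hρ : 0 < ρ := lt_trans zero_lt_one H.one_lt
  have hb : ∀ b : Q, ∃ M : ℝ, 0 ≤ M ∧ ∀ m : ℕ, (ρ ^ m)⁻¹ * ((meanMat q) ^ m) a b ≤ M := by
    intro b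
    obtain ⟨M, hM⟩ := (H.conv a b).bddAbove_range
    refine ⟨max M 0, le_max_right _ _, fun m => le_trans (hM ⟨m, rfl⟩) (le_max_left _ _)⟩
  choose M hM0 hM using hb
  refine ⟨∑ b, M b * ∫ ω, wlD ρ e b ω ^ 2 ∂mgw q b,
    Finset.sum_nonneg fun b _ => mul_nonneg (hM0 b) (integral_nonneg fun ω => sq_nonneg _), ?_⟩
  intro n
  have h1 := Tb_iter_sq H (wlD_meas ρ e) (wlD_memLp H) (wlD_int H) n a
  have h2 : ∀ ω, (NY ρ (wlD ρ e) n a ω) ^ 2 = ((ρ ^ n)⁻¹) ^ 2 * (Tb^[n] (wlD ρ e) a ω) ^ 2 := by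
    intro ω
    rw [NY_eq]; ring
  simp only [h2]
  rw [integral_const_mul, h1]
  have h3 : ((ρ ^ n)⁻¹) ^ 2 * ∑ b, (meanMat q ^ n) a b * ∫ ω, wlD ρ e b ω ^ 2 ∂mgw q b =
      (∑ b, ((ρ ^ n)⁻¹ * (meanMat q ^ n) a b) * ∫ ω, wlD ρ e b ω ^ 2 ∂mgw q b) * (ρ ^ n)⁻¹ := by
    rw [Finset.mul_sum, Finset.sum_mul]
    refine Finset.sum_congr rfl fun b _ => ?_
    ring
  rw [h3]
  refine mul_le_mul_of_nonneg_right ?_ (inv_nonneg.2 (pow_nonneg hρ.le n))
  exact Finset.sum_le_sum fun b _ =>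
    mul_le_mul_of_nonneg_right (hM b n) (integral_nonneg fun ω => sq_nonneg _)

private theorem wl_NYD_memLp (H : MGWHyp q ρ e l) (n : ℕ) (a : Q) :
    MemLp (NY ρ (wlD ρ e) n a) 2 (mgw q a) := by
  have h := (Tb_iter_memLp H (wlD_meas ρ e) (wlD_memLp H) n a).const_mul (ρ ^ n)⁻¹
  have h2 : NY ρ (wlD ρ e) n a = fun ω => (ρ ^ n)⁻¹ * Tb^[n] (wlD ρ e) a ω := by
    funext ω; exact NY_eq ρ _ n a ω
  rw [h2]; exact h

private theorem wl_NYe_memLp (H : MGWHyp q ρ e l) (n : ℕ) (a : Q) :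
    MemLp (NY ρ (fun c (_ : Env Q) => e c) n a) 2 (mgw q a) := by
  have h := (Tb_iter_memLp H (fun _ => measurable_const) (fun c => wl_const_memLp H c)
    n a).const_mul (ρ ^ n)⁻¹
  have h2 : NY ρ (fun c (_ : Env Q) => e c) n a =
      fun ω => (ρ ^ n)⁻¹ * Tb^[n] (fun c (_ : Env Q) => e c) a ω := by
    funext ω; exact NY_eq ρ _ n a ω
  rw [h2]; exact h

private theorem wl_step (H : MGWHyp q ρ e l) (a : Q) :
    ∃ c r : ℝ, 0 ≤ c ∧ 0 < r ∧ r < 1 ∧ ∀ n : ℕ,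
      eLpNorm (NY ρ (fun c (_ : Env Q) => e c) (n + 1) a - NY ρ (fun c (_ : Env Q) => e c) n a) 2
        (mgw q a) ≤ ENNReal.ofReal (c * r ^ n) := by
  obtain ⟨C, hC0, hC⟩ := wl_sq H a
  have hρ : 0 < ρ := lt_trans zero_lt_one H.one_lt
  refine ⟨√C, √(ρ⁻¹), Real.sqrt_nonneg _, Real.sqrt_pos.2 (inv_pos.2 hρ), ?_, ?_⟩
  · rw [show (1 : ℝ) = √1 by simp]
    exact Real.sqrt_lt_sqrt (inv_nonneg.2 hρ.le) (inv_lt_one_of_one_lt₀ H.one_lt)
  · intro n
    have h1 : (NY ρ (fun c (_ : Env Q) => e c) (n + 1) a - NY ρ (fun c (_ : Env Q) => e c) n a) =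
        NY ρ (wlD ρ e) n a := by
      funext ω; exact wl_incr ρ e n a ω
    rw [h1, MemLp.eLpNorm_eq_integral_rpow_norm (by norm_num) (by norm_num) (wl_NYD_memLp H n a)]
    refine ENNReal.ofReal_le_ofReal ?_
    have h2 : ∀ ω, ‖NY ρ (wlD ρ e) n a ω‖ ^ (2 : ℝ≥0∞).toReal = (NY ρ (wlD ρ e) n a ω) ^ 2 := by
      intro ω
      rw [ENNReal.toReal_ofNat, Real.norm_eq_abs, Real.rpow_ofNat, sq_abs]
    simp only [h2]
    rw [ENNReal.toReal_ofNat, show ((2 : ℝ)⁻¹) = 1 / 2 by norm_num, ← Real.sqrt_eq_rpow]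
    refine le_trans (Real.sqrt_le_sqrt (hC n)) ?_
    rw [Real.sqrt_mul hC0]
    refine le_of_eq ?_
    congr 1
    rw [← inv_pow]
    refine (Real.sqrt_eq_iff_mul_self_eq_of_pos (pow_pos (Real.sqrt_pos.2 (inv_pos.2 hρ)) n)).2 ?_
    rw [← mul_pow, Real.mul_self_sqrt (inv_nonneg.2 hρ.le)]

private theorem wl_cauchy (H : MGWHyp q ρ e l) (a : Q) :
    ∃ B : ℕ → ℝ≥0∞, ∑' i, B i ≠ ∞ ∧ ∀ N n m : ℕ, N ≤ n → N ≤ m →
      eLpNorm (NY ρ (fun c (_ : Env Q) => e c) n a - NY ρ (fun c (_ : Env Q) => e c) m a) 2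
        (mgw q a) < B N := by
  obtain ⟨c, r, hc, hr0, hr1, h⟩ := wl_step H a
  set f : ℕ → Env Q → ℝ := fun n => NY ρ (fun c (_ : Env Q) => e c) n a with hf
  have hfm : ∀ n, AEStronglyMeasurable (f n) (mgw q a) := fun n =>
    (wl_measurable_NYe ρ e n a).aestronglyMeasurable
  have hr1' : 0 < 1 - r := sub_pos.2 hr1
  -- telescoping
  have key : ∀ N k : ℕ, eLpNorm (f (N + k) - f N) 2 (mgw q a) ≤
      ENNReal.ofReal (c * r ^ N * (1 - r ^ k) / (1 - r)) := by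
    intro N k
    induction k with
    | zero => simp
    | succ k ih =>
      have e1 : f (N + (k + 1)) - f N = (f (N + k + 1) - f (N + k)) + (f (N + k) - f N) := by
        rw [sub_add_sub_cancel]; rfl
      rw [e1]
      refine le_trans (eLpNorm_add_le ((hfm _).sub (hfm _)) ((hfm _).sub (hfm _)) (by norm_num)) ?_
      refine le_trans (add_le_add (h (N + k)) ih) ?_
      have hrk : r ^ k ≤ 1 := pow_le_one₀ hr0.le hr1.le
      rw [← ENNReal.ofReal_add (by positivity)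
        (div_nonneg (mul_nonneg (mul_nonneg hc (pow_nonneg hr0.le N)) (sub_nonneg.2 hrk)) hr1'.le)]
      refine ENNReal.ofReal_le_ofReal (le_of_eq ?_)
      rw [pow_add, pow_succ]
      field_simp
      ring
  have key2 : ∀ N n : ℕ, N ≤ n → eLpNorm (f n - f N) 2 (mgw q a) ≤
      ENNReal.ofReal (c * r ^ N / (1 - r)) := by
    intro N n hn
    obtain ⟨k, rfl⟩ := Nat.exists_eq_add_of_le hn
    refine le_trans (key N k) (ENNReal.ofReal_le_ofReal ?_)
    refine div_le_div_of_nonneg_right ?_ hr1'.le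
    have : 0 ≤ r ^ k := pow_nonneg hr0.le k
    have h2 : 0 ≤ c * r ^ N := mul_nonneg hc (pow_nonneg hr0.le N)
    nlinarith
  refine ⟨fun N => ENNReal.ofReal ((2 * c / (1 - r) + 1) * r ^ N), ?_, ?_⟩
  · have hs : Summable fun N : ℕ => (2 * c / (1 - r) + 1) * r ^ N :=
      (summable_geometric_of_lt_one hr0.le hr1).mul_left _
    have := hs.tsum_ofReal_ne_top
    exact this
  · intro N n m hn hm
    have e1 : f n - f m = (f n - f N) + -(f m - f N) := by abel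
    show eLpNorm (f n - f m) 2 (mgw q a) < _
    rw [e1]
    refine lt_of_le_of_lt (eLpNorm_add_le ((hfm _).sub (hfm _)) ((hfm _).sub (hfm _)).neg
      (by norm_num)) ?_
    rw [eLpNorm_neg]
    refine lt_of_le_of_lt (add_le_add (key2 N n hn) (key2 N m hm)) ?_
    have h3 : 0 ≤ c * r ^ N / (1 - r) :=
      div_nonneg (mul_nonneg hc (pow_nonneg hr0.le N)) hr1'.le
    rw [← ENNReal.ofReal_add h3 h3, ENNReal.ofReal_lt_ofReal_iff (by positivity)]
    have h4 : 0 < r ^ N := pow_pos hr0 N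
    have h5 : (2 * c / (1 - r) + 1) * r ^ N = c * r ^ N / (1 - r) + c * r ^ N / (1 - r) + r ^ N := by
      ring
    rw [h5]
    linarith

theorem tendsto_Wf (H : MGWHyp q ρ e l) (b : Q) :
    ∀ᵐ ω ∂mgw q b, Tendsto (fun n => NY ρ (fun c _ => e c) n b ω) atTop
      (𝓝 (Wf ρ e b ω)) := by
  obtain ⟨B, hB, hcau⟩ := wl_cauchy H b
  have h := Lp.ae_tendsto_of_cauchy_eLpNorm (μ := mgw q b) (p := 2)
    (f := fun n => NY ρ (fun c (_ : Env Q) => e c) n b)
    (fun n => (wl_measurable_NYe ρ e n b).aestronglyMeasurable) (by norm_num) hB hcau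
  filter_upwards [h] with ω hω
  obtain ⟨L, hL⟩ := hω
  have : Wf ρ e b ω = L := by
    unfold Wf
    exact hL.limsup_eq
  rw [this]
  exact hL

private theorem wl_tendsto_eLpNorm (H : MGWHyp q ρ e l) (b : Q) :
    Tendsto (fun n => eLpNorm (NY ρ (fun c (_ : Env Q) => e c) n b - Wf ρ e b) 2 (mgw q b)) atTop
      (𝓝 0) := by
  obtain ⟨B, hB, hcau⟩ := wl_cauchy H b
  exact Lp.cauchy_tendsto_of_tendsto (μ := mgw q b) (p := 2)
    (f := fun n => NY ρ (fun c (_ : Env Q) => e c) n b)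
    (fun n => (wl_measurable_NYe ρ e n b).aestronglyMeasurable) (Wf ρ e b) hB hcau (tendsto_Wf H b)

theorem memLp_Wf (H : MGWHyp q ρ e l) (b : Q) : MemLp (Wf ρ e b) 2 (mgw q b) :=
  Lp.memLp_of_cauchy_tendsto (by norm_num) (fun n => wl_NYe_memLp H n b) (Wf ρ e b)
    (measurable_Wf ρ e b).aestronglyMeasurable (wl_tendsto_eLpNorm H b)

private theorem wl_integral_NYe (H : MGWHyp q ρ e l) (n : ℕ) (b : Q) :
    ∫ ω, NY ρ (fun c (_ : Env Q) => e c) n b ω ∂mgw q b = e b := by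
  have := wl_prob H b
  induction n with
  | zero =>
    simp only [NY_zero]
    simp
  | succ n ih =>
    have h1 : ∀ ω, NY ρ (fun c (_ : Env Q) => e c) (n + 1) b ω =
        NY ρ (fun c (_ : Env Q) => e c) n b ω + NY ρ (wlD ρ e) n b ω := by
      intro ω
      rw [← wl_incr]; ring
    have hD : ∀ c, Integrable (wlD ρ e c) (mgw q c) := fun c => by
      have := wl_prob H c
      exact (wlD_memLp H c).integrable (by norm_num)
    simp only [h1]
    rw [integral_add ((wl_NYe_memLp H n b).integrable (by norm_num))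
      ((wl_NYD_memLp H n b).integrable (by norm_num)), ih]
    have h2 := (Tb_iter_moments H (wlD_meas ρ e) hD n b).2
    have h3 : ∀ ω, NY ρ (wlD ρ e) n b ω = (ρ ^ n)⁻¹ * Tb^[n] (wlD ρ e) b ω := NY_eq ρ _ n b
    simp only [h3]
    rw [integral_const_mul, h2]
    simp [wlD_int H]

theorem integral_Wf (H : MGWHyp q ρ e l) (b : Q) : ∫ ω, Wf ρ e b ω ∂mgw q b = e b := by
  have := wl_prob H b
  have h1 : Tendsto (fun n => eLpNorm (NY ρ (fun c (_ : Env Q) => e c) n b - Wf ρ e b) 1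
      (mgw q b)) atTop (𝓝 0) := by
    refine tendsto_of_tendsto_of_tendsto_of_le_of_le tendsto_const_nhds (wl_tendsto_eLpNorm H b)
      (fun n => zero_le) (fun n => ?_)
    exact eLpNorm_le_eLpNorm_of_exponent_le (by norm_num)
      ((wl_measurable_NYe ρ e n b).sub (measurable_Wf ρ e b)).aestronglyMeasurable
  have h2 := tendsto_integral_of_L1' (Wf ρ e b)
    (measurable_Wf ρ e b).aestronglyMeasurable
    (F := fun n => NY ρ (fun c (_ : Env Q) => e c) n b) (l := atTop)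
    (Eventually.of_forall fun n => (wl_NYe_memLp H n b).integrable (by norm_num)) h1
  simp only [wl_integral_NYe H] at h2
  exact (tendsto_nhds_unique h2 tendsto_const_nhds)

theorem Wf_flow (H : MGWHyp q ρ e l) (a : Q) :
    ∀ᵐ ω ∂mgw q a, ∀ v, ρ * lift a (Wf ρ e) ω v = Up (chE ω) (lift a (Wf ρ e) ω) v := by
  have hρ : ρ ≠ 0 := (lt_trans zero_lt_one H.one_lt).ne'
  have h := ae_sub H.prob (p := fun b ω => Tendsto (fun n => NY ρ (fun c (_ : Env Q) => e c) n b ω)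
    atTop (𝓝 (Wf ρ e b ω))) (fun b => tendsto_Wf H b) a
  filter_upwards [h] with ω hω v
  have h1 : Tendsto (fun n => NY ρ (fun c (_ : Env Q) => e c) (n + 1) (typ a v) (sub ω v)) atTop
      (𝓝 (Wf ρ e (typ a v) (sub ω v))) := (hω v).comp (tendsto_add_atTop_nat 1)
  have h2 : ∀ n, NY ρ (fun c (_ : Env Q) => e c) (n + 1) (typ a v) (sub ω v) =
      ρ⁻¹ * ∑ i ∈ chE ω v, NY ρ (fun c (_ : Env Q) => e c) n (typ a (i :: v)) (sub ω (i :: v)) := by
    intro n
    rw [NY_succ]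
    congr 1
    exact lift_Tb a (NY ρ (fun c (_ : Env Q) => e c) n) ω v
  have h3 : Tendsto (fun n => ρ⁻¹ * ∑ i ∈ chE ω v,
      NY ρ (fun c (_ : Env Q) => e c) n (typ a (i :: v)) (sub ω (i :: v))) atTop
      (𝓝 (ρ⁻¹ * ∑ i ∈ chE ω v, Wf ρ e (typ a (i :: v)) (sub ω (i :: v)))) :=
    (tendsto_finsetSum _ fun i _ => hω (i :: v)).const_mul _
  simp only [h2] at h1
  have h4 := tendsto_nhds_unique h1 h3
  show ρ * Wf ρ e (typ a v) (sub ω v) = ∑ i ∈ chE ω v, Wf ρ e (typ a (i :: v)) (sub ω (i :: v))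
  rw [h4]
  field_simp

end GW

end Pool.Agent.BW
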